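import Pool.Agent.Lib.MP_b4b3cb_nt.SY.St4

/-! Block sums of matrices and direct sums of representations. -/

namespace Pool.Agent.SY

open Matrix Pool.Agent.SelTwo Pool.Agent.HF Pool.Agent.SymTwo
open scoped TensorProduct

namespace Bs

variable {R : Type} [CommRing R] {n₁ n₂ : ℕ} (A A' : Matrix (Fin n₁) (Fin n₁) R)
  (B B' : Matrix (Fin n₂) (Fin n₂) R)

theorem mul : bs (A * A') (B * B') = bs A B * bs A' B' := by
  simp [bs, submatrix_mul_equiv, fromBlocks_multiply]

theorem one : bs (1 : Matrix (Fin n₁) (Fin n₁) R) (1 : Matrix (Fin n₂) (Fin n₂) R) = 1 := by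
  simp [bs]

theorem zero : bs (0 : Matrix (Fin n₁) (Fin n₁) R) (0 : Matrix (Fin n₂) (Fin n₂) R) = 0 := by
  simp [bs]

theorem add : bs (A + A') (B + B') = bs A B + bs A' B' := by
  ext i j
  obtain ⟨i | i, rfl⟩ := finSumFinEquiv.surjective i <;>
    obtain ⟨j | j, rfl⟩ := finSumFinEquiv.surjective j <;> simp [bs]

theorem sub : bs (A - A') (B - B') = bs A B - bs A' B' := by
  rw [eq_sub_iff_add_eq, ← add, sub_add_cancel, sub_add_cancel]

theorem pow (k : ℕ) : bs A B ^ k = bs (A ^ k) (B ^ k) := by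
  induction k with
  | zero => simp [one]
  | succ k ih => rw [pow_succ, ih, ← mul, ← pow_succ, ← pow_succ]

theorem nil (h : IsNilpotent A) (h' : IsNilpotent B) : IsNilpotent (bs A B) := by
  obtain ⟨a, h⟩ := h
  obtain ⟨b, h'⟩ := h'
  exact ⟨a + b, by
    rw [pow, pow_eq_zero_of_le (Nat.le_add_right a b) h, pow_eq_zero_of_le (Nat.le_add_left b a) h',
      zero]⟩

theorem vec (x : Fin n₁ → R) (y : Fin n₂ → R) :
    bs A B *ᵥ Fin.append x y = Fin.append (A *ᵥ x) (B *ᵥ y) := by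
  ext i
  refine Fin.addCases (fun i => ?_) (fun i => ?_) i <;>
    simp [bs, mulVec, dotProduct, Fin.sum_univ_add]

theorem map {S : Type} [CommRing S] (f : R →+* S) : (bs A B).map f = bs (A.map f) (B.map f) := by
  ext i j
  obtain ⟨i | i, rfl⟩ := finSumFinEquiv.surjective i <;>
    obtain ⟨j | j, rfl⟩ := finSumFinEquiv.surjective j <;> simp [bs]

theorem col₁ (i : Fin n₁) : (bs A B).col (Fin.castAdd n₂ i) = Fin.append (A.col i) 0 := by
  ext j
  refine Fin.addCases (fun j => ?_) (fun j => ?_) j <;> simp [bs]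

theorem col₂ (i : Fin n₂) : (bs A B).col (Fin.natAdd n₁ i) = Fin.append 0 (B.col i) := by
  ext j
  refine Fin.addCases (fun j => ?_) (fun j => ?_) j <;> simp [bs]

theorem rank {R : Type} [Field R] (A : Matrix (Fin n₁) (Fin n₁) R) (B : Matrix (Fin n₂) (Fin n₂) R) :
    (bs A B).rank = A.rank + B.rank := by
  rw [bs, rank_reindex, Matrix.rank, Matrix.rank, Matrix.rank, ← Module.finrank_prod,
    ← LinearMap.finrank_range_of_inj
      (f := (LinearEquiv.sumArrowLequivProdArrow _ _ R R).symm.toLinearMap ∘ₗ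
        (LinearMap.range A.mulVecLin).subtype.prodMap (LinearMap.range B.mulVecLin).subtype)
      ((LinearEquiv.sumArrowLequivProdArrow _ _ R R).symm.injective.comp
        (Subtype.val_injective.prodMap Subtype.val_injective))]
  refine congrArg (fun W : Submodule R (Fin n₁ ⊕ Fin n₂ → R) => Module.finrank R W)
    (Submodule.ext fun z => ⟨?_, ?_⟩)
  · rintro ⟨x, rfl⟩
    refine ⟨(⟨_, x ∘ Sum.inl, rfl⟩, ⟨_, x ∘ Sum.inr, rfl⟩), ?_⟩
    ext (i | i) <;> simp [fromBlocks_mulVec]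
  · rintro ⟨⟨⟨_, x, rfl⟩, _, y, rfl⟩, rfl⟩
    refine ⟨Sum.elim x y, ?_⟩
    ext (i | i) <;> simp [fromBlocks_mulVec]

theorem inj {α : Type} {x x' : Fin n₁ → α} {y y' : Fin n₂ → α}
    (h : Fin.append x y = Fin.append x' y') : x = x' ∧ y = y' :=
  ⟨funext fun i => by simpa using congrFun h (Fin.castAdd n₂ i),
    funext fun i => by simpa using congrFun h (Fin.natAdd n₁ i)⟩

theorem split {α : Type} (z : Fin (n₁ + n₂) → α) : ∃ x y, z = Fin.append x y :=
  ⟨_, _, Fin.append_castAdd_natAdd.symm⟩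

theorem app0 {α : Type} [Zero α] : Fin.append (0 : Fin n₁ → α) (0 : Fin n₂ → α) = 0 := by
  ext i
  refine Fin.addCases (fun i => ?_) (fun i => ?_) i <;> simp

variable {E : Type} [NontriviallyNormedField E] [NormedAlgebra ℚ_[2] E] {Y : Type} [CommRing Y]
  [Algebra ℚ_[2] Y]

theorem act_bs (A : Matrix (Fin n₁) (Fin n₁) E) (B : Matrix (Fin n₂) (Fin n₂) E)
    (s : Y →ₐ[ℚ_[2]] Y) (x : Fin n₁ → E ⊗[ℚ_[2]] Y) (y : Fin n₂ → E ⊗[ℚ_[2]] Y) :
    act (bs A B) s (Fin.append x y) = Fin.append (act A s x) (act B s y) := by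
  rw [act, act, act, map, ← vec]
  refine congrArg _ (funext fun i => ?_)
  refine Fin.addCases (fun i => ?_) (fun i => ?_) i <;> simp

theorem act_zero (A : Matrix (Fin n₁) (Fin n₁) E) (s : Y →ₐ[ℚ_[2]] Y) : act A s 0 = 0 := by
  simp only [act, Pi.zero_apply, map_zero]
  exact mulVec_zero _

end Bs

open Bs

theorem bsS : BsSt where
  mul := Bs.mul
  one _ _ := Bs.one
  det A B := by rw [bs, det_reindex_self, det_fromBlocks_zero₂₁]
  nil A B := ⟨fun h h' => by simpa only [Bs.sub, Bs.one] using nil _ _ h h',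
    fun h h' => by simpa only [Bs.add, Bs.one] using nil _ _ h h'⟩
  rank A B := by rw [← Bs.rank, Bs.sub, Bs.one]
  vec := Bs.vec
  map f _ _ A B := Bs.map A B f

theorem sum1 : Sum1St := by
  intro L _ E _ _ n₁ n₂ ρ₁ ρ₂ ρ h
  refine ⟨fun D h1 h2 v hv => ?_, fun j => ⟨fun h1 h2 z a b => ?_, ?_⟩, ?_⟩
  · obtain ⟨x, y, rfl⟩ := split v
    simp only [h, Bs.vec] at hv
    rw [h1 x fun g hg => (inj (hv g hg)).1, h2 y fun g hg => (inj (hv g hg)).2, app0]
  · obtain ⟨x, y, rfl⟩ := split z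
    simp only [h, act_bs] at a
    simp only [← Bs.one (R := E) (n₁ := n₁) (n₂ := n₂), act_bs] at b
    rw [h1 x (fun g u s p q => (inj (a g u s p q)).1) fun s p => (inj (b s p)).1,
      h2 y (fun g u s p q => (inj (a g u s p q)).2) fun s p => (inj (b s p)).2, app0]
  · rintro h₁ h₂ ⟨P₁, u₁, k₁⟩ ⟨P₂, u₂, k₂⟩
    refine ⟨bs P₁ P₂, ?_, fun g u s p q i => ?_⟩
    · rw [isUnit_iff_isUnit_det] at *
      rw [bsS.det]
      exact u₁.mul u₂
    · refine Fin.addCases (fun i => ?_) (fun i => ?_) i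
      · rw [h, col₁, act_bs, k₁ g u s p q, act_zero, Fin.append_left]
        ext l
        refine Fin.addCases (fun l => ?_) (fun l => ?_) l <;> simp
      · rw [h, col₂, act_bs, k₂ g u s p q, act_zero, Fin.append_right]
        ext l
        refine Fin.addCases (fun l => ?_) (fun l => ?_) l <;> simp
  · rintro 𝔓 a ⟨N, β, t, η, a1, a2, a3, a4, a5, a6, a7, a8, a9⟩ h2
    refine ⟨N, β, t, η, a1, a2, a3, a4, a5, a6, a7, fun g hg e => ?_, ?_⟩
    · rw [h]
      exact (bsS.nil _ _).1 (a8 g hg e) (by rw [h2 g hg, sub_self]; exact IsNilpotent.zero)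
    · rw [h, bsS.rank, h2 t a5, sub_self, rank_zero, add_zero, a9]

end Pool.Agent.SY
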