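import Pool.Agent.Lib.MP_b4b3cb_nt.SY.St4

/-! Direct sums: the Selmer group. -/

namespace Pool.Agent.SY

open NumberField Matrix Module Submodule Pool.Agent.SelTwo Pool.Agent.HF
open scoped TensorProduct

namespace Sum2

section app

variable {α β : Type} {m n : ℕ}

theorem app_inj {x x' : Fin m → α} {y y' : Fin n → α} :
    Fin.append x y = Fin.append x' y' ↔ x = x' ∧ y = y' :=
  ⟨fun h => ⟨funext fun i => by simpa using congrFun h (Fin.castAdd n i),
    funext fun i => by simpa using congrFun h (Fin.natAdd m i)⟩, fun h => h.1 ▸ h.2 ▸ rfl⟩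

theorem app_ex {P : (Fin (m + n) → α) → Prop} : (∃ z, P z) ↔ ∃ x y, P (Fin.append x y) :=
  ⟨fun ⟨z, h⟩ => ⟨_, _, (Fin.append_castAdd_natAdd (f := z)).symm ▸ h⟩, fun ⟨_, _, h⟩ => ⟨_, h⟩⟩

theorem app_map (f : α → β) (x : Fin m → α) (y : Fin n → α) :
    (fun i => f (Fin.append x y i)) = Fin.append (fun i => f (x i)) fun i => f (y i) :=
  funext fun i => Fin.addCases (fun i => by simp) (fun i => by simp) i

theorem app_add [Add α] (x x' : Fin m → α) (y y' : Fin n → α) :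
    Fin.append x y + Fin.append x' y' = Fin.append (x + x') (y + y') :=
  funext fun i => Fin.addCases (fun i => by simp) (fun i => by simp) i

theorem app_sub [Sub α] (x x' : Fin m → α) (y y' : Fin n → α) :
    Fin.append x y - Fin.append x' y' = Fin.append (x - x') (y - y') :=
  funext fun i => Fin.addCases (fun i => by simp) (fun i => by simp) i

theorem app_cont {Γ : Type} [TopologicalSpace Γ] [TopologicalSpace α] {x : Γ → Fin m → α}
    {y : Γ → Fin n → α} {D : Set Γ} :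
    ContinuousOn (fun g => Fin.append (x g) (y g)) D ↔ ContinuousOn x D ∧ ContinuousOn y D := by
  simp only [continuousOn_pi, Fin.forall_fin_add, Fin.append_left, Fin.append_right]

end app

variable {E : Type} [NontriviallyNormedField E]

section lin

variable {X Y Z : Type} [AddCommGroup X] [Module E X] [AddCommGroup Y] [Module E Y]
  [AddCommGroup Z] [Module E Z]

theorem span_eq (e : (X × Y) ≃ₗ[E] Z) {A : Set X} {B : Set Y} {C : Set Z} (hA : 0 ∈ A) (hB : 0 ∈ B)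
    (h : ∀ x y, x ∈ A ∧ y ∈ B ↔ e (x, y) ∈ C) :
    (span E C).map e.symm.toLinearMap = (span E A).prod (span E B) := by
  rw [← span_prod_eq E hA hB, map_span]
  congr 1
  ext ⟨x, y⟩
  rw [Set.mem_prod, h]
  exact ⟨fun ⟨z, hz, k⟩ => by simpa [← k] using hz, fun k => ⟨_, k, e.symm_apply_apply _⟩⟩

theorem rank_prod (P : Submodule E X) (Q : Submodule E Y) [Module.Finite E P] [Module.Finite E Q] :
    finrank E (P.prod Q) = finrank E P + finrank E Q := by
  rw [← finrank_prod]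
  exact LinearEquiv.finrank_eq
    { P.toAddSubmonoid.prodEquiv Q.toAddSubmonoid with map_smul' := fun _ _ => rfl }

theorem rank_quot {f : X →ₗ[E] Y} {Q : Submodule E X} (h : LinearMap.ker f = Q)
    (P : Submodule E X) : finrank E (P.map Q.mkQ) = finrank E (P.map f) := by
  rw [← Q.liftQ_mkQ f h.ge, map_comp]
  exact (equivMapOfInjective _ (LinearMap.ker_eq_bot.1 (Q.ker_liftQ_eq_bot f h.ge h.le))
    _).finrank_eq

theorem qdim_add (e : (X × Y) ≃ₗ[E] Z) {A A' : Set X} {B B' : Set Y} {C C' : Set Z} (hA : 0 ∈ A)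
    (hB : 0 ∈ B) (h : ∀ x y, x ∈ A ∧ y ∈ B ↔ e (x, y) ∈ C) (hA' : 0 ∈ A') (hB' : 0 ∈ B')
    (h' : ∀ x y, x ∈ A' ∧ y ∈ B' ↔ e (x, y) ∈ C') (fg : (span E C).FG) :
    (span E A).FG ∧ (span E B).FG ∧ qdim E C C' = qdim E A A' + qdim E B B' := by
  have k := span_eq e hA hB h
  have f0 := k ▸ fg.map e.symm.toLinearMap
  have f1 : (span E A).FG := prod_map_fst (span E A) (span E B) ▸ f0.map (LinearMap.fst E X Y)
  have f2 : (span E B).FG := prod_map_snd (span E A) (span E B) ▸ f0.map (LinearMap.snd E X Y)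
  refine ⟨f1, f2, ?_⟩
  have := Module.Finite.iff_fg.2 (f1.map (span E A').mkQ)
  have := Module.Finite.iff_fg.2 (f2.map (span E B').mkQ)
  rw [qdim, qdim, qdim, ← rank_prod, ← LinearMap.prodMap_map_prod, ← k, ← map_comp]
  refine rank_quot ?_ _
  rw [LinearMap.ker_comp, LinearMap.ker_prodMap, ker_mkQ, ker_mkQ, ← span_eq e hA' hB' h',
    comap_map_eq_of_injective e.symm.injective]

end lin

/-- Appending functions. -/
def eqv (Γ E : Type) [Field E] (m n : ℕ) :
    ((Γ → Fin m → E) × (Γ → Fin n → E)) ≃ₗ[E] Γ → Fin (m + n) → E where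
  toFun x g := Fin.append (x.1 g) (x.2 g)
  invFun z := (fun g i => z g (Fin.castAdd n i), fun g i => z g (Fin.natAdd m i))
  map_add' x y := funext fun g => (app_add _ _ _ _).symm
  map_smul' c x := funext fun g => (app_map (c • ·) (x.1 g) (x.2 g)).symm
  left_inv x := by ext <;> simp
  right_inv z := funext fun g => Fin.append_castAdd_natAdd

end Sum2

open Sum2 in
theorem sum2 (hb : BsSt) : Sum2St := by
  intro L _ _ E _ _ n₁ n₂ ρ₁ ρ₂ ρ h
  have cob : ∀ (D : Subgroup (Gal L)) x y, Cob ρ₁ D x ∧ Cob ρ₂ D y ↔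
      Cob ρ D fun g => Fin.append (x g) (y g) := fun D x y => by
    simp only [Cob, app_ex, h, hb.vec, app_sub, app_inj, forall_and, exists_and_left,
      exists_and_right]
  have coc : ∀ x y, Coc ρ₁ ⊤ x ∧ Coc ρ₂ ⊤ y ↔ Coc ρ ⊤ fun g => Fin.append (x g) (y g) :=
    fun x y => by
      simp only [Coc, app_cont, h, hb.vec, app_add, app_inj, forall_and]
      exact and_and_and_comm
  have cri : ∀ j x y, Cris j ρ₁ x ∧ Cris j ρ₂ y ↔ Cris j ρ fun g => Fin.append (x g) (y g) :=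
    fun j x y => by
      simp only [Cris, act, app_ex, h, hb.map, app_map, hb.vec, app_sub, app_inj, forall_and,
        exists_and_left, exists_and_right]
  have hf : ∀ x y, x ∈ Hf ρ₁ ∧ y ∈ Hf ρ₂ ↔ (fun g => Fin.append (x g) (y g)) ∈ Hf ρ := fun x y => by
    simp only [Hf, Set.mem_setOf_eq, ← cob, ← coc, ← cri, forall_and]
    exact ⟨fun ⟨⟨a, b, c⟩, a', b', c'⟩ => ⟨⟨a, a'⟩, ⟨b, b'⟩, c, c'⟩,
      fun ⟨⟨a, a'⟩, ⟨b, b'⟩, c, c'⟩ => ⟨⟨a, b, c⟩, a', b', c'⟩⟩
  have c0 : ∀ {n : ℕ} (σ : Gal L →* Matrix (Fin n) (Fin n) E) (D : Subgroup (Gal L)), Cob σ D 0 :=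
    fun σ D => ⟨0, fun g _ => by simp⟩
  have h0 : ∀ {n : ℕ} (σ : Gal L →* Matrix (Fin n) (Fin n) E), 0 ∈ Hf σ := fun σ =>
    ⟨⟨continuousOn_const, fun g _ g' _ => by simp⟩, fun _ _ _ => c0 σ _,
      fun j => ⟨0, fun g u s _ _ => by
        simp only [act, Pi.zero_apply, map_zero, sub_zero]
        exact mulVec_zero _⟩⟩
  exact ⟨hf, qdim_add (eqv (Gal L) E n₁ n₂) (h0 ρ₁) (h0 ρ₂) hf (c0 ρ₁ ⊤) (c0 ρ₂ ⊤) (cob ⊤)⟩

end Pool.Agent.SY
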