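import Pool.Agent.Lib.MP_b4b3cb_nt.SY.Ts
import Pool.Agent.Lib.MP_b4b3cb_nt.Eps.Nf

/-! The local constant at a prime of multiplicative type. -/

namespace Pool.Agent.SY

open scoped Classical
open NumberField Matrix Polynomial Pool.Agent.SelTwo Pool.Agent.SymTwo Pool.Agent.EP
open Pool.Agent.SC (Over IsFr)
open Pool.Agent.Stark (Pr og ord)

namespace EpsA

theorem lin {E : Type} [NontriviallyNormedField E] {m : ℕ}
    {Q M M' T : Matrix (Fin (m + 1)) (Fin (m + 1)) E} (hQ : IsUnit Q) (hM : M * Q = Q * T)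
    (hM' : M' * M = 1) (tri : ∀ i : Fin m, T i.succ 0 = 0) {U : Submodule E (Fin (m + 1) → E)}
    (hU : ∀ x, (∀ i : Fin m, (Q⁻¹ *ᵥ x) i.succ = 0) ↔ x ∈ U) :
    Qd U (-M') ((-1) ^ m * (T.submatrix Fin.succ Fin.succ).det⁻¹) := by
  have d := (isUnit_iff_isUnit_det _).1 hQ
  have a : Q⁻¹ * M' * Q * T = 1 := by
    rw [mul_assoc _ Q, ← hM, ← mul_assoc, mul_assoc _ M', hM', mul_one, nonsing_inv_mul _ d]
  set S := Q⁻¹ * M' * Q with hS
  have e0 : ∀ i, S i 0 * T 0 0 = (1 : Matrix (Fin (m + 1)) (Fin (m + 1)) E) i 0 := fun i => by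
    rw [← a, mul_apply, Fin.sum_univ_succ]
    simp [tri]
  have t0 : T 0 0 ≠ 0 := fun z => by simpa [z] using e0 0
  have s0 : ∀ i : Fin m, S i.succ 0 = 0 := fun i => by
    have := e0 i.succ
    rw [one_apply_ne (Fin.succ_ne_zero i)] at this
    exact (mul_eq_zero.1 this).resolve_right t0
  have b : S.submatrix Fin.succ Fin.succ * T.submatrix Fin.succ Fin.succ = 1 := by
    ext i j
    have := congrFun (congrFun a i.succ) j.succ
    rw [mul_apply, Fin.sum_univ_succ, s0, zero_mul, zero_add] at this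
    rw [mul_apply]
    simpa [one_apply] using this
  refine ⟨m, Q⁻¹.submatrix Fin.succ id, -S.submatrix Fin.succ Fin.succ, fun u => ?_, fun x => ?_,
    ?_, ?_⟩
  · refine ⟨Q *ᵥ Fin.cons 0 u, funext fun i => ?_⟩
    have : (Q⁻¹ *ᵥ Q *ᵥ Fin.cons 0 u) i.succ = u i := by
      rw [mulVec_mulVec, nonsing_inv_mul _ d, one_mulVec, Fin.cons_succ]
    exact this
  · rw [← hU, funext_iff]
    rfl
  · have c : Q⁻¹ * M' = S * Q⁻¹ := by rw [hS, mul_nonsing_inv_cancel_right _ _ d]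
    ext i j
    have := congrFun (congrFun c i.succ) j
    rw [mul_apply (M := S), Fin.sum_univ_succ, s0, zero_mul, zero_add, mul_apply] at this
    simpa [mul_apply] using this
  · have := congrArg det b
    rw [det_mul, det_one] at this
    rw [det_neg, Fintype.card_fin, eq_inv_of_mul_eq_one_left this]

theorem prod_q {E : Type} [Field E] {q δ : E} (h : q ≠ 0) (hδ : δ * δ = 1) (k : ℕ) :
    ∏ i : Fin (2 * k + 1), (q ^ k)⁻¹ * ((δ * q) ^ (2 * k + 1 - (i + 1)) * δ ^ (i + 1 : ℕ)) = δ := by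
  have d : δ ^ (2 * k + 1) = δ := by rw [pow_succ, pow_mul, sq, hδ, one_pow, one_mul]
  have e : ∀ i : Fin (2 * k + 1), (q ^ k)⁻¹ * ((δ * q) ^ (2 * k + 1 - (i + 1)) * δ ^ (i + 1 : ℕ)) =
      (q ^ k)⁻¹ * δ * q ^ (2 * k + 1 - 1 - i) := fun i => by
    have := i.2
    rw [mul_pow, mul_right_comm, ← pow_add, show 2 * k + 1 - (i + 1) + (i + 1) = 2 * k + 1 by omega,
      d, mul_assoc, show 2 * k + 1 - (i + 1) = 2 * k + 1 - 1 - i by omega]
  have s : ∑ i : Fin (2 * k + 1), (2 * k + 1 - 1 - (i : ℕ)) = k * (2 * k + 1) := by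
    rw [Fin.sum_univ_eq_sum_range fun i => 2 * k + 1 - 1 - i,
      Finset.sum_range_reflect (fun i => i)]
    have := Finset.sum_range_id_mul_two (2 * k + 1)
    rw [Nat.add_sub_cancel] at this
    nlinarith
  rw [Finset.prod_congr rfl fun i _ => e i, Finset.prod_mul_distrib, Finset.prod_const,
    Finset.prod_pow_eq_pow_sum, s, Finset.card_fin, mul_pow, d, pow_mul, inv_pow]
  field_simp

variable {E : Type} [NontriviallyNormedField E] {L : Type} [Field L] [NumberField L] {𝔓 : Idl L}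
  {w : Pr L} (hw : Over 𝔓 w) (h2 : 2 ∉ 𝔓) {ϖ : L} (v : og w ϖ = 1) {Ψ : AddChar (𝓞 L) E}
  (s1 : Ψ ≠ 1) (s2 : ∀ x ∈ w.asIdeal, Ψ x = 1)

include hw h2 v s1 s2

theorem blk : Blk 𝔓 ϖ Ψ 1 (fun _ => 1) (-1) ∧ ∃ (σ : Gal L) (α : AlgebraicClosure L),
    IsFr 𝔓 (nq 𝔓) σ ∧ α ^ (nq 𝔓 - 1) = -algebraMap L _ ϖ ∧ σ α = α ∧ 1 < nq 𝔓 := by
  obtain ⟨κ, _, p, _, _, π, Φ, hπ, hΦ, A, fx, -⟩ := exRes hw h2 s1 s2
  have hN := nmem hπ A h2 one_pos
  have N0 : 0 < nq 𝔓 ^ 1 - 1 := Nat.pos_of_ne_zero fun a => hN (by rw [a]; simp)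
  have hN' : ((nq 𝔓 ^ 1 - 1 : ℕ) : 𝓞 (AlgebraicClosure L)) ∉ 𝔓 := fun a =>
    hN (𝔓.mem_of_dvd (Nat.cast_dvd_cast (Dvd.intro_left 2 rfl)) a)
  have v0 : algebraMap L (AlgebraicClosure L) ϖ ≠ 0 :=
    (_root_.map_ne_zero _).2 fun z => by simp [z, og, ord] at v
  constructor
  · obtain ⟨α, hα⟩ := IsAlgClosed.exists_pow_nat_eq (algebraMap L (AlgebraicClosure L) ϖ) N0
    obtain ⟨t, ht, η, hη, e⟩ := sur hw v hN' hα
    have : ∀ x : Mu 𝔓 1, ∃ y : 𝓞 L, π (algebraMap _ _ y) = π x.1.1 := fun x => fx _ (by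
      have := congrArg (fun u : (𝓞 (AlgebraicClosure L))ˣ => π u.1) ((mem_rootsOfUnity _ _).1 x.2)
      simp only [Units.val_pow_eq_pow_val, map_pow, Units.val_one, map_one, pow_one] at this
      generalize π x.1.1 = c at this ⊢
      rw [← Nat.sub_add_cancel A.one.le, pow_succ, this, one_mul])
    choose y hy using this
    have B : Blk 𝔓 ϖ Ψ 1 (fun _ => 1) (∑ᶠ x : Mu 𝔓 1, (1 : Mu 𝔓 1 →* E) x⁻¹ * Ψ (y x)) :=
      ⟨α, 1, y, one_pos, hα, fun _ _ _ _ => rfl, fun j a b => by omega, fun x => by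
        rw [← hπ, map_sub, hy]; simp, rfl⟩
    have α0 : α ≠ 0 := fun z => v0 (by rw [← hα, z, zero_pow N0.ne'])
    have := (nfB hπ hw.1 hΦ hN α0 (by rw [pow_mul', hα]) ht hη e B dvd_rfl).2.1
    rwa [this, g0 A one_pos (prim hπ hw.1 hN hη dvd_rfl)] at B
  · obtain ⟨α, hα⟩ := IsAlgClosed.exists_pow_nat_eq (algebraMap L (AlgebraicClosure L) (-ϖ)) N0
    obtain ⟨t, ht, η, hη, e⟩ := sur hw (by simpa [og, ord] using v) hN' hα
    obtain ⟨σ, -, hσ⟩ := (SP.facts L (AlgebraicClosure L)).fr.ex hw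
    rw [← nq_eq hw] at hσ
    have α0 : α ≠ 0 := fun z => v0 (by
      rw [z, zero_pow N0.ne', map_neg] at hα; exact neg_eq_zero.1 hα.symm)
    have hη' := hη.map_of_injective (f := algebraMap _ (AlgebraicClosure L))
      (FaithfulSMul.algebraMap_injective _ _)
    have := NeZero.mk N0.ne'
    obtain ⟨j, -, hj⟩ := hη'.eq_pow_of_pow_eq_one (ξ := σ⁻¹ α / α) (by
      rw [div_pow, ← map_pow, hα, AlgEquiv.commutes, div_self (hα ▸ pow_ne_zero _ α0)])
    have te : t η = η := by simpa using fr_root hw.1 (ine_fr ht) hN' hη'.pow_eq_one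
    have tj : ∀ j : ℕ, (t ^ j) α = (η : AlgebraicClosure L) ^ j * α := fun j => by
      induction j with
      | zero => simp
      | succ j ih => rw [pow_succ', AlgEquiv.mul_apply, ih, map_mul, map_pow, te, e]; ring
    refine ⟨σ * t ^ j, α, fun x => ?_, by rw [← pow_one (nq 𝔓), hα, map_neg], ?_, A.one⟩
    · have a := ine_fr (pow_mem ht j) x
      have b := hσ ((t ^ j) • x)
      rw [pow_one] at a
      have c := 𝔓.mem_of_dvd (sub_dvd_pow_sub_pow _ _ (nq 𝔓)) a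
      simpa [mul_smul] using add_mem b c
    · have : (η : AlgebraicClosure L) ^ j = σ⁻¹ α / α := hj
      rw [AlgEquiv.mul_apply, tj, this, div_mul_cancel₀ _ α0]
      exact σ.apply_symm_apply α

end EpsA

theorem eps (S : SymSt) : EpsSt := by
  intro L _ _ E _ _ t hdet k ρ hρ ρ' ⟨D, hD, hE⟩ 𝔓 hm h2 w hw ϖ Ψ v s1 s2 δ hδ
    ⟨x, x0, xi, ⟨g0, g1, g2⟩, xf⟩
  have ho : Over 𝔓 w := ⟨hm, fun y => by rw [← hw]; rfl⟩
  obtain ⟨B, σ, α, hσ, hα, sα, q1⟩ := EpsA.blk (ϖ := ϖ) ho h2 (by simp [og, ord, v]) s1 s2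
  have F := (SP.facts L (AlgebraicClosure L)).fr
  have cf : ∀ g n, IsFr 𝔓 n g → (tq (t g)).det = n := fun g n h => by
    have : (cyclotomicCharacter (AlgebraicClosure L) 2 g.toRingEquiv : ℤ_[2]) = n := F.cyc_fr hm h2 h
    rw [hdet, cyc, this]
    simp
  obtain ⟨P, hP, tr⟩ := exP x0
  let f := algebraMap ℚ_[2] E
  have := charZero_of_injective_algebraMap f.injective
  have dD := (isUnit_iff_isUnit_det _).1 hD
  set Q := D⁻¹ * (sym (2 * k + 1) P).map f with hQ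
  have uQ : IsUnit Q := by
    refine ((isUnit_nonsing_inv_iff).2 hD).mul (IsUnit.map f.mapMatrix ?_)
    refine (Matrix.isUnit_iff_isUnit_det _).2 (Matrix.isUnit_det_of_right_inverse
      (B := sym _ P⁻¹) ?_)
    rw [← S.mul, mul_nonsing_inv _ ((isUnit_iff_isUnit_det _).1 hP), S.one]
  have dQ := (isUnit_iff_isUnit_det _).1 uQ
  have cj : ∀ g T, tq (t g) * P = P * T → ρ' g * Q =
      Q * ((f (tq (t g)).det ^ k)⁻¹ • sym (2 * k + 1) (T.map f)) := fun g T h => by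
    have a : ρ' g * D⁻¹ = D⁻¹ * (ρ g).map f := by
      rw [← nonsing_inv_mul_cancel_left D (ρ' g) dD, hE, mul_assoc, mul_assoc,
        mul_nonsing_inv _ dD, mul_one]
    have b : ρ g * sym _ P = sym _ P * (((tq (t g)).det ^ k)⁻¹ • sym (2 * k + 1) T) := by
      rw [hρ, smul_mul_assoc, mul_smul_comm, ← S.mul, ← S.mul, h]
    rw [hQ, ← mul_assoc, a, mul_assoc, mul_assoc, ← Matrix.map_mul, b, Matrix.map_mul, S.map]
    congr 2
    ext i j
    simp
  have ci : ∀ g ∈ Ine 𝔓, ∃ b : ℚ_[2], tq (t g) * P = P * !![1, b; 0, 1] ∧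
      ρ' g * Q = Q * sym (2 * k + 1) !![1, f b; 0, 1] := fun g hg => by
    obtain ⟨b, d, h1, h3⟩ := tr (t g) 1 (by rw [xi g hg, one_smul])
    have e := cf g 1 (ine_fr hg)
    simp only [PadicInt.coe_one, one_mul, e, Nat.cast_one] at h1 h3
    subst h3
    refine ⟨b, h1, ?_⟩
    rw [cj g _ h1, e]
    simp only [Nat.cast_one, map_one, one_pow, inv_one, one_smul]
    congr 2
    ext i j
    fin_cases i <;> fin_cases j <;> simp
  have fx : ∀ {M T : Matrix _ _ E}, M * Q = Q * T → ∀ y, M *ᵥ y = y ↔ T *ᵥ Q⁻¹ *ᵥ y = Q⁻¹ *ᵥ y :=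
    fun {M T} h y => by
      have : T * Q⁻¹ = Q⁻¹ * M := by
        rw [← nonsing_inv_mul_cancel_left Q T dQ, ← h, mul_assoc, mul_nonsing_inv_cancel_right _ _ dQ]
      rw [mulVec_mulVec, this, ← mulVec_mulVec]
      exact (mulVec_injective_of_isUnit (isUnit_nonsing_inv_iff.2 uQ)).eq_iff.symm
  obtain ⟨b, d, h1, h3⟩ := tr (t σ) _ (xf σ hσ)
  have e := cf σ _ hσ
  have q0 : (nq 𝔓 : ℚ_[2]) ≠ 0 := Nat.cast_ne_zero.2 (by omega)
  have δ2 : (δ : ℚ_[2]) * δ = 1 := by rcases hδ with rfl | rfl <;> simp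
  simp only [PadicInt.coe_mul, PadicInt.coe_intCast, PadicInt.coe_natCast, e] at h1 h3
  obtain rfl : d = δ := mul_left_cancel₀ q0 (by linear_combination δ * h3 - nq 𝔓 * d * δ2)
  have T := S.tri (2 * k + 1) ((!![(δ : ℚ_[2]) * nq 𝔓, b; 0, δ]).map f) (by simp)
  refine ⟨2 * k + 1 + 1, fun _ => 1, fun _ _ => 1, fun _ => -1, σ, α, -δ, fun _ => B,
    fun g hg => ?_, hσ, hα, sα, ?_, by simp⟩
  · obtain ⟨b, -, h⟩ := ci g hg
    have T := S.tri (2 * k + 1) !![1, f b; 0, 1] (by simp)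
    rw [← mul_nonsing_inv_cancel_right Q (ρ' g) dQ, h, charpoly_mul_comm,
      nonsing_inv_mul_cancel_left _ _ dQ, charpoly_of_isUpperTriangular _ fun i j a => T.1 i j a]
    simp [T.2]
  · have := EpsA.lin (U := Fx ρ' (Ine 𝔓)) uQ (cj σ _ h1) (M' := ρ' σ⁻¹)
      (by rw [← map_mul, inv_mul_cancel, map_one]) (fun i => by
        rw [Matrix.smul_apply, T.1 _ _ (Fin.succ_pos i), smul_zero]) fun y => ?_
    · convert this using 1
      rw [det_of_upperTriangular fun i j a => by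
        rw [submatrix_apply, Matrix.smul_apply, T.1 i.succ j.succ (Fin.succ_lt_succ_iff.2 a),
          smul_zero]]
      have δ3 : (δ : E) * δ = 1 := by rcases hδ with rfl | rfl <;> simp
      have := EpsA.prod_q (q := (nq 𝔓 : E)) (Nat.cast_ne_zero.2 (by omega)) δ3 k
      simp only [submatrix_apply, Matrix.smul_apply, T.2, e, smul_eq_mul, Fin.val_succ]
      simp only [map_apply, of_apply, cons_val', cons_val_zero, cons_val_one, cons_val_fin_one,
        map_mul, map_intCast, map_natCast]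
      rw [this, inv_eq_of_mul_eq_one_left δ3, pow_succ, pow_mul]
      simp
    · simp only [Fx, Submodule.mem_iInf, LinearMap.mem_ker, mulVecLin_apply, sub_mulVec,
        one_mulVec, sub_eq_zero]
      refine ⟨fun h g hg => ?_, fun h i => ?_⟩
      · obtain ⟨b, -, a⟩ := ci g hg
        have T := S.tri (2 * k + 1) !![1, f b; 0, 1] (by simp)
        rw [fx a]
        ext i
        rw [mulVec, dotProduct, Fin.sum_univ_succ]
        simp only [h, mul_zero, Finset.sum_const_zero, add_zero]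
        cases i using Fin.cases with
        | zero => simp [T.2]
        | succ i => rw [T.1 _ _ (Fin.succ_pos i), zero_mul, h]
      · obtain ⟨b, a, a'⟩ := ci g0 g1
        refine S.uni _ (f b) ((_root_.map_ne_zero f).2 fun z => g2 (tq_inj ?_)) _
          ((fx a' y).1 (h g0 g1)) _ (Fin.succ_ne_zero i)
        rw [z, ← one_fin_two, mul_one] at a
        rw [tq_one]
        exact hP.mul_right_cancel (by rw [a, one_mul])

end Pool.Agent.SY
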