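import Pool.Agent.Lib.MP_b4b3cb_nt.SY.St4
import Pool.Agent.Lib.MP_b4b3cb_nt.SY.Eps

/-! The local constant when inertia acts through the quadratic character. -/

namespace Pool.Agent.SY

open scoped Classical
open NumberField Matrix Polynomial Pool.Agent.SelTwo Pool.Agent.SymTwo Pool.Agent.EP
open Pool.Agent.SC (Over IsFr)
open Pool.Agent.Stark (Pr og ord)

namespace EpsQ

theorem chp {E : Type} [Field E] {n : ℕ} {A : Matrix (Fin n) (Fin n) E} {c : E}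
    (h : IsNilpotent (A - scalar (Fin n) c)) : A.charpoly = (X - C c) ^ n := by
  have e := sub_eq_zero.1 (isNilpotent_charpoly_sub_pow_of_isNilpotent h).eq_zero
  have := charpoly_sub_scalar (A - scalar (Fin n) c) (-c)
  rw [map_neg, sub_neg_eq_add, sub_add_cancel, e] at this
  simpa [sub_eq_add_neg] using this

variable {E : Type} [NontriviallyNormedField E] [CharZero E] {L : Type} [Field L] [NumberField L]
  {𝔓 : Idl L} {w : Pr L} (hw : Over 𝔓 w) (h2 : 2 ∉ 𝔓) {ϖ : L} (v : og w ϖ = 1)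
  {Ψ : AddChar (𝓞 L) E} (s1 : Ψ ≠ 1) (s2 : ∀ x ∈ w.asIdeal, Ψ x = 1)

include hw h2 v s1 s2

theorem blk : ∃ (β : AlgebraicClosure L) (G : E), β ^ 2 = algebraMap L _ ϖ ∧
    Blk 𝔓 ϖ Ψ 1 (fun g => if g β = β then 1 else -1) G ∧
    G ^ 2 = (-1) ^ (nq 𝔓 / 2) * nq 𝔓 ∧ ∃ t ∈ Ine 𝔓, t β ≠ β := by
  obtain ⟨κ, _, p, _, _, π, Φ, hπ, hΦ, A, fx, -⟩ := exRes hw h2 s1 s2
  have hN := nmem hπ A h2 one_pos
  have N0 : 0 < nq 𝔓 ^ 1 - 1 := Nat.pos_of_ne_zero fun a => hN (by rw [a]; simp)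
  have hN' : ((nq 𝔓 ^ 1 - 1 : ℕ) : 𝓞 (AlgebraicClosure L)) ∉ 𝔓 := fun a =>
    hN (𝔓.mem_of_dvd (Nat.cast_dvd_cast (Dvd.intro_left 2 rfl)) a)
  have v0 : algebraMap L (AlgebraicClosure L) ϖ ≠ 0 :=
    (_root_.map_ne_zero _).2 fun z => by simp [z, og, ord] at v
  have q2 : nq 𝔓 / 2 * 2 = nq 𝔓 ^ 1 - 1 := by
    obtain ⟨k, hk⟩ := A.odd
    rw [pow_one]
    omega
  obtain ⟨α, hα⟩ := IsAlgClosed.exists_pow_nat_eq (algebraMap L (AlgebraicClosure L) ϖ) N0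
  obtain ⟨t, ht, η, hη, e⟩ := sur hw v hN' hα
  have α0 : α ≠ 0 := fun z => v0 (by rw [← hα, z, zero_pow N0.ne'])
  have : ∀ x : Mu 𝔓 1, ∃ y : 𝓞 L, π (algebraMap _ _ y) = π x.1.1 := fun x => fx _ (by
    have := congrArg (fun u : (𝓞 (AlgebraicClosure L))ˣ => π u.1) ((mem_rootsOfUnity _ _).1 x.2)
    simp only [Units.val_pow_eq_pow_val, map_pow, Units.val_one, map_one, pow_one] at this
    generalize π x.1.1 = c at this ⊢
    rw [← Nat.sub_add_cancel A.one.le, pow_succ, this, one_mul])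
  choose y hy using this
  let s : Mu 𝔓 1 →* AlgebraicClosure L := (powMonoidHom (nq 𝔓 / 2)).comp
    (((algebraMap (𝓞 _) _).toMonoidHom.comp (Units.coeHom _)).comp (Subgroup.subtype _))
  have hs : ∀ x, s x = 1 ∨ s x = -1 := fun x => sq_eq_one_iff.1 (by
    change (algebraMap (𝓞 _) (AlgebraicClosure L) x.1.1 ^ _) ^ 2 = 1
    rw [← pow_mul, q2, ← map_pow, (mem_rootsOfUnity' _ _).1 x.2, map_one])
  have n1 : (-1 : AlgebraicClosure L) ≠ 1 := by norm_num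
  let χ : Mu 𝔓 1 →* E :=
    { toFun := fun x => if s x = 1 then 1 else -1
      map_one' := if_pos (map_one s)
      map_mul' := fun a b => by
        rcases hs a with h | h <;> rcases hs b with h' | h' <;> simp [h, h', n1] }
  have k : ∀ (g : Gal L) (c : AlgebraicClosure L), g α = c * α →
      (g (α ^ (nq 𝔓 / 2)) = α ^ (nq 𝔓 / 2) ↔ c ^ (nq 𝔓 / 2) = 1) := fun g c h => by
    rw [map_pow, h, mul_pow, mul_eq_right₀ (pow_ne_zero _ α0)]
  have B : Blk 𝔓 ϖ Ψ 1 (fun g => if g (α ^ (nq 𝔓 / 2)) = α ^ (nq 𝔓 / 2) then 1 else -1)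
      (∑ᶠ x : Mu 𝔓 1, χ x⁻¹ * Ψ (y x)) :=
    ⟨α, χ, y, one_pos, hα, fun g _ x h => if_congr (k g _ h) rfl rfl, fun j a b => by omega,
      fun x => by rw [← hπ, map_sub, hy]; simp, rfl⟩
  have tb : t (α ^ (nq 𝔓 / 2)) ≠ α ^ (nq 𝔓 / 2) := fun h =>
    (hη.map_of_injective (f := algebraMap _ (AlgebraicClosure L))
      RingOfIntegers.coe_injective).pow_ne_one_of_pos_of_lt (by omega) (by omega) ((k t _ e).1 h)
  refine ⟨_, _, by rw [← pow_mul, q2, hα], B, ?_, t, ht, tb⟩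
  have a := (nfB hπ hw.1 hΦ hN α0 (by rw [pow_mul', hα]) ht hη e B dvd_rfl).2.1
  have b := g1 A one_pos (prim hπ hw.1 hN hη dvd_rfl) (ζ := (-1 : E))
    (by rw [← q2, pow_mul', neg_one_sq, one_pow]) (by norm_num)
  rw [inv_neg, inv_one, ← q2, Nat.mul_div_cancel _ two_pos, pow_one, q2] at b
  rw [a, if_neg tb, sq, b]

end EpsQ

theorem epsQ : EpsQSt := by
  intro L _ _ E _ _ _ r hn ρ 𝔓 hm h2 w hw ϖ Ψ v s1 s2 c hi hf
  subst hn
  have := charZero_of_injective_algebraMap (algebraMap ℚ_[2] E).injective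
  have ho : Over 𝔓 w := ⟨hm, fun y => by rw [← hw]; rfl⟩
  have v' : og w ϖ = 1 := by simp [og, ord, v]
  obtain ⟨-, σ, α, hσ, hα, sα, -⟩ := EpsA.blk ho h2 v' s1 s2
  obtain ⟨β, G, hβ, B, hG, t, ht, tb⟩ := EpsQ.blk ho h2 v' s1 s2
  refine ⟨2 * r, fun _ => 1, fun _ => _, fun _ => G, σ, α, (-ρ σ⁻¹).det, fun _ => B, fun g hg => ?_, hσ,
    hα, sα, ⟨_, 1, -ρ σ⁻¹, fun x => ⟨x, one_mulVec x⟩, fun x => ?_, by simp, rfl⟩, ?_⟩
  · simp only [Finset.prod_range_one, pow_zero, pow_one, Finset.prod_const, Finset.card_fin]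
    refine EpsQ.chp ?_
    split_ifs with h
    · rw [map_one]
      exact (hi β hβ g hg).1 h
    · rw [map_neg, map_one, sub_neg_eq_add]
      exact (hi β hβ g hg).2 h
  · rw [one_mulVec]
    refine ⟨fun h => h ▸ zero_mem _, fun h => ?_⟩
    simp only [Fx, Submodule.mem_iInf, LinearMap.mem_ker, mulVecLin_apply] at h
    have u : IsUnit (ρ t + 1 + scalar _ (-2 : E)) :=
      ((hi β hβ t ht).2 tb).isUnit_add_right_of_commute
        ((Ne.isUnit (by norm_num)).map _) (scalar_commute _ (fun _ => .all _ _) _).symm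
    rw [map_neg, map_ofNat, show ρ t + 1 + -2 = ρ t - 1 by
      rw [add_assoc, sub_eq_add_neg]; norm_num] at u
    exact mulVec_injective_of_isUnit u ((h t ht).trans (mulVec_zero _).symm)
  · have d : (ρ σ⁻¹).det * (ρ σ).det = 1 := by
      rw [← det_mul, ← map_mul, inv_mul_cancel, map_one, det_one]
    rw [det_neg, Finset.prod_const, Finset.card_univ, Fintype.card_fin, pow_mul, pow_mul,
      neg_sq, neg_sq, hG, ← hf α σ hα (fb_iff.2 hσ) sα, one_pow, one_pow, one_mul, ← mul_assoc, d,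
      one_mul]

end Pool.Agent.SY
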