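import Pool.Agent.Lib.MP_b4b3cb_nt.SY.St3
import Pool.Agent.Lib.MP_b4b3cb_nt.BC.ETame

/-! The ramification of a residually trivial character at the odd primes. -/

namespace Pool.Agent.SY

open scoped Classical Topology
open NumberField IsDedekindDomain Pool.Agent.SelTwo
open Pool.Agent.SC (Over IsFr)

namespace RamC

variable {E : Type} [NontriviallyNormedField E] [NormedAlgebra ℚ_[2] E]

theorem two : ‖(2 : E)‖ = 2⁻¹ := by
  rw [← map_ofNat (algebraMap ℚ_[2] E), norm_algebraMap']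
  exact_mod_cast Padic.norm_p (p := 2)

theorem sq_le (z : E) : ‖z ^ 2 - 1‖ ≤ ‖z - 1‖ * max ‖z - 1‖ 2⁻¹ := by
  have := IsUltrametricDist.of_normedAlgebra ℚ_[2] (L := E)
  rw [show z ^ 2 - 1 = (z - 1) * (z - 1 + 2) by ring, norm_mul, ← two (E := E)]
  exact mul_le_mul_of_nonneg_left (IsUltrametricDist.norm_add_le_max _ _) (norm_nonneg _)

theorem sq_eq {z : E} (h : ‖z - 1‖ < 2⁻¹) : ‖z ^ 2 - 1‖ = ‖z - 1‖ * 2⁻¹ := by
  have := IsUltrametricDist.of_normedAlgebra ℚ_[2] (L := E)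
  rw [← two (E := E)] at h
  rw [show z ^ 2 - 1 = (z - 1) * (z - 1 + 2) by ring, norm_mul,
    IsUltrametricDist.norm_add_eq_max_of_norm_ne_norm h.ne, max_eq_right h.le, two]

theorem pow_eq {z : E} (h : ‖z - 1‖ < 2⁻¹) (n : ℕ) : ‖z ^ 2 ^ n - 1‖ = ‖z - 1‖ * 2⁻¹ ^ n := by
  induction n with
  | zero => simp
  | succ n ih =>
    rw [pow_succ, pow_mul, sq_eq, ih, pow_succ, mul_assoc]
    rw [ih]
    exact (mul_le_of_le_one_right (norm_nonneg _) (pow_le_one₀ (by norm_num) (by norm_num))).trans_lt h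

theorem small {a : ℝ} (ha : a < 1) :
    ∃ r, 0 < r ∧ ∀ z : E, ‖z - 1‖ ≤ a → ‖z ^ 2 ^ r - 1‖ < 2⁻¹ := by
  set m := max a 2⁻¹ with hm
  have m1 : m < 1 := max_lt ha (by norm_num)
  have m0 : 2⁻¹ ≤ m := le_max_right _ _
  have m2 : 0 ≤ m := le_trans (by norm_num) m0
  obtain ⟨r, hr⟩ := exists_pow_lt_of_lt_one (show (0 : ℝ) < 2⁻¹ by norm_num) m1
  refine ⟨r + 1, r.succ_pos, fun z hz => ?_⟩
  have : ∀ n : ℕ, ‖z ^ 2 ^ n - 1‖ ≤ m ^ (n + 1) := fun n => by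
    induction n with
    | zero =>
      rw [pow_zero, pow_one, zero_add, pow_one]
      exact hz.trans (le_max_left _ _)
    | succ n ih =>
      rw [pow_succ 2, pow_mul, pow_succ m]
      refine (sq_le _).trans (mul_le_mul ih (max_le (ih.trans ?_) m0) (by positivity)
        (by positivity))
      exact pow_le_of_le_one m2 m1.le n.succ_ne_zero
  exact ((this _).trans (pow_le_pow_of_le_one m2 m1.le (by omega))).trans_lt hr

variable {L : Type} [Field L] [NumberField L] [FiniteDimensional ℚ_[2] E]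

theorem unr (x : Gal L →* E) (hx : Continuous x) (h1 : ∀ g, ‖x g - 1‖ < 2⁻¹) {𝔓 : Idl L}
    (hm : 𝔓.IsMaximal) (h2 : 2 ∉ 𝔓) {g : Gal L} (hg : g ∈ Ine 𝔓) : x g = 1 := by
  have := IsUltrametricDist.of_normedAlgebra ℚ_[2] (L := E)
  have := FiniteDimensional.proper ℚ_[2] E
  have := charZero_of_injective_algebraMap (algebraMap ℚ_[2] E).injective
  obtain ⟨k, _, _, _, ⟨c⟩⟩ := SP.exCF (E := E) (by rw [two]; norm_num)
  let := ZMod.algebra k 2
  have F := SP.facts L (AlgebraicClosure L)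
  obtain ⟨w, hw⟩ := F.pr.under L 𝔓 hm
  obtain ⟨σ, -, hσ⟩ := F.fr.ex hw
  have q1 := NumberField.HeightOneSpectrum.one_lt_absNorm w
  set q := Ideal.absNorm w.asIdeal
  have hd := F.fr.dec hm (by omega) hσ
  have n1 : σ * g * σ⁻¹ ∈ SC.Ine L 𝔓 := by simpa using SP.ine_nor (inv_mem hd) hg
  have q0 : 0 < ‖(1 - q : E)‖ := norm_pos_iff.2 (sub_ne_zero.2 (by exact_mod_cast q1.ne))
  have e : x (σ * g * σ⁻¹) = x g := by
    rw [map_mul, map_mul, mul_right_comm, ← map_mul, mul_inv_cancel, map_one, one_mul]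
  have key : ∀ N : ℕ, ‖(1 - q : E)‖ * ‖x g - 1‖ * 2 ^ N ≤ 1 := fun N => by
    have a := BC.tame2 hm h2 c hd (SP.ine_closed 𝔓) le_rfl
      (fun g => (x g ^ 2 ^ N - 1) / 2 ^ (2 * N)) (by fun_prop) (fun g l => by
        have : (x (g * l : SC.Ine L 𝔓) ^ 2 ^ N - 1) / 2 ^ (2 * N) - (x g ^ 2 ^ N - 1) / 2 ^ (2 * N) -
            (x l ^ 2 ^ N - 1) / 2 ^ (2 * N) =
            (x g ^ 2 ^ N - 1) * (x l ^ 2 ^ N - 1) / 2 ^ (2 * N) := by
          rw [Subgroup.coe_mul, map_mul, mul_pow]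
          ring
        rw [this, norm_div, norm_mul, pow_eq (h1 _), pow_eq (h1 _), norm_pow, two, two_mul, pow_add,
          mul_mul_mul_comm, mul_div_cancel_right₀ _ (by positivity)]
        exact mul_le_one₀ ((h1 _).le.trans (by norm_num)) (norm_nonneg _)
          ((h1 _).le.trans (by norm_num))) ⟨g, hg⟩ ⟨_, n1⟩ rfl
    rw [EP.cyc_q hm h2 hσ] at a
    simp only [e] at a
    rw [← one_sub_mul, norm_mul, norm_div, pow_eq (h1 _), norm_pow, two, two_mul, pow_add,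
      mul_div_mul_right _ _ (by positivity), inv_pow, div_inv_eq_mul, ← mul_assoc] at a
    exact a
  by_contra h
  have p : 0 < ‖(1 - q : E)‖ * ‖x g - 1‖ := mul_pos q0 (norm_pos_iff.2 (sub_ne_zero.2 h))
  obtain ⟨N, hN⟩ := pow_unbounded_of_one_lt (‖(1 - q : E)‖ * ‖x g - 1‖)⁻¹ (one_lt_two (α := ℝ))
  have := key N
  rw [inv_lt_iff_one_lt_mul₀' p] at hN
  exact absurd this (not_le.2 hN)

end RamC

theorem ramC : RamCSt := by
  intro L _ _ E _ _ _ κ hκ h1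
  obtain ⟨g₀, -, hg₀⟩ := isCompact_univ.exists_isMaxOn (f := fun g => ‖κ g - 1‖)
    Set.univ_nonempty (by fun_prop)
  obtain ⟨r, r0, hr⟩ := RamC.small (E := E) (h1 g₀)
  have a : ∀ 𝔓 : Idl L, 𝔓.IsMaximal → 2 ∉ 𝔓 → ∀ g ∈ Ine 𝔓, κ g ^ 2 ^ r = 1 :=
    fun 𝔓 hm h2 g hg => RamC.unr ((powMonoidHom (2 ^ r)).comp κ) (hκ.pow _)
      (fun g => hr _ (hg₀ (Set.mem_univ g))) hm h2 hg
  refine ⟨⟨r, r0, a⟩, ?_⟩
  have F := SP.facts L (AlgebraicClosure L)
  have hN : {g | ‖κ g - 1‖ < 2⁻¹} ∈ 𝓝 (1 : Gal L) :=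
    (isOpen_lt (by fun_prop) continuous_const).mem_nhds (by simp)
  refine ((SC.st_Fin F.top F.pr _ hN).union (Ideal.finite_factors
    (I := Ideal.span {(2 : 𝓞 L)}) (by simp))).subset ?_
  rintro w ⟨𝔓, hm, hw, g, hg, hne⟩
  by_cases h2 : 2 ∈ 𝔓
  · refine Or.inr ?_
    rw [Set.mem_ofPred_eq, Ideal.dvd_span_singleton, ← hw, Ideal.under_def, Ideal.mem_comap,
      map_ofNat]
    exact h2
  refine Or.inl ⟨𝔓, ⟨hm, fun y => by rw [← hw]; rfl⟩, fun s => hne ?_⟩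
  have b := RamC.pow_eq (s hg) r
  rw [a 𝔓 hm h2 g hg, sub_self, norm_zero] at b
  exact sub_eq_zero.1 (norm_eq_zero.1 ((mul_eq_zero.1 b.symm).resolve_right (by positivity)))

end Pool.Agent.SY
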