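import Pool.Agent.Lib.MP_b4b3cb_nt.SY.St3
import Pool.Agent.Lib.MP_b4b3cb_nt.Eps.Nf
import Pool.Agent.Lib.MP_b4b3cb_nt.Eps.Rep
import Pool.Agent.Lib.MP_b4b3cb_nt.Fin2

/-! A conjugate dual character at a prime that is not split. -/

namespace Pool.Agent.SY

open scoped Classical Pointwise
open NumberField Pool.Agent.Stark Pool.Agent.EP
open Pool.Agent.SP (IG facts glK cycE cycE_apply exIG)
open Pool.Agent.SC (Over IsFr Gs Cj)

namespace NsA

theorem core {Γ G E : Type} [Group Γ] [TopologicalSpace Γ] [Group G] [TopologicalSpace G]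
    [Field E] (J : IG Γ G) {χ : G →* E} {κ : Γ →* E} {w : ℤ}
    (hκ : ∀ g, κ g * κ (J.cj g) = χ (J.ι g) ^ w) (hs : χ J.s = -1) {γ : G} (hγ : γ ∉ J.H) :
    (∀ g, ∃ g', J.ι g' = γ * J.ι g * γ⁻¹ ∧ κ g * κ g' = χ (J.ι g) ^ w) ∧
      ∃ t, J.ι t = γ * γ ∧ κ t = (-χ γ) ^ w := by
  have e := J.u2 γ hγ
  refine ⟨fun g => ⟨J.u γ * J.cj g * (J.u γ)⁻¹, ?_, ?_⟩, J.u γ * J.cj (J.u γ), ?_, ?_⟩
  · rw [map_mul, map_mul, map_inv, e, J.hcj, mul_inv_rev, inv_eq_of_mul_eq_one_left J.ss]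
    simp only [mul_assoc]
    simp only [← mul_assoc J.s J.s, J.ss, one_mul]
  · rw [map_mul, map_mul, mul_right_comm, ← map_mul κ (J.u γ), mul_inv_cancel, map_one, one_mul, hκ]
  · rw [map_mul, J.hcj, e]
    simp only [mul_assoc]
    simp only [← mul_assoc J.s J.s, J.ss, one_mul, mul_one]
  · rw [map_mul, hκ, e, map_mul, hs, mul_neg_one]

variable {K L Ω : Type} [Field K] [NumberField K] [Field L] [NumberField L] [Algebra K L]
  [Field Ω] [Algebra K Ω] [Algebra L Ω] [IsScalarTower K L Ω] [IsAlgClosed Ω] [IsGalois K Ω]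
  [CharZero Ω] {𝔓 : Ideal (𝓞 Ω)}

theorem cong {a : Gal(Ω/K)} (ha : a ∈ SC.Dec K 𝔓) {x y : 𝓞 Ω}
    (e : Ideal.Quotient.mk 𝔓 x = Ideal.Quotient.mk 𝔓 y) :
    Ideal.Quotient.mk 𝔓 (a • x) = Ideal.Quotient.mk 𝔓 (a • y) := by
  rw [Ideal.Quotient.eq] at e ⊢
  rw [← smul_sub]
  exact (((facts K Ω).pr.mem_dec _ _).1 ha _).2 e

theorem pw (h : 𝔓.IsMaximal) {a : Gal(Ω/K)} (ha : a ∈ SC.Dec K 𝔓) (x : 𝓞 Ω) :
    ∃ i : ℕ, Ideal.Quotient.mk 𝔓 (a • x) = Ideal.Quotient.mk 𝔓 x ^ i := by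
  have T := facts K Ω
  by_cases h0 : Ideal.Quotient.mk 𝔓 x = 0
  · exact ⟨1, by rw [cong ha (h0.trans (map_zero _).symm), smul_zero, pow_one, h0, map_zero]⟩
  obtain ⟨F, hF⟩ : ∃ F : FiniteGaloisIntermediateField K Ω, (x : Ω) ∈ F.toIntermediateField :=
    ⟨.adjoin K {(x : Ω)}, FiniteGaloisIntermediateField.subset_adjoin K {(x : Ω)} rfl⟩
  have := NumberField.of_module_finite K F
  obtain ⟨Q, hQ⟩ := T.pr.under F 𝔓 h
  obtain ⟨g, g1, g2⟩ := T.fr.ex hQ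
  have e := Ideal.Quotient.eq.2 (g2 x)
  have n : 1 < Ideal.absNorm Q.asIdeal := NumberField.HeightOneSpectrum.one_lt_absNorm Q
  rw [show g • x = x from RingOfIntegers.ext (g1 ⟨x, hF⟩), map_pow, ← Nat.sub_add_cancel n.le,
    pow_succ, eq_comm, mul_eq_right₀ h0] at e
  have := NeZero.mk (isOfFinOrder_iff_pow_eq_one.2 ⟨_, Nat.sub_pos_of_lt n, e⟩).orderOf_pos.ne'
  obtain ⟨i, -, hi⟩ := (IsPrimitiveRoot.orderOf (Ideal.Quotient.mk 𝔓 x)).eq_pow_of_pow_eq_one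
    (ξ := Ideal.Quotient.mk 𝔓 (a • x)) (by
      rw [← map_pow, ← smul_pow', cong ha (y := 1) (by rw [map_pow, pow_orderOf_eq_one, map_one]),
        smul_one, map_one])
  exact ⟨i, hi.symm⟩

theorem comm (h : 𝔓.IsMaximal) {a b : Gal(Ω/K)} (ha : a ∈ SC.Dec K 𝔓) (hb : b ∈ SC.Dec K 𝔓) :
    a * b * a⁻¹ * b⁻¹ ∈ SC.Ine K 𝔓 := fun y => by
  obtain ⟨x, rfl⟩ : ∃ x, y = b • a • x := ⟨a⁻¹ • b⁻¹ • y, by simp⟩
  obtain ⟨i, hi⟩ := pw h ha x
  obtain ⟨j, hj⟩ := pw h hb x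
  refine Ideal.Quotient.eq.1 ?_
  simp only [mul_smul, inv_smul_smul]
  rw [cong ha (hj.trans (map_pow _ _ _).symm), cong hb (hi.trans (map_pow _ _ _).symm), smul_pow',
    smul_pow', map_pow, map_pow, hi, hj, pow_right_comm]

omit [IsAlgClosed Ω] [CharZero Ω] in
theorem nm (h : 𝔓.IsMaximal) (h2 : 2 ∉ 𝔓) (n : ℕ) : ((2 ^ n : ℕ) : 𝓞 Ω) ∉ 𝔓 := fun e =>
  h2 (h.isPrime.mem_of_pow_mem n (by exact_mod_cast e))

theorem ram {d : K} (Q : Quad K L d) {w : Pr L} (hw : Over 𝔓 w) (h2 : 2 ∉ 𝔓) (he : eI K w ≠ 1) :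
    ∃ τ ∈ SC.Ine K 𝔓, τ ∉ Gs K Ω L ∧ ∀ (ϖ : L) (α : Ω), og w ϖ = 1 → α ^ 2 = algebraMap L Ω ϖ →
      τ (τ α) = -α := by
  have T := facts K Ω
  have b := T.pr.below (F := K) hw
  have o := (T.pr.two b).1 h2
  have e2 : eI K w = 2 := by
    rcases Q.efg w with f | f | f
    exacts [(he f.2.1).elim, (he f.2.1).elim, f.2.1]
  have od := (SC.QdAux.ram Q w o).1 e2
  obtain ⟨τ, t1, t2⟩ : ∃ τ ∈ SC.Ine K 𝔓, τ ∉ Gs K Ω L := by
    by_contra! e
    exact Int.not_odd_iff_even.2 ((T.ine.ine b o Q.a_ne (glK.sq Q).2).2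
      fun g hg => (SC.GlAux.iff Q g).1 (e g hg.1)) od
  refine ⟨τ, t1, t2, fun ϖ α h1 hα => ?_⟩
  have r0 : Q.rt ≠ 0 := fun z => (glK (Ω := Ω).sq Q).1 (by rw [z, map_zero])
  have v0 : ϖ ≠ 0 := fun z => by simp [z, og, ord] at h1
  have e3 := og_algebraMap w d
  rw [← Q.sq, e2, og, ord_pow] at e3
  have s := SC.rt_sq (Ω := Ω) Q.rt
  generalize SC.rt Ω Q.rt = r at s
  have s0 : r ≠ 0 := fun z => (glK (Ω := Ω).sq Q).1 (by rw [← s, z, zero_pow two_ne_zero])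
  have z2 : (τ r / r) ^ 2 = -1 := by
    rw [div_pow, ← map_pow, s, glK.tau Q τ t2, Q.tau_rt, map_neg, neg_div,
      div_self (glK (Ω := Ω).sq Q).1]
  have z4 := fr_root hw.1 (ine_fr t1) (nm hw.1 h2 2) (ξ := τ r / r)
    (by rw [show 2 ^ 2 = 2 * 2 from rfl, pow_mul, z2, neg_one_sq])
  have z5 : τ (τ r) = -r := by
    rw [← div_mul_cancel₀ (τ r) s0, map_mul, z4, pow_one, ← neg_one_mul r, ← z2]
    field_simp
  have fx := (T.ine.ine hw ((T.pr.two hw).1 h2) (mul_ne_zero v0 r0) (r := α * r)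
    (by rw [mul_pow, hα, s, map_mul])).1 (by
      rw [og, ord_mul v0 r0, show ord _ ϖ = 1 from h1, mul_left_cancel₀ two_ne_zero e3]
      exact od.one_add) (τ * τ) ⟨mul_mem t1 t1, fun x => by
      rw [AlgEquiv.mul_apply, glK.tau Q τ t2, glK.tau Q τ t2, Q.tau_tau]⟩
  rw [AlgEquiv.mul_apply, map_mul, map_mul, z5] at fx
  exact mul_right_cancel₀ s0 (by linear_combination -fx)

end NsA

open NsA SelTwo in
theorem ns (hR : RamCSt) (hT : TmSt) : NsSt := by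
  intro L _ _ _ E _ _ _ κ cj w hcj hκ 𝔓 h h2 hn
  obtain ⟨d, R, hd⟩ := SC.exists_quad_cm L
  have : Algebra.IsAlgebraic (maximalRealSubfield L) (AlgebraicClosure L) :=
    Algebra.IsAlgebraic.trans _ L _
  have : IsAlgClosure (maximalRealSubfield L) (AlgebraicClosure L) := ⟨inferInstance, this⟩
  have F := facts (maximalRealSubfield L) (AlgebraicClosure L)
  have F' := facts L (AlgebraicClosure L)
  obtain ⟨j, c', hc', hcj⟩ := hcj
  let s' : Gal(AlgebraicClosure L/maximalRealSubfield L) := AlgEquiv.ofRingEquiv (f := c') fun x =>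
    j.injective ((hc' _).trans (x.2 (j.comp (algebraMap L _))))
  have hre : s' ∉ Gs (maximalRealSubfield L) (AlgebraicClosure L) L := fun hg => by
    have a := IsCMField.complexEmbedding_complexConj L (j.comp (algebraMap L _)) R.rt
    have b : j (s' _) = _ := hc' (algebraMap L _ R.rt)
    rw [hg R.rt] at b
    rw [← hd, R.tau_rt, map_neg, RingHom.comp_apply, ← b] at a
    exact SC.GlAux.ne R ((map_eq_zero j).1 (by linear_combination (-1 / 2 : ℂ) * a))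
  obtain ⟨J, hι, hJ, hH, hc⟩ := exIG R (F.cj.sq (g := s') hc').1 hre cj hcj
  have ec : ∀ g, cycE E _ _ (J.ι g) = cyc E g := fun g => by
    rw [show J.ι g = g.restrictScalars _ from AlgEquiv.ext (hι g)]
    rfl
  have co := fun γ (hγ : γ ∉ Gs (maximalRealSubfield L) (AlgebraicClosure L) L) =>
    core J (χ := cycE E _ _) (κ := κ) (w := w) (fun g => by rw [hc, ec, hκ.dual])
      (by rw [hJ, cycE_apply, F.fr.cyc_cj (g := s') hc']; simp) (hH ▸ hγ)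
  simp only [ec] at co
  obtain ⟨v, hv⟩ := F'.pr.under L 𝔓 h
  have ev : 𝔓.under (𝓞 L) = v.asIdeal := Ideal.ext fun x => (hv.2 x).symm
  refine ⟨fun hI g hg => ?_, fun hr v' ϖ e1 e2 => ?_⟩
  · have sg : R.sg = (IsCMField.ringOfIntegersComplexConj L).toRingEquiv := by
      ext x
      exact congrArg (fun f => f (x : L)) hd
    have ac : R.act v = v := IsDedekindDomain.HeightOneSpectrum.ext (by
      rw [(SC.st_Qd SC.st_Cn).act_ideal, sg, ← ev]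
      exact hn)
    obtain ⟨a, a1, a2⟩ := F.pr.trans (ac ▸ glK.act R s' hre 𝔓 v hv) hv
    obtain ⟨g', g1, g2⟩ := (co (a * s') fun e => hre ((mul_mem_cancel_left a1).1 e)).1 g
    have := comm h (a := a * s') (MulAction.mem_stabilizer_iff.2 (by rw [mul_smul, a2]))
      ((SP.dec_iff hι g).1 hg)
    rw [← g1, ← map_inv, ← map_mul, ← SP.ine_iff hι] at this
    rw [← g2, ← inv_mul_cancel_right g' g, map_mul, hI _ this, one_mul, sq]
  obtain rfl : v = v' := IsDedekindDomain.HeightOneSpectrum.ext (ev.symm.trans e1)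
  have o1 : og v ϖ = 1 := by simp [og, ord, e2]
  obtain ⟨τ, t1, t2, t3⟩ := ram R hv h2 (fun e => hr (by rw [ev]; exact e))
  obtain ⟨c1, t, ht, kt⟩ := co τ t2
  rw [cycE_apply, F.fr.cyc_ine h h2 t1] at kt
  simp only [Units.val_one, PadicInt.coe_one, map_one] at kt
  have v0 : algebraMap L (AlgebraicClosure L) ϖ ≠ 0 :=
    (map_ne_zero _).2 fun z => by simp [z, og, ord] at o1
  obtain ⟨⟨r, r0, hr⟩, -⟩ := hR L E κ hκ.ct hκ.one
  obtain ⟨r, rfl⟩ := Nat.exists_eq_add_one.2 r0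
  have B : ∀ α : AlgebraicClosure L, α ^ 2 = algebraMap L _ ϖ → ∀ g ∈ Ine 𝔓,
      (g α = α → κ g = 1) ∧ (g α ≠ α → κ g = (-1) ^ w) := fun α hα g hg => by
    have a0 : α ≠ 0 := fun z => v0 (by rw [← hα, z, zero_pow two_ne_zero])
    obtain ⟨β, rfl⟩ := IsAlgClosed.exists_pow_nat_eq α (n := 2 ^ r) (by positivity)
    have b0 : β ≠ 0 := fun z => a0 (by rw [z, zero_pow (by positivity)])
    have e : (t β / β) ^ 2 ^ r = -1 := by
      rw [div_pow, ← map_pow, ← hι, ht, AlgEquiv.mul_apply, t3 ϖ _ o1 hα, neg_div, div_self a0]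
    obtain ⟨m, m1, m2⟩ := hT L E κ hκ.ct 𝔓 h h2 _ r0 (hr 𝔓 h h2) β (t β / β) t b0
      (fun g _ => by rw [pow_succ, pow_mul, hα, g.commutes])
      ((SP.ine_iff hι t).2 (ht ▸ mul_mem t1 t1))
      (orderOf_eq_prime_pow (p := 2) (by rw [e]; norm_num)
        (by rw [pow_succ, pow_mul, e, neg_one_sq]) ▸ IsPrimitiveRoot.orderOf _)
      (div_mul_cancel₀ _ b0).symm g hg
    rw [map_pow, m2, mul_pow, pow_right_comm, e, m1, kt, ← zpow_natCast ((-1 : E) ^ w), zpow_comm,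
      zpow_natCast]
    rcases m.even_or_odd with o | o
    · simp [o.neg_one_pow]
    · simp [o.neg_one_pow, CharZero.neg_eq_self_iff, a0]
  refine ⟨B, fun hϖ α σ hα hσ e => ?_⟩
  rw [fb_iff] at hσ
  have nq1 : 1 < nq 𝔓 := nq_eq hv ▸ NumberField.HeightOneSpectrum.one_lt_absNorm v
  have cf := F'.fr.cyc_fr h h2 hσ
  obtain ⟨n, hn⟩ : Odd (nq 𝔓) := Nat.not_even_iff_odd.1 fun e =>
    (PadicInt.norm_natCast_lt_one_iff.2 e.two_dvd).ne
      (PadicInt.isUnit_iff.1 (cf ▸ (SC.cyc L _ σ).isUnit))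
  obtain ⟨σ', s1, s2⟩ := c1 σ
  rw [show cyc E σ = nq 𝔓 from (congrArg (fun x : ℤ_[2] => algebraMap ℚ_[2] E x) cf).trans
    (by simp)] at s2
  have hi := comm h (𝔓.inertia_le_stabilizer t1)
    ((SP.dec_iff hι σ).1 (F'.fr.dec h (by omega) hσ))
  rw [← s1, ← map_inv, ← map_mul, ← SP.ine_iff hι] at hi
  have a1 : τ α ^ (nq 𝔓 - 1) = algebraMap L _ ϖ := by
    rw [← map_pow, hα, map_neg, glK.tau R τ t2, hd, hϖ, map_neg, neg_neg]
  have a0 : α ≠ 0 := fun z => v0 (by rw [← a1, z, map_zero, zero_pow (by omega)])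
  have a2 : σ' (τ α) = τ α := by
    rw [← hι, s1, AlgEquiv.mul_apply, AlgEquiv.mul_apply, ← AlgEquiv.mul_apply τ⁻¹, inv_mul_cancel,
      AlgEquiv.one_apply, hι, e]
  have z1 : (τ α / α) ^ (nq 𝔓 - 1) = -1 := by rw [div_pow, a1, hα, div_neg, div_self v0]
  have z2 := fr_root h hσ (N := 2 * (nq 𝔓 - 1)) (ξ := τ α / α) (fun a => by
    have q := (hv.2 _).1 (Ideal.absNorm_mem v.asIdeal)
    rw [map_natCast, ← nq_eq hv] at q
    rw [Nat.cast_mul, Nat.cast_pred (by omega)] at a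
    refine h2 ?_
    convert 𝔓.sub_mem (𝔓.mul_mem_left 2 q) a using 1
    push_cast
    ring) (by rw [pow_mul', z1, neg_one_sq])
  have a3 : σ (τ α) = -τ α := by
    rw [← div_mul_cancel₀ (τ α) a0, map_mul, z2, e, ← Nat.sub_add_cancel nq1.le, pow_succ, z1]
    ring
  have a4 : (σ' * σ⁻¹) (τ α) = -τ α := by
    rw [← neg_neg (τ α), ← a3, map_neg, ← AlgEquiv.mul_apply, inv_mul_cancel_right, a2, a3, neg_neg]
  have b := B (τ α ^ n) (by rw [← pow_mul', ← a1, hn, Nat.add_sub_cancel]) _ hi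
  rw [map_pow, a4, neg_pow] at b
  rw [← inv_mul_cancel_right σ' σ, map_mul] at s2
  rw [show nq 𝔓 / 2 = n by omega, mul_zpow, ← s2]
  rcases n.even_or_odd with o | o
  · rw [o.neg_one_pow, one_mul] at b
    rw [b.1 rfl, o.neg_one_pow, one_zpow, one_mul, one_mul, sq]
  · rw [o.neg_one_pow, neg_one_mul] at b
    rw [b.2 (CharZero.neg_eq_self_iff.not.2 (pow_ne_zero _ ((map_ne_zero τ).2 a0))), o.neg_one_pow,
      mul_left_comm (κ σ), ← mul_assoc, ← mul_zpow, neg_one_mul, neg_neg, one_zpow, one_mul, sq]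

end Pool.Agent.SY
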