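import Pool.Agent.Lib.MP_b4b3cb_nt.SY.St3
import Pool.Agent.Lib.MP_b4b3cb_nt.BC.ETame

/-! Characters of inertia of order a power of two factor through the tame quotient. -/

namespace Pool.Agent.SY

open NumberField Pool.Agent.SelTwo Pool.Agent.EP Pool.Agent.SP

namespace TmA

theorem op {I E : Type} [TopologicalSpace I] [NontriviallyNormedField E] {f : I → E}
    (hf : Continuous f) {n : ℕ} (n0 : 0 < n) (h : ∀ g, f g ^ n = 1) : IsOpen {g | f g = 1} := by
  classical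
  have c : IsClosed ({z : E | z ^ n = 1} \ {1}) :=
    (((Polynomial.nthRoots n (1 : E)).toFinset.finite_toSet.subset fun z hz => by
      simpa [Polynomial.mem_nthRoots n0] using hz).subset Set.sdiff_subset).isClosed
  convert (c.preimage hf).isOpen_compl using 1
  ext g
  simp [h g]

end TmA

theorem tms : TmSt := by
  intro L _ _ E _ κ hκ 𝔓 hm h2 r r0 hp β η t β0 fx ht hη e g hg
  have hN : ((2 * 2 ^ r : ℕ) : 𝓞 (AlgebraicClosure L)) ∉ 𝔓 := fun a => h2
    (hm.isPrime.mem_of_pow_mem (r + 1) (by rw [pow_succ']; exact_mod_cast a))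
  have ev : Even (2 ^ r) := (Nat.even_pow' r0.ne').2 even_two
  have N0 : 0 < 2 ^ r := Nat.two_pow_pos r
  have gt : Gen (ZMod 2) ∅ (⟨t, ht⟩ : SC.Ine L 𝔓) := genK hm h2 ht (pow_ne_zero (2 ^ r / 2) β0)
    (by rw [← pow_mul, Nat.div_mul_cancel ev.two_dvd]; exact fx)
    (by rw [map_pow, e, mul_pow, EP.half hη N0 ev, neg_one_mul])
  have rt : ∀ a : SC.Ine L 𝔓, (a.1 β / β) ^ 2 ^ r = 1 := fun a => by
    rw [div_pow, ← map_pow, fx a.1 a.2, div_self (pow_ne_zero _ β0)]
  let φ : SC.Ine L 𝔓 →* AlgebraicClosure L :=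
    { toFun := fun a => a.1 β / β
      map_one' := div_self β0
      map_mul' := fun a b => by
        have := fr_root hm (ine_fr a.2) hN (ξ := b.1 β / β) (by rw [pow_mul', rt, one_pow])
        rw [pow_one, map_div₀, div_eq_iff ((_root_.map_ne_zero _).2 β0)] at this
        change a.1 (b.1 β) / β = _
        rw [this]
        ring }
  let ψ := (κ.comp (SC.Ine L 𝔓).subtype).prod φ
  have mem : ∀ a, a ∈ ψ.ker ↔ κ a.1 = 1 ∧ a.1 β = β := fun a => by
    rw [MonoidHom.mem_ker, Prod.ext_iff]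
    exact and_congr Iff.rfl (div_eq_one_iff_eq β0)
  have : CompactSpace (SC.Ine L 𝔓) := isCompact_iff_compactSpace.1 (ine_closed 𝔓).isCompact
  have o : IsOpen (ψ.ker : Set (SC.Ine L 𝔓)) := by
    have a := TmA.op (f := fun a : SC.Ine L 𝔓 => κ a.1) (hκ.comp continuous_subtype_val) N0
      fun a => hp a.1 a.2
    have b := (stabilizer_isOpen_of_isIntegral (K := L) β).preimage
      (continuous_subtype_val (p := fun a => a ∈ SC.Ine L 𝔓))
    convert a.inter b using 1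
    exact Set.ext mem
  obtain ⟨m, hm'⟩ := BC.gen2 gt ψ.ker o (fun a => ⟨r, by
    rw [MonoidHom.mem_ker, map_pow, Prod.ext_iff]
    exact ⟨hp a.1 a.2, rt a⟩⟩) ⟨g, hg⟩
  rw [← QuotientGroup.mk_pow, QuotientGroup.eq, mem] at hm'
  obtain ⟨a, b⟩ : κ ((t ^ m)⁻¹ * g) = 1 ∧ (t ^ m)⁻¹ (g β) = β := hm'
  refine ⟨m, ?_, ?_⟩
  · rw [← mul_inv_cancel_left (t ^ m) g, map_mul, a, mul_one, map_pow]
  · rw [← BC.pwb hm hN ht hη e m, ← congrArg (t ^ m) b, ← AlgEquiv.mul_apply, mul_inv_cancel,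
      AlgEquiv.one_apply]

end Pool.Agent.SY
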