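import Pool.Agent.Lib.MP_b4b3cb_nt.SY.Ts
import Pool.Agent.Lib.MP_b4b3cb_nt.HF.Ten

/-! Extension of scalars for the Selmer group. -/

namespace Pool.Agent.SY

open NumberField Matrix Module Submodule Pool.Agent.SelTwo Pool.Agent.HF
open scoped TensorProduct

namespace Bas2

section

variable {K E X X' ι : Type} [Field K] [Field E] [Algebra K E] [AddCommGroup X] [Module K X]
  [AddCommGroup X'] [Module K X'] [Module E X'] [IsScalarTower K E X'] [Fintype ι]

theorem rank (b : Basis ι K E) (φ : X' →ₗ[K] ι → X) (h : Function.Bijective φ) (A : Submodule K X)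
    (A' : Submodule E X') (e : ∀ x, x ∈ A' ↔ ∀ i, φ x i ∈ A) (f : A'.FG) :
    A.FG ∧ finrank K A = finrank E A' := by
  have : Module.Finite E A' := Module.Finite.iff_fg.2 f
  have : Module.Finite K E := Module.Finite.of_basis b
  have : Module.Finite K A' := Module.Finite.trans E A'
  let ψ : A' →ₗ[K] ι → A := LinearMap.pi fun i => LinearMap.codRestrict A
    (LinearMap.proj i ∘ₗ φ ∘ₗ A'.subtype.restrictScalars K) fun x => (e x).1 x.2 i
  have hψ : Function.Bijective ψ :=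
    ⟨fun x y a => Subtype.ext (h.1 (funext fun i => congrArg Subtype.val (congrFun a i))),
      fun y => by
        obtain ⟨x, hx⟩ := h.2 fun i => y i
        exact ⟨⟨x, (e x).2 fun i => by rw [hx]; exact (y i).2⟩,
          funext fun i => Subtype.ext (congrFun hx i)⟩⟩
  obtain ⟨i⟩ := b.index_nonempty
  have : Module.Finite K A := Module.Finite.of_surjective (LinearMap.proj i ∘ₗ ψ)
    ((LinearMap.proj_surjective (R := K) (φ := fun _ => A) i).comp hψ.2)
  refine ⟨Module.Finite.iff_fg.1 this, Nat.eq_of_mul_eq_mul_left (finrank_pos (R := K) (M := E)) ?_⟩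
  rw [finrank_mul_finrank, (LinearEquiv.ofBijective ψ hψ).finrank_eq, finrank_pi_fintype,
    finrank_eq_card_basis b]
  simp

theorem quo (A B : Submodule K X) (f : A.FG) :
    finrank K (A.map B.mkQ) + finrank K (A ⊓ B : Submodule K X) = finrank K A := by
  have : Module.Finite K A := Module.Finite.iff_fg.2 f
  rw [← (B.mkQ ∘ₗ A.subtype).finrank_range_add_finrank_ker, LinearMap.range_comp, range_subtype,
    LinearMap.ker_comp, ker_mkQ, ← finrank_map_subtype_eq A, map_comap_subtype]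

end

variable {E Y G : Type} [NontriviallyNormedField E] [NormedAlgebra ℚ_[2] E] {n : ℕ} [CommRing Y]
  [Algebra ℚ_[2] Y] [Group G]

theorem act_add (M : Matrix (Fin n) (Fin n) E) (s : Y →ₐ[ℚ_[2]] Y) (z w : Fin n → E ⊗[ℚ_[2]] Y) :
    act M s (z + w) = act M s z + act M s w := by
  simp only [act, ← mulVec_add, Pi.add_apply, map_add]
  rfl

theorem act_conj {D M M' : Matrix (Fin n) (Fin n) E} (h : D * M' = M * D) (s : Y →ₐ[ℚ_[2]] Y)
    (z : Fin n → E ⊗[ℚ_[2]] Y) :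
    act M s (D.map (algebraMap E _) *ᵥ z) = D.map (algebraMap E _) *ᵥ act M' s z := by
  rw [act, act, mulVec_mulVec, ← Matrix.map_mul, h, Matrix.map_mul, ← mulVec_mulVec]
  refine congrArg _ (funext fun i => ?_)
  simp only [mulVec, dotProduct, map_sum, map_mul, map_apply, AlgHom.commutes]

omit [NormedAlgebra ℚ_[2] E] in
theorem cob_conj {ρ ρ' : G →* Matrix (Fin n) (Fin n) E} {D : Matrix (Fin n) (Fin n) E}
    (h : ∀ g, D * ρ' g = ρ g * D) {T : Subgroup G} {x : G → Fin n → E} (hx : Cob ρ' T x) :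
    Cob ρ T fun g => D *ᵥ x g :=
  let ⟨u, hu⟩ := hx
  ⟨D *ᵥ u, fun g hg => by simp only [hu g hg, mulVec_sub, mulVec_mulVec, h]⟩

/-- The coboundaries. -/
def cobS (ρ : G →* Matrix (Fin n) (Fin n) E) (T : Subgroup G) : Submodule E (G → Fin n → E) where
  carrier := {x | Cob ρ T x}
  zero_mem' := ⟨0, by simp⟩
  add_mem' := fun ⟨u, hu⟩ ⟨v, hv⟩ => ⟨u + v, fun g hg => by
    rw [Pi.add_apply, hu g hg, hv g hg, mulVec_add]; abel⟩
  smul_mem' := fun c _ ⟨u, hu⟩ => ⟨c • u, fun g hg => by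
    rw [Pi.smul_apply, hu g hg, mulVec_smul, smul_sub]⟩

/-- The coboundaries after extension of the coefficients. -/
def Cr {U : Type} (P : G → U → Prop) (Q : U → (Y →ₐ[ℚ_[2]] Y) → Prop)
    (ρ : G →* Matrix (Fin n) (Fin n) E) (x : G → Fin n → E) : Prop :=
  ∃ z : Fin n → E ⊗[ℚ_[2]] Y, ∀ g u s, P g u → Q u s →
    act (ρ g) s z - z = fun i => algebraMap E _ (x g i)

variable {U : Type} {P : G → U → Prop} {Q : U → (Y →ₐ[ℚ_[2]] Y) → Prop}

theorem Cr.conj {ρ ρ' : G →* Matrix (Fin n) (Fin n) E} {D : Matrix (Fin n) (Fin n) E}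
    (h : ∀ g, D * ρ' g = ρ g * D) {x : G → Fin n → E} (hx : Cr P Q ρ' x) :
    Cr P Q ρ fun g => D *ᵥ x g := by
  obtain ⟨z, hz⟩ := hx
  refine ⟨D.map (algebraMap E _) *ᵥ z, fun g u s p q => ?_⟩
  rw [act_conj (h g), ← mulVec_sub, hz g u s p q]
  exact funext fun i => (RingHom.map_mulVec _ D (x g) i).symm

theorem Cr.zero (ρ : G →* Matrix (Fin n) (Fin n) E) : Cr P Q ρ 0 :=
  ⟨0, fun g u s _ _ => by ext i; simp [act, mulVec]⟩

theorem Cr.add {ρ : G →* Matrix (Fin n) (Fin n) E} {x y : G → Fin n → E} (hx : Cr P Q ρ x)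
    (hy : Cr P Q ρ y) : Cr P Q ρ (x + y) := by
  obtain ⟨z, hz⟩ := hx
  obtain ⟨z', hz'⟩ := hy
  refine ⟨z + z', fun g u s p q => ?_⟩
  rw [act_add, add_sub_add_comm, hz g u s p q, hz' g u s p q]
  exact funext fun i => (map_add (algebraMap E _) (x g i) (y g i)).symm

variable {L : Type} [Field L]

theorem hf_iff {ρ : Gal L →* Matrix (Fin n) (Fin n) E} {x : Gal L → Fin n → E} : x ∈ Hf ρ ↔
    Coc ρ ⊤ x ∧ (∀ 𝔓 : Idl L, 𝔓.IsMaximal → 2 ∉ 𝔓 → Cob ρ (Ine 𝔓) x) ∧
      ∀ j, Cr (Y := Bc) (Gw j) (Ex Ac) ρ x := Iff.rfl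

theorem hf_conj {ρ ρ' : Gal L →* Matrix (Fin n) (Fin n) E} {D : Matrix (Fin n) (Fin n) E}
    (h : ∀ g, D * ρ' g = ρ g * D) {x : Gal L → Fin n → E} (hx : x ∈ Hf ρ') :
    (fun g => D *ᵥ x g) ∈ Hf ρ := by
  obtain ⟨⟨a, b⟩, c, d⟩ := hf_iff.1 hx
  exact hf_iff.2 ⟨⟨(continuous_const.matrix_mulVec continuous_id).comp_continuousOn a,
    fun g hg k hk => by simp only [b g hg k hk, mulVec_add, mulVec_mulVec, h]⟩,
    fun P p q => cob_conj h (c P p q), fun j => (d j).conj h⟩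

/-- The Selmer cocycles. -/
def hfS (ρ : Gal L →* Matrix (Fin n) (Fin n) E) : Submodule E (Gal L → Fin n → E) where
  carrier := Hf ρ
  zero_mem' := hf_iff.2 ⟨⟨continuousOn_const, by simp⟩, fun P _ _ => (cobS ρ _).zero_mem,
    fun _ => Cr.zero ρ⟩
  add_mem' hx hy := by
    obtain ⟨⟨a, b⟩, c, d⟩ := hf_iff.1 hx
    obtain ⟨⟨a', b'⟩, c', d'⟩ := hf_iff.1 hy
    exact hf_iff.2 ⟨⟨a.add a', fun g hg k hk => by
      simp only [Pi.add_apply, b g hg k hk, b' g hg k hk, mulVec_add]; abel⟩,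
      fun P p q => (cobS ρ _).add_mem (c P p q) (c' P p q), fun j => (d j).add (d' j)⟩
  smul_mem' c x hx := by
    have := hf_conj (ρ := ρ) (D := c • 1) (by simp) hx
    simp only [smul_mulVec, one_mulVec] at this
    exact this

theorem span_hf (ρ : Gal L →* Matrix (Fin n) (Fin n) E) : span E (Hf ρ) = hfS ρ := span_eq (hfS ρ)

omit [NormedAlgebra ℚ_[2] E] in
theorem span_cob (ρ : G →* Matrix (Fin n) (Fin n) E) (T : Subgroup G) :
    span E {x | Cob ρ T x} = cobS ρ T := span_eq (cobS ρ T)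

theorem mem_hf {ρ : Gal L →* Matrix (Fin n) (Fin n) E} {x} : x ∈ hfS ρ ↔ x ∈ Hf ρ := Iff.rfl

variable {ι : Type} (b : Basis ι ℚ_[2] E)

theorem co_mulVec (M : Matrix (Fin n) (Fin n) ℚ_[2]) (v : Fin n → E) (i : ι) :
    (fun r => b.repr ((M.map (algebraMap ℚ_[2] E) *ᵥ v) r) i) = M *ᵥ fun r => b.repr (v r) i := by
  ext r
  simp [mulVec, dotProduct, ← Algebra.smul_def]

theorem co_act (M : Matrix (Fin n) (Fin n) ℚ_[2]) (s : Y →ₐ[ℚ_[2]] Y) (z : Fin n → E ⊗[ℚ_[2]] Y)
    (i : ι) : (fun r => (b.coord i).rTensor Y (act (M.map (algebraMap ℚ_[2] E)) s z r)) =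
      act M s fun r => (b.coord i).rTensor Y (z r) := by
  ext r
  simp only [act, mulVec, dotProduct, map_apply, map_sum, ← IsScalarTower.algebraMap_apply,
    ← Algebra.smul_def, map_smul]
  refine Finset.sum_congr rfl fun c _ => congrArg _ ?_
  induction z c using TensorProduct.induction_on with
  | zero => simp
  | tmul a x => simp
  | add z w h1 h2 => simp only [map_add, h1, h2]

variable [Fintype ι] (ρ : G →* Matrix (Fin n) (Fin n) ℚ_[2])

variable (E) in
/-- The extension of scalars. -/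
noncomputable def ex : G →* Matrix (Fin n) (Fin n) E :=
  (algebraMap ℚ_[2] E).mapMatrix.toMonoidHom.comp ρ

theorem cob_co (T : Subgroup G) (x : G → Fin n → E) :
    Cob (ex E ρ) T x ↔ ∀ i, Cob ρ T fun g r => b.repr (x g r) i := by
  refine ⟨fun ⟨u, hu⟩ i => ⟨fun r => b.repr (u r) i, fun g hg => ?_⟩, fun h => ?_⟩
  · rw [← co_mulVec]
    ext r
    simp [ex, hu g hg]
  · choose u hu using h
    refine ⟨fun r => b.equivFun.symm fun i => u i r, fun g hg => funext fun r =>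
      b.ext_elem fun i => (congrFun (hu i g hg) r).trans ?_⟩
    have e : u i = fun r => b.repr (b.equivFun.symm fun i => u i r) i := funext fun r =>
      (congrFun (b.equivFun.apply_symm_apply fun i => u i r) i).symm
    rw [Pi.sub_apply, Pi.sub_apply, map_sub, Finsupp.sub_apply, ← congrFun e r]
    nth_rw 1 [e]
    rw [← co_mulVec]
    rfl

theorem cr_co (x : G → Fin n → E) :
    Cr P Q (ex E ρ) x ↔ ∀ i, Cr P Q ρ fun g r => b.repr (x g r) i := by
  have a0 : ∀ (i) (e : E), (b.coord i).rTensor Y (algebraMap E _ e) =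
      algebraMap ℚ_[2] _ (b.repr e i) := fun i e => by
    simp [Algebra.algebraMap_eq_smul_one,
      Algebra.TensorProduct.one_def, TensorProduct.smul_tmul']
  refine ⟨fun ⟨z, hz⟩ i => ⟨fun r => (b.coord i).rTensor Y (z r), fun g u s p q => ?_⟩,
    fun h => ?_⟩
  · rw [← co_act]
    ext r
    rw [← a0, ← congrFun (hz g u s p q) r, Pi.sub_apply, Pi.sub_apply, map_sub]
    rfl
  · choose z hz using h
    choose w hw using fun r => Ten.co_surj b fun i => TensorProduct.lid ℚ_[2] Y (z i r)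
    have e : ∀ i, (fun r => (b.coord i).rTensor Y (w r)) = z i := fun i =>
      funext fun r => (TensorProduct.lid ℚ_[2] Y).injective (hw r i)
    refine ⟨w, fun g u s p q => funext fun r => Ten.co_ext b fun i => ?_⟩
    rw [Ten.co, LinearMap.comp_apply, LinearMap.comp_apply]
    refine congrArg _ ?_
    rw [a0, ← congrFun (hz i g u s p q) r, ← e, ← co_act, Pi.sub_apply, Pi.sub_apply, map_sub]
    rfl

theorem coc_co [TopologicalSpace G] (x : G → Fin n → E) :
    Coc (ex E ρ) ⊤ x ↔ ∀ i, Coc ρ ⊤ fun g r => b.repr (x g r) i := by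
  have : Module.Finite ℚ_[2] E := Module.Finite.of_basis b
  refine ⟨fun ⟨a, a'⟩ i => ⟨continuousOn_pi.2 fun r =>
      (b.coord i).continuous_of_finiteDimensional.comp_continuousOn (continuousOn_pi.1 a r),
      fun g hg k hk => ?_⟩,
    fun h => ⟨continuousOn_pi.2 fun r => ?_, fun g hg k hk => funext fun r => b.ext_elem fun i =>
      (congrFun ((h i).2 g hg k hk) r).trans ?_⟩⟩
  · rw [← co_mulVec]
    ext r
    simp [a' g hg k hk, ex]
  · exact (continuousOn_finsetSum Finset.univ fun i _ => (continuousOn_pi.1 (h i).1 r).smul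
      (continuousOn_const (c := b i))).congr fun g _ => (b.sum_repr _).symm
  · rw [← co_mulVec]
    simp [ex]

theorem hf_co (ρ : Gal L →* Matrix (Fin n) (Fin n) ℚ_[2]) (x : Gal L → Fin n → E) :
    x ∈ Hf (ex E ρ) ↔ ∀ i, (fun g r => b.repr (x g r) i) ∈ Hf ρ := by
  simp only [hf_iff, coc_co b, cob_co b, cr_co b, forall_and]
  exact and_congr Iff.rfl (and_congr ⟨fun h i P p q => h P p q i, fun h P p q i => h i P p q⟩
    forall_comm)

end Bas2

open Bas2 in
theorem bas2 : Bas2St := by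
  intro L _ _ E _ _ _ n ρ ρ' ⟨D, hD, h⟩ f
  let b := Module.finBasis ℚ_[2] E
  have d := (isUnit_iff_isUnit_det D).1 hD
  have h' : ∀ g, D⁻¹ * ex E ρ g = ρ' g * D⁻¹ := fun g => by
    rw [← nonsing_inv_mul_cancel_left D (ρ' g * D⁻¹) d, ← Matrix.mul_assoc D, h,
      mul_nonsing_inv_cancel_right _ _ d]
    rfl
  have i1 : ∀ x : Gal L → Fin n → E, (fun g => D⁻¹ *ᵥ D *ᵥ x g) = x := fun x => by
    simp only [mulVec_mulVec, nonsing_inv_mul _ d, one_mulVec]
  let φ : (Gal L → Fin n → E) →ₗ[ℚ_[2]] _ → Gal L → Fin n → ℚ_[2] :=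
    { toFun := fun x i g r => b.repr ((D *ᵥ x g) r) i
      map_add' := fun x y => by ext; simp [mulVec_add]
      map_smul' := fun c x => by ext; simp [mulVec_smul] }
  have hφ : Function.Bijective φ :=
    ⟨fun x y e => by
      rw [← i1 x, ← i1 y]
      exact funext fun g => congrArg _ (funext fun r => b.ext_elem fun i =>
        congrFun (congrFun (congrFun e i) g) r),
    fun y => ⟨fun g => D⁻¹ *ᵥ fun r => b.equivFun.symm fun i => y i g r, by
      ext i g r
      change b.repr ((D *ᵥ D⁻¹ *ᵥ _) r) i = _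
      rw [mulVec_mulVec, mul_nonsing_inv _ d, one_mulVec]
      exact congrFun (b.equivFun.apply_symm_apply fun i => y i g r) i⟩⟩
  have e0 : ∀ x i, φ x i = fun g r => b.repr ((D *ᵥ x g) r) i := fun _ _ => rfl
  have e1 : ∀ x, x ∈ hfS ρ' ↔ ∀ i, φ x i ∈ hfS ρ := fun x => by
    simp only [mem_hf, e0]
    refine Iff.trans ⟨hf_conj h, fun a => ?_⟩ (hf_co b ρ fun g => D *ᵥ x g)
    have := hf_conj h' a
    rwa [i1] at this
  have e2 : ∀ x, x ∈ cobS ρ' ⊤ ↔ ∀ i, φ x i ∈ cobS ρ ⊤ := fun x =>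
    Iff.trans ⟨cob_conj h, fun a => i1 x ▸ cob_conj h' a⟩ (cob_co b ρ _ _)
  rw [span_hf] at f
  obtain ⟨f1, r1⟩ := rank b φ hφ _ _ e1 f
  obtain ⟨-, r2⟩ := rank b φ hφ (hfS ρ ⊓ cobS ρ ⊤) (hfS ρ' ⊓ cobS ρ' ⊤)
    (fun x => by simp only [mem_inf, e1, e2, forall_and]) (f.of_le inf_le_left)
  have q1 := quo _ (cobS ρ ⊤) f1
  have q2 := quo _ (cobS ρ' ⊤) f
  rw [h1, h1, qdim, qdim, span_hf, span_hf, span_cob, span_cob]
  exact ⟨f1, by omega⟩

end Pool.Agent.SY
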