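import Pool.Agent.Lib.MP_b4b3cb_nt.SY.St3
import Pool.Agent.Lib.MP_b4b3cb_nt.SY.Bas2

/-! Extension of the field of coefficients for the Selmer group. -/

namespace Pool.Agent.SY

open NumberField Matrix Module Submodule Pool.Agent.SelTwo Pool.Agent.HF
open scoped TensorProduct

namespace BasE2

open Bas2

variable {E E' Y G ι U : Type} [NontriviallyNormedField E] [NormedAlgebra ℚ_[2] E]
  [NontriviallyNormedField E'] [NormedAlgebra ℚ_[2] E'] [Algebra E E'] [IsScalarTower ℚ_[2] E E']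
  {n : ℕ} [CommRing Y] [Algebra ℚ_[2] Y] [Group G] (b : Basis ι E E')
  {P : G → U → Prop} {Q : U → (Y →ₐ[ℚ_[2]] Y) → Prop} {L : Type} [Field L]

/-- The coordinates. -/
noncomputable def cE (i : ι) : E' ⊗[ℚ_[2]] Y →ₗ[ℚ_[2]] E ⊗[ℚ_[2]] Y :=
  ((b.coord i).restrictScalars ℚ_[2]).rTensor Y

/-- The multiples of a vector of the basis. -/
noncomputable def up (i : ι) : E ⊗[ℚ_[2]] Y →ₗ[ℚ_[2]] E' ⊗[ℚ_[2]] Y :=
  ((LinearMap.toSpanSingleton E E' (b i)).restrictScalars ℚ_[2]).rTensor Y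

theorem cE_tmul (i : ι) (a : E') (x : Y) : cE b i (a ⊗ₜ x) = b.repr a i ⊗ₜ x := rfl

theorem up_tmul (i : ι) (a : E) (x : Y) : up b i (a ⊗ₜ x) = (a • b i) ⊗ₜ x := rfl

theorem cE_alg (i : ι) (e : E') : cE (Y := Y) b i (algebraMap E' _ e) = algebraMap E _ (b.repr e i) :=
  rfl

theorem cE_mul (i : ι) (a : E) (z : E' ⊗[ℚ_[2]] Y) :
    cE b i (algebraMap E' _ (algebraMap E E' a) * z) = algebraMap E _ a * cE b i z := by
  rw [← Algebra.smul_def, ← Algebra.smul_def]
  induction z using TensorProduct.induction_on with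
  | zero => simp
  | tmul c x =>
    rw [TensorProduct.smul_tmul', cE_tmul, cE_tmul, TensorProduct.smul_tmul', algebraMap_smul,
      map_smul, Finsupp.smul_apply]
  | add z w h1 h2 => simp only [smul_add, map_add, h1, h2]

theorem cE_map (i : ι) (s : Y →ₐ[ℚ_[2]] Y) (z : E' ⊗[ℚ_[2]] Y) :
    cE b i (Algebra.TensorProduct.map (AlgHom.id E' E') s z) =
      Algebra.TensorProduct.map (AlgHom.id E E) s (cE b i z) := by
  induction z using TensorProduct.induction_on with
  | zero => simp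
  | tmul a x => simp [cE_tmul]
  | add z w h1 h2 => simp only [map_add, h1, h2]

theorem cE_up [DecidableEq ι] (i j : ι) (y : E ⊗[ℚ_[2]] Y) :
    cE b i (up b j y) = if j = i then y else 0 := by
  induction y using TensorProduct.induction_on with
  | zero => simp
  | tmul a x =>
    rw [up_tmul, cE_tmul, map_smul, b.repr_self, Finsupp.smul_apply, Finsupp.single_apply]
    split_ifs <;> simp
  | add z w h1 h2 =>
    rw [map_add, map_add, h1, h2]
    split_ifs <;> simp

omit [NormedAlgebra ℚ_[2] E] [NormedAlgebra ℚ_[2] E'] [IsScalarTower ℚ_[2] E E'] in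
theorem co_mulVec (M : Matrix (Fin n) (Fin n) E) (v : Fin n → E') (i : ι) :
    (fun r => b.repr ((M.map (algebraMap E E') *ᵥ v) r) i) = M *ᵥ fun r => b.repr (v r) i := by
  ext r
  simp [mulVec, dotProduct, ← Algebra.smul_def]

theorem co_act (M : Matrix (Fin n) (Fin n) E) (s : Y →ₐ[ℚ_[2]] Y) (z : Fin n → E' ⊗[ℚ_[2]] Y)
    (i : ι) : (fun r => cE b i (act (M.map (algebraMap E E')) s z r)) =
      act M s fun r => cE b i (z r) := by
  ext r
  simp only [act, mulVec, dotProduct, map_apply, map_sum, cE_mul, cE_map]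

variable [Fintype ι] (ρ : G →* Matrix (Fin n) (Fin n) E)

theorem up_sum (z : E' ⊗[ℚ_[2]] Y) : ∑ i, up b i (cE b i z) = z := by
  induction z using TensorProduct.induction_on with
  | zero => simp
  | tmul a x =>
    simp only [cE_tmul, up_tmul]
    rw [← TensorProduct.sum_tmul, b.sum_repr]
  | add z w h1 h2 => simp only [map_add, Finset.sum_add_distrib, h1, h2]

theorem cE_ext {z w : E' ⊗[ℚ_[2]] Y} (h : ∀ i, cE b i z = cE b i w) : z = w := by
  rw [← up_sum b z, ← up_sum b w]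
  simp only [h]

theorem cE_surj (x : ι → E ⊗[ℚ_[2]] Y) : ∃ z : E' ⊗[ℚ_[2]] Y, ∀ i, cE b i z = x i := by
  classical
  exact ⟨∑ j, up b j (x j), fun i => by simp [cE_up]⟩

variable (E') in
/-- The extension of scalars. -/
noncomputable def ex : G →* Matrix (Fin n) (Fin n) E' :=
  (algebraMap E E').mapMatrix.toMonoidHom.comp ρ

omit [NormedAlgebra ℚ_[2] E] [NormedAlgebra ℚ_[2] E'] [IsScalarTower ℚ_[2] E E'] in
theorem cob_co (T : Subgroup G) (x : G → Fin n → E') :
    Cob (ex E' ρ) T x ↔ ∀ i, Cob ρ T fun g r => b.repr (x g r) i := by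
  refine ⟨fun ⟨u, hu⟩ i => ⟨fun r => b.repr (u r) i, fun g hg => ?_⟩, fun h => ?_⟩
  · rw [← co_mulVec]
    ext r
    simp [ex, hu g hg]
  · choose u hu using h
    refine ⟨fun r => b.equivFun.symm fun i => u i r, fun g hg => funext fun r =>
      b.ext_elem fun i => (congrFun (hu i g hg) r).trans ?_⟩
    have e : u i = fun r => b.repr (b.equivFun.symm fun i => u i r) i := funext fun r =>
      (congrFun (b.equivFun.apply_symm_apply fun i => u i r) i).symm
    rw [Pi.sub_apply, Pi.sub_apply, map_sub, Finsupp.sub_apply, ← congrFun e r]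
    nth_rw 1 [e]
    rw [← co_mulVec]
    rfl

theorem cr_co (x : G → Fin n → E') :
    Cr P Q (ex E' ρ) x ↔ ∀ i, Cr P Q ρ fun g r => b.repr (x g r) i := by
  refine ⟨fun ⟨z, hz⟩ i => ⟨fun r => cE b i (z r), fun g u s p q => ?_⟩, fun h => ?_⟩
  · rw [← co_act]
    ext r
    rw [← cE_alg, ← congrFun (hz g u s p q) r, Pi.sub_apply, Pi.sub_apply, map_sub]
    rfl
  · choose z hz using h
    choose w hw using fun r => cE_surj b fun i => z i r
    have e : ∀ i, (fun r => cE b i (w r)) = z i := fun i => funext fun r => hw r i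
    refine ⟨w, fun g u s p q => funext fun r => cE_ext b fun i => ?_⟩
    rw [cE_alg, ← congrFun (hz i g u s p q) r, ← e, ← co_act, Pi.sub_apply, Pi.sub_apply, map_sub]
    rfl

variable [FiniteDimensional ℚ_[2] E] [FiniteDimensional ℚ_[2] E']

theorem coc_co [TopologicalSpace G] (x : G → Fin n → E') :
    Coc (ex E' ρ) ⊤ x ↔ ∀ i, Coc ρ ⊤ fun g r => b.repr (x g r) i := by
  refine ⟨fun ⟨a, a'⟩ i => ⟨continuousOn_pi.2 fun r =>
      ((b.coord i).restrictScalars ℚ_[2]).continuous_of_finiteDimensional.comp_continuousOn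
        (continuousOn_pi.1 a r), fun g hg k hk => ?_⟩,
    fun h => ⟨continuousOn_pi.2 fun r => ?_, fun g hg k hk => funext fun r => b.ext_elem fun i =>
      (congrFun ((h i).2 g hg k hk) r).trans ?_⟩⟩
  · rw [← co_mulVec]
    ext r
    simp [a' g hg k hk, ex]
  · exact (continuousOn_finsetSum Finset.univ fun i _ =>
      ((LinearMap.toSpanSingleton E E' (b i)).restrictScalars
        ℚ_[2]).continuous_of_finiteDimensional.comp_continuousOn
          (continuousOn_pi.1 (h i).1 r)).congr fun g _ => (b.sum_repr _).symm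
  · rw [← co_mulVec]
    simp [ex]

theorem hf_co (ρ : Gal L →* Matrix (Fin n) (Fin n) E) (x : Gal L → Fin n → E') :
    x ∈ Hf (ex E' ρ) ↔ ∀ i, (fun g r => b.repr (x g r) i) ∈ Hf ρ := by
  simp only [hf_iff, coc_co b, cob_co b, cr_co b, forall_and]
  exact and_congr Iff.rfl (and_congr ⟨fun h i P p q => h P p q i, fun h P p q i => h i P p q⟩
    forall_comm)

end BasE2

open Bas2 in
theorem basE2 : BasE2St := by
  intro L _ _ E E' _ _ _ _ _ _ f₀ n ρ ρ' ⟨D, hD, h₀⟩ f
  let _ : Algebra E E' := (f₀ : E →+* E').toAlgebra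
  have : IsScalarTower ℚ_[2] E E' := IsScalarTower.of_algebraMap_eq fun x => (f₀.commutes x).symm
  have : Module.Finite E E' := Module.Finite.of_restrictScalars_finite ℚ_[2] E E'
  have h : ∀ g, D * ρ' g = BasE2.ex E' ρ g * D := h₀
  let b := Module.finBasis E E'
  have d := (isUnit_iff_isUnit_det D).1 hD
  have h' : ∀ g, D⁻¹ * BasE2.ex E' ρ g = ρ' g * D⁻¹ := fun g => by
    rw [← nonsing_inv_mul_cancel_left D (ρ' g * D⁻¹) d, ← Matrix.mul_assoc D, h,
      mul_nonsing_inv_cancel_right _ _ d]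
  have i1 : ∀ x : Gal L → Fin n → E', (fun g => D⁻¹ *ᵥ D *ᵥ x g) = x := fun x => by
    simp only [mulVec_mulVec, nonsing_inv_mul _ d, one_mulVec]
  let φ : (Gal L → Fin n → E') →ₗ[E] _ → Gal L → Fin n → E :=
    { toFun := fun x i g r => b.repr ((D *ᵥ x g) r) i
      map_add' := fun x y => by ext; simp [mulVec_add]
      map_smul' := fun c x => by ext; simp [mulVec_smul] }
  have hφ : Function.Bijective φ :=
    ⟨fun x y e => by
      rw [← i1 x, ← i1 y]
      exact funext fun g => congrArg _ (funext fun r => b.ext_elem fun i =>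
        congrFun (congrFun (congrFun e i) g) r),
    fun y => ⟨fun g => D⁻¹ *ᵥ fun r => b.equivFun.symm fun i => y i g r, by
      ext i g r
      change b.repr ((D *ᵥ D⁻¹ *ᵥ _) r) i = _
      rw [mulVec_mulVec, mul_nonsing_inv _ d, one_mulVec]
      exact congrFun (b.equivFun.apply_symm_apply fun i => y i g r) i⟩⟩
  have e0 : ∀ x i, φ x i = fun g r => b.repr ((D *ᵥ x g) r) i := fun _ _ => rfl
  have e1 : ∀ x, x ∈ hfS ρ' ↔ ∀ i, φ x i ∈ hfS ρ := fun x => by
    simp only [mem_hf, e0]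
    refine Iff.trans ⟨hf_conj h, fun a => ?_⟩ (BasE2.hf_co b ρ fun g => D *ᵥ x g)
    have := hf_conj h' a
    rwa [i1] at this
  have e2 : ∀ x, x ∈ cobS ρ' ⊤ ↔ ∀ i, φ x i ∈ cobS ρ ⊤ := fun x =>
    Iff.trans ⟨cob_conj h, fun a => i1 x ▸ cob_conj h' a⟩ (BasE2.cob_co b ρ _ _)
  rw [span_hf] at f
  obtain ⟨f1, r1⟩ := rank b φ hφ _ _ e1 f
  obtain ⟨-, r2⟩ := rank b φ hφ (hfS ρ ⊓ cobS ρ ⊤) (hfS ρ' ⊓ cobS ρ' ⊤)
    (fun x => by simp only [mem_inf, e1, e2, forall_and]) (f.of_le inf_le_left)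
  have q1 := quo _ (cobS ρ ⊤) f1
  have q2 := quo _ (cobS ρ' ⊤) f
  rw [h1, h1, qdim, qdim, span_hf, span_hf, span_cob, span_cob]
  exact ⟨f1, by omega⟩

end Pool.Agent.SY
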