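import Pool.Agent.Lib.MP_b4b3cb_nt.SY.Ts

/-! Uniformisers, additive characters and the field of coefficients. -/

namespace Pool.Agent.SY

open NumberField IsDedekindDomain Pool.Agent.SelTwo IsCMField

namespace OkA

variable {L : Type} [Field L] [NumberField L] [IsCMField L] {w : HeightOneSpectrum (𝓞 L)}

theorem cc (x : 𝓞 L) : ringOfIntegersComplexConj L (ringOfIntegersComplexConj L x) = x :=
  RingOfIntegers.ext (complexConj_apply_apply L x)

theorem mem (h : Fxd w) {x : 𝓞 L} (hx : x ∈ w.asIdeal) :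
    ringOfIntegersComplexConj L x ∈ w.asIdeal := by
  have := Ideal.mem_map_of_mem (ringOfIntegersComplexConj L) hx
  rwa [h] at this

theorem uniq (h : Fxd w) (w' : HeightOneSpectrum (𝓞 L))
    (e : w'.under (𝓞 (maximalRealSubfield L)) = w.under _) : w' = w := by
  refine HeightOneSpectrum.ext (w'.isMaximal.eq_of_le w.isPrime.ne_top fun x hx => ?_)
  obtain ⟨y, hy⟩ := (ringOfIntegersComplexConj_eq_self_iff L
    (x * ringOfIntegersComplexConj L x)).1 (by rw [map_mul, cc, mul_comm])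
  have a : y ∈ (w'.under (𝓞 (maximalRealSubfield L))).asIdeal :=
    Ideal.mem_comap.2 (hy ▸ Ideal.mul_mem_right _ _ hx)
  rw [e] at a
  rcases w.isPrime.mem_or_mem (hy ▸ Ideal.mem_comap.1 a) with b | b
  · exact b
  · exact cc x ▸ mem h b

theorem unif (h : Fxd w) (h2 : 2 ∉ w.asIdeal) :
    ∃ ϖ : L, complexConj L ϖ = -ϖ ∧ w.valuation L ϖ = WithZero.exp (-1) := by
  obtain ⟨π, hπ⟩ := w.intValuation_exists_uniformizer
  have le : ∀ x : 𝓞 L, w.intValuation x ≤ WithZero.exp (-1) ↔ x ∈ w.asIdeal := fun x => by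
    simpa using w.intValuation_le_pow_iff_mem x 1
  have m := (le π).1 hπ.le
  have a := (le _).2 (add_mem m (mem h m))
  have b := (le _).2 (sub_mem m (mem h m))
  have c := w.intValuation.map_add (π + ringOfIntegersComplexConj L π)
    (π - ringOfIntegersComplexConj L π)
  rw [show π + ringOfIntegersComplexConj L π + (π - ringOfIntegersComplexConj L π) = 2 * π by ring,
    map_mul, HeightOneSpectrum.intValuation_eq_one_iff.2 h2, one_mul, hπ, le_max_iff] at c
  rcases c with c | c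
  · obtain ⟨x, hx⟩ : ∃ x, complexConj L x ≠ x := by
      by_contra! H
      exact complexConj_ne_one L (AlgEquiv.ext H)
    have e := (w.valuation_of_algebraMap (K := L) _).trans (le_antisymm a c)
    have z : w.valuation L (x - complexConj L x) ≠ 0 :=
      (Valuation.ne_zero_iff _).2 (sub_ne_zero.2 hx.symm)
    refine ⟨(x - complexConj L x) * ((π + ringOfIntegersComplexConj L π : 𝓞 L) : L) ^
      (WithZero.log (w.valuation L (x - complexConj L x)) + 1), ?_, ?_⟩
    · rw [map_mul, map_zpow₀, ← coe_ringOfIntegersComplexConj, map_add, cc, add_comm _ π, map_sub,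
        complexConj_apply_apply]
      ring
    · rw [map_mul, map_zpow₀]
      erw [e]
      rw [← WithZero.exp_zsmul]
      nth_rewrite 1 [← WithZero.exp_log z]
      rw [← WithZero.exp_add]
      congr 1
      simp
  · refine ⟨((π - ringOfIntegersComplexConj L π : 𝓞 L) : L), ?_,
      (w.valuation_of_algebraMap (K := L) _).trans (le_antisymm b c)⟩
    rw [← coe_ringOfIntegersComplexConj, map_sub, cc, ← neg_sub]
    simp

theorem chr (h : Fxd w) (h2 : 2 ∉ w.asIdeal) {N : ℕ} (hN : 0 < N)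
    (d : Ideal.absNorm w.asIdeal ∣ N) {E : Type} [NontriviallyNormedField E] {ζ : E}
    (hζ : IsPrimitiveRoot ζ N) : ∃ Ψ : AddChar (𝓞 L) E, Ψ ≠ 1 ∧ (∀ x ∈ w.asIdeal, Ψ x = 1) ∧
      ∀ x, Ψ (ringOfIntegersComplexConj L x) = Ψ x := by
  have : NeZero N := ⟨hN.ne'⟩
  have : HasEnoughRootsOfUnity E N := ⟨⟨ζ, hζ⟩, rootsOfUnity.isCyclic E N⟩
  have : Finite (𝓞 L ⧸ w.asIdeal) := Ideal.finiteQuotientOfFreeOfNeBot _ w.ne_bot
  have : HasEnoughRootsOfUnity E (Monoid.exponent (Multiplicative (𝓞 L ⧸ w.asIdeal))) :=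
    .of_dvd E (Group.exponent_dvd_nat_card.trans d)
  obtain ⟨φ, hφ⟩ := CommGroup.exists_apply_ne_one_of_hasEnoughRootsOfUnity
    (Multiplicative (𝓞 L ⧸ w.asIdeal)) E (a := .ofAdd (Ideal.Quotient.mk _ 2))
    fun e => h2 (Ideal.Quotient.eq_zero_iff_mem.1 e)
  refine ⟨⟨fun x => φ (.ofAdd (Ideal.Quotient.mk _ (x + ringOfIntegersComplexConj L x))), by simp,
    fun x y => ?_⟩, fun e => hφ ?_, fun x hx => ?_, fun x => ?_⟩
  · rw [map_add _ x, add_add_add_comm, map_add, ofAdd_add, map_mul, Units.val_mul]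
  · have := DFunLike.congr_fun e 1
    simp only [AddChar.coe_mk, map_one, one_add_one_eq_two, AddChar.one_apply] at this
    exact Units.ext this
  · simp only [AddChar.coe_mk]
    rw [Ideal.Quotient.eq_zero_iff_mem.2 (add_mem hx (mem h hx))]
    simp
  · simp only [AddChar.coe_mk]
    rw [cc, add_comm]

end OkA

theorem ok : OkSt := by
  intro L _ _ _ _ T hT
  have hN : 0 < ∏ w ∈ T, Ideal.absNorm w.asIdeal := Finset.prod_pos fun w _ =>
    Nat.pos_of_ne_zero (Ideal.absNorm_eq_zero_iff.not.2 w.ne_bot)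
  refine ⟨_, hN, fun E _ ζ hζ => ?_⟩
  have a : ∀ v : HeightOneSpectrum (𝓞 (maximalRealSubfield L)), ∃ ϖ : L, ∀ w ∈ T,
      w.under _ = v → complexConj L ϖ = -ϖ ∧ w.valuation L ϖ = WithZero.exp (-1) := fun v => by
    by_cases e : ∃ w ∈ T, w.under _ = v
    · obtain ⟨w, hw, rfl⟩ := e
      obtain ⟨ϖ, hϖ⟩ := OkA.unif (hT w hw).1 (hT w hw).2
      exact ⟨ϖ, fun w' _ e => OkA.uniq (hT w hw).1 w' e ▸ hϖ⟩
    · exact ⟨0, fun w hw q => (e ⟨w, hw, q⟩).elim⟩
  choose ϖ hϖ using a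
  choose! Ψ hΨ using fun w (hw : w ∈ T) => OkA.chr (hT w hw).1 (hT w hw).2 hN
    (Finset.dvd_prod_of_mem _ hw) hζ
  refine ⟨ϖ, Ψ, fun w hw => ⟨⟨(hT w hw).2, fun w' e => OkA.uniq (hT w hw).1 w' e ▸ hw⟩,
    hϖ _ w hw rfl, (hΨ w hw).1, (hΨ w hw).2.1, fun w' e => ?_⟩⟩
  obtain rfl : w' = w := HeightOneSpectrum.ext (e.trans (hT w hw).1)
  exact (hΨ _ hw).2.2

theorem ef : EFSt := by
  intro N hN
  have : NeZero N := ⟨hN.ne'⟩
  obtain ⟨s, hs⟩ := IsAlgClosed.exists_pow_nat_eq (2 : AlgebraicClosure ℚ_[2]) two_pos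
  obtain ⟨ζ, hζ⟩ := HasEnoughRootsOfUnity.exists_primitiveRoot (AlgebraicClosure ℚ_[2]) N
  let E := IntermediateField.adjoin ℚ_[2] {s, ζ}
  have : FiniteDimensional ℚ_[2] E := IntermediateField.finiteDimensional_adjoin fun x _ =>
    Algebra.IsIntegral.isIntegral x
  refine ⟨E, spectralNorm.nontriviallyNormedField ℚ_[2] E, spectralNorm.normedAlgebra ℚ_[2] E,
    this, ⟨s, IntermediateField.subset_adjoin _ _ (by simp)⟩,
    ⟨ζ, IntermediateField.subset_adjoin _ _ (by simp)⟩, Subtype.ext hs, ?_⟩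
  exact IsPrimitiveRoot.of_map_of_injective (f := E.val) hζ Subtype.val_injective

end Pool.Agent.SY
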