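import Pool.Agent.Lib.MP_b4b3cb_nt.SY.St3
import Pool.Agent.Lib.MP_b4b3cb_nt.DefsG

/-! Representations of odd dimension: definitions and the statements of the steps. -/

namespace Pool.Agent.SY

open NumberField IsDedekindDomain Matrix Pool.Agent.SelTwo Pool.Agent.HF Pool.Agent.SymTwo
open scoped Classical

/-- The block sum of two matrices. -/
def bs {R : Type} [CommRing R] {n₁ n₂ : ℕ} (A : Matrix (Fin n₁) (Fin n₁) R)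
    (B : Matrix (Fin n₂) (Fin n₂) R) : Matrix (Fin (n₁ + n₂)) (Fin (n₁ + n₂)) R :=
  reindex finSumFinEquiv finSumFinEquiv (fromBlocks A 0 0 B)

/-- Block sums of matrices. -/
structure BsSt : Prop where
  mul : ∀ {R : Type} [CommRing R] {n₁ n₂ : ℕ} (A A' : Matrix (Fin n₁) (Fin n₁) R)
    (B B' : Matrix (Fin n₂) (Fin n₂) R), bs (A * A') (B * B') = bs A B * bs A' B'
  one : ∀ {R : Type} [CommRing R] (n₁ n₂ : ℕ),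
    bs (1 : Matrix (Fin n₁) (Fin n₁) R) (1 : Matrix (Fin n₂) (Fin n₂) R) = 1
  det : ∀ {R : Type} [CommRing R] {n₁ n₂ : ℕ} (A : Matrix (Fin n₁) (Fin n₁) R)
    (B : Matrix (Fin n₂) (Fin n₂) R), (bs A B).det = A.det * B.det
  nil : ∀ {R : Type} [CommRing R] {n₁ n₂ : ℕ} (A : Matrix (Fin n₁) (Fin n₁) R)
    (B : Matrix (Fin n₂) (Fin n₂) R), (IsNilpotent (A - 1) → IsNilpotent (B - 1) →
      IsNilpotent (bs A B - 1)) ∧ (IsNilpotent (A + 1) → IsNilpotent (B + 1) →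
      IsNilpotent (bs A B + 1))
  rank : ∀ {R : Type} [Field R] {n₁ n₂ : ℕ} (A : Matrix (Fin n₁) (Fin n₁) R)
    (B : Matrix (Fin n₂) (Fin n₂) R), (bs A B - 1).rank = (A - 1).rank + (B - 1).rank
  vec : ∀ {R : Type} [CommRing R] {n₁ n₂ : ℕ} (A : Matrix (Fin n₁) (Fin n₁) R)
    (B : Matrix (Fin n₂) (Fin n₂) R) (x : Fin n₁ → R) (y : Fin n₂ → R),
    bs A B *ᵥ Fin.append x y = Fin.append (A *ᵥ x) (B *ᵥ y)
  map : ∀ {R S : Type} [CommRing R] [CommRing S] (f : R →+* S) {n₁ n₂ : ℕ}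
    (A : Matrix (Fin n₁) (Fin n₁) R) (B : Matrix (Fin n₂) (Fin n₂) R),
    (bs A B).map f = bs (A.map f) (B.map f)

/-- Direct sums: the local conditions. -/
def Sum1St : Prop :=
  ∀ (L : Type) [Field L] (E : Type) [NontriviallyNormedField E] [NormedAlgebra ℚ_[2] E]
    (n₁ n₂ : ℕ) (ρ₁ : Gal L →* Matrix (Fin n₁) (Fin n₁) E)
    (ρ₂ : Gal L →* Matrix (Fin n₂) (Fin n₂) E)
    (ρ : Gal L →* Matrix (Fin (n₁ + n₂)) (Fin (n₁ + n₂)) E), (∀ g, ρ g = bs (ρ₁ g) (ρ₂ g)) →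
    (∀ D : Set (Gal L), (∀ v, (∀ g ∈ D, ρ₁ g *ᵥ v = v) → v = 0) →
      (∀ v, (∀ g ∈ D, ρ₂ g *ᵥ v = v) → v = 0) → ∀ v, (∀ g ∈ D, ρ g *ᵥ v = v) → v = 0) ∧
    (∀ j, (NoFix j ρ₁ → NoFix j ρ₂ → NoFix j ρ) ∧
      ∀ h₁ h₂, DeRham j ρ₁ h₁ → DeRham j ρ₂ h₂ → DeRham j ρ (Fin.append h₁ h₂)) ∧
    ∀ 𝔓 a, Inr ρ₁ 𝔓 a → (∀ g ∈ Ine 𝔓, ρ₂ g = 1) → Inr ρ 𝔓 a

/-- Direct sums: the Selmer group. -/
def Sum2St : Prop :=
  ∀ (L : Type) [Field L] [NumberField L] (E : Type) [NontriviallyNormedField E]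
    [NormedAlgebra ℚ_[2] E] (n₁ n₂ : ℕ) (ρ₁ : Gal L →* Matrix (Fin n₁) (Fin n₁) E)
    (ρ₂ : Gal L →* Matrix (Fin n₂) (Fin n₂) E)
    (ρ : Gal L →* Matrix (Fin (n₁ + n₂)) (Fin (n₁ + n₂)) E), (∀ g, ρ g = bs (ρ₁ g) (ρ₂ g)) →
    (∀ x y, x ∈ Hf ρ₁ ∧ y ∈ Hf ρ₂ ↔ (fun g => Fin.append (x g) (y g)) ∈ Hf ρ) ∧
    ((Submodule.span E (Hf ρ)).FG → (Submodule.span E (Hf ρ₁)).FG ∧
      (Submodule.span E (Hf ρ₂)).FG ∧ h1 ρ ⊤ (Hf ρ) = h1 ρ₁ ⊤ (Hf ρ₁) + h1 ρ₂ ⊤ (Hf ρ₂))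

/-- The polarisation of the sum of an even symmetric power and a character. -/
def PolESt : Prop :=
  ∀ (G : Type) [Group G] [TopologicalSpace G] (E : Type) [NontriviallyNormedField E]
    [NormedAlgebra ℚ_[2] E] (s π : E), s ^ 2 = 2 → ‖π‖ < 1 → ‖s‖ < ‖π‖ ^ 2 →
    ∀ (t : G → M2 ℤ_[2]) (cj : G → G) (C : M2 ℤ_[2]),
    Continuous t → (∀ g, IsUnit (t g).det) → C * C = 1 → C.det = -1 →
    (∀ g, t (cj g) = C * t g * C) → ∀ (k : ℕ) (μ ν : G → E), Continuous μ → Continuous ν →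
    (∀ g, ‖μ g - 1‖ < ‖π‖ ^ 2) → (∀ g, ‖ν g - 1‖ < ‖π‖ ^ 2) →
    (∀ g, μ g * μ (cj g) = (te E (t g)).det) → (∀ g, ν g * ν (cj g) = (te E (t g)).det) →
    ∀ ρ : G →* Matrix (Fin (2 * k + 1 + 1)) (Fin (2 * k + 1 + 1)) E,
    (∀ g, ρ g = bs ((μ g / (te E (t g)).det ^ k) • sym (2 * k) (te E (t g)))
      (ν g • (1 : Matrix (Fin 1) (Fin 1) E))) →
    ∃ (ρ' : G →* Matrix (Fin (2 * k + 1 + 1)) (Fin (2 * k + 1 + 1)) E) (B : _),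
      Eqe (RingHom.id E) ρ ρ' ∧ PolS ρ' (fun g => (te E (t g)).det) cj B

/-- The determinant of a symmetric power. -/
def DsSt : Prop :=
  ∀ (E : Type) [Field E] (m : ℕ) (A : M2 E), (sym m A).det = A.det ^ (m * (m + 1) / 2)

/-- The local constant when inertia acts through the quadratic character, up to unipotents. -/
def EpsQSt : Prop :=
  ∀ (L : Type) [Field L] [NumberField L] (E : Type) [NontriviallyNormedField E]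
    [NormedAlgebra ℚ_[2] E] (n r : ℕ), n = 2 * r → ∀ ρ : Gal L →* Matrix (Fin n) (Fin n) E,
    ∀ 𝔓 : Idl L, 𝔓.IsMaximal → 2 ∉ 𝔓 → ∀ w : HeightOneSpectrum (𝓞 L), 𝔓.under _ = w.asIdeal →
    ∀ (ϖ : L) (Ψ : AddChar (𝓞 L) E), w.valuation L ϖ = WithZero.exp (-1) → Ψ ≠ 1 →
    (∀ x ∈ w.asIdeal, Ψ x = 1) → ∀ c : E,
    (∀ α : AlgebraicClosure L, α ^ 2 = algebraMap L _ ϖ → ∀ g ∈ Ine 𝔓,
      (g α = α → IsNilpotent (ρ g - 1)) ∧ (g α ≠ α → IsNilpotent (ρ g + 1))) →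
    (∀ (α : AlgebraicClosure L) (σ : Gal L), α ^ (nq 𝔓 - 1) = -algebraMap L _ ϖ →
      Fb 𝔓 (nq 𝔓) (σ : _ →+* _) → σ α = α →
      (ρ σ).det * c = ((-1) ^ (nq 𝔓 / 2) * nq 𝔓 : E) ^ r) → Eps ρ 𝔓 ϖ Ψ c

/-- An unramified anticyclotomic character is trivial at an inert prime. -/
def NsISt : Prop :=
  ∀ (L : Type) [Field L] [NumberField L] [IsCMField L] (E : Type) [NontriviallyNormedField E]
    [NormedAlgebra ℚ_[2] E] (κ : Gal L →* E) (cj : Gal L → Gal L), IsCj cj → Ch κ cj 0 →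
    ∀ 𝔓 : Idl L, 𝔓.IsMaximal → 2 ∉ 𝔓 → Nonsplit 𝔓 → ¬Ram 𝔓 → (∀ g ∈ Ine 𝔓, κ g = 1) →
    ∀ g ∈ Dec 𝔓, κ g = 1

/-- A quadratic character that is unramified outside `p`, and orthogonal to the unramified
characters at `p`. -/
def Qc {L : Type} [Field L] (p : HeightOneSpectrum (𝓞 L)) (y : Gal L → ZMod 2) : Prop :=
  SC.Hom ⊤ y ∧ ∀ 𝔓 : Idl L, 𝔓.IsMaximal →
    (𝔓.under _ ≠ p.asIdeal → ∀ g ∈ Ine 𝔓, y g = 0) ∧ (𝔓.under _ = p.asIdeal → ∀ z,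
      SC.Hom (Dec 𝔓) z → (∀ g ∈ Ine 𝔓, z g = 0) → SC.Sz (Dec 𝔓) (SC.cup y z))

/-- The descent. -/
def AnASt : Prop :=
  ∀ (L : Type) [Field L] [NumberField L] [IsCMField L] (ν : Gal L →* ℚ_[2]) (cj : Gal L → Gal L),
    IsCj cj → Ch ν cj 1 → ∀ p r : HeightOneSpectrum (𝓞 L), 2 ∈ p.asIdeal → ¬Fxd p →
    (∀ 𝔓 : Idl L, 𝔓.IsMaximal → (∃ g ∈ Dec 𝔓, ν g ≠ 1) ∧
      (𝔓.under _ = r.asIdeal → 2 ∉ 𝔓 ∧ Nonsplit 𝔓 ∧ Ram 𝔓) ∧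
      (𝔓.under _ ≠ p.asIdeal → 𝔓.under _ ≠ r.asIdeal → ∀ g ∈ Ine 𝔓, ν g = 1)) →
    ∀ x : Gal L → ℚ_[2], Continuous x → (∀ g h, x (g * h) = x g + ν g * x h) →
    (∀ 𝔓 : Idl L, 𝔓.IsMaximal → 𝔓.under _ ≠ p.asIdeal → ∃ u, ∀ g ∈ Ine 𝔓, x g = ν g * u - u) →
    (∃ u, ∀ g, x g = ν g * u - u) ∨ ∃ y, Qc p y ∧ y ≠ 0

/-- An element whose ideal is a square, when the class number is odd. -/
def ClsSt : Prop :=
  ∀ (L : Type) [Field L] [NumberField L] [IsCMField L], Module.finrank ℚ L = 2 →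
    Odd (classNumber L) → ∀ _ : L →+* ℚ_[2], ∀ a : L, a ≠ 0 → (∀ q, Even (Stark.og q a)) →
    ∃ b : L, a = b ^ 2 ∨ a = -b ^ 2

/-- There is no such character when the class number is odd. -/
def AnBSt : Prop :=
  ∀ (L : Type) [Field L] [NumberField L] [IsCMField L], Module.finrank ℚ L = 2 →
    Odd (classNumber L) → ∀ p : HeightOneSpectrum (𝓞 L), 2 ∈ p.asIdeal → ¬Fxd p →
    ∀ y, Qc p y → y = 0

end Pool.Agent.SY
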