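import Pool.Agent.Lib.MP_b4b3cb_nt.SY.St2
import Pool.Agent.Lib.MP_b4b3cb_nt.HF.Bd
import Pool.Agent.Lib.MP_b4b3cb_nt.HF.AcB

/-! Facts on the period rings. -/

namespace Pool.Agent.SY

open WittVector Ideal Pool.Agent.SelTwo Pool.Agent.HF Pool.Agent.HF.AcB
open scoped Nat

namespace AcS

theorem bd_dom : IsDomain Bd := by
  obtain ⟨f, -, h1, h2⟩ := exTd
  have : Nontrivial Bd := f.domain_nontrivial
  have k : ∀ (y : Bd) (N : ℕ) (x : Bd), ¬algebraMap Ai Bd xi ^ N ∣ x → x * y = 0 → y = 0 := by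
    intro y N
    induction N with
    | zero => simp
    | succ N ih =>
      intro x hx e
      by_cases h : f x = 0
      · obtain ⟨z, rfl⟩ := (h1 x).1 h
        exact ih z (fun d => hx (pow_succ' (algebraMap Ai Bd xi) N ▸ mul_dvd_mul_left _ d))
          (bd_nzd _ (by rw [← mul_assoc, e]))
      · exact (h2 x h).mul_right_eq_zero.1 e
  have : NoZeroDivisors Bd := ⟨fun {x y} e => by
    by_cases h : ∀ N, algebraMap Ai Bd xi ^ N ∣ x
    · exact Or.inl (BdA.cpl.1 x h)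
    · obtain ⟨N, hN⟩ := not_forall.1 h
      exact Or.inr (k y N x hN e)⟩
  exact NoZeroDivisors.to_isDomain _

theorem pow_dvd (k : ℕ) (x : Ti) : (1 + SelTwo.eta) ^ 2 ^ k ∣ x ↔ PreTilt.coeff k x = 0 := by
  rw [← TiA.co, Ideal.Quotient.eq_zero_iff_mem, mem_span_singleton, Nat.cast_ofNat, TiA.two_dvd,
    ti_dvd, ← TiA.rt_pow k x, map_pow, SubmonoidClass.coe_pow, SubmonoidClass.coe_pow, norm_pow,
    norm_pow, eta_nm]
  exact pow_le_pow_iff_left₀ (norm_nonneg _) (by norm_num) (pow_ne_zero k two_ne_zero)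

theorem ti_cpl : Cpl (1 + SelTwo.eta : Ti) := by
  refine ⟨fun x h => Perfection.ext fun k => ((pow_dvd k x).1 (h _)).trans (map_zero _).symm,
    fun f h => ?_⟩
  have c : ∀ {m n}, m ≤ n → (1 + SelTwo.eta) ^ m ∣ f n - f m := fun {m n} e => by
    induction n, e using Nat.le_induction with
    | base => simp
    | succ n e ih =>
      rw [← sub_add_sub_cancel _ (f n)]
      exact ((pow_dvd_pow _ e).trans (h n)).add ih
  obtain ⟨l, hl⟩ : ∃ l : Ti, ∀ k, PreTilt.coeff k l = PreTilt.coeff k (f (2 ^ k)) :=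
    ⟨⟨fun k => PreTilt.coeff k (f (2 ^ k)), fun k => by
      rw [PreTilt.coeff_pow_p, ← sub_eq_zero, ← map_sub, ← pow_dvd]
      exact c (Nat.pow_le_pow_right two_pos k.le_succ)⟩, fun _ => rfl⟩
  refine ⟨l, fun N => ?_⟩
  rw [← sub_add_sub_cancel _ (f (2 ^ N))]
  exact ((pow_dvd_pow _ N.lt_two_pow_self.le).trans
    ((pow_dvd N _).2 (by rw [map_sub, hl, sub_self]))).add (c N.lt_two_pow_self.le)

theorem k_dx (m : ℕ) : (m ! : Ac) * algebraMap A0 Ac (dx m) = algebraMap Ai Ac xi ^ m := by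
  have := congrArg (algebraMap A0 Ac) (dx_spec m)
  rwa [map_mul, map_natCast, map_pow, ← ik] at this

theorem dx_sq (m : ℕ) : 2 ∣ algebraMap A0 Ac (dx (m + 1)) ^ 2 := by
  obtain ⟨c, hc⟩ := Nat.two_dvd_centralBinom_succ m
  rw [Nat.centralBinom_eq_two_mul_choose, two_mul] at hc
  rw [← map_pow, sq, dx_mul, hc, map_mul, map_natCast, Nat.cast_mul, mul_assoc]
  exact dvd_mul_right _ _

theorem th_sq {θ : Ac →+* OC} (h : ∀ a, θ (algebraMap Ai Ac a) = th a) (y : Ac) (hy : 2 ∣ θ y) :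
    2 ∣ y ^ 2 := by
  obtain ⟨x, z, rfl⟩ := ac2_den y 1
  obtain ⟨a, h1, h2⟩ : ∃ a, 2 ∣ algebraMap A0 Ac x ^ 2 - algebraMap Ai Ac a ^ 2 ∧
      θ (algebraMap A0 Ac x) = th a := by
    clear hy
    induction dx_span x using Submodule.span_induction with
    | zero => exact ⟨0, by simp⟩
    | add x y _ _ p q =>
      obtain ⟨a, a1, a2⟩ := p
      obtain ⟨b, b1, b2⟩ := q
      refine ⟨a + b, ?_, by rw [map_add, map_add, map_add, a2, b2]⟩
      rw [map_add, map_add]
      exact ((a1.add b1).add (Dvd.intro (algebraMap A0 Ac x * algebraMap A0 Ac y -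
        algebraMap Ai Ac a * algebraMap Ai Ac b) rfl)).trans (dvd_of_eq (by ring))
    | smul c x _ p =>
      obtain ⟨a, a1, a2⟩ := p
      refine ⟨c * a, ?_, by rw [k_smul, map_mul, map_mul, h, a2]⟩
      rw [k_smul, map_mul]
      exact (a1.mul_left (algebraMap Ai Ac c ^ 2)).trans (dvd_of_eq (by ring))
    | mem _ p =>
      obtain ⟨_ | m, rfl⟩ := p
      · exact ⟨1, by simp [dx_zero]⟩
      · have := congrArg θ (k_dx (m + 1))
        rw [map_mul, map_natCast, map_pow, h, HF.th_xi, zero_pow m.succ_ne_zero,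
          mul_eq_zero_iff_left (Nat.cast_ne_zero.2 (Nat.factorial_ne_zero _))] at this
        exact ⟨0, by simpa using dx_sq m, by rw [this, map_zero]⟩
  rw [map_add, pow_one, map_mul, map_ofNat, h2] at hy
  exact ((h1.add (ac_sq ((dvd_add_left (Dvd.intro _ rfl)).1 hy))).add
    (Dvd.intro (2 * algebraMap A0 Ac x * z + 2 * z ^ 2) rfl)).trans (dvd_of_eq (by ring))

theorem ph_dx {ph : Ac →+* Ac} (h : Ov fr ph) (m : ℕ) :
    2 ∣ ph (algebraMap A0 Ac (dx (m + 1))) := by
  obtain ⟨τ, hτ, -⟩ := exTa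
  obtain ⟨v, o, ⟨j, rfl⟩, e⟩ := Nat.exists_eq_two_pow_mul_odd (m + 1).factorial_ne_zero
  have h1 : v < m + 1 := by
    exact_mod_cast (pow_dvd_iff_le_emultiplicity.1 ⟨_, e⟩).trans_lt
      (Nat.emultiplicity_two_factorial_lt m.succ_ne_zero)
  obtain ⟨d, rfl⟩ := Nat.exists_eq_add_of_le (Nat.lt_succ_iff.1 h1)
  have h2 := congrArg ph (k_dx (v + d + 1))
  rw [map_mul, map_natCast, map_pow, h, fr_xi, map_add, map_ofNat, ik, ← hτ, map_mul, map_ofNat, e,
    ← mul_one_add, mul_pow] at h2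
  push_cast at h2
  exact ⟨2 ^ d * (1 + algebraMap A0 Ac τ) ^ (v + d + 1) -
    j * ph (algebraMap A0 Ac (dx (v + d + 1))), sub_eq_zero.1 (ac2_pow v _ (by
      linear_combination h2))⟩

theorem ph_sq {ph : Ac →+* Ac} (h : Ov fr ph) (y : Ac) : 2 ∣ ph y - y ^ 2 := by
  obtain ⟨x, z, rfl⟩ := ac2_den y 1
  have : 2 ∣ ph (algebraMap A0 Ac x) - algebraMap A0 Ac x ^ 2 := by
    induction dx_span x using Submodule.span_induction with
    | zero => simp
    | add x y _ _ p q =>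
      rw [map_add, map_add]
      exact ((p.add q).sub (Dvd.intro (algebraMap A0 Ac x * algebraMap A0 Ac y) rfl)).trans
        (dvd_of_eq (by ring))
    | smul c x _ p =>
      have := map_dvd (algebraMap Ai Ac) (fr_sq c)
      rw [map_ofNat, map_sub, map_pow] at this
      rw [k_smul, map_mul, h]
      exact ((this.mul_right (ph (algebraMap A0 Ac x))).add
        (p.mul_left (algebraMap Ai Ac c ^ 2))).trans (dvd_of_eq (by ring))
    | mem _ p =>
      obtain ⟨_ | m, rfl⟩ := p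
      · simp [dx_zero]
      · exact (ph_dx h m).sub (dx_sq m)
  rw [map_add, pow_one, map_mul, map_ofNat]
  exact (this.add (Dvd.intro (ph z - 2 * algebraMap A0 Ac x * z - 2 * z ^ 2) rfl)).trans
    (dvd_of_eq (by ring))

theorem ex_ka : ∃ κ : Ti →+* Ac ⧸ span {(2 : Ac)}, ∀ x, κ x =
    Ideal.Quotient.mk _ (algebraMap Ai Ac (teichmuller 2 x)) := by
  refine ⟨RingHom.mk' (((Ideal.Quotient.mk _).comp (algebraMap Ai Ac)).toMonoidHom.comp
    (teichmuller 2)) fun x y => ?_, fun _ => rfl⟩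
  have : 2 ∣ teichmuller 2 (x + y) - (teichmuller 2 x + teichmuller 2 y) := by
    rw [ai_two, ← constantCoeff_apply, map_sub, RingHom.map_add]
    simp only [constantCoeff_apply, teichmuller_coeff_zero, sub_self]
  have := map_dvd (algebraMap Ai Ac) this
  rw [map_ofNat, map_sub, RingHom.map_add, ← mem_span_singleton] at this
  exact (Ideal.Quotient.eq.2 this).trans (map_add _ _ _)

end AcS

open AcS

theorem acs : InjSt → AcSt := fun i =>
  have := bd_dom
  ⟨i.elim fun β k => k.2.2.2.isDomain β, ti_cpl, fun θ h => ⟨th_sq h, fun σ u r a b y =>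
    congrArg Subtype.val (DFunLike.congr_fun (ac_uniq (θ.comp r) ((TiA.res σ a.1).comp θ)
      (fun _ k => (mul_eq_zero.1 k).resolve_left two_ne_zero) oc_cpl.1 fun x => Subtype.ext (by
        rw [RingHom.comp_apply, RingHom.comp_apply, b, h, h]
        exact a.th x)) y)⟩, fun _ => ph_sq, ex_ka⟩

end Pool.Agent.SY
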