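import Pool.Agent.Lib.MP_b4b3cb_nt.SY.Ts
import Pool.Agent.Lib.MP_b4b3cb_nt.HF.Emb
import Pool.Agent.Lib.MP_b4b3cb_nt.Prime

/-! Isometries of the field of `2`-adic complex numbers and decomposition groups. -/

namespace Pool.Agent.SY

open NumberField Pool.Agent.SelTwo Pool.Agent.HF
open scoped Classical Pointwise

namespace AllA

variable {L : Type} [Field L] [NumberField L]

/-- Two embeddings that agree on `L` differ by an element of the Galois group. -/
theorem gal (j j' : AlgebraicClosure L →+* ℂ_[2])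
    (h : ∀ x : L, j' (algebraMap L _ x) = j (algebraMap L _ x)) :
    ∃ g : Gal L, ∀ x, j' x = j (g x) := by
  let _ : Algebra (AlgebraicClosure L) ℂ_[2] := j.toAlgebra
  let _ : Algebra L ℂ_[2] := (j.comp (algebraMap L _)).toAlgebra
  have : IsScalarTower L (AlgebraicClosure L) ℂ_[2] := IsScalarTower.of_algebraMap_eq fun _ => rfl
  let f : AlgebraicClosure L →ₐ[L] ℂ_[2] := ⟨j', h⟩
  exact ⟨f.restrictNormal' (AlgebraicClosure L),
    fun x => (f.restrictNormal_commutes (AlgebraicClosure L) x).symm⟩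

/-- An embedding of a quadratic field is the given one or its conjugate. -/
theorem two [IsCMField L] (hL : Module.finrank ℚ L = 2) (i i' : L →+* ℂ_[2]) :
    i' = i ∨ ∀ x, i' x = i (IsCMField.complexConj L x) := by
  by_contra! hn
  obtain ⟨h1, x, h2⟩ := hn
  let c : L →+* ℂ_[2] := i.comp (IsCMField.complexConj L : L →+* L)
  have h3 : i' ≠ c := fun e => h2 (by rw [e]; rfl)
  have h4 : i ≠ c := fun e => IsCMField.complexConj_ne_one L (AlgEquiv.ext fun y =>
    (i.injective (RingHom.congr_fun e y)).symm)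
  have h5 := Embeddings.card L ℂ_[2]
  have h6 : ({i', i, c} : Finset (L →+* ℂ_[2])).card ≤ Fintype.card (L →+* ℂ_[2]) :=
    Finset.card_le_univ _
  rw [Finset.card_eq_three.2 ⟨i', i, c, h1, h3, h4, rfl⟩] at h6
  omega

theorem under {𝔓 : Idl L} (h : 𝔓.IsMaximal) (h2 : 2 ∈ 𝔓) :
    𝔓.under (𝓞 ℚ) = Ideal.span {((2 : ℕ) : 𝓞 ℚ)} := by
  have p : (Ideal.span {((2 : ℕ) : 𝓞 ℚ)}).IsPrime := Ideal.isPrime_of_irreducible_absNorm (by
    rw [Ideal.absNorm_span_natCast, RingOfIntegers.rank, Module.finrank_self, pow_one]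
    exact Nat.prime_two.prime.irreducible)
  have := h.isPrime
  refine ((p.isMaximal (by simp)).eq_of_le (Ideal.IsPrime.under _ 𝔓).ne_top ?_).symm
  rw [Ideal.span_singleton_le_iff_mem, Ideal.under, Ideal.mem_comap, map_natCast]
  exact_mod_cast h2

end AllA

theorem all : AllSt := by
  intro L _ _ _ hL
  refine ⟨fun j hj σ hσ => ?_, fun 𝔓 h h2 => ?_⟩
  · let j' : AlgebraicClosure L →+* ℂ_[2] := (σ : ℂ_[2] →+* ℂ_[2]).comp j
    have e : ∀ x, ‖j' x‖ = ‖j x‖ := fun x => hσ _
    rcases AllA.two hL (j.comp (algebraMap L _)) (j'.comp (algebraMap L _)) with h | h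
    · obtain ⟨g, hg⟩ := AllA.gal j j' fun x => RingHom.congr_fun h x
      refine ⟨g, (Emb.dec j).2 (Ideal.ext fun x => ?_), hg⟩
      rw [Emb.mem, Emb.mem, ← e, hg]
      rfl
    · refine absurd ?_ hj
      have k : ∀ x : 𝓞 L, IsCMField.ringOfIntegersComplexConj L x ∈ (pj j).under (𝓞 L) ↔
          x ∈ (pj j).under (𝓞 L) := fun x => by
        change ‖j (algebraMap L _ (IsCMField.complexConj L x))‖ < 1 ↔
          ‖j (algebraMap L _ (x : L))‖ < 1
        rw [← e (algebraMap L _ (x : L))]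
        exact iff_of_eq (congrArg (‖·‖ < 1) (h x).symm)
      refine le_antisymm (Ideal.map_le_iff_le_comap.2 fun x hx => (k x).2 hx) fun x hx => ?_
      obtain ⟨y, rfl⟩ := (IsCMField.ringOfIntegersComplexConj L).surjective x
      exact Ideal.mem_map_of_mem _ ((k y).1 hx)
  · have : Algebra.IsAlgebraic ℚ (AlgebraicClosure L) := Algebra.IsAlgebraic.trans ℚ L _
    have : IsAlgClosure ℚ (AlgebraicClosure L) := ⟨inferInstance, this⟩
    let j : AlgebraicClosure L →+* ℂ_[2] :=
      (IsAlgClosed.lift : AlgebraicClosure L →ₐ[ℚ] ℂ_[2])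
    have := h.isPrime
    have := Emb.prime j
    obtain ⟨g, hg⟩ := SC.PrimeAux.trans' (F := ℚ) 𝔓 (pj j)
      ((AllA.under h h2).trans (AllA.under (pj_max j).1 (pj_max j).2).symm)
    refine ⟨j.comp (g : AlgebraicClosure L →+* AlgebraicClosure L), Ideal.ext fun x => ?_⟩
    rw [← Ideal.smul_mem_pointwise_smul_iff (a := g), ← hg]
    exact Iff.rfl

end Pool.Agent.SY
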