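import Pool.Agent.Lib.MP_b4b3cb_nt.SY.Ts

/-! The theorem of Ax and Sen. -/

namespace Pool.Agent.SY

open Polynomial

namespace Ax

theorem bin {n : ℕ} (hn : 1 < n) : ∃ d, 0 < d ∧ 2 * d ≤ n ∧ ¬4 ∣ n.choose d := by
  by_contra! h
  have h4 : 4 ∣ (Finset.Icc 1 (n - 1)).gcd n.choose := Finset.dvd_gcd fun i hi => by
    rw [Finset.mem_Icc] at hi
    by_cases h2 : 2 * i ≤ n
    · exact h i hi.1 h2
    · rw [← Nat.choose_symm (by omega : i ≤ n)]
      exact h _ (by omega) (by omega)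
  by_cases hp : IsPrimePow n
  · rw [Choose.gcd_choose_eq_minFac_of_isPrimePow hp] at h4
    rcases (Nat.dvd_prime (Nat.minFac_prime hn.ne')).1 h4 with e | e
    · omega
    · exact absurd (e ▸ Nat.minFac_prime hn.ne') (by norm_num)
  · rw [Choose.gcd_choose_eq_one_of_not_isPrimePow hn hp] at h4
    omega

variable {F : Type} [NormedField F]

theorem up [IsUltrametricDist F] {α : F} {ε : ℝ} (h0 : 0 ≤ ε) (s : Multiset F)
    (h : ∀ r ∈ s, ‖r - α‖ ≤ ε) (k : ℕ) :
    ‖(taylor α (s.map (X - C ·)).prod).coeff k‖ * ε ^ k ≤ ε ^ s.card := by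
  induction s using Multiset.induction_on generalizing k with
  | empty =>
    rw [Multiset.map_zero, Multiset.prod_zero, taylor_one, coeff_C]
    split_ifs with e <;> simp [e]
  | cons r s ih =>
    have ih := ih fun x hx => h x (Multiset.mem_cons_of_mem hx)
    have hr := h r (Multiset.mem_cons_self r s)
    rw [norm_sub_rev] at hr
    have e : taylor α (X - C r) = X + C (α - r) := by
      rw [map_sub, taylor_X, taylor_C, C_sub, add_sub_assoc]
    have h2 (k : ℕ) : ‖(α - r) * (taylor α (s.map (X - C ·)).prod).coeff k‖ * ε ^ k ≤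
        ε ^ (s.card + 1) := by
      rw [norm_mul, mul_assoc, pow_succ']
      exact mul_le_mul hr (ih k) (by positivity) h0
    rw [Multiset.map_cons, Multiset.prod_cons, taylor_mul, e, add_mul, coeff_add, coeff_C_mul,
      Multiset.card_cons]
    refine (mul_le_mul_of_nonneg_right (IsUltrametricDist.norm_add_le_max _ _)
      (pow_nonneg h0 k)).trans ?_
    rw [max_mul_of_nonneg _ _ (pow_nonneg h0 k)]
    refine max_le ?_ (h2 k)
    cases k with
    | zero => simp [pow_nonneg h0]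
    | succ k =>
      rw [coeff_X_mul, pow_succ, ← mul_assoc, pow_succ]
      exact mul_le_mul_of_nonneg_right (ih k) h0

theorem low {α : F} {δ : ℝ} (h0 : 0 ≤ δ) (s : Multiset F) (h : ∀ r ∈ s, δ ≤ ‖α - r‖) :
    δ ^ s.card ≤ ‖(s.map (α - ·)).prod‖ := by
  induction s using Multiset.induction_on with
  | empty => simp
  | cons r s ih =>
    rw [Multiset.map_cons, Multiset.prod_cons, norm_mul, Multiset.card_cons, pow_succ']
    exact mul_le_mul (h r (Multiset.mem_cons_self r s))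
      (ih fun x hx => h x (Multiset.mem_cons_of_mem hx)) (pow_nonneg h0 _) (norm_nonneg _)

theorem near [IsAlgClosed F] (α : F) {g : F[X]} (hg : 0 < g.natDegree) :
    ∃ β ∈ g.roots, ‖g.leadingCoeff‖ * ‖α - β‖ ^ g.natDegree ≤ ‖g.eval α‖ := by
  classical
  have hc : g.roots.card = g.natDegree := IsAlgClosed.card_roots_eq_natDegree
  obtain ⟨β, hβ, hm⟩ := g.roots.toFinset.exists_min_image (fun r => ‖α - r‖)
    (Multiset.toFinset_nonempty.2 (Multiset.card_pos.1 (hc ▸ hg)))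
  refine ⟨β, Multiset.mem_toFinset.1 hβ, ?_⟩
  rw [(IsAlgClosed.splits g).eval_eq_prod_roots, norm_mul, ← hc]
  exact mul_le_mul_of_nonneg_left (low (norm_nonneg _) _ fun r hr =>
    hm r (Multiset.mem_toFinset.2 hr)) (norm_nonneg _)

variable (K : IntermediateField ℚ_[2] (PadicAlgCl 2))

theorem iso (τ : Gal(PadicAlgCl 2/K)) (x : PadicAlgCl 2) : ‖τ x‖ = ‖x‖ :=
  (spectralNorm_eq_of_equiv (τ.restrictScalars ℚ_[2]) x).symm

theorem step {α : PadicAlgCl 2} {ε : ℝ} (h0 : 0 < ε) (hn : 1 < (minpoly K α).natDegree)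
    (h : ∀ τ : Gal(PadicAlgCl 2/K), ‖τ α - α‖ ≤ ε) : ∃ (d : ℕ) (β : PadicAlgCl 2),
    2 * d ≤ (minpoly K α).natDegree ∧ (minpoly K β).natDegree ≤ d ∧
      ‖α - β‖ ≤ 4 ^ (d : ℝ)⁻¹ * ε := by
  obtain ⟨d, hd, h2, h4⟩ := bin hn
  have hi : IsIntegral K α := Algebra.IsIntegral.isIntegral α
  have hm := (minpoly.monic hi).map (algebraMap K (PadicAlgCl 2))
  obtain ⟨k, hk⟩ : ∃ k, (minpoly K α).natDegree = d + k := ⟨_, (Nat.add_sub_cancel' (by omega)).symm⟩
  set f := minpoly K α with hf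
  set P := f.map (algebraMap K (PadicAlgCl 2)) with hP
  have hPn : P.natDegree = d + k := by rw [hP, natDegree_map, hk]
  have e : hasseDeriv k P = (hasseDeriv k f).map (algebraMap K (PadicAlgCl 2)) := by
    ext i
    simp [hP, hasseDeriv_coeff]
  have hG : (hasseDeriv k P).natDegree = d := by rw [natDegree_hasseDeriv, hPn, Nat.add_sub_cancel]
  obtain ⟨β, hβ, hb⟩ := near α (hG ▸ hd : 0 < (hasseDeriv k P).natDegree)
  have h1 := up h0.le P.roots (α := α) (fun r hr => by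
    obtain ⟨τ, rfl⟩ := minpoly.exists_algEquiv_of_root' hi.isAlgebraic (x := r)
      (by rw [aeval_def, eval₂_eq_eval_map]; exact (mem_roots hm.ne_zero).1 hr)
    exact h τ) k
  rw [← (IsAlgClosed.splits P).eq_prod_roots_of_monic hm, taylor_coeff,
    IsAlgClosed.card_roots_eq_natDegree, hPn, pow_add, mul_le_mul_iff_left₀ (pow_pos h0 k)] at h1
  rw [leadingCoeff, hG, hasseDeriv_coeff, ← hPn, hm.coeff_natDegree, mul_one, hPn,
    Nat.choose_symm_add.symm, ← hk] at hb
  have h5 : 4⁻¹ ≤ ‖((f.natDegree.choose d : ℕ) : PadicAlgCl 2)‖ := by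
    rw [← map_natCast (algebraMap ℚ_[2] _), norm_algebraMap']
    refine le_of_not_ge fun hh => h4 ?_
    have := (Padic.norm_int_le_pow_iff_dvd (p := 2) (f.natDegree.choose d) 2).1
      (by rw [Int.cast_natCast]; exact hh.trans_eq (by norm_num))
    exact_mod_cast this
  have hg0 : hasseDeriv k f ≠ 0 := fun hh => by
    rw [e, hh, Polynomial.map_zero, natDegree_zero] at hG
    omega
  refine ⟨d, β, h2, ?_, le_of_pow_le_pow_left₀ hd.ne' (by positivity) ?_⟩
  · refine (natDegree_le_of_dvd (minpoly.dvd K β ?_) hg0).trans_eq ?_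
    · rw [aeval_def, eval₂_eq_eval_map, ← e]
      exact (mem_roots'.1 hβ).2
    · rw [← hG, e, natDegree_map]
  · rw [mul_pow, Real.rpow_inv_natCast_pow (by norm_num) hd.ne']
    have := (mul_le_mul_of_nonneg_right h5 (pow_nonneg (norm_nonneg (α - β)) d)).trans
      (hb.trans h1)
    linarith

theorem alg (n : ℕ) : ∀ (α : PadicAlgCl 2) (ε : ℝ), 0 < ε → (minpoly K α).natDegree = n →
    (∀ τ : Gal(PadicAlgCl 2/K), ‖τ α - α‖ ≤ ε) →
    ∃ a ∈ K, ‖α - a‖ ≤ 4 ^ (2 - 2 * (n : ℝ)⁻¹) * ε := by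
  induction n using Nat.strong_induction_on with
  | _ n ih =>
  intro α ε h0 hn h
  have pos (x : PadicAlgCl 2) : 0 < (minpoly K x).natDegree :=
    minpoly.natDegree_pos (Algebra.IsIntegral.isIntegral x)
  rcases (Nat.succ_le_of_lt (pos α)).eq_or_lt with h1 | h1
  · obtain ⟨a, rfl⟩ := minpoly.natDegree_eq_one_iff.1 h1.symm
    exact ⟨a, a.2, (norm_sub_eq_zero_iff.2 rfl).trans_le (by positivity)⟩
  obtain ⟨d, β, h2, h3, h4⟩ := step K h0 h1 h
  have hm := pos β
  have hd : (0 : ℝ) < d := by exact_mod_cast hm.trans_le h3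
  have h5 : ε ≤ 4 ^ (d : ℝ)⁻¹ * ε :=
    le_mul_of_one_le_left h0.le (Real.one_le_rpow (by norm_num) (by positivity))
  obtain ⟨a, ha, h6⟩ := ih _ (by omega) β (4 ^ (d : ℝ)⁻¹ * ε) (by positivity) rfl fun τ => by
    rw [show τ β - β = τ (β - α) + ((τ α - α) + (α - β)) by rw [map_sub]; ring]
    refine (IsUltrametricDist.norm_add_le_max _ _).trans (max_le ?_
      ((IsUltrametricDist.norm_add_le_max _ _).trans (max_le ((h τ).trans h5) h4)))
    rwa [iso, norm_sub_rev]
  have h7 : ((minpoly K β).natDegree : ℝ)⁻¹ ≤ 1 :=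
    inv_le_one_of_one_le₀ (by exact_mod_cast hm)
  have h8 : (d : ℝ)⁻¹ ≤ ((minpoly K β).natDegree : ℝ)⁻¹ :=
    inv_anti₀ (by exact_mod_cast hm) (by exact_mod_cast h3)
  have h9 : (n : ℝ)⁻¹ ≤ (2 * d : ℝ)⁻¹ := inv_anti₀ (by positivity) (by exact_mod_cast hn ▸ h2)
  rw [mul_inv] at h9
  refine ⟨a, ha, ?_⟩
  rw [← mul_assoc, ← Real.rpow_add (by norm_num)] at h6
  rw [← sub_add_sub_cancel α β a]
  refine (IsUltrametricDist.norm_add_le_max _ _).trans (max_le (h4.trans ?_) (h6.trans ?_)) <;>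
    exact mul_le_mul_of_nonneg_right (Real.rpow_le_rpow_of_exponent_le (by norm_num)
      (by linarith)) h0.le

theorem ext (τ : Gal(PadicAlgCl 2/K)) :
    ∃ σ, Iso σ ∧ ∀ x : PadicAlgCl 2, σ (x : ℂ_[2]) = τ x := by
  have c (τ : Gal(PadicAlgCl 2/K)) : Continuous τ :=
    (Isometry.of_dist_eq fun a b => by rw [dist_eq_norm, dist_eq_norm, ← map_sub, iso]).continuous
  have e (x : PadicAlgCl 2) :
      UniformSpace.Completion.mapRingEquiv τ.toRingEquiv (c τ) (c τ.symm) (x : ℂ_[2]) = τ x :=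
    UniformSpace.Completion.mapRingHom_coe (c τ) x
  refine ⟨_, fun y => ?_, e⟩
  refine UniformSpace.Completion.induction_on y
    (isClosed_eq UniformSpace.Completion.continuous_map.norm continuous_norm) fun x => ?_
  rw [e, PadicComplex.norm_extends, PadicComplex.norm_extends, iso]

end Ax

theorem ax : AxSt := by
  intro K y h
  refine Metric.mem_closure_iff.2 fun ε h0 => ?_
  obtain ⟨α, hα⟩ := UniformSpace.Completion.denseRange_coe.exists_dist_lt y
    (by positivity : 0 < ε / 32)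
  rw [dist_eq_norm] at hα
  obtain ⟨a, ha, h1⟩ := Ax.alg K _ α (ε / 32) (by positivity) rfl fun τ => by
    obtain ⟨σ, hσ, e⟩ := Ax.ext K τ
    have hy := h σ hσ fun x hx => by rw [e, show τ x = x from τ.commutes ⟨x, hx⟩]
    rw [← PadicComplex.norm_extends, UniformSpace.Completion.coe_sub, ← e,
      show σ α - α = σ (α - y) + (y - α) by rw [map_sub, hy]; ring]
    refine (IsUltrametricDist.norm_add_le_max _ _).trans (max_le ?_ hα.le)
    rw [hσ, norm_sub_rev]
    exact hα.le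
  refine ⟨a, ⟨a, ha, rfl⟩, ?_⟩
  have h2 : (4 : ℝ) ^ (2 - 2 * ((minpoly K α).natDegree : ℝ)⁻¹) ≤ 4 ^ (2 : ℝ) :=
    Real.rpow_le_rpow_of_exponent_le (by norm_num) (sub_le_self _ (by positivity))
  rw [← PadicComplex.norm_extends, UniformSpace.Completion.coe_sub] at h1
  rw [dist_eq_norm, ← sub_add_sub_cancel y α a]
  refine (IsUltrametricDist.norm_add_le_max _ _).trans_lt (max_lt (by linarith) (h1.trans_lt ?_))
  norm_num at h2 ⊢
  nlinarith

end Pool.Agent.SY
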