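import Pool.Agent.Lib.MP_b4b3cb_nt.SY.Ts

/-! The theorem of Tate on the powers of the cyclotomic character. -/

namespace Pool.Agent.SY

namespace Tate

theorem nq (q : ℚ_[2]) : ‖algebraMap ℚ_[2] ℂ_[2] q‖ = ‖q‖ := norm_algebraMap' _ q

theorem n2 : ‖(2 : ℂ_[2])‖ = 1 / 2 := by
  have := nq ((2 : ℕ) : ℚ_[2])
  rw [map_natCast, Padic.norm_p] at this
  simpa using this

theorem root {u : ℤ_[2]} (h : PadicInt.toZModPow 2 u = 1) (k : ℕ) : k ≠ 0 → u ^ k = 1 → u = 1 := by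
  induction k using Nat.strong_induction_on with
  | _ k ih =>
    intro k0 hk
    obtain ⟨j, rfl | rfl⟩ := k.even_or_odd'
    · refine ih j (by omega) (by omega) ?_
      rw [mul_comm, pow_mul, sq, mul_self_eq_one_iff] at hk
      refine hk.resolve_right fun e => ?_
      have := congrArg (PadicInt.toZModPow 2) e
      rw [map_pow, h, one_pow, map_neg, map_one] at this
      exact absurd this (by decide)
    · have e := mul_geom_sum u (2 * j + 1)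
      rw [hk, sub_self, mul_eq_zero] at e
      refine sub_eq_zero.1 (e.resolve_right fun e => ?_)
      have := congrArg (PadicInt.toZModPow 2) e
      simp only [map_sum, map_pow, h, one_pow, Finset.sum_const, Finset.card_range, nsmul_eq_mul,
        mul_one, map_zero, ZMod.natCast_eq_zero_iff] at this
      omega

section

variable {z : ℕ → ℂ_[2]} (z0 : z 0 = -1) (zs : ∀ m, z (m + 1) ^ 2 = z m)

include z0 zs

theorem zp (m : ℕ) : z m ^ 2 ^ m = -1 := by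
  induction m with
  | zero => simpa
  | succ m ih => rw [pow_succ', pow_mul, zs, ih]

theorem npi (m : ℕ) : 1 / 2 ≤ ‖z m - 1‖ ∧ ‖z m - 1‖ < 1 ∧ ‖z (m + 1) - 1‖ ^ 2 = ‖z m - 1‖ := by
  have key : ∀ m, 1 / 2 ≤ ‖z m - 1‖ → 1 / 2 ≤ ‖z (m + 1) - 1‖ ∧
      ‖z (m + 1) - 1‖ ^ 2 = ‖z m - 1‖ := fun m h => by
    have e : ‖z (m + 1) - 1‖ * ‖z (m + 1) - 1 + 2‖ = ‖z m - 1‖ := by
      rw [← norm_mul, ← zs m]; congr 1; ring
    have h1 : 1 / 2 < ‖z (m + 1) - 1‖ := by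
      by_contra! c
      have := (IsUltrametricDist.norm_add_le_max (z (m + 1) - 1) 2).trans (max_le c n2.le)
      nlinarith [mul_le_mul c this (norm_nonneg _) (by norm_num)]
    rw [IsUltrametricDist.norm_add_eq_max_of_norm_ne_norm (by rw [n2]; exact h1.ne'), n2,
      max_eq_left h1.le] at e
    exact ⟨h1.le, by rw [sq, e]⟩
  have h0 : ‖z 0 - 1‖ = 1 / 2 := by rw [z0, ← n2, ← norm_neg]; norm_num
  induction m with
  | zero => exact ⟨h0.ge, by linarith, (key 0 h0.ge).2⟩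
  | succ m ih =>
    have := (key m ih.1).1
    exact ⟨this, by nlinarith [ih.2.1, ih.2.2], (key _ this).2⟩

omit z0 in
theorem mono {m n : ℕ} (h : m ≤ n) :
    Algebra.adjoin ℚ_[2] {z m} ≤ Algebra.adjoin ℚ_[2] {z n} := by
  induction h with
  | refl => rfl
  | @step n _ ih =>
    refine ih.trans (Algebra.adjoin_le (Set.singleton_subset_iff.2 ?_))
    rw [← zs n]
    exact pow_mem (Algebra.self_mem_adjoin_singleton _ _) 2

omit z0 in
theorem dec {m : ℕ} {x : ℂ_[2]} (hx : x ∈ Algebra.adjoin ℚ_[2] {z (m + 1)}) :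
    ∃ a ∈ Algebra.adjoin ℚ_[2] {z m}, ∃ b ∈ Algebra.adjoin ℚ_[2] {z m}, x = a + z (m + 1) * b := by
  induction hx using Algebra.adjoin_induction with
  | mem x hx => exact ⟨0, zero_mem _, 1, one_mem _, by simpa using hx⟩
  | algebraMap r => exact ⟨_, algebraMap_mem _ r, 0, zero_mem _, by simp⟩
  | add x y _ _ hx hy =>
    obtain ⟨a, ha, b, hb, rfl⟩ := hx
    obtain ⟨c, hc, d, hd, rfl⟩ := hy
    exact ⟨_, add_mem ha hc, _, add_mem hb hd, by ring⟩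
  | mul x y _ _ hx hy =>
    obtain ⟨a, ha, b, hb, rfl⟩ := hx
    obtain ⟨c, hc, d, hd, rfl⟩ := hy
    exact ⟨_, add_mem (mul_mem ha hc) (mul_mem (Algebra.self_mem_adjoin_singleton _ _)
      (mul_mem hb hd)), _, add_mem (mul_mem ha hd) (mul_mem hb hc), by rw [← zs m]; ring⟩

theorem mx {m : ℕ} (H : ∀ x ∈ Algebra.adjoin ℚ_[2] {z m}, x = 0 ∨ ∃ k : ℤ, ‖x‖ = ‖z m - 1‖ ^ k)
    {a b : ℂ_[2]} (ha : a ∈ Algebra.adjoin ℚ_[2] {z m}) (hb : b ∈ Algebra.adjoin ℚ_[2] {z m}) :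
    ‖a + z (m + 1) * b‖ = max ‖a + b‖ (‖z (m + 1) - 1‖ * ‖b‖) ∧
      (a + z (m + 1) * b = 0 ∨ ∃ k : ℤ, ‖a + z (m + 1) * b‖ = ‖z (m + 1) - 1‖ ^ k) := by
  obtain ⟨p1, p2, -⟩ := npi z0 zs (m + 1)
  have p0 : 0 < ‖z (m + 1) - 1‖ := by linarith
  have e : ∀ k : ℤ, ‖z m - 1‖ ^ k = ‖z (m + 1) - 1‖ ^ (2 * k) := fun k => by
    rw [← (npi z0 zs m).2.2, zpow_mul, zpow_ofNat]
  have e' : ∀ k : ℤ, ‖z (m + 1) - 1‖ * ‖z m - 1‖ ^ k = ‖z (m + 1) - 1‖ ^ (2 * k + 1) := fun k => by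
    rw [e, zpow_add_one₀ p0.ne', mul_comm]
  rw [show a + z (m + 1) * b = a + b + (z (m + 1) - 1) * b by ring]
  rcases H _ hb with rfl | ⟨l, hl⟩
  · simp only [mul_zero, add_zero, norm_zero, norm_nonneg, max_eq_left, true_and]
    exact (H _ ha).imp_right fun ⟨k, hk⟩ => ⟨_, hk.trans (e k)⟩
  rcases H _ (add_mem ha hb) with h | ⟨k, hk⟩
  · rw [h, zero_add, norm_mul, norm_zero, max_eq_right (by positivity)]
    exact ⟨rfl, Or.inr ⟨_, hl ▸ e' l⟩⟩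
  rw [IsUltrametricDist.norm_add_eq_max_of_norm_ne_norm, norm_mul, hk, hl, e', e]
  · exact ⟨rfl, Or.inr ((max_choice _ _).elim (fun h => ⟨_, h⟩) fun h => ⟨_, h⟩)⟩
  · rw [norm_mul, hk, hl, e', e]
    exact fun h => by have := zpow_right_injective₀ p0 p2.ne h; omega

theorem val (m : ℕ) : ∀ x ∈ Algebra.adjoin ℚ_[2] {z m}, x = 0 ∨ ∃ k : ℤ, ‖x‖ = ‖z m - 1‖ ^ k := by
  induction m with
  | zero =>
    intro x hx
    have : Algebra.adjoin ℚ_[2] {z 0} ≤ ⊥ :=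
      Algebra.adjoin_le (Set.singleton_subset_iff.2 (z0 ▸ neg_mem (one_mem _)))
    obtain ⟨q, rfl⟩ := Algebra.mem_bot.1 (this hx)
    by_cases h : q = 0
    · simp [h]
    refine Or.inr ⟨q.valuation, ?_⟩
    have h0 : ‖z 0 - 1‖ = 1 / 2 := by rw [z0, ← n2, ← norm_neg]; norm_num
    rw [nq, Padic.norm_eq_zpow_neg_valuation h, h0]
    simp
  | succ m ih =>
    intro x hx
    obtain ⟨a, ha, b, hb, rfl⟩ := dec zs hx
    exact (mx z0 zs ih ha hb).2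

theorem step {m : ℕ} {a b : ℂ_[2]} (ha : a ∈ Algebra.adjoin ℚ_[2] {z m})
    (hb : b ∈ Algebra.adjoin ℚ_[2] {z m}) :
    ‖a‖ * ‖z m - 1‖ ≤ ‖a + z (m + 1) * b‖ * ‖z (m + 1) - 1‖ := by
  obtain ⟨p1, p2, -⟩ := npi z0 zs (m + 1)
  have h := (mx z0 zs (val z0 zs m) ha hb).1
  have h1 := (le_max_left _ _).trans h.ge
  have h2 := (le_max_right _ _).trans h.ge
  have h3 : ‖a‖ ≤ max ‖a + b‖ ‖b‖ := by
    simpa using IsUltrametricDist.norm_add_le_max (a + b) (-b)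
  rw [← (npi z0 zs m).2.2, sq, ← mul_assoc]
  refine mul_le_mul_of_nonneg_right ?_ (norm_nonneg _)
  rcases le_max_iff.1 h3 with k | k
  · nlinarith [norm_nonneg a]
  · nlinarith [norm_nonneg (z (m + 1) - 1)]

theorem odd (γ : RingAut ℂ_[2]) (m : ℕ) : ∃ j, γ (z m) = z m * (z m ^ 2) ^ j := by
  induction m with
  | zero => exact ⟨0, by simp [z0]⟩
  | succ m ih =>
    obtain ⟨j, h⟩ := ih
    have : γ (z (m + 1)) ^ 2 = (z (m + 1) * z m ^ j) ^ 2 := by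
      rw [← map_pow, zs, h, mul_pow, zs]; ring
    rw [zs]
    rcases sq_eq_sq_iff_eq_or_eq_neg.1 this with k | k
    · exact ⟨j, k⟩
    · exact ⟨j + 2 ^ m, by rw [k, pow_add, zp z0 zs]; ring⟩

theorem chi (γ : RingAut ℂ_[2]) (m : ℕ) : γ (z m) = z m ↔
    PadicInt.toZModPow (m + 1) (cyclotomicCharacter ℂ_[2] 2 γ : ℤ_[2]) = 1 := by
  have h1 : z m ^ 2 ^ (m + 1) = 1 := by rw [pow_succ, pow_mul, zp z0 zs]; norm_num
  have h2 : IsPrimitiveRoot (z m) (2 ^ (m + 1)) := by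
    rw [← orderOf_eq_prime_pow (by rw [zp z0 zs]; norm_num) h1]
    exact IsPrimitiveRoot.orderOf _
  have h3 : 1 < 2 ^ (m + 1) := Nat.one_lt_two_pow (by omega)
  have := Fact.mk h3
  rw [cyclotomicCharacter.spec 2 γ _ h1]
  refine ⟨fun h => ?_, fun h => by rw [h, ZMod.val_one, pow_one]⟩
  exact (ZMod.val_eq_one h3 _).1 (h2.pow_inj (ZMod.val_lt _) h3 (by rw [h, pow_one]))

theorem tr {γ : RingAut ℂ_[2]} (hq : ∀ q, γ (algebraMap ℚ_[2] _ q) = algebraMap ℚ_[2] _ q)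
    (c : ℚ_[2]) {n m : ℕ} (h : n ≤ m) {y : ℂ_[2]} (hy : y ∈ Algebra.adjoin ℚ_[2] {z n}) :
    ∀ x ∈ Algebra.adjoin ℚ_[2] {z m}, ∃ a ∈ Algebra.adjoin ℚ_[2] {z n},
      ‖a - y‖ * ‖z n - 1‖ ≤ ‖x - y‖ * ‖z m - 1‖ ∧
      ‖γ a - algebraMap _ _ c * a‖ * ‖z n - 1‖ ≤ ‖γ x - algebraMap _ _ c * x‖ * ‖z m - 1‖ := by
  induction h with
  | refl => exact fun x hx => ⟨x, hx, le_rfl, le_rfl⟩
  | @step m h ih =>
    intro x hx
    obtain ⟨a, ha, b, hb, rfl⟩ := dec zs hx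
    obtain ⟨a', h1, h2, h3⟩ := ih a ha
    have s := Algebra.self_mem_adjoin_singleton ℚ_[2] (z m)
    have g : ∀ x ∈ Algebra.adjoin ℚ_[2] {z m}, γ x ∈ Algebra.adjoin ℚ_[2] {z m} := fun x hx => by
      induction hx using Algebra.adjoin_induction with
      | mem x hx =>
        obtain ⟨j, k⟩ := odd z0 zs γ m
        rw [Set.mem_singleton_iff.1 hx, k]
        exact mul_mem s (pow_mem (pow_mem s _) _)
      | algebraMap r => rw [hq]; exact algebraMap_mem _ r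
      | add x y _ _ hx hy => rw [map_add]; exact add_mem hx hy
      | mul x y _ _ hx hy => rw [map_mul]; exact mul_mem hx hy
    obtain ⟨j, k⟩ := odd z0 zs γ (m + 1)
    rw [zs] at k
    have c1 := algebraMap_mem (Algebra.adjoin ℚ_[2] {z m}) c
    refine ⟨a', h1, h2.trans ((step z0 zs (sub_mem ha (mono zs h hy)) hb).trans_eq ?_),
      h3.trans ((step z0 zs (sub_mem (g a ha) (mul_mem c1 ha))
        (sub_mem (mul_mem (pow_mem s j) (g b hb)) (mul_mem c1 hb))).trans_eq ?_)⟩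
    · congr 2; ring
    · rw [map_add, map_mul, k]; congr 2; ring

end

theorem exz : ∃ z : ℕ → PadicAlgCl 2, z 0 = -1 ∧ ∀ m, z (m + 1) ^ 2 = z m := by
  choose s hs using fun x : PadicAlgCl 2 => IsAlgClosed.exists_pow_nat_eq x two_pos
  exact ⟨fun m => s^[m] (-1), rfl, fun m => by simp only [Function.iterate_succ_apply', hs]⟩

theorem memV {z : ℕ → PadicAlgCl 2} (zs : ∀ m, (z (m + 1) : ℂ_[2]) ^ 2 = z m) {x : PadicAlgCl 2}
    {S : Set ℕ} {n : ℕ} (hn : n ∈ S) (hx : x ∈ IntermediateField.adjoin ℚ_[2] (z '' S)) :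
    ∃ m ∈ S, (x : ℂ_[2]) ∈ Algebra.adjoin ℚ_[2] {(z m : ℂ_[2])} := by
  rw [← IntermediateField.mem_toSubalgebra, IntermediateField.adjoin_toSubalgebra_of_isAlgebraic
    fun x _ => Algebra.IsAlgebraic.isAlgebraic x] at hx
  have key : ∀ {x y : ℂ_[2]}, (∃ m ∈ S, x ∈ Algebra.adjoin ℚ_[2] {(z m : ℂ_[2])}) →
      (∃ m ∈ S, y ∈ Algebra.adjoin ℚ_[2] {(z m : ℂ_[2])}) → ∃ m ∈ S,
        x ∈ Algebra.adjoin ℚ_[2] {(z m : ℂ_[2])} ∧ y ∈ Algebra.adjoin ℚ_[2] {(z m : ℂ_[2])} :=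
    fun ⟨a, ha, h⟩ ⟨b, hb, k⟩ => (le_total a b).elim
      (fun l => ⟨b, hb, mono (z := fun m => z m) zs l h, k⟩)
      fun l => ⟨a, ha, h, mono (z := fun m => z m) zs l k⟩
  simp only [PadicComplex.coe_eq] at key ⊢
  induction hx using Algebra.adjoin_induction with
  | mem x hx =>
    obtain ⟨m, hm, rfl⟩ := hx
    exact ⟨m, hm, Algebra.self_mem_adjoin_singleton _ _⟩
  | algebraMap r => exact ⟨n, hn, by rw [← IsScalarTower.algebraMap_apply]; exact algebraMap_mem _ r⟩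
  | add x y _ _ hx hy =>
    obtain ⟨m, hm, h, k⟩ := key hx hy
    exact ⟨m, hm, by rw [map_add]; exact add_mem h k⟩
  | mul x y _ _ hx hy =>
    obtain ⟨m, hm, h, k⟩ := key hx hy
    exact ⟨m, hm, by rw [map_mul]; exact mul_mem h k⟩

end Tate

open Tate in
theorem tate : AxSt → TateSt := by
  intro ax r y hy
  refine ⟨fun r0 => ?_, fun r0 => ?_⟩
  · have h := ax ⊥ y fun σ hσ _ => by simpa [r0] using hy σ hσ
    have c := (algebraMap_isometry ℚ_[2] ℂ_[2]).isClosedEmbedding.isClosed_range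
    obtain ⟨c, hc⟩ := c.closure_subset_iff.2 (by
      rintro _ ⟨x, hx, rfl⟩
      obtain ⟨q, rfl⟩ := IntermediateField.mem_bot.1 hx
      exact ⟨q, rfl⟩) h
    exact ⟨c, hc.symm⟩
  obtain ⟨z, z0, zs⟩ := exz
  have z0' : (z 0 : ℂ_[2]) = -1 := by rw [z0, PadicComplex.coe_eq, map_neg, map_one]
  have zs' : ∀ m, (z (m + 1) : ℂ_[2]) ^ 2 = z m := fun m => by
    rw [← zs m, PadicComplex.coe_eq, PadicComplex.coe_eq, map_pow]
  have hc := ax (IntermediateField.adjoin ℚ_[2] (z '' Set.univ)) y fun σ hσ h => by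
    have : (cyclotomicCharacter ℂ_[2] 2 σ : ℤ_[2]) = 1 := PadicInt.ext_of_toZModPow.1 fun n => by
      cases n with
      | zero => exact Subsingleton.elim (α := ZMod 1) _ _
      | succ n =>
        rw [map_one]
        exact (chi (z := fun m => z m) z0' zs' σ n).1
          (h _ (IntermediateField.subset_adjoin _ _ ⟨n, trivial, rfl⟩))
    simpa [this] using hy σ hσ
  have ap : ∀ ε > 0, ∀ n, ∃ m, n ≤ m ∧ ∃ x ∈ Algebra.adjoin ℚ_[2] {(z m : ℂ_[2])}, ‖x - y‖ < ε := by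
    intro ε h n
    obtain ⟨_, ⟨x, hx, rfl⟩, d⟩ := Metric.mem_closure_iff.1 hc ε h
    obtain ⟨m, -, hm⟩ := memV zs' (Set.mem_univ 0) hx
    exact ⟨max m n, le_max_right _ _, x, mono (z := fun m => z m) zs' (le_max_left _ _) hm,
      by rwa [← dist_eq_norm, dist_comm]⟩
  refine norm_le_zero_iff.1 (le_of_forall_pos_le_add fun ε h => ?_)
  obtain ⟨n, hn, y', hy', d⟩ := ap (ε / 4) (by positivity) 1
  obtain ⟨γ, hγ, g1, g2⟩ : ∃ γ, Iso γ ∧ (∀ x ∈ IntermediateField.adjoin ℚ_[2] (z '' {n}),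
      γ (x : ℂ_[2]) = x) ∧ γ (z (n + 1)) ≠ z (n + 1) := by
    by_contra! H
    obtain ⟨_, ⟨x, hx, rfl⟩, d⟩ := Metric.mem_closure_iff.1 (ax _ _ H) (1 / 2) (by norm_num)
    obtain ⟨m, rfl, hm⟩ := memV zs' (Set.mem_singleton n) hx
    have := (le_max_right _ _).trans (mx (z := fun m => z m) z0' zs'
      (val (z := fun m => z m) z0' zs' m) (neg_mem hm) (one_mem _)).1.ge
    rw [norm_one, mul_one, mul_one, neg_add_eq_sub] at this
    rw [dist_eq_norm] at d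
    linarith [(npi (z := fun m => z m) z0' zs' (m + 1)).1]
  have hq : ∀ q, γ (algebraMap ℚ_[2] ℂ_[2] q) = algebraMap ℚ_[2] _ q :=
    fun q => g1 _ (algebraMap_mem _ q)
  have fx : ∀ x ∈ Algebra.adjoin ℚ_[2] {(z n : ℂ_[2])}, γ x = x := fun x hx => by
    induction hx using Algebra.adjoin_induction with
    | mem x hx => exact hx ▸ g1 _ (IntermediateField.subset_adjoin _ _ ⟨n, rfl, rfl⟩)
    | algebraMap r => exact hq r
    | add x y _ _ hx hy => rw [map_add, hx, hy]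
    | mul x y _ _ hx hy => rw [map_mul, hx, hy]
  have hy1 := hy γ hγ
  rw [← map_zpow₀] at hy1
  obtain ⟨c, hc'⟩ : ∃ c : ℚ_[2], c = ((cyclotomicCharacter ℂ_[2] 2 γ : ℤ_[2]) : ℚ_[2]) ^ r :=
    ⟨_, rfl⟩
  rw [← hc'] at hy1
  have c1 : 0 < ‖1 - algebraMap ℚ_[2] ℂ_[2] c‖ := by
    refine norm_pos_iff.2 (sub_ne_zero.2 fun e => g2 ?_)
    have e1 : ((cyclotomicCharacter ℂ_[2] 2 γ : ℤ_[2]) : ℚ_[2]) ^ r.natAbs = 1 := by
      have e2 : c = 1 := (algebraMap ℚ_[2] ℂ_[2]).injective (by rw [← e, map_one])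
      rw [hc'] at e2
      rcases r.natAbs_eq with k | k <;> rw [k] at e2
      · rwa [zpow_natCast] at e2
      · rwa [zpow_neg, zpow_natCast, inv_eq_one] at e2
    rw [chi (z := fun m => z m) z0' zs', root ((chi (z := fun m => z m) z0' zs' γ 1).1 (fx _
      (mono (z := fun m => z m) zs' hn (Algebra.self_mem_adjoin_singleton _ _)))) r.natAbs
      (by omega) (Subtype.ext (by rw [PadicInt.coe_pow]; exact e1)), map_one]
  obtain ⟨δ, d0, d1⟩ : ∃ δ > 0, δ * (‖1 - algebraMap ℚ_[2] ℂ_[2] c‖ + 1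
      + ‖algebraMap ℚ_[2] ℂ_[2] c‖) = ε / 8 * ‖1 - algebraMap ℚ_[2] ℂ_[2] c‖ :=
    ⟨_, by positivity, div_mul_cancel₀ _ (by positivity)⟩
  obtain ⟨m, hm, x, hx, d2⟩ := ap δ d0 n
  obtain ⟨a, ha, a1, a2⟩ := tr (z := fun m => z m) z0' zs' hq c hm hy' x hx
  obtain ⟨p1, -, -⟩ := npi (z := fun m => z m) z0' zs' n
  obtain ⟨-, p2, -⟩ := npi (z := fun m => z m) z0' zs' m
  generalize algebraMap ℚ_[2] ℂ_[2] c = c' at *
  rw [fx a ha, ← one_sub_mul, norm_mul] at a2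
  have b1 : ‖γ x - c' * x‖ ≤ (1 + ‖c'‖) * δ := by
    rw [show γ x - c' * x = γ (x - y) - c' * (x - y) by rw [map_sub, hy1]; ring]
    refine (norm_sub_le _ _).trans ?_
    rw [hγ, norm_mul]
    nlinarith [norm_nonneg c']
  have b2 : ‖x - y'‖ ≤ δ + ε / 4 := by
    have := norm_sub_le_norm_sub_add_norm_sub x y y'
    rw [norm_sub_rev y] at this
    linarith
  have b3 : ‖a - y'‖ ≤ 2 * (δ + ε / 4) := by
    nlinarith [norm_nonneg (a - y'), norm_nonneg (x - y')]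
  have b4 : ‖1 - c'‖ * ‖a‖ ≤ 2 * ((1 + ‖c'‖) * δ) := by
    nlinarith [mul_nonneg c1.le (norm_nonneg a), norm_nonneg (γ x - c' * x)]
  have b5 : 2 * δ + ‖a‖ ≤ ε / 4 := le_of_mul_le_mul_right (by linarith) c1
  have b6 := norm_sub_norm_le y y'
  have b7 := norm_sub_norm_le y' a
  rw [norm_sub_rev] at b6 b7
  linarith

end Pool.Agent.SY
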