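import Pool.Agent.Lib.MP_b4b3cb_nt.SY.St3
import Pool.Agent.Lib.MP_b4b3cb_nt.SY.All
import Pool.Agent.Lib.MP_b4b3cb_nt.SY.Ax
import Pool.Agent.Lib.MP_b4b3cb_nt.SY.Tate

/-! The two primes above `2`. -/

namespace Pool.Agent.SY

open NumberField IsDedekindDomain Pool.Agent.SelTwo Pool.Agent.HF
open scoped Classical Pointwise

namespace CjwA

variable {L : Type} [Field L] {E : Type} [NontriviallyNormedField E] [NormedAlgebra ℚ_[2] E]

theorem cyc_conj {g g' : Gal L} (τ : RingAut (AlgebraicClosure L)) (h : ∀ x, τ (g' x) = g (τ x)) :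
    cyc E g' = cyc E g := by
  have e : τ * g'.toRingEquiv = g.toRingEquiv * τ := RingEquiv.ext h
  have e2 := congrArg (cyclotomicCharacter (AlgebraicClosure L) 2) e
  rw [map_mul, map_mul, mul_comm] at e2
  rw [cyc, cyc, mul_right_cancel e2]

theorem cyc_ne (g : Gal L) : cyc E g ≠ 0 :=
  (map_ne_zero _).2 (PadicInt.coe_ne_zero.2 (Units.ne_zero _))

omit [NormedAlgebra ℚ_[2] E] in
theorem kap_conj (κ : Gal L →* E) (σ g : Gal L) : κ (σ * g * σ⁻¹) = κ g := by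
  rw [map_mul, map_mul, mul_right_comm, ← map_mul, mul_inv_cancel, map_one, one_mul]

theorem norm_og [NumberField L] (w : HeightOneSpectrum (𝓞 L)) (j : L →+* ℚ_[2])
    (h1 : ∀ x : 𝓞 L, ‖j x‖ ≤ 1) (h2 : ∀ x : 𝓞 L, x ∈ w.asIdeal ↔ ‖j x‖ < 1) (x : L) (hx : x ≠ 0) :
    ‖j x‖ = (2 : ℝ) ^ (-Stark.og w x) := by
  have u0 : ∀ x : 𝓞 L, x ∉ w.asIdeal → ‖j x‖ = 1 := fun x hx =>
    le_antisymm (h1 x) (not_lt.1 fun k => hx ((h2 x).2 k))
  have u1 : ∀ x : L, w.valuation L x = 1 → ‖j x‖ = 1 := fun x hx => by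
    obtain ⟨a, b, e⟩ := w.exists_primeCompl_mul_eq_of_integer x hx.le
    have e1 := congrArg (w.valuation L) e
    rw [map_mul, hx, (w.valuation_eq_one_iff_notMem (K := L)).2 b.2, one_mul] at e1
    have e2 := congrArg (fun y => ‖j y‖) e
    simp only [map_mul, norm_mul] at e2
    rwa [show ‖j (algebraMap _ L b.1)‖ = 1 from u0 _ b.2, mul_one, show ‖j (algebraMap _ L a)‖ = 1
      from u0 _ ((w.valuation_eq_one_iff_notMem (K := L)).1 e1.symm)] at e2
  obtain ⟨π, hπ⟩ := w.valuation_exists_uniformizer' L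
  have p0 : (π : L) ≠ 0 := fun e => by
    have := hπ.symm.trans (congrArg (w.valuation L) e)
    rw [map_zero] at this
    exact WithZero.exp_ne_zero this
  have u2 : ∀ x : L, x ≠ 0 → ‖j x‖ = ‖j π‖ ^ Stark.og w x := fun x hx => by
    have := u1 (x / (π : L) ^ Stark.og w x) (by
      rw [map_div₀, map_zpow₀, Stark.val_eq_exp hx, show w.valuation L (π : L) = _ from hπ,
        ← WithZero.exp_zsmul, smul_eq_mul, mul_neg, mul_one]
      exact div_self WithZero.exp_ne_zero)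
    rw [map_div₀, map_zpow₀, norm_div, norm_zpow] at this
    exact (div_eq_one_iff_eq (zpow_ne_zero _ (norm_ne_zero_iff.2 ((map_ne_zero j).2 p0)))).1 this
  have e1 := Padic.norm_eq_zpow_neg_valuation ((map_ne_zero j).2 p0)
  have e2 : ‖j π‖ < 1 := (h2 π).1 ((w.valuation_lt_one_iff_mem (K := L) π).1 (by
    rw [hπ, ← WithZero.exp_zero, WithZero.exp_lt_exp]; norm_num))
  have e3 := u2 2 two_ne_zero
  rw [map_ofNat, e1, ← zpow_mul, show ‖(2 : ℚ_[2])‖ = ((2 : ℕ) : ℝ) ^ (-1 : ℤ) from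
    Padic.norm_p.trans (zpow_neg_one _).symm] at e3
  have e4 := zpow_right_injective₀ (by norm_num) (by norm_num) e3
  rw [e1, zpow_lt_one_iff_right₀ (by norm_num)] at e2
  have e5 : (j π).valuation = 1 :=
    Int.eq_one_of_mul_eq_one_right (b := Stark.og w 2) (by omega) (by linarith)
  rw [u2 x hx, e1, e5, ← zpow_mul, neg_one_mul, Nat.cast_ofNat]

end CjwA

open CjwA

theorem cjw : CjwSt := by
  rintro L _ _ _ hL E _ _ κ cj w a ⟨j0, c, hc, hcj⟩ hκ P 𝔓 hP h2 hQ h2' ⟨M, M0, hM⟩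
  refine ⟨fun h => ⟨M, M0, fun g hg => ?_⟩, fun h => ?_⟩
  · have := hP.isPrime
    have := hQ.isPrime
    obtain ⟨σ, rfl⟩ := SC.PrimeAux.trans' (F := L) 𝔓 P h
    rw [← kap_conj κ σ g, ← cyc_conj (E := E) (g := g) (g' := σ * g * σ⁻¹) σ⁻¹.toRingEquiv
      fun x => σ.symm_apply_apply _]
    refine hM _ fun x => ?_
    have := Ideal.smul_mem_pointwise_smul σ _ _ (hg (σ⁻¹ • x))
    rwa [smul_sub, smul_inv_smul, ← mul_smul, ← mul_smul] at this
  have cc : ∀ x, c (c x) = x := fun x => j0.injective (by rw [hc, hc, Complex.conj_conj])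
  have cL : ∀ x : L, c (algebraMap L _ x) = algebraMap L _ (IsCMField.complexConj L x) :=
    fun x => j0.injective ((hc _).trans
      (IsCMField.complexEmbedding_complexConj L (j0.comp (algebraMap L _)) x).symm)
  obtain ⟨j, rfl⟩ := (all L hL).2 P hP h2
  obtain ⟨j', rfl⟩ := (all L hL).2 𝔓 hQ h2'
  rcases AllA.two hL (j.comp (algebraMap L _)) (j'.comp (algebraMap L _)) with e | e
  · exact (h (Ideal.ext fun x =>
      iff_of_eq (congrArg (‖·‖ < 1) (RingHom.congr_fun e (x : L))))).elim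
  have k : ∀ x : 𝓞 L, IsCMField.ringOfIntegersComplexConj L x ∈ (pj j).under (𝓞 L) ↔
      x ∈ (pj j').under (𝓞 L) := fun x => iff_of_eq (congrArg (‖·‖ < 1) (e x).symm)
  have k2 : ∀ x : 𝓞 L, IsCMField.ringOfIntegersComplexConj L
      (IsCMField.ringOfIntegersComplexConj L x) = x := fun x =>
    RingOfIntegers.ext (IsCMField.complexConj_apply_apply L x)
  refine ⟨⟨M, M0, fun g hg => ?_⟩, le_antisymm (fun x hx => k2 x ▸ Ideal.mem_map_of_mem _
    ((k x).2 hx)) (Ideal.map_le_iff_le_comap.2 fun x hx => (k _).1 ((k2 x).symm ▸ hx))⟩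
  obtain ⟨σ, hσ⟩ := AllA.gal (j.comp (c : _ →+* _)) j' fun x => (e x).trans (congrArg j (cL x).symm)
  have hσ' : ∀ x, j' x = j (c (σ x)) := hσ
  have e1 := hM (cj (σ * g * σ⁻¹)) fun x => by
    have := hg ⟨σ⁻¹ (c x), (x.isIntegral_coe.map c.toRingHom.toIntAlgHom).map
      (σ⁻¹ : Gal L).toRingEquiv.toRingHom.toIntAlgHom⟩
    change ‖j' (g (σ⁻¹ (c x)) - σ⁻¹ (c x))‖ < 1 at this
    change ‖j (cj (σ * g * σ⁻¹) x - x)‖ < 1
    rwa [hσ', map_sub, map_sub c, show σ (σ⁻¹ (c x)) = c x from σ.apply_symm_apply _, cc,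
      show c (σ (g (σ⁻¹ (c x)))) = cj (σ * g * σ⁻¹) x from (hcj (σ * g * σ⁻¹) x).symm] at this
  have e2 : cyc E (σ * g * σ⁻¹) = cyc E g :=
    cyc_conj σ⁻¹.toRingEquiv fun x => σ.symm_apply_apply _
  have e3 := congrArg (· ^ M) (hκ.dual (σ * g * σ⁻¹))
  rw [cyc_conj (g := σ * g * σ⁻¹) c fun x => by rw [hcj, cc], e2] at e1
  simp only [mul_pow, e1, e2, kap_conj] at e3
  rw [zpow_sub₀ (cyc_ne g), div_pow, eq_div_iff (pow_ne_zero _ (zpow_ne_zero _ (cyc_ne g))), e3]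

theorem spl : SplSt := by
  intro L _ _ _ hL P hP h2 hn
  obtain ⟨j, rfl⟩ := (all L hL).2 P hP h2
  choose f hf using fun x : L => (tate ax 0 (j (algebraMap L _ x)) fun σ hσ => by
    obtain ⟨g, -, e⟩ := (all L hL).1 j hn σ hσ
    rw [e, g.commutes, zpow_zero, one_mul]).1 rfl
  have inj := (algebraMap ℚ_[2] ℂ_[2]).injective
  let i : L →+* ℚ_[2] :=
    { toFun := f
      map_one' := inj (by rw [← hf]; simp)
      map_mul' := fun x y => inj (by rw [map_mul, ← hf, ← hf, ← hf, map_mul, map_mul])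
      map_zero' := inj (by rw [← hf]; simp)
      map_add' := fun x y => inj (by rw [map_add, ← hf, ← hf, ← hf, map_add, map_add]) }
  have n : ∀ x, ‖i x‖ = ‖j (algebraMap L _ x)‖ := fun x => by
    rw [hf, norm_algebraMap']; rfl
  have h1 : ∀ x : 𝓞 L, ‖i x‖ ≤ 1 := fun x => (n x).trans_le (Emb.le1 j (algebraMap (𝓞 L) _ x))
  have h3 : ∀ x : 𝓞 L, x ∈ (pj j).under (𝓞 L) ↔ ‖i x‖ < 1 := fun x => by rw [n]; rfl
  refine ⟨?_, fun w hw => ⟨i, norm_og w i h1 (hw ▸ h3)⟩⟩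
  let i' : 𝓞 L →+* ℤ_[2] := (i.comp (algebraMap (𝓞 L) L)).codRestrict (PadicInt.subring 2) h1
  have e : (pj j).under (𝓞 L) = RingHom.ker (PadicInt.toZMod.comp i') := Ideal.ext fun x => by
    rw [h3, RingHom.mem_ker, RingHom.comp_apply, ← RingHom.mem_ker, PadicInt.ker_toZMod,
      IsLocalRing.mem_maximalIdeal, PadicInt.mem_nonunits]
    rfl
  rw [nq, e, Ideal.absNorm_apply, Submodule.cardQuot_apply, Nat.card_congr
    (RingHom.quotientKerEquivOfSurjective (ZMod.ringHom_surjective _)).toEquiv, Nat.card_zmod]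

end Pool.Agent.SY
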