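import Pool.Agent.Lib.MP_b4b3cb_nt.SY.St3
import Pool.Agent.Lib.MP_b4b3cb_nt.BC.EuR
import Pool.Agent.Lib.MP_b4b3cb_nt.Eps.Nf

/-! Inertia and Frobenius generate the decomposition group. -/

namespace Pool.Agent.SY

open NumberField Pool.Agent.SelTwo Pool.Agent.Stark
open scoped Pointwise Topology

namespace Den

variable {K Ω : Type} [Field K] [NumberField K] [Field Ω] [Algebra K Ω] [IsAlgClosed Ω]
  [IsGalois K Ω] [CharZero Ω] {𝔓 : Ideal (𝓞 Ω)} {q : Pr K}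

theorem one_lt (q : Pr K) : 1 < Ideal.absNorm q.asIdeal := lt_of_le_of_ne
  (Nat.pos_of_ne_zero (Ideal.absNorm_eq_zero_iff.not.2 q.ne_bot))
  fun e => q.isPrime.ne_top (Ideal.absNorm_eq_one_iff.1 e.symm)

theorem gen (h : SC.Over 𝔓 q) {σ : Gal(Ω/K)} (hσ : SC.IsFr 𝔓 (Ideal.absNorm q.asIdeal) σ)
    {N : Set Gal(Ω/K)} (hN : N ∈ 𝓝 1) {g : Gal(Ω/K)} (hg : g ∈ SC.Dec K 𝔓) :
    ∃ (s : ℕ) (i h : Gal(Ω/K)), i ∈ SC.Ine K 𝔓 ∧ h ∈ N ∧ h ∈ SC.Dec K 𝔓 ∧ g = i * h * σ ^ s := by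
  have T := SP.facts K Ω
  obtain ⟨U, o, n, le⟩ := T.top.nhds N hN
  have := T.top.fi U o
  let τ : SC.Dec K 𝔓 := ⟨σ, T.fr.dec h.1 (Nat.ne_zero_of_lt (one_lt q)) hσ⟩
  let I := (SC.Ine K 𝔓).subgroupOf (SC.Dec K 𝔓)
  have : I.Normal := ⟨fun i hi d => by
    have := (T.pr.ine_conj 𝔓 d.1⁻¹ i.1).1
    rw [show d.1⁻¹ • 𝔓 = 𝔓 from (d⁻¹).2, inv_inv] at this
    exact this hi⟩
  let M := I ⊔ U.subgroupOf (SC.Dec K 𝔓)
  have : M.FiniteIndex := Subgroup.finiteIndex_of_le le_sup_right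
  have m : M ≤ (Subgroup.zpowers (τ : _ ⧸ M)).comap (QuotientGroup.mk' M) := fun x hx => by
    rw [Subgroup.mem_comap, QuotientGroup.mk'_apply, (QuotientGroup.eq_one_iff x).2 hx]
    exact one_mem _
  have e := BC.Eu.genD' h τ hσ _ (Subgroup.isOpen_mono (le_sup_right.trans m)
    (o.preimage continuous_subtype_val)) (fun x hx => m (Subgroup.mem_sup_left hx))
    (Subgroup.mem_zpowers _)
  have e1 : (⟨g, hg⟩ : SC.Dec K 𝔓) ∈ (Subgroup.zpowers (τ : _ ⧸ M)).comap (QuotientGroup.mk' M) :=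
    e ▸ Subgroup.mem_top _
  obtain ⟨s, hs⟩ := (mem_powers_iff_mem_zpowers).2 e1
  obtain ⟨i, hi, u, hu, e2⟩ := Subgroup.mem_sup_of_normal_right.1
    (QuotientGroup.eq_iff_div_mem.1 (hs.symm.trans (QuotientGroup.mk_pow M τ s).symm))
  exact ⟨s, i, u, hi, le hu, u.2, (congrArg Subtype.val (eq_div_iff_mul_eq'.1 e2)).symm⟩

theorem pw (h : SC.Over 𝔓 q) {σ : Gal(Ω/K)} (hσ : SC.IsFr 𝔓 (Ideal.absNorm q.asIdeal) σ)
    {g : Gal(Ω/K)} {n : ℕ} (hn : 0 < n) (hg : SC.IsFr 𝔓 n g) :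
    ∃ s, n = Ideal.absNorm q.asIdeal ^ s := by
  have T := SP.facts K Ω
  have a1 := one_lt q
  have a2 : (Ideal.absNorm q.asIdeal : 𝓞 Ω) ∈ 𝔓 := by
    simpa using (h.2 _).1 (Ideal.absNorm_mem q.asIdeal)
  have G := fun N hN => gen h hσ (N := N) hN (T.fr.dec h.1 hn.ne' hg)
  generalize Ideal.absNorm q.asIdeal = a at hσ a1 a2 ⊢
  have a3 : ∀ k ≤ n, a ^ k + 1 < a ^ (n + 1) := fun k hk => by
    have := Nat.pow_le_pow_right a1.le hk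
    have := Nat.one_lt_pow hn.ne' a1
    rw [pow_succ]
    nlinarith
  have a4 := a3 n le_rfl
  have a5 := Nat.lt_pow_self (n := n) a1
  obtain ⟨N, hN⟩ : ∃ N, a ^ (n + 1) = N + 1 := ⟨_, (Nat.sub_add_cancel (by omega)).symm⟩
  have a6 : (N : 𝓞 Ω) ∉ 𝔓 := fun e => h.1.isPrime.one_notMem (by
    have := sub_mem (𝔓.pow_mem_of_mem a2 (n + 1) n.succ_pos) e
    rwa [← Nat.cast_pow, hN, Nat.cast_succ, add_sub_cancel_left] at this)
  have : NeZero (N : Ω) := ⟨Nat.cast_ne_zero.2 (by omega)⟩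
  obtain ⟨ξ, hξ⟩ := HasEnoughRootsOfUnity.exists_primitiveRoot Ω N
  obtain ⟨s, i, u, hi, hu, -, e⟩ := G _
    ((stabilizer_isOpen_of_isIntegral (K := K) ξ).mem_nhds (one_mem _))
  have e1 := EP.fr_root h.1 hg a6 hξ.pow_eq_one
  rw [e, AlgEquiv.mul_apply, AlgEquiv.mul_apply,
    EP.fr_root h.1 (T.fr.pow h.1 (by omega) hσ s) a6 hξ.pow_eq_one, map_pow, map_pow,
    show u ξ = ξ from hu, EP.fr_root h.1 (EP.ine_fr hi) a6 hξ.pow_eq_one, pow_one,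
    (hξ.isOfFinOrder (by omega)).pow_eq_pow_iff_modEq, ← hξ.eq_orderOf] at e1
  have e2 : a ^ (n + 1) ≡ 1 [MOD N] := hN ▸ Nat.add_modEq_left
  have e3 := (e2.pow (s / (n + 1))).mul_right (a ^ (s % (n + 1)))
  rw [← pow_mul, ← pow_add, Nat.div_add_mod, one_pow, one_mul] at e3
  have := a3 (s % (n + 1)) (Nat.le_of_lt_succ (Nat.mod_lt s n.succ_pos))
  exact ⟨_, (e1.symm.trans e3).eq_of_lt_of_lt (by omega) (by omega)⟩

end Den

open Den in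
theorem den : DenSt := fun L _ _ 𝔓 hm => by
  have T := SP.facts L (AlgebraicClosure L)
  obtain ⟨q, h⟩ := T.pr.under L 𝔓 hm
  rw [EP.nq_eq h]
  simp only [fb_iff]
  refine ⟨one_lt q, (T.fr.ex h).imp fun _ a => a.2, fun g n hn a => T.fr.dec hm hn.ne' a,
    fun σ hσ => ⟨fun U o g hg => gen h hσ (o.mem_nhds U.one_mem) hg, fun g n hn a => ?_,
      fun E _ κ c h1 h2 g hg => ?_⟩⟩
  · obtain ⟨s, rfl⟩ := pw h hσ hn a
    exact ⟨s, rfl, T.fr.ine a (T.fr.pow hm (Nat.ne_zero_of_lt (one_lt q)) hσ s)⟩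
  · refine eq_of_forall_dist_le fun ε hε => ?_
    obtain ⟨s, i, u, hi, hu, -, rfl⟩ := gen h hσ
      (c.continuousAt (Metric.closedBall_mem_nhds (κ 1) hε)) hg
    rw [map_mul, map_mul, map_pow, h1 i hi, h2, one_pow, one_mul, mul_one, ← map_one κ]
    exact hu

end Pool.Agent.SY
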