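import Pool.Agent.Lib.MP_b4b3cb_nt.SY.St
import Pool.Agent.Lib.MP_b4b3cb_nt.HF.Pq

/-! The period data come from the period rings, and their invariants. -/

namespace Pool.Agent.SY

open NumberField Matrix WittVector Ideal Pool.Agent.SelTwo Pool.Agent.HF Module
open scoped TensorProduct Topology Nat Classical

namespace PTa

section gen

variable {A C : Type} [CommRing A] [CommRing C] [Algebra A C] [Algebra ℚ_[2] C] (w : A)
  [IsLocalization.Away w C] {z : ℤ_[2] →+* A}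
  {B D : Type} [CommRing B] [Algebra A B] [Algebra ℚ_[2] B] [IsLocalization.Away (2 : A) B]
  [CommRing D] [Algebra ℚ_[2] D]

theorem mkPD2 {G : Type} [Group G] [TopologicalSpace G] (χ : G →* ℚ_[2]) (κ : G → ℤ_[2]ˣ)
    (hχ : ∀ g, χ g = (κ g : ℤ_[2]))
    (qB : ∀ c : ℤ_[2], algebraMap ℚ_[2] B c = algebraMap A B (z c))
    (qC : ∀ c : ℤ_[2], algebraMap ℚ_[2] C c = algebraMap A C (z c))
    (n2 : ∀ x : A, 2 * x = 0 → x = 0) (sp : ∀ x : A, (∀ N, 2 ^ N ∣ x) → x = 0)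
    (r : G → A →+* A) (ph : A →+* A) (rz : ∀ g c, r g (z c) = z c) (pz : ∀ c, ph (z c) = z c)
    (r1 : r 1 = RingHom.id A) (rm : ∀ g h, r (g * h) = (r g).comp (r h))
    (pr : ∀ g, ph.comp (r g) = (r g).comp ph) {t : A} {U : Aˣ} (hw : w * U = 2 ^ 2 * t)
    (ht : ∀ g, r g t = z (κ g) * t) (hpt : ph t = 2 * t) (b : A →+* D)
    (qD : ∀ c : ℤ_[2], b (z c) = algebraMap ℚ_[2] D c) (gD : G → D →ₐ[ℚ_[2]] D)
    (hbs : ∀ g x, b (r g x) = gD g (b x)) (f : D →+* ℂ_[2]) (hk : ∀ y, f y = 0 ↔ b t ∣ y)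
    (nz : ∀ y, b t * y = 0 → y = 0) (f' : A →+* OC) (hbf : ∀ x, f (b x) = f' x)
    (k0 : ∀ x, ph x = x → ∃ c, x = z c)
    (k1 : ∀ (m : ℕ) x, ph x = 2 ^ (m + 1) * x → f' x = 0 →
      ∃ (i : ℕ) (y : A), ph y = 2 ^ m * y ∧ 2 ^ i * x = t * y)
    (s1 : ∀ y : OC, ∃ x, ph x = 2 * x ∧ f' x = 4 * y)
    (ct : ∀ x (N : ℕ) g₀, ∀ᶠ g in 𝓝 g₀, 2 ^ N ∣ r g x - r g₀ x) :
    ∃ X : PD G ℚ_[2] χ B D C, X.gD = gD ∧
      (∀ g x, X.gC g (algebraMap A C x) = algebraMap A C (r g x)) ∧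
      (∀ x, X.fC (algebraMap A C x) = algebraMap A C (ph x)) ∧
      (∀ g x, X.gB g (algebraMap A B x) = algebraMap A B (r g x)) ∧
      (∀ x, X.fB (algebraMap A B x) = algebraMap A B (ph x)) ∧
      (∀ x, X.β (algebraMap A B x) = b x) ∧ X.t = algebraMap A B t := by
  have u2 : ∀ {Y : Type} [CommRing Y] [Algebra ℚ_[2] Y] (k : A →+* Y), IsUnit (k 2) :=
    fun {Y} _ _ k => by rw [map_ofNat]; exact q_two Y
  choose gB hgB using fun g => aw_lift (2 : A) qB ((algebraMap A B).comp (r g)) (u2 _) fun c => by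
    rw [RingHom.comp_apply, rz, qB]
  choose gC hgC using fun g => liftC w qC (rz g) hw (ht g) (((κ g).isUnit.map z).map _)
  obtain ⟨fB, hfB⟩ := aw_lift (2 : A) qB ((algebraMap A B).comp ph) (u2 _) fun c => by
    rw [RingHom.comp_apply, pz, qB]
  simp only [RingHom.comp_apply] at hgB hfB
  obtain ⟨fC, hfC⟩ := liftC w qC pz hw hpt (u2 _)
  obtain ⟨β, hβ⟩ := aw_lift (2 : A) qB b (u2 _) qD
  obtain ⟨γ, hγ⟩ := aw_lift (2 : A) qB (algebraMap A C) (u2 _) fun c => (qC c).symm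
  have ft0 : f (b t) = 0 := (hk _).2 dvd_rfl
  have b2 := q_two B
  refine ⟨{
    gB := { toFun := gB
            map_one' := aw_ext (2 : A) fun x => by rw [hgB, r1]; rfl
            map_mul' := fun g h => aw_ext (2 : A) fun x => by
              rw [AlgHom.mul_apply, hgB, hgB, hgB, rm, RingHom.comp_apply] }
    gD := gD
    gC := gC
    fB := fB
    fC := fC
    β := β
    γ := γ
    t := algebraMap A B t
    Λ := (algebraMap A B).range
    βg := fun g x => DFunLike.congr_fun (aw_ext (2 : A) (s := β.comp (gB g)) (s' := (gD g).comp β)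
      fun x => by rw [AlgHom.comp_apply, AlgHom.comp_apply, hgB, hβ, hβ, hbs]) x
    γg := fun g x => DFunLike.congr_fun (aw_ext (2 : A) (s := γ.comp (gB g)) (s' := (gC g).comp γ)
      fun x => by rw [AlgHom.comp_apply, AlgHom.comp_apply, hgB, hγ, hγ, hgC]) x
    γf := fun x => DFunLike.congr_fun (aw_ext (2 : A) (s := γ.comp fB) (s' := fC.comp γ)
      fun x => by rw [AlgHom.comp_apply, AlgHom.comp_apply, hfB, hγ, hγ, hfC]) x
    fg := fun g x => DFunLike.congr_fun (aw_ext (2 : A) (s := fB.comp (gB g))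
      (s' := (gB g).comp fB) fun x => ?_) x
    gt := fun g => ?_
    ft := by rw [hfB, hpt, map_mul, map_ofNat]
    nzd := by rw [hβ]; exact nz
    nu := fun e => ?_
    ut := by rw [hγ]; exact aw_t w hw
    loc := fun c => ?_
    kr := fun x e => ?_
    k0 := fun x e => ?_
    k1 := fun m x e d => ?_
    s1 := fun y => ?_
    ab := fun x => (bp_sur (A := A) x).imp fun N ⟨y, e⟩ => ⟨y, e.symm⟩
    il := fun c e => ⟨_, (qB ⟨c, e⟩).symm⟩
    sep := fun x e => ?_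
    ct := fun x N g₀ => ?_ }, rfl, hgC, hfC, hgB, hfB, hβ, rfl⟩
  · rw [AlgHom.comp_apply, AlgHom.comp_apply, hgB, hfB, hfB, hgB]
    exact congrArg _ (DFunLike.congr_fun (pr g) x)
  · change gB g _ = _
    rw [hgB, ht, map_mul, ← qB, Algebra.smul_def, hχ]
  · rw [hβ] at e
    exact (e.map f).ne_zero ft0
  · obtain ⟨m, y, e⟩ := IsLocalization.Away.surj (S := C) w c
    obtain ⟨x, hx⟩ := q_div (2 * m) (algebraMap A B (y * U ^ m))
    refine ⟨m, x, ((q_two C).pow (2 * m)).mul_left_cancel ?_⟩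
    have e2 := congrArg γ hx
    rw [map_mul, map_pow, map_ofNat, hγ] at e2
    rw [e2, hγ, map_mul, ← e, mul_assoc c, ← map_pow (algebraMap A C) w, ← map_mul, ← mul_pow, hw,
      mul_pow, map_mul, map_pow, map_pow, map_pow, map_ofNat, pow_mul]
    ring
  · obtain ⟨N, y, hy⟩ := bp_sur (A := A) x
    have e2 := congrArg γ hy
    rw [map_mul, e, mul_zero, hγ, ← map_zero (algebraMap A C)] at e2
    obtain ⟨m, e3⟩ := IsLocalization.Away.exists_of_eq (S := C) w e2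
    have e4 : 2 ^ (2 * m) * (t ^ m * y) = 0 := by
      rw [pow_mul, ← mul_assoc, ← mul_pow, ← hw, mul_pow, mul_right_comm, ← e3, mul_zero, zero_mul]
    have e5 := congrArg b (pow_nzd n2 _ _ e4)
    rw [map_mul, map_pow, map_zero] at e5
    have e6 := congrArg β hy
    rw [map_mul, map_pow, map_ofNat, hβ, pow_nzd nz _ _ e5] at e6
    exact ((q_two D).pow N).mul_right_eq_zero.1 e6
  · obtain ⟨N, y, hy⟩ := bp_sur (A := A) x
    have e2 := congrArg fB hy
    rw [map_mul, map_pow, map_ofNat, e, hy, hfB] at e2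
    obtain ⟨c, rfl⟩ := k0 y (bp_inj n2 e2).symm
    refine ⟨2⁻¹ ^ N * c, (b2.pow N).mul_left_cancel ?_⟩
    rw [hy, ← qB, ← map_ofNat (algebraMap ℚ_[2] B) 2, ← map_pow, ← map_mul, ← mul_assoc, ← mul_pow,
      mul_inv_cancel₀ two_ne_zero, one_pow, one_mul]
  · obtain ⟨N, y, hy⟩ := bp_sur (A := A) x
    have e2 := congrArg fB hy
    rw [map_mul, map_pow, map_ofNat, e, mul_left_comm, hy, hfB, ← map_ofNat (algebraMap A B) 2,
      ← map_pow, ← map_mul] at e2
    obtain ⟨v, hv⟩ := d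
    have e3 := congrArg (fun y => f (β y)) hy
    simp only [map_mul, hv, hβ, ft0, zero_mul, mul_zero, hbf] at e3
    obtain ⟨i, y', h1, h2⟩ := k1 m y (bp_inj n2 e2).symm (Subtype.ext e3.symm)
    obtain ⟨v', hv'⟩ := q_div (i + N) (algebraMap A B y')
    refine ⟨v', (b2.pow (i + N)).mul_left_cancel ?_, (b2.pow (i + N)).mul_left_cancel ?_⟩
    · have e4 := congrArg fB hv'
      rw [map_mul, map_pow, map_ofNat, hfB, h1, map_mul, map_pow, map_ofNat] at e4
      rw [e4, mul_left_comm, hv']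
    · have e4 := congrArg (algebraMap A B) h2
      rw [map_mul, map_mul, map_pow, map_ofNat] at e4
      rw [mul_left_comm, hv', pow_add, mul_assoc, hy, e4]
  · obtain ⟨N, v, hv⟩ := c_scale (f y)
    obtain ⟨x₀, h1, h2⟩ := s1 v
    obtain ⟨x, hx⟩ := q_div (N + 2) (algebraMap A B x₀)
    refine ⟨x, (b2.pow (N + 2)).mul_left_cancel ?_, ?_⟩
    · have e4 := congrArg fB hx
      rw [map_mul, map_pow, map_ofNat, hfB, h1, map_mul, map_ofNat] at e4
      rw [e4, mul_left_comm, hx]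
    · rw [hβ, ← hk, map_sub, sub_eq_zero]
      have e4 := congrArg (fun y => f (β y)) hx
      simp only [map_mul, map_pow, map_ofNat, hβ, hbf, h2, MulMemClass.coe_mul, hv] at e4
      refine mul_left_cancel₀ (pow_ne_zero (N + 2) (two_ne_zero (α := ℂ_[2]))) (e4.trans ?_)
      rw [show ((4 : OC) : ℂ_[2]) = 4 from rfl]
      ring
  · obtain ⟨_, ⟨y, rfl⟩, e0⟩ := e 0
    rw [pow_zero, one_mul] at e0
    rw [e0, sp y fun N => ?_, map_zero]
    obtain ⟨_, ⟨v, rfl⟩, e1⟩ := e N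
    exact ⟨v, bp_inj (B := B) n2 (by rw [← e0, e1, map_mul, map_pow, map_ofNat])⟩
  · obtain ⟨M, y, hy⟩ := bp_sur (A := A) x
    filter_upwards [ct y (M + N) g₀] with g ⟨v, hv⟩
    refine ⟨_, ⟨v, rfl⟩, (b2.pow M).mul_left_cancel ?_⟩
    have e1 : ∀ g, 2 ^ M * gB g x = algebraMap A B (r g y) := fun g => by
      rw [← hgB, ← hy, map_mul, map_pow, map_ofNat]
    change 2 ^ M * (gB g x - gB g₀ x) = _
    rw [mul_sub, e1, e1, ← map_sub, hv, map_mul, map_pow, map_ofNat, pow_add, mul_assoc]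

theorem b_inj {b : A →+* D} (hb : Function.Injective b) (β : B →ₐ[ℚ_[2]] D)
    (hβ : ∀ x, β (algebraMap A B x) = b x) : Function.Injective β := by
  refine (injective_iff_map_eq_zero β).2 fun x e => ?_
  obtain ⟨N, y, hy⟩ := bp_sur (A := A) x
  have e2 := congrArg β hy
  rw [map_mul, e, mul_zero, hβ, ← map_zero b] at e2
  rw [← hb e2, map_zero] at hy
  exact ((q_two B).pow N).mul_right_eq_zero.1 hy

end gen

theorem f_eq {σ : RingAut ℂ_[2]} {u : Ti →+* Ti} (h : Lf σ u) {s : Bd →+* Bd} (hs : Ov u s)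
    {f : Bd →+* ℂ_[2]} (hf : ∀ a, f (algebraMap Ai Bd a) = th a) (y : Bd) : f (s y) = σ (f y) := by
  have e : ∀ a, f (s (algebraMap Ai Bd a)) = σ (f (algebraMap Ai Bd a)) := fun a => by
    rw [hs, hf, hf, h.th]
  refine DFunLike.congr_fun (ac_ext bd_ker (f.comp s) ((σ : ℂ_[2] →+* ℂ_[2]).comp f)
    (fun c k => ?_) fun v => ?_) y
  · have k1 := k 1
    rw [pow_one, ← BdA.alg, RingHom.comp_apply, e, hf, th_xi6, ZeroMemClass.coe_zero,
      map_zero] at k1
    exact zero_dvd_iff.1 k1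
  · exact DFunLike.congr_fun (IsLocalization.ringHom_ext (Submonoid.powers ((2 : ℕ) : Ai))
      (j := (f.comp s).comp (algebraMap Bi Bd))
      (k := ((σ : ℂ_[2] →+* ℂ_[2]).comp f).comp (algebraMap Bi Bd))
      (RingHom.ext fun x => (BdA.alg x ▸ e x :))) v

theorem ovu {u u' : Ti →+* Ti} {r r' : Ac →+* Ac} (e : u = u') (a : Ov u r) (b : Ov u' r')
    (x : Ac) : r x = r' x := DFunLike.congr_fun (ov_uniq (e ▸ a) b) x

section inv

variable {G : Type} [Group G] [TopologicalSpace G] {χ : G →* ℚ_[2]}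
  {B D C : Type} [CommRing B] [Algebra ℚ_[2] B] [CommRing D] [Algebra ℚ_[2] D] [CommRing C]
  [Algebra ℚ_[2] C] (X : PD G ℚ_[2] χ B D C)

theorem gT (g : G) : X.gD g (X.β X.t) = χ g • X.β X.t := by rw [← X.βg, X.gt, map_smul]

theorem step {r : ℤ} {y : D} (h : ∀ g, X.gD g (X.β X.t * y) = χ g ^ r • (X.β X.t * y)) (g : G) :
    X.gD g y = χ g ^ (r - 1) • y := by
  have c0 : χ g ≠ 0 := ((Group.isUnit g).map χ).ne_zero
  have e := h g
  rw [map_mul, gT, smul_mul_assoc, ← mul_smul_comm, ← mul_smul_comm, ← sub_eq_zero,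
    ← mul_sub] at e
  have e2 := congrArg (fun v => (χ g)⁻¹ • v) (sub_eq_zero.1 (X.nzd _ e))
  simp only [smul_smul, inv_mul_cancel₀ c0, one_smul] at e2
  rw [e2, zpow_sub_one₀ c0, mul_comm]

variable {X} {f : D →ₐ[ℚ_[2]] ℂ_[2]} (hk : ∀ y, f y = 0 ↔ X.β X.t ∣ y)
  (ta : ∀ (r : ℤ) (y : D), (∀ g, X.gD g y = χ g ^ r • y) →
    (r = 0 → ∃ c : ℚ_[2], f y = algebraMap _ _ c) ∧ (r ≠ 0 → f y = 0))
  (sep : ∀ y, (∀ N : ℕ, X.β X.t ^ N ∣ y) → y = 0)

include hk ta sep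

theorem neg {r : ℤ} (hr : r < 0) {y : D} (h : ∀ g, X.gD g y = χ g ^ r • y) : y = 0 := by
  refine sep y fun N => ?_
  induction N generalizing r y with
  | zero => simp
  | succ N ih =>
    obtain ⟨v, rfl⟩ := (hk y).1 ((ta r y h).2 hr.ne)
    rw [pow_succ']
    exact mul_dvd_mul_left _ (ih (by omega) (step X h))

theorem td (r : ℕ) (y : D) (h : ∀ g, X.gD g y = χ g ^ r • y) :
    ∃ c : ℚ_[2], y = c • X.β X.t ^ r := by
  induction r generalizing y with
  | zero =>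
    obtain ⟨c, hc⟩ := (ta 0 y (by simpa using h)).1 rfl
    obtain ⟨v, hv⟩ := (hk (y - algebraMap _ _ c)).1 (by rw [map_sub, AlgHom.commutes, hc, sub_self])
    have e : v = 0 := neg hk ta sep (r := 0 - 1) (by omega) (step X fun g => by
      rw [← hv, map_sub, AlgHom.commutes, h, pow_zero, zpow_zero, one_smul, one_smul])
    rw [e, mul_zero, sub_eq_zero] at hv
    exact ⟨c, by rw [hv, pow_zero, Algebra.algebraMap_eq_smul_one]⟩
  | succ r ih =>
    have h' : ∀ g, X.gD g y = χ g ^ ((r + 1 : ℕ) : ℤ) • y := fun g => by rw [h, zpow_natCast]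
    obtain ⟨v, rfl⟩ := (hk y).1 ((ta _ y h').2 (by omega))
    obtain ⟨c, hc⟩ := ih v fun g => by
      rw [step X h' g, Nat.cast_succ, add_sub_cancel_right, zpow_natCast]
    exact ⟨c, by rw [hc, pow_succ', mul_smul_comm]⟩

theorem tt (inj : Function.Injective X.β) : TT X where
  td := td hk ta sep
  tc y h := by
    obtain ⟨m, x, e⟩ := X.loc y
    obtain ⟨c, hc⟩ := td hk ta sep m (X.β x) fun g => by
      rw [← X.βg, ← map_smul, ← sub_eq_zero, ← map_sub]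
      refine X.kr _ ?_
      rw [map_sub, map_smul, X.γg, ← e, map_mul, map_pow, h, ← X.γg, X.gt, map_smul, smul_pow,
        smul_mul_assoc, sub_self]
    rw [← map_pow, ← map_smul] at hc
    rw [inj hc, map_smul, map_pow, Algebra.smul_def, mul_comm (algebraMap _ _ c)] at e
    exact ⟨c, (X.ut.pow m).mul_left_cancel e⟩

end inv

end PTa

open PTa

theorem pt1 : InjSt → PT1St := by
  intro I G _ _ a iso hc χ hχ
  refine Classical.byContradiction fun H => ?_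
  obtain ⟨b, hb, hbs, hbf, hbi⟩ := I
  choose u hu using fun g => exLf (a g) (iso g)
  choose r r₀ hr _ using fun g => exOvC (lf_two (hu g))
  choose s hs using fun g => exOvD (hu g)
  obtain ⟨ph, -, hph, -⟩ := exOvC fr_two
  obtain ⟨t, ⟨U, hU⟩, hpt, ht⟩ := exT
  have hpt := hpt ph hph
  obtain ⟨f, hf, hk, hfu⟩ := exTd
  obtain ⟨f', hf'⟩ := exTc
  obtain ⟨V, hV⟩ := bd_t bd_two hb hf hfu hU
  have r1 : r 1 = RingHom.id Ac := ov_uniq (hr 1) fun x => by
    rw [(hu 1).uniq (by rw [map_one]; exact lf_one), wmap_id, RingHom.id_apply]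
  have rm : ∀ g h, r (g * h) = (r g).comp (r h) := fun g h => by
    refine ov_uniq (hr _) ?_
    rw [(hu (g * h)).uniq (by rw [map_mul]; exact (hu g).comp (hu h))]
    exact (hr g).comp (hr h)
  have pr : ∀ g, ph.comp (r g) = (r g).comp ph := fun g => by
    refine ov_uniq (hph.comp (hr g)) ?_
    rw [show fr.comp (u g) = (u g).comp fr from RingHom.ext fun x => by
      simp only [RingHom.comp_apply, frobenius_def, map_pow]]
    exact (hr g).comp hph
  have e1 : ∀ c : ℤ_[2], b (((algebraMap Ai Ac).comp zp) c) = algebraMap ℚ_[2] Bd c :=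
    fun c => (hb _).trans (qD c).symm
  have e2 : ∀ g (c : ℤ_[2]), s g (algebraMap ℚ_[2] Bd c) = algebraMap ℚ_[2] Bd c := fun g c =>
    (congrArg (s g) (qD c)).trans (((hs g).zp c).trans (qD c).symm)
  have e3 : ∀ g x, b (r g x) = toA (s g) (e2 g) (b x) := fun g =>
    hbs _ _ _ _ (hu g) (hr g) (hs g)
  have e4 : ∀ y, f y = 0 ↔ b t ∣ y := fun y => by
    rw [hV, Units.mul_right_dvd]
    exact hk y
  have e5 : ∀ y, b t * y = 0 → y = 0 := fun y e => by
    rw [hV, mul_assoc] at e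
    exact (Units.mul_right_eq_zero V).1 (bd_nzd _ e)
  have e6 : ∀ g, r g t = ((algebraMap Ai Ac).comp zp) (cyclotomicCharacter ℂ_[2] 2 (a g)) * t :=
    fun g => ht _ _ _ (hu g) (hr g)
  have e7 := mkPD2 (B := Bp) (C := Bc) (D := Bd)
    (algebraMap Ai Ac (2 * (teichmuller 2 eta ^ 2 - 1))) χ
    (fun g => cyclotomicCharacter ℂ_[2] 2 (a g)) hχ qB qC ac2_nzd ac2_cpl.1 r ph
    (fun g => (hr g).zp) hph.zp r1 rm pr (pv_w hU) e6 hpt b e1 (fun g => toA (s g) (e2 g)) e3 f e4 e5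
    f' (hbf f f' hf hf')
  obtain ⟨X, h1, h2, h3, h4, h5, h6, h7⟩ := e7 (fun _ => c_k0 hph)
    (fun _ _ => c_k1 hph hf' hU hpt) (c_s1 hph hf') (c_ct hu hc hr)
  have e9 : ∀ g y, X.gD g y = s g y := fun g y => DFunLike.congr_fun (congrFun h1 g) y
  have e8 : ∀ g x, X.gD g (algebraMap Ai Bd x) = algebraMap Ai Bd (WittVector.map (u g) x) :=
    fun g x => (e9 g _).trans (hs g x)
  have e10 : X.β X.t = b t := (congrArg X.β h7).trans (h6 t)
  have p1 : ∀ g v, Lf (a g) v → Ex Ac v (X.gC g) ∧ Ex Ai v (X.gD g) := fun g v hv =>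
    hv.uniq (hu g) ▸ ⟨⟨r g, hr g, h2 g⟩, WittVector.map (u g), fun _ => rfl, e8 g⟩
  have p2 : ∀ g v (r' : Ac →+* Ac), Lf (a g) v → Ov v r' → ∀ x,
      X.gB g (algebraMap Ac Bp x) = algebraMap Ac Bp (r' x) := fun g v r' hv hr' x =>
    (h4 g x).trans (congrArg _ (ovu ((hu g).uniq hv) (hr g) hr' x))
  have p3 : ∀ r' : Ac →+* Ac, Ov fr r' → ∀ x,
      X.fB (algebraMap Ac Bp x) = algebraMap Ac Bp (r' x) := fun r' hr' x =>
    (h5 x).trans (congrArg _ (ovu rfl hph hr' x))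
  have p4 : ∀ y, f y = 0 ↔ X.β X.t ∣ y := e10.symm ▸ e4
  have p5 : ∀ g y, f (X.gD g y) = a g (f y) := fun g y =>
    (congrArg f (e9 g y)).trans (f_eq (hu g) (hs g) hf y)
  have p6 : ∀ k : Ac →+* OC, (∀ x, k (algebraMap Ai Ac x) = th x) →
      ∀ x, f (X.β (algebraMap Ac Bp x)) = k x := fun k hk x =>
    (congrArg f (h6 x)).trans (hbf f k hf hk x)
  have p7 : ∀ y, (∀ N : ℕ, X.β X.t ^ N ∣ y) → y = 0 := fun y h => BdA.cpl.1 y fun N =>
    (pow_dvd_pow_of_dvd (Dvd.intro _ (e10.trans hV).symm) N).trans (h N)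
  exact H ⟨X, p1, ⟨ph, hph, h3⟩, p2, p3, b_inj hbi X.β h6, ⟨f, p4, hfu, p5, p6⟩, p7⟩

theorem pt2 : TateSt → PT2St := by
  intro T G _ _ a ha χ hχ X P
  obtain ⟨f, hk, -, hg, h4⟩ := P.th
  obtain ⟨f', hf'⟩ := exTc
  have e : ∀ c : ℤ_[2], f (algebraMap ℚ_[2] Bd c) = algebraMap ℚ_[2] ℂ_[2] c := fun c =>
    (congrArg f ((X.β.commutes _).symm.trans (congrArg X.β (qB c)))).trans
      ((h4 f' hf' _).trans ((congrArg Subtype.val (hf' (zp c))).trans (th_zp c)))
  refine tt (f := toA f e) hk (fun r y h => T r _ fun σ hσ => ?_) P.sep P.inj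
  obtain ⟨g, rfl⟩ := ha σ hσ
  refine (hg g y).symm.trans ((congrArg (toA f e) (h g)).trans ?_)
  rw [map_smul, Algebra.smul_def, map_zpow₀, hχ]

end Pool.Agent.SY
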