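import Pool.Agent.Lib.MP_b4b3cb_nt.SY.St3
import Pool.Agent.Lib.MP_b4b3cb_nt.SY.PT
import Pool.Agent.Lib.MP_b4b3cb_nt.HF.Bd

/-! The de Rham period of a character. -/

namespace Pool.Agent.SY

open Polynomial Pool.Agent.SelTwo Pool.Agent.HF
open scoped TensorProduct Classical

namespace Dr

variable {K C D E : Type} [Field K] [Field C] [Algebra K C] [CommRing D] [Algebra K D] [Field E]
  [Algebra K E] (f : D →ₐ[K] C) {w : D}

/-- Algebraic elements of the residue field have a canonical lift. -/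
theorem lift [CharZero K] (hw : Cpl w) (hk : ∀ y, f y = 0 ↔ w ∣ y) (hu : ∀ y, f y ≠ 0 → IsUnit y)
    (hs : Function.Surjective f) {γ : C} (hγ : IsAlgebraic K γ) :
    ∃ Γ : D, f Γ = γ ∧ ∀ s : D →ₐ[K] D, f (s Γ) = γ → s Γ = Γ := by
  have := cpl_iff.1 hw
  have hi := hγ.isIntegral
  set p := minpoly K γ with hp
  have d : aeval γ (derivative p) ≠ 0 :=
    (minpoly.irreducible hi).separable.aeval_derivative_ne_zero (minpoly.aeval K γ)
  have ev : ∀ (q : K[X]) (y : D), (q.map (algebraMap K D)).eval y = aeval y q := fun q y =>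
    eval_map_algebraMap q y
  obtain ⟨b, hb⟩ := hs γ
  obtain ⟨Γ, h1, h2⟩ := HenselianRing.is_henselian (I := Ideal.span {w}) (p.map (algebraMap K D))
    ((minpoly.monic hi).map _) b (by
      rw [Ideal.mem_span_singleton, ← hk, ev, ← aeval_algHom_apply, hb, minpoly.aeval])
    ((hu _ (by rwa [derivative_map, ev, ← aeval_algHom_apply, hb])).map _)
  rw [Ideal.mem_span_singleton, ← hk, map_sub, hb, sub_eq_zero] at h2
  refine ⟨Γ, h2, fun s e => ?_⟩
  rw [IsRoot, ev] at h1
  obtain ⟨k, hk⟩ := binomExpansion (p.map (algebraMap K D)) Γ (s Γ - Γ)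
  rw [add_sub_cancel, ev, ev, aeval_algHom_apply, h1, map_zero, derivative_map, ev] at hk
  refine sub_eq_zero.1 ((hu (aeval Γ (derivative p) + k * (s Γ - Γ)) ?_).mul_right_eq_zero.1 ?_)
  · rwa [map_add, map_mul, map_sub, e, h2, sub_self, mul_zero, add_zero, ← aeval_algHom_apply, h2]
  · linear_combination -hk

/-- The units of the tensor product. -/
theorem unit [IsAlgClosed C] [FiniteDimensional K E] (hu : ∀ y, f y ≠ 0 → IsUnit y)
    (hs : Function.Surjective f) {z : E ⊗[K] D}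
    (h : ∀ τ : E →ₐ[K] C, Algebra.TensorProduct.productMap τ f z ≠ 0) : IsUnit z := by
  by_contra hz
  obtain ⟨m, hm, hzm⟩ := exists_max_ideal_of_mem_nonunits hz
  let i : D →+* E ⊗[K] D := (Algebra.TensorProduct.includeRight (R := K) (A := E)).toRingHom
  have hi : i.IsIntegral := by
    have e : i = (Algebra.TensorProduct.comm K D E).toRingEquiv.toRingHom.comp
      (algebraMap D (D ⊗[K] E)) := RingHom.ext fun _ => rfl
    rw [e]
    exact RingHom.IsIntegral.trans _ _ (fun x => Algebra.IsIntegral.isIntegral x)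
      (RingHom.isIntegral_of_surjective _ (Algebra.TensorProduct.comm K D E).surjective)
  have h1 := Ideal.isMaximal_comap_of_isIntegral_of_isMaximal' i hi m
  have h2 : RingHom.ker (f : D →+* C) ≤ RingHom.ker ((Ideal.Quotient.mk m).comp i) := by
    intro y hy
    rw [RingHom.mem_ker, RingHom.comp_apply, Ideal.Quotient.eq_zero_iff_mem, ← Ideal.mem_comap]
    refine (h1.eq_of_le (RingHom.ker_ne_top (f : D →+* C)) fun x hx => ?_).ge hy
    by_contra c
    exact h1.ne_top (Ideal.eq_top_of_isUnit_mem _ hx (hu x c))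
  let φ : C →+* _ := (f : D →+* C).liftOfSurjective hs ⟨_, h2⟩
  have h3 : φ.comp (f : D →+* C) = (Ideal.Quotient.mk m).comp i :=
    RingHom.liftOfSurjective_comp _ _ _
  have h4 : φ.IsIntegral := RingHom.IsIntegral.tower_top (f : D →+* C) φ (h3 ▸
    RingHom.IsIntegral.trans _ _ hi (RingHom.isIntegral_of_surjective _ Ideal.Quotient.mk_surjective))
  have h5 := IsAlgClosed.ringHom_bijective_of_isIntegral φ h4
  let Φ : E ⊗[K] D →+* C := (RingEquiv.ofBijective φ h5).symm.toRingHom.comp (Ideal.Quotient.mk m)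
  have h6 : ∀ x, φ (Φ x) = Ideal.Quotient.mk m x := fun x =>
    (RingEquiv.ofBijective φ h5).apply_symm_apply _
  have h7 : ∀ y, Φ (1 ⊗ₜ y) = f y := fun y =>
    h5.1 ((h6 _).trans (DFunLike.congr_fun h3 y).symm)
  let τ : E →ₐ[K] C :=
    { Φ.comp Algebra.TensorProduct.includeLeftRingHom with
      commutes' := fun c => by
        rw [← f.commutes, ← h7]
        exact congrArg Φ (Algebra.TensorProduct.tmul_one_eq_one_tmul c) }
  refine h τ (h5.1 ?_)
  have h8 : ∀ x, Algebra.TensorProduct.productMap τ f x = Φ x := fun x => by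
    induction x using TensorProduct.induction_on with
    | zero => rw [map_zero, map_zero]
    | add _ _ p q => rw [map_add, map_add, p, q]
    | tmul a y =>
      rw [Algebra.TensorProduct.productMap_apply_tmul, ← h7]
      change Φ (a ⊗ₜ 1) * _ = _
      rw [← map_mul, Algebra.TensorProduct.tmul_mul_tmul, mul_one, one_mul]
  rw [h8, h6, map_zero, Ideal.Quotient.eq_zero_iff_mem]
  exact hzm

theorem van {ι : Type} [Fintype ι] {x c : ι → C} (hx : Function.Injective x)
    (h : ∀ n : ℕ, ∑ q, c q * x q ^ n = 0) (q : ι) : c q = 0 := by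
  let e := (Fintype.equivFin ι).symm
  have := Matrix.eq_zero_of_forall_pow_sum_mul_pow_eq_zero (f := x ∘ e) (v := c ∘ e)
    (hx.comp e.injective) fun n => (e.sum_comp fun q => c q * x q ^ (n : ℕ)).trans (h n)
  simpa using congrFun this (e.symm q)

theorem main [CharZero K] [IsAlgClosed C] [FiniteDimensional K E] (hw : Cpl w)
    (hk : ∀ y, f y = 0 ↔ w ∣ y) (hu : ∀ y, f y ≠ 0 → IsUnit y) (hs : Function.Surjective f)
    {G : Type} [Group G] (a : G →* RingAut C) (s : G → D →ₐ[K] D)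
    (sm : ∀ g h, s (g * h) = (s g).comp (s h)) (fs : ∀ g y, f (s g y) = a g (f y)) (θ : G →* E)
    (H : Subgroup G) [H.FiniteIndex] {γ : C} (hγ : IsAlgebraic K γ) (hH : ∀ g, g ∈ H ↔ a g γ = γ)
    (y : E ⊗[K] D) (hy : IsUnit y)
    (h : ∀ g ∈ H, θ g • Algebra.TensorProduct.map (AlgHom.id E E) (s g) y = y) :
    ∃ z : E ⊗[K] D, IsUnit z ∧ ∀ g, θ g • Algebra.TensorProduct.map (AlgHom.id E E) (s g) z = z := by
  have : Fintype (G ⧸ H) := Fintype.ofFinite _
  obtain ⟨Γ, h1, h2⟩ := lift f hw hk hu hs hγ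
  let T : G → E ⊗[K] D →ₐ[E] E ⊗[K] D := fun g => Algebra.TensorProduct.map (AlgHom.id E E) (s g)
  have Tm : ∀ g g' z, T (g * g') z = T g (T g' z) := fun g g' z => by
    induction z using TensorProduct.induction_on with
    | zero => simp only [map_zero]
    | add _ _ p q => simp only [map_add, p, q]
    | tmul b x => simp only [T, Algebra.TensorProduct.map_tmul, sm, AlgHom.comp_apply, AlgHom.id_apply]
  have T1 : ∀ g x, T g (1 ⊗ₜ x) = 1 ⊗ₜ s g x := fun g x => rfl
  let c : (E →ₐ[K] C) → G → C := fun τ g => Algebra.TensorProduct.productMap τ f (θ g • T g y)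
  have c0 : ∀ τ g, c τ g ≠ 0 := fun τ g => by
    refine IsUnit.ne_zero (IsUnit.map _ ?_)
    rw [Algebra.smul_def]
    exact (((Group.isUnit g).map θ).map _).mul (hy.map _)
  let L : (E →ₐ[K] C) → K[X] →ₗ[K] C := fun τ =>
    ∑ q : G ⧸ H, c τ q.out • (aeval (a q.out γ)).toLinearMap
  have hL : ∀ τ p, L τ p = ∑ q : G ⧸ H, c τ q.out * aeval (a q.out γ) p := fun τ p => by
    simp only [L, LinearMap.sum_apply, LinearMap.smul_apply, AlgHom.toLinearMap_apply, smul_eq_mul]
  obtain ⟨p, hp⟩ := Submodule.exists_forall_notMem_of_forall_ne_top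
    (fun τ => LinearMap.ker (L τ)) fun τ e => by
      refine c0 τ _ (van (x := fun q : G ⧸ H => a q.out γ) (c := fun q => c τ q.out)
        (fun q q' e => ?_) (fun n => ?_) ((1 : G) : G ⧸ H))
      · rw [← q.out_eq, ← q'.out_eq]
        refine QuotientGroup.eq.2 ((hH _).2 ?_)
        rw [map_mul, map_inv, RingAut.mul_apply, ← show a q.out γ = a q'.out γ from e]
        exact (a q.out).symm_apply_apply γ
      · have : X ^ n ∈ LinearMap.ker (L τ) := e ▸ Submodule.mem_top
        simpa only [LinearMap.mem_ker, hL, map_pow, aeval_X] using this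
  let F : G → E ⊗[K] D := fun g => θ g • T g (1 ⊗ₜ aeval Γ p * y)
  have F1 : ∀ g g', θ g • T g (F g') = F (g * g') := fun g g' => by
    simp only [F, map_smul, smul_smul, ← map_mul θ, Tm]
  have F2 : ∀ g : G, F (g : G ⧸ H).out = F g := fun g => by
    obtain ⟨k, e⟩ := QuotientGroup.mk_out_eq_mul H g
    have e1 : F k = 1 ⊗ₜ aeval Γ p * y := by
      simp only [F]
      rw [map_mul, T1, ← aeval_algHom_apply, h2 _ (by rw [fs, h1, (hH _).1 k.2]), ← mul_smul_comm,
        h _ k.2]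
    rw [e, ← F1, e1]
  refine ⟨∑ q : G ⧸ H, F q.out, unit f hu hs fun τ e => hp τ ?_, fun g => ?_⟩
  · rw [LinearMap.mem_ker, hL, ← e, map_sum]
    refine Finset.sum_congr rfl fun q _ => ?_
    simp only [F, c]
    rw [map_mul, ← mul_smul_comm, map_mul, T1, Algebra.TensorProduct.productMap_apply_tmul, map_one,
      one_mul, ← aeval_algHom_apply, ← aeval_algHom_apply, fs, h1, mul_comm]
  · rw [map_sum, Finset.smul_sum, ← Equiv.sum_comp (MulAction.toPerm g) fun q : G ⧸ H => F q.out]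
    refine Finset.sum_congr rfl fun q _ => ?_
    rw [F1, ← F2 (g * q.out)]
    exact congrArg (fun q : G ⧸ H => F q.out) (MulAction.Quotient.coe_smul_out H g q)

end Dr

theorem Dr.tf : ∃ f : Bd →ₐ[ℚ_[2]] ℂ_[2], (∀ a, f (algebraMap Ai Bd a) = th a) ∧
    (∀ y, f y = 0 ↔ algebraMap Ai Bd xi ∣ y) ∧ (∀ y, f y ≠ 0 → IsUnit y) ∧
    Function.Surjective f := by
  obtain ⟨f, hf, hk, hu⟩ := exTd
  have e : ∀ c : ℤ_[2], f (algebraMap ℚ_[2] Bd c) = algebraMap ℚ_[2] ℂ_[2] c := fun c =>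
    (congrArg f (qD c)).trans ((hf _).trans (th_zp c))
  refine ⟨toA f e, hf, hk, hu, fun c => ?_⟩
  obtain ⟨z, hz⟩ := BdA.tb_surj c
  have h : f.comp (algebraMap Bi Bd) = BdA.tb := IsLocalization.ringHom_ext
    (Submonoid.powers ((2 : ℕ) : Ai)) (RingHom.ext fun x =>
      ((congrArg f (BdA.alg x).symm).trans (hf x)).trans (BdA.tb_alg x).symm)
  exact ⟨algebraMap Bi Bd z, (DFunLike.congr_fun h z).trans hz⟩

theorem Dr.push {G : Type} [Group G] [TopologicalSpace G] {χ : G →* ℚ_[2]} {B D C : Type}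
    [CommRing B] [Algebra ℚ_[2] B] [CommRing D] [Algebra ℚ_[2] D] [CommRing C] [Algebra ℚ_[2] C]
    (X : PD G ℚ_[2] χ B D C) {E : Type} [NontriviallyNormedField E] [NormedAlgebra ℚ_[2] E]
    {θ : G → E} {H : Subgroup G} {n : ℕ} {u : E} (h : ThP X θ H n u) :
    ∃ y : E ⊗[ℚ_[2]] D, IsUnit y ∧ ∀ g ∈ H, θ g • tm E (X.gD g) y = y := by
  obtain ⟨y, hy, -⟩ := h
  let β : E ⊗[ℚ_[2]] B →ₐ[E] E ⊗[ℚ_[2]] D := Algebra.TensorProduct.map (AlgHom.id E E) X.β
  have hβ : ∀ g z, tm E (X.gD g) (β z) = β (tm E (X.gB g) z) := fun g z => by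
    induction z using TensorProduct.induction_on with
    | zero => simp only [map_zero]
    | add _ _ p q => simp only [map_add, p, q]
    | tmul b x => simp only [tm, β, Algebra.TensorProduct.map_tmul, X.βg]
  exact ⟨β y, y.isUnit.map β, fun g k => by rw [hβ, ← map_smul, hy g k]⟩

theorem drs : DrSt := by
  intro G _ _ a iso χ X P E _ _ _ θ H γ n u hH hγ hg hy
  obtain ⟨f, hf, hk, hu, hs⟩ := Dr.tf
  obtain ⟨y, hy, hy'⟩ := Dr.push X hy
  choose v hv using fun g => exLf (a g) (iso g)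
  have sm : ∀ g h, X.gD (g * h) = (X.gD g).comp (X.gD h) := fun g h => by
    have l : Lf (a (g * h)) ((v g).comp (v h)) := by rw [map_mul]; exact (hv g).comp (hv h)
    exact exD_uniq l (P.ex _ _ l).2 (ex_comp (P.ex _ _ (hv g)).2 (P.ex _ _ (hv h)).2)
  have fs : ∀ g y, f (X.gD g y) = a g (f y) := fun g y => by
    obtain ⟨r, h1, h2⟩ := (P.ex _ _ (hv g)).2
    exact PTa.f_eq (hv g) (s := (X.gD g : Bd →+* Bd)) (f := (f : Bd →+* ℂ_[2]))
      (fun x => (h2 x).trans (congrArg _ (h1 x))) hf y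
  obtain ⟨z, hz, h⟩ := Dr.main f BdA.cpl hk hu hs a X.gD sm fs θ H
    (hγ.extendScalars (algebraMap ℚ ℚ_[2]).injective) hg y hy hy'
  exact ⟨hz.unit, h⟩

end Pool.Agent.SY
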