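import Pool.Agent.Lib.MP_b4b3cb_nt.SY.Ts

/-! The invariant form on the symmetric power. -/

namespace Pool.Agent.SY

open Matrix Polynomial Finset Pool.Agent.SymTwo

namespace Dual

variable {R : Type} [Field R] (m : ℕ)

/-- The coefficients of the power of a linear form. -/
def pw (x y : R) : Fin (m + 1) → R := fun i => y ^ (i : ℕ) * x ^ (m - i) * m.choose i

theorem coeff_pw (x y : R) (i : Fin (m + 1)) : ((C x + C y * X) ^ m).coeff i = pw m x y i := by
  have : ∀ j, (C y * X) ^ j * C x ^ (m - j) * (m.choose j : R[X]) =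
      monomial j (y ^ j * x ^ (m - j) * m.choose j) := fun j => by
    rw [← C_mul_X_pow_eq_monomial]
    simp only [map_mul, map_pow, map_natCast]
    ring
  rw [add_comm (C x), add_pow, finsetSum_coeff]
  simp only [this, coeff_monomial]
  rw [sum_ite_eq', if_pos (mem_range.2 i.2), pw]

theorem sym_pw (A : M2 R) (x y : R) :
    sym m A *ᵥ pw m x y = pw m (A 0 0 * x + A 0 1 * y) (A 1 0 * x + A 1 1 * y) := by
  funext i
  have : C (A 0 0 * x + A 0 1 * y) + C (A 1 0 * x + A 1 1 * y) * X =
      C y * (C (A 0 1) + C (A 1 1) * X) + C x * (C (A 0 0) + C (A 1 0) * X) := by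
    simp only [map_add, map_mul]
    ring
  rw [← coeff_pw, this, add_pow, finsetSum_coeff, sum_range, mulVec, dotProduct]
  refine sum_congr rfl fun j _ => ?_
  rw [sym, pw, ← coeff_mul_C]
  congr 1
  simp only [map_mul, map_pow, map_natCast, mul_pow]
  ring

variable [CharZero R]

theorem form (x y x' y' : R) : pw m x y ⬝ᵥ Jm R m *ᵥ pw m x' y' = (x * y' - y * x') ^ m := by
  rw [sub_eq_neg_add, add_pow, sum_range, dotProduct]
  refine sum_congr rfl fun i _ => ?_
  have hi := Nat.lt_succ_iff.1 i.2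
  have hc : (m.choose i : R) ≠ 0 := Nat.cast_ne_zero.2 (Nat.choose_pos hi).ne'
  rw [mulVec, dotProduct, sum_eq_single i.rev]
  · have e : (i.rev : ℕ) = m - i := by rw [Fin.val_rev]; omega
    rw [Jm, if_pos (by omega), pw, pw, e, Nat.sub_sub_self hi, Nat.choose_symm hi, neg_pow (y * x')]
    field_simp
    ring
  · intro j _ hj
    rw [Jm, if_neg, zero_mul]
    exact fun h => hj (Fin.ext (by rw [Fin.val_rev]; omega))
  · simp

theorem ext_pw {M N : Matrix (Fin (m + 1)) (Fin (m + 1)) R}
    (h : ∀ s t : R, pw m 1 s ⬝ᵥ M *ᵥ pw m 1 t = pw m 1 s ⬝ᵥ N *ᵥ pw m 1 t) : M = N := by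
  let V : Matrix (Fin (m + 1)) (Fin (m + 1)) R := of fun s => pw m 1 ((s : ℕ) : R)
  have hV : V = vandermonde (fun s => ((s : ℕ) : R)) *
      diagonal fun i : Fin (m + 1) => (m.choose i : R) := by
    ext s i
    simp [V, pw]
  have u : IsUnit V := by
    rw [isUnit_iff_isUnit_det, hV, det_mul, det_diagonal]
    refine (mul_ne_zero (det_vandermonde_ne_zero_iff.2 fun s t e => Fin.ext (Nat.cast_inj.1 e))
      (prod_ne_zero_iff.2 fun i _ => ?_)).isUnit
    exact Nat.cast_ne_zero.2 (Nat.choose_pos (Nat.lt_succ_iff.1 i.2)).ne'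
  refine ((isUnit_transpose V).2 u).mul_right_cancel (u.mul_left_cancel ?_)
  ext s t
  exact h _ _

end Dual

open SY.Dual in
theorem dualS : SymSt → DualSt := fun _ R _ _ m A => ext_pw m fun s t => by
  rw [← mulVec_mulVec, ← mulVec_mulVec, dotProduct_mulVec, vecMul_transpose, sym_pw, sym_pw, form,
    smul_mulVec, dotProduct_smul, form, smul_eq_mul, ← mul_pow, det_fin_two]
  congr 1
  ring

end Pool.Agent.SY
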