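import Pool.Agent.Lib.MP_b4b3cb_nt.SY.Ts

/-! Purity and the local invariants of the odd symmetric powers. -/

namespace Pool.Agent.SY

open Matrix Pool.Agent.SymTwo

namespace EigA

variable {R : Type} [Field R]

theorem cj (h : SymSt) (m : ℕ) {P : M2 R} (hP : IsUnit P) (v : Fin (m + 1) → R) :
    ∃ w, v = sym m P *ᵥ w ∧ ∀ (A T : M2 R) (c : R), A * P = P * T → sym m A *ᵥ v = c • v →
      sym m T *ᵥ w = c • w := by
  obtain ⟨Q, a, b⟩ := isUnit_iff_exists.1 hP
  refine ⟨sym m Q *ᵥ v, by rw [mulVec_mulVec, ← h.mul, a, h.one, one_mulVec], fun A T c e f => ?_⟩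
  rw [← mulVec_smul, ← f, mulVec_mulVec, mulVec_mulVec, ← h.mul, ← h.mul]
  congr 2
  rw [← one_mul T, ← b, mul_assoc Q, ← e, mul_assoc, mul_assoc, a, mul_one]

theorem lin {α β : R} {a q : ℤ} (s : α + β = a) (p : α * β = q) (i j : ℕ) :
    ∃ u w : ℤ, α ^ i * β ^ j = u * α + w ∧ β ^ i * α ^ j = u * β + w := by
  induction i with
  | zero =>
    induction j with
    | zero => exact ⟨0, 1, by simp, by simp⟩
    | succ j ih =>
      obtain ⟨u, w, x, y⟩ := ih
      exact ⟨-w, u * q + w * a, by push_cast; linear_combination β * x + u * p + w * s,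
        by push_cast; linear_combination α * y + u * p + w * s⟩
  | succ i ih =>
    obtain ⟨u, w, x, y⟩ := ih
    exact ⟨u * a + w, -u * q, by push_cast; linear_combination α * x + u * α * s - u * p,
      by push_cast; linear_combination β * y + u * β * s - u * p⟩

theorem wt [CharZero R] {α β : R} {a q : ℤ} (s : α + β = a) (p : α * β = q) (hq : 1 < q)
    (ha : a ^ 2 ≤ 4 * q) {i j k : ℕ} (e : i + j = 2 * k + 1) : α ^ i * β ^ j ≠ q ^ k := fun x => by
  obtain ⟨u, w, b, c⟩ := lin s p i j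
  have z : (q : R) ^ k ≠ 0 := pow_ne_zero _ (Int.cast_ne_zero.2 (by omega))
  have y : β ^ i * α ^ j = q ^ (k + 1) := mul_left_cancel₀ z (by
    rw [← pow_add, show k + (k + 1) = i + j by omega, ← x, ← p]; ring)
  have d : u * (β - α) = q ^ (k + 1) - q ^ k := by linear_combination b - c + y - x
  have f : u ^ 2 * (a ^ 2 - 4 * q) = (q ^ k * (q - 1)) ^ 2 := Int.cast_injective (α := R) (by
    push_cast
    linear_combination (u * (β - α) + q ^ (k + 1) - q ^ k) * d - u ^ 2 * (α + β + a) * s +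
      4 * u ^ 2 * p)
  have g : 0 < (q ^ k * (q - 1)) ^ 2 := by
    have : 0 < q - 1 := by omega
    have : 0 < q := by omega
    positivity
  nlinarith [sq_nonneg u]

theorem tri [IsAlgClosed R] (A : M2 R) : ∃ (P : M2 R) (α b β : R), IsUnit P ∧
    A * P = P * !![α, b; 0, β] ∧ α + β = A.trace ∧ α * β = A.det := by
  rw [trace_fin_two, det_fin_two]
  by_cases h : A 1 0 = 0
  · refine ⟨1, A 0 0, A 0 1, A 1 1, isUnit_one, ?_, rfl, by rw [h, mul_zero, sub_zero]⟩
    rw [mul_one, one_mul, ← h]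
    exact eta_fin_two A
  obtain ⟨s, hs⟩ := IsAlgClosed.exists_root
    (Polynomial.X ^ 2 - Polynomial.C (A 0 0 + A 1 1) * Polynomial.X +
      Polynomial.C (A 0 0 * A 1 1 - A 0 1 * A 1 0) : Polynomial R)
    (by rw [show Polynomial.degree _ = 2 by compute_degree!]; decide)
  simp only [Polynomial.IsRoot, Polynomial.eval_sub, Polynomial.eval_add, Polynomial.eval_mul,
    Polynomial.eval_C, Polynomial.eval_pow, Polynomial.eval_X] at hs
  refine ⟨!![s - A 1 1, 1; A 1 0, 0], s, 1, A 0 0 + A 1 1 - s,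
    (isUnit_iff_isUnit_det _).2 (by simpa [det_fin_two] using h), ?_, by ring,
    by linear_combination -hs⟩
  ext i j
  fin_cases i <;> fin_cases j <;> simp [mul_apply, Fin.sum_univ_two]
  · linear_combination -hs
  · ring

end EigA

open EigA

theorem eig (h : SymSt) : EigSt := fun A a q k hq ha hd ht v hv => by
  let f := algebraMap ℚ_[2] (AlgebraicClosure ℚ_[2])
  obtain ⟨P, α, b, β, u, e, s, p⟩ := tri (A.map f)
  have s' : α + β = a := by
    rw [s, ← map_intCast f, ← ht]; simp [trace_fin_two]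
  have p' : α * β = (q : ℤ) := by
    rw [p, Int.cast_natCast, ← map_natCast f, ← hd]; simp [det_fin_two]
  obtain ⟨w, x, y⟩ := cj h (2 * k + 1) u (f ∘ v)
  have z := y _ _ (((q : ℤ) : AlgebraicClosure ℚ_[2]) ^ k) e (funext fun i => by
    rw [h.map, ← RingHom.map_mulVec, hv]; simp)
  obtain ⟨t, d⟩ := h.tri (2 * k + 1) !![α, b; 0, β] rfl
  have w0 : w = 0 := by
    refine eq_zero_of_mulVec_eq_zero (M := sym (2 * k + 1) !![α, b; 0, β] -
      ((q : ℤ) : AlgebraicClosure ℚ_[2]) ^ k • 1) ?_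
      (by rw [sub_mulVec, z, smul_mulVec, one_mulVec, sub_self])
    rw [det_of_isUpperTriangular fun i j l => by
      have l' : j < i := l
      simp [t i j l', one_apply_ne l'.ne']]
    refine Finset.prod_ne_zero_iff.2 fun i _ => ?_
    rw [Matrix.sub_apply, d, Matrix.smul_apply, one_apply_eq, smul_eq_mul, mul_one]
    exact sub_ne_zero.2 (wt s' p' (by omega) ha (by omega))
  rw [w0, mulVec_zero] at x
  exact funext fun i => f.injective ((congrFun x i).trans (map_zero f).symm)

theorem inv (h : SymSt) (he : EigSt) : InvSt := fun G t D k hp v hv => by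
  have n : ∀ g ∈ D, ∀ q : ℕ, 0 < q → (t g).det = q →
      sym (2 * k + 1) (tq (t g)) *ᵥ v = (q : ℚ_[2]) ^ k • v := fun g hg q a b => by
    have c := hv g hg
    rw [tq_det, b, smul_mulVec, PadicInt.coe_natCast] at c
    exact (inv_smul_eq_iff₀ (pow_ne_zero _ (Nat.cast_ne_zero.2 a.ne'))).1 c
  rcases hp with ⟨g, hg, a, q, b, c, d, e⟩ | ⟨x, hx, ⟨g, hg, a, b, c⟩, g', hg', q, δ, d, e, f, l⟩
  · exact he _ a q k b c (by rw [tq_det, d]; simp) (by rw [tq_trace, e]; simp) v
      (n g hg q (by omega) d)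
  obtain ⟨P, u, H⟩ := exP hx
  obtain ⟨w, x, y⟩ := cj h (2 * k + 1) u v
  obtain ⟨r, s, a1, a2⟩ := H _ 1 (by rw [c, one_smul])
  obtain ⟨r', s', b1, -⟩ := H _ _ l
  rw [tq_det, b, PadicInt.coe_one, one_mul] at a2
  rw [a2, PadicInt.coe_one] at a1
  have z := h.uni _ r (fun r0 => a (tq_inj (by
    rw [r0, ← one_fin_two, mul_one] at a1
    exact (u.mul_left_inj.1 (a1.trans (one_mul _).symm)).trans tq_one.symm))) w
    (by simpa using y _ _ _ a1 (n g hg 1 one_pos (by rw [b, Nat.cast_one])))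
  have z0 := congrFun (y _ _ _ b1 (n g' hg' q (by omega) f)) 0
  rw [mulVec, dotProduct, Finset.sum_eq_single 0 (fun i _ hi => by rw [z i hi, mul_zero]) (by simp),
    (h.tri _ _ rfl).2] at z0
  have w0 : w 0 = 0 := by
    by_contra hw
    have := mul_right_cancel₀ hw z0
    have i : ((δ : ℤ) * q) ^ (2 * k + 1) = q ^ k := Int.cast_injective (α := ℚ_[2]) (by
      simpa using this)
    have p : (0 : ℤ) < q ^ k := by positivity
    have p' : (1 : ℤ) < q ^ (k + 1) := one_lt_pow₀ (by omega) (by omega)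
    rcases e with rfl | rfl
    · rw [one_mul, show 2 * k + 1 = k + (k + 1) by omega, pow_add] at i
      nlinarith
    · rw [neg_one_mul, Odd.neg_pow ⟨k, rfl⟩, show 2 * k + 1 = k + (k + 1) by omega, pow_add] at i
      nlinarith
  have : w = 0 := funext fun i => if hi : i = 0 then hi ▸ w0 else z i hi
  rw [x, this, mulVec_zero]

end Pool.Agent.SY
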