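import Pool.Agent.Lib.MP_b4b3cb_nt.SY.St3
import Pool.Agent.Lib.MP_b4b3cb_nt.SY.Eig

/-! Purity and the local invariants of the twisted symmetric powers. -/

namespace Pool.Agent.SY

open Matrix Pool.Agent.SymTwo

namespace EigTA

variable {R : Type} [Field R]

theorem un (h : SymSt) (m : ℕ) {P A : M2 R} {α b β c : R} (hP : IsUnit P)
    (e : A * P = P * !![α, b; 0, β])
    (hc : ∀ i : Fin (m + 1), c * (α ^ (m - i) * β ^ (i : ℕ)) ≠ 1) :
    IsUnit (c • sym m A - 1) := by
  obtain ⟨Q, a, a'⟩ := isUnit_iff_exists.1 hP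
  have U : (sym m P).det ≠ 0 := fun z => by
    have := congrArg det (h.mul m P Q)
    rw [a, h.one, det_one, det_mul, z, zero_mul] at this
    exact one_ne_zero this
  have x : (c • sym m A - 1) * sym m P = sym m P * (c • sym m !![α, b; 0, β] - 1) := by
    rw [sub_mul, mul_sub, smul_mul_assoc, mul_smul_comm, ← h.mul, ← h.mul, e, one_mul, mul_one]
  obtain ⟨t, d⟩ := h.tri m !![α, b; 0, β] rfl
  have y : (c • sym m !![α, b; 0, β] - 1).det ≠ 0 := by
    rw [det_of_isUpperTriangular fun i j l => by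
      have l' : j < i := l
      simp [t i j l', one_apply_ne l'.ne']]
    refine Finset.prod_ne_zero_iff.2 fun i _ => ?_
    rw [Matrix.sub_apply, Matrix.smul_apply, d, one_apply_eq, smul_eq_mul]
    exact sub_ne_zero.2 (hc i)
  refine (isUnit_iff_isUnit_det _).2 (Ne.isUnit fun z => ?_)
  have := congrArg det x
  rw [det_mul, det_mul, z, zero_mul] at this
  exact mul_ne_zero U y this.symm

theorem spow (h : SymSt) (m : ℕ) (A : M2 R) (f : ℕ) : sym m (A ^ f) = sym m A ^ f := by
  induction f with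
  | zero => rw [pow_zero, pow_zero, h.one]
  | succ f ih => rw [pow_succ, pow_succ, h.mul, ih]

theorem tpow {P A : M2 R} {α b β : R} (e : A * P = P * !![α, b; 0, β]) (f : ℕ) :
    ∃ b', A ^ f * P = P * !![α ^ f, b'; 0, β ^ f] := by
  induction f with
  | zero => exact ⟨0, by rw [pow_zero, pow_zero, pow_zero, ← one_fin_two, one_mul, mul_one]⟩
  | succ f ih =>
    obtain ⟨b', x⟩ := ih
    refine ⟨α * b' + b * β ^ f, ?_⟩
    rw [pow_succ', mul_assoc, x, ← mul_assoc, e, mul_assoc, mul_fin_two, pow_succ', pow_succ']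
    simp

theorem nrm {α : ℂ} {a : ℤ} {q : ℕ} (ha : a ^ 2 ≤ 4 * q) (e : α * (a - α) = q) :
    ‖α‖ ^ 2 = q := by
  have h : (a : ℝ) ^ 2 ≤ 4 * q := by exact_mod_cast ha
  have r := congrArg Complex.re e
  have i := congrArg Complex.im e
  simp only [Complex.mul_re, Complex.mul_im, Complex.sub_re, Complex.sub_im, Complex.intCast_re,
    Complex.intCast_im, Complex.natCast_re, Complex.natCast_im] at r i
  rw [Complex.sq_norm, Complex.normSq_apply]
  have x : 2 * α.re = a := by
    by_cases y : α.im = 0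
    · rw [y] at r
      have : (2 * α.re - a) ^ 2 ≤ 0 := by nlinarith
      have := pow_eq_zero_iff (two_ne_zero) |>.1 (le_antisymm this (sq_nonneg _))
      linarith
    · exact mul_left_cancel₀ y (by linarith)
  rw [← x] at r
  linarith

end EigTA

open EigA EigTA

theorem eigT (h : SymSt) : EigTSt := fun E _ ι A a q m f c ha hd ht hc => by
  obtain ⟨P, α, b, β, u, e, s, p⟩ := tri (A.map ι)
  have s' : α + β = a := by
    rw [s, ← map_intCast ι, ← ht]; simp [trace_fin_two]
  have p' : α * β = q := by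
    rw [p, ← map_natCast ι, ← hd]; simp [det_fin_two]
  have n1 : ‖α‖ ^ 2 = q := nrm ha (by rw [← s', ← p']; ring)
  have n2 : ‖β‖ ^ 2 = q := nrm ha (by rw [← s', ← p']; ring)
  obtain ⟨b', e'⟩ := tpow e f
  have U := un h m (c := ι c) u e' fun i z => hc (by
    have y := congrArg (fun x : ℂ => ‖x‖ ^ 2) z
    simp only [norm_mul, norm_pow, norm_one, one_pow, mul_pow, ← pow_mul] at y
    rw [mul_comm _ 2, mul_comm _ 2, pow_mul ‖α‖, pow_mul ‖β‖, n1, n2, ← pow_add, ← mul_add,
      Nat.sub_add_cancel (Nat.lt_succ_iff.1 i.2), mul_comm f] at y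
    exact y)
  have x : ι c • sym m (A.map ι ^ f) - 1 = ι.mapMatrix (c • sym m A ^ f - 1) := by
    rw [map_sub, map_one, spow h, h.map, ← RingHom.mapMatrix_apply, ← map_pow]
    congr 1
    ext i j
    simp
  rw [x, isUnit_iff_isUnit_det, ← RingHom.map_det] at U
  exact (isUnit_iff_isUnit_det _).2 (Ne.isUnit fun z => U.ne_zero (by rw [z, map_zero]))

theorem invT (h : SymSt) (he : EigTSt) : InvTSt := fun G t D m E _ _ ι κ hp hk v hv => by
  have : CharZero E := ι.charZero
  let f := algebraMap ℚ_[2] E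
  have dt : ∀ g, ∀ q : ℕ, (t g).det = q → (te E (t g)).det = q := fun g q b => by
    rw [te, ← RingHom.mapMatrix_apply, ← RingHom.map_det, tq_det, b]; simp
  have z : ∀ g ∈ D, IsUnit (κ g • sym m (te E (t g)) - 1) → v = 0 := fun g hg U =>
    eq_zero_of_mulVec_eq_zero ((isUnit_iff_isUnit_det _).1 U).ne_zero
      (by rw [sub_mulVec, hv g hg, one_mulVec, sub_self])
  have nk : ∀ g ∈ D, ∀ q : ℕ, 1 < q → (t g).det = q → ‖ι (κ g)‖ ^ 2 * (q : ℝ) ^ m = q :=
    fun g hg q a b => by
      have : (q : ℝ) ≠ 0 := Nat.cast_ne_zero.2 (by omega)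
      rw [hk g hg, dt g q b, map_natCast, Complex.norm_natCast, zpow_sub₀ this, zpow_one,
        zpow_natCast, div_mul_cancel₀ _ (pow_ne_zero _ this)]
  rcases hp with ⟨g, hg, a, q, b, c, d, e⟩ | ⟨x, hx, ⟨g, hg, a, b, c⟩, g', hg', q, δ, d, e, k, l⟩
  · refine z g hg ?_
    have := he E ι (te E (t g)) a q m 1 (κ g) c (dt g q d) (by
      rw [te, ← map_intCast f, ← PadicInt.coe_intCast, ← e, ← tq_trace]; simp [trace_fin_two, f])
      (by rw [mul_one, nk g hg q b d]; exact_mod_cast b.ne')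
    rwa [pow_one] at this
  obtain ⟨P, u, H⟩ := exP hx
  have u' : IsUnit (P.map f) := u.map f.mapMatrix
  have mp : ∀ (A : M2 ℤ_[2]) (α r β : ℚ_[2]), tq A * P = P * !![α, r; 0, β] →
      te E A * P.map f = P.map f * !![f α, f r; 0, f β] := fun A α r β y => by
    rw [te, ← Matrix.map_mul, y, Matrix.map_mul]
    congr 1
    ext i j
    fin_cases i <;> fin_cases j <;> simp [f]
  obtain ⟨r, s, a1, a2⟩ := H _ 1 (by rw [c, one_smul])
  obtain ⟨r', s', b1, -⟩ := H _ _ l
  rw [tq_det, b, PadicInt.coe_one, one_mul] at a2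
  rw [a2, PadicInt.coe_one] at a1
  have a3 := mp _ _ _ _ a1
  rw [map_one] at a3
  by_cases k1 : κ g = 1
  swap
  · exact z g hg (un h m u' a3 fun i => by simpa using k1)
  obtain ⟨w, x, y⟩ := cj h m u' v
  have z := h.uni m (f r) (fun r0 => a (tq_inj (by
    rw [(map_eq_zero f).1 r0, ← one_fin_two, mul_one] at a1
    exact (u.mul_left_inj.1 (a1.trans (one_mul _).symm)).trans tq_one.symm))) w
    (by simpa using y _ _ 1 a3 (by simpa [k1] using hv g hg))
  have n := nk g' hg' q d k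
  have q1 : (1 : ℝ) < q := by exact_mod_cast d
  have k0 : κ g' ≠ 0 := fun k0 => by
    rw [k0, map_zero, norm_zero, zero_pow two_ne_zero, zero_mul] at n
    linarith
  have z0 := congrFun (y _ _ (κ g')⁻¹ (mp _ _ _ _ b1) (by
    rw [eq_inv_smul_iff₀ k0, ← smul_mulVec, hv g' hg'])) 0
  rw [mulVec, dotProduct, Finset.sum_eq_single 0 (fun i _ hi => by rw [z i hi, mul_zero]) (by simp),
    (h.tri _ _ rfl).2] at z0
  have w0 : w 0 = 0 := by
    by_contra hw
    have i : κ g' * ((δ : E) * q) ^ m = 1 := by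
      have := mul_right_cancel₀ hw z0
      rw [← mul_inv_cancel₀ k0, ← this]
      simp
    have j := congrArg (fun x => ‖ι x‖ ^ 2) i
    have dl : ‖(δ : ℂ)‖ = 1 := by rcases e with rfl | rfl <;> simp
    simp only [map_mul, map_pow, map_intCast, map_natCast, norm_mul, norm_pow, dl, one_mul,
      Complex.norm_natCast, map_one, norm_one, one_pow, mul_pow] at j
    rw [sq ((q : ℝ) ^ m), ← mul_assoc, n] at j
    have : (1 : ℝ) ≤ (q : ℝ) ^ m := one_le_pow₀ q1.le
    nlinarith
  have : w = 0 := funext fun i => if hi : i = 0 then hi ▸ w0 else z i hi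
  rw [x, this, mulVec_zero]

end Pool.Agent.SY
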