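import Pool.Agent.Lib.MP_b4b3cb_nt.SY.St3
import Pool.Agent.Lib.MP_b4b3cb_nt.SY.Eps

/-! The local constant of a twist at a prime of multiplicative type. -/

namespace Pool.Agent.SY

open scoped Classical
open NumberField Matrix Polynomial Pool.Agent.SelTwo Pool.Agent.SymTwo Pool.Agent.EP
open Pool.Agent.SC (Over IsFr)
open Pool.Agent.Stark (Pr og ord)

theorem epsT (S : SymSt) : EpsTSt := by
  intro L _ _ E _ _ t hdet k ψ ρ' ⟨D, hD, hE⟩ 𝔓 hm h2 w hw ϖ Ψ v s1 s2 δ c hδ hc
    ⟨x, x0, xi, ⟨g0, g1, g2⟩, xf⟩ ψ1 ψs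
  have ho : Over 𝔓 w := ⟨hm, fun y => by rw [← hw]; rfl⟩
  obtain ⟨B, σ, α, hσ, hα, sα, q1⟩ := EpsA.blk (ϖ := ϖ) ho h2 (by simp [og, ord, v]) s1 s2
  have F := (SP.facts L (AlgebraicClosure L)).fr
  have cf : ∀ g n, IsFr 𝔓 n g → (tq (t g)).det = n := fun g n h => by
    have : (cyclotomicCharacter (AlgebraicClosure L) 2 g.toRingEquiv : ℤ_[2]) = n := F.cyc_fr hm h2 h
    rw [hdet, cyc, this]
    simp
  obtain ⟨P, hP, tr⟩ := exP x0
  let f := algebraMap ℚ_[2] E
  have := charZero_of_injective_algebraMap f.injective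
  have cy : ∀ g, cyc E g = f (tq (t g)).det := fun g => by
    rw [hdet]
    rfl
  have dD := (isUnit_iff_isUnit_det _).1 hD
  set Q := D⁻¹ * (sym (2 * k + 1) P).map f with hQ
  have uQ : IsUnit Q := by
    refine ((isUnit_nonsing_inv_iff).2 hD).mul (IsUnit.map f.mapMatrix ?_)
    refine (Matrix.isUnit_iff_isUnit_det _).2 (Matrix.isUnit_det_of_right_inverse
      (B := sym _ P⁻¹) ?_)
    rw [← S.mul, mul_nonsing_inv _ ((isUnit_iff_isUnit_det _).1 hP), S.one]
  have dQ := (isUnit_iff_isUnit_det _).1 uQ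
  have cj : ∀ g T, tq (t g) * P = P * T → ρ' g * Q =
      Q * ((ψ g * (f (tq (t g)).det ^ k)⁻¹) • sym (2 * k + 1) (T.map f)) := fun g T h => by
    have hE' : D * ρ' g = ((ψ g / cyc E g ^ k) • sym (2 * k + 1) (te E (t g))) * D := hE g
    have a : ρ' g * D⁻¹ = D⁻¹ * ((ψ g / cyc E g ^ k) • sym (2 * k + 1) (te E (t g))) := by
      rw [← nonsing_inv_mul_cancel_left D (ρ' g) dD, hE', mul_assoc, mul_assoc,
        mul_nonsing_inv _ dD, mul_one]
    have b : sym (2 * k + 1) (te E (t g)) * (sym (2 * k + 1) P).map f =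
        (sym (2 * k + 1) P).map f * sym (2 * k + 1) (T.map f) := by
      rw [te, ← S.map, ← S.mul, ← S.mul, ← Matrix.map_mul, h, Matrix.map_mul]
    rw [hQ, ← mul_assoc, a, mul_assoc, mul_assoc, smul_mul_assoc, b, mul_smul_comm,
      mul_smul_comm, cy, div_eq_mul_inv]
    simp only [mul_smul_comm]
  have ci : ∀ g ∈ Ine 𝔓, ∃ b : ℚ_[2], tq (t g) * P = P * !![1, b; 0, 1] ∧
      ρ' g * Q = Q * sym (2 * k + 1) !![1, f b; 0, 1] := fun g hg => by
    obtain ⟨b, d, h1, h3⟩ := tr (t g) 1 (by rw [xi g hg, one_smul])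
    have e := cf g 1 (ine_fr hg)
    simp only [PadicInt.coe_one, one_mul, e, Nat.cast_one] at h1 h3
    subst h3
    refine ⟨b, h1, ?_⟩
    rw [cj g _ h1, e, ψ1 g hg]
    simp only [Nat.cast_one, map_one, one_pow, inv_one, one_smul, mul_one]
    congr 2
    ext i j
    fin_cases i <;> fin_cases j <;> simp
  have fx : ∀ {M T : Matrix _ _ E}, M * Q = Q * T → ∀ y, M *ᵥ y = y ↔ T *ᵥ Q⁻¹ *ᵥ y = Q⁻¹ *ᵥ y :=
    fun {M T} h y => by
      have : T * Q⁻¹ = Q⁻¹ * M := by
        rw [← nonsing_inv_mul_cancel_left Q T dQ, ← h, mul_assoc, mul_nonsing_inv_cancel_right _ _ dQ]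
      rw [mulVec_mulVec, this, ← mulVec_mulVec]
      exact (mulVec_injective_of_isUnit (isUnit_nonsing_inv_iff.2 uQ)).eq_iff.symm
  obtain ⟨b, d, h1, h3⟩ := tr (t σ) _ (xf σ hσ)
  have e := cf σ _ hσ
  have ec : ψ σ = c := ψs σ (fb_iff.2 hσ)
  have q0 : (nq 𝔓 : ℚ_[2]) ≠ 0 := Nat.cast_ne_zero.2 (by omega)
  have δ2 : (δ : ℚ_[2]) * δ = 1 := by rcases hδ with rfl | rfl <;> simp
  simp only [PadicInt.coe_mul, PadicInt.coe_intCast, PadicInt.coe_natCast, e] at h1 h3
  obtain rfl : d = δ := mul_left_cancel₀ q0 (by linear_combination δ * h3 - nq 𝔓 * d * δ2)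
  have T := S.tri (2 * k + 1) ((!![(δ : ℚ_[2]) * nq 𝔓, b; 0, δ]).map f) (by simp)
  refine ⟨2 * k + 1 + 1, fun _ => 1, fun _ _ => 1, fun _ => -1, σ, α, -(δ * c), fun _ => B,
    fun g hg => ?_, hσ, hα, sα, ?_, by simp⟩
  · obtain ⟨b, -, h⟩ := ci g hg
    have T := S.tri (2 * k + 1) !![1, f b; 0, 1] (by simp)
    rw [← mul_nonsing_inv_cancel_right Q (ρ' g) dQ, h, charpoly_mul_comm,
      nonsing_inv_mul_cancel_left _ _ dQ, charpoly_of_isUpperTriangular _ fun i j a => T.1 i j a]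
    simp [T.2]
  · have := EpsA.lin (U := Fx ρ' (Ine 𝔓)) uQ (cj σ _ h1) (M' := ρ' σ⁻¹)
      (by rw [← map_mul, inv_mul_cancel, map_one]) (fun i => by
        rw [Matrix.smul_apply, T.1 _ _ (Fin.succ_pos i), smul_zero]) fun y => ?_
    · convert this using 1
      rw [det_of_isUpperTriangular fun i j a => by
        rw [submatrix_apply, Matrix.smul_apply, T.1 i.succ j.succ (Fin.succ_lt_succ_iff.2 a),
          smul_zero]]
      have δ3 : (δ : E) * δ = 1 := by rcases hδ with rfl | rfl <;> simp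
      have c3 : (c : E) * c = 1 := by rcases hc with rfl | rfl <;> simp
      have c4 : (c : E) ^ (2 * k + 1) = c := by rw [pow_succ, pow_mul, sq, c3, one_pow, one_mul]
      have := EpsA.prod_q (q := (nq 𝔓 : E)) (Nat.cast_ne_zero.2 (by omega)) δ3 k
      simp only [submatrix_apply, Matrix.smul_apply, T.2, e, ec, smul_eq_mul, Fin.val_succ]
      simp only [map_apply, of_apply, cons_val', cons_val_zero, cons_val_one, cons_val_fin_one,
        map_mul, map_intCast, map_natCast, mul_assoc (c : E)]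
      rw [Finset.prod_mul_distrib, this, Finset.prod_const, Finset.card_fin, c4,
        inv_eq_of_mul_eq_one_left (a := (δ * c : E)) (b := (c * δ : E))
          (by linear_combination δ3 + δ * δ * c3),
        pow_succ, pow_mul]
      simp
    · simp only [Fx, Submodule.mem_iInf, LinearMap.mem_ker, mulVecLin_apply, sub_mulVec,
        one_mulVec, sub_eq_zero]
      refine ⟨fun h g hg => ?_, fun h i => ?_⟩
      · obtain ⟨b, -, a⟩ := ci g hg
        have T := S.tri (2 * k + 1) !![1, f b; 0, 1] (by simp)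
        rw [fx a]
        ext i
        rw [mulVec, dotProduct, Fin.sum_univ_succ]
        simp only [h, mul_zero, Finset.sum_const_zero, add_zero]
        cases i using Fin.cases with
        | zero => simp [T.2]
        | succ i => rw [T.1 _ _ (Fin.succ_pos i), zero_mul, h]
      · obtain ⟨b, a, a'⟩ := ci g0 g1
        refine S.uni _ (f b) ((_root_.map_ne_zero f).2 fun z => g2 (tq_inj ?_)) _
          ((fx a' y).1 (h g0 g1)) _ (Fin.succ_ne_zero i)
        rw [z, ← one_fin_two, mul_one] at a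
        rw [tq_one]
        exact hP.mul_right_cancel (by rw [a, one_mul])

end Pool.Agent.SY
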