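import Pool.Agent.Lib.MP_b4b3cb_nt.SY.St2

/-! Properties of the formal group law. -/

namespace Pool.Agent.SY

open WeierstrassCurve

namespace FGa

variable {W : WeierstrassCurve ℤ} {R S : Type} [CommRing R] [CommRing S] {I J : Ideal R}
  {p q : R × R}

theorem inv_map (f : R →+* S) {u : R} (h : IsUnit u) :
    f (Ring.inverse u) = Ring.inverse (f u) := by
  obtain ⟨u, rfl⟩ := h
  rw [Ring.inverse_unit]
  exact (Ring.inverse_unit (Units.map (f : R →* S) u)).symm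

theorem inv_eq {u x y : R} (h : IsUnit u) (e : x * u = y) : y * Ring.inverse u = x := by
  rw [← e, mul_assoc, Ring.mul_inverse_cancel _ h, mul_one]

theorem sl_mem (h1 : p.1 ^ 2 + p.1 * q.1 + q.1 ^ 2 ∈ J) (h2 : p.2 ∈ J) : sl W p q ∈ J := by
  refine J.mul_mem_right _ ?_
  have := J.add_mem h1 (J.mul_mem_left (W.a₁ + W.a₂ * (p.1 + q.1) + W.a₄ * p.2) h2)
  convert this using 1
  ring

theorem tp_mem (h1 : p.1 ^ 2 + p.1 * q.1 + q.1 ^ 2 ∈ J) (h2 : p.2 ∈ J) :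
    (tp W p q).1 + (p.1 + q.1) ∈ J ∧ (tp W p q).2 ∈ J := by
  have hl := sl_mem (W := W) h1 h2
  have hn := J.sub_mem h2 (J.mul_mem_right p.1 hl)
  refine ⟨?_, J.add_mem (J.mul_mem_right _ hl) hn⟩
  rw [tp, tz, sub_add_eq_add_sub, neg_add_cancel, zero_sub]
  refine J.neg_mem (J.mul_mem_right _ ?_)
  have := J.add_mem (J.mul_mem_left (W.a₁ + W.a₃ * sl W p q) hl)
    (J.mul_mem_left (W.a₂ + 2 * W.a₄ * sl W p q + 3 * W.a₆ * sl W p q ^ 2) hn)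
  convert this using 1
  ring

theorem sq_mem (hp : p.1 ∈ I) (hq : q.1 ∈ I) : p.1 ^ 2 + p.1 * q.1 + q.1 ^ 2 ∈ I := by
  have := I.add_mem (I.mul_mem_left (p.1 + q.1) hp) (I.mul_mem_left q.1 hq)
  convert this using 1
  ring

theorem tp_in (hp : p.1 ∈ I ∧ p.2 ∈ I) (hq : q.1 ∈ I ∧ q.2 ∈ I) :
    (tp W p q).1 ∈ I ∧ (tp W p q).2 ∈ I :=
  have := tp_mem (W := W) (sq_mem hp.1 hq.1) hp.2
  ⟨(I.add_mem_iff_left (I.add_mem hp.1 hq.1)).1 this.1, this.2⟩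

theorem u1 (hI : Jac I) (hp : p.1 ∈ I ∧ p.2 ∈ I) (hq : q.1 ∈ I ∧ q.2 ∈ I) :
    IsUnit (1 - W.a₁ * q.1 - W.a₂ * q.1 ^ 2 - W.a₃ * (p.2 + q.2) -
      W.a₄ * q.1 * (p.2 + q.2) - W.a₆ * (p.2 ^ 2 + p.2 * q.2 + q.2 ^ 2)) := by
  have := hI _ (I.add_mem (I.add_mem
    (I.mul_mem_left (-W.a₁ - W.a₂ * q.1 - W.a₄ * (p.2 + q.2)) hq.1)
    (I.mul_mem_left (-W.a₃ - W.a₆ * (p.2 + q.2)) hp.2)) (I.mul_mem_left (-W.a₃ - W.a₆ * q.2) hq.2))
  convert this using 1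
  ring

theorem u2 (hI : Jac I) {l : R} (hl : l ∈ I) :
    IsUnit (1 + W.a₂ * l + W.a₄ * l ^ 2 + W.a₆ * l ^ 3) := by
  have := hI _ (I.mul_mem_left (W.a₂ + W.a₄ * l + W.a₆ * l ^ 2) hl)
  convert this using 1
  ring

/-- The third point commutes with homomorphisms. -/
theorem nat (f : R →+* S) (hI : Jac I) (hp : p.1 ∈ I ∧ p.2 ∈ I) (hq : q.1 ∈ I ∧ q.2 ∈ I) :
    Prod.map f f (tp W p q) = tp W (Prod.map f f p) (Prod.map f f q) := by
  have e : f (sl W p q) = sl W (Prod.map f f p) (Prod.map f f q) := by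
    rw [sl, map_mul, inv_map f (u1 hI hp hq), sl]
    simp
  have h := inv_map f (u2 (W := W) hI (sl_mem (W := W) (sq_mem hp.1 hq.1) hp.2))
  rw [tp, tp, ← e]
  simp [tz, h, map_ofNat]

theorem cube (hI : Jac I) (P : FP W I) : P.1.1 ^ 3 ∣ P.1.2 := by
  have h : Eqn W _ _ := P.2.2.2
  have := u1 (W := W) (p := 0) hI ⟨I.zero_mem, I.zero_mem⟩ ⟨P.2.1, P.2.2.1⟩
  rw [Eqn] at h
  refine ⟨_, ((inv_eq this ?_).symm : P.1.2 = _)⟩
  simp only [Prod.snd_zero]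
  linear_combination h

theorem eqn_map (f : R →+* S) {z w : R} (h : Eqn W z w) : Eqn W (f z) (f w) := by
  simpa [Eqn] using congrArg f h

/-- The first coordinate determines the second one. -/
theorem snd_eq {z w w' : S} (h : Eqn W z w) (h' : Eqn W z w') (d : z ∣ w) (d' : z ∣ w')
    (u : ∀ s, IsUnit (1 + z * s)) : w = w' := by
  obtain ⟨a, rfl⟩ := d
  obtain ⟨b, rfl⟩ := d'
  rw [Eqn] at h h'
  refine (u (-W.a₁ - W.a₂ * z - W.a₃ * (a + b) - W.a₄ * z * (a + b) -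
    W.a₆ * z * (a ^ 2 + a * b + b ^ 2))).mul_left_cancel ?_
  linear_combination h - h'

/-- The duplication modulo `2 z ^ 2` and `z ^ 5`. -/
theorem dup (e1 : Even W.a₁) (e3 : Odd W.a₃) {z w : S} (h : Eqn W z w) (d : z ^ 3 ∣ w)
    (h2 : 2 * z ^ 2 = 0) (h5 : z ^ 5 = 0) : (tp W (tp W (z, w) (z, w)) 0).1 = 2 * z + z ^ 4 := by
  obtain ⟨k, hk⟩ := e1
  obtain ⟨m, hm⟩ := e3
  have a1 : (W.a₁ : S) = 2 * k := by rw [hk]; push_cast; ring
  have a3 : (W.a₃ : S) = 2 * m + 1 := by rw [hm]; push_cast; ring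
  obtain ⟨u, rfl⟩ := d
  have hI : Jac (Ideal.span {z}) := fun x hx => by
    obtain ⟨s, rfl⟩ := Ideal.mem_span_singleton'.1 hx
    exact IsNilpotent.isUnit_one_add ⟨5, by rw [mul_pow, h5, mul_zero]⟩
  have hz : z ∈ Ideal.span {z} := Ideal.mem_span_singleton_self z
  have hw : z ^ 3 * u = z ^ 3 := by
    rw [Eqn, a1] at h
    linear_combination h + k * z ^ 2 * u * h2 +
      (W.a₂ * u + W.a₃ * z * u ^ 2 + W.a₄ * z ^ 2 * u ^ 2 + W.a₆ * z ^ 4 * u ^ 3) * h5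
  rw [hw]
  have h3 : z ^ 3 ∈ Ideal.span {z} := Ideal.pow_mem_of_mem _ hz 3 (by norm_num)
  have l1 : sl W (z, z ^ 3) (z, z ^ 3) = z ^ 2 + W.a₂ * z ^ 4 := by
    refine inv_eq (u1 hI ⟨hz, h3⟩ ⟨hz, h3⟩) ?_
    simp only [a1]
    linear_combination (-1 - 2 * k * z - W.a₂ * z ^ 2 - W.a₂ * k * z ^ 3) * h2 +
      (-W.a₄ * z - W.a₂ ^ 2 * z - (1 + W.a₂ * z ^ 2) *
        (2 * W.a₃ + 2 * W.a₄ * z + 3 * W.a₆ * z ^ 3)) * h5
  have n1 : z ^ 3 - (z ^ 2 + W.a₂ * z ^ 4) * z = 0 := by linear_combination -W.a₂ * h5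
  have t1 : tz W (z ^ 2 + W.a₂ * z ^ 4) 0 (z + z) = -(2 * z + z ^ 4) := by
    have hl : z ^ 2 + W.a₂ * z ^ 4 ∈ Ideal.span {z} :=
      Ideal.mem_span_singleton'.2 ⟨z + W.a₂ * z ^ 3, by ring⟩
    rw [tz, inv_eq (x := z ^ 4) (u2 hI hl) ?_]
    · ring
    · rw [a1, a3]
      linear_combination (-(1 + W.a₂ * z ^ 2) * (k + m * (z ^ 2 + W.a₂ * z ^ 4))) * h2 +
        (z * (1 + W.a₂ * z ^ 2) * (W.a₂ + W.a₄ * (z ^ 2 + W.a₂ * z ^ 4) +
          W.a₆ * (z ^ 2 + W.a₂ * z ^ 4) ^ 2) - 2 * W.a₂ * z - W.a₂ ^ 2 * z ^ 3) * h5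
  have p1 : tp W (z, z ^ 3) (z, z ^ 3) = (-(2 * z + z ^ 4), 0) := by
    rw [tp, l1, n1, t1]
    refine Prod.ext rfl ?_
    dsimp only
    linear_combination (-z - W.a₂ * z ^ 3) * h2 + (-z - W.a₂ * z ^ 3) * h5
  have := (tp_mem (W := W) (J := ⊥) (p := (-(2 * z + z ^ 4), 0)) (q := 0) (Ideal.mem_bot.2 (by
    simp only [Prod.fst_zero]
    linear_combination 2 * h2 + (4 + z ^ 3) * h5)) (Ideal.zero_mem _)).1
  rw [Ideal.mem_bot, Prod.fst_zero] at this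
  rw [p1]
  linear_combination this

variable [AddCommGroup (FP W I)] (hI : Jac I) (hL : FL W I)
include hI hL

theorem neg_map (f : R →+* S) (P : FP W I) :
    Prod.map f f (-P).1 = tp W (Prod.map f f P.1) 0 := by
  rw [hL.neg, nat f hI ⟨P.2.1, P.2.2.1⟩ ⟨I.zero_mem, I.zero_mem⟩]
  simp [Prod.map, Prod.mk_zero_zero]

theorem add_map (f : R →+* S) (P Q : FP W I) :
    Prod.map f f (P + Q).1 = tp W (tp W (Prod.map f f P.1) (Prod.map f f Q.1)) 0 := by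
  rw [hL.add, nat f hI (tp_in ⟨P.2.1, P.2.2.1⟩ ⟨Q.2.1, Q.2.2.1⟩) ⟨I.zero_mem, I.zero_mem⟩,
    nat f hI ⟨P.2.1, P.2.2.1⟩ ⟨Q.2.1, Q.2.2.1⟩]
  simp [Prod.map, Prod.mk_zero_zero]

theorem exH {R' : Type} [CommRing R'] {I' : Ideal R'} [AddCommGroup (FP W I')] (hI' : Jac I')
    (hL' : FL W I') (f : R →+* S) (f' : R' →+* S) (u : ∀ x ∈ I, ∀ s, IsUnit (1 + f x * s)) :
    ∃ H : AddSubgroup (FP W I × FP W I'), ∀ P P', (P, P') ∈ H ↔ f (fz P) = f' (fz P') := by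
  have k : ∀ {P : FP W I} {P' : FP W I'}, f (fz P) = f' (fz P') →
      Prod.map f f P.1 = Prod.map f' f' P'.1 := fun {P P'} e => by
    have e' : f P.1.1 = f' P'.1.1 := e
    refine Prod.ext e (snd_eq (eqn_map f P.2.2.2) (e' ▸ eqn_map f' P'.2.2.2)
      (map_dvd f ((dvd_pow_self _ (by norm_num)).trans (cube hI P))) ?_ (u _ P.2.1))
    rw [e']
    exact map_dvd f' ((dvd_pow_self _ (by norm_num)).trans (cube hI' P'))
  refine ⟨⟨⟨⟨{X | f (fz X.1) = f' (fz X.2)}, fun {X Y} a b => ?_⟩, ?_⟩, fun {X} a => ?_⟩,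
    fun _ _ => Iff.rfl⟩
  · have := add_map hI hL f X.1 Y.1
    rw [k a, k b, ← add_map hI' hL' f'] at this
    exact congrArg Prod.fst this
  · change f (0 : FP W I).1.1 = f' (0 : FP W I').1.1
    rw [hL.zero, hL'.zero, Prod.fst_zero, Prod.fst_zero, map_zero, map_zero]
  · have := neg_map hI hL f X.1
    rw [k a, ← neg_map hI' hL' f'] at this
    exact congrArg Prod.fst this

theorem exQ (y : R) : ∃ H : AddSubgroup (FP W I × FP W I),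
    ∀ P Q, (P, Q) ∈ H ↔ y ∣ fz P - fz Q := by
  obtain ⟨H, h⟩ := exH hI hL hI hL (Ideal.Quotient.mk (Ideal.span {y})) (Ideal.Quotient.mk _)
    fun x hx s => by
      obtain ⟨s, rfl⟩ := Ideal.Quotient.mk_surjective s
      simpa using (hI _ (I.mul_mem_right s hx)).map (Ideal.Quotient.mk (Ideal.span {y}))
  exact ⟨H, fun P Q => by rw [h, Ideal.Quotient.eq, Ideal.mem_span_singleton]⟩

theorem fg (e1 : Even W.a₁) (e3 : Odd W.a₃) : FG (fz : FP W I → R) := by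
  have z0 : fz (0 : FP W I) = 0 := by rw [fz, hL.zero, Prod.fst_zero]
  have dv : ∀ P : FP W I, P.1.1 ∣ P.1.2 := fun P =>
    (dvd_pow_self _ (by norm_num)).trans (cube hI P)
  refine ⟨fun P Q e => ?_, z0, fun P Q => ?_, fun y P Q a b => ?_, fun P Q => ?_, fun P => ?_⟩
  · have e' : P.1.1 = Q.1.1 := e
    exact Subtype.ext (Prod.ext e (snd_eq P.2.2.2 (e' ▸ Q.2.2.2) (dv P) (e' ▸ dv Q)
      fun s => hI _ (I.mul_mem_right s P.2.1)))
  · obtain ⟨H, h⟩ := exQ hI hL (fz Q)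
    have := H.add_mem ((h P P).2 (by simp)) ((h Q 0).2 (by simp [z0]))
    rwa [Prod.mk_add_mk, add_zero, h] at this
  · have sq : ∀ {s t : R}, y ∣ s → y ∣ t → s ^ 2 + s * t + t ^ 2 ∈ Ideal.span {y ^ 2} := by
      rintro _ _ ⟨s, rfl⟩ ⟨t, rfl⟩
      exact Ideal.mem_span_singleton.2 ⟨s ^ 2 + s * t + t ^ 2, by ring⟩
    obtain ⟨c1, c2⟩ := tp_mem (W := W) (p := P.1) (q := Q.1) (sq a b) (Ideal.mem_span_singleton.2
      (((pow_dvd_pow_of_dvd a 2).trans (pow_dvd_pow _ (by norm_num))).trans (cube hI P)))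
    have c3 : y ∣ (tp W P.1 Q.1).1 := (dvd_add_left (dvd_add a b)).1
      ((dvd_pow_self y two_ne_zero).trans (Ideal.mem_span_singleton.1 c1))
    have c4 := (tp_mem (W := W) (q := 0) (sq c3 (dvd_zero y)) c2).1
    rw [← hL.add, Prod.fst_zero] at c4
    have := Ideal.mem_span_singleton.1 (Ideal.sub_mem _ c4 c1)
    convert this using 1
    simp only [fz]
    ring
  · obtain ⟨H, h⟩ := exQ hI hL (fz P - fz Q)
    have := H.sub_mem ((h P Q).2 dvd_rfl) ((h Q Q).2 (by simp))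
    rwa [Prod.mk_sub_mk, sub_self, h, z0, sub_zero] at this
  · let f := Ideal.Quotient.mk (Ideal.span {2 * fz P ^ 2, fz P ^ 5})
    have h2 : f (2 * fz P ^ 2) = 0 := Ideal.Quotient.eq_zero_iff_mem.2 (Ideal.subset_span (by simp))
    have h5 : f (fz P ^ 5) = 0 := Ideal.Quotient.eq_zero_iff_mem.2 (Ideal.subset_span (by simp))
    have d := map_dvd f (cube hI P)
    rw [map_mul, map_ofNat, map_pow] at h2
    rw [map_pow] at h5 d
    have e : f (fz (P + P)) = f (2 * fz P + fz P ^ 4) := by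
      rw [map_add f, map_mul, map_ofNat, map_pow]
      exact (congrArg Prod.fst (add_map hI hL f P P)).trans
        (dup e1 e3 (eqn_map f P.2.2.2) d h2 h5)
    obtain ⟨r, s, e⟩ := Ideal.mem_span_pair.1 (Ideal.Quotient.eq.1 e)
    exact ⟨r, s, by rw [two_nsmul]; linear_combination -e⟩

theorem exM {R' : Type} [CommRing R'] {I' : Ideal R'} [AddCommGroup (FP W I')]
    (hL' : FL W I') (f : R →+* R') (hf : ∀ x ∈ I, f x ∈ I') :
    ∃ φ : FP W I →+ FP W I', ∀ P, (φ P).1 = (f P.1.1, f P.1.2) := by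
  have : ∀ P : FP W I, ∃ Q : FP W I', Q.1 = Prod.map f f P.1 := fun P =>
    ⟨⟨Prod.map f f P.1, hf _ P.2.1, hf _ P.2.2.1, eqn_map f P.2.2.2⟩, rfl⟩
  choose φ hφ using this
  refine ⟨AddMonoidHom.mk' φ fun P Q => Subtype.ext ?_, hφ⟩
  rw [hL'.add, hφ, hφ, hφ, add_map hI hL]

end FGa

theorem fgs : FGSt := fun _ _ _ _ _ hI hL => ⟨FGa.fg hI hL, fun _ _ _ _ hI' hL' =>
  ⟨FGa.exM hI hL hL', fun _ _ f f' u => FGa.exH hI hL hI' hL' f f' u⟩⟩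

end Pool.Agent.SY
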