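import Pool.Agent.Lib.MP_b4b3cb_nt.SY.Ts

/-! The trace and the determinant of the Frobenius on the Tate module. -/

namespace Pool.Agent.SY

open Matrix WeierstrassCurve Polynomial Filter
open Pool.Agent.Lib.MP_02f36d_nt

namespace FrB

/-- The kernel of a map of positive degree is small. -/
theorem ker_le {F : Type} [Field F] [IsAlgClosed F] [DecidableEq F] {V : Affine F} (hV : Sep V)
    {f : V.Point →+ V.Point} (hf : deg f ≠ 0) (S : Finset V.Point) (hS : ∀ K ∈ S, f K = 0) :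
    S.card ≤ 2 * deg f := by
  have := infinite_pt hV
  have ex : ∃ n, EvenDeg (fun P => xc (f P)) n := by
    by_contra h
    exact hf (by rw [deg, dif_neg h])
  obtain ⟨n, hn⟩ := ex
  rw [deg_eq hV hn] at hf ⊢
  obtain ⟨p, q, h1, h2, h3⟩ := hn
  obtain ⟨P, hP⟩ := ((eventually_all_finset S).2 fun K _ =>
    ev_add_left (h3.and ((ev_eval_xc_ne V h2).and (ev_ne_zero V))) K).exists
  have ne : p - C (xc (f P)) * q ≠ 0 := fun e => by
    have e1 := sub_eq_zero.1 e
    have d : q.degree = 0 := by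
      by_contra d
      obtain ⟨x, hx⟩ := IsAlgClosed.exists_root q d
      have := h1.fin2 x
      simp [e1, hx.eq_zero] at this
    have z : q.coeff n = 0 :=
      coeff_eq_zero_of_degree_lt (by rw [d]; exact_mod_cast Nat.pos_of_ne_zero hf)
    have := h1.top2
    simp [e1, z] at this
  have dg : (p - C (xc (f P)) * q).natDegree ≤ n :=
    (natDegree_sub_le _ _).trans (max_le (h1.le 0) ((natDegree_C_mul_le _ _).trans (h1.le 1)))
  refine (Finset.card_le_mul_card_image_of_maps_to (f := fun K => xc (K + P))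
    (t := (p - C (xc (f P)) * q).roots.toFinset) (fun K hK => ?_) 2 fun x _ => ?_).trans
    (Nat.mul_le_mul_left 2 ((Multiset.toFinset_card_le _).trans ((card_roots' _).trans dg)))
  · obtain ⟨a, b, -⟩ := hP K hK
    beta_reduce at a
    rw [map_add, hS K hK, zero_add, eq_div_iff b] at a
    simp [ne, ← a]
  · by_contra! c
    obtain ⟨K1, K2, K3, m1, m2, m3, n1, n2, n3⟩ := Finset.two_lt_card_iff.1 c
    simp only [Finset.mem_filter] at m1 m2 m3
    have z := fun K hK => (hP K hK).2.2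
    rcases eq_or_neg_of_xc (z _ m1.1) (z _ m2.1) (m1.2.trans m2.2.symm) with a | a
    · exact n1 (add_right_cancel a)
    rcases eq_or_neg_of_xc (z _ m3.1) (z _ m2.1) (m3.2.trans m2.2.symm) with b | b
    · exact n3 (add_right_cancel b).symm
    · exact n2 (add_right_cancel (a.trans b.symm))

/-- A map that kills the points of level `n` has large degree. -/
theorem lev_le {F : Type} [Field F] [IsAlgClosed F] [DecidableEq F] {V : Affine F} (hV : Sep V)
    {f : V.Point →+ V.Point} (hf : deg f ≠ 0) {e : Z2 →+ ℕ → V.Point} (he : TW e) {n : ℕ}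
    (h : ∀ x, f (e x n) = 0) : 2 ^ n * 2 ^ n ≤ 2 * deg f := by
  classical
  have inj : Function.Injective fun i : Fin (2 ^ n) × Fin (2 ^ n) =>
      e ![((i.1 : ℕ) : ℤ_[2]), ((i.2 : ℕ) : ℤ_[2])] n := by
    have k : ∀ i j : Fin (2 ^ n), (2 : ℤ_[2]) ^ n ∣ ((i : ℕ) : ℤ_[2]) - (j : ℕ) → i = j :=
      fun i j d => by
        have : ((2 : ℕ) : ℤ) ^ n ∣ ((i : ℕ) : ℤ) - (j : ℕ) :=
          (PadicInt.pow_p_dvd_int_iff (p := 2) n _).1 (by simpa using d)
        refine Fin.ext (Nat.ModEq.eq_of_lt_of_lt (m := 2 ^ n) ?_ i.2 j.2)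
        exact ((Nat.modEq_iff_dvd).2 (by simpa using this)).symm
    intro i j a
    exact Prod.ext (k _ _ (he.cong.1 a 0)) (k _ _ (he.cong.1 a 1))
  have := ker_le hV hf (Finset.univ.image fun i : Fin (2 ^ n) × Fin (2 ^ n) =>
      e ![((i.1 : ℕ) : ℤ_[2]), ((i.2 : ℕ) : ℤ_[2])] n) fun K hK => by
    obtain ⟨i, -, rfl⟩ := Finset.mem_image.1 hK
    exact h _
  rw [Finset.card_image_of_injective _ inj] at this
  simpa using this

end FrB

theorem frs : Fr1St → FrSt := by
  intro H k _ _ _ U hΔ φ q hq hφ h e he A hA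
  obtain ⟨a, ha, hc, hd⟩ := H k U hΔ φ q hq hφ h
  refine ⟨a, ha, ?_⟩
  have v : ∀ x, A *ᵥ (A *ᵥ x) - a • A *ᵥ x + q • x = 0 := fun x => he.inj fun n => by
    simp only [map_add, map_sub, map_zsmul, map_nsmul, map_zero, Pi.add_apply, Pi.sub_apply,
      Pi.smul_apply, Pi.zero_apply, hA _ n, hc]
  have e1 := congrFun (v ![1, 0]) 0
  have e2 := congrFun (v ![1, 0]) 1
  have e3 := congrFun (v ![0, 1]) 0
  have e4 := congrFun (v ![0, 1]) 1
  simp at e1 e2 e3 e4
  rw [det_fin_two, trace_fin_two]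
  by_cases t : A 0 0 + A 1 1 = a
  · exact ⟨by linear_combination A 0 0 * t - e1, t⟩
  exfalso
  have t' := sub_ne_zero.2 t
  have z1 : A 1 0 = 0 := mul_left_cancel₀ t' (by linear_combination e2)
  have z2 : A 0 1 = 0 := mul_left_cancel₀ t' (by linear_combination e3)
  have z3 : A 1 1 = A 0 0 := mul_left_cancel₀ t' (by linear_combination e4 - e1)
  have lt : a ^ 2 < 4 * q := lt_of_le_of_ne ha fun c => by
    have c' : (a : ℤ_[2]) ^ 2 = 4 * q := by exact_mod_cast c
    rw [z1] at e1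
    rw [z3] at t'
    exact t' (pow_eq_zero_iff two_ne_zero |>.1 (by linear_combination 4 * e1 + c'))
  have sc : ∀ x, A *ᵥ x = A 0 0 • x := fun x => by
    ext i
    fin_cases i <;> simp [mulVec, dotProduct, z1, z2, z3]
  set m := a.natAbs + q
  have big : (|a| + q : ℤ) < 2 ^ m := by
    have := Nat.lt_two_pow_self (n := m)
    zify [m] at this
    exact this
  set r : ℤ := (A 0 0 + 2 ^ m).appr (m + 1) - 2 ^ m with hr
  have r1 : |r| ≤ 2 ^ m := by
    have := PadicInt.appr_lt (A 0 0 + 2 ^ m) (m + 1)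
    zify at this
    rw [abs_le, hr]
    constructor
    · simp
    · rw [pow_succ] at this; linarith
  have r2 : 2 ^ (m + 1) ∣ A 0 0 - r := by
    rw [show A 0 0 - r = A 0 0 + 2 ^ m - (A 0 0 + 2 ^ m).appr (m + 1) by rw [hr]; push_cast; ring]
    exact Ideal.mem_span_singleton.1 (PadicInt.appr_spec (m + 1) (A 0 0 + 2 ^ m))
  have d := hd (-r) 1
  have := FrB.lev_le (sep_of_c4 (Or.inr hΔ)) (f := -r • AddMonoidHom.id U.Point +
    (1 : ℤ) • ptMap φ h) (fun z => by rw [z] at d; push_cast at d; nlinarith [sq_nonneg (2 * r - a)])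
    he (n := m + 1) fun x => by simp [← hA x, sc, he.smul r2]
  zify at this
  rw [d, pow_succ] at this
  have b1 : r ^ 2 ≤ (2 ^ m) ^ 2 := by rw [← sq_abs]; gcongr
  have b2 : -(a * r) ≤ |a| * 2 ^ m :=
    (neg_le_abs _).trans (by rw [abs_mul]; gcongr)
  have b3 : (1 : ℤ) ≤ 2 ^ m := one_le_pow₀ (by norm_num)
  nlinarith [abs_nonneg a]

end Pool.Agent.SY
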