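import Pool.Agent.Lib.MP_b4b3cb_nt.SY.St2

/-! The formal points form a group. -/

namespace Pool.Agent.SY

open WeierstrassCurve
open Pool.Agent.Lib.MP_02f36d_nt (xc yc exists_some pt_ext)

namespace GrpA

section

variable (W : WeierstrassCurve ℤ) {R : Type} [CommRing R]

/-- The leading coefficient of the cubic on a line. -/
def dd (l : R) : R := 1 + W.a₂ * l + W.a₄ * l ^ 2 + W.a₆ * l ^ 3

/-- The line `w = l z + n` meets the curve at `x`, `y`, `z`. -/
structure Vi (l n x y z : R) : Prop where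
  u : IsUnit (dd W l)
  e1 : W.a₁ * l + W.a₂ * n + W.a₃ * l ^ 2 + 2 * W.a₄ * l * n + 3 * W.a₆ * l ^ 2 * n =
    -dd W l * (x + y + z)
  e2 : W.a₁ * n + 2 * W.a₃ * l * n + W.a₄ * n ^ 2 + 3 * W.a₆ * l * n ^ 2 - l =
    dd W l * (x * y + x * z + y * z)
  e3 : W.a₃ * n ^ 2 + W.a₆ * n ^ 3 - n = -dd W l * (x * y * z)

variable {W} {l n x y z : R} {I : Ideal R}

theorem Vi.rot (h : Vi W l n x y z) : Vi W l n y z x :=
  ⟨h.u, by rw [h.e1]; ring, by rw [h.e2]; ring, by rw [h.e3]; ring⟩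

theorem Vi.map {S : Type} [CommRing S] (f : R →+* S) (h : Vi W l n x y z) :
    Vi W (f l) (f n) (f x) (f y) (f z) :=
  ⟨by simpa [dd] using h.u.map f, by simpa [dd, map_ofNat] using congrArg f h.e1,
    by simpa [dd, map_ofNat] using congrArg f h.e2, by simpa [dd] using congrArg f h.e3⟩

theorem Vi.eqn (h : Vi W l n x y z) : Eqn W z (l * z + n) := by
  have a := h.e1
  have b := h.e2
  have c := h.e3
  unfold dd at a b c
  unfold Eqn
  linear_combination -z ^ 2 * a - z * b - c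

theorem unit (hI : Jac I) {u : R} (h : Ideal.Quotient.mk I u = 1) : IsUnit u := by
  have := hI (u - 1) (Ideal.Quotient.eq_zero_iff_mem.1 (by simp [h]))
  rwa [add_sub_cancel] at this

theorem q0 (h : x ∈ I) : Ideal.Quotient.mk I x = 0 := Ideal.Quotient.eq_zero_iff_mem.2 h

theorem w0 (hI : Jac I) (p : FP W I) (h : p.1.1 = 0) : p.1.2 = 0 := by
  obtain ⟨⟨z, w⟩, a, b, c⟩ := p
  dsimp only [Eqn] at b c h ⊢
  subst h
  exact (unit hI (u := 1 - W.a₃ * w - W.a₆ * w ^ 2) (by simp [q0 b])).mul_right_eq_zero.1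
    (by linear_combination c)

theorem line (hI : Jac I) (p q : FP W I) : ∃ l ∈ I, ∃ n ∈ I, ∃ z ∈ I, p.1.2 = l * p.1.1 + n ∧
    q.1.2 = l * q.1.1 + n ∧ tp W p.1 q.1 = (z, l * z + n) ∧ Vi W l n p.1.1 q.1.1 z := by
  obtain ⟨⟨x, v⟩, a, b, c⟩ := p
  obtain ⟨⟨y, w⟩, a', b', c'⟩ := q
  dsimp only [Eqn] at a b c a' b' c' ⊢
  have u := unit hI (u := 1 - W.a₁ * y - W.a₂ * y ^ 2 - W.a₃ * (v + w) - W.a₄ * y * (v + w) -
    W.a₆ * (v ^ 2 + v * w + w ^ 2)) (by simp [q0 b, q0 a', q0 b'])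
  have hl : sl W (x, v) (y, w) ∈ I :=
    Ideal.Quotient.eq_zero_iff_mem.1 (by simp [sl, q0 a, q0 b, q0 a'])
  have e := Ring.inverse_mul_cancel_right _ (x ^ 2 + x * y + y ^ 2 + W.a₁ * v +
    W.a₂ * (x + y) * v + W.a₄ * v ^ 2) u
  change sl W (x, v) (y, w) * _ = _ at e
  simp only [tp]
  generalize sl W (x, v) (y, w) = l at hl e ⊢
  obtain ⟨n, rfl⟩ : ∃ n, v = l * x + n := ⟨v - l * x, by ring⟩
  obtain rfl : w = l * y + n :=
    sub_eq_zero.1 (u.mul_right_eq_zero.1 (by linear_combination c' - c - (y - x) * e))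
  have hn : n ∈ I := (Ideal.add_mem_iff_right _ (I.mul_mem_left _ a)).1 b
  have d : IsUnit (dd W l) := unit hI (by simp [dd, q0 hl])
  rw [add_sub_cancel_left]
  have hz : tz W l n (x + y) ∈ I :=
    Ideal.Quotient.eq_zero_iff_mem.1 (by simp [tz, q0 a, q0 a', q0 hl, q0 hn])
  have f := Ring.inverse_mul_cancel_right _ (W.a₁ * l + W.a₂ * n + W.a₃ * l ^ 2 +
    2 * W.a₄ * l * n + 3 * W.a₆ * l ^ 2 * n) d
  have g : W.a₁ * l + W.a₂ * n + W.a₃ * l ^ 2 + 2 * W.a₄ * l * n + 3 * W.a₆ * l ^ 2 * n =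
      -dd W l * (x + y + tz W l n (x + y)) := by
    unfold tz
    unfold dd at f ⊢
    linear_combination -f
  refine ⟨l, hl, n, hn, _, hz, rfl, rfl, rfl, d, g, ?_, ?_⟩ <;>
    generalize tz W l n (x + y) = z at g ⊢ <;> unfold dd at g ⊢
  · linear_combination -e - (x + y) * g
  · linear_combination -c + x * e + x * y * g

/-- The third point on a line. -/
noncomputable def T (hI : Jac I) (p q : FP W I) : FP W I := ⟨tp W p.1 q.1, by
  obtain ⟨l, -, n, a, z, b, -, -, c, d⟩ := line hI p q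
  rw [c]
  exact ⟨b, I.add_mem (I.mul_mem_left _ b) a, d.eqn⟩⟩

/-- The origin. -/
def O (W : WeierstrassCurve ℤ) (I : Ideal R) : FP W I := ⟨0, I.zero_mem, I.zero_mem, by simp [Eqn]⟩

end

section

variable {K : Type} [Field K] [DecidableEq K]

theorem col {V : Affine K} {P Q S : V.Point} (hP : P ≠ 0) (hQ : Q ≠ 0) (hS : S ≠ 0) {l n : K}
    (a : yc P = l * xc P + n) (b : yc Q = l * xc Q + n) (c : yc S = l * xc S + n)
    (s : xc P + xc Q + xc S = l ^ 2 + V.a₁ * l - V.a₂)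
    (t : xc P * xc Q + xc P * xc S + xc Q * xc S = V.a₄ - 2 * l * n - V.a₁ * n - V.a₃ * l) :
    P + Q + S = 0 := by
  obtain ⟨x, u, h, rfl⟩ := exists_some hP
  obtain ⟨y, v, h', rfl⟩ := exists_some hQ
  obtain ⟨z, w, h'', rfl⟩ := exists_some hS
  simp only [xc, yc] at a b c s t
  have k : ¬(x = y ∧ u = V.negY y v) ∧ V.slope x y u v = l := by
    by_cases e : x = y
    · subst e
      obtain rfl : u = v := a.trans b.symm
      have g : 3 * x ^ 2 + 2 * V.a₂ * x + V.a₄ - V.a₁ * u = l * (u - V.negY x u) := by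
        rw [Affine.negY]
        linear_combination 2 * x * s - t - (V.a₁ + 2 * l) * a
      have k : u ≠ V.negY x u := fun k => by
        rw [← sub_eq_zero] at k
        rw [k, mul_zero] at g
        rcases ((Affine.nonsingular_iff _ _).1 h).2 with m | m
        · exact m (by linear_combination -g)
        · exact m (sub_eq_zero.1 k)
      exact ⟨fun m => k m.2, by
        rw [Affine.slope_of_Y_ne rfl k, g, mul_div_cancel_right₀ _ (sub_ne_zero.2 k)]⟩
    · exact ⟨fun m => e m.1, by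
        rw [Affine.slope_of_X_ne e, div_eq_iff (sub_ne_zero.2 e)]; linear_combination a - b⟩
  rw [Affine.Point.add_some k.1]
  refine Affine.Point.add_of_Y_eq ?_ ?_ <;>
    simp only [k.2, Affine.addY, Affine.negAddY, Affine.addX, Affine.negY]
  · linear_combination -s
  · linear_combination (l + V.a₁) * s - a + c

variable {W : WeierstrassCurve ℤ} {l n x y z : K} {P Q S : (cv W K).Point}

/-- The point with given formal coordinates. -/
def Pk (z w : K) (P : (cv W K).Point) : Prop :=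
  (z = 0 ∧ w = 0 ∧ P = 0) ∨ (z ≠ 0 ∧ P ≠ 0 ∧ xc P * w = z ∧ yc P * w = -1)

theorem two (h : Vi W l 0 x y 0) (a : Pk x (l * x + 0) P) (b : Pk y (l * y + 0) Q)
    (c : Pk 0 (l * 0 + 0) S) : P + Q + S = 0 := by
  have e1 := h.e1
  have e2 := h.e2
  obtain rfl : S = 0 := c.elim (·.2.2) fun c => absurd rfl c.1
  rw [add_zero]
  rcases a with ⟨rfl, -, rfl⟩ | ⟨a, hP, c, d⟩ <;> rcases b with ⟨rfl, -, rfl⟩ | ⟨b, hQ, c', d'⟩
  · exact add_zero _
  · obtain rfl : l = 0 := by linear_combination -e2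
    simp at d'
  · obtain rfl : l = 0 := by linear_combination -e2
    simp at d
  have p : xc P * l = 1 := mul_right_cancel₀ a (by linear_combination c)
  have q : xc Q * l = 1 := mul_right_cancel₀ b (by linear_combination c')
  have l0 : l ≠ 0 := right_ne_zero_of_mul_eq_one p
  obtain ⟨s, u, h, rfl⟩ := exists_some hP
  obtain ⟨t, v, h', rfl⟩ := exists_some hQ
  simp only [xc, yc] at d d' p q
  refine Affine.Point.add_of_Y_eq (mul_right_cancel₀ l0 (p.trans q.symm))
    (mul_right_cancel₀ (pow_ne_zero 2 l0) ?_)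
  change u * _ = (-v - W.a₁ * t - W.a₃) * _
  linear_combination e1 + W.a₁ * l * q - (u + v) * l * e2 - dd W l * y * d - dd W l * x * d'

theorem three (h : Vi W l n x y z) (a : Pk x (l * x + n) P) (b : Pk y (l * y + n) Q)
    (c : Pk z (l * z + n) S) : P + Q + S = 0 := by
  have e1 := h.e1
  have e2 := h.e2
  have e3 := h.e3
  by_cases hn : n = 0
  · subst hn
    have : dd W l * (x * y * z) = 0 := by linear_combination e3
    rcases mul_eq_zero.1 (h.u.mul_right_eq_zero.1 this) with m | rfl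
    · rcases mul_eq_zero.1 m with rfl | rfl
      · rw [← two h.rot b c a]; abel
      · rw [← two h.rot.rot c a b]; abel
    · exact two h a b c
  obtain ⟨m, hm⟩ : ∃ m, m * n = 1 := ⟨_, inv_mul_cancel₀ hn⟩
  have k : ∀ {x : K} {P : (cv W K).Point}, Pk x (l * x + n) P →
      P ≠ 0 ∧ xc P * (l * x + n) = x ∧ yc P = l * m * xc P + -m := fun {x P} a => by
    rcases a with ⟨rfl, a, -⟩ | ⟨-, a, b, c⟩
    · exact absurd (by linear_combination a) hn
    refine ⟨a, b, mul_right_cancel₀ (b := l * x + n) (fun e => ?_) ?_⟩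
    · rw [e] at c
      simp at c
    · linear_combination c - l * m * b + hm
  obtain ⟨a0, a1, a2⟩ := k a
  obtain ⟨b0, b1, b2⟩ := k b
  obtain ⟨c0, c1, c2⟩ := k c
  have w : dd W l * ((l * x + n) * (l * y + n) * (l * z + n)) = n ^ 3 := by
    unfold dd at *
    linear_combination l ^ 3 * e3 - l ^ 2 * n * e2 + l * n ^ 2 * e1
  have s : dd W l * (x * (l * y + n) * (l * z + n) + (l * x + n) * y * (l * z + n) +
      (l * x + n) * (l * y + n) * z) = n * l ^ 2 + W.a₁ * l * n ^ 2 - W.a₂ * n ^ 3 := by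
    linear_combination 3 * l ^ 2 * e3 - 2 * l * n * e2 + n ^ 2 * e1
  have t : dd W l * (x * y * (l * z + n) + x * (l * y + n) * z + (l * x + n) * y * z) =
      W.a₄ * n ^ 3 + 2 * l * n + W.a₁ * n ^ 2 - W.a₃ * l * n ^ 2 := by
    linear_combination 3 * l * e3 - n * e2
  generalize l * x + n = u at w s t a1
  generalize l * y + n = v at w s t b1
  generalize l * z + n = r at w s t c1
  subst a1 b1 c1
  refine col a0 b0 c0 a2 b2 c2 (mul_left_cancel₀ (pow_ne_zero 3 hn) ?_)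
    (mul_left_cancel₀ (pow_ne_zero 3 hn) ?_)
  · change _ = _ * (_ + (W.a₁ : K) * _ - W.a₂)
    linear_combination s - (xc P + xc Q + xc S) * w - n * l ^ 2 * (m * n + 1) * hm -
      W.a₁ * l * n ^ 2 * hm
  · change _ = _ * ((W.a₄ : K) - _ - W.a₁ * _ - W.a₃ * _)
    linear_combination t - (xc P * xc Q + xc P * xc S + xc Q * xc S) * w -
      2 * l * n * (m * n + 1) * hm - W.a₁ * n ^ 2 * hm + W.a₃ * l * n ^ 2 * hm

variable {R : Type} [CommRing R] {ι : R →+* K} {I : Ideal R}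

omit [DecidableEq K] in
theorem pk (hι : Function.Injective ι) (hI : Jac I) {p : FP W I} (h : Pt ι p.1 P) :
    Pk (ι p.1.1) (ι p.1.2) P :=
  h.imp (fun h => ⟨by rw [h.1, map_zero], by rw [w0 hI p h.1, map_zero], h.2⟩)
    fun h => ⟨(map_ne_zero_iff _ hι).2 h.1, h.2⟩

theorem sum (hι : Function.Injective ι) (hI : Jac I) {p q : FP W I} (a : Pt ι p.1 P)
    (b : Pt ι q.1 Q) (c : Pt ι (T hI p q).1 S) : P + Q + S = 0 := by
  have a := pk hι hI a
  have b := pk hι hI b
  have c := pk hι hI c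
  obtain ⟨l, -, n, -, z, -, d, e, f, g⟩ := line hI p q
  simp only [T, d, e, f, map_add, map_mul] at a b c
  exact three (g.map ι) a b c

omit [DecidableEq K] in
theorem ex (hι : Function.Injective ι) (hΔ : (cv W K).Δ ≠ 0) (p : FP W I) :
    ∃ P : (cv W K).Point, Pt ι p.1 P := by
  obtain ⟨⟨z, w⟩, -, -, c⟩ := p
  by_cases h : z = 0
  · exact ⟨0, Or.inl ⟨h, rfl⟩⟩
  have c := congrArg ι c
  simp only [map_add, map_mul, map_pow, map_intCast] at c
  have hw : ι w ≠ 0 := fun e => h (hι (by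
    rw [map_zero]
    exact pow_eq_zero_iff (n := 3) (by decide) |>.1 (by rw [e] at c; linear_combination -c)))
  obtain ⟨m, hm⟩ : ∃ m, m * ι w = 1 := ⟨_, inv_mul_cancel₀ hw⟩
  have n : (cv W K).Nonsingular (ι z * m) (-m) :=
    (Affine.equation_iff_nonsingular_of_Δ_ne_zero hΔ).1 ((Affine.equation_iff _ _).2 (by
      change _ + (W.a₁ : K) * _ * _ + W.a₃ * _ = _ + W.a₂ * _ + W.a₄ * _ + W.a₆
      linear_combination m ^ 3 * c + (-m ^ 2 + W.a₁ * ι z * m ^ 2 + W.a₂ * ι z ^ 2 * m ^ 2 +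
        W.a₃ * m * (m * ι w + 1) + W.a₄ * ι z * m * (m * ι w + 1) +
        W.a₆ * ((m * ι w) ^ 2 + m * ι w + 1)) * hm))
  exact ⟨.some _ _ n, Or.inr ⟨h, Affine.Point.some_ne_zero n,
    by rw [xc, mul_assoc, hm, mul_one], by rw [yc, neg_mul, hm]⟩⟩

omit [DecidableEq K] in
theorem inj (hι : Function.Injective ι) (hI : Jac I) {p q : FP W I} (a : Pt ι p.1 P)
    (b : Pt ι q.1 P) : p = q := by
  refine Subtype.ext ?_
  rcases a with ⟨a, rfl⟩ | ⟨-, a, c, d⟩ <;> rcases b with ⟨b, e⟩ | ⟨-, b, c', d'⟩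
  · exact Prod.ext (a.trans b.symm) ((w0 hI p a).trans (w0 hI q b).symm)
  · exact absurd rfl b
  · exact absurd e a
  have : ι p.1.2 = ι q.1.2 :=
    mul_left_cancel₀ (a := yc P) (fun e => by simp [e] at d) (d.trans d'.symm)
  exact Prod.ext (hι (by rw [← c, ← c', this])) (hι this)

end

end GrpA

open GrpA

theorem grp : GrpSt := fun W R K _ _ _ ι hι hΔ I hI => by
  choose π hπ using ex (W := W) (I := I) hι hΔ
  have i : Function.Injective π := fun p q e => inj hι hI (hπ p) (e ▸ hπ q)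
  have z : π (O W I) = 0 := (hπ _).elim (·.2) fun h => absurd rfl h.1
  have t : ∀ p q, π (T hI p q) = -(π p + π q) := fun p q =>
    eq_neg_of_add_eq_zero_right (sum hι hI (hπ p) (hπ q) (hπ _))
  have n : ∀ p, π (T hI p (O W I)) = -π p := fun p => by rw [t, z, add_zero]
  have a : ∀ p q, π (T hI (T hI p q) (O W I)) = π p + π q := fun p q => by rw [n, t, neg_neg]
  refine ⟨?_, fun _ h => ⟨AddMonoidHom.mk' π fun p q => ?_, i, hπ⟩⟩
  · let : Add (FP W I) := ⟨fun p q => T hI (T hI p q) (O W I)⟩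
    let : Zero (FP W I) := ⟨O W I⟩
    let : Neg (FP W I) := ⟨fun p => T hI p (O W I)⟩
    have a' : ∀ p q, π (p + q) = π p + π q := a
    let G := AddGroup.ofLeftAxioms (G := FP W I) (fun p q r => i (by simp only [a', add_assoc]))
      (fun p => i ((a' _ _).trans ((congrArg (· + π p) z).trans (zero_add _))))
      fun p => i ((a' _ _).trans
        ((congrArg (· + π p) (n p)).trans ((neg_add_cancel _).trans z.symm)))
    let H : AddCommGroup (FP W I) :=
      { G with add_comm := fun p q => i ((a p q).trans ((add_comm _ _).trans (a q p).symm)) }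
    exact ⟨H, rfl, fun _ => rfl, fun _ _ => rfl⟩
  · rw [← a]
    exact congrArg π (Subtype.ext (h.add p q))

end Pool.Agent.SY
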