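import Pool.Agent.Lib.MP_b4b3cb_nt.SY.Ts
import Pool.Agent.Lib.MP_b4b3cb_nt.Par.Ari
import Pool.Agent.Lib.MP_b4b3cb_nt.Red

/-! The cocycles of a local character. -/

namespace Pool.Agent.SY

open NumberField Module Pool.Agent.SC Pool.Agent.SC.RedAux

namespace H1A

theorem hf_rd (z : ℤ_[2]) : ‖hf (rd z) - (z : ℚ_[2]) / 2‖ ≤ 1 := by
  obtain ⟨w, hw⟩ := (rd_zero (((rd z).val : ℤ_[2]) - z)).1 (by rw [map_sub, rd_val, sub_self])
  have := congrArg (↑) hw (β := ℚ_[2])
  push_cast at this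
  rw [show hf (rd z) - (z : ℚ_[2]) / 2 = w by
    rw [hf, ← sub_div, this]
    exact mul_div_cancel_left₀ _ two_ne_zero]
  exact w.2

variable {G P : Type} [Group G] [TopologicalSpace G] {D : Subgroup G}

theorem hom {Y : G → ℤ_[2]} (c : ContinuousOn Y D)
    (h : ∀ g l : D, ∃ a b : ℤ_[2]ˣ, (Y (g * l) : ℚ_[2]) = (a : ℤ_[2]) * Y g + (b : ℤ_[2]) * Y l) :
    Hom D fun g => rd (Y g) := by
  refine ⟨((ph_cont 0).congr fun a => by simpa using ph_mul 0 a).comp_continuousOn c,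
    fun g hg l hl => ?_⟩
  obtain ⟨a, b, e⟩ := h ⟨g, hg⟩ ⟨l, hl⟩
  have : Y (g * l) = a * Y g + b * Y l := Subtype.ext e
  simp only [this, map_add, map_mul, rd_unit, one_mul]

theorem resm {f : G → ZMod 2} (h : Hom D f) : res D f ∈ Hm D :=
  ⟨⟨h.1.congr fun g hg => if_pos hg, fun g hg l hl => by
    simp only [res, if_pos hg, if_pos hl, if_pos (mul_mem hg hl), h.2 g hg l hl]⟩,
    fun g hg => if_neg hg⟩

theorem nrm [CompactSpace D] {y : D → ℚ_[2]} (c : Continuous y) (h : y ≠ 0) :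
    ∃ (g : D) (Y : G → ℤ_[2]), ContinuousOn Y D ∧ y g ≠ 0 ∧ Y g = 1 ∧ ∀ l : D, y l = y g * Y l := by
  obtain ⟨g, -, hg⟩ := isCompact_univ.exists_isMaxOn Set.univ_nonempty c.norm.continuousOn
  have h0 : y g ≠ 0 := fun e => h (funext fun l => by simpa [e] using hg (Set.mem_univ l))
  obtain ⟨Y, hY⟩ := SP.ext1 (Y := ℤ_[2]) fun l : D => ⟨y l / y g, by
    rw [norm_div, div_le_one (norm_pos_iff.2 h0)]
    exact hg (Set.mem_univ l)⟩
  refine ⟨g, Y, continuousOn_iff_continuous_domRestrict.2 ?_, h0, ?_, fun l => ?_⟩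
  · exact ((c.div_const _).subtype_mk _).congr (congrFun hY)
  · exact (congrFun hY g).symm.trans (Subtype.ext (div_self h0))
  · rw [← congrFun hY l]
    exact (mul_div_cancel₀ _ h0).symm

theorem main (A : AD G P) (v : P) [CompactSpace (A.D v)] (hc : Nat.card (Hm (A.D v)) ≤ 8)
    (χ : A.D v →* ℚ_[2]) (hχ : ∀ g, χ g = (A.χ g : ℤ_[2])) : H1 χ := by
  intro η cη ne x hx li
  have n1 : ∀ g, ‖η g‖ ≤ 1 := by
    obtain ⟨g, Y, -, a, -, b⟩ := nrm cη fun e => by simpa using congrFun e 1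
    have := b (g * g)
    rw [map_mul, mul_right_inj' a] at this
    exact fun l => by
      rw [b l, this, norm_mul]
      exact mul_le_one₀ (Y _).2 (norm_nonneg _) (Y _).2
  have n2 : ∀ g, ∃ e : ℤ_[2]ˣ, η g = (e : ℤ_[2]) := fun g =>
    ⟨Units.mkOfMulEqOne (α := ℤ_[2]) ⟨η g, n1 g⟩ ⟨η g⁻¹, n1 _⟩
      (Subtype.ext ((map_mul η g g⁻¹).symm.trans (by simp))), rfl⟩
  have cχ : Continuous χ := (continuous_subtype_val.comp ((Units.continuous_val (M := ℤ_[2])).comp
    (A.cχ.comp continuous_subtype_val))).congr fun g => (hχ g).symm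
  obtain ⟨g₀, U, cU, c0, U1, hU⟩ := nrm (y := fun g => η g - χ g) (cη.sub cχ) fun e =>
    ne (MonoidHom.ext fun g => sub_eq_zero.1 (congrFun e g))
  have hψ := hom cU fun g l => (n2 g).elim fun e he => ⟨A.χ l, e, mul_left_cancel₀ c0 (by
    have := hU (g * l)
    rw [map_mul, map_mul, Subgroup.coe_mul] at this
    rw [← he, ← hχ]
    linear_combination η g * hU l + χ l * hU g - this)⟩
  have key : ∀ g g' : A.D v, ∃ (f : Hm (A.D v)) (g'' : A.D v), f.1 g = 0 ∧ f.1 g' = 0 ∧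
      f.1 g'' = 1 ∧ A.sym v (fun g => rd (U g)) f = 0 := fun g g' => by
    obtain ⟨a, a1, i, a2⟩ := Fintype.not_linearIndependent_iff.1
      fun h : LinearIndependent ℚ_[2] fun i => (x i g, x i g') => by
        simpa using h.fintype_card_le_finrank
    obtain ⟨g'', Y, cY, y0, Y1, hY⟩ := nrm (y := fun g => ∑ i, a i * x i g)
      (continuous_finsetSum _ fun i _ => (hx i).1.const_mul _)
      fun e => a2 (Fintype.linearIndependent_iff.1 li a (funext fun g => by
        simpa using congrFun e g) i)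
    have co : ∀ g l : A.D v, (Y (g * l) : ℚ_[2]) = Y g + η g * Y l := fun g l =>
      mul_left_cancel₀ y0 (by
        rw [mul_add, mul_left_comm, ← hY, ← hY, ← Subgroup.coe_mul, ← hY]
        simp [(hx _).2, mul_add, Finset.sum_add_distrib, Finset.mul_sum, mul_left_comm])
    have z : ∀ l : A.D v, ∑ i, a i * x i l = 0 → res (A.D v) (fun g => rd (Y g)) l = 0 :=
      fun l e => by
        rw [hY, mul_eq_zero_iff_left y0, PadicInt.coe_eq_zero] at e
        simp [res, e]
    have hY := hom cY fun g l => (n2 g).elim fun e he => ⟨1, e, by simp [co, he]⟩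
    refine ⟨⟨_, resm hY⟩, g'', z g (by simpa [Prod.fst_sum] using congrArg Prod.fst a1),
      z g' (by simpa [Prod.snd_sum] using congrArg Prod.snd a1), by simp [res, Y1],
      (A.congr v _ _ _ _ (fun _ _ => rfl) fun g hg => if_pos hg).trans (A.rloc v _ _ hψ hY
        (fun g => -Y g / (2 * (η g₀ - χ g₀)))
        ((continuous_subtype_val.comp_continuousOn cY).neg.div_const _) fun g hg l hl => ?_)⟩
    convert hf_rd (U g * Y l) using 3
    · rw [map_mul]
    · have := hU ⟨g, hg⟩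
      rw [dq, co ⟨g, hg⟩ ⟨l, hl⟩, ← hχ ⟨g, hg⟩, PadicInt.coe_mul]
      field_simp
      linear_combination (Y l : ℚ_[2]) * this
  obtain ⟨b, hb, b1⟩ : ∃ b, Hom (A.D v) b ∧ A.sym v (fun g => rd (U g)) b ≠ 0 := by
    by_contra! h
    simpa [U1] using A.nondeg v _ hψ h g₀ g₀.2
  obtain ⟨f₁, g₁, -, -, p1, s1⟩ := key 1 1
  obtain ⟨f₂, g₂, q1, -, p2, s2⟩ := key g₁ g₁
  obtain ⟨f₃, g₃, q2, q3, p3, s3⟩ := key g₁ g₂
  let l : Hm (A.D v) →+ ZMod 2 := AddMonoidHom.mk' (fun f => A.sym v (fun g => rd (U g)) f)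
    fun f f' => by
      rw [A.comm v _ _ hψ (f + f').2.1, A.comm v _ _ hψ f.2.1, A.comm v _ _ hψ f'.2.1]
      exact A.add v _ _ _ f.2.1 f'.2.1 hψ
  have b2 : l ⟨_, resm hb⟩ ≠ 0 :=
    (A.congr v _ _ _ _ (fun _ _ => rfl) fun g hg => if_pos hg).trans_ne b1
  have li4 : LinearIndependent (ZMod 2) ![f₁, f₂, f₃, ⟨_, resm hb⟩] := by
    refine Fintype.linearIndependent_iff.2 fun c e => ?_
    have e0 := congrArg (l.toZModLinearMap 2) e
    simp only [map_sum, map_smul] at e0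
    have e1 := fun g => congrFun (congrArg Subtype.val e) g
    have c3 : c 3 = 0 := by
      simpa [Fin.sum_univ_four, show l f₁ = 0 from s1, show l f₂ = 0 from s2, show l f₃ = 0 from s3,
        b2] using e0
    have c0 : c 0 = 0 := by simpa [Fin.sum_univ_four, p1, q1, q2, c3] using e1 g₁
    have c1 : c 1 = 0 := by simpa [Fin.sum_univ_four, p2, q3, c3, c0] using e1 g₂
    have c2 : c 2 = 0 := by simpa [Fin.sum_univ_four, p3, c3, c0, c1] using e1 g₃
    intro i
    fin_cases i <;> assumption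
  have := A.finH v
  have := Nat.pow_le_pow_right two_pos li4.fintype_card_le_finrank
  rw [natCard_eq_pow_finrank (K := ZMod 2), Nat.card_zmod] at hc
  simpa using this.trans hc

theorem card {L : Type} [Field L] [NumberField L] [IsCMField L] (hL : finrank ℚ L = 2)
    (v : Stark.Pr L) (sp : v.asIdeal.map (IsCMField.ringOfIntegersComplexConj L) ≠ v.asIdeal) :
    Ideal.absNorm v.asIdeal ^ (Stark.og v (2 : L)).toNat ≤ 2 := by
  have a : _ = Stark.og v (2 : L) := st_Cn.span (two_ne_zero (α := 𝓞 L)) v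
  have b := (st_Cn.le_pow (Ideal.span_singleton_eq_bot.not.2 (two_ne_zero (α := 𝓞 L))) v _).2 le_rfl
  rw [← a, Int.toNat_natCast]
  generalize cn _ v = n at b
  have b' := Ideal.map_mono (f := IsCMField.ringOfIntegersComplexConj L) b
  rw [Ideal.map_span, Set.image_singleton, map_ofNat, Ideal.map_pow] at b'
  have m := v.isMaximal
  have m' := m.map_bijective _ (IsCMField.ringOfIntegersComplexConj L).bijective
  have d := map_dvd Ideal.absNorm ((Ideal.isCoprime_iff_sup_eq.2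
    (m'.coprime_of_ne m sp)).pow.mul_dvd (Ideal.dvd_iff_le.2 b') (Ideal.dvd_iff_le.2 b))
  have e := Ideal.absNorm_span_natCast (S := 𝓞 L) 2
  rw [RingOfIntegers.rank, hL, Nat.cast_two] at e
  rw [e, map_mul, map_pow, map_pow] at d
  have le := Nat.le_of_dvd (by norm_num) d
  rcases n with _ | n
  · simp
  have h1 := Ideal.absNorm_eq_one_iff.not.2 m'.ne_top
  generalize Ideal.absNorm (v.asIdeal.map (IsCMField.ringOfIntegersComplexConj L)) = N at h1 d le
  have h0 : N ≠ 0 := by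
    rintro rfl
    simp at d
  have := Nat.pow_le_pow_left (show 2 ≤ N by omega) (n + 1)
  have := Nat.one_lt_two_pow (n := n + 1) n.succ_ne_zero
  nlinarith

end H1A

theorem h1s : H1St := by
  intro L _ _ _ hL 𝔓 h𝔓 _ sp χ hχ
  have F := SP.facts L (AlgebraicClosure L)
  obtain ⟨π, v, rfl⟩ := SP.exPlc' (K := L) h𝔓
  obtain ⟨A, a1, a2, -⟩ := F.ad π
  have hc := ((st_Card F.dict F.cj).card π v).trans_le (Nat.mul_le_mul_left 4 (H1A.card hL v
    fun e => sp (by
      rwa [SelTwo.Nonsplit, show (π.pr v).under (𝓞 L) = v.asIdeal from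
        Ideal.ext fun x => ((π.hov v).2 x).symm])))
  have : CompactSpace (π.D (.inl v)) := SP.cptD _
  change π.D (.inl v) →* _ at χ
  change ∀ g, χ g = (cyc L _ g.1 : ℤ_[2]) at hχ
  change H1 (G := π.D (.inl v)) χ
  rw [← a1] at hχ
  generalize π.D = D at *
  subst a2
  exact H1A.main A _ hc χ hχ

end Pool.Agent.SY
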