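import Pool.Agent.Lib.MP_b4b3cb_nt.SY.St2
import Pool.Agent.Lib.MP_b4b3cb_nt.HF.Cm

/-! Existence of formal points, and the torsion points in the supersingular case. -/

namespace Pool.Agent.SY

open WeierstrassCurve Pool.Agent.SelTwo Pool.Agent.HF
open Pool.Agent.Lib.MP_02f36d_nt (xc yc xc_two eqn)
open scoped Classical

theorem hen : HenSt := fun W R _ v h => by
  refine ⟨fun x hx => ?_, fun z hz => ?_⟩
  · have a : Ideal.span {v} ≤ Ideal.jacobson ⊥ := by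
      rw [Ideal.span_singleton_le_iff_mem, Ideal.mem_jacobson_bot]
      exact fun y => add_comm (1 : R) _ ▸ h.unit y
    have b := (Ideal.jacobson_mono a).trans (Ideal.jacobson_idem (I := ⊥)).le
      (Ideal.radical_le_jacobson hx)
    simpa [add_comm] using Ideal.mem_jacobson_bot.1 b 1
  obtain ⟨N, hN⟩ := id hz
  rw [Ideal.mem_span_singleton] at hN
  let T : R → R := fun w =>
    z ^ 3 + W.a₁ * z * w + W.a₂ * z ^ 2 * w + W.a₃ * w ^ 2 + W.a₄ * z * w ^ 2 + W.a₆ * w ^ 3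
  have t1 : ∀ a b, a - b ∣ T a - T b := fun a b => ⟨W.a₁ * z + W.a₂ * z ^ 2 + W.a₃ * (a + b) +
    W.a₄ * z * (a + b) + W.a₆ * (a ^ 2 + a * b + b ^ 2), by simp only [T]; ring⟩
  have t2 : ∀ a b, z ∣ a → z ∣ b → (a - b) * z ∣ T a - T b := by
    rintro _ _ ⟨a, rfl⟩ ⟨b, rfl⟩
    exact ⟨W.a₁ + W.a₂ * z + W.a₃ * (a + b) + W.a₄ * z * (a + b) +
      W.a₆ * z * (a ^ 2 + a * b + b ^ 2), by simp only [T]; ring⟩
  have d : ∀ n, z ∣ T^[n] 0 := fun n => by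
    induction n with
    | zero => simp
    | succ n ih =>
      obtain ⟨a, e⟩ := ih
      rw [Function.iterate_succ_apply', e]
      exact ⟨z ^ 2 + W.a₁ * z * a + W.a₂ * z ^ 2 * a + W.a₃ * z * a ^ 2 + W.a₄ * z ^ 2 * a ^ 2 +
        W.a₆ * z ^ 2 * a ^ 3, by simp only [T]; ring⟩
  have c : ∀ n, z ^ n ∣ T^[n + 1] 0 - T^[n] 0 := fun n => by
    induction n with
    | zero => simp
    | succ n ih =>
      have := t2 _ _ (d (n + 1)) (d n)
      rw [← Function.iterate_succ_apply' T, ← Function.iterate_succ_apply' T] at this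
      exact (pow_succ z n ▸ mul_dvd_mul_right ih z).trans this
  have c' : ∀ n m, z ^ n ∣ T^[n + m] 0 - T^[n] 0 := fun n m => by
    induction m with
    | zero => simp
    | succ m ih =>
      rw [← sub_add_sub_cancel _ (T^[n + m] 0)]
      exact ((pow_dvd_pow z (n.le_add_right m)).trans (c _)).add ih
  have e : ∀ n, v ^ n ∣ z ^ (N * n) := fun n => pow_mul z N n ▸ pow_dvd_pow_of_dvd hN n
  obtain ⟨l, hl⟩ := h.2 (fun n => T^[N * n] 0) fun n => (e n).trans (c' _ N)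
  refine ⟨⟨(z, l), hz, ?_, sub_eq_zero.1 (h.1 _ fun n => ?_)⟩, rfl⟩
  · rw [← sub_add_cancel l (T^[N * 1] 0)]
    exact add_mem (Ideal.le_radical (Ideal.mem_span_singleton.2 (pow_one v ▸ hl 1)))
      (Ideal.mem_of_dvd _ (d _) hz)
  · have := ((hl n).sub ((hl n).trans (t1 _ _))).sub ((e n).trans (c _))
    rw [Function.iterate_succ_apply'] at this
    convert this using 1
    simp only [T]
    ring

namespace Hen

theorem nadd {a b : ℂ_[2]} (h : ‖b‖ < ‖a‖) : ‖a + b‖ = ‖a‖ := by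
  rw [IsUltrametricDist.norm_add_eq_max_of_norm_ne_norm h.ne', max_eq_left h.le]

theorem le1 (x : OC) : ‖(x : ℂ_[2])‖ ≤ 1 := oc_mem.1 x.2

theorem n1 {a : ℂ_[2]} (h : ‖a‖ < 1) (r : OC) : ‖1 + a * r‖ = 1 := by
  rw [nadd, norm_one]
  rw [norm_one, norm_mul]
  exact (mul_le_of_le_one_right (norm_nonneg _) (le1 r)).trans_lt h

theorem dvd2 {y : OC} : 2 ∣ y ↔ ‖(y : ℂ_[2])‖ ≤ 2⁻¹ := oc_dvd.trans (by rw [← oc_two]; rfl)

theorem mem_rd {x : OC} : x ∈ rd (2 : OC) ↔ ‖(x : ℂ_[2])‖ < 1 := by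
  simp only [rd, Ideal.mem_radical_iff, Ideal.mem_span_singleton, dvd2, SubmonoidClass.coe_pow,
    norm_pow]
  refine ⟨fun ⟨n, h⟩ => lt_of_not_ge fun c => ?_, fun h => ?_⟩
  · have := (one_le_pow₀ c).trans h
    norm_num at this
  · exact (exists_pow_lt_of_lt_one (by norm_num) h).imp fun n e => e.le

end Hen

open Hen

theorem tor : TorSt := fun A _ z h m P Q p2 p0 d n => by
  have lt := fun P => mem_rd.1 (m P)
  have two : ∀ P, ∃ a b : ℂ_[2], ‖a‖ = 2⁻¹ ∧ ‖b‖ = ‖(z P : ℂ_[2])‖ ^ 3 ∧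
      (z (2 • P) : ℂ_[2]) = z P * (a + b) := fun P => by
    obtain ⟨r, s, e⟩ := h.two P
    refine ⟨2 * (1 + z P * r), z P ^ 3 * (1 + z P * s), ?_, ?_, ?_⟩
    · rw [norm_mul, n1 (lt P), oc_two, mul_one]
    · rw [norm_mul, n1 (lt P), norm_pow, mul_one]
    · rw [e]
      push_cast
      rw [show ((2 : OC) : ℂ_[2]) = 2 from rfl]
      ring
  have p3 : ‖(z P : ℂ_[2])‖ ^ 3 = 2⁻¹ := by
    obtain ⟨a, b, ha, hb, e⟩ := two P
    rw [p2, h.zero, ZeroMemClass.coe_zero, eq_comm, mul_eq_zero, ZeroMemClass.coe_eq_zero,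
      ← h.zero, add_eq_zero_iff_eq_neg] at e
    rw [← hb, ← ha, e.resolve_left fun c => p0 (h.inj c), norm_neg]
  have q : ‖(z Q : ℂ_[2])‖ = ‖(z P : ℂ_[2])‖ ^ 2 := by
    have a := dvd2.1 d
    rw [← norm_pow, ← add_sub_cancel ((z P : ℂ_[2]) ^ 2) (z Q)]
    refine nadd (lt_of_le_of_lt (by exact_mod_cast a) ?_)
    rw [norm_pow, ← p3]
    refine pow_lt_pow_right_of_lt_one₀ (norm_pos_iff.2 fun c => ?_) (lt P) (by norm_num)
    rw [c] at p3
    norm_num at p3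
  have key : 0 < ‖(z (2 ^ n • Q) : ℂ_[2])‖ ∧ ‖(z (2 ^ n • Q) : ℂ_[2])‖ ^ 3 < 2⁻¹ := by
    induction n with
    | zero =>
      have : ‖(z Q : ℂ_[2])‖ ^ 3 = 4⁻¹ := by
        rw [q, pow_right_comm, p3]
        norm_num
      rw [pow_zero, one_smul, this]
      refine ⟨norm_pos_iff.2 fun c => ?_, by norm_num⟩
      rw [c] at this
      norm_num at this
    | succ n ih =>
      obtain ⟨a, b, ha, hb, e⟩ := two (2 ^ n • Q)
      rw [pow_succ', mul_smul, e, norm_mul, nadd (by rw [ha, hb]; exact ih.2), ha, mul_pow]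
      exact ⟨by linarith [ih.1], by linarith [ih.2, pow_pos ih.1 3]⟩
  intro c
  simp [c, h.zero] at key

theorem fm : FmSt := fun W hΔ h1 => by
  obtain ⟨k, hk⟩ := h1
  have o3 : Odd W.a₃ := by
    rw [← Int.not_even_iff_odd] at hΔ ⊢
    rintro ⟨m, hm⟩
    have a : 2 ∣ W.b₂ := ⟨2 * k ^ 2 + 2 * W.a₂, by rw [b₂, hk]; ring⟩
    have b : 2 ∣ W.b₆ := ⟨2 * m ^ 2 + 2 * W.a₆, by rw [b₆, hm]; ring⟩
    obtain ⟨a, ha⟩ := a
    obtain ⟨b, hb⟩ := b
    exact hΔ ⟨-2 * a ^ 2 * W.b₈ - 4 * W.b₄ ^ 3 - 54 * b ^ 2 + 18 * a * W.b₄ * b, by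
      rw [Δ, ha, hb]; ring⟩
  refine ⟨o3, fun P n hP => ?_⟩
  obtain ⟨m, hm⟩ := o3
  by_cases p0 : P = 0
  · exact ⟨⟨(0, 0), zero_mem _, zero_mem _, by simp [Eqn]⟩, Or.inl ⟨rfl, p0⟩⟩
  have hx : 1 < ‖xc P‖ := by
    induction n generalizing P with
    | zero => exact absurd (by simpa using hP) p0
    | succ n ih =>
      refine lt_of_not_ge fun c => ?_
      obtain ⟨x, ex⟩ : ∃ x : OC, xc P = x := ⟨⟨_, oc_mem.2 c⟩, rfl⟩
      have d : ‖4 * xc P ^ 3 + (cv W ℂ_[2]).b₂ * xc P ^ 2 + 2 * (cv W ℂ_[2]).b₄ * xc P +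
          (cv W ℂ_[2]).b₆‖ = 1 := by
        rw [← n1 (a := 2) (by rw [oc_two]; norm_num) (2 * x ^ 3 + (2 * k ^ 2 + 2 * W.a₂ : ℤ) * x ^ 2 +
          W.b₄ * x + (2 * m ^ 2 + 2 * m + 2 * W.a₆ : ℤ)), ex]
        congr 1
        simp only [cv, baseChange, map_b₄, b₂, b₆]
        push_cast
        rw [show ((2 : OC) : ℂ_[2]) = 2 from rfl]
        simp [hk, hm]
        ring
      obtain ⟨a, b⟩ := xc_two p0 fun e => by
        refine zero_ne_one (norm_zero.symm.trans ((congrArg _ ?_).trans d))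
        simp only [b₂, b₄, b₆]
        linear_combination 4 * eqn p0 - (2 * yc P + (cv W ℂ_[2]).a₁ * xc P + (cv W ℂ_[2]).a₃) * e
      refine (ih (P + P) (by rw [← two_nsmul, ← mul_smul, ← pow_succ, hP]) a).not_ge ?_
      have := congrArg norm b
      rw [norm_mul, d, mul_one] at this
      rw [this, ex]
      refine (congrArg _ ?_).trans_le (le1 (x ^ 4 - W.b₄ * x ^ 2 - (2 * W.b₆ : ℤ) * x - W.b₈))
      push_cast
      simp [cv, baseChange, show ((2 : OC) : ℂ_[2]) = 2 from rfl]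
  have e : yc P ^ 2 + W.a₁ * xc P * yc P + W.a₃ * yc P =
      xc P ^ 3 + W.a₂ * xc P ^ 2 + W.a₄ * xc P + W.a₆ := by simpa [cv, baseChange] using eqn p0
  have n0 : P ≠ 0 := p0
  have i : ∀ (X Y : ℂ_[2]) (p : FP W (rd (2 : OC))), xc P = X → yc P = Y → (p.1.1 : ℂ_[2]) ≠ 0 →
      X * p.1.2 = p.1.1 → Y * p.1.2 = -1 → Pt (PadicComplexInt 2).subtype p.1 P :=
    fun X Y p a b c d f => Or.inr ⟨fun g => c (by simp [g]), n0, a ▸ d, b ▸ f⟩
  generalize hX : xc P = x at *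
  generalize hY : yc P = y at *
  have x0 : x ≠ 0 := norm_pos_iff.1 (zero_lt_one.trans hx)
  have xi : ‖x⁻¹‖ < 1 := by rw [norm_inv]; exact inv_lt_one_of_one_lt₀ hx
  have hy : ‖x‖ < ‖y‖ := lt_of_not_ge fun c => by
    obtain ⟨t, et⟩ : ∃ t : OC, y = x * t := ⟨⟨y / x, oc_mem.2 (by
      rw [norm_div]; exact div_le_one_of_le₀ c (norm_nonneg _))⟩, (mul_div_cancel₀ _ x0).symm⟩
    obtain ⟨u, eu⟩ : ∃ u : OC, x⁻¹ = u := ⟨⟨_, oc_mem.2 xi.le⟩, rfl⟩
    refine zero_ne_one (norm_zero.symm.trans ((congrArg _ ?_).trans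
      (n1 xi (W.a₂ + W.a₄ * u + W.a₆ * u ^ 2 - (t ^ 2 + W.a₁ * t + W.a₃ * t * u)))))
    push_cast
    rw [← eu]
    rw [et] at e
    field_simp
    linear_combination e
  have y1 := hx.trans hy
  have y0 : y ≠ 0 := norm_pos_iff.1 (zero_lt_one.trans y1)
  have a : ‖-x / y‖ < 1 := by
    rw [norm_div, norm_neg]; exact (div_lt_one (norm_pos_iff.2 y0)).2 hy
  have b : ‖-1 / y‖ < 1 := by
    rw [norm_div, norm_neg, norm_one]; exact (div_lt_one (norm_pos_iff.2 y0)).2 y1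
  refine ⟨⟨(⟨_, oc_mem.2 a.le⟩, ⟨_, oc_mem.2 b.le⟩), mem_rd.2 a, mem_rd.2 b, Subtype.ext ?_⟩,
    i x y _ rfl rfl (div_ne_zero (neg_ne_zero.2 x0) y0) ?_ ?_⟩
  · push_cast
    field_simp
    linear_combination -e
  · change x * (-1 / y) = -x / y
    ring
  · exact mul_div_cancel₀ _ y0

end Pool.Agent.SY
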