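import Pool.Agent.Lib.MP_b4b3cb_nt.SY.Ts
import Pool.Agent.Lib.MP_b4b3cb_nt.HF.Bd
import Pool.Agent.Lib.MP_b4b3cb_nt.HF.AcB

/-! The map from `A_cris` to `B_dR⁺` is injective. -/

namespace Pool.Agent.SY

open NumberField Matrix WittVector Ideal Pool.Agent.SelTwo Module Pool.Agent.HF Pool.Agent.HF.BdA
open scoped TensorProduct Topology Nat Classical

namespace InjA

/-- A finite combination of divided powers. -/
noncomputable def ps (a : ℕ → Ai) (M : ℕ) : A0 := ∑ n ∈ Finset.range M, a n • dx n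

theorem io_dx (m : ℕ) : (m ! : Bd) * io (dx m) = algebraMap Ai Bd xi ^ m := by
  have := congrArg io (dx_spec m)
  rwa [map_mul, map_natCast, map_pow, io_alg] at this

theorem unit_fac (m : ℕ) : IsUnit (m ! : Bd) := by
  simpa using (bi_nat m.factorial_ne_zero).map (algebraMap Bi Bd)

theorem dvd_dx {m n : ℕ} (h : m ≤ n) (c : Ai) : algebraMap Ai Bd xi ^ m ∣ io (c • dx n) := by
  rw [Algebra.smul_def, map_mul]
  refine Dvd.dvd.mul_left ?_ _
  rw [← (unit_fac n).dvd_mul_left, io_dx]
  exact pow_dvd_pow _ h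

theorem ex_ps (y : A0) : ∃ a M0, ∀ M, M0 ≤ M → y = ps a M := by
  obtain ⟨c, hc⟩ := Finsupp.mem_span_range_iff_exists_finsupp.1 (dx_span y)
  obtain ⟨M0, h0⟩ := Finset.exists_nat_subset_range c.support
  refine ⟨c, M0, fun M hM => ?_⟩
  rw [← hc, ps]
  exact Finsupp.sum_of_support_subset c (h0.trans (Finset.range_mono hM)) _ fun i _ => zero_smul _ _

theorem ps_dvd (a : ℕ → Ai) {m n : ℕ} (h : m ≤ n) :
    algebraMap Ai Bd xi ^ m ∣ io (ps a n) - io (ps a m) := by
  induction n, h using Nat.le_induction with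
  | base => simp
  | succ n h ih =>
    rw [ps, Finset.sum_range_succ, map_add, add_sub_right_comm]
    exact dvd_add ih (dvd_dx h _)

theorem key (a : ℕ → Ai) (M : ℕ) (h : algebraMap Ai Bd xi ^ M ∣ io (ps a M)) :
    ∃ b : Ai, ps a M = M * (b • dx M) := by
  induction M with
  | zero => exact ⟨0, by simp [ps]⟩
  | succ M ih =>
    obtain ⟨b, hb⟩ := ih (by
      have := dvd_sub ((pow_dvd_pow _ M.le_succ).trans h) (ps_dvd a M.le_succ)
      rwa [sub_sub_cancel] at this)
    have e : ps a (M + 1) = algebraMap Ai A0 (M * b + a M) * dx M := by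
      rw [ps, Finset.sum_range_succ, ← ps, hb, Algebra.smul_def, Algebra.smul_def, map_add, map_mul,
        map_natCast]
      ring
    have h1 : xi ^ (M + 1) ∣ xi ^ M * (M * b + a M) := k2' ((ac_dvd bd_ker).1 (by
      rw [← alg, ← alg, map_mul, map_pow, ← io_dx M, mul_assoc, (unit_fac M).dvd_mul_left,
        mul_comm, ← io_alg (M * b + a M), ← map_mul, ← e]
      exact h))
    rw [pow_succ, mul_dvd_mul_iff_left (pow_ne_zero _ xi_ne)] at h1
    obtain ⟨c, hc⟩ := h1
    refine ⟨c, ?_⟩
    have h2 : dx 1 = algebraMap Ai A0 xi := by simpa using dx_spec 1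
    have h3 := dx_mul M 1
    rw [Nat.choose_succ_self_right, h2] at h3
    rw [e, hc, map_mul, Algebra.smul_def]
    linear_combination algebraMap Ai A0 c * h3

theorem ker (F : Ac →+* La) (hF : ∀ y, (F (algebraMap A0 Ac y) : Bd) = io y) (x : Ac)
    (hx : F x = 0) : x = 0 := by
  refine ac2_cpl.1 x fun N => ?_
  obtain ⟨y, z, e⟩ := AcB.ac2_den x N
  obtain ⟨a, M0, ha⟩ := ex_ps y
  obtain ⟨M, hM⟩ : ∃ M, M = 2 ^ N * M0 := ⟨_, rfl⟩
  obtain ⟨w, hw⟩ := (F z).2 M
  obtain ⟨d, M1, hd⟩ := ex_ps w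
  have e1 : ps (fun n => a n + 2 ^ N * d n) M = y + 2 ^ N * ps d M := by
    rw [ha M (hM ▸ Nat.le_mul_of_pos_left _ (by positivity)), ps, ps, ps, Finset.mul_sum,
      ← Finset.sum_add_distrib]
    refine Finset.sum_congr rfl fun n _ => ?_
    simp only [Algebra.smul_def, map_add, map_mul, map_pow, map_ofNat]
    ring
  have e2 : io y + 2 ^ N * (F z : Bd) = 0 := by
    have := congrArg Subtype.val hx
    rw [e, map_add, map_mul, map_pow, map_ofNat] at this
    rw [← hF]
    exact this
  obtain ⟨b, hb⟩ := key (fun n => a n + 2 ^ N * d n) M (by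
    have h1 := ps_dvd d (Nat.le_add_right M M1)
    rw [← hd _ (Nat.le_add_left _ _)] at h1
    refine ((dvd_add hw h1).mul_left (-2 ^ N)).trans (dvd_of_eq ?_)
    rw [e1, map_add, map_mul, map_pow, map_ofNat]
    linear_combination -e2)
  have e3 := congrArg (algebraMap A0 Ac) (e1.symm.trans hb)
  rw [hM] at e3
  simp only [map_add, map_mul, map_pow, map_ofNat, map_natCast, Nat.cast_mul, Nat.cast_pow,
    Nat.cast_ofNat] at e3
  exact ⟨z + M0 * algebraMap A0 Ac (b • dx (2 ^ N * M0)) - algebraMap A0 Ac (ps d (2 ^ N * M0)), by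
    linear_combination e + e3⟩

end InjA

theorem inj : InjSt := by
  obtain ⟨F, hF⟩ := ac_lift (I := span {(2 : A0)}) rfl
    (io.codRestrict La fun z m => ⟨z, by simp⟩) la_cpl (by rw [map_ofNat])
  have h1 : ∀ a, (F (algebraMap Ai Ac a) : Bd) = algebraMap Ai Bd a := fun a => by
    rw [IsScalarTower.algebraMap_apply Ai A0 Ac, hF]
    exact io_alg a
  refine ⟨La.subtype.comp F, h1, fun σ u r s h hr hs x => ?_, fun f f' hf hf' x => ?_,
    (injective_iff_map_eq_zero _).2 fun x hx =>
      InjA.ker F (fun y => by rw [hF]; rfl) x (Subtype.ext hx)⟩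
  · obtain ⟨r0, h0⟩ := exOv0 (u := u) (by rw [th_ker.2 (xi_map h)]; exact dvd_zero _)
    have e := a0_ext (s.comp io) (io.comp r0) tf fun a => by
      rw [RingHom.comp_apply, RingHom.comp_apply, h0, io_alg, io_alg, hs]
    let s' : La →+* La := (s.comp La.subtype).codRestrict La fun y m => (y.2 m).elim fun z hz =>
      ⟨r0 z, by
        have := _root_.map_dvd s hz
        rw [map_pow, map_sub, show s (io z) = io (r0 z) from DFunLike.congr_fun e z] at this
        exact (pow_dvd_pow_of_dvd (x_map h hs) m).trans this⟩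
    exact congrArg Subtype.val (DFunLike.congr_fun (ac_uniq (F.comp r) (s'.comp F)
      (fun y k => Subtype.ext (tf _ (congrArg Subtype.val k))) la_cpl.1 fun a => Subtype.ext (by
        change (F (r _) : Bd) = s (F _)
        rw [hr, h1, h1, hs])) x)
  · obtain ⟨f0, h0⟩ := exTh0
    have e := a0_ext (f.comp io) ((PadicComplexInt 2).subtype.comp f0)
      (fun x k => (mul_eq_zero.1 k).resolve_left (by norm_num)) fun a => by
        rw [RingHom.comp_apply, RingHom.comp_apply, h0, io_alg, hf]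
        rfl
    let f1 : La →+* OC := (f.comp La.subtype).codRestrict (PadicComplexInt 2) fun y => by
      obtain ⟨z, w, hz⟩ := y.2 1
      have := congrArg f hz
      rw [map_sub, map_mul, pow_one, hf, txi, ZeroMemClass.coe_zero, zero_mul, sub_eq_zero,
        show f (io z) = f0 z from DFunLike.congr_fun e z] at this
      change f y ∈ _
      rw [this]
      exact (f0 z).2
    exact congrArg Subtype.val (DFunLike.congr_fun (ac_uniq (f1.comp F) f'
      (fun y k => (mul_eq_zero.1 k).resolve_left (by norm_num)) oc_cpl.1 fun a => Subtype.ext (by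
        change f (F _) = _
        rw [h1, hf, hf'])) x)

end Pool.Agent.SY
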