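import Pool.Agent.Lib.MP_b4b3cb_nt.SY.Ts

/-! Change of the model, semistable models, and good reduction at an odd place. -/

namespace Pool.Agent.SY

open Matrix WeierstrassCurve Polynomial
open Pool.Agent.Lib.MP_02f36d_nt

namespace Good

theorem vc_congr {F : Type} [Field F] [DecidableEq F] {U U' : Affine F} [Infinite U'.Point]
    {C C' : VariableChange F} (e : C = C') (h : C • U = U') (h' : C' • U = U') (P : U'.Point) :
    vcMap h P = vcMap h' P := by
  subst e
  rfl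

variable {Ω k : Type} [Field Ω] [Field k] {p : Place Ω k}

theorem scale {W : WeierstrassCurve Ω} (h1 : W.a₁ = 0) (h3 : W.a₃ = 0) (h6 : W.a₆ = 0) {u : Ω}
    (hu : u ≠ 0) {c d : k} (hc : Sp p (W.a₂ / u ^ 2) c) (hd : Sp p (W.a₄ / u ^ 4) d) :
    SpW p ((⟨Units.mk0 u hu, 0, 0, 0⟩ : VariableChange Ω) • W) ⟨0, c, 0, d, 0⟩ := by
  refine ⟨sp_zero.congr ?_ rfl, hc.congr ?_ rfl, sp_zero.congr ?_ rfl, hd.congr ?_ rfl,
    sp_zero.congr ?_ rfl⟩
  · simp [variableChange_a₁, h1]
  · simp [variableChange_a₂, div_eq_inv_mul]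
  · simp [variableChange_a₃, h3]
  · simp [variableChange_a₄, div_eq_inv_mul]
  · simp [variableChange_a₆, h6]

theorem tor2 [DecidableEq Ω] (h2 : (2 : k) ≠ 0) {V : Affine Ω} {U : Affine k} (s : SpW p V U)
    {P : V.Point} (hP : P ≠ 0) (h : 2 • P = 0) : xc P ∈ p.A := by
  by_contra hx
  have h0 : xc P ≠ 0 := fun e => hx (e ▸ zero_mem _)
  have a : P = -P := eq_neg_of_add_eq_zero_left (by rwa [two_nsmul] at h)
  have b := congrArg yc a
  rw [yc_neg hP] at b
  have ev := eval_Psi V (nonsing hP).1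
  simp only [Ψ₂Sq, eval_add, eval_mul, eval_C, eval_pow, eval_X] at ev
  rw [show 2 * yc P + V.a₁ * xc P + V.a₃ = 0 by linear_combination b] at ev
  have i := sp_inv_of_notMem hx
  have := ((((sp_ofNat 4).add (s.b₂.mul i)).add (((sp_ofNat 2).mul s.b₄).mul (i.pow 2))).add
    (s.b₆.mul (i.pow 3))).eq sp_zero (by field_simp; linear_combination ev)
  exact h2 (pow_eq_zero_iff two_ne_zero |>.1 (by linear_combination this))

end Good

open Good

theorem vc : VcSt := by
  intro F _ _ _ V C hΔ e he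
  have i1 := infinite_pt (V := V) (sep_of_c4 (Or.inr hΔ))
  have i2 := infinite_pt (V := (C • V).toAffine) (sep_of_c4 (Or.inr (by
    rw [variableChange_Δ]
    exact mul_ne_zero (pow_ne_zero _ (Units.ne_zero _)) hΔ)))
  have h0 : C • V = (C • V).toAffine := rfl
  have h1 : C⁻¹ • (C • V).toAffine = V := inv_smul_smul C V
  have a : ∀ P, vcMap h0 (vcMap h1 P) = P := vcMap_inv h0 h1
  have inj : Function.Injective (vcMap h0) :=
    (injective_iff_map_eq_zero _).2 fun P hP => by_contra fun z => (vcMap_spec h0 z).1 hP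
  refine ⟨em (vcMap h1) e, ⟨he.toTW.em _ fun P _ z => by rw [← a P, z, map_zero],
    fun Q q0 q1 => ?_⟩, fun σ h hC A hA => ?_⟩
  · obtain ⟨x, hx⟩ := he.all (fun n => vcMap h0 (Q n)) (by rw [q0, map_zero])
      fun n => by rw [← map_nsmul, q1]
    exact ⟨x, funext fun n => inj (by rw [em_apply, a, hx])⟩
  · have h' : (C • V).toAffine.map σ = C • V := by
      have := map_variableChange V C σ
      rw [hC, show WeierstrassCurve.map V σ = V from h] at this
      exact this.symm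
    refine ⟨h', hA.em _ fun P => inj ?_⟩
    have h2 : C.map σ • V = (C • V).toAffine := by rw [hC]
    rw [a, vc_congr hC.symm h0 h2, ← ptMap_vcMap h0 h2 h h', a]

theorem pot : PotSt := by
  intro Ω k _ _ _ p h2 V hΔ
  have t2 : (2 : Ω) ≠ 0 := (sp_ofNat (p := p) 2).ne_zero h2
  have t4 : (4 : Ω) ≠ 0 := by
    rw [show (4 : Ω) = 2 * 2 by norm_num]
    exact mul_ne_zero t2 t2
  have k16 : (16 : k) ≠ 0 := by
    rw [show (16 : k) = 2 ^ 4 by norm_num]
    exact pow_ne_zero _ h2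
  obtain ⟨r, hr⟩ := IsAlgClosed.exists_root
    (C 4 * X ^ 3 + C V.b₂ * X ^ 2 + C (2 * V.b₄) * X + C V.b₆ : Polynomial Ω)
    (by rw [degree_cubic t4]; decide)
  simp only [IsRoot, eval_add, eval_mul, eval_C, eval_pow, eval_X, b₂, b₄, b₆] at hr
  obtain ⟨C₀, h1, h3, h6⟩ : ∃ C₀ : VariableChange Ω,
      (C₀ • V).a₁ = 0 ∧ (C₀ • V).a₃ = 0 ∧ (C₀ • V).a₆ = 0 := by
    refine ⟨⟨1, r, -V.a₁ / 2, -(V.a₃ + r * V.a₁) / 2⟩, ?_, ?_, ?_⟩
    · simp only [variableChange_a₁]
      field_simp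
      ring
    · simp only [variableChange_a₃]
      field_simp
      ring
    · simp only [variableChange_a₆]
      refine mul_eq_zero_of_right _ ?_
      field_simp
      linear_combination hr
  have hb : (C₀ • V).a₄ ≠ 0 := fun z => by
    have : (C₀ • V).Δ = 0 := by simp [Δ, b₂, b₄, b₆, b₈, h1, h3, h6, z]
    rw [variableChange_Δ] at this
    exact mul_ne_zero (pow_ne_zero _ (Units.ne_zero _)) hΔ this
  obtain ⟨u, hu⟩ := IsAlgClosed.exists_pow_nat_eq (C₀ • V).a₄ (n := 4) (by norm_num)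
  have u0 : u ≠ 0 := fun z => hb (by rw [← hu, z]; simp)
  by_cases m : (C₀ • V).a₂ / u ^ 2 ∈ p.A
  · refine ⟨_ * C₀, _, by
      rw [mul_smul]
      exact scale h1 h3 h6 u0 (sp_of_mem m) (sp_one.congr (by rw [hu, div_self hb]) rfl), ?_⟩
    generalize p.ρ _ = c
    by_contra! H
    obtain ⟨H1, H2⟩ := H
    simp only [Δ, c₄, b₂, b₄, b₆, b₈] at H1 H2
    exact k16 (by linear_combination H1 - H2)
  · have a0 : (C₀ • V).a₂ ≠ 0 := fun z => m (by rw [z, zero_div]; exact zero_mem _)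
    obtain ⟨v, hv⟩ := IsAlgClosed.exists_pow_nat_eq (C₀ • V).a₂ (n := 2) (by norm_num)
    have v0 : v ≠ 0 := fun z => a0 (by rw [← hv, z]; simp)
    refine ⟨_ * C₀, _, by
      rw [mul_smul]
      exact scale h1 h3 h6 v0 (sp_one.congr (by rw [hv, div_self a0]) rfl)
        (((sp_inv_of_notMem m).pow 2).congr (by rw [← hu, ← hv]; field_simp) rfl), Or.inl ?_⟩
    simp only [c₄, b₂, b₄]
    exact fun H => k16 (by linear_combination H)

theorem good (fr : FrSt) : GoodSt := by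
  classical
  intro Ω k _ _ _ _ _ p hs h2 V U s hU e he σ φ q h A hc hφ hA
  obtain ⟨r, hr⟩ := exRed hs s hU
  have tw : TW (em r e) := he.em r fun P a b => by_contra fun z =>
    (b ▸ hr P).of_zero.resolve_left z (tor2 h2 s z a)
  have h' := hc.map_eq s h
  have m : Mt (em r e) (ptMap φ h') A := hA.em r fun P => (hr _).unique (hc.red h h' (hr P))
  refine ⟨fun q1 => tw.uniq (m.congr fun P => ?_) Mt.one, fun q1 => fr k U hU φ q q1 hφ h' _ tw A m⟩
  by_cases z : P = 0
  · rw [z, map_zero, id]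
  · exact pt_ext (ptMap_ne _ z) z (by rw [xc_ptMap, hφ, q1, pow_one, id])
      (by rw [yc_ptMap, hφ, q1, pow_one, id])

end Pool.Agent.SY
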