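import Pool.Agent.Lib.MP_b4b3cb_nt.SY.Ts
import Pool.Agent.Lib.MP_b4b3cb_nt.Frob

/-! The Tate module at the odd primes. -/

namespace Pool.Agent.SY

open NumberField Matrix WeierstrassCurve Pool.Agent.SelTwo
open Pool.Agent.Lib.MP_02f36d_nt (Place Sp SpW ptMap xc xc_ptMap sp_ofNat exists_node')
open scoped Classical

namespace L2

variable {L : Type} [Field L] [NumberField L] {𝔓 : Idl L} {k : Type} [Field k]
  {p : Place (AlgebraicClosure L) k}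

theorem two (h : IsPl 𝔓 p) (h2 : 2 ∉ 𝔓) : (2 : k) ≠ 0 := fun z => by
  obtain ⟨c, a, b⟩ := h.int 2
  exact h2 (b.1 ((a.unique (sp_ofNat 2)).trans z))

theorem int (h : IsPl 𝔓 p) {n : ℤ} (hn : (n : 𝓞 (AlgebraicClosure L)) ∉ 𝔓) : (n : k) ≠ 0 :=
  fun z => by
  obtain ⟨c, a, b⟩ := h.int n
  have s : Sp p (n : AlgebraicClosure L) (n : k) := ⟨intCast_mem _ n, map_intCast p.ρ n⟩
  exact hn (b.1 ((a.unique s).trans z))

omit [NumberField L] in
theorem fb {g : Gal L} (hg : g ∈ Ine 𝔓) : Fb 𝔓 1 (g : _ →+* _) := fun x y e => by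
  have : y = g • x := RingOfIntegers.ext e
  rw [this, pow_one]
  exact hg x

theorem cyc_one (h2 : 2 ∉ 𝔓) {g : Gal L} (hg : g ∈ Ine 𝔓) : cyc ℚ_[2] g = 1 := by
  have := SC.FrobAux.cyc_fr (K := L) (n := 1) (g := g) h2 fun x => by
    rw [pow_one]; exact hg x
  have e : cyc ℚ_[2] g = ((SC.cyc L (AlgebraicClosure L) g : ℤ_[2]) : ℚ_[2]) := rfl
  rw [e, this]
  simp

omit [NumberField L] in
theorem vc_fix {C : VariableChange (AlgebraicClosure L)} {g : Gal L}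
    (h : ∀ s ∈ ({(C.u : AlgebraicClosure L), C.r, C.s, C.t} : Finset _), g s = s) :
    C.map (g : _ →+* _) = C :=
  VariableChange.ext (Units.ext (h _ (by simp))) (h _ (by simp)) (h _ (by simp)) (h _ (by simp))

theorem det_eq {A : M2 ℤ_[2]} {q : ℕ} (h : (tq A).det = q) : A.det = q := by
  rw [tq_det] at h
  exact Subtype.val_injective (by simpa using h)

end L2

open L2

theorem l1 (hP : PlcSt) (hG : GoodSt) : L1St := by
  intro L _ _ W e he 𝔓 hm h2 hΔ σ q A hq hF hA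
  obtain ⟨k, _, _, p, pl⟩ := hP L 𝔓 hm
  obtain ⟨φ, a, b⟩ := pl.fr σ q hq hF
  refine hG _ k p pl.sur (two pl h2) _ _ (spW_cv p W) ?_ e he σ φ q (cv_map W σ) A b a hA
  simpa [cv, baseChange] using int pl hΔ

theorem l2 (hP : PlcSt) (hU : UnSt) (hV : VcSt) (hO : PotSt) (hG : GoodSt) (hM : MultSt)
    (hR : RamSt) : L2St := by
  intro L _ _ W hΔ e he t ht hd 𝔓 hm h2
  obtain ⟨k, _, _, p, pl⟩ := hP L 𝔓 hm
  have k2 := two pl h2
  have h0 : (cv W (AlgebraicClosure L)).Δ ≠ 0 := cv_Δ hΔ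
  obtain ⟨C, U, sp, ss⟩ := hO _ k p k2 _ h0
  obtain ⟨e', he', H⟩ := hV _ _ C h0 e he
  have h1 : (C • cv W (AlgebraicClosure L)).Δ ≠ 0 := by
    rw [variableChange_Δ]
    exact mul_ne_zero (pow_ne_zero _ (Units.ne_zero _)) h0
  obtain ⟨g, gD, q, q1, gF, gc, gS⟩ := (hU L 𝔓 hm h2 {C.u.1, C.r, C.s, C.t}).1
  obtain ⟨φ, a, b⟩ := pl.fr _ q (by omega) gF
  obtain ⟨h', m'⟩ := H _ (cv_map W _) (vc_fix gS) _ (ht g)
  by_cases z : U.Δ = 0
  swap
  · obtain ⟨c, hc⟩ := (hG _ k p pl.sur k2 _ U sp z e' he'.toTW _ φ q h' _ b a m').2 q1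
    exact Or.inl ⟨g, gD, c, q, q1, hc⟩
  have c4 := ss.resolve_right (not_not.2 z)
  obtain ⟨x₀, y₀, α, nd⟩ := exists_node' z c4
  obtain ⟨x, hx, M⟩ := hM _ k p pl.sur k2 _ U sp h1 _ _ _ _ nd e' he'
  obtain ⟨r, β, hβ, sβ, R⟩ := hR _ k p pl.sur k2 _ U sp h1 z c4
  choose P m c hP hc sc using R
  obtain ⟨i, iI, iS, n, hn⟩ := (hU L 𝔓 hm h2 (insert r {C.u.1, C.r, C.s, C.t})).2 k p pl β
    (fun n => xc (P n) - r) hβ sβ fun n => ⟨c n, hc n, sc n⟩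
  obtain ⟨ψ, a', b'⟩ := pl.fr _ 1 one_pos (fb iI)
  obtain ⟨h'', m''⟩ := H _ (cv_map W _) (vc_fix fun s hs => iS s (Finset.mem_insert_of_mem hs)) _
    (ht i)
  refine Or.inr ⟨x, hx, ⟨i, Ideal.inertia_le_stabilizer _ iI, fun o => hn ?_, ?_, ?_⟩, g, gD, q, ?_⟩
  · obtain ⟨y, hy⟩ := he'.sur (half h1) (hP n)
    have e1 := m'' y (m n)
    rw [o, one_mulVec, hy] at e1
    have e2 := congrArg xc e1
    rw [xc_ptMap] at e2
    rw [map_sub, iS r (Finset.mem_insert_self _ _)]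
    exact congrArg (· - r) e2.symm
  · have := det_eq (q := 1) (A := t i) (by rw [hd, cyc_one h2 iI, Nat.cast_one])
    rwa [Nat.cast_one] at this
  · simpa using (M _ ψ 1 h'' _ b' a' m'').1 (by rw [a', pow_one])
  · have d := det_eq ((hd g).trans gc)
    by_cases f : φ α = α
    · exact ⟨1, q1, Or.inl rfl, d, by simpa using (M _ φ q h' _ b a m').1 f⟩
    · exact ⟨-1, q1, Or.inr rfl, d, by simpa using (M _ φ q h' _ b a m').2 f⟩

end Pool.Agent.SY
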