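import Pool.Agent.Lib.MP_b4b3cb_nt.SY.Ts
import Pool.Agent.Lib.MP_b4b3cb_nt.Eps.Loc

/-! The place of a prime of the algebraic closure; Frobenius and inertia elements. -/

namespace Pool.Agent.SY

open NumberField IsDedekindDomain Polynomial Pool.Agent.SelTwo
open Pool.Agent.Lib.MP_02f36d_nt (Place Sp OV mem_OV isAlgClosed_residue sp_of_mem sp_one sp_zero
  sp_inv_of_notMem)

namespace Plc

section

variable {Ω k : Type} [Field Ω] [Field k] {𝔓 : Ideal (𝓞 Ω)} {p : Place Ω k}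

/-- The localisation at `𝔓`. -/
def loc (h : 𝔓.IsPrime) (f : ∀ t : Ω, ∃ α β : 𝓞 Ω, t * β = α ∧ (α ∉ 𝔓 ∨ β ∉ 𝔓)) :
    ValuationSubring Ω where
  carrier := {t | ∃ α β : 𝓞 Ω, β ∉ 𝔓 ∧ t * β = α}
  mul_mem' := by
    rintro a b ⟨α, β, h1, h2⟩ ⟨γ, δ, k1, k2⟩
    exact ⟨α * γ, β * δ, h.mul_notMem h1 k1, by
      simp only [RingOfIntegers.val, map_mul] at *; rw [← h2, ← k2]; ring⟩
  one_mem' := ⟨1, 1, h.one_notMem, one_mul _⟩
  add_mem' := by
    rintro a b ⟨α, β, h1, h2⟩ ⟨γ, δ, k1, k2⟩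
    exact ⟨α * δ + γ * β, β * δ, h.mul_notMem h1 k1, by
      simp only [RingOfIntegers.val, map_mul, map_add] at *; rw [← h2, ← k2]; ring⟩
  zero_mem' := ⟨0, 1, h.one_notMem, by simp⟩
  neg_mem' := by
    rintro a ⟨α, β, h1, h2⟩
    exact ⟨-α, β, h1, by simp only [RingOfIntegers.val, map_neg] at *; rw [← h2]; ring⟩
  mem_or_inv_mem' t := by
    obtain ⟨α, β, e, h1 | h1⟩ := f t
    · have : t ≠ 0 := fun z => h1 (by
        rw [z, zero_mul, eq_comm, RingOfIntegers.coe_eq_zero_iff] at e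
        exact e ▸ zero_mem _)
      exact Or.inr ⟨β, α, h1, by rw [← e, inv_mul_cancel_left₀ this]⟩
    · exact Or.inl ⟨α, β, h1, e⟩

variable (I : ∀ x : 𝓞 Ω, ∃ c, Sp p x c ∧ (c = 0 ↔ x ∈ 𝔓))
include I

theorem sp0 {x : 𝓞 Ω} : Sp p x 0 ↔ x ∈ 𝔓 := by
  obtain ⟨c, h1, h2⟩ := I x
  exact ⟨fun h => h2.1 (h1.unique h), fun h => h2.2 h ▸ h1⟩

theorem mem_of {t : Ω} {α β : 𝓞 Ω} (h : β ∉ 𝔓) (e : t * β = α) : t ∈ p.A := by
  obtain ⟨a, h1, -⟩ := I α
  obtain ⟨b, k1, k2⟩ := I β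
  have b0 : b ≠ 0 := fun z => h (k2.1 z)
  rw [eq_div_of_mul_eq (k1.ne_zero b0) e]
  exact (h1.div k1 b0).mem

theorem ov_mem {F : Type} [Field F] [NumberField F] [Algebra F Ω] {w : HeightOneSpectrum (𝓞 F)}
    (h : ∀ x, x ∈ w.asIdeal ↔ algebraMap (𝓞 F) (𝓞 Ω) x ∈ 𝔓) (x : F) :
    algebraMap F Ω x ∈ p.A ↔ x ∈ OV w := by
  refine ⟨fun m => by_contra fun hx => ?_, fun m => ?_⟩
  · obtain ⟨n, d, h1, h2⟩ := (mem_OV w _).1 (((OV w).mem_or_inv_mem x).resolve_left hx)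
    have x0 : x ≠ 0 := fun z => hx (z ▸ zero_mem _)
    have e : x * n = d := by rw [← h2, mul_inv_cancel_left₀ x0]
    have hn : n ∈ w.asIdeal := by_contra fun hn => hx ((mem_OV w x).2 ⟨d, n, hn, e⟩)
    refine h1 ((h d).2 ((sp0 I).1 (((sp_of_mem m).mul ((sp0 I).2 ((h n).1 hn))).congr ?_
      (mul_zero _))))
    exact (map_mul (algebraMap F Ω) x n).symm.trans (congrArg _ e)
  · obtain ⟨n, d, h1, h2⟩ := (mem_OV w x).1 m
    exact mem_of I (α := algebraMap _ _ n) (mt (h d).2 h1)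
      ((map_mul (algebraMap F Ω) x d).symm.trans (congrArg _ h2))

end

end Plc

open Plc in
theorem plc : PlcSt := by
  intro L _ _ 𝔓 h
  have T := (SP.facts L (AlgebraicClosure L)).pr
  let A := loc h.isPrime fun t => by
    obtain ⟨α, β, h1, -, h2, -⟩ := T.frac h t
    exact ⟨α, β, h1, h2⟩
  let p : Place (AlgebraicClosure L) (IsLocalRing.ResidueField A) :=
    ⟨A, IsLocalRing.residue A, fun x => (IsLocalRing.residue_ne_zero_iff_isUnit x).1⟩
  have I : ∀ x : 𝓞 (AlgebraicClosure L), ∃ c, Sp p x c ∧ (c = 0 ↔ x ∈ 𝔓) := fun x => by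
    have m : (x : AlgebraicClosure L) ∈ p.A := ⟨x, 1, h.isPrime.one_notMem, mul_one _⟩
    refine ⟨_, sp_of_mem m, not_iff_not.1 ⟨fun e hx => ?_, fun hx => ?_⟩⟩
    · obtain ⟨α, β, h1, h2⟩ := ((sp_of_mem m).inv e).mem
      refine h1 ((RingOfIntegers.ext ?_ : x * α = β) ▸ 𝔓.mul_mem_right α hx)
      exact (congrArg _ h2.symm).trans (mul_inv_cancel_left₀ ((sp_of_mem m).ne_zero e) _)
    · have x0 : (x : AlgebraicClosure L) ≠ 0 := fun z =>
        hx (RingOfIntegers.coe_eq_zero_iff.1 z ▸ zero_mem _)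
      have m' : (x : AlgebraicClosure L)⁻¹ ∈ p.A := ⟨1, x, hx, inv_mul_cancel₀ x0⟩
      exact left_ne_zero_of_mul_eq_one
        (((sp_of_mem m).mul (sp_of_mem m')).eq sp_one (mul_inv_cancel₀ x0))
  have sur : Function.Surjective p.ρ := IsLocalRing.residue_surjective
  refine ⟨_, _, isAlgClosed_residue A, p, sur, I, fun σ n n0 hσ => ?_,
    fun w hw => ov_mem I fun x => by rw [← hw]; rfl, fun c => ?_⟩
  · have a : ∀ (x : 𝓞 (AlgebraicClosure L)) c, Sp p x c → Sp p (σ x) (c ^ n) := fun x c hx =>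
      (((sp0 I).2 (hσ x (RingOfIntegers.mapRingHom σ x) rfl)).add (hx.pow n)).congr
        (by simp) (zero_add _)
    have b : ∀ x c, Sp p x c → Sp p (σ x) (c ^ n) := fun x c hx => by
      obtain ⟨α, β, h1, h2⟩ := hx.mem
      obtain ⟨d, k1, k2⟩ := I β
      have d0 : d ≠ 0 := fun z => h1 (k2.1 z)
      refine ((a α _ ((hx.mul k1).congr h2 rfl)).div (a β d k1) (pow_ne_zero n d0)).congr ?_ ?_
      · rw [← h2, map_mul, mul_div_cancel_right₀ _ ((map_ne_zero σ).2 (k1.ne_zero d0))]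
      · rw [mul_pow, mul_div_cancel_right₀ _ (pow_ne_zero n d0)]
    refine ⟨⟨⟨⟨(· ^ n), one_pow n⟩, fun x y => mul_pow x y n⟩, zero_pow n0.ne', fun x y => ?_⟩,
      fun _ => rfl, b⟩
    obtain ⟨x, rfl⟩ := sur x
    obtain ⟨y, rfl⟩ := sur y
    exact (b _ _ ((sp_of_mem x.2).add (sp_of_mem y.2))).eq
      ((b _ _ (sp_of_mem x.2)).add (b _ _ (sp_of_mem y.2))) (map_add σ _ _)
  · obtain ⟨q, hq⟩ := T.under L 𝔓 h
    have e : 𝔓.under (𝓞 L) = q.asIdeal := Ideal.ext fun x => (hq.2 x).symm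
    have := q.isMaximal
    have := Ideal.finiteQuotientOfFreeOfNeBot _ q.ne_bot
    letI := Ideal.Quotient.field q.asIdeal
    have m : ∀ x : 𝓞 L, algebraMap L (AlgebraicClosure L) x ∈ p.A := fun x =>
      (I (algebraMap _ _ x)).choose_spec.1.mem
    let ψ₀ : 𝓞 L →+* IsLocalRing.ResidueField A :=
      p.ρ.comp (((algebraMap L (AlgebraicClosure L)).comp (algebraMap (𝓞 L) L)).codRestrict _ m)
    let ψ := Ideal.Quotient.lift q.asIdeal ψ₀ fun x hx =>
      (sp_of_mem (m x)).unique ((sp0 I).2 ((hq.2 x).1 hx))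
    have n : nq 𝔓 = Nat.card (𝓞 L ⧸ q.asIdeal) := by
      rw [nq, e, Ideal.absNorm_apply, Submodule.cardQuot_apply]
    rw [n]
    refine ⟨fun hc => ?_, ?_⟩
    · obtain ⟨x, rfl⟩ := splits_X_pow_nat_card_sub_X.mem_range_of_isRoot
        (FiniteField.X_pow_card_sub_X_ne_zero _ Finite.one_lt_card) (i := ψ) (x := c)
        (by simp [hc])
      obtain ⟨x, rfl⟩ := Ideal.Quotient.mk_surjective x
      exact ⟨x, sp_of_mem (m x)⟩
    · rintro ⟨x, hx⟩
      have := Fintype.ofFinite (𝓞 L ⧸ q.asIdeal)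
      rw [hx.unique (sp_of_mem (m x)), Nat.card_eq_fintype_card]
      exact (map_pow ψ (Ideal.Quotient.mk _ x) _).symm.trans (congrArg ψ (FiniteField.pow_card _))

open Plc Pool.Agent.Stark in
theorem un : UnSt := by
  classical
  intro L _ _ 𝔓 h h2 S
  have T := SP.facts L (AlgebraicClosure L)
  have fd : ∀ S : Finset (AlgebraicClosure L),
      NumberField (IntermediateField.adjoin L (S : Set (AlgebraicClosure L))) := fun S =>
    have := IntermediateField.finiteDimensional_adjoin (K := L) (S := (S : Set (AlgebraicClosure L)))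
      fun x _ => Algebra.IsIntegral.isIntegral x
    NumberField.of_module_finite L _
  refine ⟨?_, fun k _ p P b y b0 hb hy => ?_⟩
  · have := fd S
    obtain ⟨q, hq⟩ := T.pr.under (IntermediateField.adjoin L (S : Set (AlgebraicClosure L))) 𝔓 h
    obtain ⟨g, h1, h3⟩ := T.fr.ex hq
    have q1 := NumberField.HeightOneSpectrum.one_lt_absNorm q
    refine ⟨g, T.fr.dec h (by omega) h3, _, q1, fun x z e => ?_, ?_, fun s hs =>
      h1 ⟨s, IntermediateField.subset_adjoin _ _ hs⟩⟩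
    · exact (RingOfIntegers.ext e : z = g • x) ▸ h3 x
    · exact (congrArg Subtype.val (T.fr.cyc_fr h h2 h3)).trans (by simp)
  · have := fd (insert b S)
    set F := IntermediateField.adjoin L ((insert b S : Finset _) : Set (AlgebraicClosure L))
    obtain ⟨q, hq⟩ := T.pr.under F 𝔓 h
    let b' : F := ⟨b, IntermediateField.subset_adjoin _ _ (Finset.mem_insert_self _ _)⟩
    have b1 : b' ≠ 0 := fun z => b0 (congrArg Subtype.val z)
    have ov : ∀ x : F, 0 ≤ og q x → (x : AlgebraicClosure L) ∈ p.A := fun x hx =>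
      (ov_mem P.int hq.2 x).2 (by
        simpa using (mem_pw (w := q.valuation F) (j := 0)).1 (mem_pw_iff.2 (Or.inr hx)))
    obtain ⟨m, hm⟩ : ∃ m : ℕ, og q b' = (m + 1 : ℕ) := by
      refine ⟨(og q b' - 1).toNat, by_contra fun e => ?_⟩
      have := (hb.mul (sp_of_mem (ov b'⁻¹ (by rw [og, ord_inv]; rw [og] at e; omega)))).eq sp_one
        (mul_inv_cancel₀ b0)
      simp at this
    obtain ⟨ϖ, hϖ⟩ := q.valuation_exists_uniformizer F
    have ϖ1 : og q ϖ = 1 := by simp [og, ord, hϖ]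
    have ϖ0 : ϖ ≠ 0 := fun z => by simp [z, og] at ϖ1
    have hN : ((2 ^ (m + 1 + 1) : ℕ) : 𝓞 (AlgebraicClosure L)) ∉ 𝔓 := fun e =>
      h2 (h.isPrime.mem_of_pow_mem _ (by simpa using e))
    obtain ⟨α, hα⟩ := IsAlgClosed.exists_pow_nat_eq (algebraMap F (AlgebraicClosure L) ϖ)
      (n := 2 ^ (m + 1 + 1)) (by positivity)
    obtain ⟨t, ht, η, η1, η2⟩ := EP.sur hq ϖ1 hN hα
    refine ⟨t.restrictScalars L, ht, fun s hs => t.commutes
      ⟨s, IntermediateField.subset_adjoin _ _ (Finset.mem_insert_of_mem hs)⟩, m + 1, fun e => ?_⟩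
    replace e : t (y (m + 1)) = y (m + 1) := e
    obtain ⟨c, c0, hc⟩ := hy (m + 1)
    generalize y (m + 1) = z at e hc
    have v0 : b' / ϖ ^ (m + 1) ≠ 0 := div_ne_zero b1 (pow_ne_zero _ ϖ0)
    have v1 : og q (b' / ϖ ^ (m + 1)) = 0 := by
      rw [og] at hm ϖ1
      rw [og, ord_div b1 (pow_ne_zero _ ϖ0), ord_pow, hm, ϖ1, mul_one, sub_self]
    have s1 := sp_of_mem (ov _ v1.ge)
    have s2 := sp_of_mem (ov _ (show 0 ≤ og q (b' / ϖ ^ (m + 1))⁻¹ by
      rw [og] at v1; rw [og, ord_inv, v1, neg_zero]))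
    have s3 := (hc.mul s1).congr (y := (z / α ^ (m + 1)) ^ 2 ^ (m + 1 + 1)) (by
      rw [div_pow, pow_right_comm α, hα]
      exact div_mul_div_cancel₀ b0) rfl
    have d0 := mul_ne_zero c0 (left_ne_zero_of_mul_eq_one ((s1.mul s2).eq sp_one
      (congrArg Subtype.val (mul_inv_cancel₀ v0))))
    generalize c * _ = d at s3 d0
    have u0 : z / α ^ (m + 1) ≠ 0 := fun z => s3.ne_zero d0 (by rw [z]; simp)
    have mu : z / α ^ (m + 1) ∈ p.A := by_contra fun hu => by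
      have := (s3.mul ((sp_inv_of_notMem hu).pow (2 ^ (m + 1 + 1)))).eq sp_one
        (by rw [← mul_pow, mul_inv_cancel₀ u0, one_pow])
      simp at this
    have s4 := sp_of_mem mu
    generalize p.ρ _ = u at s4
    have u1 : u ≠ 0 := fun z => d0 (by simpa [z] using s3.unique (s4.pow _))
    obtain ⟨φ, φ1, φ2⟩ := P.fr (t : _ →+* _) 1 one_pos fun x z e => by
      rw [pow_one]
      exact (RingOfIntegers.ext e : z = t • x) ▸ ht x
    obtain ⟨a, a1, -⟩ := P.int η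
    have η0 : (η : AlgebraicClosure L) ≠ 0 :=
      RingOfIntegers.coe_ne_zero_iff.2 (η1.ne_zero (by positivity))
    have s5 := ((a1.pow (m + 1)).mul (φ2 _ _ s4)).eq s4 (by
      rw [RingHom.coe_coe, map_div₀, map_pow, e, η2, mul_pow]
      field_simp)
    rw [φ1, pow_one, mul_eq_right₀ u1] at s5
    have := EP.eq_of_pow h.isPrime (a := η ^ (m + 1)) (b := 1)
      (by rw [pow_right_comm, η1.pow_eq_one, one_pow]) (one_pow _) hN
      ((sp0 P.int).1 (((a1.pow (m + 1)).sub sp_one).congr (by simp) (by rw [s5, sub_self])))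
    exact (Nat.le_of_dvd m.succ_pos (η1.dvd_of_pow_eq_one _ this)).not_gt
      ((Nat.lt_succ_self _).trans Nat.lt_two_pow_self)

end Pool.Agent.SY
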