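import Pool.Agent.Lib.MP_b4b3cb_nt.SY.St3
import Pool.Agent.Lib.MP_b4b3cb_nt.SY.L2
import Pool.Agent.Lib.MP_b4b3cb_nt.SY.Plc
import Pool.Agent.Lib.MP_b4b3cb_nt.SY.Good
import Pool.Agent.Lib.MP_b4b3cb_nt.SY.Fr
import Pool.Agent.Lib.MP_b4b3cb_nt.SY.Fr1

/-! Potentially good reduction. -/

namespace Pool.Agent.SY

open NumberField IsDedekindDomain Matrix WeierstrassCurve Pool.Agent.SelTwo
open Pool.Agent.Lib.MP_02f36d_nt (Place Sp SpW OV sp_ofNat sp_of_mem sp_one sp_zero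
  sp_inv_of_notMem)
open scoped Classical

namespace L4a

section

variable {Ω k : Type} [Field Ω] [Field k] {p : Place Ω k}

theorem mem_pow {x : Ω} {n : ℕ} (hn : n ≠ 0) (h : x ^ n ∈ p.A) : x ∈ p.A := by
  by_contra c
  have x0 : x ≠ 0 := fun e => c (e ▸ zero_mem _)
  have := ((sp_of_mem h).mul ((sp_inv_of_notMem c).pow n)).eq sp_one
    (by rw [← mul_pow, mul_inv_cancel₀ x0, one_pow])
  simp [hn] at this

theorem root_one {ζ : Ω} {n : ℕ} (hn : (n : k) ≠ 0) (h : ζ ^ n = 1) (s : Sp p ζ 1) : ζ = 1 := by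
  by_contra c
  have a : ∀ m : ℕ, Sp p (∑ i ∈ Finset.range m, ζ ^ i) m := fun m => by
    induction m with
    | zero => simpa using sp_zero
    | succ m ih => simpa [Finset.sum_range_succ] using ih.add (s.pow m)
  have b := geom_sum_mul ζ n
  rw [h, sub_self] at b
  exact hn ((a n).eq sp_zero ((mul_eq_zero.1 b).resolve_right (sub_ne_zero.2 c)))

end

variable {L : Type} [Field L] [NumberField L] {𝔓 : Idl L} {k : Type} [Field k]
  {p : Place (AlgebraicClosure L) k} {w : HeightOneSpectrum (𝓞 L)}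

/-- An element of inertia that fixes a root of a uniformiser fixes the roots of all elements. -/
theorem fix (hp : IsPl 𝔓 p) (hw : 𝔓.under _ = w.asIdeal) {N : ℕ} (hN : (N : k) ≠ 0) {ϖ x : L}
    {β u : AlgebraicClosure L} (h1 : w.valuation L ϖ = WithZero.exp (-1))
    (hβ : β ^ N = algebraMap L _ ϖ) (x0 : x ≠ 0) (hu : u ^ N = algebraMap L _ x) {g : Gal L}
    (hg : g ∈ Ine 𝔓) (gβ : g β = β) : g u = u := by
  have N0 : N ≠ 0 := fun e => hN (by simp [e])
  have ϖ0 : ϖ ≠ 0 := fun e => WithZero.exp_ne_zero (by rw [← h1, e, map_zero])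
  have β0 : β ≠ 0 := fun e => ϖ0 (by simpa [e, N0] using hβ.symm)
  have u0 : u ≠ 0 := fun e => x0 (by simpa [e, N0] using hu.symm)
  obtain ⟨n, hn⟩ : ∃ n : ℤ, w.valuation L (x * ϖ ^ n) = 1 :=
    ⟨WithZero.log (w.valuation L x), by
      rw [map_mul, map_zpow₀, h1, ← WithZero.exp_zsmul, ← WithZero.exp_log
        ((_root_.map_ne_zero _).2 x0 : w.valuation L x ≠ 0), ← WithZero.exp_add]
      simp⟩
  have e : (u * β ^ n) ^ N = algebraMap L _ (x * ϖ ^ n) := by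
    rw [mul_pow, ← zpow_natCast (β ^ n), ← _root_.zpow_mul, mul_comm n, _root_.zpow_mul,
      zpow_natCast, hβ, hu, map_mul, map_zpow₀]
  have v0 : u * β ^ n ≠ 0 := mul_ne_zero u0 (zpow_ne_zero _ β0)
  have a := sp_of_mem (p := p) (mem_pow N0 (e ▸ (hp.ov w hw _).2 hn.le))
  have b := sp_of_mem (p := p) (x := (u * β ^ n)⁻¹) (mem_pow N0 (by
    rw [inv_pow, e, ← map_inv₀]
    exact (hp.ov w hw _).2 (show w.valuation L _ ≤ 1 by rw [map_inv₀, hn, inv_one])))
  obtain ⟨φ, f1, f2⟩ := hp.fr _ 1 one_pos (L2.fb hg)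
  have c := (f2 _ _ a).mul b
  rw [f1, pow_one, (a.mul b).eq sp_one (mul_inv_cancel₀ v0)] at c
  have d := root_one hN (by
    rw [mul_pow, ← map_pow, inv_pow, e, RingHom.coe_coe, g.commutes, ← e,
      mul_inv_cancel₀ (pow_ne_zero _ v0)]) c
  rw [mul_inv_eq_one₀ v0, RingHom.coe_coe, map_mul, map_zpow₀, gβ] at d
  exact mul_right_cancel₀ (zpow_ne_zero _ β0) d

end L4a

open L4a in
theorem l4a : L4aSt := by
  intro L _ _ W hΔ e he t ht 𝔓 hm h2 h3 w hw ϖ β h1 hβ hj g hg gβ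
  obtain ⟨k, _, _, p, pl⟩ := plc L 𝔓 hm
  have k2 := L2.two pl h2
  have k3 : (3 : k) ≠ 0 := by simpa using L2.int pl (n := 3) (by simpa using h3)
  have h0 : (cv W (AlgebraicClosure L)).Δ ≠ 0 := cv_Δ hΔ
  obtain ⟨u, hu⟩ := IsAlgClosed.exists_pow_nat_eq (W.Δ : AlgebraicClosure L) (n := 12) (by simp)
  have u0 : u ≠ 0 := fun z => hΔ (by simpa [z] using hu.symm)
  have gu : g u = u := fix pl hw (N := 12) (by
    rw [show ((12 : ℕ) : k) = 2 * 2 * 3 by norm_num]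
    exact mul_ne_zero (mul_ne_zero k2 k2) k3) h1 hβ (x := W.Δ) (by simpa using hΔ)
    (by simpa using hu) hg gβ
  let C : VariableChange (AlgebraicClosure L) :=
    ⟨Units.mk0 u u0, -W.b₂ / 12, -W.a₁ / 2, (W.a₁ * W.b₂ / 12 - W.a₃) / 2⟩
  obtain ⟨e', he', H⟩ := vc _ _ C h0 e he
  obtain ⟨h', m⟩ := H _ (cv_map W _) (L2.vc_fix (g := g) (by simp [C, gu, map_ofNat])) _ (ht g)
  obtain ⟨V, hV⟩ : ∃ V, V = C • cv W (AlgebraicClosure L) := ⟨_, rfl⟩
  have a1 : V.a₁ = 0 := by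
    simp only [hV, variableChange_a₁, C, cv, baseChange, map_a₁, eq_intCast]
    ring
  have a2 : V.a₂ = 0 := by
    simp only [hV, variableChange_a₂, C, cv, baseChange, map_a₁, map_a₂, eq_intCast, b₂]
    push_cast
    ring
  have a3 : V.a₃ = 0 := by
    simp only [hV, variableChange_a₃, C, cv, baseChange, map_a₁, map_a₃, eq_intCast]
    ring
  have d1 : V.Δ = 1 := by
    simp only [hV, variableChange_Δ, C, cv, baseChange, map_Δ, eq_intCast, ← hu,
      Units.val_inv_eq_inv_val, Units.val_mk0]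
    field_simp
  have c4 : V.c₄ ∈ p.A := mem_pow three_ne_zero (by
    have := (pl.ov w hw _).2 hj
    simp only [map_div₀, map_pow, map_intCast, ← hu] at this
    convert this using 1
    simp only [hV, variableChange_c₄, C, cv, baseChange, map_c₄, eq_intCast,
      Units.val_inv_eq_inv_val, Units.val_mk0]
    field_simp)
  have i2 := ((sp_ofNat (p := p) 2).inv k2).mem
  have i3 := ((sp_ofNat (p := p) 3).inv k3).mem
  have a4 : V.a₄ ∈ p.A := by
    convert neg_mem (mul_mem (mul_mem (pow_mem i2 4) i3) c4) using 1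
    simp only [c₄, b₂, b₄, a1, a2, a3]
    ring
  have a6 : V.a₆ ∈ p.A := mem_pow two_ne_zero (by
    convert neg_mem (mul_mem (pow_mem i3 3) (add_mem (pow_mem i2 4)
      (mul_mem (sp_ofNat 4).mem (pow_mem a4 3)))) using 1
    simp only [Δ, b₂, b₄, b₆, b₈, a1, a2, a3] at d1
    linear_combination (-1 / 432) * d1)
  have sp : SpW p V ⟨0, 0, 0, _, _⟩ :=
    ⟨a1 ▸ sp_zero, a2 ▸ sp_zero, a3 ▸ sp_zero, sp_of_mem a4, sp_of_mem a6⟩
  subst hV
  obtain ⟨φ, a, b⟩ := pl.fr _ 1 one_pos (L2.fb hg)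
  exact (good (frs fr1) _ k p pl.sur k2 _ _ sp (by
    rw [sp.Δ.eq sp_one d1]; exact one_ne_zero) e' he'.toTW _ φ 1 h' _ b a m).1 rfl

end Pool.Agent.SY
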