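import Pool.Agent.Lib.MP_b4b3cb_nt.SY.Ts
import Pool.Agent.Lib.MP_b4b3cb_nt.HF.Ti

/-! The period of an unramified character. -/

namespace Pool.Agent.SY

open Pool.Agent.SelTwo Pool.Agent.HF WittVector Polynomial

namespace Lang

theorem root (c : OC) : ∃ x : OC, x ^ 2 = x + c := by
  obtain ⟨x, hx⟩ := IsAlgClosed.exists_root (X ^ 2 - X - C (c : ℂ_[2]) : ℂ_[2][X])
    (by rw [show Polynomial.degree _ = 2 by compute_degree!]; decide)
  simp only [IsRoot, eval_sub, eval_C, eval_pow, eval_X] at hx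
  have e : x ^ 2 = x + c := by linear_combination hx
  refine ⟨⟨x, oc_mem.2 ?_⟩, Subtype.ext e⟩
  by_contra! h
  have a := IsUltrametricDist.norm_add_le_max x (c : ℂ_[2])
  rw [← e, norm_pow, max_eq_left ((oc_mem.1 c.2).trans h.le)] at a
  nlinarith

/-- The equation of Artin and Schreier in the tilt. -/
theorem as (c : Ti) : ∃ x : Ti, x ^ 2 = x + c := by
  obtain ⟨y, hy⟩ := root c.untilt
  let z : ℕ → ModP OC 2 := fun k =>
    Ideal.Quotient.mk _ y + ∑ i ∈ Finset.range k, PreTilt.coeff (i + 1) c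
  have s : ∀ k, z (k + 1) = z k + PreTilt.coeff (k + 1) c := fun k => by
    simp only [z, Finset.sum_range_succ, add_assoc]
  have t : ∀ k, z k ^ 2 = z k + PreTilt.coeff k c → z (k + 1) ^ 2 = z k := fun k h => by
    rw [s, CharTwo.add_sq, h, PreTilt.coeff_pow_p, add_assoc, CharTwo.add_self_eq_zero, add_zero]
  have a : ∀ k, z k ^ 2 = z k + PreTilt.coeff k c := fun k => by
    induction k with
    | zero =>
      simp only [z, Finset.range_zero, Finset.sum_empty, add_zero]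
      rw [← map_pow, hy, map_add, PreTilt.mk_untilt_eq_coeff_zero]
    | succ k ih => rw [t k ih, s, add_assoc, CharTwo.add_self_eq_zero, add_zero]
  obtain ⟨x, hx⟩ : ∃ x : Ti, ∀ k, PreTilt.coeff k x = z k :=
    ⟨⟨z, fun k => t k (a k)⟩, fun _ => rfl⟩
  refine ⟨x, Perfection.ext fun k => ?_⟩
  change PreTilt.coeff k (x ^ 2) = PreTilt.coeff k (x + c)
  rw [map_pow, map_add, hx, a]

theorem dvd_iff {a b : Ai} {n : ℕ} : 2 ^ n ∣ a - b ↔ ∀ i < n, a.coeff i = b.coeff i := by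
  rw [le_coeff_eq_iff_le_sub_coeff_eq_zero, ← mem_span_p_pow_iff_le_coeff_eq_zero,
    Ideal.mem_span_singleton, Nat.cast_ofNat]

theorem odd (u : ℤ_[2]ˣ) : 2 ∣ (u : ℤ_[2]) - 1 := by
  obtain ⟨r, c, hc⟩ := zp_appr u 1
  obtain ⟨m, rfl | rfl⟩ := r.even_or_odd'
  · exfalso
    have : (2 : ℤ_[2]) ∣ u := ⟨c + m, by push_cast at hc; linear_combination hc⟩
    exact PadicInt.prime_p.not_isUnit (isUnit_of_dvd_unit this u.isUnit)
  · exact ⟨c + m, by push_cast at hc; linear_combination hc⟩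

/-- The equation `φ a - U a = y` has a solution. -/
theorem sol {U : Ai} (hU : 2 ∣ U - 1) (y : Ai) : ∃ a, WittVector.map fr a - U * a = y := by
  obtain ⟨c, hc⟩ := iter (q := (2 : Ai)) (fun a => WittVector.map fr a - U * a) Set.univ
    (fun y _ => by
      obtain ⟨x, hx⟩ := as (y.coeff 0)
      obtain ⟨d, hd⟩ := hU
      obtain ⟨e, he⟩ := (ai_two (a := y - (teichmuller 2 x ^ 2 - teichmuller 2 x))).2 (by
        rw [← WittVector.constantCoeff_apply, map_sub, map_sub, map_pow,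
          WittVector.constantCoeff_apply, WittVector.constantCoeff_apply, teichmuller_coeff_zero, hx,
          add_sub_cancel_left, sub_self])
      refine ⟨teichmuller 2 x, e + d * teichmuller 2 x, trivial, ?_⟩
      rw [map_teichmuller, frobenius_def, map_pow]
      linear_combination he + teichmuller 2 x * hd) (Set.mem_univ y)
  obtain ⟨l, hl⟩ := ai_cpl.sum c
  refine ⟨l, sub_eq_zero.1 (ai_cpl.1 _ fun N => ?_)⟩
  have a := map_dvd (WittVector.map fr) (hl N)
  simp only [map_pow, map_ofNat, map_sub, map_sum, map_mul] at a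
  have b := (a.sub ((hl N).mul_left U)).sub (hc N)
  simp only [mul_sub, Finset.sum_sub_distrib, Finset.mul_sum, mul_left_comm U] at b
  exact b.trans (dvd_of_eq (by ring))

/-- The elements of the finite field with `2 ^ M` elements. -/
noncomputable def fin (M : ℕ) : Subring Ti := (fr ^ M).eqLocus (RingHom.id Ti)

theorem fr_pow (M : ℕ) (x : Ti) : (fr ^ M) x = x ^ 2 ^ M := by
  rw [RingHom.coe_pow, iterate_frobenius]

theorem mem_fin {M : ℕ} {x : Ti} : x ∈ fin M ↔ x ^ 2 ^ M = x := by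
  rw [← fr_pow]
  rfl

theorem act {M : ℕ} (hM : 0 < M) (v : Ti →+* Ti) :
    ∃ r : ℕ, ∀ x : Ti, x ^ 2 ^ M = x → v x = x ^ 2 ^ r := by
  have h1 : 1 < 2 ^ M := Nat.one_lt_two_pow hM.ne'
  have : Finite (fin M) := by
    refine ((X ^ 2 ^ M - X : Ti[X]).rootSet_finite Ti).subset (t := (fin M : Set Ti)) fun x hx => ?_
    rw [mem_rootSet_of_ne (monic_X_pow_sub (by rw [degree_X]; exact_mod_cast h1)).ne_zero]
    simpa [sub_eq_zero] using mem_fin.1 hx
  let _ : Field (fin M) := (Finite.isField_of_domain _).toField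
  let _ : Algebra (ZMod 2) (fin M) := ZMod.algebra _ 2
  let g : fin M →+* fin M := v.restrict _ _ fun x hx => mem_fin.2 (by rw [← map_pow, mem_fin.1 hx])
  let g' : fin M →ₐ[ZMod 2] fin M :=
    ⟨g, fun c => RingHom.congr_fun (RingHom.ext_zmod (g.comp (algebraMap _ _)) _) c⟩
  obtain ⟨r, hr⟩ := FiniteField.exists_forall_apply_eq_pow (ZMod 2) 2 (fin M)
    (AlgEquiv.ofBijective g' (Finite.injective_iff_bijective.1 g.injective))
  refine ⟨r, fun x hx => ?_⟩
  have := congrArg Subtype.val (hr ⟨x, mem_fin.2 hx⟩)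
  rwa [Nat.card_zmod] at this

theorem pw {A : Type} [Monoid A] {x : A} {N : ℕ} (h : x ^ 2 ^ N = x) (m : ℕ) :
    x ^ 2 ^ (N * m) = x := by
  induction m with
  | zero => simp
  | succ m ih => rw [mul_add, mul_one, pow_add, pow_mul, ih, h]

theorem near {N : ℕ} (hN : 0 < N) {c : ℂ_[2]} (h : ‖c ^ 2 ^ N - c‖ < 1) :
    ∃ x : Ti, x ^ 2 ^ N = x ∧ ‖c - x.untilt‖ < 1 := by
  have h1 : 1 < 2 ^ N := Nat.one_lt_two_pow hN.ne'
  have hm : (X ^ 2 ^ N - X : ℂ_[2][X]).Monic :=
    monic_X_pow_sub (by rw [degree_X]; exact_mod_cast h1)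
  obtain ⟨ζ, hζ, hc⟩ : ∃ ζ ∈ (X ^ 2 ^ N - X : ℂ_[2][X]).roots, ‖c - ζ‖ < 1 := by
    by_contra! H
    have e := (IsAlgClosed.splits (X ^ 2 ^ N - X : ℂ_[2][X])).eval_eq_prod_roots_of_monic hm c
    rw [eval_sub, eval_pow, eval_X] at e
    refine h.not_ge ?_
    rw [e]
    refine Multiset.prod_induction (fun a : ℂ_[2] => 1 ≤ ‖a‖) _ (fun a b ha hb => ?_) (by simp) ?_
    · rw [norm_mul]
      exact one_le_mul_of_one_le_of_one_le ha hb
    · simpa only [Multiset.forall_mem_map_iff] using H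
  have e : ζ ^ 2 ^ N = ζ := by simpa [sub_eq_zero] using (mem_roots hm.ne_zero).1 hζ
  have n : ‖ζ‖ ≤ 1 := by
    by_contra! H
    have := pow_lt_pow_right₀ H h1
    rw [← norm_pow ζ (2 ^ N), e, pow_one] at this
    exact this.false
  let y : OC := ⟨ζ, oc_mem.2 n⟩
  have ey : y ^ 2 ^ N = y := Subtype.ext e
  obtain ⟨N, rfl⟩ := Nat.exists_eq_add_of_le' hN
  obtain ⟨x, hx⟩ := TiA.seq (fun k => y ^ 2 ^ (N * k)) fun k => by
    rw [← pow_mul, ← pow_succ, mul_add, mul_one, add_assoc, add_comm, pow_add, pow_mul, ey]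
  refine ⟨x, TiA.ext fun k => ?_, ?_⟩
  · rw [iterate_map_pow, map_pow, hx, ← pow_mul, mul_comm, pow_mul, ey]
  · have := hx 0
    rw [Function.iterate_zero_apply, mul_zero, pow_zero, pow_one] at this
    rw [this]
    exact hc

theorem gal {σ : RingAut ℂ_[2]} {v : Ti →+* Ti} (h : Lf σ v) {N r : ℕ} (hN : 0 < N)
    (hr : ∀ x : Ti, x ^ 2 ^ N = x → v x = x ^ 2 ^ r) (c : ℂ_[2]) (hc : ‖c ^ 2 ^ N - c‖ < 1) :
    ‖σ c - c ^ 2 ^ r‖ < 1 := by
  obtain ⟨x, a, b⟩ := near hN hc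
  have n := oc_mem.1 x.untilt.2
  have e := h.2 x
  rw [hr x a, map_pow, SubmonoidClass.coe_pow] at e
  set ζ : ℂ_[2] := (x.untilt : ℂ_[2])
  have m : ‖c‖ ≤ 1 := by
    rw [← sub_add_cancel c ζ]
    exact (IsUltrametricDist.norm_add_le_max _ _).trans (max_le b.le n)
  obtain ⟨d, hd⟩ := sub_dvd_pow_sub_pow (⟨c, oc_mem.2 m⟩ : OC) x.untilt (2 ^ r)
  have hd' : c ^ 2 ^ r - ζ ^ 2 ^ r = (c - ζ) * d := congrArg Subtype.val hd
  rw [show σ c - c ^ 2 ^ r = σ (c - ζ) + -((c - ζ) * d) by rw [map_sub, ← e, ← hd']; ring]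
  refine (IsUltrametricDist.norm_add_le_max _ _).trans_lt (max_lt (by rwa [h.1]) ?_)
  rw [norm_neg, norm_mul]
  exact mul_lt_one_of_nonneg_of_lt_one_left (norm_nonneg _) b (oc_mem.1 d.2)

end Lang

open Lang

theorem lang : LangSt := fun u => by
  obtain ⟨y, hy⟩ : 2 ∣ zp u - 1 := by simpa only [map_ofNat, map_sub, map_one] using map_dvd zp (odd u)
  obtain ⟨l, hl⟩ := sol ⟨y, hy⟩ y
  obtain ⟨w, hw⟩ := ai_cpl.unit l
  have e : WittVector.map fr (w : Ai) = zp u * w := by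
    rw [hw, map_add, map_one, map_mul, map_ofNat]
    linear_combination 2 * hl - hy
  have ep : ∀ m : ℕ, WittVector.map (fr ^ m) (w : Ai) = zp (u ^ m) * w := fun m => by
    induction m with
    | zero => ext i; simp
    | succ m ih =>
      have : WittVector.map (fr ^ (m + 1)) (w : Ai) =
          WittVector.map fr (WittVector.map (fr ^ m) (w : Ai)) := by
        ext i
        rw [pow_succ']
        rfl
      rw [this, ih, map_mul, map_zp, e, pow_succ, map_mul, mul_assoc]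
  refine ⟨w, e, fun σ v d hv hd => sub_eq_zero.1 (ai_cpl.1 _ fun n => ?_)⟩
  obtain ⟨N, hN, H⟩ := hd n
  obtain ⟨r, hr⟩ := act (M := N * 2 ^ n) (by positivity) v
  have a := map_dvd zp (H r (gal hv hN fun x hx => hr x (pw hx _)))
  have b : (2 : ℤ_[2]) ^ n ∣ u ^ (N * 2 ^ n) - 1 := by
    have c := dvd_sub_pow_of_dvd_sub (p := 2) (odd u) n
    rw [one_pow] at c
    rw [mul_comm, pow_mul]
    exact ((pow_dvd_pow _ n.le_succ).trans c).trans (sub_one_dvd_pow_sub_one _ N)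
  have b' := (map_dvd zp b).mul_right w
  rw [map_sub, map_one, sub_mul, ← ep, one_mul, map_pow, map_ofNat, dvd_iff] at b'
  have c : 2 ^ n ∣ WittVector.map v (w : Ai) - WittVector.map (fr ^ r) (w : Ai) :=
    dvd_iff.2 fun i hi => by
      have := b' i hi
      rw [map_coeff, fr_pow] at this
      rw [map_coeff, map_coeff, fr_pow, hr _ this]
  rw [map_pow, map_ofNat, map_sub] at a
  rw [ep] at c
  exact (c.sub (a.mul_right w)).trans (dvd_of_eq (by ring))

end Pool.Agent.SY
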