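import Pool.Agent.Lib.MP_b4b3cb_nt.SY.St3
import Pool.Agent.Lib.MP_b4b3cb_nt.SY.Lang

/-! The theorem of Lang for a matrix congruent to the identity. -/

namespace Pool.Agent.SY

open Pool.Agent.SelTwo Pool.Agent.HF WittVector Polynomial Matrix Lang

namespace LangV

theorem root {q : ℕ} (hq : 1 < q) (c : OC) : ∃ x : OC, x ^ q = x + c := by
  obtain ⟨x, hx⟩ := IsAlgClosed.exists_root (X ^ q - (X + C (c : ℂ_[2])) : ℂ_[2][X]) (by
    rw [degree_sub_eq_left_of_degree_lt (by rw [degree_X_add_C, degree_X_pow]; exact_mod_cast hq),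
      degree_X_pow]
    exact_mod_cast (by omega : q ≠ 0))
  simp only [IsRoot, eval_sub, eval_add, eval_C, eval_pow, eval_X, sub_eq_zero] at hx
  refine ⟨⟨x, oc_mem.2 ?_⟩, Subtype.ext hx⟩
  by_contra! h
  have a := IsUltrametricDist.norm_add_le_max x (c : ℂ_[2])
  rw [← hx, norm_pow, max_eq_left ((oc_mem.1 c.2).trans h.le)] at a
  exact a.not_gt (by simpa using pow_lt_pow_right₀ h hq)

/-- The equation of Artin and Schreier in the tilt. -/
theorem as (f : ℕ) (c : Ti) : ∃ x : Ti, x ^ 2 ^ (f + 1) = x + c := by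
  obtain ⟨y, hy⟩ := root (Nat.one_lt_two_pow f.succ_ne_zero) c.untilt
  let z : ℕ → ModP OC 2 := fun k =>
    Nat.rec (Ideal.Quotient.mk _ y) (fun k w => w ^ 2 ^ f + PreTilt.coeff (k + 1) c) k
  have s : ∀ k, z (k + 1) = z k ^ 2 ^ f + PreTilt.coeff (k + 1) c := fun k => rfl
  have t : ∀ k, z k ^ 2 ^ (f + 1) = z k + PreTilt.coeff k c → z (k + 1) ^ 2 = z k := fun k h => by
    rw [s, CharTwo.add_sq, ← pow_mul, ← pow_succ, h, PreTilt.coeff_pow_p, add_assoc,
      CharTwo.add_self_eq_zero, add_zero]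
  have a : ∀ k, z k ^ 2 ^ (f + 1) = z k + PreTilt.coeff k c := fun k => by
    induction k with
    | zero =>
      change Ideal.Quotient.mk _ y ^ _ = Ideal.Quotient.mk _ y + _
      rw [← map_pow, hy, map_add, PreTilt.mk_untilt_eq_coeff_zero]
    | succ k ih =>
      rw [pow_succ' 2 f, pow_mul, t k ih, s, add_assoc, CharTwo.add_self_eq_zero, add_zero]
  obtain ⟨x, hx⟩ : ∃ x : Ti, ∀ k, PreTilt.coeff k x = z k :=
    ⟨⟨z, fun k => t k (a k)⟩, fun _ => rfl⟩
  refine ⟨x, Perfection.ext fun k => ?_⟩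
  change PreTilt.coeff k (x ^ 2 ^ (f + 1)) = PreTilt.coeff k (x + c)
  rw [map_pow, map_add, hx, a]

theorem sur {A : Type} [CommRing A] (h : Cpl (2 : A)) (T : A →+ A)
    (hT : ∀ y, ∃ c y', y = T c + 2 * y') (y : A) : ∃ a, T a = y := by
  have e : ∀ (n : ℕ) x, T (2 ^ n * x) = 2 ^ n * T x := fun n x => by
    simpa only [nsmul_eq_mul, Nat.cast_pow, Nat.cast_ofNat] using map_nsmul T (2 ^ n) x
  obtain ⟨c, hc⟩ := iter (q := (2 : A)) T Set.univ (fun y _ => by
    obtain ⟨c, y', h⟩ := hT y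
    exact ⟨c, y', trivial, h⟩) (Set.mem_univ y)
  obtain ⟨l, hl⟩ := h.sum c
  refine ⟨l, sub_eq_zero.1 (h.1 _ fun N => ?_)⟩
  obtain ⟨d, hd⟩ := hl N
  have a := congrArg T hd
  simp only [map_sub, map_sum, e] at a
  exact ((Dvd.intro _ a.symm).sub (hc N)).trans (dvd_of_eq (by ring))

theorem pi_dvd {ι : Type} {N : ℕ} {x : ι → Ai} : 2 ^ N ∣ x ↔ ∀ i, 2 ^ N ∣ x i :=
  ⟨fun ⟨c, h⟩ i => ⟨c i, congrFun h i⟩, fun h => by
    choose c hc using h
    exact ⟨c, funext hc⟩⟩

theorem pi_cpl (ι : Type) : Cpl (2 : ι → Ai) :=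
  ⟨fun x h => funext fun i => ai_cpl.1 _ fun N => pi_dvd.1 (h N) i, fun f h => by
    choose l hl using fun i => ai_cpl.2 (fun N => f N i) fun N => pi_dvd.1 (h N) i
    exact ⟨l, fun N => pi_dvd.2 fun i => hl i N⟩⟩

theorem sq_pow {ι : Type} [Fintype ι] [DecidableEq ι] (A : Matrix ι ι Ai) (n : ℕ) :
    ∃ B : Matrix ι ι Ai, (1 + (2 : Ai) • A) ^ 2 ^ n = 1 + (2 ^ (n + 1) : Ai) • B := by
  induction n with
  | zero => exact ⟨A, by simp⟩
  | succ n ih =>
    obtain ⟨B, h⟩ := ih
    refine ⟨B + (2 ^ n : Ai) • (B * B), ?_⟩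
    rw [pow_succ 2 n, pow_mul, h]
    simp only [sq, add_mul, mul_add, one_mul, mul_one, smul_mul_assoc, mul_smul_comm]
    module

theorem gal {σ : RingAut ℂ_[2]} {v : Ti →+* Ti} (h : Lf σ v) {N s : ℕ}
    (hs : ∀ x : ℂ_[2], x ^ 2 ^ N = x → σ x = x ^ 2 ^ s) {x : Ti} (hx : x ^ 2 ^ N = x) :
    v x = x ^ 2 ^ s := by
  have c : Function.Commute TiA.rt v := fun a => (frobeniusEquiv Ti 2).injective (by
    rw [RingEquiv.apply_symm_apply, frobeniusEquiv_def, ← map_pow, ← frobeniusEquiv_def,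
      RingEquiv.apply_symm_apply])
  refine TiA.ext fun k => Subtype.ext ?_
  rw [(c.iterate_left k) x, h.2, iterate_map_pow, map_pow, SubmonoidClass.coe_pow]
  refine hs _ ?_
  rw [← SubmonoidClass.coe_pow, ← map_pow, ← iterate_map_pow, hx]

end LangV

open LangV

theorem langV : LangVSt := by
  rintro d (_ | f) U c hf hU
  · exact absurd hf (lt_irrefl _)
  choose U' hU using hU
  obtain ⟨A, hA⟩ : ∃ A : Matrix (Fin d) (Fin d) Ai, U.map zp = 1 + (2 : Ai) • A :=
    ⟨(of U').map zp, by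
      ext1 i j
      have := congrArg zp (hU i j)
      rw [Matrix.sub_apply, map_sub, map_mul, map_ofNat, sub_eq_iff_eq_add'] at this
      rw [map_apply, this, Matrix.add_apply, Matrix.smul_apply, map_apply, of_apply, smul_eq_mul,
        Matrix.one_apply, Matrix.one_apply, apply_ite zp, map_one, map_zero]⟩
  obtain ⟨l, hl⟩ := sur (pi_cpl (Fin d)) ((mulVecLin (U.map zp)).toAddMonoidHom.comp
    ((WittVector.map (fr ^ (f + 1))).compLeft (Fin d)).toAddMonoidHom - AddMonoidHom.id _)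
    (fun y => by
      choose x hx using fun i => LangV.as f ((y i).coeff 0)
      choose e he using fun i => (ai_two (a := y i - (teichmuller 2 (x i) ^ 2 ^ (f + 1) -
        teichmuller 2 (x i)))).2 (by
          rw [← WittVector.constantCoeff_apply, map_sub, map_sub, map_pow,
            WittVector.constantCoeff_apply, WittVector.constantCoeff_apply, teichmuller_coeff_zero,
            hx, add_sub_cancel_left, sub_self])
      refine ⟨fun i => teichmuller 2 (x i),
        e - A *ᵥ fun i => WittVector.map (fr ^ (f + 1)) (teichmuller 2 (x i)), funext fun i => ?_⟩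
      change y i = (U.map zp *ᵥ fun i => WittVector.map (fr ^ (f + 1)) (teichmuller 2 (x i))) i -
        teichmuller 2 (x i) + 2 * (e i - _)
      rw [hA, add_mulVec, one_mulVec, smul_mulVec, Pi.add_apply, Pi.smul_apply, smul_eq_mul,
        map_teichmuller, fr_pow, map_pow]
      linear_combination he i) (-(A *ᵥ fun i => zp (c i)))
  change (U.map zp *ᵥ fun i => WittVector.map (fr ^ (f + 1)) (l i)) - l = _ at hl
  obtain ⟨y, hy⟩ : ∃ y : Fin d → Ai, y = (fun i => zp (c i)) + (2 : Ai) • l := ⟨_, rfl⟩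
  have e : (U.map zp *ᵥ fun i => WittVector.map (fr ^ (f + 1)) (y i)) = y := by
    have : (fun i => WittVector.map (fr ^ (f + 1)) (y i)) = (fun i => zp (c i)) +
        (2 : Ai) • fun i => WittVector.map (fr ^ (f + 1)) (l i) := funext fun i => by
      simp only [hy, Pi.add_apply, Pi.smul_apply, smul_eq_mul, map_add, map_mul, map_ofNat, map_zp]
    rw [this, mulVec_add, mulVec_smul, eq_add_of_sub_eq hl, hA, add_mulVec, one_mulVec, smul_mulVec,
      hy]
    module
  have ep : ∀ m : ℕ, (U.map zp ^ m *ᵥ fun i => WittVector.map (fr ^ ((f + 1) * m)) (y i)) = y :=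
    fun m => by
    induction m with
    | zero =>
      rw [pow_zero, one_mulVec]
      ext i
      simp
    | succ m ih =>
      rw [pow_succ, ← mulVec_mulVec]
      refine (congrArg _ (_root_.funext fun i => ?_)).trans ih
      conv_rhs => rw [← e, RingHom.map_mulVec, Matrix.map_map]
      congr 1
      · exact congrArg _ (_root_.funext fun a => (map_zp _ a).symm)
      · ext j k
        rw [mul_add, mul_one, pow_add]
        rfl
  refine ⟨y, fun i => ⟨l i, by simp [hy]⟩, e, fun n => ⟨(f + 1) * 2 ^ n, by positivity,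
    fun σ v s hv hs i => dvd_iff.2 fun k hk => ?_⟩⟩
  obtain ⟨B, hB⟩ := sq_pow A n
  have a := congrFun (ep (2 ^ n)) i
  rw [hA, hB, add_mulVec, one_mulVec, smul_mulVec, Pi.add_apply, Pi.smul_apply, smul_eq_mul] at a
  have b := dvd_iff.1 (show 2 ^ n ∣ WittVector.map (fr ^ ((f + 1) * 2 ^ n)) (y i) - y i from
    ⟨-(2 * (B *ᵥ fun i => WittVector.map (fr ^ ((f + 1) * 2 ^ n)) (y i)) i),
      by linear_combination a⟩) k hk
  rw [map_coeff, fr_pow] at b
  rw [map_coeff, map_coeff, fr_pow, LangV.gal hv hs b]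

end Pool.Agent.SY
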