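import Pool.Agent.Lib.MP_b4b3cb_nt.SY.St2
import Pool.Agent.Lib.MP_ca56d1_nt.AR.Defs

/-! Twists by characters: definitions and the statements of the steps. -/

namespace Pool.Agent.SY

open NumberField IsDedekindDomain Matrix WeierstrassCurve Pool.Agent.SelTwo Pool.Agent.HF
open Pool.Agent.SymTwo
open Pool.Agent.Lib.MP_02f36d_nt (OV)
open scoped TensorProduct Classical

section

variable {L : Type} [Field L] {E : Type} [NontriviallyNormedField E] [NormedAlgebra ℚ_[2] E]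

theorem fb_iff {𝔓 : Idl L} {n : ℕ} {g : Gal L} :
    Fb 𝔓 n (g : AlgebraicClosure L →+* AlgebraicClosure L) ↔ ∀ y, g • y - y ^ n ∈ 𝔓 :=
  ⟨fun h y => h y _ rfl, fun h x y e => by
    rw [show y = g • x from RingOfIntegers.ext e]; exact h x⟩

/-- `κ` is continuous, residually trivial and conjugate dual of weight `w`. -/
structure Ch (κ : Gal L →* E) (cj : Gal L → Gal L) (w : ℤ) : Prop where
  ct : Continuous κ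
  one : ∀ g, ‖κ g - 1‖ < 1
  dual : ∀ g, κ g * κ (cj g) = cyc E g ^ w

/-- Up to a character of finite order, `κ` is the `a`-th power of the cyclotomic character on
inertia. -/
def LA (κ : Gal L → E) (𝔓 : Idl L) (a : ℤ) : Prop :=
  ∃ M : ℕ, 0 < M ∧ ∀ g ∈ Ine 𝔓, κ g ^ M = (cyc E g ^ a) ^ M

/-- The elements that act on the residue field as a power. -/
def Wl (𝔓 : Idl L) : Set (Gal L) :=
  {g | g ∈ Dec 𝔓 ∧ ∃ n, 0 < n ∧ Fb 𝔓 n (g : AlgebraicClosure L →+* AlgebraicClosure L)}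

variable (E) in
/-- The matrix over `E`. -/
noncomputable def te (A : M2 ℤ_[2]) : M2 E := (tq A).map (algebraMap ℚ_[2] E)

/-- Inertia acts tamely, through a generator `t`, and `a` is the rank of `ρ t - 1`. -/
def Inr {n : ℕ} (ρ : Gal L →* Matrix (Fin n) (Fin n) E) (𝔓 : Idl L) (a : ℕ) : Prop :=
  ∃ (N : ℕ) (β : AlgebraicClosure L) (t : Gal L) (η : AlgebraicClosure L),
    ((2 * N : ℕ) : 𝓞 (AlgebraicClosure L)) ∉ 𝔓 ∧ Even N ∧ β ≠ 0 ∧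
    (∀ g ∈ Ine 𝔓, g (β ^ N) = β ^ N) ∧ t ∈ Ine 𝔓 ∧ IsPrimitiveRoot η N ∧ t β = η * β ∧
    (∀ g ∈ Ine 𝔓, g β = β → IsNilpotent (ρ g - 1)) ∧ a = (ρ t - 1).rank

/-- `ρ'` is conjugate to the image of `ρ` under `f`. -/
def Eqe {G E' : Type} [Field E'] {n : ℕ} (f : E →+* E') (ρ : G → Matrix (Fin n) (Fin n) E)
    (ρ' : G → Matrix (Fin n) (Fin n) E') : Prop :=
  ∃ D, IsUnit D ∧ ∀ g, D * ρ' g = (ρ g).map f * D

variable (E) in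
/-- The map `1 ⊗ s`. -/
noncomputable def tm {B : Type} [CommRing B] [Algebra ℚ_[2] B] (s : B →ₐ[ℚ_[2]] B) :
    E ⊗[ℚ_[2]] B →ₐ[E] E ⊗[ℚ_[2]] B := Algebra.TensorProduct.map (AlgHom.id E E) s

/-- The character `θ` has a period on `H`, and the `f`-th power of Frobenius divides it by `u`. -/
def ThP {G : Type} [Group G] [TopologicalSpace G] {χ : G →* ℚ_[2]} {B D C : Type} [CommRing B]
    [Algebra ℚ_[2] B] [CommRing D] [Algebra ℚ_[2] D] [CommRing C] [Algebra ℚ_[2] C]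
    (X : PD G ℚ_[2] χ B D C) (θ : G → E) (H : Subgroup G) (f : ℕ) (u : E) : Prop :=
  ∃ y : (E ⊗[ℚ_[2]] B)ˣ, (∀ h ∈ H, θ h • tm E (X.gB h) y = y) ∧ u • tm E (X.fB ^ f) y = y

end

/-- Inertia and Frobenius generate the decomposition group. -/
def DenSt : Prop :=
  ∀ (L : Type) [Field L] [NumberField L] (𝔓 : Idl L), 𝔓.IsMaximal →
    1 < nq 𝔓 ∧ (∃ σ : Gal L, Fb 𝔓 (nq 𝔓) (σ : _ →+* _)) ∧
    (∀ (g : Gal L) n, 0 < n → Fb 𝔓 n (g : _ →+* _) → g ∈ Dec 𝔓) ∧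
    ∀ σ : Gal L, Fb 𝔓 (nq 𝔓) (σ : _ →+* _) →
      (∀ U : Subgroup (Gal L), IsOpen (U : Set (Gal L)) → ∀ g ∈ Dec 𝔓,
        ∃ (s : ℕ) (i h : Gal L), i ∈ Ine 𝔓 ∧ h ∈ U ∧ h ∈ Dec 𝔓 ∧ g = i * h * σ ^ s) ∧
      (∀ (g : Gal L) n, 0 < n → Fb 𝔓 n (g : _ →+* _) →
        ∃ s : ℕ, n = nq 𝔓 ^ s ∧ g * (σ ^ s)⁻¹ ∈ Ine 𝔓) ∧
      ∀ (E : Type) [NontriviallyNormedField E] (κ : Gal L →* E), Continuous κ →
        (∀ g ∈ Ine 𝔓, κ g = 1) → κ σ = 1 → ∀ g ∈ Dec 𝔓, κ g = 1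

/-- The ramification of a character at the odd primes. -/
def RamCSt : Prop :=
  ∀ (L : Type) [Field L] [NumberField L] (E : Type) [NontriviallyNormedField E]
    [NormedAlgebra ℚ_[2] E] [FiniteDimensional ℚ_[2] E] (κ : Gal L →* E), Continuous κ →
    (∀ g, ‖κ g - 1‖ < 1) →
    (∃ r, 0 < r ∧ ∀ 𝔓 : Idl L, 𝔓.IsMaximal → 2 ∉ 𝔓 → ∀ g ∈ Ine 𝔓, κ g ^ 2 ^ r = 1) ∧
    {w : HeightOneSpectrum (𝓞 L) | ∃ 𝔓 : Idl L, 𝔓.IsMaximal ∧ 𝔓.under _ = w.asIdeal ∧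
      ∃ g ∈ Ine 𝔓, κ g ≠ 1}.Finite

/-- A character of inertia of order a power of `2`. -/
def TmSt : Prop :=
  ∀ (L : Type) [Field L] [NumberField L] (E : Type) [NontriviallyNormedField E]
    (κ : Gal L →* E), Continuous κ → ∀ 𝔓 : Idl L, 𝔓.IsMaximal → 2 ∉ 𝔓 → ∀ r, 0 < r →
    (∀ g ∈ Ine 𝔓, κ g ^ 2 ^ r = 1) → ∀ (β η : AlgebraicClosure L) (t : Gal L), β ≠ 0 →
    (∀ g ∈ Ine 𝔓, g (β ^ 2 ^ r) = β ^ 2 ^ r) → t ∈ Ine 𝔓 → IsPrimitiveRoot η (2 ^ r) →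
    t β = η * β → ∀ g ∈ Ine 𝔓, ∃ m : ℕ, κ g = κ t ^ m ∧ g β = η ^ m * β

/-- A conjugate dual character at a prime that is not split. -/
def NsSt : Prop :=
  ∀ (L : Type) [Field L] [NumberField L] [IsCMField L] (E : Type) [NontriviallyNormedField E]
    [NormedAlgebra ℚ_[2] E] [FiniteDimensional ℚ_[2] E] (κ : Gal L →* E) (cj : Gal L → Gal L)
    (w : ℤ), IsCj cj → Ch κ cj w → ∀ 𝔓 : Idl L, 𝔓.IsMaximal → 2 ∉ 𝔓 → Nonsplit 𝔓 →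
    ((∀ g ∈ Ine 𝔓, κ g = 1) → ∀ g ∈ Dec 𝔓, κ g ^ 2 = cyc E g ^ w) ∧
    (Ram 𝔓 → ∀ (v : HeightOneSpectrum (𝓞 L)) (ϖ : L), 𝔓.under _ = v.asIdeal →
      v.valuation L ϖ = WithZero.exp (-1) →
      (∀ α : AlgebraicClosure L, α ^ 2 = algebraMap L _ ϖ → ∀ g ∈ Ine 𝔓,
        (g α = α → κ g = 1) ∧ (g α ≠ α → κ g = (-1) ^ w)) ∧
      (IsCMField.complexConj L ϖ = -ϖ → ∀ (α : AlgebraicClosure L) (σ : Gal L),
        α ^ (nq 𝔓 - 1) = -algebraMap L _ ϖ → Fb 𝔓 (nq 𝔓) (σ : _ →+* _) → σ α = α →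
        κ σ ^ 2 = ((-1) ^ (nq 𝔓 / 2) * nq 𝔓 : E) ^ w))

/-- The weights at the two primes above `2`. -/
def CjwSt : Prop :=
  ∀ (L : Type) [Field L] [NumberField L] [IsCMField L], Module.finrank ℚ L = 2 →
    ∀ (E : Type) [NontriviallyNormedField E] [NormedAlgebra ℚ_[2] E] (κ : Gal L →* E)
    (cj : Gal L → Gal L) (w a : ℤ), IsCj cj → Ch κ cj w → ∀ P 𝔓 : Idl L, P.IsMaximal → 2 ∈ P →
    𝔓.IsMaximal → 2 ∈ 𝔓 → LA κ P a →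
    (𝔓.under (𝓞 L) = P.under _ → LA κ 𝔓 a) ∧ (𝔓.under (𝓞 L) ≠ P.under _ → LA κ 𝔓 (w - a) ∧
      𝔓.under (𝓞 L) = (P.under _).map (IsCMField.ringOfIntegersComplexConj L))

/-- The reciprocity law of Artin for characters of the absolute Galois group. -/
def RecTSt : Prop :=
  ∀ (L : Type) [Field L] [NumberField L], IsEmpty (L →+* ℝ) → ∀ (Γ : Type) [CommGroup Γ]
    (η : Gal L →* Γ), IsOpen (η.ker : Set (Gal L)) → ∀ S : Finset (HeightOneSpectrum (𝓞 L)),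
    (∀ (𝔓 : Idl L) w, 𝔓.IsMaximal → 𝔓.under _ = w.asIdeal → w ∉ S → ∀ g ∈ Ine 𝔓, η g = 1) →
    ∀ F : HeightOneSpectrum (𝓞 L) → Gal L, (∀ w, ∃ 𝔓 : Idl L, 𝔓.IsMaximal ∧
      𝔓.under _ = w.asIdeal ∧ Fb 𝔓 (nq 𝔓) (F w : _ →+* _)) →
    ∃ N, ∀ α : L, Stark.AR.Ray S N α → Stark.AR.ev (fun w => η (F w)) (Stark.dv α) = 1

/-- A split prime above `2`. -/
def SplSt : Prop :=
  ∀ (L : Type) [Field L] [NumberField L] [IsCMField L], Module.finrank ℚ L = 2 →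
    ∀ P : Idl L, P.IsMaximal → 2 ∈ P → ¬Nonsplit P → nq P = 2 ∧
    ∀ w : HeightOneSpectrum (𝓞 L), P.under _ = w.asIdeal → ∃ j : L →+* ℚ_[2],
      ∀ x : L, x ≠ 0 → ‖j x‖ = (2 : ℝ) ^ (-Stark.og w x)

/-- The values of a character on principal divisors. -/
def PurASt : Prop :=
  ∀ (L : Type) [Field L] [NumberField L] [IsCMField L], Module.finrank ℚ L = 2 →
    ∀ (E : Type) [NontriviallyNormedField E] [NormedAlgebra ℚ_[2] E]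
    (p p' : HeightOneSpectrum (𝓞 L)), p ≠ p' →
    p'.asIdeal = p.asIdeal.map (IsCMField.ringOfIntegersComplexConj L) →
    (∀ q : HeightOneSpectrum (𝓞 L), 2 ∈ q.asIdeal → q = p ∨ q = p') → ∀ j : L →+* ℚ_[2],
    (∀ x : L, x ≠ 0 → ‖j x‖ = (2 : ℝ) ^ (-Stark.og p x)) →
    ∀ (θ θ' : HeightOneSpectrum (𝓞 L) → Eˣ) (d : ℤ),
    (∀ q, 2 ∉ q.asIdeal → (θ q : E) = θ' q * (Ideal.absNorm q.asIdeal : E) ^ d) →
    (∀ ε > 0, ∃ N, ∀ α : L, Stark.AR.Ray {p'} N α →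
      ‖(Stark.AR.ev θ (Stark.dv α) : Eˣ) - (1 : E)‖ < ε) →
    (∀ ε > 0, ∃ N, ∀ α : L, Stark.AR.Ray {p} N α →
      ‖(Stark.AR.ev θ' (Stark.dv α) : Eˣ) - (1 : E)‖ < ε) →
    (∀ q, ‖(θ q : E)‖ = 1) → (∀ q, ‖(θ' q : E)‖ = 1) →
    ∀ (ι : E →+* ℂ) q, q ≠ p' → ‖ι (θ q)‖ ^ 2 = (Ideal.absNorm q.asIdeal : ℝ) ^ d

/-- Purity of a locally algebraic character. -/
def PurSt : Prop :=
  ∀ (L : Type) [Field L] [NumberField L] [IsCMField L], Module.finrank ℚ L = 2 →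
    ∀ (E : Type) [NontriviallyNormedField E] [NormedAlgebra ℚ_[2] E] [FiniteDimensional ℚ_[2] E]
    (ι : E →+* ℂ) (κ : Gal L →* E) (cj : Gal L → Gal L) (w a : ℤ), IsCj cj → Ch κ cj w →
    ∀ P : Idl L, P.IsMaximal → 2 ∈ P → ¬Nonsplit P → LA κ P a →
    (∀ 𝔓 : Idl L, 𝔓.IsMaximal → 2 ∉ 𝔓 → ∀ g ∈ Wl 𝔓, ‖ι (κ g)‖ ^ 2 = ‖ι (cyc E g)‖ ^ w) ∧
    ∀ (g : Gal L) (r : ℕ), Fb P (2 ^ r) (g : _ →+* _) →
      ‖ι (κ g / cyc E g ^ a)‖ ^ 2 = (2 : ℝ) ^ (r * (w - 2 * a))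

/-- The theorem of Lang for a matrix congruent to the identity. -/
def LangVSt : Prop :=
  ∀ (d f : ℕ) (U : Matrix (Fin d) (Fin d) ℤ_[2]) (c : Fin d → ℤ_[2]), 0 < f →
    (∀ i j, 2 ∣ (U - 1) i j) → ∃ y : Fin d → Ai, (∀ i, 2 ∣ y i - zp (c i)) ∧
    (U.map zp *ᵥ fun i => WittVector.map (fr ^ f) (y i)) = y ∧
    ∀ n, ∃ N, 0 < N ∧ ∀ σ v (s : ℕ), Lf σ v → (∀ x : ℂ_[2], x ^ 2 ^ N = x → σ x = x ^ 2 ^ s) →
      ∀ i, 2 ^ n ∣ WittVector.map v (y i) - WittVector.map (fr ^ s) (y i)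

/-- The crystalline period of a character on a subgroup of finite index. -/
def ThSt : Prop :=
  ∀ (L : Type) [Field L] [NumberField L] (j : AlgebraicClosure L →+* ℂ_[2]), nq (pj j) = 2 →
    ∀ (E : Type) [NontriviallyNormedField E] [NormedAlgebra ℚ_[2] E] [FiniteDimensional ℚ_[2] E]
    (θ : Gal L →* E), Continuous θ → LA θ (pj j) 0 → ∀ a : Dec (pj j) →* RingAut ℂ_[2],
    (∀ g, Iso (a g)) → (∀ g x, a g (j x) = j (g.1 x)) →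
    ∀ (χ : Dec (pj j) →* ℚ_[2]) (X : PD (Dec (pj j)) ℚ_[2] χ Bp Bd Bc), PT X a →
    ∃ (γ : ℂ_[2]) (H : Subgroup (Dec (pj j))) (f : ℕ) (g₀ : Gal L), IsAlgebraic ℚ γ ∧ H.Normal ∧
      H.FiniteIndex ∧ (∀ g, g ∈ H ↔ a g γ = γ) ∧ 0 < f ∧ Fb (pj j) (2 ^ f) (g₀ : _ →+* _) ∧
      ThP X (fun g => θ g) H f (θ g₀)

/-- The de Rham period of a character. -/
def DrSt : Prop :=
  ∀ (G : Type) [Group G] [TopologicalSpace G] (a : G →* RingAut ℂ_[2]), (∀ g, Iso (a g)) →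
    ∀ (χ : G →* ℚ_[2]) (X : PD G ℚ_[2] χ Bp Bd Bc), PT X a →
    ∀ (E : Type) [NontriviallyNormedField E] [NormedAlgebra ℚ_[2] E] [FiniteDimensional ℚ_[2] E]
    (θ : G →* E) (H : Subgroup G) (γ : ℂ_[2]) (f : ℕ) (u : E), H.FiniteIndex → IsAlgebraic ℚ γ →
    (∀ g, g ∈ H ↔ a g γ = γ) → ThP X θ H f u →
    ∃ y : (E ⊗[ℚ_[2]] Bd)ˣ, ∀ g, θ g • tm E (X.gD g) y = y

/-- Purity of the twisted symmetric powers. -/
def EigTSt : Prop :=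
  ∀ (E : Type) [Field E] (ι : E →+* ℂ) (A : M2 E) (a : ℤ) (q m f : ℕ) (c : E), a ^ 2 ≤ 4 * q →
    A.det = q → A.trace = a → ‖ι c‖ ^ 2 * (q : ℝ) ^ (m * f) ≠ 1 → IsUnit (c • sym m A ^ f - 1)

/-- No local invariants. -/
def InvTSt : Prop :=
  ∀ (G : Type) (t : G → M2 ℤ_[2]) (D : Set G) (m : ℕ) (E : Type) [NontriviallyNormedField E]
    [NormedAlgebra ℚ_[2] E] (ι : E →+* ℂ) (κ : G → E), Pu t D →
    (∀ g ∈ D, ‖ι (κ g)‖ ^ 2 = ‖ι (te E (t g)).det‖ ^ (1 - m : ℤ)) → ∀ v,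
    (∀ g ∈ D, (κ g • sym m (te E (t g))) *ᵥ v = v) → v = 0

/-- The periods of the twisted symmetric powers. -/
def PerTSt : Prop :=
  ∀ (G : Type) [Group G] [TopologicalSpace G] (χ : G →* ℚ_[2])
    (B D C : Type) [CommRing B] [Algebra ℚ_[2] B] [CommRing D] [Algebra ℚ_[2] D] [CommRing C]
    [Algebra ℚ_[2] C] (X : PD G ℚ_[2] χ B D C), TT X → IsDomain D → Function.Injective X.β →
    ∀ (t : G → M2 ℚ_[2]) (b : ℤ), b ^ 2 ≤ 8 → Per X t b →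
    ∀ (E : Type) [NontriviallyNormedField E] [NormedAlgebra ℚ_[2] E] [FiniteDimensional ℚ_[2] E]
    (ι : E →+* ℂ) (θ : G →* E) (a : ℤ) (m : ℕ) (ρ : G → Matrix (Fin (m + 1)) (Fin (m + 1)) E),
    (∀ g, ρ g = (θ g * algebraMap ℚ_[2] E (χ g) ^ a) • sym m ((t g).map (algebraMap ℚ_[2] E))) →
    (∀ (H : Subgroup G) (f : ℕ) (u : E), H.Normal → H.FiniteIndex → 0 < f → ThP X θ H f u →
      ‖ι u‖ ^ 2 * (2 : ℝ) ^ (f * (2 * a + m)) ≠ 1 → ∀ z : Fin (m + 1) → E ⊗[ℚ_[2]] C,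
      (∀ g, act (ρ g) (X.gC g) z = z) → act 1 X.fC z = z → z = 0) ∧
    ∀ y : (E ⊗[ℚ_[2]] D)ˣ, (∀ g, θ g • tm E (X.gD g) y = y) →
      ∃ P : Matrix (Fin (m + 1)) (Fin (m + 1)) (E ⊗[ℚ_[2]] D), IsUnit P ∧ ∀ g i,
        act (ρ g) (X.gD g) (P.col i) =
          algebraMap ℚ_[2] E (χ g) ^ (a + m - (i : ℕ) : ℤ) • P.col i

/-- The local constant of an unramified twist at a prime of multiplicative type. -/
def EpsTSt : Prop :=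
  ∀ (L : Type) [Field L] [NumberField L] (E : Type) [NontriviallyNormedField E]
    [NormedAlgebra ℚ_[2] E] (t : Gal L → M2 ℤ_[2]), (∀ g, (tq (t g)).det = cyc ℚ_[2] g) →
    ∀ (k : ℕ) (ψ : Gal L →* E) (ρ : Gal L →* Matrix (Fin (2 * k + 1 + 1)) (Fin (2 * k + 1 + 1)) E),
    Eqe (RingHom.id E) (fun g => (ψ g / cyc E g ^ k) • sym (2 * k + 1) (te E (t g))) ρ →
    ∀ 𝔓 : Idl L, 𝔓.IsMaximal → 2 ∉ 𝔓 → ∀ w : HeightOneSpectrum (𝓞 L), 𝔓.under _ = w.asIdeal →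
    ∀ (ϖ : L) (Ψ : AddChar (𝓞 L) E), w.valuation L ϖ = WithZero.exp (-1) → Ψ ≠ 1 →
    (∀ x ∈ w.asIdeal, Ψ x = 1) → ∀ δ c : ℤ, δ = 1 ∨ δ = -1 → c = 1 ∨ c = -1 → LM t 𝔓 δ →
    (∀ g ∈ Ine 𝔓, ψ g = 1) → (∀ σ : Gal L, Fb 𝔓 (nq 𝔓) (σ : _ →+* _) → ψ σ = c) →
    Eps ρ 𝔓 ϖ Ψ (-(δ * c))

/-- Potentially good reduction at a prime not above `2` and `3`. -/
def L4aSt : Prop :=
  ∀ (L : Type) [Field L] [NumberField L] (W : WeierstrassCurve ℤ), W.Δ ≠ 0 →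
    ∀ e : Z2 →+ ℕ → (cv W (AlgebraicClosure L)).Point, TS e → ∀ t : Gal L → M2 ℤ_[2],
    (∀ g : Gal L, Mt e (gm W (g : _ →+* _)) (t g)) →
    ∀ 𝔓 : Idl L, 𝔓.IsMaximal → 2 ∉ 𝔓 → 3 ∉ 𝔓 → ∀ w : HeightOneSpectrum (𝓞 L),
    𝔓.under _ = w.asIdeal → ∀ (ϖ : L) (β : AlgebraicClosure L),
    w.valuation L ϖ = WithZero.exp (-1) → β ^ 12 = algebraMap L _ ϖ →
    ((W.c₄ : L) ^ 3 / W.Δ) ∈ OV w → ∀ g ∈ Ine 𝔓, g β = β → t g = 1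

/-- Potentially multiplicative reduction at a prime not above `2` and `3`. -/
def L4bSt : Prop :=
  ∀ (L : Type) [Field L] [NumberField L] (W : WeierstrassCurve ℤ), W.Δ ≠ 0 →
    ∀ e : Z2 →+ ℕ → (cv W (AlgebraicClosure L)).Point, TS e → ∀ t : Gal L → M2 ℤ_[2],
    (∀ g : Gal L, Mt e (gm W (g : _ →+* _)) (t g)) → (∀ g, (tq (t g)).det = cyc ℚ_[2] g) →
    ∀ 𝔓 : Idl L, 𝔓.IsMaximal → 2 ∉ 𝔓 → 3 ∉ 𝔓 → ∀ w : HeightOneSpectrum (𝓞 L),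
    𝔓.under _ = w.asIdeal → ∀ (ϖ : L) (β : AlgebraicClosure L),
    w.valuation L ϖ = WithZero.exp (-1) → β ^ 12 = algebraMap L _ ϖ →
    ((W.c₄ : L) ^ 3 / W.Δ) ∉ OV w → ∀ g ∈ Ine 𝔓, (g β = β → IsNilpotent (t g - 1)) ∧
      (Adv W w → ∀ η, IsPrimitiveRoot η 12 → g β = η * β → IsNilpotent (t g + 1))

/-- Ranks. -/
def RkSt : Prop :=
  ∀ (E : Type) [Field E] [CharZero E] (ζ : E), IsPrimitiveRoot ζ 12 → ∀ (m : ℕ) (A : M2 E),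
    A.det = 1 → (A ^ 12 = 1 → Even (sym m A - 1).rank) ∧
    (IsNilpotent (A + 1) → Even (sym m A - 1).rank) ∧
    (IsNilpotent (A - 1) → IsNilpotent (sym m A - 1) ∧ (Even m → Even (sym m A - 1).rank) ∧
      ∀ c, c ≠ 1 → IsUnit (c • sym m A - 1))

/-- The field of coefficients. -/
def EFESt : Prop :=
  ∀ (E : Type) [NontriviallyNormedField E] [NormedAlgebra ℚ_[2] E] [FiniteDimensional ℚ_[2] E]
    (N : ℕ), 0 < N → ∃ (E' : Type) (_ : NontriviallyNormedField E') (_ : NormedAlgebra ℚ_[2] E')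
    (_ : FiniteDimensional ℚ_[2] E') (f : E →ₐ[ℚ_[2]] E') (s ζ : E') (_ : E' →+* ℂ),
    (∀ x, ‖f x‖ = ‖x‖) ∧ s ^ 4 = 2 ∧ IsPrimitiveRoot ζ N

/-- Change of the basis: the local conditions. -/
def BasE1St : Prop :=
  ∀ (L : Type) [Field L] (E : Type) [NontriviallyNormedField E] [NormedAlgebra ℚ_[2] E] (n : ℕ)
    (ρ ρ' : Gal L →* Matrix (Fin n) (Fin n) E), Eqe (RingHom.id E) ρ ρ' →
    (∀ D : Set (Gal L), (∀ v, (∀ g ∈ D, ρ g *ᵥ v = v) → v = 0) → fdim (ρ' '' D) = 0) ∧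
    (∀ j, (NoFix j ρ → NoFix j ρ') ∧ ∀ h, DeRham j ρ h → DeRham j ρ' h) ∧
    ∀ 𝔓 a, Inr ρ 𝔓 a → Inr ρ' 𝔓 a

/-- Extension of scalars: the Selmer group. -/
def BasE2St : Prop :=
  ∀ (L : Type) [Field L] [NumberField L] (E E' : Type) [NontriviallyNormedField E]
    [NormedAlgebra ℚ_[2] E] [FiniteDimensional ℚ_[2] E] [NontriviallyNormedField E']
    [NormedAlgebra ℚ_[2] E'] [FiniteDimensional ℚ_[2] E'] (f : E →ₐ[ℚ_[2]] E') (n : ℕ)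
    (ρ : Gal L →* Matrix (Fin n) (Fin n) E) (ρ' : Gal L →* Matrix (Fin n) (Fin n) E'),
    Eqe (f : E →+* E') ρ ρ' → (Submodule.span E' (Hf ρ')).FG →
    (Submodule.span E (Hf ρ)).FG ∧ h1 ρ ⊤ (Hf ρ) = h1 ρ' ⊤ (Hf ρ')

end Pool.Agent.SY
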