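import Pool.Agent.Lib.MP_b4b3cb_nt.SY.Ts

/-! The toric line at a place of multiplicative reduction. -/

namespace Pool.Agent.SY

open Matrix WeierstrassCurve Polynomial
open Pool.Agent.Lib.MP_02f36d_nt

namespace Mu

variable {Ω k : Type} [Field Ω] [Field k] {p : Place Ω k} {V : Affine Ω} {U : Affine k}
  {x₀ y₀ α β : k}

theorem tt_sur (h : Node U x₀ y₀ α β) {c : k} (hc : c ≠ 0) :
    ∃ a : U.Point, tt x₀ y₀ α β a = c := by
  by_cases c1 : c = 1
  · exact ⟨0, c1 ▸ tt_zero⟩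
  have d := sub_ne_zero.2 h.ne
  have e := sub_ne_zero.2 (Ne.symm c1)
  obtain ⟨v, hv⟩ : ∃ v, v * (1 - c) = α - β := ⟨_, div_mul_cancel₀ _ e⟩
  have v0 : v ≠ 0 := left_ne_zero_of_mul (hv ▸ d)
  obtain rfl : α = β + v * (1 - c) := by linear_combination -hv
  have ns : U.Nonsingular (x₀ + c * v * v) (y₀ + (β + v) * (c * v * v)) := by
    refine (Affine.nonsingular_iff' _ _).2 ⟨?_, ?_⟩
    · rw [Affine.equation_iff, h.h1, h.h2, h.h3, h.h4, h.h6]
      ring
    · by_contra! H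
      obtain ⟨a, b⟩ := H
      rw [h.h1, h.h2, h.h4] at a
      rw [h.h1, h.h3] at b
      have b' : c + 1 = 0 := mul_left_cancel₀ (mul_ne_zero hc (pow_ne_zero 3 v0))
        (by linear_combination b)
      obtain rfl : c = -1 := by linear_combination b'
      exact pow_ne_zero 4 v0 (by linear_combination -a)
  refine ⟨.some _ _ ns, ?_⟩
  rw [tt_of_ne (Affine.Point.some_ne_zero ns), xc_some, yc_some, div_eq_iff]
  · ring
  · exact fun z => mul_ne_zero hc (pow_ne_zero 3 v0) (by linear_combination z)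

theorem tt_swap (P : U.Point) : tt x₀ y₀ β α P = (tt x₀ y₀ α β P)⁻¹ := by
  by_cases hP : P = 0
  · rw [hP, tt_zero, tt_zero, inv_one]
  · rw [tt_of_ne hP, tt_of_ne hP, inv_div]

variable [DecidableEq Ω] [DecidableEq k]

omit [DecidableEq k] in
theorem no_two (h2 : (2 : k) ≠ 0) (s : SpW p V U) {P : V.Point} (r : Red p P (0 : U.Point))
    (h : 2 • P = 0) : P = 0 := by
  by_contra hP
  have hx := r.of_zero.resolve_left hP
  have t := sp_inv_of_notMem hx
  have x0 : xc P ≠ 0 := fun e => hx (e ▸ zero_mem _)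
  have ev := eval_Psi V (nonsing hP).1
  have z : 2 * yc P + V.a₁ * xc P + V.a₃ = 0 := by_contra fun z =>
    (xc_two hP z).1 (two_nsmul P ▸ h)
  simp only [Ψ₂Sq, eval_add, eval_mul, eval_C, eval_pow, eval_X, z] at ev
  have := ((((sp_ofNat 4).add (s.b₂.mul t)).add (((sp_ofNat 2).mul s.b₄).mul (t.pow 2))).add
    (s.b₆.mul (t.pow 3))).eq sp_zero (by field_simp; linear_combination ev)
  exact pow_ne_zero 2 h2 (by linear_combination this)

omit [DecidableEq k] in
theorem div_two [IsAlgClosed Ω] (h2 : (2 : k) ≠ 0) (hΔ : V.Δ ≠ 0) {P : V.Point}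
    (r : Red p P (0 : U.Point)) : ∃ Q, Red p Q (0 : U.Point) ∧ 2 • Q = P := by
  by_cases hP : P = 0
  · exact ⟨0, red_zero, by simp [hP]⟩
  have hx := r.of_zero.resolve_left hP
  obtain ⟨f, hf⟩ : ∃ f : Polynomial Ω, f = X ^ 4 - C V.b₄ * X ^ 2 - C (2 * V.b₆) * X - C V.b₈ -
    C (xc P) * (C 4 * X ^ 3 + C V.b₂ * X ^ 2 + C (2 * V.b₄) * X + C V.b₆) := ⟨_, rfl⟩
  have m : f.Monic := by rw [hf]; monicity!
  have d : f.natDegree = 4 := by rw [hf]; compute_degree!
  have n := (IsAlgClosed.splits f).nextCoeff_eq_neg_sum_roots_of_monic m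
  rw [nextCoeff_of_natDegree_pos (by omega), d] at n
  have c : f.coeff (4 - 1) = -(4 * xc P) := by
    simp only [hf, coeff_sub, coeff_add, coeff_C_mul, coeff_X_pow, coeff_X, coeff_C]
    norm_num [mul_comm]
  obtain ⟨x, a, b⟩ : ∃ x ∈ f.roots, x ∉ p.A := by
    by_contra! H
    have := ((sp_of_mem (multiset_sum_mem _ H)).div (sp_ofNat 4)
      fun z => pow_ne_zero 2 h2 (by linear_combination z)).mem
    have h4 : (4 : Ω) ≠ 0 := (sp_ofNat (p := p) 4).ne_zero
      fun z => pow_ne_zero 2 h2 (by linear_combination z)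
    rw [← neg_injective (c.symm.trans n), mul_div_cancel_left₀ _ h4] at this
    exact hx this
  have := (mem_roots m.ne_zero).1 a
  simp only [hf, IsRoot, eval_sub, eval_add, eval_mul, eval_C, eval_pow, eval_X] at this
  obtain ⟨Q, -, q, e⟩ := half_of hΔ hP (sub_eq_zero.1 this)
  exact ⟨Q, Or.inl ⟨rfl, Or.inr (q ▸ b)⟩, e⟩

variable [IsAlgClosed k]

theorem frob (h : Node U x₀ y₀ α β) (h2 : (2 : k) ≠ 0) {φ : k →+* k} {q : ℕ}
    (hq : ∀ c, φ c = c ^ q) (e : U.map φ = U) (a : U.Point) :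
    (φ α = α → ptMap φ e a = (q : ℤ) • a) ∧ (φ α ≠ α → ptMap φ e a = (-q : ℤ) • a) := by
  have g := e ▸ h.map φ
  have x : φ x₀ = x₀ := mul_right_cancel₀ h.c₄_ne (g.x_eq.trans h.x_eq.symm)
  have s : φ α + φ β = α + β := by linear_combination g.h1 - h.h1
  have y : φ y₀ = y₀ := mul_left_cancel₀ h2 (by
    linear_combination g.h3 - h.h3 + φ x₀ * s + (α + β) * x)
  have t := tt_ptMap e x₀ y₀ α β a
  rw [x, y, hq (tt _ _ _ _ _)] at t
  refine ⟨fun u => h.tt_injective ?_, fun u => h.tt_injective ?_⟩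
  · rw [u, show φ β = β by linear_combination s - u] at t
    rw [t, h.tt_zsmul, zpow_natCast]
  · have v : φ α = β := sub_eq_zero.1 (mul_left_cancel₀ (sub_ne_zero.2 u) (by
      linear_combination φ α * s + h.h2 - g.h2 + 3 * x))
    rw [v, show φ β = α by linear_combination s - v, tt_swap] at t
    rw [h.tt_zsmul, _root_.zpow_neg, zpow_natCast, ← t, inv_inv]

variable [IsAlgClosed Ω]

theorem uniq (hs : Function.Surjective p.ρ) (h2 : (2 : k) ≠ 0) (m : Mod p V U) {P Q : V.Point}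
    {a : U.Point} (r : Red p P a) (r' : Red p Q a) {n : ℕ} (h : 2 ^ n • P = 0)
    (h' : 2 ^ n • Q = 0) : P = Q := by
  have : ∀ (n : ℕ) (T : V.Point), Red p T (0 : U.Point) → 2 ^ n • T = 0 → T = 0 := fun n => by
    induction n with
    | zero => simp
    | succ n ih =>
      intro T a b
      refine no_two h2 m.sp a (ih _ ?_ (by rw [← mul_smul, ← pow_succ, b]))
      simpa [two_nsmul] using a.add hs m.hΔ (sep_of_c4 m.ss) m.sp a
  refine sub_eq_zero.1 (this n _ ?_ (by rw [smul_sub, h, h', sub_zero]))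
  simpa [sub_eq_add_neg] using r.add hs m.hΔ (sep_of_c4 m.ss) m.sp (r'.neg m.sp)

theorem step (hs : Function.Surjective p.ρ) (h2 : (2 : k) ≠ 0) (m : Mod p V U) {P : V.Point}
    {a : U.Point} (r : Red p P (a + a)) : ∃ Q, Red p Q a ∧ 2 • Q = P := by
  have u := sep_of_c4 m.ss
  obtain ⟨R, hR⟩ := exists_lift hs m.hΔ m.sp a
  have := (hR.add hs m.hΔ u m.sp hR).add hs m.hΔ u m.sp (r.neg m.sp)
  rw [add_neg_cancel] at this
  obtain ⟨T, b, c⟩ := div_two h2 m.hΔ this
  exact ⟨R + -T, by simpa using hR.add hs m.hΔ u m.sp (b.neg m.sp), by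
    rw [smul_add, smul_neg, c, two_nsmul]; abel⟩

end Mu

open Mu in
theorem mult : MultSt := by
  intro Ω k _ _ _ _ _ p hs h2 V U s hΔ x₀ y₀ α β h e he
  classical
  have m : Mod p V U := ⟨hΔ, s, Or.inl h.c₄_ne⟩
  have st : ∀ P : {P : V.Point // ∃ a : U.Point, Red p P a},
      ∃ Q : {P : V.Point // ∃ a : U.Point, Red p P a}, 2 • Q.1 = P.1 := fun ⟨P, a, r⟩ => by
    obtain ⟨c, hc⟩ := IsAlgClosed.exists_eq_mul_self (tt x₀ y₀ α β a)
    obtain ⟨b, rfl⟩ := tt_sur h (left_ne_zero_of_mul (hc ▸ h.tt_ne a))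
    rw [h.tt_injective (hc.trans (h.tt_add b b).symm)] at r
    obtain ⟨Q, u, v⟩ := step hs h2 m r
    exact ⟨⟨Q, b, u⟩, v⟩
  choose d hd using st
  obtain ⟨a, ha⟩ := tt_sur h (neg_ne_zero.2 one_ne_zero)
  have a2 : a + a = 0 := h.tt_injective (by rw [h.tt_add, ha, tt_zero]; ring)
  obtain ⟨P, u, v⟩ := step hs h2 m (P := 0) (a := a) (a2 ▸ red_zero)
  obtain ⟨x, hx⟩ := he.all (fun n => n.casesOn 0 fun n => (d^[n] ⟨P, a, u⟩).1) rfl fun n => by
    cases n with
    | zero => exact v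
    | succ n => simp only [Function.iterate_succ_apply', hd]
  have rd : ∀ n, ∃ a : U.Point, Red p (e x n) a := fun n => by
    rw [hx]
    cases n with
    | zero => exact ⟨0, red_zero⟩
    | succ n => exact (d^[n] ⟨P, a, u⟩).2
  refine ⟨x, fun z => ?_, fun σ φ q g A c hq hA => ?_⟩
  · have : P = 0 := by simpa [z] using (congrFun hx 1).symm
    rw [u.unique (this ▸ red_zero : Red p P (0 : U.Point)), tt_zero] at ha
    exact h2 (by linear_combination ha)
  have key : ∀ r : ℤ, (∀ a, ptMap φ (c.map_eq s g) a = r • a) → A *ᵥ x = (r : ℤ_[2]) • x :=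
    fun r hr => he.toTW.inj fun n => by
      obtain ⟨b, hb⟩ := rd n
      rw [he.toTW.smul (r := r) (by simp)]
      refine uniq hs h2 m (n := n) ?_ (hb.zsmul hs m r) (he.toTW.tor _ n)
        (by rw [smul_comm, he.toTW.tor, smul_zero])
      rw [hA, ← hr]
      exact c.red g _ hb
  exact ⟨fun z => by simpa using key q fun a => (frob h h2 hq _ a).1 z,
    fun z => by simpa using key (-q) fun a => (frob h h2 hq _ a).2 z⟩

end Pool.Agent.SY
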