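import Pool.Agent.Lib.MP_b4b3cb_nt.SY.Ts
import Pool.Agent.Lib.MP_b4b3cb_nt.HF.Lin1

/-! The periods in the ordinary case. -/

namespace Pool.Agent.SY

open Matrix Pool.Agent.HF

namespace OPer

theorem inv_act {Y : Type} [CommRing Y] [Algebra ℚ_[2] Y] (s : Y →ₐ[ℚ_[2]] Y) {y y' : Y}
    {c : ℚ_[2]} (h : y * y' = 1) (hc : c ≠ 0) (e : s y = c • y) : s y' = c⁻¹ • y' := by
  have := congrArg s h
  rw [map_mul, e, map_one, smul_mul_assoc] at this
  rw [eq_inv_smul_iff₀ hc]
  rw [Algebra.smul_def] at this ⊢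
  linear_combination y' * this - algebraMap ℚ_[2] Y c * s y' * h

theorem rs {Y : Type} [CommRing Y] [Algebra ℚ_[2] Y] (y : Y) (c : ℚ_[2]) :
    y * algebraMap ℚ_[2] Y c = c • y := by rw [mul_comm, Algebra.smul_def]

theorem map_map {Y : Type} [CommRing Y] [Algebra ℚ_[2] Y] (s : Y →ₐ[ℚ_[2]] Y) (P : M2 ℚ_[2])
    (Q : M2 Y) : (P.map (algebraMap _ Y) * Q).map s = P.map (algebraMap _ Y) * Q.map s := by
  ext i j
  simp [mul_apply]

theorem unit {Y : Type} [CommRing Y] [Algebra ℚ_[2] Y] {P : M2 ℚ_[2]} (hP : IsUnit P) {a b d : Y}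
    (h : IsUnit (a * d)) : IsUnit (P.map (algebraMap _ Y) * !![a, b; 0, d]) :=
  (hP.map (algebraMap ℚ_[2] Y).mapMatrix).mul
    ((isUnit_iff_isUnit_det _).2 (by rwa [det_fin_two_of, mul_zero, sub_zero]))

variable {G : Type} [Group G] [TopologicalSpace G] {χ : G →* ℚ_[2]} {B D C : Type} [CommRing B]
  [Algebra ℚ_[2] B] [CommRing D] [Algebra ℚ_[2] D] [CommRing C] [Algebra ℚ_[2] C]
  (X : PD G ℚ_[2] χ B D C) (δ : G →* ℚ_[2]) (w : Bˣ)

/-- `z` lifts `c w²` and defines the cocycle `x`. -/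
structure L (x : G → ℚ_[2]) (z : B) (c : ℚ_[2]) : Prop where
  fr : X.fB z = 2 * z
  co : ∀ g, X.gB g z = δ g ^ 2 • (z + x g • X.t)
  cg : X.β X.t ∣ X.β z - c • X.β (w ^ 2 : B)

variable {X δ w} {x x' : G → ℚ_[2]} {z z' : B} {c c' : ℚ_[2]}

theorem L.comb (p : L X δ w x z c) (q : L X δ w x' z' c') (r s : ℚ_[2]) :
    L X δ w (fun g => r * x g + s * x' g) (r • z + s • z') (r * c + s * c') where
  fr := by simp only [map_add, map_smul, p.fr, q.fr, mul_add, mul_smul_comm]
  co g := by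
    rw [map_add, map_smul, map_smul, p.co, q.co]
    module
  cg := by
    have := (p.cg.mul_left (algebraMap ℚ_[2] D r)).add (q.cg.mul_left (algebraMap ℚ_[2] D s))
    refine this.trans (dvd_of_eq ?_)
    simp only [← Algebra.smul_def, map_add, map_smul]
    module

theorem cob : L X δ w (fun g => χ g / δ g ^ 2 - 1) X.t 0 where
  fr := X.ft
  co g := by
    have := ch_ne δ g
    rw [X.gt, sub_smul, one_smul, add_sub_cancel, smul_smul, mul_div_cancel₀ _ (pow_ne_zero 2 this)]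
  cg := by simp

theorem sq (hw : ∀ g, X.gB g w = δ g • (w : B)) (g : G) :
    X.gB g (w ^ 2 : B) = δ g ^ 2 • (w ^ 2 : B) := by rw [map_pow, hw, smul_pow]

theorem ex (hw : ∀ g, X.gB g w = δ g • (w : B)) : ∃ x z, L X δ w x z 1 := by
  obtain ⟨z, fz, cz⟩ := X.s1 (X.β (w ^ 2 : B))
  have : ∀ g, ∃ c : ℚ_[2], (δ g ^ 2)⁻¹ • X.gB g z - z = c • X.t ^ 1 := fun g => by
    refine X.ker 1 _ ?_ ?_
    · simp only [map_sub, map_smul, X.fg, fz, map_mul, map_ofNat, pow_one, mul_sub, mul_smul_comm]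
    · obtain ⟨y, hy⟩ := cz
      have e := congrArg (X.gD g) hy
      rw [map_sub, map_mul, ← X.βg, ← X.βg, ← X.βg, sq hw, X.gt, map_smul, map_smul,
        sub_eq_iff_eq_add] at e
      rw [sub_eq_iff_eq_add] at hy
      refine ⟨(δ g ^ 2)⁻¹ • χ g • X.gD g y - y, ?_⟩
      rw [map_sub, map_smul, e, smul_add, inv_smul_smul₀ (pow_ne_zero 2 (ch_ne δ g)), hy, pow_one,
        mul_sub, mul_smul_comm, mul_smul_comm, smul_mul_assoc, add_sub_add_right_eq_sub]
  choose x hx using this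
  refine ⟨x, z, fz, fun g => ?_, by rwa [one_smul]⟩
  rw [← inv_smul_eq_iff₀ (pow_ne_zero 2 (ch_ne δ g)), ← sub_eq_iff_eq_add', hx, pow_one]

theorem L.coc (p : L X δ w x z c) (cδ : Continuous δ) :
    Continuous x ∧ ∀ g h, x (g * h) = x g + χ g / δ g ^ 2 * x h := by
  refine ⟨PD.LC.cont (X := X) (m := 1) ?_, fun g h => X.uq 1 ?_⟩
  · have : ∀ g, x g • X.t ^ 1 = (δ g ^ 2)⁻¹ • X.gB g z - z := fun g => by
      rw [p.co, inv_smul_smul₀ (pow_ne_zero 2 (ch_ne δ g)), add_sub_cancel_left, pow_one]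
    simp only [this]
    exact (PD.LC.smul ((cδ.pow 2).inv₀ fun g => pow_ne_zero _ (ch_ne δ g)) (X.ct _)).sub
      (PD.LC.const _)
  · have e := p.co (g * h)
    rw [map_mul, AlgHom.mul_apply, p.co, map_smul, map_add, p.co, map_smul, X.gt, map_mul, mul_pow,
      mul_comm, mul_smul, smul_right_inj (pow_ne_zero 2 (ch_ne δ h)),
      ← inv_smul_eq_iff₀ (pow_ne_zero 2 (ch_ne δ g)), smul_add,
      inv_smul_smul₀ (pow_ne_zero 2 (ch_ne δ g)), add_assoc, add_right_inj] at e
    rw [pow_one, ← e, div_eq_mul_inv]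
    module

theorem triv (h : X.β X.t = 0) : False :=
  X.nu (by
    have : Subsingleton D := subsingleton_of_zero_eq_one (X.nzd 1 (by rw [h, zero_mul])).symm
    exact isUnit_of_subsingleton _)

/-- An eigenvector with the character of `w²` and another Frobenius eigenvalue is zero. -/
theorem kill (hT : TT X) (hw : ∀ g, X.gB g w = δ g • (w : B)) {u v : ℚ_[2]}
    (fw : X.fB w = u • (w : B)) (huv : u ^ 2 ≠ v) (hz : ∀ g, X.gB g z = δ g ^ 2 • z)
    (fz : X.fB z = v • z) : X.β z = 0 := by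
  have i2 : X.γ (w ^ 2 : B) * X.γ (w⁻¹ ^ 2 : Bˣ) = 1 := by
    rw [← map_mul, ← Units.val_pow_eq_pow_val, ← Units.val_mul, ← mul_pow, mul_inv_cancel, one_pow,
      Units.val_one, map_one]
  obtain ⟨c, hc⟩ := hT.tc (X.γ z * X.γ (w⁻¹ ^ 2 : Bˣ)) fun g => by
    rw [map_mul, inv_act _ i2 (pow_ne_zero 2 (ch_ne δ g)) (by rw [← X.γg, sq hw, map_smul]),
      ← X.γg, hz, map_smul, smul_mul_smul_comm, mul_inv_cancel₀ (pow_ne_zero 2 (ch_ne δ g)),
      one_smul]
  have e : X.γ z = c • X.γ (w ^ 2 : B) := by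
    rw [Algebra.smul_def, ← hc, mul_assoc, mul_comm _ (X.γ _), i2, mul_one]
  have f := congrArg X.fC e
  rw [map_smul, ← X.γf, ← X.γf, fz, map_pow X.fB, fw, smul_pow, map_smul, map_smul, smul_comm,
    ← e, ← sub_eq_zero, ← sub_smul] at f
  refine X.kr z ?_
  rw [← inv_smul_smul₀ (sub_ne_zero.2 huv.symm) (X.γ z), f, smul_zero]

theorem lift [IsTopologicalGroup G] (hT : TT X) (cχ : Continuous χ) (cδ : Continuous δ)
    (H : H1 χ) (hw : ∀ g, X.gB g w = δ g • (w : B)) {u : ℚ_[2]} (fw : X.fB w = u • (w : B))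
    (u1 : u ^ 2 ≠ 1) (u2 : u ^ 2 ≠ 2)
    (hx : Continuous x ∧ ∀ g h, x (g * h) = x g + χ g / δ g ^ 2 * x h) :
    ∃ z c, L X δ w x z c := by
  obtain ⟨x0, z0, p⟩ := ex hw
  have q := cob (X := X) (δ := δ) (w := w)
  let η : G →* ℚ_[2] :=
    { toFun := fun g => χ g / δ g ^ 2
      map_one' := by simp
      map_mul' := fun g h => by rw [map_mul, map_mul, mul_pow, mul_div_mul_comm] }
  have hn : η ≠ χ := fun e => by
    have h1 := kill (z := 1) (v := 1) hT hw fw u1 (fun g => by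
      have e1 : χ g / δ g ^ 2 = χ g := DFunLike.congr_fun e g
      rw [div_eq_iff (pow_ne_zero 2 (ch_ne δ g)), left_eq_mul₀ (ch_ne χ g)] at e1
      rw [e1, map_one, one_smul]) (by rw [map_one, one_smul])
    exact triv (X := X) (by rw [← mul_one X.t, map_mul, h1, mul_zero])
  have h := H η (cχ.div₀ (cδ.pow 2) fun g => pow_ne_zero 2 (ch_ne δ g)) hn
    ![x, x0, fun g => χ g / δ g ^ 2 - 1] fun i => by
      fin_cases i
      exacts [hx, p.coc cδ, q.coc cδ]
  obtain ⟨c, hc, i, hi⟩ := Fintype.not_linearIndependent_iff.1 h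
  have e : ∀ g, c 0 * x g + c 1 * x0 g + c 2 * (χ g / δ g ^ 2 - 1) = 0 := fun g => by
    simpa [Fin.sum_univ_three] using congrFun hc g
  by_cases c0 : c 0 = 0
  · have r := p.comb q (c 1) (c 2)
    have k := kill (v := 2) hT hw fw u2 (fun g => by
      rw [r.co, show c 1 * x0 g + c 2 * (χ g / δ g ^ 2 - 1) = 0 by
        linear_combination e g - x g * c0, zero_smul, add_zero])
      (by rw [r.fr, two_mul, two_smul])
    have c1 : c 1 = 0 := by
      by_contra c1
      have d := r.cg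
      rw [k, zero_sub, dvd_neg, mul_zero, add_zero, mul_one, Algebra.smul_def] at d
      exact X.nu (isUnit_of_dvd_unit d (((IsUnit.mk0 _ c1).map _).mul ((w.isUnit.pow 2).map _)))
    have c2 : c 2 ≠ 0 := by
      fin_cases i
      exacts [(hi c0).elim, (hi c1).elim, hi]
    rw [c1, zero_smul, zero_add, map_smul] at k
    exact (triv (X := X) (by rw [← inv_smul_smul₀ c2 (X.β X.t), k, smul_zero])).elim
  · have r := p.comb q (-(c 1 / c 0)) (-(c 2 / c 0))
    have : x = fun g => -(c 1 / c 0) * x0 g + -(c 2 / c 0) * (χ g / δ g ^ 2 - 1) :=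
      funext fun g => mul_left_cancel₀ c0 (by
        rw [mul_add, ← mul_assoc, ← mul_assoc, mul_neg, mul_neg, mul_div_cancel₀ _ c0,
          mul_div_cancel₀ _ c0]
        linear_combination e g)
    exact ⟨_, _, this ▸ r⟩

end OPer

open OPer in
theorem oper : OPerSt := by
  intro G _ _ _ χ B D C _ _ _ _ _ _ X hT cχ H t a u P w ct hd ha hu hP fw h
  choose η b δ hM hw using h
  have dP := (isUnit_iff_isUnit_det _).1 hP
  have eM : ∀ g, !![η g, b g; 0, δ g] = P⁻¹ * t g * P := fun g => by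
    rw [mul_assoc, hM, nonsing_inv_mul_cancel_left _ _ dP]
  have mM : ∀ g h, !![η (g * h), b (g * h); 0, δ (g * h)] =
      !![η g, b g; 0, δ g] * !![η h, b h; 0, δ h] := fun g h => by
    rw [eM, eM g, mul_assoc _ P, ← hM, map_mul]
    simp only [mul_assoc]
  have cM : Continuous fun g => !![η g, b g; 0, δ g] := by
    simp only [eM]
    exact (continuous_const.matrix_mul ct).matrix_mul continuous_const
  have ed : ∀ g, η g * δ g = χ g := fun g => by
    have := congrArg det (hM g)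
    rw [det_mul, det_mul, det_fin_two_of, mul_zero, sub_zero, hd, mul_comm] at this
    exact (mul_left_cancel₀ dP.ne_zero this).symm
  have δ0 : ∀ g, δ g ≠ 0 := fun g => right_ne_zero_of_mul (ed g ▸ ch_ne χ g)
  have mδ : ∀ g h, δ (g * h) = δ g * δ h := fun g h => by
    simpa [mul_apply] using congrFun (congrFun (mM g h) 1) 1
  let δ' : G →* ℚ_[2] :=
    { toFun := δ
      map_one' := mul_left_cancel₀ (δ0 1) (by rw [← mδ, mul_one, mul_one])
      map_mul' := mδ }
  have cδ : Continuous δ := cM.matrix_elem 1 1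
  have u0 : ((u : ℤ_[2]) : ℚ_[2]) ≠ 0 := PadicInt.coe_ne_zero.2 u.ne_zero
  have hu' : ((u : ℤ_[2]) : ℚ_[2]) ^ 2 - a * ((u : ℤ_[2]) : ℚ_[2]) + 2 = 0 := by
    exact_mod_cast congrArg ((↑) : ℤ_[2] → ℚ_[2]) hu
  have u1 : ((u : ℤ_[2]) : ℚ_[2]) ^ 2 ≠ 1 := fun e => by
    have : ((a ^ 2 : ℤ) : ℚ_[2]) = (9 : ℤ) := by
      push_cast
      linear_combination -(a : ℚ_[2]) ^ 2 * e + (a * ((u : ℤ_[2]) : ℚ_[2]) + 3) * (e - hu')
    have := Int.cast_injective this
    omega
  have u2 : ((u : ℤ_[2]) : ℚ_[2]) ^ 2 ≠ 2 := fun e => by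
    have := congrArg norm e
    rw [norm_pow, PadicInt.padic_norm_e_of_padicInt, PadicInt.isUnit_iff.1 u.isUnit, nm_two] at this
    norm_num at this
  obtain ⟨z, c, p⟩ := lift (δ := δ') (x := fun g => b g / δ g) hT cχ cδ H hw fw u1 u2
    ⟨(cM.matrix_elem 0 1).div₀ cδ δ0, fun g h => by
      have e : b (g * h) = η g * b h + b g * δ h := by
        simpa [mul_apply] using congrFun (congrFun (mM g h) 0) 1
      have := δ0 g
      have := δ0 h
      change _ = _ + _ / δ g ^ 2 * _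
      rw [e, mδ, ← ed]
      field_simp
      ring⟩
  have co : ∀ g, X.gB g z = δ g ^ 2 • (z + (b g / δ g) • X.t) := p.co
  have key : ∀ {Y : Type} [CommRing Y] [Algebra ℚ_[2] Y] (g : G) (Q : M2 Y),
      (t g).map (algebraMap _ Y) * (P.map (algebraMap _ Y) * Q) =
        P.map (algebraMap _ Y) * ((!![η g, b g; 0, δ g]).map (algebraMap _ Y) * Q) := fun g Q => by
    rw [← mul_assoc, ← Matrix.map_mul, hM, Matrix.map_mul, mul_assoc]
  constructor
  · obtain ⟨τ, hτ⟩ := X.ut.exists_right_inv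
    have i1 : X.γ w * X.γ (w⁻¹ : Bˣ) = 1 := by rw [← map_mul, w.mul_inv, map_one]
    refine ⟨P.map (algebraMap _ C) * !![X.γ w * τ, -(X.γ z * τ * X.γ (w⁻¹ : Bˣ)); 0, X.γ (w⁻¹ : Bˣ)],
      !![2 / ((u : ℤ_[2]) : ℚ_[2]), 0; 0, ((u : ℤ_[2]) : ℚ_[2])], unit hP ?_, fun g => ?_, ?_, ?_, ?_⟩
    · rw [mul_right_comm, i1, one_mul]
      exact IsUnit.of_mul_eq_one_right _ hτ
    · have e1 : X.gC g (X.γ w) = δ g • X.γ w := by rw [← X.γg, hw, map_smul]
      have e2 := inv_act _ i1 (δ0 g) e1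
      have e3 := inv_act (X.gC g) hτ (ch_ne χ g) (by rw [← X.γg, X.gt, map_smul])
      have e4 : X.gC g (X.γ z) * τ = δ g ^ 2 • (X.γ z * τ + (b g / δ g) • 1) := by
        rw [← X.γg, co, map_smul, map_add, map_smul, smul_mul_assoc, add_mul, smul_mul_assoc, hτ]
      have n1 := δ0 g
      have n2 : η g ≠ 0 := left_ne_zero_of_mul (ed g ▸ ch_ne χ g)
      rw [OPer.map_map, key]
      congr 1
      ext i j
      fin_cases i <;> fin_cases j
      · simp only [mul_apply, Fin.sum_univ_two, map_apply, of_apply, cons_val', cons_val_zero,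
          cons_val_one, cons_val_fin_one, Fin.zero_eta, map_mul, e1, e3, map_zero, mul_zero,
          add_zero, ← Algebra.smul_def, smul_mul_smul_comm, smul_smul, ← ed, smul_zero]
        rw [show η g * (δ g * (η g * δ g)⁻¹) = 1 by field_simp, one_smul]
      · simp only [mul_apply, Fin.sum_univ_two, map_apply, of_apply, cons_val', cons_val_zero,
          cons_val_one, cons_val_fin_one, Fin.zero_eta, Fin.mk_one, map_mul, map_neg, e2, e3,
          ← Algebra.smul_def, mul_smul_comm, e4, smul_mul_assoc, add_mul, one_mul, ← ed]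
        match_scalars <;> field_simp
        ring
      · simp [mul_apply]
      · simp only [mul_apply, Fin.sum_univ_two, map_apply, of_apply, cons_val', cons_val_zero,
          cons_val_one, cons_val_fin_one, Fin.mk_one, map_zero, zero_mul, zero_add, e2,
          ← Algebra.smul_def, smul_inv_smul₀ n1, zero_smul]
    · have e1 : X.fC (X.γ w) = ((u : ℤ_[2]) : ℚ_[2]) • X.γ w := by rw [← X.γf, fw, map_smul]
      have e2 := inv_act _ i1 u0 e1
      have e3 := inv_act X.fC hτ (c := 2) two_ne_zero (by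
        rw [← X.γf, X.ft, two_mul, two_smul, map_add])
      have e4 : X.fC (X.γ z) = (2 : ℚ_[2]) • X.γ z := by
        rw [← X.γf, p.fr, two_mul, two_smul, map_add]
      rw [OPer.map_map, mul_assoc]
      congr 1
      ext i j
      fin_cases i <;> fin_cases j <;>
        simp only [mul_apply, Fin.sum_univ_two, map_apply, of_apply, cons_val', cons_val_zero,
          cons_val_one, cons_val_fin_one, Fin.zero_eta, Fin.mk_one, map_mul, map_neg, e1, e2, e3,
          e4, map_zero, add_zero, zero_add, rs, mul_smul_comm, smul_mul_assoc, smul_zero,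
          zero_smul] <;>
        match_scalars <;> field_simp
    · rw [det_fin_two_of, mul_zero, sub_zero, div_mul_cancel₀ _ u0]
    · rw [trace_fin_two_of, div_add' _ _ _ u0, div_eq_iff u0]
      linear_combination hu'
  · obtain ⟨y, hy⟩ := p.cg
    have i1 : X.β w * X.β (w⁻¹ : Bˣ) = 1 := by rw [← map_mul, w.mul_inv, map_one]
    refine ⟨P.map (algebraMap _ D) * !![X.β w, -(y * X.β (w⁻¹ : Bˣ)); 0, X.β (w⁻¹ : Bˣ)],
      unit hP (i1 ▸ isUnit_one), fun g => ?_⟩
    have e1 : X.gD g (X.β w) = δ g • X.β w := by rw [← X.βg, hw, map_smul]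
    have e2 := inv_act _ i1 (δ0 g) e1
    have n1 := δ0 g
    have n2 : η g ≠ 0 := left_ne_zero_of_mul (ed g ▸ ch_ne χ g)
    have e3 : X.gD g y = (χ g)⁻¹ • δ g ^ 2 • (y + (b g / δ g) • 1) := by
      have e := congrArg (X.gD g) hy
      rw [map_sub, map_smul, map_mul, ← X.βg, ← X.βg, ← X.βg, co, sq (δ := δ') hw, X.gt, map_smul,
        map_smul, map_smul, map_add, map_smul, sub_eq_iff_eq_add.1 hy] at e
      rw [eq_inv_smul_iff₀ (ch_ne χ g)]
      refine sub_eq_zero.1 (X.nzd _ ?_)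
      rw [mul_sub, mul_smul_comm, ← smul_mul_assoc, ← e, mul_smul_comm, mul_add, mul_smul_comm,
        mul_one]
      change _ - c • δ g ^ 2 • _ - _ = 0
      module
    rw [OPer.map_map, key, mul_assoc]
    congr 1
    ext i j
    fin_cases i <;> fin_cases j <;>
      simp only [mul_apply, Fin.sum_univ_two, map_apply, of_apply, cons_val', cons_val_zero,
        cons_val_one, cons_val_fin_one, Fin.zero_eta, Fin.mk_one, map_mul, map_neg, e1, e2, e3,
        map_zero, mul_zero, add_zero, zero_add, diagonal_apply_eq, ne_eq, zero_ne_one,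
        one_ne_zero, not_false_eq_true, diagonal_apply_ne, mul_one, ← ed, rs,
        ← Algebra.smul_def, mul_smul_comm, smul_mul_assoc, add_mul, one_mul, smul_zero,
        zero_smul] <;>
      match_scalars <;> field_simp
    ring

end Pool.Agent.SY
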