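import Pool.Agent.Lib.MP_b4b3cb_nt.SY.St2
import Pool.Agent.Lib.MP_b4b3cb_nt.HF.AcB

/-! The periods of the supersingular formal group. -/

namespace Pool.Agent.SY

open Matrix WeierstrassCurve Pool.Agent.SelTwo Pool.Agent.HF WittVector
open Pool.Agent.Lib.MP_02f36d_nt (xc yc pt_ext xc_ptMap yc_ptMap ptMap_ne)
open scoped Classical

namespace OmA

variable {R R' : Type} [CommRing R] [CommRing R'] {W : WeierstrassCurve ℤ}

theorem mem_rd {v x : R} : x ∈ rd v ↔ ∃ n, v ∣ x ^ n := by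
  simp only [rd, Ideal.mem_radical_iff, Ideal.mem_span_singleton]

theorem rd_map (f : R →+* R') (x : R) (h : x ∈ rd (2 : R)) : f x ∈ rd (2 : R') :=
  mem_rd.2 ((mem_rd.1 h).imp fun n e => by simpa only [map_ofNat, map_pow] using map_dvd f e)

theorem rd_fr [ExpChar R 2] (v x : R) (h : x ∈ rd v) : frobenius R 2 x ∈ rd v :=
  Ideal.pow_mem_of_mem _ h 2 two_pos

theorem dvd_map (f : R →+* R') {n : ℕ} {x : R} (h : 2 ^ n ∣ x) : 2 ^ n ∣ f x := by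
  simpa only [map_ofNat, map_pow] using map_dvd f h

theorem pt_uniq {K : Type} [Field K] {ι : R →+* K} {p : R × R} {P P' : (cv W K).Point}
    (a : Pt ι p P) (b : Pt ι p P') : P = P' := by
  rcases a with ⟨a, rfl⟩ | ⟨a, a0, a1, a2⟩ <;> rcases b with ⟨b, rfl⟩ | ⟨b, b0, b1, b2⟩
  · rfl
  · exact absurd a b
  · exact absurd b a
  have : ι p.2 ≠ 0 := fun e => by simp [e] at a2
  exact pt_ext a0 b0 (mul_right_cancel₀ this (a1.trans b1.symm))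
    (mul_right_cancel₀ this (a2.trans b2.symm))

theorem pt_map {K : Type} [Field K] {ι : R →+* K} (i : Function.Injective ι) {p : R × R}
    {P : (cv W K).Point} (a : Pt ι p P) (f : R →+* R) (σ : K →+* K) (h : ∀ x, ι (f x) = σ (ι x)) :
    Pt ι (f p.1, f p.2) (gm W σ P) := by
  rcases a with ⟨a, rfl⟩ | ⟨a, a0, a1, a2⟩
  · exact Or.inl ⟨by rw [a, map_zero], map_zero _⟩
  refine Or.inr ⟨fun e : f p.1 = 0 => a (i (σ.injective ?_)), ptMap_ne _ a0, ?_, ?_⟩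
  · rw [← h, e, map_zero, map_zero]
  · rw [gm, xc_ptMap, h, h, ← map_mul, a1]
  · rw [gm, yc_ptMap, h, ← map_mul, a2, map_neg, map_one]

variable {A : Type} [AddCommGroup A] {z : A → R}

/-- The points whose parameter is divisible by `y`. -/
def sub (h : FG z) (y : R) : AddSubgroup A where
  carrier := {P | y ∣ z P}
  zero_mem' := by simp [h.zero]
  add_mem' {P Q} a b := by simpa using (Dvd.dvd.trans b (h.add1 P Q)).add a
  neg_mem' {P} a := by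
    have := h.add3 0 P
    rw [h.zero, zero_sub, zero_sub, neg_dvd] at this
    exact Dvd.dvd.trans a this

theorem four (h : FG z) {P : A} (a : 2 ∣ z P ^ 2) : 4 ∣ z (4 • P) := by
  obtain ⟨r, s, e⟩ := h.two P
  obtain ⟨r', s', e'⟩ := h.two (2 • P)
  obtain ⟨c, a⟩ := a
  have : z (2 • P) = 2 * (z P + z P ^ 2 * r + 2 * c ^ 2 * (1 + z P * s)) := by
    linear_combination e + (z P ^ 2 + 2 * c) * (1 + z P * s) * a
  rw [show 4 • P = 2 • 2 • P from (smul_smul 2 2 P).symm, e', this]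
  generalize z P + z P ^ 2 * r + 2 * c ^ 2 * (1 + z P * s) = d
  exact ⟨d + 2 * d ^ 2 * r' + 4 * d ^ 4 * (1 + 2 * d * s'), by ring⟩

theorem grp (G : GrpSt) [IsDomain R] (hu : IsUnit (W.Δ : R)) (I : Ideal R) (J : Jac I) :
    ∃ _ : AddCommGroup (FP W I), FL W I :=
  (G W R (FractionRing R) (algebraMap _ _) (IsFractionRing.injective _ _) (by
    have := (hu.map (algebraMap R (FractionRing R))).ne_zero
    rw [map_intCast] at this
    simpa [cv, baseChange] using this) I J).1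

theorem core (ZS : ZSt) (LS : LogSt) {O A' : Type} [CommRing O] [AddCommGroup A'] {θ : R →+* O}
    {z' : A' → O} {T : A →+ A'} (fg : FG z) (fg' : FG z') (zT : ∀ P, z' (T P) = θ (z P))
    (sur : Function.Surjective T) (c : Cpl (2 : R)) (c' : Cpl (2 : O))
    (hen : ∀ P x, 2 ∣ x - z P → ∃ Q, z Q = x) (θ2 : ∀ y, 2 ∣ θ y → 2 ∣ y ^ 2)
    (nz : ∀ x : R, 2 * x = 0 → x = 0) [IsDomain O] (nz' : (2 : O) ≠ 0) (p : Z2 → ℕ → A')
    (pa : ∀ x y, p (x + y) = p x + p y) (cm : ∀ x, Cm (p x)) (p0 : ∀ x, p x 0 = 0) :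
    ∃ ω : Z2 →+ R, (∀ x, θ (ω x) = 0) ∧ (∀ x (F : A →+ A), (∀ P, 2 ∣ z (F P) - z P ^ 2) →
        ω x = 0 → ∃ Q, 2 ∣ z' Q - z' (p x 1) ^ 2 ∧ 2 ^ 3 • Q = 0) ∧
      (∀ (ρ : A →+ A) (r : R →+* R) (s : A' →+ A') x y, (∀ P, z (ρ P) = r (z P)) →
        (∀ P, T (ρ P) = s (T P)) → (∀ n, s (p x n) = p y n) → r (ω x) = ω y) ∧
      ∀ (F : A →+ A) (ph : R →+* R) (b : ℤ), (∀ P, z (F P) = ph (z P)) →
        (∀ P', ∃ P, T P = P' ∧ 2 ∣ z (F (F P) - b • F P + 2 • P)) →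
        ∀ x, ph (ph (ω x)) - b * ph (ω x) + 2 * ω x = 0 := by
  obtain ⟨Z, hZ⟩ := ZS R O A A' θ z z' T fg fg' zT sur c c' hen θ2
  obtain ⟨l, hl⟩ := LS R A z fg c nz
  have T0 : ∀ x, T (Z (p x)) = 0 := fun x => (hZ _ (cm x)).2.1.trans (p0 x)
  have d4 : ∀ x, 4 ∣ z (4 • Z (p x)) := fun x => four fg (θ2 _ (by
    rw [← zT, T0, fg'.zero]; exact dvd_zero _))
  refine ⟨AddMonoidHom.mk' (fun x => l (4 • Z (p x))) fun x y => by
    rw [pa, (hZ _ (cm x)).1 _ (cm y), smul_add, (hl _ (d4 x)).1 _ (d4 y)], fun x => ?_,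
    fun x F hF h0 => ?_, fun ρ r s x y hρ hs e => ?_, fun F ph b hF h x => ?_⟩
  · refine c'.1 _ fun n => ?_
    have := dvd_map θ ((hl _ (d4 x)).2.2.1 n)
    rw [map_sub, ← zT, map_nsmul, map_nsmul, T0, smul_zero, smul_zero, fg'.zero, zero_sub, dvd_neg,
      map_mul, map_pow, map_ofNat, two_mul n, pow_add] at this
    exact (mul_dvd_mul_iff_left (pow_ne_zero _ nz')).1 this
  · have z0 := (hl _ (d4 x)).2.1 h0
    rw [← (hZ _ (cm _)).2.2.1, smul_smul] at z0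
    refine ⟨T (F (Z fun n => p x (n + 1))), ?_, by
      rw [← map_nsmul, ← map_nsmul, show 2 ^ 3 = 4 * 2 from rfl, z0, map_zero, map_zero]⟩
    rw [← show T (Z fun n => p x (n + 1)) = p x 1 from (hZ _ fun n => cm x (n + 1)).2.1, zT, zT, ← map_pow, ← map_sub]
    simpa only [map_ofNat] using map_dvd θ (hF _)
  · have := (hZ _ (cm x)).2.2.2.1 ρ s (fun n P m => hρ P ▸ dvd_map r m) hs
    change r (l _) = l _
    rw [← (hl _ (d4 x)).2.2.2 ρ r hρ, map_nsmul, this, funext e]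
  have sF : ∀ n P, P ∈ sub fg (2 ^ n) → F P ∈ sub fg (2 ^ n) := fun n P m =>
    show 2 ^ n ∣ z (F P) from hF P ▸ dvd_map ph m
  obtain ⟨ψ, hψ⟩ : ∃ ψ : A →+ A, ∀ P, ψ P = F (F P) - b • F P + 2 • P :=
    ⟨F.comp F - b • F + 2 • AddMonoidHom.id A, fun P => by simp⟩
  have sψ : ∀ n P, P ∈ sub fg (2 ^ n) → ψ P ∈ sub fg (2 ^ n) := fun n P m => hψ P ▸
    add_mem (sub_mem (sF n _ (sF n P m)) (zsmul_mem (sF n P m) b)) (nsmul_mem m 2)
  have z0 := (hZ _ (cm x)).2.2.2.2 ψ sψ fun n => by simpa only [hψ] using h _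
  have s4 : ∀ P, P ∈ sub fg 4 → F P ∈ sub fg 4 := fun P m => by
    simpa only [show (2 : R) ^ 2 = 4 by norm_num] using
      sF 2 P (by rwa [show (2 : R) ^ 2 = 4 by norm_num])
  let L : sub fg 4 →+ R := AddMonoidHom.mk' (fun P => l P) fun P Q => (hl _ P.2).1 _ Q.2
  have z1 : (⟨_, s4 _ (s4 _ (d4 x))⟩ - b • ⟨_, s4 _ (d4 x)⟩ + 2 • ⟨_, d4 x⟩ : sub fg 4) = 0 :=
    Subtype.ext ((hψ _).symm.trans (by rw [map_nsmul, z0, smul_zero]; rfl))
  have := congrArg L z1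
  rw [map_add, map_sub, map_zsmul, map_nsmul L, map_zero, zsmul_eq_mul, nsmul_eq_mul] at this
  change l (F (F _)) - b * l (F _) + (2 : ℕ) * l _ = 0 at this
  rw [(hl _ (s4 _ (d4 x))).2.2.2 F ph hF, (hl _ (d4 x)).2.2.2 F ph hF] at this
  exact_mod_cast this

theorem frob {B : Type} [AddCommGroup B] {z' : B → R'} (z0 : z' 0 = 0)
    {κ : R' →+* R ⧸ Ideal.span {(2 : R)}} {H : AddSubgroup (A × B)}
    (hH : ∀ P P', (P, P') ∈ H ↔ Ideal.Quotient.mk _ (z P) = κ (z' P')) {F : A →+ A} {F₀ : B →+ B}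
    (hF : ∀ P, 2 ∣ z (F P) - z P ^ 2) (hF₀ : ∀ P, z' (F₀ P) = z' P ^ 2) {b : ℤ} {P : A} {P₀ : B}
    (m : Ideal.Quotient.mk _ (z P) = κ (z' P₀)) (rel : F₀ (F₀ P₀) - b • F₀ P₀ + 2 • P₀ = 0) :
    2 ∣ z (F (F P) - b • F P + 2 • P) := by
  have st : ∀ P P', (P, P') ∈ H → (F P, F₀ P') ∈ H := fun P P' m => by
    rw [hH] at m ⊢
    rw [hF₀, map_pow, ← m, ← map_pow]
    exact Ideal.Quotient.eq.2 (Ideal.mem_span_singleton.2 (hF _))
  rw [← hH] at m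
  have := add_mem (sub_mem (st _ _ (st _ _ m)) (zsmul_mem (st _ _ m) b)) (nsmul_mem m 2)
  simp only [Prod.smul_mk, Prod.mk_sub_mk, Prod.mk_add_mk] at this
  rw [rel, hH, z0, map_zero] at this
  exact (Ideal.Quotient.eq_zero_iff_dvd _ _).1 this

theorem nil (x : R) (hx : x ∈ rd (2 : R)) (s : R ⧸ Ideal.span {(2 : R)}) :
    IsUnit (1 + Ideal.Quotient.mk _ x * s) := by
  obtain ⟨n, hn⟩ := mem_rd.1 hx
  refine IsNilpotent.isUnit_one_add ⟨n, ?_⟩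
  rw [mul_pow, ← map_pow, (Ideal.Quotient.eq_zero_iff_dvd _ _).2 hn, zero_mul]

theorem tate {B : Type} [AddCommGroup B] {e : Z2 →+ ℕ → B} (he : TW e) {π : A →+ B}
    (πi : Function.Injective π) (ex : ∀ x n, ∃ P, π P = e x n) : ∃ p : Z2 → ℕ → A,
      (∀ x n, π (p x n) = e x n) ∧ (∀ x y, p (x + y) = p x + p y) ∧ (∀ x, Cm (p x)) ∧
      (∀ x, p x 0 = 0) ∧ p (Pi.single 0 1) 1 ≠ 0 := by
  choose p hp using ex
  refine ⟨p, hp, fun x y => funext fun n => πi (by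
    rw [Pi.add_apply, map_add, hp, hp, hp, map_add, Pi.add_apply]),
    fun x n => πi (by rw [map_nsmul, hp, hp, he.two]),
    fun x => πi (by rw [hp, he.zero, map_zero]), fun e0 => ?_⟩
  have := (he.ker (Pi.single 0 1) 1).1 (by rw [← hp, e0, map_zero]) 0
  rw [Pi.single_eq_same, pow_one, ← isUnit_iff_dvd_one] at this
  exact PadicInt.prime_p.not_isUnit (by exact_mod_cast this)

end OmA

open OmA

theorem om : GrpSt → FGSt → HenSt → AcSt → ZSt → LogSt → TorSt → FmSt → RelSt → OmSt := by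
  intro G FS Hn AC ZS LS TS Fm Rl W hΔ h1 e he
  have := AC.1
  have hph := AC.2.2.2.1
  obtain ⟨κ, hκ⟩ := AC.2.2.2.2
  obtain ⟨h3, fm⟩ := Fm W hΔ h1
  obtain ⟨b, b1, b2, rel⟩ := Rl W hΔ h1 h3
  obtain ⟨k, hk⟩ := hΔ
  obtain ⟨J, hen⟩ := Hn W Ac 2 ac2_cpl
  obtain ⟨J', -⟩ := Hn W OC 2 oc_cpl
  obtain ⟨Jt, hent⟩ := Hn W Ti _ AC.2.1
  obtain ⟨_, fl⟩ := grp (W := W) G (by
    rw [hk]; push_cast; rw [add_comm]; exact ac2_cpl.unit _) _ J
  obtain ⟨_, flt⟩ := grp (W := W) G (by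
    rw [hk]; push_cast; rw [(CharTwo.two_eq_zero : (2 : Ti) = 0), zero_mul, zero_add]
    exact isUnit_one) _ Jt
  obtain ⟨⟨_, fl'⟩, hπ⟩ := G W OC ℂ_[2] (PadicComplexInt 2).subtype Subtype.val_injective
    (cv_Δ (by omega)) _ J'
  obtain ⟨π, πi, hπ⟩ := hπ _ fl'
  obtain ⟨θ, θ1⟩ := exTc
  obtain ⟨θ2, θ3⟩ := AC.2.2.1 θ θ1
  obtain ⟨fg, fA⟩ := FS W Ac _ J fl
  obtain ⟨fg', fO⟩ := FS W OC _ J' fl'
  replace fg := fg h1 h3
  replace fg' := fg' h1 h3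
  obtain ⟨T, hT⟩ := (fA OC _ J' fl').1 θ (rd_map θ)
  have zT : ∀ P, fz (T P) = θ (fz P) := fun P => congrArg Prod.fst (hT P)
  have mA : ∀ r : Ac →+* Ac, ∃ ρ : FP W (rd (2 : Ac)) →+ FP W (rd (2 : Ac)),
      ∀ P, fz (ρ P) = r (fz P) := fun r =>
    ((fA Ac _ J fl).1 r (rd_map r)).imp fun _ h P => congrArg Prod.fst (h P)
  have lift : ∀ P', ∃ (P : FP W (rd (2 : Ac))) (x : Ti), T P = P' ∧ x ∈ rd (1 + eta) ∧
      fz P = algebraMap Ai Ac (teichmuller 2 x) := fun P' => by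
    obtain ⟨x, hx⟩ := un_surj (fz P')
    obtain ⟨n, hn⟩ := mem_rd.1 P'.2.1
    have t : θ (algebraMap Ai Ac (teichmuller 2 x)) = fz P' := by
      rw [θ1, fontaineTheta_teichmuller, hx]
    obtain ⟨P, hP⟩ := hen (algebraMap Ai Ac (teichmuller 2 x)) (mem_rd.2 ⟨n * 2, by
      rw [pow_mul]
      exact θ2 _ (by rwa [map_pow, t])⟩)
    exact ⟨P, x, fg'.inj (by rw [zT, hP, t]), mem_rd.2 ⟨n, TiA.one_add_dvd.2 (by
      rwa [map_pow, hx])⟩, hP⟩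
  obtain ⟨p, hp, pa, cm, p0, p1⟩ := tate he πi fun x n =>
    (fm _ n (he.tor x n)).imp fun P h => pt_uniq (hπ P) h
  obtain ⟨ω, w1, w2, w3, w4⟩ := core ZS LS fg fg' zT
    (fun P' => (lift P').imp fun _ h => h.elim fun _ h => h.1) ac2_cpl oc_cpl
    (fun P x ⟨c, h⟩ => hen x (by
      rw [sub_eq_iff_eq_add.1 h]
      exact add_mem (mem_rd.2 ⟨1, by simp⟩) P.2.1)) θ2 ac2_nzd (by norm_num) p pa cm p0
  refine ⟨b, ω, b1, b2, fun h0 => ?_, fun θ' h' x => ?_, fun ph h x => ?_,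
    fun σ u r A hu hr hA x => ?_⟩
  · obtain ⟨ph, -, h, -⟩ := exOvC AcB.th_fr_xi
    obtain ⟨F, hF⟩ := mA ph
    obtain ⟨Q, q1, q2⟩ := w2 (Pi.single 0 1) F (fun P => hF P ▸ hph ph h _) (by rw [h0]; rfl)
    exact TS _ fz fg' (fun P => P.2.1) _ Q ((cm _ 0).trans (p0 _)) p1 q1 3 q2
  · rw [ac_uniq θ' θ (fun y k => (mul_eq_zero.1 k).resolve_left (by norm_num))
      oc_cpl.1 fun a => (h' a).trans (θ1 a).symm, w1]
  · obtain ⟨F, hF⟩ := mA ph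
    have h0 := ((FS W Ti _ Jt flt).2 Ti _ Jt flt).1 fr
    obtain ⟨F₀, hF₀⟩ := h0 (rd_fr _)
    replace hF₀ : ∀ P, fz (F₀ P) = fz P ^ 2 := fun P =>
      (congrArg Prod.fst (hF₀ P)).trans (frobenius_def _ _)
    obtain ⟨H, hH⟩ := (fA Ti _ Jt flt).2 _ (Ideal.Quotient.mk (Ideal.span {(2 : Ac)})) κ nil
    refine w4 F ph b hF (fun P' => ?_) x
    obtain ⟨P, y, t, hy, e⟩ := lift P'
    obtain ⟨P₀, e₀⟩ := hent y hy
    exact ⟨P, t, frob (congrArg Prod.fst flt.zero) hH (fun P => hF P ▸ hph ph h _) hF₀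
      (by rw [e, e₀, hκ]) (rel flt F₀ hF₀ P₀)⟩
  · obtain ⟨ρ, hρ⟩ := mA r
    obtain ⟨s, hs⟩ := (fO OC _ J' fl').1 (TiA.res σ hu.1) (rd_map _)
    refine w3 ρ r s x _ hρ (fun P => fg'.inj ?_) fun n => πi ?_
    · rw [zT, hρ, show fz (s (T P)) = TiA.res σ hu.1 (fz (T P)) from congrArg Prod.fst (hs _), zT]
      exact Subtype.ext (θ3 σ u r hu hr _)
    · rw [hp, hA, ← hp]
      exact pt_uniq (hπ _) (hs _ ▸ pt_map Subtype.val_injective (hπ _) _ _ fun _ => rfl)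

end Pool.Agent.SY
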