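import Pool.Agent.Lib.MP_b4b3cb_nt.SY.Ts

/-! Good ordinary reduction at `2`. -/

namespace Pool.Agent.SY

open Matrix WeierstrassCurve
open Pool.Agent.Lib.MP_02f36d_nt
open scoped Classical

namespace OrdA

section

variable {B : Type} [AddCommGroup B] {R : ℕ → B}

theorem pw (h2 : ∀ n, 2 • R (n + 1) = R n) (n m : ℕ) : 2 ^ m • R (n + m) = R n := by
  induction m with
  | zero => simp
  | succ m ih => rw [pow_succ, mul_smul, ← add_assoc, h2, ih]

theorem dvd_of (h0 : R 0 = 0) (h2 : ∀ n, 2 • R (n + 1) = R n) (h1 : R 1 ≠ 0) (n : ℕ) (c : ℤ)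
    (h : c • R n = 0) : 2 ^ n ∣ c := by
  induction n generalizing c with
  | zero => simp
  | succ n ih =>
    obtain ⟨d, rfl⟩ := ih c (by rw [← h2, smul_comm, h, smul_zero])
    have a : d • R 1 = 0 := by
      rw [← pw h2 1 n, ← natCast_zsmul, smul_smul, add_comm, mul_comm]
      simpa using h
    have b : (2 : ℤ) • R 1 = 0 := by rw [← h0, ← h2 0]; exact natCast_zsmul _ 2
    obtain ⟨t, rfl | rfl⟩ := Int.even_or_odd' d
    · exact ⟨t, by ring⟩
    · rw [add_smul, mul_comm, mul_smul, b, smul_zero, zero_add, one_smul] at a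
      exact absurd a h1

theorem gen (h2 : ∀ n, 2 • R (n + 1) = R n) (ht : ∀ P : B, 2 • P = 0 → P = 0 ∨ P = R 1) (n : ℕ)
    (P : B) (h : 2 ^ n • P = 0) : ∃ c : ℤ, P = c • R n := by
  induction n generalizing P with
  | zero => exact ⟨0, by simpa using h⟩
  | succ n ih =>
    obtain ⟨c, hc⟩ := ih (2 • P) (by rw [← mul_smul, ← pow_succ, h])
    rcases ht (P - c • R (n + 1)) (by rw [smul_sub, smul_comm, h2, hc, sub_self]) with a | a
    · exact ⟨c, sub_eq_zero.1 a⟩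
    · refine ⟨((2 ^ n : ℕ) : ℤ) + c, ?_⟩
      rw [add_smul, natCast_zsmul, add_comm n, pw h2, add_comm 1]
      exact sub_eq_iff_eq_add.1 a

theorem lim (c : ℕ → ℤ) (h : ∀ n, (2 : ℤ) ^ n ∣ c (n + 1) - c n) :
    ∃ u : ℤ_[2], ∀ n, 2 ^ n ∣ u - c n := by
  refine ⟨PadicInt.ofIntSeq _ (PadicInt.isCauSeq_padicNorm_of_pow_dvd_sub c 2 h), fun n => ?_⟩
  refine Ideal.mem_span_singleton.1 ?_
  have := PadicInt.ker_toZModPow (p := 2) n
  rw [Nat.cast_ofNat] at this
  rw [← this, RingHom.mem_ker, map_sub, PadicInt.toZModPow_ofIntSeq_of_pow_dvd_sub c 2 h,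
    map_intCast, sub_self]

variable {A : Type} [AddCommGroup A] {e : Z2 →+ ℕ → A} {r : A →+ B} {x : Z2}

theorem sm (h : TW e) {c : ℤ_[2]} {s : ℤ} {n : ℕ} (d : 2 ^ n ∣ c - s) (x : Z2) :
    r (e (c • x) n) = s • r (e x n) := by rw [h.smul d, map_zsmul]

theorem two (h : TW e) (x : Z2) (n : ℕ) : 2 • r (e x (n + 1)) = r (e x n) := by
  rw [← map_nsmul, h.two]

theorem dvd_zp (h : TW e) (h1 : r (e x 1) ≠ 0) {n : ℕ} {c d : ℤ_[2]}
    (a : r (e (c • x) n) = r (e (d • x) n)) : 2 ^ n ∣ c - d := by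
  obtain ⟨s, hs⟩ := zp_appr (c - d) n
  rw [← sub_eq_zero, ← map_sub, ← Pi.sub_apply, ← map_sub, ← sub_smul, sm h (s := s) hs] at a
  obtain ⟨t, ht⟩ := dvd_of (R := fun n => r (e x n)) (by rw [h.zero, map_zero]) (two h x) h1 n _ a
  have : (s : ℤ_[2]) = 2 ^ n * t := by exact_mod_cast congrArg (Int.cast : ℤ → ℤ_[2]) ht
  simpa using hs.add (Dvd.intro _ this.symm)

theorem all (h : TW e) (h1 : r (e x 1) ≠ 0) (ht : ∀ P : B, 2 • P = 0 → P = 0 ∨ P = r (e x 1))
    (f : B →+ B) (y : Z2) : ∃ u : ℤ_[2], ∀ n, r (e (u • x) n) = f (r (e y n)) := by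
  choose c hc using fun n => gen (R := fun n => r (e x n)) (two h x) ht n (f (r (e y n)))
    (by rw [← map_nsmul, ← map_nsmul, h.tor, map_zero, map_zero])
  obtain ⟨u, hu⟩ := lim c fun n => dvd_of (R := fun n => r (e x n)) (by rw [h.zero, map_zero])
    (two h x) h1 n _ (by
      rw [sub_smul, ← hc, ← two h x, smul_comm, ← hc, ← map_nsmul, two h, sub_self])
  exact ⟨u, fun n => by rw [sm h (hu n), hc]⟩

theorem itr (h : TW e) {f : B →+ B} {u : ℤ_[2]} (hu : ∀ n, r (e (u • x) n) = f (r (e x n)))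
    (n m : ℕ) : r (e (u ^ m • x) n) = f^[m] (r (e x n)) := by
  induction m with
  | zero => simp
  | succ m ih =>
    obtain ⟨s, hs⟩ := zp_appr (u ^ m) n
    rw [Function.iterate_succ_apply', ← ih, pow_succ, mul_smul, sm h (s := s) hs,
      sm h (s := s) hs, map_zsmul, hu]

end

theorem exPl : ∃ (k : Type) (_ : Field k) (_ : IsAlgClosed k) (p : Place ℂ_[2] k),
    Function.Surjective p.ρ ∧ (∀ x, x ∈ p.A ↔ ‖x‖ ≤ 1) ∧ ∀ x, Sp p x 0 ↔ ‖x‖ < 1 := by
  let v := NormedField.valuation (K := ℂ_[2])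
  have m : ∀ x, x ∈ v.valuationSubring ↔ ‖x‖ ≤ 1 := fun x => Iff.rfl
  refine ⟨_, _, isAlgClosed_residue v.valuationSubring, ⟨_, IsLocalRing.residue _, fun x =>
    (IsLocalRing.residue_ne_zero_iff_isUnit x).1⟩, IsLocalRing.residue_surjective, m, fun x => ?_⟩
  have a : ∀ h : x ∈ v.valuationSubring, IsLocalRing.residue v.valuationSubring ⟨x, h⟩ = 0 ↔
      ‖x‖ < 1 := fun h => by
    rw [IsLocalRing.residue_eq_zero_iff, Valuation.mem_maximalIdeal_iff]
    rfl
  exact ⟨fun ⟨h, b⟩ => (a h).1 b, fun b => ⟨b.le, (a _).2 b⟩⟩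

section

variable {k : Type} [Field k] {U : Affine k}

theorem tor2 {P : U.Point} (a : P ≠ 0) (b : 2 • P = 0) : 2 * yc P + U.a₁ * xc P + U.a₃ = 0 := by
  have := yc_neg a
  rw [neg_eq_of_add_eq_zero_right ((two_nsmul P).symm.trans b)] at this
  linear_combination this

theorem eq_of_xc {P Q : U.Point} (a : P ≠ 0) (b : Q ≠ 0) (c : 2 • Q = 0) (h : xc P = xc Q) :
    P = Q :=
  (eq_or_neg_of_xc a b h).elim id fun d =>
    d.trans (neg_eq_of_add_eq_zero_right ((two_nsmul Q).symm.trans c))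

theorem uniq2 (h2 : (2 : k) = 0) (h1 : U.a₁ ≠ 0) {T : U.Point} (a : T ≠ 0) (b : 2 • T = 0)
    (P : U.Point) (c : 2 • P = 0) : P = 0 ∨ P = T :=
  or_iff_not_imp_left.2 fun d => eq_of_xc d a b (mul_left_cancel₀ h1 (by
    linear_combination tor2 d c - tor2 a b + (yc T - yc P) * h2))

theorem cub {P : U.Point} (a : P ≠ 0) (b : 2 • P = 0) (c : xc P ≠ 0) :
    4 + U.b₂ * (xc P)⁻¹ + 2 * U.b₄ * (xc P)⁻¹ ^ 2 + U.b₆ * (xc P)⁻¹ ^ 3 = 0 := by
  have ev := eval_Psi U (nonsing a).1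
  simp only [Ψ₂Sq, Polynomial.eval_add, Polynomial.eval_mul, Polynomial.eval_C, Polynomial.eval_pow,
    Polynomial.eval_X, tor2 a b] at ev
  field_simp
  linear_combination ev

theorem int2 {Ω : Type} [Field Ω] {p : Place Ω k} {V : Affine Ω} (s : SpW p V U) (h : U.b₂ ≠ 0)
    {P Q : V.Point} (a : P ≠ 0) (b : 2 • P = 0) (c : Q ≠ 0) (d : 2 • Q = 0) (n : P ≠ Q)
    (hP : xc P ∉ p.A) (hQ : xc Q ∉ p.A) : False := by
  have z := sp_inv_of_notMem hP
  have w := sp_inv_of_notMem hQ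
  have e1 := cub a b fun t => hP (t ▸ zero_mem _)
  have e2 := cub c d fun t => hQ (t ▸ zero_mem _)
  have ne : (xc P)⁻¹ - (xc Q)⁻¹ ≠ 0 := fun t => n (eq_of_xc a c d (inv_injective (sub_eq_zero.1 t)))
  have := ((s.b₂.add (((sp_ofNat 2).mul s.b₄).mul (z.add w))).add
    (s.b₆.mul (((z.pow 2).add (z.mul w)).add (w.pow 2)))).eq sp_zero
    (mul_left_cancel₀ ne (by linear_combination e1 - e2))
  exact h (by simpa using this)

theorem frob {W : WeierstrassCurve ℤ} {φ : k →+* k} (h : ∀ c, φ c = c ^ 2) {P : (cv W k).Point}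
    (a : P ≠ 0) (m : ℕ) : (gm W φ)^[m] P ≠ 0 ∧ xc ((gm W φ)^[m] P) = xc P ^ 2 ^ m ∧
      yc ((gm W φ)^[m] P) = yc P ^ 2 ^ m := by
  induction m with
  | zero => simpa using a
  | succ m ih =>
    rw [Function.iterate_succ_apply', pow_succ, pow_mul, pow_mul, ← ih.2.1, ← ih.2.2, ← h, ← h]
    exact ⟨ptMap_ne _ ih.1, xc_ptMap _ _, yc_ptMap _ _⟩

end

end OrdA

open OrdA in
theorem ord : Fr1St → OrdSt := by
  intro H W hΔ ha e he
  obtain ⟨k, _, _, p, hs, hA, h0⟩ := exPl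
  have h2 : (2 : k) = 0 := (sp_ofNat 2).unique ((h0 _).2 (by
    rw [← map_ofNat (algebraMap ℚ_[2] ℂ_[2]) 2, norm_algebraMap']
    exact_mod_cast Padic.norm_p_lt_one (p := 2)))
  have p2 : Prime (2 : ℤ_[2]) := by exact_mod_cast PadicInt.prime_p (p := 2)
  have od : ∀ n : ℤ, Odd n → (n : k) = 1 := by
    rintro _ ⟨t, rfl⟩
    push_cast
    rw [h2, zero_mul, zero_add]
  have s := spW_cv p W
  have a1 : (cv W k).a₁ = 1 := od _ ha
  have hU : (cv W k).Δ ≠ 0 := by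
    have : (cv W k).Δ = 1 := by simpa [cv, baseChange] using od _ hΔ
    rw [this]
    exact one_ne_zero
  obtain ⟨r, hr⟩ := exRed hs s hU
  obtain ⟨x, y, h1, hu⟩ : ∃ x y : Z2, r (e x 1) ≠ 0 ∧ IsUnit (y 0 * x 1 - x 0 * y 1) := by
    by_contra! t
    have n : ∀ x : Z2, (∃ i, x i = 1 ∨ x i = -1) → e x 1 ≠ 0 := fun x ⟨i, hi⟩ z => by
      have := (he.ker x 1).1 z i
      rw [pow_one] at this
      rcases hi with hi | hi <;> rw [hi] at this
      · exact p2.not_dvd_one this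
      · exact p2.not_dvd_one (dvd_neg.1 this)
    have t1 : r (e ![1, 0] 1) = 0 := by_contra fun z => t _ ![0, 1] z (by simp)
    have t2 : r (e ![0, 1] 1) = 0 := by_contra fun z => t _ ![1, 0] z (by simp)
    have n1 := n ![1, 0] ⟨0, by simp⟩
    have n2 := n ![0, 1] ⟨1, by simp⟩
    refine int2 s ?_ n1 (by simpa using he.tor _ 1) n2 (by simpa using he.tor _ 1) (fun z => ?_)
      ((t1 ▸ hr _).of_zero.resolve_left n1) ((t2 ▸ hr _).of_zero.resolve_left n2)
    · rw [b₂, a1, show (4 : k) = 0 by linear_combination 2 * h2]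
      simp
    · exact n (![1, 0] - ![0, 1]) ⟨0, by simp⟩ (by rw [map_sub, Pi.sub_apply, z, sub_self])
  have t1 : 2 • r (e x 1) = 0 := by rw [two he, he.zero, map_zero]
  have ht := uniq2 h2 (a1 ▸ one_ne_zero) h1 t1
  have : CharP k 2 := CharTwo.of_one_ne_zero_of_two_eq_zero one_ne_zero h2
  have hφ : ∀ c, frobenius k 2 c = c ^ 2 := fun c => rfl
  generalize frobenius k 2 = φ at hφ
  obtain ⟨a, a8, hF, -⟩ := H k _ hU φ 2 one_lt_two hφ (cv_map W φ)
  obtain ⟨l, hl⟩ := all he h1 ht (AddMonoidHom.id _) y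
  obtain ⟨u, hu'⟩ := all he h1 ht (gm W φ) x
  have u1 : 2 ∣ u - 1 := by
    have := (ht (gm W φ (r (e x 1))) (by rw [← map_nsmul, t1, map_zero])).resolve_left
      (ptMap_ne _ h1)
    rw [← pow_one (2 : ℤ_[2])]
    exact dvd_zp he h1 (by rw [hu', this, one_smul])
  have uu : IsUnit u := by_contra fun z => p2.not_dvd_one (by
    have := (PadicInt.norm_lt_one_iff_dvd u).1 (PadicInt.not_isUnit_iff.1 z)
    simpa using (dvd_sub this u1 : (2 : ℤ_[2]) ∣ _))
  have hv : ∀ (c : ℤ_[2]) n, r (e (c • (y - l • x)) n) = 0 := fun c n => by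
    obtain ⟨t, b⟩ := zp_appr c n
    rw [sm he (s := t) b, map_sub, Pi.sub_apply, map_sub, hl, AddMonoidHom.id_apply, sub_self,
      smul_zero]
  generalize hw : y - l • x = v at hv
  have hP : IsUnit (!![v 0, x 0; v 1, x 1]).det := by
    convert hu using 1
    simp [← hw]
    ring
  refine ⟨a, uu.unit, !![v 0, x 0; v 1, x 1], by simpa using a8, zp_ext fun n => ?_,
    (isUnit_iff_isUnit_det _).2 hP, fun σ A hσ hM => ?_⟩
  · have b := hF (r (e x n))
    have c := itr he hu' n 2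
    rw [← sub_zero (_ + _)]
    refine dvd_zp he h1 ?_
    rw [IsUnit.unit_spec, add_smul, sub_smul, mul_smul, zero_smul, map_zero, Pi.zero_apply, map_zero,
      map_add, map_sub, Pi.add_apply, Pi.sub_apply, map_add, map_sub, c,
      sm he (s := a) (by simp), hu', sm he (s := 2) (by simp)]
    exact_mod_cast b
  obtain ⟨T, hT⟩ : ∃ T, A * !![v 0, x 0; v 1, x 1] = !![v 0, x 0; v 1, x 1] * T :=
    ⟨_, (mul_nonsing_inv_cancel_left _ _ hP).symm⟩
  have c0 : A *ᵥ v = T 0 0 • v + T 1 0 • x := funext fun i => by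
    have := congrFun (congrFun hT i) 0
    fin_cases i <;> simp [mulVec, dotProduct, mul_apply] at this ⊢ <;> linear_combination this
  have c1 : A *ᵥ x = T 0 1 • v + T 1 1 • x := funext fun i => by
    have := congrFun (congrFun hT i) 1
    fin_cases i <;> simp [mulVec, dotProduct, mul_apply] at this ⊢ <;> linear_combination this
  have d0 : T 1 0 = 0 := zp_ext fun n => by
    rw [← sub_zero (T 1 0)]
    refine dvd_zp he h1 ?_
    have b := hM v n
    rw [c0, map_add, Pi.add_apply] at b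
    have c := congrArg r b
    rw [map_add, hv, zero_add] at c
    rw [c, zero_smul, map_zero, Pi.zero_apply, map_zero]
    refine (hr _).unique (Or.inl ⟨rfl, ?_⟩)
    have d := hv 1 n
    rw [one_smul] at d
    refine (d ▸ hr _).of_zero.imp (fun z => by rw [z, map_zero]) fun z => ?_
    rw [gm, xc_ptMap, hA]
    exact fun t => z ((hA _).2 (hσ _ ▸ t))
  refine ⟨T 0 0, T 0 1, T 1 1, by rw [hT, ← d0, ← eta_fin_two T], fun n =>
    ⟨2 ^ n, by positivity, fun m hm => ?_⟩⟩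
  by_cases z : r (e x n) = 0
  · refine Dvd.dvd.trans ?_ (one_dvd _)
    simpa using dvd_zp he h1 (c := 1) (d := 0) (n := n) (by simpa using z)
  refine dvd_zp he h1 ?_
  have b := hM x n
  rw [c1, map_add, Pi.add_apply] at b
  have c := congrArg r b
  rw [map_add, hv, zero_add] at c
  rw [c, IsUnit.unit_spec, itr he hu']
  obtain ⟨q0, q1, q2⟩ := (hr _).of_ne z
  have f1 := frob hφ z (2 ^ n)
  have f2 := frob hφ z m
  rw [← itr he hu', sm he (s := 1) ((pow_dvd_pow 2 n.le_succ).trans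
    (by
      have := dvd_sub_pow_of_dvd_sub (p := 2) u1 n
      rw [one_pow] at this
      exact_mod_cast this)), one_smul] at f1
  have key : ∀ (X : ℂ_[2]) (c : k), Sp p X c → c = c ^ 2 ^ 2 ^ n → Sp p (σ X) (c ^ 2 ^ m) :=
    fun X c b d => (((h0 _).2 (hm X ((h0 _).1 (((b.pow _).sub b).congr rfl
      (by rw [← d, sub_self]))))).add (b.pow _)).congr (sub_add_cancel _ _) (zero_add _)
  refine (hr _).unique (Or.inr ⟨ptMap_ne _ q0, f2.1, ?_, ?_⟩)
  · exact (key _ _ q1 f1.2.1).congr (xc_ptMap (cv_map W (σ : ℂ_[2] →+* ℂ_[2])) _).symm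
      f2.2.1.symm
  · exact (key _ _ q2 f1.2.2).congr (yc_ptMap (cv_map W (σ : ℂ_[2] →+* ℂ_[2])) _).symm
      f2.2.2.symm

end Pool.Agent.SY
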