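import Pool.Agent.Lib.MP_b4b3cb_nt.SY.Ts

/-! The periods of the symmetric powers. -/

namespace Pool.Agent.SY

open Matrix Pool.Agent.HF Pool.Agent.SymTwo

namespace PerA

theorem unit (hS : SymSt) {R : Type} [CommRing R] (m : ℕ) {Q : M2 R} (h : IsUnit Q) :
    IsUnit (sym m Q) := by
  obtain ⟨Q', hQ⟩ := h.exists_right_inv
  exact IsUnit.of_mul_eq_one (sym m Q') (by rw [← hS.mul, hQ, hS.one])

theorem mapA (hS : SymSt) {R : Type} [CommRing R] [Algebra ℚ_[2] R] (s : R →ₐ[ℚ_[2]] R) (m : ℕ)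
    (Q : M2 R) : sym m (Q.map s) = (sym m Q).map s := hS.map (s : R →+* R) m Q

theorem vecm {R : Type} [CommRing R] [Algebra ℚ_[2] R] (s : R →ₐ[ℚ_[2]] R) {n : ℕ}
    (S : Matrix (Fin n) (Fin n) R) (y : Fin n → R) (c : R) :
    (fun i => s ((c • S *ᵥ y) i)) = s c • S.map s *ᵥ fun i => s (y i) := by
  funext i
  simp [mulVec, dotProduct, map_sum]

theorem acs {R : Type} [CommRing R] [Algebra ℚ_[2] R] (s : R →ₐ[ℚ_[2]] R) {n : ℕ} (c : ℚ_[2])
    (M : Matrix (Fin n) (Fin n) ℚ_[2]) (z : Fin n → R) :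
    ac (c • M) s z = c • M.map (algebraMap _ R) *ᵥ fun i => s (z i) := by
  funext i
  simp only [ac, mulVec, dotProduct, map_apply, Matrix.smul_apply, Pi.smul_apply, smul_eq_mul,
    map_mul, Finset.smul_sum]
  exact Finset.sum_congr rfl fun _ _ => by rw [Algebra.smul_def, mul_assoc]

theorem can {R : Type} [CommRing R] {n : ℕ} {S : Matrix (Fin n) (Fin n) R} (hS : IsUnit S) {c : R}
    (hc : IsUnit c) {y y' : Fin n → R} (h : c • S *ᵥ y = c • S *ᵥ y') : y = y' := by
  obtain ⟨S', hS'⟩ := hS.exists_left_inv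
  have := congrArg (S' *ᵥ ·) (hc.smul_left_cancel.1 h)
  simpa only [mulVec_mulVec, hS', one_mulVec] using this

end PerA

open PerA

theorem per (hS : SymSt) (hE : EigSt) : PerSt := by
  rintro G _ _ χ B D C _ _ _ _ _ _ X hT t a ha ⟨⟨Q, N, uQ, hQ, hF, hd, ht⟩, P, uP, hP⟩ k ρ hρ
  have hχ : ∀ g, χ g ≠ 0 := fun g => ((Group.isUnit g).map χ).ne_zero
  refine ⟨fun z hz hf => ?_, sym (2 * k + 1) P, unit hS _ uP, fun g i => ?_⟩
  · rcases subsingleton_or_nontrivial C with _ | _
    · exact Subsingleton.elim _ _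
    have uS := unit hS (2 * k + 1) uQ
    have uτ : IsUnit (X.γ X.t ^ k) := X.ut.pow k
    obtain ⟨y, rfl⟩ : ∃ y, z = X.γ X.t ^ k • sym (2 * k + 1) Q *ᵥ y := by
      obtain ⟨S', hS'⟩ := uS.exists_right_inv
      obtain ⟨τ', hτ'⟩ := uτ.exists_right_inv
      exact ⟨S' *ᵥ τ' • z, by rw [mulVec_mulVec, hS', one_mulVec, smul_smul, hτ', one_smul]⟩
    have h1 : ∀ g, (fun i => X.gC g (y i)) = y := fun g => can uS uτ (by
      have e : X.gC g (X.γ X.t ^ k) = χ g ^ k • X.γ X.t ^ k := by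
        rw [map_pow, ← X.γg, X.gt, map_smul, smul_pow]
      have h := hz g
      rwa [hρ, acs, vecm, e, mulVec_smul, mulVec_mulVec, ← mapA hS, ← hS.map, ← hS.mul, hQ,
        smul_assoc, smul_smul, inv_mul_cancel₀ (pow_ne_zero k (hχ g)), one_smul] at h)
    choose c hc using fun i => hT.tc (y i) fun g => congrFun (h1 g) i
    have h2 : (fun i => X.fC (y i)) = y := funext fun i => by rw [hc i, AlgHom.commutes]
    have e : X.fC (X.γ X.t ^ k) = X.γ X.t ^ k * 2 ^ k := by
      rw [map_pow, ← X.γf, X.ft, map_mul, map_ofNat, mul_pow, mul_comm]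
    have h3 := funext hf
    rw [vecm, h2, e, ← mapA hS, mul_smul, ← mulVec_smul] at h3
    conv_rhs at h3 => rw [← hF, hS.mul, ← mulVec_mulVec, hS.map]
    have h4 := can (unit hS _ (uQ.map (X.fC : C →+* C).mapMatrix)) uτ h3
    have h5 : c = 0 := hE N a 2 k one_lt_two (by push_cast; linarith) (by simpa using hd) ht c
      (funext fun i => (algebraMap ℚ_[2] C).injective (by
        have := congrFun h4 i
        simp only [hc, mulVec, dotProduct, map_apply, Pi.smul_apply, smul_eq_mul] at this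
        simp only [mulVec, dotProduct, map_sum, map_mul, Pi.smul_apply, smul_eq_mul, map_pow,
          Nat.cast_ofNat, map_ofNat]
        exact this.symm))
    have h6 : y = 0 := funext fun i => by rw [hc i, h5, Pi.zero_apply, map_zero, Pi.zero_apply]
    rw [h6, mulVec_zero, smul_zero]
  · have h := congrArg (sym (2 * k + 1)) (hP g)
    rw [hS.mul, hS.mul, hS.map, mapA hS, hS.diag] at h
    have e : χ g ^ ((k : ℤ) + 1 - (i : ℕ)) = (χ g ^ k)⁻¹ * χ g ^ (2 * k + 1 - i) := by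
      have hi : (i : ℕ) ≤ 2 * k + 1 := Nat.lt_succ_iff.1 i.2
      rw [← zpow_natCast, ← zpow_natCast, ← _root_.zpow_neg, ← zpow_add₀ (hχ g), Nat.cast_sub hi]
      congr 1
      push_cast
      ring
    rw [hρ, acs, e, mul_smul]
    congr 1
    funext j
    have := congrFun (congrFun h j) i
    rw [mul_diagonal, one_pow, mul_one, ← map_pow, mul_comm (sym _ P j i),
      ← Algebra.smul_def] at this
    exact this

end Pool.Agent.SY
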