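import Pool.Agent.Lib.MP_b4b3cb_nt.SY.St3
import Pool.Agent.Lib.MP_b4b3cb_nt.SY.Per
import Pool.Agent.Lib.MP_b4b3cb_nt.HF.Ten

/-! The periods of the twisted symmetric powers. -/

namespace Pool.Agent.SY

open Matrix Pool.Agent.SelTwo Pool.Agent.HF Pool.Agent.SymTwo Pool.Agent.HF.Ten
open scoped TensorProduct Classical

namespace PerT

section

variable {G : Type} [Group G] [TopologicalSpace G] {χ : G →* ℚ_[2]} {B D C : Type} [CommRing B]
  [Algebra ℚ_[2] B] [CommRing D] [Algebra ℚ_[2] D] [CommRing C] [Algebra ℚ_[2] C]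
  (X : PD G ℚ_[2] χ B D C)

theorem gC_mul (g h : G) (c : C) : X.gC (g * h) c = X.gC g (X.gC h c) := by
  have k : ∀ x, X.gC (g * h) (X.γ x) = X.gC g (X.gC h (X.γ x)) := fun x => by
    rw [← X.γg, ← X.γg, ← X.γg, map_mul, AlgHom.mul_apply]
  obtain ⟨m, x, e⟩ := X.loc c
  have := k x
  rw [← e, map_mul, map_mul, map_mul, map_pow, map_pow, map_pow, ← k] at this
  exact ((X.ut.map (X.gC (g * h))).pow m).mul_left_cancel this

theorem dom [IsDomain D] (hβ : Function.Injective X.β) : IsDomain C := by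
  have i : ∀ x, X.γ x = 0 → x = 0 := fun x h => hβ ((X.kr x h).trans (map_zero _).symm)
  have : Nontrivial C := ⟨1, 0, fun h => one_ne_zero (α := D)
    (by rw [← map_one X.β, i 1 ((map_one _).trans h), map_zero])⟩
  have : NoZeroDivisors C := ⟨fun {c c'} h => by
    obtain ⟨m, x, e⟩ := X.loc c
    obtain ⟨m', x', e'⟩ := X.loc c'
    have k := X.kr (x * x') (by rw [map_mul, ← e, ← e', mul_mul_mul_comm, h, mul_zero])
    rw [map_mul, mul_eq_zero] at k
    refine k.imp (fun k => ?_) fun k => ?_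
    · rwa [hβ (k.trans (map_zero _).symm), map_zero, (X.ut.pow m).mul_right_eq_zero] at e
    · rwa [hβ (k.trans (map_zero _).symm), map_zero, (X.ut.pow m').mul_right_eq_zero] at e'⟩
  exact NoZeroDivisors.to_isDomain C

open Polynomial in
/-- An element that is fixed by a subgroup of finite index has a finite orbit under Frobenius. -/
theorem orb [IsDomain C] (hT : TT X) (H : Subgroup G) [H.FiniteIndex] (x : C)
    (hx : ∀ h ∈ H, X.gC h x = x) : ∃ S : Set C, S.Finite ∧ ∀ n, (X.fC ^ n) x ∈ S := by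
  have := Fintype.ofFinite (G ⧸ H)
  have k : ∀ g : G, X.gC (g : G ⧸ H).out x = X.gC g x := fun g => by
    obtain ⟨h, e⟩ := QuotientGroup.mk_out_eq_mul H g
    rw [e, gC_mul, hx _ h.2]
  set p : C[X] := ∏ q : G ⧸ H, (Polynomial.X - Polynomial.C (X.gC q.out x)) with hp
  have h0 : p ≠ 0 := (monic_prod_of_monic _ _ fun _ _ => monic_X_sub_C _).ne_zero
  have h1 : ∀ g, p.map (X.gC g : C →+* C) = p := fun g => by
    rw [hp, Polynomial.map_prod]
    refine Fintype.prod_equiv (MulAction.toPerm g) _ _ fun q => ?_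
    rw [Polynomial.map_sub, map_X, map_C, MulAction.toPerm_apply, ← q.out_eq', MulAction.Quotient.smul_coe,
      k, k, smul_eq_mul, gC_mul]
    rfl
  have h2 : p.map (X.fC : C →+* C) = p := Polynomial.ext fun n => by
    obtain ⟨c, hc⟩ := hT.tc (p.coeff n) fun g => by
      exact (coeff_map (X.gC g : C →+* C) n).symm.trans (congrArg (coeff · n) (h1 g))
    rw [coeff_map, hc]
    exact X.fC.commutes c
  refine ⟨_, finite_setOfPred_isRoot h0, fun n => ?_⟩
  induction n with
  | zero =>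
    refine isRoot_prod _ _ _ |>.2 ⟨(1 : G), Finset.mem_univ _, ?_⟩
    simp [k, hx 1 H.one_mem]
  | succ n ih =>
    have := IsRoot.map (f := (X.fC : C →+* C)) ih
    rwa [h2, RingHom.coe_coe, ← AlgHom.mul_apply, ← pow_succ'] at this

end

variable {E : Type} [NontriviallyNormedField E] [NormedAlgebra ℚ_[2] E] {Y : Type} [CommRing Y]
  [Algebra ℚ_[2] Y] {n : ℕ}

variable (E) in
/-- The inclusion of the second factor. -/
noncomputable def ir (Y : Type) [CommRing Y] [Algebra ℚ_[2] Y] : Y →+* E ⊗[ℚ_[2]] Y :=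
  (Algebra.TensorProduct.includeRight : Y →ₐ[ℚ_[2]] E ⊗[ℚ_[2]] Y)

theorem tm_ir (s : Y →ₐ[ℚ_[2]] Y) (x : Y) : tm E s (ir E Y x) = ir E Y (s x) := by simp [tm, ir]

theorem ir_alg (c : ℚ_[2]) : ir E Y (algebraMap _ Y c) = algebraMap E _ (algebraMap _ E c) := by
  rw [← IsScalarTower.algebraMap_apply]
  exact (Algebra.TensorProduct.includeRight : Y →ₐ[ℚ_[2]] E ⊗[ℚ_[2]] Y).commutes c

theorem tm_pow (s : Y →ₐ[ℚ_[2]] Y) (k : ℕ) : tm E (s ^ k) = tm E s ^ k := by
  induction k with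
  | zero => exact Algebra.TensorProduct.map_id
  | succ k ih =>
    rw [pow_succ, pow_succ, ← ih]
    exact Algebra.TensorProduct.map_id_comp _ _

theorem map_tm {κ : Type} (s : Y →ₐ[ℚ_[2]] Y) (Q : Matrix κ κ Y) :
    (Q.map (ir E Y)).map (tm E s) = (Q.map s).map (ir E Y) := by
  ext i j
  exact tm_ir s _

theorem map_alg {κ : Type} (A : Matrix κ κ ℚ_[2]) : (A.map (algebraMap _ Y)).map (ir E Y) =
    (A.map (algebraMap _ E)).map (algebraMap E (E ⊗[ℚ_[2]] Y)) := by
  ext i j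
  exact ir_alg _

section

variable {E R : Type} [Field E] [CommRing R] [Algebra E R]

theorem vecm (s : R →ₐ[E] R) (S : Matrix (Fin n) (Fin n) R) (y : Fin n → R) :
    (fun i => s ((S *ᵥ y) i)) = S.map s *ᵥ fun i => s (y i) := by
  funext i
  simp [mulVec, dotProduct, map_sum]

theorem map_sm (c : E) (M : Matrix (Fin n) (Fin n) E) :
    (c • M).map (algebraMap E R) = c • M.map (algebraMap E R) := by
  ext i j
  rw [map_apply, Matrix.smul_apply, Matrix.smul_apply, smul_eq_mul, map_mul, Algebra.smul_def, map_apply]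

theorem sm_unit {c : R} (hc : IsUnit c) {M : Matrix (Fin n) (Fin n) R} (hM : IsUnit M) :
    IsUnit (c • M) := by
  rw [Algebra.smul_def]
  exact (hc.map _).mul hM

theorem zp_eq (s : R →ₐ[E] R) (τ : Rˣ) {c : E} (hc : c ≠ 0) (h : s τ = c • τ) (a : ℤ) :
    s (τ ^ a : Rˣ) = c ^ a • ((τ ^ a : Rˣ) : R) := by
  have e : Units.map (s : R →* R) τ = Units.map (algebraMap E R : E →* R) (Units.mk0 c hc) * τ :=
    Units.ext (h.trans (Algebra.smul_def _ _))
  have := congrArg (fun u : Rˣ => ((u ^ a : Rˣ) : R)) e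
  simp only [mul_zpow, ← map_zpow, Units.val_mul, Units.coe_map, Units.val_zpow_eq_zpow_val,
    Units.val_mk0] at this
  exact this.trans (Algebra.smul_def _ _).symm

theorem iter (s : R →ₐ[E] R) {A : Matrix (Fin n) (Fin n) E} {c : Fin n → R}
    (h : (fun i => s (c i)) = A.map (algebraMap E R) *ᵥ c) (k : ℕ) :
    (fun i => (s ^ k) (c i)) = (A ^ k).map (algebraMap E R) *ᵥ c := by
  induction k with
  | zero => simp
  | succ k ih =>
    simp only [pow_succ' s, AlgHom.mul_apply, congrFun ih]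
    rw [vecm, h, mulVec_mulVec, pow_succ, Matrix.map_mul, Matrix.map_map]
    congr 3
    exact funext s.commutes

theorem pw_eq (s : R →ₐ[E] R) {c : E} {x : R} (h : s x = c • x) (k : ℕ) :
    (s ^ k) x = c ^ k • x := by
  induction k with
  | zero => simp
  | succ k ih => rw [pow_succ', AlgHom.mul_apply, ih, map_smul, h, smul_smul, pow_succ]

end

theorem act_eq (hS : SymSt) (m : ℕ) (c : E) (A : M2 ℚ_[2]) (s : Y →ₐ[ℚ_[2]] Y)
    (Q Q' : M2 Y) (h : A.map (algebraMap _ Y) * Q.map s = Q') (y : Fin (m + 1) → E ⊗[ℚ_[2]] Y) :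
    act (c • sym m (A.map (algebraMap _ E))) s (sym m (Q.map (ir E Y)) *ᵥ y) =
      c • sym m (Q'.map (ir E Y)) *ᵥ fun i => tm E s (y i) := by
  rw [← h, Matrix.map_mul, hS.mul, map_alg, ← map_tm, hS.map (algebraMap E _), ← mulVec_mulVec,
    ← smul_mulVec, ← map_sm]
  have e : sym m ((Q.map (ir E Y)).map (tm E s)) = (sym m (Q.map (ir E Y))).map (tm E s) :=
    hS.map (tm E s : E ⊗[ℚ_[2]] Y →+* E ⊗[ℚ_[2]] Y) m _
  rw [e, ← vecm]
  rfl

end PerT

open PerT

theorem perT (hS : SymSt) (hE : EigTSt) : PerTSt := by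
  rintro G _ _ χ B D C _ _ _ _ _ _ X hT hD hβ t b hb ⟨⟨Q, N, uQ, hQ, hF, hd, ht⟩, P, uP, hP⟩
    E _ _ _ ι θ a m ρ hρ
  have hχ : ∀ g, algebraMap ℚ_[2] E (χ g) ≠ 0 := fun g =>
    (_root_.map_ne_zero _).2 ((Group.isUnit g).map χ).ne_zero
  have h2 : (2 : E) ≠ 0 := by
    rw [← map_ofNat (algebraMap ℚ_[2] E) 2]
    exact (_root_.map_ne_zero _).2 two_ne_zero
  refine ⟨fun H f u _ _ hf ⟨y, y1, y2⟩ hu z hz hφ => ?_, fun y hy =>
    ⟨(y : E ⊗[ℚ_[2]] D) • sym m (P.map (ir E D)),
      sm_unit y.isUnit (PerA.unit hS m (uP.map (ir E D).mapMatrix)), fun g i => ?_⟩⟩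
  · rcases subsingleton_or_nontrivial (E ⊗[ℚ_[2]] C) with _ | _
    · exact Subsingleton.elim _ _
    have := dom X hβ
    let Γ : E ⊗[ℚ_[2]] B →ₐ[E] E ⊗[ℚ_[2]] C := Algebra.TensorProduct.map (AlgHom.id E E) X.γ
    let β := Module.finBasis ℚ_[2] E
    obtain ⟨τ, hτ⟩ := X.ut.map (ir E C)
    obtain ⟨w, hw⟩ := y.isUnit.map Γ
    have w1 : ∀ h ∈ H, θ h • tm E (X.gC h) w = w := fun h hh => by
      rw [hw]
      refine Eq.trans ?_ (congrArg Γ (y1 h hh))
      rw [map_smul]
      exact congrArg _ (co_ext β fun i => by simp only [tm, Γ, co_map, X.γg])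
    have w2 : u • (tm E X.fC ^ f) w = w := by
      have k : ∀ (k : ℕ) x, X.γ ((X.fB ^ k) x) = (X.fC ^ k) (X.γ x) := fun k => by
        induction k with
        | zero => simp
        | succ k ih => simp only [pow_succ', AlgHom.mul_apply, X.γf, ih, implies_true]
      rw [hw]
      refine Eq.trans ?_ (congrArg Γ y2)
      rw [map_smul, ← tm_pow]
      exact congrArg _ (co_ext β fun i => by simp only [tm, Γ, co_map, k])
    have u0 : u ≠ 0 := fun h => w.ne_zero (by rw [← w2, h, zero_smul])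
    have t1 : ∀ g, tm E (X.gC g) (τ ^ (-a) :) = algebraMap ℚ_[2] E (χ g) ^ (-a) • ((τ ^ (-a) :) : _) :=
      fun g => zp_eq _ τ (hχ g) (by
        rw [hτ, tm_ir, ← X.γg, X.gt, map_smul, Algebra.smul_def, map_mul, ir_alg,
          ← Algebra.smul_def]) _
    have t2 : tm E X.fC (τ ^ (-a) :) = (2 : E) ^ (-a) • ((τ ^ (-a) :) : _) := zp_eq _ τ h2 (by
      rw [hτ, tm_ir, ← X.γf, X.ft, map_mul, map_mul, map_ofNat, map_ofNat, Algebra.smul_def,
        map_ofNat]) _
    have uS := PerA.unit hS m (uQ.map (ir E C).mapMatrix)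
    set κ : E ⊗[ℚ_[2]] C := ↑(w * τ ^ (-a)) with hκ
    have uκ : IsUnit κ := Units.isUnit _
    obtain ⟨c, rfl⟩ : ∃ c, z = sym m (Q.map (ir E C)) *ᵥ κ • c := by
      obtain ⟨S', hS'⟩ := uS.exists_right_inv
      obtain ⟨κ', hκ'⟩ := uκ.exists_right_inv
      exact ⟨κ' • S' *ᵥ z, by
        rw [smul_smul, hκ', one_smul, mulVec_mulVec]
        exact (one_mulVec z).symm.trans (congrArg (· *ᵥ z) hS'.symm)⟩
    have c1 : ∀ h ∈ H, (fun i => tm E (X.gC h) (c i)) = c := fun h hh => PerA.can uS uκ (by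
      have k := hz h
      have e : (θ h * algebraMap ℚ_[2] E (χ h) ^ a) • tm E (X.gC h) κ = κ := by
        rw [hκ, Units.val_mul, map_mul, t1, mul_smul_comm, smul_smul, mul_assoc, ← zpow_add₀ (hχ h),
          add_neg_cancel, zpow_zero, mul_one, ← smul_mul_assoc, w1 h hh]
      rw [hρ, act_eq hS m _ _ _ Q Q (hQ h), ← mulVec_smul] at k
      rw [← mulVec_smul, ← mulVec_smul]
      refine Eq.trans (congrArg _ (funext fun i => ?_)) k
      simp only [Pi.smul_apply, smul_eq_mul, map_mul]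
      rw [← smul_mul_assoc, e])
    have c2 : (fun i => tm E X.fC ((κ • c) i)) =
        (sym m (N.map (algebraMap _ E))).map (algebraMap E _) *ᵥ κ • c := by
      refine PerA.can (PerA.unit hS m ((uQ.map (X.fC : C →+* C).mapMatrix).map (ir E C).mapMatrix))
        isUnit_one ?_
      have k := act_eq hS m (1 : E) 1 X.fC Q (Q.map X.fC) (by simp) (κ • c)
      rw [Matrix.map_one _ (map_zero _) (map_one _), hS.one, one_smul, hφ, one_smul] at k
      rw [one_smul, one_smul, mulVec_mulVec, ← hS.map, ← map_alg]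
      refine k.symm.trans ?_
      conv_lhs => rw [← hF, Matrix.map_mul, hS.mul]
      rfl
    have c3 : (fun i => (tm E X.fC ^ f) (c i)) =
        ((u * ((2 : E) ^ a) ^ f) • sym m (N.map (algebraMap _ E)) ^ f).map (algebraMap E _) *ᵥ c := by
      have e : (u * ((2 : E) ^ a) ^ f) • (tm E X.fC ^ f) κ = κ := by
        rw [hκ, Units.val_mul, map_mul, pw_eq _ t2, mul_smul_comm, smul_smul, mul_assoc, ← mul_pow,
          ← zpow_add₀ h2, add_neg_cancel, zpow_zero, one_pow, mul_one, ← smul_mul_assoc, w2]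
      refine uκ.smul_left_cancel.1 ?_
      rw [map_sm, smul_mulVec, smul_comm κ, ← mulVec_smul, ← iter _ c2]
      funext i
      simp only [Pi.smul_apply, smul_eq_mul, map_mul]
      rw [← smul_mul_assoc, e]
    choose S S1 S2 using fun (l : Fin (m + 1)) i => orb X hT H (co β i (c l)) fun h hh => by
      rw [← co_map]
      exact congrArg _ (congrFun (c1 h hh) l)
    obtain ⟨r, r', hr, e⟩ := Set.Finite.exists_lt_map_eq_of_forall_mem
      (f := fun (r : ℕ) l i => (X.fC ^ (f * r)) (co β i (c l)))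
      (t := Set.univ.pi fun l => Set.univ.pi (S l))
      (fun r l _ i _ => S2 l i (f * r)) (Set.Finite.pi fun l => Set.Finite.pi fun i => S1 l i)
    obtain ⟨k, rfl⟩ := Nat.exists_eq_add_of_lt hr
    have e' : (fun l => ((tm E X.fC ^ f) ^ r) (c l)) = fun l =>
        ((tm E X.fC ^ f) ^ (r + k + 1)) (c l) := funext fun l => co_ext β fun i => by
      simp only [← pow_mul, ← tm_pow]
      simpa only [tm, co_map] using congrFun₂ e l i
    rw [iter _ c3, iter _ c3, add_assoc, pow_add] at e'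
    have uN : IsUnit (N.map (algebraMap ℚ_[2] E)) :=
      ((isUnit_iff_isUnit_det N).2 (hd ▸ two_ne_zero.isUnit)).map (algebraMap ℚ_[2] E).mapMatrix
    have uA : IsUnit ((u * ((2 : E) ^ a) ^ f) • sym m (N.map (algebraMap _ E)) ^ f) :=
      sm_unit (mul_ne_zero u0 (pow_ne_zero _ (zpow_ne_zero _ h2))).isUnit ((PerA.unit hS m uN).pow f)
    have uB := hE E ι (N.map (algebraMap ℚ_[2] E)) b 2 m (f * (k + 1))
      ((u * ((2 : E) ^ a) ^ f) ^ (k + 1)) (by push_cast; linarith)
      (by rw [← RingHom.mapMatrix_apply, ← RingHom.map_det, hd, map_ofNat, Nat.cast_ofNat])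
      (by rw [← AddMonoidHom.map_trace (algebraMap ℚ_[2] E), ht, map_intCast]) fun h => hu (by
        refine (pow_eq_one_iff_of_nonneg (by positivity) (Nat.succ_ne_zero k)).1 (Eq.trans ?_ h)
        rw [map_pow, norm_pow, map_mul, map_pow, map_zpow₀, map_ofNat, norm_mul, norm_pow, norm_zpow,
          Complex.norm_ofNat, ← pow_mul, mul_comm (k + 1), pow_mul, ← mul_assoc m, pow_mul _ (m * f),
          ← mul_pow, mul_pow _ _ 2, mul_assoc, Nat.cast_ofNat]
        congr 2
        rw [← zpow_natCast, ← zpow_natCast, ← zpow_natCast, ← _root_.zpow_mul, ← _root_.zpow_mul,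
          ← zpow_add₀ two_ne_zero]
        congr 1
        push_cast
        ring)
    rw [pow_mul, ← smul_pow] at uB
    have c4 : c = 0 := PerA.can (((uA.pow r).mul uB).map (algebraMap E _).mapMatrix) isUnit_one (by
      rw [mul_sub, mul_one, map_sub, sub_mulVec, mulVec_zero]
      exact congrArg _ (sub_eq_zero.2 e'.symm))
    rw [c4, smul_zero, mulVec_zero]
  · have e : (((y : E ⊗[ℚ_[2]] D) • sym m (P.map (ir E D))).col i) =
        sym m (P.map (ir E D)) *ᵥ Pi.single i (y : E ⊗[ℚ_[2]] D) := by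
      funext j
      simp [mul_comm]
    have e1 : (fun j => tm E (X.gD g) ((Pi.single i y : Fin (m + 1) → E ⊗[ℚ_[2]] D) j)) =
        Pi.single i (tm E (X.gD g) y) :=
      funext fun j => Pi.apply_single (fun _ => tm E (X.gD g)) (fun _ => map_zero _) i _ j
    have e2 : algebraMap ℚ_[2] E (χ g) ^ (a + m - (i : ℕ) : ℤ) =
        algebraMap ℚ_[2] E (χ g) ^ a * algebraMap ℚ_[2] E (χ g) ^ (m - i) := by
      rw [← zpow_natCast, ← zpow_add₀ (hχ g), Nat.cast_sub (Nat.lt_succ_iff.1 i.2), add_sub_assoc]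
    rw [e, hρ, act_eq hS m _ _ _ P _ (hP g), e1, Matrix.map_mul, hS.mul, ← mulVec_mulVec,
      hS.map _ _ (diagonal _), hS.diag, diagonal_map (map_zero _), diagonal_mulVec_single,
      ← mulVec_smul, ← mulVec_smul, ← Pi.single_smul', ← Pi.single_smul',
      one_pow, mul_one, map_pow, ir_alg, ← map_pow, ← Algebra.smul_def, smul_smul, e2, mul_assoc,
      mul_comm (θ g), mul_smul, hy]

end Pool.Agent.SY
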