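import Pool.Agent.Lib.MP_b4b3cb_nt.SY.St3
import Pool.Agent.Lib.MP_b4b3cb_nt.Par.Glo
import Pool.Agent.Lib.MP_b4b3cb_nt.Par.Coef

/-! Purity of a locally algebraic character. -/

namespace Pool.Agent.SY

open NumberField IsDedekindDomain Pool.Agent.SelTwo Pool.Agent.HF Pool.Agent.SymTwo
open Pool.Agent.SC (Over IsFr)
open Pool.Agent.Stark (Pr)
open scoped Classical Pointwise

namespace Pur

variable {L : Type} [Field L] [NumberField L] {E : Type} [NontriviallyNormedField E]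
  [NormedAlgebra ℚ_[2] E]

omit [NumberField L] in
theorem ovr {𝔓 : Idl L} {q : Pr L} (hm : 𝔓.IsMaximal) (h : 𝔓.under _ = q.asIdeal) :
    Over 𝔓 q := ⟨hm, fun y => by rw [← h]; rfl⟩

omit [NumberField L] in
theorem under {𝔓 : Idl L} {q : Pr L} (h : Over 𝔓 q) : 𝔓.under (𝓞 L) = q.asIdeal :=
  Ideal.ext fun x => (h.2 x).symm

theorem nq_eq {𝔓 : Idl L} {q : Pr L} (h : Over 𝔓 q) : nq 𝔓 = Ideal.absNorm q.asIdeal := by
  rw [nq, under h]

omit [NumberField L] in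
theorem two {𝔓 : Idl L} {q : Pr L} (h : Over 𝔓 q) : 2 ∈ q.asIdeal ↔ 2 ∈ 𝔓 := by
  rw [h.2, map_ofNat]

theorem cls {Γ : Type} [CommGroup Γ] {G : Type} [Group G] (ψ : G →* Γ) (τ g : G) :
    ψ (τ⁻¹ * g * τ) = ψ g := by
  rw [map_mul, map_mul, map_inv, mul_right_comm, inv_mul_cancel, one_mul]

theorem ine {Γ : Type} [CommGroup Γ] (ψ : Gal L →* Γ) {𝔓 𝔓' : Idl L} {q : Pr L} (h : Over 𝔓 q)
    (h' : Over 𝔓' q) (h1 : ∀ g ∈ Ine 𝔓, ψ g = 1) : ∀ g ∈ Ine 𝔓', ψ g = 1 := by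
  have pr := (SP.facts L (AlgebraicClosure L)).pr
  obtain ⟨τ, -, rfl⟩ := pr.trans h h'
  intro g hg
  rw [← cls ψ τ g]
  exact h1 _ ((pr.ine_conj 𝔓 τ g).1 hg)

theorem frob (hD : DenSt) {Γ : Type} [CommGroup Γ] (ψ : Gal L →* Γ) {𝔓 𝔓' : Idl L} {q : Pr L}
    (h : Over 𝔓 q) (h' : Over 𝔓' q) (h1 : ∀ g ∈ Ine 𝔓', ψ g = 1) {σ g : Gal L} {n : ℕ}
    (hσ : Fb 𝔓 (nq 𝔓) (σ : _ →+* _)) (hn : 0 < n) (hg : Fb 𝔓' n (g : _ →+* _)) :
    ∃ s : ℕ, n = Ideal.absNorm q.asIdeal ^ s ∧ ψ g = ψ σ ^ s := by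
  have pr := (SP.facts L (AlgebraicClosure L)).pr
  obtain ⟨τ, -, rfl⟩ := pr.trans h h'
  have e : τ⁻¹ * (τ * σ * τ⁻¹) * τ = σ := by group
  have h2 : Fb (τ • 𝔓) (nq (τ • 𝔓)) ((τ * σ * τ⁻¹ : Gal L) :
      AlgebraicClosure L →+* AlgebraicClosure L) := by
    rw [nq_eq h', ← nq_eq h]
    refine fb_iff.2 ((pr.fr_conj 𝔓 _ τ _).2 ?_)
    rw [e]
    exact fb_iff.1 hσ
  obtain ⟨s, a, b⟩ := ((hD L _ h'.1).2.2.2 _ h2).2.1 g n hn hg
  refine ⟨s, by rw [a, nq_eq h'], ?_⟩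
  have c := h1 _ b
  rw [map_mul, map_inv, mul_inv_eq_one, map_pow] at c
  rw [c, ← cls ψ τ, e]

theorem n1 {z : E} (hz : ‖z - 1‖ < 1) : ‖z‖ = 1 := by
  have := IsUltrametricDist.of_normedAlgebra ℚ_[2] (L := E)
  have e := IsUltrametricDist.norm_add_eq_max_of_norm_ne_norm (x := z - 1) (y := 1)
    (by rw [norm_one]; exact hz.ne)
  rwa [sub_add_cancel, norm_one, max_eq_right hz.le] at e

theorem sub {ε : ℝ} (h0 : 0 < ε) (h1 : ε ≤ 1) :
    ∃ H : Subgroup Eˣ, ∀ z, z ∈ H ↔ ‖(z : E) - 1‖ < ε := by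
  have := IsUltrametricDist.of_normedAlgebra ℚ_[2] (L := E)
  refine ⟨⟨⟨⟨{z | ‖(z : E) - 1‖ < ε}, fun {x y} hx hy => ?_⟩, by simpa using h0⟩,
    fun {x} hx => ?_⟩, fun _ => Iff.rfl⟩
  · have e : ((x * y : Eˣ) : E) - 1 = x * (y - 1) + (x - 1) := by push_cast; ring
    change ‖((x * y : Eˣ) : E) - 1‖ < _
    rw [e]
    refine (IsUltrametricDist.norm_add_le_max _ _).trans_lt (max_lt ?_ hx)
    rw [norm_mul, n1 (lt_of_lt_of_le hx h1), one_mul]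
    exact hy
  · have e : ((x⁻¹ : Eˣ) : E) - 1 = -((x : E)⁻¹ * (x - 1)) := by
      have := x.ne_zero
      push_cast
      field_simp
      ring
    change ‖((x⁻¹ : Eˣ) : E) - 1‖ < _
    rw [e, norm_neg, norm_mul, norm_inv, n1 (lt_of_lt_of_le hx h1), inv_one, one_mul]
    exact hx

theorem ray (hR : RecTSt) (hL : IsEmpty (L →+* ℝ)) (ψ : Gal L →* Eˣ)
    (hc : Continuous fun g => (ψ g : E)) (S : Finset (Pr L))
    (hu : ∀ (𝔓 : Idl L) w, Over 𝔓 w → w ∉ S → ∀ g ∈ Ine 𝔓, ψ g = 1) (F : Pr L → Gal L)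
    (hF : ∀ w, ∃ 𝔓 : Idl L, 𝔓.IsMaximal ∧ 𝔓.under _ = w.asIdeal ∧
      Fb 𝔓 (nq 𝔓) (F w : _ →+* _)) :
    ∀ ε > 0, ∃ N, ∀ α : L, Stark.AR.Ray S N α →
      ‖(Stark.AR.ev (fun q => ψ (F q)) (Stark.dv α) : Eˣ) - (1 : E)‖ < ε := by
  intro ε hε
  obtain ⟨H, hH⟩ := sub (E := E) (lt_min hε one_pos) (min_le_right _ _)
  obtain ⟨Γ, _, π, hπ⟩ : ∃ (Γ : Type) (_ : CommGroup Γ) (π : Eˣ →* Γ), ∀ z, π z = 1 ↔ z ∈ H :=
    ⟨Eˣ ⧸ H, inferInstance, QuotientGroup.mk' H, fun z => QuotientGroup.eq_one_iff z⟩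
  have ho : IsOpen ((π.comp ψ).ker : Set (Gal L)) := by
    have e : ((π.comp ψ).ker : Set (Gal L)) = {g | ‖(ψ g : E) - 1‖ < min ε 1} :=
      Set.ext fun g => (hπ (ψ g)).trans (hH _)
    rw [e]
    exact isOpen_lt (hc.sub continuous_const).norm continuous_const
  obtain ⟨N, hN⟩ := hR L hL Γ (π.comp ψ) ho S (fun 𝔓 w hm hw hS g hg => by
    rw [MonoidHom.comp_apply, hu 𝔓 w (ovr hm hw) hS g hg, map_one]) F hF
  refine ⟨N, fun α hα => ?_⟩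
  have e := (Stark.AR.map_ev π (fun q => ψ (F q)) (Stark.dv α)).trans (hN α hα)
  exact lt_of_lt_of_le ((hH _).1 ((hπ _).1 e)) (min_le_left _ _)

variable (E) in
/-- The cyclotomic character with values in the units. -/
noncomputable def cu : Gal L →* Eˣ := (SP.cycE E L (AlgebraicClosure L)).toHomUnits

omit [NumberField L] in
theorem cu_val (g : Gal L) : (cu E g : E) = cyc E g := rfl

omit [NumberField L] in
theorem cyc_ct : Continuous (cyc E : Gal L → E) :=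
  (continuous_algebraMap ℚ_[2] E).comp
    (Continuous.comp (g := fun x : ℤ_[2] => (x : ℚ_[2])) continuous_subtype_val
      ((Units.continuous_val (M := ℤ_[2])).comp (cyclotomicCharacter.continuous 2 L _)))

omit [NumberField L] in
theorem cyc_norm (g : Gal L) : ‖cyc E g‖ = 1 := by
  rw [cyc, norm_algebraMap']
  exact PadicInt.norm_units _

theorem cyc_fb {𝔓 : Idl L} (h2 : 2 ∉ 𝔓) {g : Gal L} {n : ℕ} (h : Fb 𝔓 n (g : _ →+* _)) :
    cyc E g = n := by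
  have := SC.FrobAux.cyc_fr (K := L) (n := n) (g := g) h2 (fb_iff.1 h)
  have e : cyc E g = algebraMap ℚ_[2] E ((SC.cyc L (AlgebraicClosure L) g : ℤ_[2]) : ℚ_[2]) := rfl
  rw [e, this]
  simp

theorem cyc_ine {𝔓 : Idl L} (h2 : 2 ∉ 𝔓) {g : Gal L} (hg : g ∈ Ine 𝔓) : cyc E g = 1 := by
  rw [cyc_fb h2 (n := 1) (fb_iff.2 fun x => by rw [pow_one]; exact hg x), Nat.cast_one]

/-- The character `(κ / cyc ^ c) ^ M`. -/
noncomputable def ps (κ : Gal L →* E) (c : ℤ) (M : ℕ) : Gal L →* Eˣ :=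
  (powMonoidHom M).comp (κ.toHomUnits / (zpowGroupHom c).comp (cu E))

omit [NumberField L] in
theorem ps_val (κ : Gal L →* E) (c : ℤ) (M : ℕ) (g : Gal L) :
    (ps κ c M g : E) = (κ g / cyc E g ^ c) ^ M := by
  simp [ps, cu_val, div_pow]

omit [NumberField L] in
theorem ps_one {κ : Gal L →* E} {c : ℤ} {M M' : ℕ} {g : Gal L} (h : κ g ^ M = (cyc E g ^ c) ^ M)
    (hM : M ∣ M') : ps κ c M' g = 1 := by
  obtain ⟨k, rfl⟩ := hM
  have : cyc E g ≠ 0 := (cu E g).ne_zero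
  refine Units.ext ?_
  rw [ps_val, pow_mul, div_pow, h, div_self (pow_ne_zero _ (zpow_ne_zero _ this)), one_pow,
    Units.val_one]

omit [NumberField L] in
theorem ps_ct {κ : Gal L →* E} (h : Continuous κ) (c : ℤ) (M : ℕ) :
    Continuous fun g => (ps κ c M g : E) := by
  simp only [ps_val]
  exact (h.div (cyc_ct.zpow₀ c fun g => Or.inl (cu E g).ne_zero)
    fun g => zpow_ne_zero _ (cu E g).ne_zero).pow M

omit [NumberField L] in
theorem ps_norm {κ : Gal L →* E} (h : ∀ g, ‖κ g - 1‖ < 1) (c : ℤ) (M : ℕ) (g : Gal L) :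
    ‖(ps κ c M g : E)‖ = 1 := by
  rw [ps_val, norm_pow, norm_div, norm_zpow, n1 (h g), cyc_norm, one_zpow, div_one, one_pow]

end Pur

open Pur in
theorem pur : DenSt → RamCSt → CjwSt → RecTSt → SplSt → PurASt → PurSt := by
  intro hD hRa hC hR hS hA L _ _ _ h2 E _ _ _ ι κ cj w a hcj hκ P hP P2 hns hLA
  have pr := (SP.facts L (AlgebraicClosure L)).pr
  obtain ⟨p, hp⟩ := pr.under L P hP
  let c := IsCMField.ringOfIntegersComplexConj L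
  let p' : Pr L := ⟨p.asIdeal.map c, have := p.isPrime; Ideal.map_isPrime_of_equiv c, fun h =>
    p.ne_bot ((Ideal.map_eq_bot_iff_of_injective c.injective).1 h)⟩
  have pp : p ≠ p' := fun h => hns (by
    rw [Nonsplit, under hp]
    exact (congrArg HeightOneSpectrum.asIdeal h).symm)
  have p2 : 2 ∈ p'.asIdeal := by
    have := Ideal.mem_map_of_mem c ((two hp).2 P2)
    rwa [map_ofNat] at this
  have hw := fun 𝔓 hm h => hC L h2 E κ cj w a hcj hκ P 𝔓 hP P2 hm h hLA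
  have hq : ∀ q : Pr L, 2 ∈ q.asIdeal → q = p ∨ q = p' := fun q h => by
    obtain ⟨𝔓, o⟩ := pr.ex L q
    by_cases e : 𝔓.under (𝓞 L) = P.under _
    · exact Or.inl (HeightOneSpectrum.ext (by rw [← under o, e, under hp]))
    · refine Or.inr (HeightOneSpectrum.ext ?_)
      rw [← under o, ((hw 𝔓 o.1 ((two o).1 h)).2 e).2, under hp]
  obtain ⟨P', hp'⟩ := pr.ex L p'
  obtain ⟨M1, m1, a1⟩ := hLA
  obtain ⟨M2, m2, a2⟩ := ((hw P' hp'.1 ((two hp').1 p2)).2 fun e => pp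
    (HeightOneSpectrum.ext (by rw [← under hp, ← e, under hp']))).1
  obtain ⟨r, -, a3⟩ := (hRa L E κ hκ.ct hκ.one).1
  have M0 : 2 ^ r * M1 * M2 ≠ 0 := by positivity
  have d1 : M1 ∣ 2 ^ r * M1 * M2 := (Dvd.intro_left _ rfl).mul_right _
  have d2 : M2 ∣ 2 ^ r * M1 * M2 := Dvd.intro_left _ rfl
  have d3 : 2 ^ r ∣ 2 ^ r * M1 * M2 := (Dvd.intro _ rfl).mul_right _
  generalize 2 ^ r * M1 * M2 = M at M0 d1 d2 d3
  have od : ∀ (b : ℤ) (𝔓 : Idl L), 𝔓.IsMaximal → 2 ∉ 𝔓 → ∀ g ∈ Ine 𝔓, ps κ b M g = 1 :=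
    fun b 𝔓 hm h g hg => ps_one (by rw [a3 𝔓 hm h g hg, cyc_ine h hg, one_zpow, one_pow]) d3
  have u1 : ∀ (𝔓 : Idl L) q, Over 𝔓 q → q ∉ ({p'} : Finset (Pr L)) → ∀ g ∈ Ine 𝔓,
      ps κ a M g = 1 := fun 𝔓 q o h => by
    by_cases e : 2 ∈ 𝔓
    · obtain rfl | rfl := hq q ((two o).2 e)
      · exact ine _ hp o fun g hg => ps_one (a1 g hg) d1
      · exact absurd (Finset.mem_singleton_self _) h
    · exact od a 𝔓 o.1 e
  have u2 : ∀ (𝔓 : Idl L) q, Over 𝔓 q → q ∉ ({p} : Finset (Pr L)) → ∀ g ∈ Ine 𝔓,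
      ps κ (w - a) M g = 1 := fun 𝔓 q o h => by
    by_cases e : 2 ∈ 𝔓
    · obtain rfl | rfl := hq q ((two o).2 e)
      · exact absurd (Finset.mem_singleton_self _) h
      · exact ine _ hp' o fun g hg => ps_one (a2 g hg) d2
    · exact od _ 𝔓 o.1 e
  have ex : ∀ q : Pr L, ∃ σ : Gal L, ∃ 𝔓 : Idl L, 𝔓.IsMaximal ∧ 𝔓.under _ = q.asIdeal ∧
      Fb 𝔓 (nq 𝔓) (σ : _ →+* _) := fun q => by
    obtain ⟨𝔓, o⟩ := pr.ex L q
    obtain ⟨σ, h⟩ := (hD L 𝔓 o.1).2.1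
    exact ⟨σ, 𝔓, o.1, under o, h⟩
  choose F hF using ex
  have hL : IsEmpty (L →+* ℝ) := ⟨fun φ => IsTotallyComplex.complexEmbedding_not_isReal
    (Complex.ofRealHom.comp φ) (ComplexEmbedding.isReal_iff.2 (RingHom.ext fun x => by simp))⟩
  obtain ⟨j, hj⟩ := (hS L h2 P hP P2 hns).2 p (under hp)
  have := charZero_of_injective_algebraMap (algebraMap ℚ_[2] E).injective
  have main := hA L h2 E p p' pp rfl hq j hj (fun q => ps κ a M (F q))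
    (fun q => ps κ (w - a) M (F q)) ((w - 2 * a) * M) (fun q h => by
      obtain ⟨𝔓, hm, hu, hf⟩ := hF q
      have o := ovr hm hu
      have n0 : (Ideal.absNorm q.asIdeal : E) ≠ 0 :=
        Nat.cast_ne_zero.2 (Ideal.absNorm_eq_zero_iff.not.2 q.ne_bot)
      rw [ps_val, ps_val, cyc_fb (fun e => h ((two o).2 e)) hf, nq_eq o, zpow_mul, zpow_natCast,
        ← mul_pow, show w - a = w - 2 * a + a by ring, zpow_add₀ n0]
      congr 1
      have := zpow_ne_zero (w - 2 * a) n0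
      field_simp)
    (ray hR hL _ (ps_ct hκ.ct a M) _ u1 F hF) (ray hR hL _ (ps_ct hκ.ct _ M) _ u2 F hF)
    (fun q => ps_norm hκ.one _ _ _) (fun q => ps_norm hκ.one _ _ _) ι
  have key : ∀ (𝔓 : Idl L) q, Over 𝔓 q → q ≠ p' → ∀ (g : Gal L) (n : ℕ), 0 < n →
      Fb 𝔓 n (g : _ →+* _) → ‖ι (κ g / cyc E g ^ a)‖ ^ 2 = (n : ℝ) ^ (w - 2 * a) := by
    intro 𝔓 q o h g n hn hg
    obtain ⟨𝔔, hm, hu, hf⟩ := hF q
    obtain ⟨s, e1, e2⟩ := frob hD (ps κ a M) (ovr hm hu) o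
      (u1 𝔓 q o fun e => h (Finset.mem_singleton.1 e)) hf hn hg
    have e3 := congrArg (fun z : Eˣ => ‖ι z‖ ^ 2) e2
    simp only [Units.val_pow_eq_pow_val, map_pow, norm_pow] at e3
    rw [← pow_mul _ s, mul_comm s, pow_mul, main q h, ps_val, map_pow, norm_pow, ← pow_mul,
      mul_comm M, pow_mul] at e3
    refine (pow_left_inj₀ (by positivity) (by positivity) M0).1 (e3.trans ?_)
    rw [e1, Nat.cast_pow]
    simp only [← zpow_natCast, ← zpow_mul]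
    congr 1
    ring
  refine ⟨fun 𝔓 hm h g ⟨_, n, hn, hg⟩ => ?_, fun g s hg => ?_⟩
  · obtain ⟨q, o⟩ := pr.under L 𝔓 hm
    have e := key 𝔓 q o (fun e => h ((two o).1 (e ▸ p2))) g n hn hg
    have n0 : (n : ℝ) ≠ 0 := Nat.cast_ne_zero.2 hn.ne'
    rw [cyc_fb h hg] at e ⊢
    rw [map_div₀, map_zpow₀, norm_div, norm_zpow, div_pow, map_natCast, Complex.norm_natCast,
      div_eq_iff (pow_ne_zero _ (zpow_ne_zero _ n0))] at e
    rw [e, map_natCast, Complex.norm_natCast, ← zpow_natCast, ← zpow_mul, ← zpow_add₀ n0]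
    congr 1
    push_cast
    ring
  · rw [key P p hp pp g _ (by positivity) hg, zpow_mul, zpow_natCast]
    push_cast
    rfl

end Pool.Agent.SY
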