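import Pool.Agent.Lib.MP_b4b3cb_nt.SY.St3

/-! The values of a character on principal divisors. -/

namespace Pool.Agent.SY

open NumberField IsDedekindDomain Filter Topology Pool.Agent.Stark Pool.Agent.Stark.AR
open scoped nonZeroDivisors

namespace PurA

variable {L : Type} [Field L] [NumberField L] {E : Type} [NontriviallyNormedField E]

omit [NumberField L] in
theorem nz {q : Pr L} {α : 𝓞 L} (h : α ∉ q.asIdeal) : α ≠ 0 := fun e => h (e ▸ zero_mem _)

theorem og_zero {q : Pr L} {α : 𝓞 L} (h : α ∉ q.asIdeal) : og q (α : L) = 0 :=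
  le_antisymm (not_lt.1 fun k => h ((og_pos_iff q (nz h)).1 k)) (og_nonneg q α)

omit [NumberField L] in
theorem cong {q : Pr L} {α β : 𝓞 L} {N : ℕ} (h : α ∉ q.asIdeal) (e : β - α ∈ q.asIdeal ^ (N + 1)) :
    β ∉ q.asIdeal := fun k => h (by
  simpa using sub_mem k (Ideal.pow_le_self N.succ_ne_zero e))

omit [NumberField L] in
theorem ne0 {q : Pr L} {α : 𝓞 L} (h : α ∉ q.asIdeal) : (α : L) ≠ 0 := fun e =>
  nz h (RingOfIntegers.ext e)

theorem ray {q : Pr L} {α β : 𝓞 L} {N : ℕ} (h : α ∉ q.asIdeal)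
    (e : β - α ∈ q.asIdeal ^ (N + 1)) : Ray {q} N ((β : L) / α) := by
  refine ⟨div_ne_zero (ne0 (cong h e)) (ne0 h), fun r hr => ?_⟩
  rw [Finset.mem_singleton.1 hr, div_sub_one (ne0 h)]
  refine ComplAux.pw_div (ne0 h) ?_
  rw [show ord (q.valuation L) (α : L) = 0 from og_zero h, zero_add]
  have := (ComplAux.int_mem_pw q _ _).2 e
  rwa [show ((β - α : 𝓞 L) : L) = β - α from map_sub (algebraMap (𝓞 L) L) _ _, Nat.cast_succ]
    at this

theorem lim {S : Finset (Pr L)} {f : L → E}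
    (h : ∀ ε > 0, ∃ N, ∀ α : L, Ray S N α → ‖f α - 1‖ < ε) {γ : ℕ → L} (hγ : ∀ N, Ray S N (γ N)) :
    Tendsto (fun N => f (γ N)) atTop (𝓝 1) :=
  Metric.tendsto_atTop.2 fun ε hε => (h ε hε).imp fun _ k n hn =>
    (dist_eq_norm _ _).trans_lt (k _ ((hγ n).mono subset_rfl hn))

theorem near {p : Pr L} {φ : L →+* E} (hφ : ∀ x : L, x ≠ 0 → ‖φ x‖ = (2 : ℝ) ^ (-og p x)) :
    ∀ ε > 0, ∃ N, ∀ α : L, Ray {p} N α → ‖φ α - 1‖ < ε := fun ε hε => by
  obtain ⟨N, hN⟩ := exists_pow_lt_of_lt_one hε (one_half_lt_one (α := ℝ))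
  refine ⟨N, fun α h => ?_⟩
  rw [← φ.map_one, ← map_sub]
  by_cases h0 : α - 1 = 0
  · rwa [h0, map_zero, norm_zero]
  · have := (mem_pw_iff.1 (h.2 p (Finset.mem_singleton_self p))).resolve_left h0
    rw [hφ _ h0]
    refine lt_of_le_of_lt ?_ hN
    rw [one_div, inv_pow, ← zpow_natCast, ← zpow_neg]
    exact zpow_le_zpow_right₀ one_le_two (by unfold og; omega)

omit [NumberField L] in
theorem coe_ev (θ : Pr L → Eˣ) (D : Dv L) : (ev θ D : Eˣ) = ∏ q ∈ D.support, (θ q : E) ^ D q := by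
  simp only [ev, Finsupp.prod, Units.coe_prod, Units.val_zpow_eq_zpow_val]

theorem nrm {α : 𝓞 L} (h : α ≠ 0) (R : Type) [Field R] :
    ∏ q ∈ (dv (α : L)).support, (Ideal.absNorm q.asIdeal : R) ^ dv (α : L) q =
      Ideal.absNorm (Ideal.span {α}) := by
  rw [ComplAux.span_eq_prod h (dv (α : L)).support fun q hq => Finsupp.notMem_support_iff.1 hq,
    map_prod, Nat.cast_prod]
  refine Finset.prod_congr rfl fun q _ => ?_
  rw [map_pow, Nat.cast_pow, ← zpow_natCast, Int.toNat_of_nonneg (og_nonneg q α), dv_apply]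

theorem gen (q : Pr L) : ∃ α : 𝓞 L, α ≠ 0 ∧ α ∈ q.asIdeal ∧ ∀ r : Pr L, r ≠ q → α ∉ r.asIdeal := by
  have m : q.asIdeal ∈ (Ideal (𝓞 L))⁰ := mem_nonZeroDivisors_of_ne_zero q.ne_bot
  obtain ⟨n, n0, h⟩ := isOfFinOrder_iff_pow_eq_one.1 (isOfFinOrder_of_finite (ClassGroup.mk0 ⟨_, m⟩))
  rw [← map_pow, SubmonoidClass.mk_pow, ClassGroup.mk0_eq_one_iff] at h
  obtain ⟨α, e⟩ := h
  replace e : q.asIdeal ^ n = Ideal.span {α} := e
  refine ⟨α, fun k => pow_ne_zero _ q.ne_bot (e.trans (by simp [k])),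
    Ideal.pow_le_self n0.ne' (e ▸ Ideal.mem_span_singleton_self α), fun r n k => n ?_⟩
  have := r.isPrime.le_of_pow_le (e.le.trans ((Ideal.span_singleton_le_iff_mem _).2 k))
  exact HeightOneSpectrum.ext (q.isMaximal.eq_of_le r.isPrime.ne_top this).symm

variable [IsCMField L]

theorem emb (h2 : Module.finrank ℚ L = 2) (ψ : L →+* ℂ) (α : 𝓞 L) :
    ‖ψ α‖ ^ 2 = Ideal.absNorm (Ideal.span {α}) := by
  have h1 : Fintype.card (InfinitePlace L) = 1 := by
    have := IsTotallyComplex.finrank L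
    rw [InfinitePlace.card_eq_nrRealPlaces_add_nrComplexPlaces,
      IsTotallyComplex.nrRealPlaces_eq_zero]
    omega
  have := Fintype.card_le_one_iff_subsingleton.1 h1.le
  have h := InfinitePlace.prod_eq_abs_norm (α : L)
  rw [Fintype.prod_subsingleton _ (InfinitePlace.mk ψ), IsTotallyComplex.mult_eq,
    InfinitePlace.apply, ← Algebra.coe_norm_int] at h
  rw [h, Ideal.absNorm_span_singleton, Nat.cast_natAbs]
  norm_cast

theorem nconj (h2 : Module.finrank ℚ L = 2) (α : 𝓞 L) :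
    (Ideal.absNorm (Ideal.span {α}) : L) = α * IsCMField.complexConj L α := by
  obtain ⟨ψ⟩ : Nonempty (L →+* ℂ) := inferInstance
  refine ψ.injective ?_
  rw [map_mul, IsCMField.complexEmbedding_complexConj, Complex.mul_conj', map_natCast]
  exact_mod_cast (emb h2 ψ α).symm

theorem mem_cj {p p' : Pr L}
    (h : p'.asIdeal = p.asIdeal.map (IsCMField.ringOfIntegersComplexConj L)) (n : ℕ) (x : 𝓞 L) :
    IsCMField.ringOfIntegersComplexConj L x ∈ p.asIdeal ^ n ↔ x ∈ p'.asIdeal ^ n := by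
  have c : ∀ y : 𝓞 L, IsCMField.ringOfIntegersComplexConj L
      (IsCMField.ringOfIntegersComplexConj L y) = y := fun y =>
    RingOfIntegers.ext (IsCMField.complexConj_apply_apply L y)
  rw [h, ← Ideal.map_pow, Ideal.mem_map_of_equiv]
  exact ⟨fun k => ⟨_, k, c x⟩, fun ⟨y, k, e⟩ => by rwa [← e, c]⟩

end PurA

open PurA in
theorem purA : PurASt := by
  intro L _ _ _ h2 E _ _ p p' hne hc hq j hj θ θ' d hθ l1 l2 _ _ ι q hq'
  let φ : L →+* E := (algebraMap ℚ_[2] E).comp j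
  let c := IsCMField.ringOfIntegersComplexConj L
  have hφ : ∀ x : L, x ≠ 0 → ‖φ x‖ = (2 : ℝ) ^ (-og p x) := fun x hx =>
    (norm_algebraMap' E (j x)).trans (hj x hx)
  have F2 : ∀ β : 𝓞 L, β ∉ p.asIdeal → β ∉ p'.asIdeal → ((ev θ (dv (β : L)) : Eˣ) : E) =
      (ev θ' (dv (β : L)) : Eˣ) * (φ β * φ (c β)) ^ d := fun β b1 b2 => by
    rw [← map_mul, show ((c β : 𝓞 L) : L) = IsCMField.complexConj L β from rfl, ← nconj h2,
      map_natCast, ← PurA.nrm (nz b1) E, coe_ev, coe_ev, ← Finset.prod_zpow,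
      ← Finset.prod_mul_distrib]
    refine Finset.prod_congr rfl fun r hr => ?_
    rw [hθ r fun k => Finsupp.mem_support_iff.1 hr (by
      rcases hq r k with rfl | rfl
      exacts [og_zero b1, og_zero b2]), mul_zpow, ← zpow_mul, ← zpow_mul, mul_comm d]
  have F3 : ∀ α : 𝓞 L, α ∉ p'.asIdeal → ((ev θ (dv (α : L)) : Eˣ) : E) = φ (c α) ^ d :=
    fun α a1 => by
    classical
    have a2 : c α ∉ p.asIdeal := fun k => a1 (by simpa using (mem_cj hc 1 α).1 (by simpa using k))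
    have o : (1 : 𝓞 L) ∉ p.asIdeal := (Ideal.ne_top_iff_one _).1 p.isPrime.ne_top
    have ex : ∀ N : ℕ, ∃ β : 𝓞 L, β - 1 ∈ p.asIdeal ^ (N + 1) ∧ β - α ∈ p'.asIdeal ^ (N + 1) :=
      fun N => by
      obtain ⟨β, hβ⟩ := IsDedekindDomain.exists_forall_sub_mem_ideal (s := {p, p'})
        (fun q : Pr L => q.asIdeal) (fun _ => N + 1) (fun q _ => q.prime)
        (fun q _ q' _ hne h => hne (HeightOneSpectrum.ext h)) fun q => if q.1 = p then 1 else α
      exact ⟨β, by simpa using hβ p (by simp), by simpa [hne.symm] using hβ p' (by simp)⟩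
    choose β b1 b2 using ex
    have r1 : ∀ N, Ray {p} N (β N : L) := fun N => by simpa using ray o (b1 N)
    have r2 := fun N => ray a1 (b2 N)
    have r3 := fun N => ray a2 (β := c (β N)) (N := N) (by
      rw [← map_sub]
      exact (mem_cj hc _ _).2 (b2 N))
    have n : φ (c α) ≠ 0 := (map_ne_zero φ).2 (ne0 a2)
    have t := ((lim l2 r1).mul (((lim (near hφ) r1).mul ((lim (near hφ) r3).mul_const
      (φ (c α)))).zpow₀ d (.inl (by simpa using n)))).div (lim l1 r2) one_ne_zero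
    simp only [one_mul, div_one] at t
    refine tendsto_nhds_unique (tendsto_const_nhds.congr fun N => ?_) t
    rw [Pi.div_apply, map_div₀, div_mul_cancel₀ _ n, ← F2 _ (cong o (b1 N)) (cong a1 (b2 N)),
      div_eq_mul_inv (β N : L), dv_mul (r1 N).1 (inv_ne_zero (ne0 a1)), dv_inv, ev_add, ev_neg,
      ← Units.val_div_eq_div_val, ← div_eq_mul_inv, div_div_cancel]
  obtain ⟨α, a0, a1, a2⟩ := gen q
  have pos := (og_pos_iff q a0).2 a1
  obtain ⟨n, hn⟩ := Int.eq_ofNat_of_zero_le pos.le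
  have e : dv (α : L) = Finsupp.single q (n : ℤ) := Finsupp.ext fun r => by
    rcases eq_or_ne r q with rfl | k
    · rw [Finsupp.single_eq_same, dv_apply, hn]
    · rw [Finsupp.single_eq_of_ne k, dv_apply, og_zero (a2 r k)]
  have n0 : n ≠ 0 := by omega
  have k1 := F3 α (a2 p' hq'.symm)
  have k2 := PurA.nrm a0 ℝ
  rw [e, ev_single, zpow_natCast, Units.val_pow_eq_pow_val] at k1
  rw [e, Finsupp.support_single _ (Int.natCast_ne_zero.2 n0), Finset.prod_singleton,
    Finsupp.single_eq_same, ← emb h2 (ι.comp φ)] at k2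
  refine (pow_left_inj₀ (by positivity) (by positivity) n0).1 ?_
  rw [← pow_mul, mul_comm, pow_mul, ← norm_pow, ← map_pow, k1, map_zpow₀, norm_zpow,
    ← zpow_natCast _ n, ← zpow_mul, mul_comm d, zpow_mul, k2, ← zpow_natCast, ← zpow_natCast,
    ← zpow_mul, ← zpow_mul, mul_comm d]
  congr 1
  exact (congrArg norm (IsCMField.complexEmbedding_complexConj L (ι.comp φ) α)).trans
    (Complex.norm_conj _)

end Pool.Agent.SY
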