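import Pool.Agent.Lib.MP_b4b3cb_nt.SY.St2
import Pool.Agent.Lib.MP_b4b3cb_nt.HF.Ti

/-! The equation of the Frobenius on the formal points over the tilt. -/

namespace Pool.Agent.SY

open Matrix WeierstrassCurve Pool.Agent.SelTwo Pool.Agent.HF
open Pool.Agent.Lib.MP_02f36d_nt
open scoped Classical

namespace RelA

theorem par {A R : Type} [AddCommGroup A] [CommRing R] [CharP R 2] {z : A → R} (h : FG z)
    (F : A →+ A) (hF : ∀ P, z (F P) = z P ^ 2) {a : ℤ} (ha : Odd a) (P : A)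
    (e : F (F P) - a • F P + 2 • P = 0) : z P ^ 4 ∣ z P ^ 2 := by
  obtain ⟨b, rfl⟩ := ha
  let H : AddSubgroup A :=
    { carrier := {Q | z P ∣ z Q}
      zero_mem' := ⟨0, h.zero.trans (mul_zero _).symm⟩
      add_mem' := fun {Q T} q t => (dvd_sub_left q).1 (t.trans (h.add1 Q T))
      neg_mem' := fun {Q} q => by
        have := h.add3 0 Q
        rw [h.zero, zero_sub, zero_sub, neg_dvd] at this
        exact q.trans this }
  have m : z P ∣ z (P - b • F P) := H.sub_mem (dvd_refl (z P))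
    (H.zsmul_mem (show z P ∣ z (F P) from hF P ▸ dvd_pow_self _ two_ne_zero) b)
  obtain ⟨r, s, t⟩ := h.two (P - b • F P)
  have d := h.add1 (F (F P)) (2 • (P - b • F P))
  rw [show F (F P) + 2 • (P - b • F P) = F P by rw [← sub_eq_zero, ← e]; module, t, hF (F P), hF,
    CharTwo.two_eq_zero, ← pow_mul] at d
  simp only [zero_mul, zero_add] at d
  exact (dvd_sub_left dvd_rfl).1 (((pow_dvd_pow_of_dvd m 4).mul_right _).trans d)

theorem pt {W : WeierstrassCurve ℤ} {R K : Type} [CommRing R] [IsDomain R] [Field K] [CharP K 2]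
    {ι : R →+* K} {z w : R} {P Q : (cv W K).Point} (p : Pt ι (z, w) P)
    (q : Pt ι (z ^ 2, w ^ 2) Q) : Q = gm W (frobenius K 2) P := by
  rcases p with ⟨a, rfl⟩ | ⟨a, b, c, d⟩ <;> rcases q with ⟨a', rfl⟩ | ⟨a', b', c', d'⟩
  · exact (map_zero _).symm
  · exact (a' (pow_eq_zero_iff two_ne_zero |>.2 a)).elim
  · exact (a (pow_eq_zero_iff two_ne_zero |>.1 a')).elim
  have n : ι w ^ 2 ≠ 0 := pow_ne_zero 2 fun e => by simp [e] at d
  simp only [map_pow] at c d c' d'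
  refine pt_ext b' (ptMap_ne _ b) (mul_right_cancel₀ n ?_) (mul_right_cancel₀ n ?_)
  · rw [c', gm, xc_ptMap, frobenius_def, ← mul_pow, c]
  · rw [d', gm, yc_ptMap, frobenius_def, ← mul_pow, d, neg_one_sq, CharTwo.neg_eq]

theorem gen (h1 : Fr1St) (h2 : GrpSt) (h3 : FGSt) (W : WeierstrassCurve ℤ) (hΔ : Odd W.Δ)
    (a1 : Even W.a₁) (a3 : Odd W.a₃) (R : Type) [CommRing R] [IsDomain R] [CharP R 2]
    (I : Ideal R) (hI : Jac I) (P₀ : FP W I) (h0 : fz P₀ ≠ 0) : ∃ a : ℤ, Even a ∧ a ^ 2 ≤ 8 ∧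
      ∀ [AddCommGroup (FP W I)], FL W I → ∀ F : FP W I →+ FP W I,
      (∀ P, fz (F P) = fz P ^ 2) → ∀ P, F (F P) - a • F P + 2 • P = 0 := by
  let K := AlgebraicClosure (FractionRing R)
  let ι : R →+* K := (algebraMap (FractionRing R) K).comp (algebraMap R _)
  have inj : Function.Injective ι :=
    (algebraMap (FractionRing R) K).injective.comp (IsFractionRing.injective R _)
  have : CharP K 2 := charP_of_injective_ringHom inj 2
  have n : (cv W K).Δ ≠ 0 := by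
    obtain ⟨c, e⟩ := hΔ
    simp [cv, baseChange, e, CharTwo.two_eq_zero]
  obtain ⟨a, ha, e, -⟩ := h1 K (cv W K) n (frobenius K 2) 2 one_lt_two (fun _ => rfl) (cv_map W _)
  obtain ⟨⟨G, hG⟩, H⟩ := h2 W R K _ inj n I hI
  have fr : ∀ [AddCommGroup (FP W I)], FL W I → ∃ φ : FP W I →+ FP W I,
      ∀ P, (φ P).1 = (P.1.1 ^ 2, P.1.2 ^ 2) := fun l =>
    ((h3 W R I hI l).2 R I hI l).1 (frobenius R 2) fun x hx => I.pow_mem_of_mem hx 2 two_pos
  have key : ∀ [AddCommGroup (FP W I)], FL W I → ∀ F : FP W I →+ FP W I,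
      (∀ P, fz (F P) = fz P ^ 2) → ∀ P, F (F P) - a • F P + 2 • P = 0 := fun l F hF P => by
    obtain ⟨φ, hφ⟩ := fr l
    obtain ⟨π, i, hπ⟩ := H _ l
    have c : ∀ P, π (F P) = gm W (frobenius K 2) (π P) := fun P => by
      rw [((h3 W R I hI l).1 a1 a3).inj ((hF P).trans (congrArg Prod.fst (hφ P)).symm)]
      exact pt (hπ P) (hφ P ▸ hπ (φ P))
    refine i ?_
    rw [map_add, map_sub, map_zsmul, map_nsmul, c, c, map_zero]
    exact e _
  refine ⟨a, Int.not_odd_iff_even.1 fun o => ?_, by simpa using ha, key⟩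
  obtain ⟨φ, hφ⟩ := fr hG
  have hF : ∀ P, fz (φ P) = fz P ^ 2 := fun P => congrArg Prod.fst (hφ P)
  obtain ⟨c, d⟩ := par ((h3 W R I hI hG).1 a1 a3) φ hF o P₀ (key hG φ hF P₀)
  refine (hI _ (I.mul_mem_right (-fz P₀ * c) P₀.2.1)).ne_zero
    (mul_left_cancel₀ (pow_ne_zero 2 h0) ?_)
  change _ * (1 + fz P₀ * _) = _
  linear_combination d

end RelA

theorem rel : Fr1St → GrpSt → FGSt → HenSt → AcSt → RelSt := fun h1 h2 h3 h4 h5 W hΔ a1 a3 => by
  obtain ⟨j, h⟩ := h4 W Ti _ h5.2.1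
  obtain ⟨P, e⟩ := h _ (Ideal.le_radical (Ideal.mem_span_singleton_self _))
  refine RelA.gen h1 h2 h3 W hΔ a1 a3 Ti _ j P fun z => ?_
  have := eta_nm
  rw [← e, z, TiA.un_zero] at this
  norm_num at this

end Pool.Agent.SY
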