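import Pool.Agent.Lib.MP_b4b3cb_nt.SY.St2
import Pool.Agent.Lib.MP_b4b3cb_nt.HF.Pq

/-! The period matrix in the supersingular case. -/

namespace Pool.Agent.SY

open Matrix Pool.Agent.SelTwo Pool.Agent.HF

namespace SPer

theorem cj {R : Type} [CommRing R] [Algebra ℚ_[2] R] (s : R →ₐ[ℚ_[2]] R) {M P T N : M2 R}
    (h1 : M * P = 1) (h : N * M.map s = M * T) : T * P.map s = P * N := by
  have h2 : P * M = 1 := mul_eq_one_comm.1 h1
  have h3 : M.map s * P.map s = 1 := by
    rw [← Matrix.map_mul, h1, Matrix.map_one _ (map_zero s) (map_one s)]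
  calc T * P.map s = P * (M * T) * P.map s := by rw [← mul_assoc P, h2, one_mul]
    _ = P * N * (M.map s * P.map s) := by rw [← h]; simp only [mul_assoc]
    _ = _ := by rw [h3, mul_one]

theorem noroot {a : ℤ} (ha : Even a) (x : ℚ_[2]) : x ^ 2 - a * x + 2 ≠ 0 := fun h => by
  obtain ⟨b, rfl⟩ := ha
  have n2 : ‖(2 : ℚ_[2])‖ = 1 / 2 := by simpa using Padic.norm_p (p := 2)
  have n1 : ‖((b + b : ℤ) : ℚ_[2]) * x‖ ≤ ‖x‖ / 2 := by
    rw [← two_mul, Int.cast_mul, norm_mul, norm_mul, Int.cast_ofNat, n2]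
    nlinarith [mul_le_mul_of_nonneg_right (Padic.norm_int_le_one (p := 2) b) (norm_nonneg x)]
  rcases lt_or_ge ‖x‖ 1 with k | k
  · have k1 : ‖x‖ ≤ 1 / 2 := by
      simpa using (Padic.norm_le_pow_iff_norm_lt_pow_add_one x (-1)).2 (by simpa using k)
    have := IsUltrametricDist.norm_add_le_max (((b + b : ℤ) : ℚ_[2]) * x) (-x ^ 2)
    rw [show ((b + b : ℤ) : ℚ_[2]) * x + -x ^ 2 = 2 by linear_combination -h, n2, norm_neg,
      norm_pow] at this
    rcases le_max_iff.1 this with c | c <;> nlinarith [norm_nonneg x]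
  · have := IsUltrametricDist.norm_add_le_max (((b + b : ℤ) : ℚ_[2]) * x) (-2)
    rw [show ((b + b : ℤ) : ℚ_[2]) * x + -2 = x ^ 2 by linear_combination -h, norm_neg, n2,
      norm_pow] at this
    rcases le_max_iff.1 this with c | c <;> nlinarith

theorem fac {D : Type} [CommRing D] {τ : D} (u : ∀ y, ¬τ ∣ y → IsUnit y)
    (s : ∀ y, (∀ N : ℕ, τ ^ N ∣ y) → y = 0) {y : D} (h : y ≠ 0) :
    ∃ (k : ℕ) (v : D), IsUnit v ∧ y = τ ^ k * v := by
  by_contra! H
  refine h (s y fun N => ?_)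
  induction N with
  | zero => simp
  | succ N ih =>
    obtain ⟨v, rfl⟩ := ih
    rw [pow_succ]
    exact mul_dvd_mul_left _ (by_contra fun c => H N v (u v c) rfl)

theorem lin {R : Type} [CommRing R] (h2 : Cpl (2 : R)) (z : ℤ_[2] →+* R) (ω : Z2 →+ R)
    (c : ℤ_[2]) (x : Z2) : ω (c • x) = z c * ω x :=
  sub_eq_zero.1 (h2.1 _ fun N => by
    obtain ⟨r, y, h⟩ := zp_appr c N
    have e : c • x = 2 ^ N • y • x + r • x := by
      rw [sub_eq_iff_eq_add.1 h]
      ext i
      simp only [Pi.smul_apply, Pi.add_apply, smul_eq_mul]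
      simp only [nsmul_eq_mul]
      push_cast
      ring
    rw [e, sub_eq_iff_eq_add.1 h]
    simp only [map_add, map_mul, map_pow, map_ofNat, map_natCast, map_nsmul]
    exact ⟨ω (y • x) - z y * ω x, by simp only [nsmul_eq_mul]; push_cast; ring⟩)

theorem lin2 (ω : Z2 →+ Ac) (x : Z2) : algebraMap Ac Bp (ω x) =
    ∑ i, (x i : ℚ_[2]) • algebraMap Ac Bp (ω (Pi.single i 1)) := by
  have e : x = ∑ i, x i • (Pi.single i 1 : Z2) := by
    ext i
    simp [Pi.single_apply]
  conv_lhs => rw [e]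
  simp only [map_sum, lin ac2_cpl ((algebraMap Ai Ac).comp zp), map_mul]
  simp only [Algebra.smul_def, qB]

theorem mp {R S : Type} [CommRing R] [CommRing S] (f : R →+* S) {x y z : R} {b : ℤ}
    (h : x - b * y + 2 * z = 0) : f x - b * f y + 2 * f z = 0 := by
  simpa [map_ofNat] using congrArg f h

end SPer

open SPer in
theorem sper : SPerSt := by
  intro G _ _ χ B D C _ _ _ _ _ _ X tt inj un sep t a ω hd ha h0 hω hf hg
  have gψ : ∀ g j, X.gB g (X.fB (ω j)) = ∑ i, t g i j • X.fB (ω i) := fun g j => by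
    simp only [← X.fg, hg, map_sum, map_smul]
  have nz : ∀ {y z : D}, y ≠ 0 → y * z = 0 → z = 0 := fun h e => by
    obtain ⟨k, v, hv, rfl⟩ := fac un sep h
    exact hv.mul_right_eq_zero.1 (pow_nzd X.nzd k _ (by rw [← mul_assoc, e]))
  have b0 : ∀ {x : B}, x ≠ 0 → X.β x ≠ 0 := fun h => (map_ne_zero_iff _ inj).2 h
  have prop : ∀ u v : Fin 2 → B, (∀ g j, X.gB g (u j) = ∑ i, t g i j • u i) →
      (∀ g j, X.gB g (v j) = ∑ i, t g i j • v i) → (∀ i j, u i * v j = u j * v i) →
      ∀ i, u i ≠ 0 → X.β (u i) ∣ X.β (v i) → ∃ c : ℚ_[2], ∀ j, v j = c • u j := by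
    rintro u v hu hv e i hi ⟨r, hr⟩
    have k : ∀ j, X.β (v j) = r * X.β (u j) := fun j => sub_eq_zero.1 (nz (b0 hi) (by
      have := congrArg X.β (e i j)
      rw [map_mul, map_mul, hr] at this
      linear_combination this))
    obtain ⟨c, hc⟩ := tt.td 0 r fun g => by
      have n : X.gB g (u i) ≠ 0 := fun z => hi (by
        have := congrArg (X.gB g⁻¹) z
        rwa [← AlgHom.mul_apply, ← map_mul, inv_mul_cancel, map_one, map_zero] at this)
      have e1 : X.β (X.gB g (v i)) = r * X.β (X.gB g (u i)) := by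
        simp only [hu, hv, map_sum, map_smul, k, Finset.mul_sum, mul_smul_comm]
      rw [X.βg g (v i), k, map_mul, ← X.βg] at e1
      rw [pow_zero, one_smul]
      exact sub_eq_zero.1 (nz (b0 n) (by linear_combination e1))
    exact ⟨c, fun j => inj (by rw [k, hc, map_smul, pow_zero, smul_mul_assoc, one_mul])⟩
  have sz : ∀ {c : ℚ_[2]} {x : B}, c • x = 0 → x ≠ 0 → c = 0 := fun h hx =>
    by_contra fun c => hx ((smul_eq_zero_iff_right c).1 h)
  obtain ⟨c, hc⟩ := tt.td 1 (X.β (ω 0 * X.fB (ω 1) - ω 1 * X.fB (ω 0))) fun g => by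
    rw [← X.βg, ← map_smul, pow_one, ← hd, det_fin_two]
    simp only [map_sub, map_add, map_mul, hg, gψ, Fin.sum_univ_two, Algebra.smul_def]
    ring
  rw [pow_one] at hc
  have c0 : c ≠ 0 := by
    rintro rfl
    rw [zero_smul, map_eq_zero_iff _ inj, sub_eq_zero] at hc
    have e : ∀ i j, ω i * X.fB (ω j) = ω j * X.fB (ω i) := by
      simp only [Fin.forall_fin_two, hc, and_self]
    obtain ⟨i, hi⟩ := Function.ne_iff.1 h0
    have dv : X.β (ω i) ∣ X.β (X.fB (ω i)) ∨ X.β (X.fB (ω i)) ∣ X.β (ω i) := by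
      by_cases z : X.β (X.fB (ω i)) = 0
      · exact Or.inl (z ▸ dvd_zero _)
      obtain ⟨k, v, hv, e1⟩ := fac un sep (b0 hi)
      obtain ⟨l, w, hw, e2⟩ := fac un sep z
      rw [e1, e2, hv.mul_right_dvd, hw.mul_right_dvd]
      exact (le_total k l).imp (fun h => (pow_dvd_pow _ h).mul_right _)
        fun h => (pow_dvd_pow _ h).mul_right _
    have f := hf i
    rcases dv with dv | dv
    · obtain ⟨c, k⟩ := prop ω _ hg gψ e i hi dv
      refine noroot ha c (sz ?_ hi)
      rw [k, map_smul, k] at f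
      simp only [Algebra.smul_def, map_add, map_sub, map_mul, map_pow, map_intCast, map_ofNat] at f ⊢
      linear_combination f
    · have n : X.fB (ω i) ≠ 0 := fun z => b0 hi (by rwa [z, map_zero, zero_dvd_iff] at dv)
      obtain ⟨c, k⟩ := prop _ ω gψ hg (fun i j => by linear_combination e j i) i n dv
      have k1 := congrArg X.fB (k i)
      have k2 := k i
      have : 1 - a * c + 2 * c ^ 2 = 0 := sz (x := X.fB (ω i)) (by
        simp only [Algebra.smul_def, map_add, map_sub, map_mul, map_pow, map_intCast, map_ofNat,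
          map_one, AlgHom.commutes] at k1 k2 ⊢
        linear_combination k1 + algebraMap ℚ_[2] B c * f - 2 * algebraMap ℚ_[2] B c * k2) n
      have c1 : c ≠ 0 := fun z => by simp [z] at this
      exact noroot ha c⁻¹ (by field_simp; linear_combination this)
  have cu : ∀ (R : Type) [CommRing R] [Algebra ℚ_[2] R], IsUnit (algebraMap ℚ_[2] R c) :=
    fun R _ _ => c0.isUnit.map _
  constructor
  · obtain ⟨Q, hQ⟩ : IsUnit !![X.γ (ω 0), X.γ (ω 1); X.γ (X.fB (ω 0)), X.γ (X.fB (ω 1))] := by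
      rw [isUnit_iff_isUnit_det, det_fin_two_of, ← map_mul, ← map_mul, ← map_sub,
        inj (hc.trans (map_smul _ _ _).symm), map_smul, Algebra.smul_def]
      exact (cu C).mul X.ut
    refine ⟨↑Q⁻¹, !![0, 1; -2, a], Units.isUnit _, fun g => ?_, ?_, by simp [det_fin_two], by simp⟩
    · refine (cj _ Q.mul_inv (N := 1) ?_).trans (mul_one _)
      rw [hQ, one_mul]
      ext i j
      fin_cases i <;> fin_cases j <;>
        simp [mul_apply, ← X.γg, hg, gψ, Algebra.smul_def, mul_comm]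
    · have e : (Q : M2 C).map X.fC = (!![0, 1; -2, (a : ℚ_[2])]).map (algebraMap _ C) * Q := by
        have f : ∀ i, X.fB (X.fB (ω i)) = -(2 * ω i) + a * X.fB (ω i) :=
          fun i => by linear_combination hf i
        rw [hQ]
        ext i j
        fin_cases i <;> fin_cases j <;> simp [mul_apply, ← X.γf, f, map_ofNat]
      have h3 : (↑Q⁻¹ : M2 C).map X.fC * (Q : M2 C).map X.fC = 1 := by
        rw [← Matrix.map_mul, Q.inv_mul, Matrix.map_one _ (map_zero _) (map_one _)]
      rw [e, ← mul_assoc] at h3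
      exact (Units.eq_inv_of_mul_eq_one_right h3)
  · choose x hx using hω
    obtain ⟨P, hP⟩ : IsUnit !![x 0, x 1; X.β (X.fB (ω 0)), X.β (X.fB (ω 1))] := by
      have : x 0 * X.β (X.fB (ω 1)) - x 1 * X.β (X.fB (ω 0)) = algebraMap _ D c :=
        sub_eq_zero.1 (X.nzd _ (by
          rw [map_sub, map_mul, map_mul, hx, hx, Algebra.smul_def] at hc
          linear_combination hc))
      rw [isUnit_iff_isUnit_det, det_fin_two_of, this]
      exact cu D
    refine ⟨↑P⁻¹, Units.isUnit _, fun g => cj _ P.mul_inv ?_⟩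
    have e : ∀ j, X.gD g (x j) * algebraMap _ D (χ g) = ∑ i, t g i j • x i := fun j =>
      sub_eq_zero.1 (X.nzd _ (by
        have := congrArg X.β (hg g j)
        rw [X.βg, hx, map_mul, ← X.βg, X.gt] at this
        simp only [Fin.sum_univ_two, map_add, map_mul, hx, Algebra.smul_def,
          AlgHom.commutes] at this ⊢
        linear_combination this))
    rw [hP]
    ext i j
    fin_cases i <;> fin_cases j <;>
      simp [mul_apply, ← X.βg, e, gψ, Algebra.smul_def, mul_comm]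

open SPer in
theorem ss : OmSt → SPerSt → SSSt := by
  intro om sp G _ _ a ha χ X pt tt W h1 h2 e he t ht hd
  obtain ⟨b, ω, b1, b2, o0, o1, o2, o3⟩ := om W h1 h2 e he
  obtain ⟨f, f1, f2, -, f3⟩ := pt.th
  obtain ⟨θ, hθ⟩ := exTc
  obtain ⟨ph, -, hph, -⟩ := exOvC fr_two
  refine ⟨b, b2, sp G χ _ _ _ X tt pt.inj (fun y h => f2 y (mt (f1 y).1 h)) pt.sep _ b
    (fun i => algebraMap Ac Bp (ω (Pi.single i 1))) hd b1 (fun z => o0 ?_) (fun i => ?_)
    (fun i => ?_) fun g j => ?_⟩
  · refine AddMonoidHom.ext fun x => bp_inj (B := Bp) ac2_nzd ?_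
    simp only [lin2 ω x, show ∀ i, algebraMap Ac Bp (ω (Pi.single i 1)) = 0 from congrFun z]
    simp
  · rw [← f1, f3 θ hθ, o1 θ hθ]
    rfl
  · rw [pt.fb ph hph, pt.fb ph hph]
    exact mp _ (o2 ph hph _)
  · obtain ⟨u, hu⟩ := exLf (a g) (ha g)
    obtain ⟨r, -, hr, -⟩ := exOvC (lf_two hu)
    rw [pt.gb g u r hu hr, o3 _ u r _ hu hr (ht g), lin2]
    simp only [mulVec_single_one]
    rfl

end Pool.Agent.SY
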