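import Pool.Agent.Lib.MP_b4b3cb_nt.SY.Ts

/-! Elementary properties of the symmetric powers of a matrix of size two. -/

namespace Pool.Agent.SY

open Matrix Polynomial Pool.Agent.SymTwo

namespace SymA

variable {R : Type} [CommRing R]

theorem nd_lin (a c : R) : (C a + C c * X).natDegree ≤ 1 := by compute_degree

theorem nd_pow (a c : R) (n : ℕ) : ((C a + C c * X) ^ n).natDegree ≤ n :=
  natDegree_pow_le.trans (by simpa using Nat.mul_le_mul_left n (nd_lin a c))

section

variable {S : Type} [CommRing S] [Algebra R S] (x y : S)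

/-- The homogeneous form of degree `m` attached to `p`, at the point `x, y`. -/
noncomputable def hm (m : ℕ) (p : R[X]) : S := MvPolynomial.aeval ![y, x] (p.homogenize m)

theorem hm_eq (m : ℕ) (p : R[X]) :
    hm x y m p = ∑ i : Fin (m + 1), p.coeff i • (x ^ (m - i) * y ^ (i : ℕ)) := by
  rw [hm, homogenize, map_sum, Finset.Nat.sum_antidiagonal_eq_sum_range_succ_mk,
    Finset.sum_range (fun i => _)]
  refine Finset.sum_congr rfl fun i _ => ?_
  rw [MvPolynomial.aeval_monomial, Finsupp.prod_fintype _ _ (by simp), Fin.prod_univ_two,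
    Algebra.smul_def, mul_comm (x ^ _)]
  simp

theorem hm_mul {m n : ℕ} {p q : R[X]} (hp : p.natDegree ≤ m) (hq : q.natDegree ≤ n) :
    hm x y (m + n) (p * q) = hm x y m p * hm x y n q := by
  rw [hm, homogenize_mul _ _ hp hq, map_mul, hm, hm]

theorem hm_pow (a c : R) (n : ℕ) : hm x y n ((C a + C c * X) ^ n) = (a • x + c • y) ^ n := by
  induction n with
  | zero => simp [hm]
  | succ n ih =>
    rw [pow_succ, hm_mul x y (nd_pow a c n) (nd_lin a c), ih, pow_succ, hm_eq]
    simp [Fin.sum_univ_two, coeff_X]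

theorem sum_sym (m : ℕ) (A : M2 R) (j : Fin (m + 1)) :
    ∑ i : Fin (m + 1), sym m A i j • (x ^ (m - i) * y ^ (i : ℕ)) =
      (A 0 0 • x + A 1 0 • y) ^ (m - j) * (A 0 1 • x + A 1 1 • y) ^ (j : ℕ) := by
  have := hm_mul x y (nd_pow (A 0 0) (A 1 0) (m - j)) (nd_pow (A 0 1) (A 1 1) j)
  rw [hm_pow, hm_pow, Nat.sub_add_cancel (Nat.lt_succ_iff.1 j.2), hm_eq] at this
  exact this

end

theorem mul (m : ℕ) (A B : M2 R) : sym m (A * B) = sym m A * sym m B := by
  ext i j
  have := congrArg (coeff · i)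
    (sum_sym (C (A 0 0) + C (A 1 0) * X) (C (A 0 1) + C (A 1 1) * X) m B j)
  simp only [finsetSum_coeff, coeff_smul, smul_eq_mul] at this
  rw [mul_apply]
  simp only [mul_comm (sym m A _ _)]
  refine Eq.trans ?_ this.symm
  simp only [sym, mul_apply, Fin.sum_univ_two, smul_eq_C_mul, map_add, map_mul]
  congr 3 <;> ring

theorem map {S : Type} [CommRing S] (f : R →+* S) (m : ℕ) (A : M2 R) :
    sym m (A.map f) = (sym m A).map f := by
  ext i j
  simp [sym, ← coeff_map]

theorem low (m : ℕ) (A : M2 R) (h : A 1 0 = 0) (i j : Fin (m + 1)) :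
    sym m A i j = A 0 0 ^ (m - j) * (A 1 1 ^ (i : ℕ) * A 0 1 ^ ((j : ℕ) - i) *
      ((j : ℕ).choose i : R)) := by
  rw [sym, h, map_zero, zero_mul, add_zero, ← C_pow, coeff_C_mul, add_comm (C _), add_pow,
    finsetSum_coeff, Finset.sum_eq_single (i : ℕ)]
  · rw [mul_pow, ← C_pow, ← C_pow, ← C_eq_natCast, coeff_mul_C, coeff_mul_C, coeff_C_mul]
    simp
  · intro b _ hb
    rw [mul_pow, ← C_pow, ← C_pow, ← C_eq_natCast, coeff_mul_C, coeff_mul_C, coeff_C_mul,
      coeff_X_pow, if_neg hb.symm]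
    simp
  · intro hb
    rw [Nat.choose_eq_zero_of_lt (by simpa using hb)]
    simp

theorem tri (m : ℕ) (A : M2 R) (h : A 1 0 = 0) :
    (∀ i j, j < i → sym m A i j = 0) ∧ ∀ i, sym m A i i = A 0 0 ^ (m - i) * A 1 1 ^ (i : ℕ) :=
  ⟨fun i j l => by simp [low m A h, Nat.choose_eq_zero_of_lt l], fun i => by simp [low m A h]⟩

theorem diag (m : ℕ) (a d : R) :
    sym m (diagonal ![a, d]) = diagonal fun i : Fin (m + 1) => a ^ (m - i) * d ^ (i : ℕ) := by
  ext i j
  rw [low _ _ (by simp)]
  rcases lt_trichotomy i j with l | rfl | l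
  · simp [l.ne, Nat.sub_ne_zero_of_lt l]
  · simp
  · simp [l.ne', Nat.choose_eq_zero_of_lt l]

theorem one (m : ℕ) : sym m (1 : M2 R) = 1 := by
  have := diag m (1 : R) 1
  simp only [one_pow, mul_one, diagonal_one] at this
  rw [← this, ← diagonal_one]
  congr 2
  ext i
  fin_cases i <;> rfl

theorem uni {R : Type} [Field R] [CharZero R] (m : ℕ) (c : R) (hc : c ≠ 0) (v : Fin (m + 1) → R)
    (hv : sym m !![1, c; 0, 1] *ᵥ v = v) (i : Fin (m + 1)) (hi : i ≠ 0) : v i = 0 := by
  induction i using WellFoundedGT.induction with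
  | ind i ih =>
    obtain ⟨k, rfl⟩ := Fin.exists_succ_eq.2 hi
    have e := congrFun hv k.castSucc
    rw [mulVec, dotProduct, Finset.sum_eq_add k.castSucc k.succ k.castSucc_lt_succ.ne] at e
    · simp [low, hc] at e
      exact e.resolve_left (Nat.cast_add_one_ne_zero _)
    · rintro j - ⟨a, b⟩
      rcases lt_or_gt_of_ne a with l | l
      · rw [(tri m _ (by simp)).1 _ _ l, zero_mul]
      · have : k.succ < j := lt_of_le_of_ne (Fin.castSucc_lt_iff_succ_le.1 l) b.symm
        rw [ih j this (this.ne_zero), mul_zero]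
    · simp
    · simp

theorem cont [TopologicalSpace R] [IsTopologicalRing R] (m : ℕ) :
    Continuous (sym m : M2 R → _) := by
  refine continuous_matrix fun i j => ?_
  have : ∀ A : M2 R, sym m A i j = MvPolynomial.eval (fun p : Fin 2 × Fin 2 => A p.1 p.2)
      (sym m (of fun a b => MvPolynomial.X (a, b)) i j) := fun A => by
    rw [← Matrix.map_apply (f := MvPolynomial.eval _), ← map]
    congr 1
    ext a b
    simp
  simp only [this]
  exact (MvPolynomial.continuous_eval _).comp (by fun_prop)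

end SymA

theorem symS : SymSt :=
  ⟨SymA.mul, SymA.one, SymA.map, SymA.tri, SymA.diag, SymA.uni, SymA.cont⟩

end Pool.Agent.SY
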