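import Pool.Agent.Lib.MP_b4b3cb_nt.SY.Ts
import Pool.Agent.Lib.MP_b4b3cb_nt.HF.Main6

/-! The local conditions at `2`. -/

namespace Pool.Agent.SY

open NumberField Matrix Pool.Agent.SelTwo Pool.Agent.HF Pool.Agent.SymTwo
open scoped Classical

variable {L : Type} [Field L] {W : WeierstrassCurve ℤ}
  {e : Z2 →+ ℕ → (cv W (AlgebraicClosure L)).Point} {t : Gal L → M2 ℤ_[2]}

theorem exHom (he : TW e) (ht : ∀ g : Gal L, Mt e (gm W (g : _ →+* _)) (t g)) :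
    ∃ T : Gal L →* M2 ℤ_[2], ∀ g, T g = t g :=
  ⟨⟨⟨t, he.uniq (ht 1) (Mt.one.congr fun P => (gm_id P).symm)⟩, fun g h => he.uniq (ht _)
    (((ht g).mul (ht h)).congr fun P => gm_gm _ _ P)⟩, fun _ => rfl⟩

theorem tq_cont : Continuous tq :=
  continuous_id.matrix_map (continuous_subtype_val (p := fun x : ℚ_[2] => ‖x‖ ≤ 1))

theorem bp_zp (c : ℤ_[2]) (w : Ai) : algebraMap Ac Bp (algebraMap Ai Ac (zp c * w)) =
    (c : ℚ_[2]) • algebraMap Ac Bp (algebraMap Ai Ac w) := by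
  rw [map_mul, map_mul, Algebra.smul_def, qB]
  rfl

theorem ordPer (lang : LangSt) (ord : OrdSt) (oper : OPerSt) {G : Type} [Group G]
    [TopologicalSpace G] [IsTopologicalGroup G] {a : G →* RingAut ℂ_[2]} (a1 : ∀ g, Iso (a g))
    {χ : G →* ℚ_[2]} {X : PD G ℚ_[2] χ Bp Bd Bc} (hX : PT X a) (tt : TT X) (cχ : Continuous χ)
    (h1 : H1 χ) (hW : Odd W.Δ) (ha : Odd W.a₁) {e : Z2 →+ ℕ → (cv W ℂ_[2]).Point} (he : TW e)
    (T : G →* M2 ℤ_[2]) (ct : Continuous T)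
    (hT : ∀ g, Mt e (gm W (a g : ℂ_[2] →+* ℂ_[2])) (T g)) (hd : ∀ g, (tq (T g)).det = χ g) :
    ∃ b : ℤ, b ^ 2 ≤ 8 ∧ Per X (fun g => tq (T g)) b := by
  obtain ⟨b, u, P, b1, b2, b3, b4⟩ := ord W hW ha e he
  obtain ⟨w, w1, w2⟩ := lang u
  obtain ⟨ph, -, hph, -⟩ := exOvC fr_two
  refine ⟨b, b1, oper G χ Bp Bd Bc X tt cχ h1
    ((PadicInt.Coe.ringHom (p := 2)).mapMatrix.toMonoidHom.comp T) b u (tq P)
    (Units.map ((algebraMap Ac Bp).comp (algebraMap Ai Ac)).toMonoidHom w) (tq_cont.comp ct) hd b1 b2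
    (b3.map (PadicInt.Coe.ringHom (p := 2)).mapMatrix) ?_ fun g => ?_⟩
  · exact (hX.fb ph hph (algebraMap Ai Ac w)).trans (by rw [hph, w1]; exact bp_zp _ _)
  obtain ⟨η, c, δ, d1, d2⟩ := b4 (a g) (T g) (a1 g) (hT g)
  obtain ⟨v, hv⟩ := exLf (a g) (a1 g)
  obtain ⟨r, -, hr, -⟩ := exOvC (lf_two hv)
  refine ⟨η, c, δ, ?_, (hX.gb g v r hv hr (algebraMap Ai Ac w)).trans
    (by rw [hr, w2 _ _ _ hv d2]; exact bp_zp _ _)⟩
  have := congrArg tq d1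
  rw [tq_mul, tq_mul] at this
  refine this.trans (congrArg _ ?_)
  ext i j
  fin_cases i <;> fin_cases j <;> rfl

theorem atTwo (all : AllSt) (pt1 : PT1St) (pt2 : PT2St) (lang : LangSt) (ord : OrdSt)
    (h1s : H1St) (oper : OPerSt) (ss : SSSt) (per : PerSt) [NumberField L] [IsCMField L]
    (hL : Module.finrank ℚ L = 2) (hW : Odd W.Δ) (he : TW e)
    (ht : ∀ g : Gal L, Mt e (gm W (g : _ →+* _)) (t g)) (ct : Continuous t)
    (hd : ∀ g, (tq (t g)).det = cyc ℚ_[2] g) (j : AlgebraicClosure L →+* ℂ_[2])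
    (ns : ¬Nonsplit (pj j)) {k : ℕ}
    (ρ : Gal L →* Matrix (Fin (2 * k + 1 + 1)) (Fin (2 * k + 1 + 1)) ℚ_[2])
    (hρ : ∀ g, ρ g = ((tq (t g)).det ^ k)⁻¹ • sym (2 * k + 1) (tq (t g))) :
    Nf0 j ρ ∧ Dr0 j ρ fun i => k + 1 - (i : ℕ) := by
  obtain ⟨a, a1, a2, a3, a4, a5⟩ := exA j
  obtain ⟨T, hT⟩ := exHom he ht
  let χ := (SP.cycE ℚ_[2] L (AlgebraicClosure L)).comp (Dec (pj j)).subtype
  have c1 : ∀ g, χ g = cyc ℚ_[2] g.1 := fun _ => rfl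
  have c2 : ∀ g, χ g = (cyclotomicCharacter ℂ_[2] 2 (a g) : ℤ_[2]) := fun g => by rw [a4]; rfl
  have c3 : Continuous χ := by
    rw [show ⇑χ = fun g => (tq (t g.1)).det from funext fun g => (hd g.1).symm]
    exact (tq_cont.comp (ct.comp continuous_subtype_val)).matrix_det
  obtain ⟨X, hX⟩ := pt1 _ a a1 a2 χ c2
  have tt := pt2 _ a (fun σ h => by
    obtain ⟨g, g1, g2⟩ := (all L hL).1 j ns σ h
    exact ⟨⟨g, g1⟩, RingEquiv.ext (Emb.uniq j (Emb.cont (a1 _)) (Emb.cont h) fun x =>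
      (a3 _ x).trans (g2 x).symm)⟩) χ c2 X hX
  have he' := he.em (gm W j) fun P _ h => gm_inj j (h.trans (map_zero _).symm)
  have ht' : ∀ g : Dec (pj j), Mt (em (gm W j) e) (gm W (a g : ℂ_[2] →+* ℂ_[2]))
      (T.comp (Dec (pj j)).subtype g) := fun g => by
    rw [MonoidHom.comp_apply, hT]
    refine (ht _).em _ fun P => ?_
    rw [gm_gm, gm_gm]
    exact congrArg (gm W · P) (RingHom.ext fun x => (a3 g x).symm)
  have hd' : ∀ g : Dec (pj j), (tq (T.comp (Dec (pj j)).subtype g)).det = χ g := fun g => by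
    rw [MonoidHom.comp_apply, hT]
    exact hd _
  obtain ⟨b, b1, b2⟩ : ∃ b : ℤ, b ^ 2 ≤ 8 ∧
      Per X (fun g => tq (T.comp (Dec (pj j)).subtype g)) b := by
    rcases Int.even_or_odd W.a₁ with h | h
    · exact ss _ a a1 χ X hX tt W hW h _ he' _ ht' hd'
    · exact ordPer lang ord oper a1 hX tt c3 (h1s L hL _ (pj_max j).1 (pj_max j).2 ns χ c1) hW h he'
        _ (by rw [MonoidHom.coe_comp, show ⇑T = t from funext hT]; fun_prop) ht' hd'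
  obtain ⟨p1, P, p2, p3⟩ := per _ χ _ _ _ X tt _ b b1 b2 k (ρ.comp (Dec (pj j)).subtype) fun g => by
    rw [← hd', MonoidHom.comp_apply, MonoidHom.comp_apply, hT, hρ]
  refine ⟨fun z p q => p1 z (fun g => ?_) (q _ hX.fc), P, p2, fun g u s p q i => ?_⟩
  · obtain ⟨u, hu⟩ := exLf _ (a1 g)
    exact p g u _ ((a5 _ _).2 ⟨g.2, hu⟩) (hX.ex g u hu).1
  · obtain ⟨h, hu⟩ := (a5 _ _).1 p
    rw [exD_uniq hu q (hX.ex _ u hu).2]
    exact p3 ⟨g, h⟩ i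

end Pool.Agent.SY
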