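import Pool.Agent.Lib.MP_b4b3cb_nt.SY.St3
import Pool.Agent.Lib.MP_b4b3cb_nt.SY.AtTwo
import Pool.Agent.Lib.MP_b4b3cb_nt.Eps.Loc

/-! The crystalline period of a potentially unramified character. -/

namespace Pool.Agent.SY

open NumberField Matrix Module Pool.Agent.SelTwo Pool.Agent.HF Filter
open scoped TensorProduct Topology Classical

namespace Th

theorem fr_mul {L : Type} [Field L] {P : Idl L} {g h : Gal L} {n m : ℕ} (a : SC.IsFr P n g)
    (b : SC.IsFr P m h) : SC.IsFr P (m * n) (g * h) := fun y => by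
  have := P.add_mem (a (h • y)) (P.mem_of_dvd (sub_dvd_pow_sub_pow (h • y) (y ^ m) n) (b y))
  rwa [sub_add_sub_cancel, ← mul_smul, ← pow_mul] at this

theorem fr_pow {L : Type} [Field L] {P : Idl L} {g : Gal L} {n : ℕ} (a : SC.IsFr P n g) (s : ℕ) :
    SC.IsFr P (n ^ s) (g ^ s) := by
  induction s with
  | zero => intro y; simp
  | succ s ih => rw [pow_succ, pow_succ' g]; exact fr_mul a ih

theorem unit {A R : Type} [CommRing A] [CommRing R] [Algebra A R] (h : Cpl (2 : A)) {x : R}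
    (hx : IsIntegral A x) : IsUnit (1 + 2 * x) := by
  let y : integralClosure A R := ⟨x, hx⟩
  suffices IsUnit (1 + 2 * y) from this.map (integralClosure A R).val
  by_contra hn
  obtain ⟨m, hm, h1⟩ := exists_max_ideal_of_mem_nonunits hn
  have hc := Ideal.isMaximal_comap_of_isIntegral_of_isMaximal (R := A) m
  have h2 : (2 : A) ∈ m.comap (algebraMap A _) := by
    by_contra h2
    obtain ⟨c, i, hi, e⟩ := hc.exists_inv h2
    have := h.unit (-c)
    rw [show 1 + 2 * -c = i by linear_combination -e] at this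
    exact hc.ne_top (Ideal.eq_top_of_isUnit_mem _ hi this)
  rw [Ideal.mem_comap, map_ofNat] at h2
  exact hm.ne_top ((Ideal.eq_top_iff_one _).2 (by simpa using m.sub_mem h1 (m.mul_mem_right y h2)))

theorem prim {L : Type} [Field L] [NumberField L] (U : Subgroup (Gal L))
    (hU : IsOpen (U : Set (Gal L))) : ∃ γ : AlgebraicClosure L, ∀ g, g ∈ U ↔ g γ = γ := by
  obtain ⟨F, hF, rfl⟩ := (SP.facts L (AlgebraicClosure L)).top.field U hU
  obtain ⟨γ, hγ⟩ := Field.exists_primitive_element L F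
  refine ⟨γ, fun g => ⟨fun h => h γ, fun h x => ?_⟩⟩
  have hx : x ∈ IntermediateField.adjoin L {γ} := hγ ▸ IntermediateField.mem_top
  induction hx using IntermediateField.adjoin_induction with
  | mem x hx => rw [hx]; exact h
  | algebraMap x => exact g.commutes x
  | add x y _ _ a b => rw [map_add, map_add, a, b]
  | inv x _ a => rw [map_inv₀, map_inv₀, a]
  | mul x y _ _ a b => rw [map_mul, map_mul, a, b]

theorem wpow (u : Ti →+* Ti) (r : ℕ) (a : Ai) :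
    WittVector.map (u ^ r) a = (WittVector.map u ^ r : Ai →+* Ai) a := by
  induction r generalizing a with
  | zero => exact wmap_id a
  | succ r ih => rw [pow_succ, pow_succ]; exact (wmap_comp _ _ a).trans (ih _)

/-- The matrix over the field. -/
noncomputable abbrev cm {d : ℕ} :
    Matrix (Fin d) (Fin d) ℤ_[2] →+* Matrix (Fin d) (Fin d) ℚ_[2] :=
  (PadicInt.Coe.ringHom (p := 2)).mapMatrix

variable {E : Type} [NontriviallyNormedField E] [NormedAlgebra ℚ_[2] E] {d : ℕ}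

theorem iso {M : ℕ} (hM : 0 < M) : ∃ δ > 0, ∀ z : E, ‖z - 1‖ < δ → z ^ M = 1 → z = 1 := by
  have := charZero_of_injective_algebraMap (algebraMap ℚ_[2] E).injective
  have c : ContinuousAt (fun z : E => ∑ i ∈ Finset.range M, z ^ i) 1 := by fun_prop
  obtain ⟨δ, h0, h⟩ := Metric.eventually_nhds_iff.1 
    (c.eventually_ne (y := 0) (by simpa using hM.ne'))
  refine ⟨δ, h0, fun z a b => ?_⟩
  have e := geom_sum_mul z M
  rw [b, sub_self] at e
  exact sub_eq_zero.1 ((mul_eq_zero.1 e).resolve_left (h (by rwa [dist_eq_norm])))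

theorem nm {z : E} (h : ‖z - 1‖ < 1) : ‖z‖ = 1 := by
  have := IsUltrametricDist.of_normedAlgebra ℚ_[2] (L := E)
  rw [← sub_add_cancel z 1, IsUltrametricDist.norm_add_eq_max_of_norm_ne_norm
    (by simpa using h.ne), norm_one, max_eq_right h.le]

theorem ball {ε : ℝ} (h0 : 0 < ε) (h1 : ε ≤ 1) :
    ∃ B : Subgroup Eˣ, ∀ z, z ∈ B ↔ ‖(z : E) - 1‖ < ε := by
  have := IsUltrametricDist.of_normedAlgebra ℚ_[2] (L := E)
  refine ⟨⟨⟨⟨{z | ‖(z : E) - 1‖ < ε}, fun {z w} a b => ?_⟩, by simpa⟩, fun {z} a => ?_⟩,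
    fun _ => Iff.rfl⟩
  · change ‖(z : E) * w - 1‖ < ε
    rw [show (z : E) * w - 1 = z * (w - 1) + (z - 1) by ring]
    refine (IsUltrametricDist.norm_add_le_max _ _).trans_lt (max_lt ?_ a)
    rwa [norm_mul, nm (a.trans_le h1), one_mul]
  · change ‖((z⁻¹ : Eˣ) : E) - 1‖ < ε
    rw [← one_mul ‖_‖, ← nm (a.trans_le h1), ← norm_mul, mul_sub, z.mul_inv, mul_one, norm_sub_rev]
    exact a

section

variable {A B : Type} [CommRing A] [CommRing B] [Algebra ℚ_[2] B] (ι : A →+* B)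
  (b : Basis (Fin d) ℚ_[2] E)

/-- The element with given coordinates. -/
noncomputable def J (w : Fin d → A) : E ⊗[ℚ_[2]] B := ∑ i, b i ⊗ₜ ι (w i)

theorem J_map (s : B →ₐ[ℚ_[2]] B) (φ : A → A) (h : ∀ x, s (ι x) = ι (φ x)) (w : Fin d → A) :
    tm E s (J ι b w) = J ι b fun i => φ (w i) := by
  simp [J, tm, h]

theorem s_pow {s : B →ₐ[ℚ_[2]] B} {φ : A →+* A} (h : ∀ x, s (ι x) = ι (φ x)) (f : ℕ) (x : A) :
    (s ^ f) (ι x) = ι ((φ ^ f) x) := by
  induction f generalizing x with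
  | zero => rfl
  | succ f ih => rw [pow_succ, pow_succ, AlgHom.mul_apply, h, ih]; rfl

variable {z : ℤ_[2] →+* A}

theorem it {φ : A →+* A} (h : ∀ c, φ (z c) = z c) {U : Matrix (Fin d) (Fin d) ℤ_[2]}
    {y : Fin d → A} (e : (U.map z *ᵥ fun i => φ (y i)) = y) (r : ℕ) :
    ((U ^ r).map z *ᵥ fun i => (φ ^ r) (y i)) = y := by
  induction r with
  | zero => simp
  | succ r ih =>
    have : (fun i => φ (y i)) = (U ^ r).map z *ᵥ fun i => (φ ^ (r + 1)) (y i) := by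
      funext i
      rw [← congrFun ih i, RingHom.map_mulVec, Matrix.map_map,
        show φ ∘ z = z from funext h, pow_succ']
      rfl
    rw [pow_succ' U, Matrix.map_mul, ← mulVec_mulVec, ← this, e]

variable (hz : ∀ c, ι (z c) = algebraMap ℚ_[2] B c)

include hz

theorem J_smul {Z : Matrix (Fin d) (Fin d) ℤ_[2]} {x : E} (h : cm Z = Algebra.leftMulMatrix b x)
    (w : Fin d → A) : x • J ι b w = J ι b (Z.map z *ᵥ w) := by
  simp only [J, mulVec, dotProduct, map_sum, map_mul, map_apply, hz, TensorProduct.tmul_sum,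
    Finset.smul_sum, ← Algebra.smul_def, ← TensorProduct.smul_tmul, TensorProduct.smul_tmul']
  rw [Finset.sum_comm]
  refine Finset.sum_congr rfl fun k _ => ?_
  rw [← TensorProduct.sum_tmul, smul_eq_mul, ← b.sum_repr (x * b k)]
  refine congrArg (· ⊗ₜ _) (Finset.sum_congr rfl fun i _ => ?_)
  rw [← Algebra.leftMulMatrix_eq_repr_mul, ← h]
  rfl

theorem J_unit [Algebra ℤ_[2] E] [IsScalarTower ℤ_[2] ℚ_[2] E] (hA : Cpl (2 : A)) {i₀ : Fin d}
    (h0 : b i₀ = 1) (hb : ∀ i, IsIntegral ℤ_[2] (b i)) {y : Fin d → A}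
    (hy : ∀ i, 2 ∣ y i - z ((Pi.single i₀ 1 : Fin d → ℤ_[2]) i)) : IsUnit (J ι b y) := by
  choose x hx using hy
  let _ : Algebra A (E ⊗[ℚ_[2]] B) :=
    ((Algebra.TensorProduct.includeRight (R := ℚ_[2]) (A := E)).toRingHom.comp ι).toAlgebra
  have e : ∀ a, algebraMap A (E ⊗[ℚ_[2]] B) a = 1 ⊗ₜ ι a := fun _ => rfl
  have e1 : J ι b y = 1 + 2 * J ι b x := by
    have : J ι b (fun i => z ((Pi.single i₀ 1 : Fin d → ℤ_[2]) i)) = 1 := by
      rw [J, Finset.sum_eq_single i₀ (fun i _ hi => by simp [hi]) (by simp)]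
      simp [h0, Algebra.TensorProduct.one_def]
    rw [← this, ← map_ofNat (algebraMap A (E ⊗[ℚ_[2]] B)) 2, e]
    simp only [J, Finset.mul_sum, ← Finset.sum_add_distrib, Algebra.TensorProduct.tmul_mul_tmul,
      one_mul, ← TensorProduct.tmul_add, ← map_mul, ← map_add, ← hx, add_sub_cancel]
  rw [e1]
  refine unit hA (IsIntegral.sum _ fun i _ => ?_)
  rw [show b i ⊗ₜ ι (x i) = b i ⊗ₜ[ℚ_[2]] (1 : B) * algebraMap A _ (x i) by simp [e]]
  refine IsIntegral.mul ?_ isIntegral_algebraMap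
  refine (hb i).map_of_comp_eq z Algebra.TensorProduct.includeLeftRingHom (RingHom.ext fun c => ?_)
  rw [RingHom.comp_apply, e, hz, RingHom.comp_apply, IsScalarTower.algebraMap_apply ℤ_[2] ℚ_[2] E]
  exact (Algebra.TensorProduct.algebraMap_apply' _).symm.trans
    (Algebra.TensorProduct.algebraMap_apply _)

end

variable [FiniteDimensional ℚ_[2] E]

theorem bas [Algebra ℤ_[2] E] [IsScalarTower ℤ_[2] ℚ_[2] E] : ∃ (d : ℕ)
    (b : Basis (Fin d) ℚ_[2] E) (i₀ : Fin d), b i₀ = 1 ∧ ∀ i, IsIntegral ℤ_[2] (b i) := by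
  let pb := Field.powerBasisOfFiniteOfSeparable ℚ_[2] E
  obtain ⟨c, c0, hc⟩ := ((IsFractionRing.isAlgebraic_iff ℤ_[2] ℚ_[2] E).2
    (Algebra.IsAlgebraic.isAlgebraic pb.gen)).exists_integral_multiple
  have u : ∀ i : Fin pb.dim, IsUnit (algebraMap ℤ_[2] ℚ_[2] c ^ (i : ℕ)) := fun i =>
    (Ne.isUnit (PadicInt.coe_ne_zero.2 c0)).pow _
  refine ⟨pb.dim, pb.basis.isUnitSMul u, ⟨0, pb.dim_pos⟩, by simp [Basis.isUnitSMul_apply],
    fun i => ?_⟩
  rw [Basis.isUnitSMul_apply, pb.basis_eq_pow, ← smul_pow, algebraMap_smul]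
  exact hc.pow _

theorem small (b : Basis (Fin d) ℚ_[2] E) (n : ℕ) : ∃ δ > 0, ∀ z : E, ‖z‖ < δ →
    ∃ Z, cm ((2 ^ n : ℤ_[2]) • Z) = Algebra.leftMulMatrix b z := by
  have c : Continuous (Algebra.leftMulMatrix b) :=
    (Algebra.leftMulMatrix b).toLinearMap.continuous_of_finiteDimensional
  have : ∀ᶠ z : E in 𝓝 0, ∀ i k, ‖(2 ^ n : ℚ_[2])⁻¹ * Algebra.leftMulMatrix b z i k‖ < 1 :=
    eventually_all.2 fun i => eventually_all.2 fun k =>
      (continuous_const.mul (c.matrix_elem i k)).norm.continuousAt.eventually_lt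
        continuousAt_const (by simp)
  obtain ⟨δ, h0, h⟩ := Metric.eventually_nhds_iff.1 this
  refine ⟨δ, h0, fun z hz => ⟨of fun i k => ⟨_, (h (y := z) (by simpa using hz) i k).le⟩, ?_⟩⟩
  ext i k
  change ((2 ^ n * _ : ℤ_[2]) : ℚ_[2]) = _
  rw [PadicInt.coe_mul, PadicInt.coe_pow]
  exact mul_inv_cancel_left₀ (pow_ne_zero n two_ne_zero) _

end Th

open Th in
theorem th' (den : DenSt) (lv : LangVSt) : ThSt := by
  intro L _ _ j hq E _ _ _ θ cθ ⟨M, hM, la⟩ a a1 a2 χ X hX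
  let _ : Algebra ℤ_[2] E := ((algebraMap ℚ_[2] E).comp (algebraMap ℤ_[2] ℚ_[2])).toAlgebra
  have : IsScalarTower ℤ_[2] ℚ_[2] E := .of_algebraMap_eq fun _ => rfl
  obtain ⟨d, b, i₀, b0, b1⟩ := bas (E := E)
  obtain ⟨δ₁, d1, h1⟩ := small b 1
  obtain ⟨δ₂, d2, h2⟩ := iso (E := E) hM
  have mx := (pj_max j).1
  obtain ⟨-, ⟨σ, hσ⟩, -, dn⟩ := den L _ mx
  replace dn := (dn σ hσ).1
  rw [hq, fb_iff] at hσ
  obtain ⟨t, ht⟩ : ∃ t : Gal L →* Eˣ, ∀ g, (t g : E) = θ g := ⟨θ.toHomUnits, fun _ => rfl⟩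
  have bl : ∀ ε : ℝ, 0 < ε → ε ≤ 1 → ∃ B : Subgroup Eˣ, (∀ z, z ∈ B ↔ ‖(z : E) - 1‖ < ε) ∧
      IsOpen (B.comap t : Set (Gal L)) := fun ε e0 e1 => by
    obtain ⟨B, hB⟩ := ball (E := E) e0 e1
    refine ⟨B, hB, ?_⟩
    rw [show (B.comap t : Set (Gal L)) = {g | ‖θ g - 1‖ < ε} from
      Set.ext fun g => (hB _).trans (by rw [ht]; rfl)]
    exact isOpen_lt (by fun_prop) continuous_const
  obtain ⟨ε, e0, e1, e2, e3⟩ : ∃ ε : ℝ, 0 < ε ∧ ε ≤ 1 ∧ ε ≤ δ₁ ∧ ε ≤ δ₂ :=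
    ⟨min 1 (min δ₁ δ₂), by positivity, min_le_left _ _, by simp, by simp⟩
  obtain ⟨B, hB, oB⟩ := bl ε e0 e1
  have mt : ∀ z ∈ B, ∃ Z, (∀ i k, 2 ∣ (Z - 1) i k) ∧ cm Z = Algebra.leftMulMatrix b z :=
    fun z hz => by
      obtain ⟨Z, hZ⟩ := h1 _ (((hB z).1 hz).trans_le e2)
      exact ⟨(2 ^ 1 : ℤ_[2]) • Z + 1, fun i k => by simp, by rw [map_add, hZ]; simp⟩
  have fi := (SP.facts L (AlgebraicClosure L)).top.fi _ oB
  obtain ⟨γ, hγ⟩ := prim _ oB
  obtain ⟨f, hf⟩ : ∃ f, ∀ s, f ∣ s ↔ t σ ^ s ∈ (Ine (pj j)).map t ⊔ B :=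
    ⟨orderOf (QuotientGroup.mk' ((Ine (pj j)).map t ⊔ B) (t σ)), fun s => by
      rw [orderOf_dvd_iff_pow_eq_one, ← map_pow]
      exact QuotientGroup.eq_one_iff _⟩
  have f0 : 0 < f := Nat.pos_of_dvd_of_pos ((hf _).2 (Subgroup.mem_sup_right
    (by rw [← map_pow]; exact (B.comap t).pow_index_mem σ))) (Nat.pos_of_ne_zero fi.1)
  obtain ⟨_, ⟨i₁, hi, rfl⟩, β, hβ, e⟩ := Subgroup.mem_sup.1 ((hf f).1 dvd_rfl)
  have eβ : θ (i₁⁻¹ * σ ^ f) = β := by
    rw [← ht, map_mul, map_inv, map_pow, ← e, inv_mul_cancel_left]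
  obtain ⟨U, u1, u2⟩ := mt β hβ
  obtain ⟨y, y1, y2, y3⟩ := lv d f U (Pi.single i₀ 1) f0 u1
  let ι := (algebraMap Ac Bp).comp (algebraMap Ai Ac)
  have hz : ∀ c, ι (zp c) = algebraMap ℚ_[2] Bp c := fun c => (qB c).symm
  refine ⟨j γ, (B.comap t).subgroupOf _, f, i₁⁻¹ * σ ^ f, ?_, inferInstance, inferInstance,
    fun g => ?_, f0, fb_iff.2 ?_, (J_unit ι b hz ai_cpl b0 b1 y1).unit, fun h hh => ?_, ?_⟩
  · exact ((Algebra.IsAlgebraic.trans ℚ L (AlgebraicClosure L)).isAlgebraic γ).algHom j.toRatAlgHom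
  · rw [Subgroup.mem_subgroupOf, hγ, a2, j.injective.eq_iff]
  · have := fr_mul (EP.ine_fr ((Ine (pj j)).inv_mem hi)) (fr_pow hσ f)
    rwa [mul_one] at this
  · obtain ⟨v, hv⟩ := exLf (a h) (a1 h)
    obtain ⟨r, -, hr, -⟩ := exOvC (lf_two hv)
    have hh' : t h ∈ B := hh
    obtain ⟨Z, -, z2⟩ := mt _ hh'
    beta_reduce
    rw [IsUnit.unit_spec, J_map ι b _ (WittVector.map v) fun x =>
      (hX.gb h v r hv hr _).trans (congrArg _ (hr x)), J_smul ι b hz (z2.trans (congrArg _ (ht _)))]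
    refine congrArg _ (funext fun k => sub_eq_zero.1 (ai_cpl.1 _ fun n => ?_))
    obtain ⟨N, N0, hN⟩ := y3 n
    obtain ⟨δ, d3, h3⟩ := small b n
    obtain ⟨B', hB', oB'⟩ := bl (min ε δ) (by positivity) ((min_le_left _ _).trans e1)
    have p0 : 0 < 2 ^ N - 1 := Nat.sub_pos_of_lt (Nat.one_lt_two_pow N0.ne')
    have : NeZero (2 ^ N - 1) := ⟨p0.ne'⟩
    obtain ⟨ζ, hζ⟩ := HasEnoughRootsOfUnity.exists_primitiveRoot (AlgebraicClosure L) (2 ^ N - 1)
    obtain ⟨s, i, h', hi', ⟨k1, k2⟩, -, e'⟩ := dn (B'.comap t ⊓ MulAction.stabilizer _ ζ)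
      (oB'.inter (stabilizer_isOpen_of_isIntegral ζ)) h h.2
    replace k1 := lt_min_iff.1 ((hB' _).1 k1)
    have k3 := (hB _).2 k1.1
    have et : t h = t i * t h' * t σ ^ s := by rw [e', map_mul, map_mul, map_pow]
    obtain ⟨m, rfl⟩ := (hf s).2 (Subgroup.mem_sup.2 ⟨_, ⟨i⁻¹, inv_mem hi', rfl⟩, _,
      mul_mem (inv_mem k3) hh', by
        rw [et, map_inv, ← mul_assoc, ← mul_inv, inv_mul_cancel_left]⟩)
    have e2 : t h = t (i * i₁ ^ m) * (t h' * β ^ m) := by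
      rw [et, pow_mul, ← e, map_mul, map_pow, mul_pow]
      ac_rfl
    have e4 : θ (i * i₁ ^ m) = 1 := by
      refine h2 _ (ht _ ▸ ((hB _).1 ?_).trans_le e3) (by simpa using la _ (mul_mem hi' (pow_mem hi m)))
      rw [eq_mul_inv_of_mul_eq e2.symm]
      exact mul_mem hh' (inv_mem (mul_mem k3 (pow_mem hβ m)))
    obtain ⟨Z', z3⟩ := h3 ((t h : E) - β ^ m) (by
      rw [e2, Units.val_mul, ht, e4, one_mul, Units.val_mul, Units.val_pow_eq_pow_val,
        ← sub_one_mul, norm_mul, norm_pow, nm (((hB _).1 hβ).trans_le e1), one_pow, mul_one]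
      exact k1.2)
    have e5 : Z = U ^ m + (2 ^ n : ℤ_[2]) • Z' := by
      refine Matrix.map_injective Subtype.val_injective (?_ : cm Z = cm (U ^ m + _ • Z'))
      rw [map_add, map_pow, z3, z2, u2, map_sub, map_pow, add_sub_cancel]
    have nP : ((2 ^ N - 1 : ℕ) : 𝓞 (AlgebraicClosure L)) ∉ pj j := fun hc => by
      rw [Nat.cast_pred (by positivity), Nat.cast_pow, Nat.cast_ofNat] at hc
      simpa [Emb.one j] using sub_mem ((pj j).pow_mem_of_mem (pj_max j).2 N N0) hc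
    have e6 : h.1 ζ = ζ ^ 2 ^ (f * m) := by
      rw [e', AlgEquiv.mul_apply, AlgEquiv.mul_apply,
        EP.fr_root mx (fr_pow hσ _) nP hζ.pow_eq_one, map_pow, show h' ζ = ζ from k2, map_pow,
        EP.fr_root mx (EP.ine_fr hi') nP hζ.pow_eq_one, pow_one]
    choose w hw using hN (a h) v (f * m) hv fun x hx => by
      rcases eq_or_ne x 0 with rfl | x0
      · simp
      obtain ⟨l, -, rfl⟩ := (hζ.map_of_injective j.injective).eq_pow_of_pow_eq_one (ξ := x)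
        (by rw [pow_sub₀ x x0 Nat.one_le_two_pow, hx, pow_one, mul_inv_cancel₀ x0])
      rw [map_pow, a2, e6, map_pow, pow_right_comm]
    have e7 := it (map_zp _) y2 m
    simp only [← wpow, ← pow_mul] at e7
    have e8 : (fun i => WittVector.map v (y i)) =
        (fun i => WittVector.map (fr ^ (f * m)) (y i)) + (2 ^ n : Ai) • w :=
      funext fun i => eq_add_of_sub_eq' (hw i)
    have e9 : ((2 ^ n : ℤ_[2]) • Z').map zp = (2 ^ n : Ai) • Z'.map zp := by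
      ext1 i k
      simp [map_ofNat]
    rw [e5, Matrix.map_add _ (map_add zp), add_mulVec, e9, smul_mulVec]
    nth_rw 1 [e8]
    rw [mulVec_add, e7, mulVec_smul, add_assoc, ← smul_add, Pi.add_apply, add_sub_cancel_left]
    exact Dvd.intro _ rfl
  · obtain ⟨ph, -, hph, -⟩ := exOvC fr_two
    rw [IsUnit.unit_spec, J_map ι b _ (WittVector.map (fr ^ f)) fun x => (s_pow ι (fun x =>
      (hX.fb ph hph _).trans (congrArg _ (hph x))) f x).trans (congrArg _ (wpow _ _ _).symm),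
      J_smul ι b hz (u2.trans (by rw [eβ])), y2]

end Pool.Agent.SY
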