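import Pool.Agent.Lib.MP_b4b3cb_nt.SY.St2
import Pool.Agent.Lib.MP_b4b3cb_nt.HF.Cm

/-! The canonical lift of a compatible sequence and the logarithm of a formal group. -/

namespace Pool.Agent.SY

open Pool.Agent.HF

namespace Zz

variable {R A : Type} [CommRing R] [AddCommGroup A] {z : A → R} (h : FG z) {y : R} {P Q : A}

include h

theorem sub_iff : y ∣ z (P - Q) ↔ y ∣ z P - z Q :=
  ⟨fun e => e.trans (by simpa using h.add1 Q (P - Q)), fun e => e.trans (h.add3 P Q)⟩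

theorem add (a : y ∣ z P) (b : y ∣ z Q) : y ∣ z (P + Q) := by
  simpa using (b.trans (h.add1 P Q)).add a

theorem sub (a : y ∣ z P) (b : y ∣ z Q) : y ∣ z (P - Q) := (sub_iff h).2 (a.sub b)

theorem smul (a : y ∣ z P) (n : ℕ) : y ∣ z (n • P) := by
  induction n with
  | zero => simp [h.zero]
  | succ n ih => rw [succ_nsmul]; exact add h ih a

theorem sep (c : Cpl (2 : R)) (a : ∀ n, 2 ^ n ∣ z P) : P = 0 :=
  h.inj ((c.1 _ a).trans h.zero.symm)

theorem two (a : 2 ∣ z P) : ∃ x, z (2 • P) = 2 * z P * (1 + z P * x) := by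
  obtain ⟨r, s, e⟩ := h.two P
  obtain ⟨c, hc⟩ := a
  exact ⟨r + 2 * c ^ 2 * (1 + z P * s), by rw [e, hc]; ring⟩

theorem pow (a : 2 ∣ z P) (n : ℕ) : 2 ^ (n + 1) ∣ z (2 ^ n • P) := by
  induction n with
  | zero => simpa using a
  | succ n ih =>
    obtain ⟨x, e⟩ := two h (smul h a (2 ^ n))
    rw [pow_succ' 2 n, mul_smul, e, pow_succ']
    exact (mul_dvd_mul_left 2 ih).mul_right _

theorem pow' (a : 2 ∣ z P) (n : ℕ) : 2 ^ n ∣ z (2 ^ n • P) :=
  (pow_dvd_pow 2 n.le_succ).trans (pow h a n)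

theorem sq (a : 2 ∣ z P ^ 2) (n : ℕ) : 2 ^ n ∣ z (2 ^ n • P) := by
  cases n with
  | zero => simp
  | succ n =>
    rw [pow_succ (2 : ℕ) n, mul_smul]
    refine pow h ?_ n
    obtain ⟨r, s, e⟩ := h.two P
    rw [e]
    exact ((dvd_mul_right _ _).add ((dvd_mul_right _ _).mul_right _)).add
      ((a.trans (pow_dvd_pow _ (by norm_num))).mul_right _)

omit h in
theorem can (h2 : ∀ x : R, 2 * x = 0 → x = 0) (n : ℕ) {a b : R} (e : 2 ^ n * a = 2 ^ n * b) :
    a = b := by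
  induction n with
  | zero => simpa using e
  | succ n ih =>
    refine ih (sub_eq_zero.1 (h2 _ ?_))
    linear_combination e

omit h in
theorem can' (h2 : ∀ x : R, 2 * x = 0 → x = 0) (n : ℕ) {a : R} (e : 2 ^ (2 * n) ∣ 2 ^ n * a) :
    2 ^ n ∣ a :=
  e.elim fun c hc => ⟨c, can h2 n (by rw [hc]; ring)⟩

end Zz

open Zz

theorem zs : ZSt := by
  intro R O A A' _ _ _ _ θ z z' T h h' hT sur c c' ex h2
  have ker (D : A) (e : T D = 0) (n : ℕ) : 2 ^ n ∣ z (2 ^ n • D) :=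
    sq h (h2 _ (by rw [← hT, e, h'.zero]; exact dvd_zero _)) n
  have key (p : ℕ → A') (hp : Cm p) : ∃ Q, ∀ n P, T P = p n → 2 ^ n ∣ z (Q - 2 ^ n • P) := by
    choose s hs using sur
    obtain ⟨l, hl⟩ := c.2 (fun n => z (2 ^ n • s (p n))) fun n => by
      have := ker (2 • s (p (n + 1)) - s (p n)) (by rw [map_sub, map_nsmul, hs, hs, hp, sub_self]) n
      rwa [smul_sub, ← mul_smul, ← pow_succ, sub_iff h] at this
    obtain ⟨Q, rfl⟩ := ex _ l (by simpa using hl 1)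
    refine ⟨Q, fun n P e => ?_⟩
    have := add h ((sub_iff h).2 (hl n)) (ker (s (p n) - P) (by rw [map_sub, hs, e, sub_self]) n)
    rwa [smul_sub, sub_add_sub_cancel] at this
  have : Nonempty A := ⟨0⟩
  choose! Z hZ using key
  have un (p : ℕ → A') (hp : Cm p) (Q : A)
      (e : ∀ n, ∃ P, T P = p n ∧ 2 ^ n ∣ z (Q - 2 ^ n • P)) : Q = Z p :=
    sub_eq_zero.1 (sep h c fun n => by
      obtain ⟨P, e1, e2⟩ := e n
      simpa using sub h e2 (hZ p hp n P e1))
  refine ⟨Z, fun p hp => ⟨fun q hq => (un _ (fun n => ?_) _ fun n => ?_).symm,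
    sub_eq_zero.1 (sep h' c' fun n => ?_), un p hp _ fun n => ?_,
    fun ρ σ h1 h3 => un _ (fun n => ?_) _ fun n => ?_, fun ψ h1 h3 => sep h c fun n => ?_⟩⟩
  · rw [Pi.add_apply, Pi.add_apply, smul_add, hp, hq]
  · obtain ⟨P, e⟩ := sur (p n)
    obtain ⟨P', e'⟩ := sur (q n)
    refine ⟨P + P', by rw [map_add, e, e', Pi.add_apply], ?_⟩
    rw [smul_add, add_sub_add_comm]
    exact add h (hZ p hp n P e) (hZ q hq n P' e')
  · obtain ⟨P, e⟩ := sur (p n)
    have e0 (n : ℕ) : 2 ^ n • p n = p 0 := by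
      induction n with
      | zero => simp
      | succ n ih => rw [pow_succ, mul_smul, hp, ih]
    have := map_dvd θ (hZ p hp n P e)
    rwa [map_pow, map_ofNat, ← hT, map_sub, map_nsmul, e, e0] at this
  · obtain ⟨P, e⟩ := sur (p (n + 1))
    refine ⟨2 • P, by rw [map_nsmul, e, hp], ?_⟩
    rw [smul_comm, ← smul_sub]
    exact smul h (hZ _ (fun n => hp (n + 1)) n P e) 2
  · rw [← map_nsmul, hp]
  · obtain ⟨P, e⟩ := sur (p n)
    refine ⟨ρ P, by rw [h3, e], ?_⟩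
    rw [← map_nsmul, ← map_sub]
    exact h1 n _ (hZ p hp n P e)
  · obtain ⟨P, e, e'⟩ := h3 n
    have := add h (h1 n _ (hZ p hp n P e)) (pow' h e' n)
    rwa [map_sub, map_nsmul, sub_add_cancel] at this

theorem logS : LogSt := by
  intro R A _ _ z h c h2
  have d2 {x : R} (e : 4 ∣ x) : 2 ∣ x := Dvd.dvd.trans ⟨2, by norm_num⟩ e
  have key (P : A) (a : 2 ∣ z P) : ∃ l, ∀ n, 2 ^ (2 * n) ∣ z (2 ^ n • P) - 2 ^ n * l := by
    choose f hf using pow' h a
    obtain ⟨l, hl⟩ := c.2 f fun n => by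
      obtain ⟨x, e⟩ := two h (smul h a (2 ^ n))
      rw [← mul_smul, ← pow_succ', hf, hf] at e
      exact ⟨f n ^ 2 * x, can h2 (n + 1) (by linear_combination e)⟩
    refine ⟨l, fun n => ?_⟩
    rw [hf, ← mul_sub, two_mul, pow_add]
    exact mul_dvd_mul_left _ (dvd_sub_comm.1 (hl n))
  choose! l hl using key
  have un (P : A) (a : 2 ∣ z P) (x : R) (e : ∀ n, 2 ^ (2 * n) ∣ z (2 ^ n • P) - 2 ^ n * x) :
      l P = x :=
    sub_eq_zero.1 (c.1 _ fun n => can' h2 n (by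
      convert (e n).sub (hl P a n) using 1
      ring))
  refine ⟨l, fun P a4 => ?_⟩
  have a := d2 a4
  refine ⟨fun Q b => un _ (add h a (d2 b)) _ fun n => ?_, fun e => sep h c fun n => ?_, hl P a,
    fun ρ r e => un _ ?_ _ fun n => ?_⟩
  · have := h.add2 _ _ _ (pow' h a n) (pow' h (d2 b) n)
    rw [← pow_mul, mul_comm n, ← smul_add] at this
    convert (this.add (hl P a n)).add (hl Q (d2 b) n) using 1
    ring
  · have u (n : ℕ) : ∃ v, IsUnit v ∧ z (2 ^ n • P) = 2 ^ n * (z P * v) := by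
      induction n with
      | zero => exact ⟨1, isUnit_one, by simp⟩
      | succ n ih =>
        obtain ⟨v, hv, e⟩ := ih
        obtain ⟨x, ex⟩ := two h (smul h a (2 ^ n))
        obtain ⟨w, hw⟩ := smul h a (2 ^ n)
        refine ⟨v * (1 + 2 * (w * x)), hv.mul (c.unit _), ?_⟩
        rw [pow_succ' 2 n, mul_smul, ex]
        nth_rw 2 [hw]
        rw [e]
        ring
    obtain ⟨v, hv, ev⟩ := u n
    have := hl P a n
    rw [e, mul_zero, sub_zero, ev] at this
    exact hv.dvd_mul_right.1 (can' h2 n this)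
  · have := map_dvd r a
    rwa [map_ofNat, ← e] at this
  · have := map_dvd r (hl P a n)
    rwa [map_pow, map_ofNat, map_sub, map_mul, map_pow, map_ofNat, ← e, map_nsmul] at this

end Pool.Agent.SY
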