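import Pool.Agent.Lib.MP_b4b3cb_nt.SY.InrT
import Pool.Agent.Lib.MP_b4b3cb_nt.SY.M7
import Pool.Agent.Lib.MP_b4b3cb_nt.SY.All
import Pool.Agent.Lib.MP_b4b3cb_nt.SY.Om
import Pool.Agent.Lib.MP_b4b3cb_nt.SY.PT
import Pool.Agent.Lib.MP_b4b3cb_nt.SY.Ax
import Pool.Agent.Lib.MP_b4b3cb_nt.SY.Dual
import Pool.Agent.Lib.MP_b4b3cb_nt.SY.FG
import Pool.Agent.Lib.MP_b4b3cb_nt.SY.Fr
import Pool.Agent.Lib.MP_b4b3cb_nt.SY.Fr1
import Pool.Agent.Lib.MP_b4b3cb_nt.SY.Good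
import Pool.Agent.Lib.MP_b4b3cb_nt.SY.Grp
import Pool.Agent.Lib.MP_b4b3cb_nt.SY.H1
import Pool.Agent.Lib.MP_b4b3cb_nt.SY.Hen
import Pool.Agent.Lib.MP_b4b3cb_nt.SY.Inj
import Pool.Agent.Lib.MP_b4b3cb_nt.SY.Lang
import Pool.Agent.Lib.MP_b4b3cb_nt.SY.Mult
import Pool.Agent.Lib.MP_b4b3cb_nt.SY.OPer
import Pool.Agent.Lib.MP_b4b3cb_nt.SY.Ok
import Pool.Agent.Lib.MP_b4b3cb_nt.SY.Ord
import Pool.Agent.Lib.MP_b4b3cb_nt.SY.Plc
import Pool.Agent.Lib.MP_b4b3cb_nt.SY.Ram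
import Pool.Agent.Lib.MP_b4b3cb_nt.SY.Rel
import Pool.Agent.Lib.MP_b4b3cb_nt.SY.SPer
import Pool.Agent.Lib.MP_b4b3cb_nt.SY.Sym
import Pool.Agent.Lib.MP_b4b3cb_nt.SY.Tate
import Pool.Agent.Lib.MP_b4b3cb_nt.SY.Z
import Pool.Agent.Lib.MP_b4b3cb_nt.SY.Den
import Pool.Agent.Lib.MP_b4b3cb_nt.SY.RamC
import Pool.Agent.Lib.MP_b4b3cb_nt.SY.Tm
import Pool.Agent.Lib.MP_b4b3cb_nt.SY.Ns
import Pool.Agent.Lib.MP_b4b3cb_nt.SY.Cjw
import Pool.Agent.Lib.MP_b4b3cb_nt.SY.RecT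
import Pool.Agent.Lib.MP_b4b3cb_nt.SY.PurA
import Pool.Agent.Lib.MP_b4b3cb_nt.SY.Pur
import Pool.Agent.Lib.MP_b4b3cb_nt.SY.LangV
import Pool.Agent.Lib.MP_b4b3cb_nt.SY.Th
import Pool.Agent.Lib.MP_b4b3cb_nt.SY.Dr
import Pool.Agent.Lib.MP_b4b3cb_nt.SY.EigT
import Pool.Agent.Lib.MP_b4b3cb_nt.SY.PerT
import Pool.Agent.Lib.MP_b4b3cb_nt.SY.EpsT
import Pool.Agent.Lib.MP_b4b3cb_nt.SY.L4a
import Pool.Agent.Lib.MP_b4b3cb_nt.SY.BasE2

/-! The steps, put together. -/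

namespace Pool.Agent.SY

open NumberField IsDedekindDomain Matrix Pool.Agent.SelTwo Pool.Agent.HF Pool.Agent.SymTwo
open scoped Classical

theorem l1' : L1St := l1 plc (good (frs fr1))

theorem l3' : L3TSt := l3T plc un vc (good (frs fr1)) mult ram

theorem ns' : NsSt := ns ramC tms

theorem loc' : LocTSt :=
  locT (det l1') (l2T plc un vc pot (good (frs fr1)) mult ram) (invT symS (eigT symS)) all (pt1 inj)
    (pt2 (tate ax)) lang (ord fr1) h1s oper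
    (ss (om grp fgs hen (acs inj) zs logS tor fm (rel fr1 grp fgs hen (acs inj))) sper) cjw spl
    (pur den ramC cjw recT spl purA) (th' den langV) drs (perT symS (eigT symS))

theorem cntp (n : ℕ) (b : ℤ) :
    (Finset.univ.filter fun i : Fin n => (0 : ℤ) < b - (i : ℕ)).card = min b.toNat n := by
  refine (congrArg Finset.card (Finset.filter_congr
    (q := fun i : Fin n => (i : ℕ) < b.toNat) fun i _ => by omega)).trans ?_
  rw [Fin.card_filter_val_lt, min_comm]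

variable {L : Type} [Field L] [NumberField L] {E : Type} [NontriviallyNormedField E]
  [NormedAlgebra ℚ_[2] E] {E' : Type} [NontriviallyNormedField E'] [NormedAlgebra ℚ_[2] E']

omit [NumberField L] in
theorem mem2 {𝔓 : Idl L} {w : HeightOneSpectrum (𝓞 L)} (h : 𝔓.under _ = w.asIdeal) :
    (2 ∈ 𝔓 ↔ 2 ∈ w.asIdeal) ∧ (3 ∈ 𝔓 ↔ 3 ∈ w.asIdeal) :=
  ⟨by simpa using mem_under h 2, by simpa using mem_under h 3⟩

theorem fxd [IsCMField L] {𝔓 : Idl L} {w : HeightOneSpectrum (𝓞 L)} (h : 𝔓.under _ = w.asIdeal) :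
    Nonsplit 𝔓 ↔ Fxd w := by rw [Nonsplit, h, Fxd]

theorem exw {𝔓 : Idl L} (h : 𝔓.IsMaximal) : ∃ w : HeightOneSpectrum (𝓞 L),
    𝔓.under _ = w.asIdeal := by
  obtain ⟨w, hw⟩ := (SP.facts L (AlgebraicClosure L)).pr.under L 𝔓 h
  exact ⟨w, Ideal.ext fun x => (hw.2 x).symm⟩

theorem setT {W : WeierstrassCurve ℤ} (hΔ : W.Δ ≠ 0) {t : Gal L → M2 ℤ_[2]} (ht : Tate W t) :
    ∃ e : Z2 →+ ℕ → (cv W (AlgebraicClosure L)).Point, TS e ∧
      (∀ g : Gal L, Mt e (gm W (g : _ →+* _)) (t g)) ∧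
      ∀ Q : HeightOneSpectrum (𝓞 L) → Idl L, (∀ w, (Q w).IsMaximal ∧ (Q w).under _ = w.asIdeal) →
        {w | ∃ g ∈ Ine (Q w), t g ≠ 1}.Finite := by
  obtain ⟨e, e1, e2, e3⟩ := ht
  have he : TS e := ts_of e1 e2
  have ht : ∀ g : Gal L, Mt e (gm W (g : _ →+* _)) (t g) := fun g x n => by
    rw [e3]
    cases e x n <;> rfl
  refine ⟨e, he, ht, fun Q hQ => (Ideal.finite_factors (I := Ideal.span {((2 * W.Δ : ℤ) : 𝓞 L)})
    (by simpa using hΔ)).subset fun w ⟨g, g1, g2⟩ => ?_⟩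
  rw [Set.mem_ofPred, Ideal.dvd_span_singleton, ← mem_under (hQ w).2, Int.cast_mul,
    (hQ w).1.isPrime.mul_mem_iff_mem_or_mem]
  by_contra! H
  exact g2 ((l1' L W e he.toTW _ (hQ w).1 (by simpa using H.1) H.2 _ 1 _ one_pos (L2.fb g1)
    (ht g)).1 rfl)

omit [NumberField L] in
theorem map_cyc (f : E →ₐ[ℚ_[2]] E') (g : Gal L) : f (cyc E g) = cyc E' g := f.commutes _

omit [NumberField L] in
theorem Ch.map {κ : Gal L →* E} {cj : Gal L → Gal L} {w : ℤ} (h : Ch κ cj w)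
    {f : E →ₐ[ℚ_[2]] E'} (hf : ∀ x, ‖f x‖ = ‖x‖) : Ch ((f : E →* E').comp κ) cj w where
  ct := (AddMonoidHomClass.continuous_of_bound f 1 fun x => by simp [hf]).comp h.ct
  one g := by simpa [← hf] using h.one g
  dual g := by simpa [map_cyc] using congrArg f (h.dual g)

omit [NumberField L] in
theorem LA.map {κ : Gal L →* E} {𝔓 : Idl L} {a : ℤ} (h : LA κ 𝔓 a) (f : E →ₐ[ℚ_[2]] E') :
    LA ((f : E →* E').comp κ) 𝔓 a := by
  obtain ⟨M, m, h⟩ := h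
  exact ⟨M, m, fun g hg => by simpa [map_cyc] using congrArg f (h g hg)⟩

omit [NumberField L] in
theorem cyc_sub (g : Gal L) : ‖cyc E g - 1‖ < 1 := by
  rw [cyc, ← map_one (algebraMap ℚ_[2] E), ← map_sub, norm_algebraMap']
  generalize cyclotomicCharacter (AlgebraicClosure L) 2 g.toRingEquiv = u
  have : PadicInt.toZMod ((u : ℤ_[2]) - 1) = 0 := by
    have := u.isUnit.map (PadicInt.toZMod (p := 2))
    rw [map_sub, map_one]
    generalize PadicInt.toZMod (u : ℤ_[2]) = c at this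
    revert c
    decide
  exact PadicInt.mem_nonunits.1 ((PadicInt.ker_toZMod (p := 2)).le this)

omit [NumberField L] in
theorem cyc_cj {cj : Gal L → Gal L} (hcj : IsCj cj) (g : Gal L) : cyc E (cj g) = cyc E g := by
  obtain ⟨j, c, hc, e⟩ := hcj
  exact CjwA.cyc_conj c fun x => by
    rw [e]
    exact j.injective (by rw [hc, hc, Complex.conj_conj])

theorem Ch.tw {κ : Gal L →* E} {cj : Gal L → Gal L} {w : ℤ} (h : Ch κ cj w) (hcj : IsCj cj)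
    (k : ℤ) : Ch (tw κ k) cj (w - 2 * k) where
  ct := tw_cont h.ct k
  one g := by
    obtain ⟨B, hB⟩ := Th.ball (E := E) one_pos le_rfl
    have := (hB _).1 (div_mem ((hB (κ.toHomUnits g)).2 (h.one g))
      (zpow_mem ((hB (Units.mk0 _ (cyc_ne g))).2 (cyc_sub g)) k))
    simpa [tw_apply] using this
  dual g := by
    rw [tw_apply, tw_apply, cyc_cj hcj, div_mul_div_comm, h.dual, zpow_sub₀ (cyc_ne g), two_mul,
      zpow_add₀ (cyc_ne g)]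

end Pool.Agent.SY
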