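import Pool.Agent.Lib.MP_b4b3cb_nt.SY.St4
import Pool.Agent.Lib.MP_b4b3cb_nt.SY.Den

/-! The descent to a quadratic character. -/

namespace Pool.Agent.SY

open NumberField IsDedekindDomain Pool.Agent.SelTwo
open scoped Classical Pointwise Topology

namespace AnA

theorem md2 {a b : ℤ_[2]} : a.toZMod = b.toZMod ↔ ‖(a : ℚ_[2]) - b‖ < 1 := by
  rw [← sub_eq_zero, ← map_sub, ← RingHom.mem_ker, PadicInt.ker_toZMod,
    IsLocalRing.mem_maximalIdeal, PadicInt.mem_nonunits]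
  rfl

theorem half (c : ℤ_[2]) : ‖SC.hf c.toZMod - (c : ℚ_[2]) / 2‖ ≤ 1 := by
  have a := (md2 (a := (c.toZMod.val : ℕ)) (b := c)).1
    (by rw [map_natCast, ZMod.natCast_zmod_val])
  rw [PadicInt.coe_natCast] at a
  have b := (Padic.norm_le_pow_iff_norm_lt_pow_add_one _ (-1)).2 (a.trans_eq (by simp))
  rw [SC.hf, ← sub_div, norm_div, div_le_one (norm_pos_iff.2 two_ne_zero)]
  exact b.trans_eq ((zpow_neg_one _).trans Padic.norm_p.symm)

theorem lift {t : ℚ_[2]} (h : ‖t - 1‖ < 1) : ∃ a : ℤ_[2], a.toZMod = 1 ∧ (a : ℚ_[2]) = t :=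
  ⟨⟨t, by simpa using (IsUltrametricDist.norm_add_le_max (t - 1) 1).trans (by simp [h.le])⟩,
    (md2.2 h).trans (map_one _), rfl⟩

variable {L : Type} [Field L] [NumberField L]

theorem spl {D : Subgroup (Gal L)} (hD : IsClosed (D : Set (Gal L)))
    {ε : Gal L → Gal L → ZMod 2} {f : Gal L → ℚ_[2]} (hf : Continuous f)
    (h : ∀ g ∈ D, ∀ h ∈ D, ∃ c : ℤ_[2], ε g h = c.toZMod ∧
      (c : ℚ_[2]) = f g + cyc ℚ_[2] g * f h - f (g * h)) : SC.Sz D ε := by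
  obtain ⟨-, e, eadd, ene, eone, ehf, eact⟩ := SC.st_Cyc (K := L) (Ω := AlgebraicClosure L)
  have econ : ∀ {s t}, ‖s - t‖ ≤ 1 → e s = e t := fun {s t} h => by
    rw [← add_sub_cancel t s, eadd, eone _ h, mul_one]
  refine ((SP.facts L _).br.sz hD).1 ⟨fun g => e (f g / 2), fun g _ => ?_, fun _ _ => ene _,
    fun g hg k hk => ?_⟩
  · exact (((hf.div_const 2).continuousWithinAt.eventually
      (Metric.closedBall_mem_nhds _ one_pos))).mono fun x hx =>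
      econ (by simpa only [dist_eq_norm] using hx)
  · obtain ⟨c, c1, c2⟩ := h g hg k hk
    rw [SC.sgc, c1, ← ehf, econ (half c), eact, ← eadd, ← eadd, c2]
    congr 1
    change _ = _ + cyc ℚ_[2] g * _
    ring

theorem unr {𝔓 : Idl L} (hm : 𝔓.IsMaximal) (u : Gal L →* ℚ_[2]) (uc : Continuous u)
    (u1 : ∀ g, ‖u g - 1‖ < 1) (ui : ∀ g ∈ Ine 𝔓, u g = 1) (ud : ∃ g ∈ Dec 𝔓, u g ≠ 1)
    {z : Gal L → ZMod 2} (hz : SC.Hom (Dec 𝔓) z) (zi : ∀ g ∈ Ine 𝔓, z g = 0) :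
    ∃ t : ℚ_[2], ∀ h ∈ Dec 𝔓, ∃ w : ℤ_[2], z h = w.toZMod ∧ (w : ℚ_[2]) = t * (u h - 1) := by
  have T := SP.facts L (AlgebraicClosure L)
  obtain ⟨n1, ⟨σ, hσ⟩, d, H⟩ := den L 𝔓 hm
  obtain ⟨H1, -, H3⟩ := H σ hσ
  have hd := d σ _ (by omega) hσ
  have v0 : u σ - 1 ≠ 0 := fun e => ud.elim fun g hg =>
    hg.2 (H3 _ u uc ui (sub_eq_zero.1 e) g hg.1)
  have z1 : z 1 = 0 := zi 1 (one_mem _)
  have zs : ∀ s : ℕ, z (σ ^ s) = s * z σ := fun s => by
    induction s with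
    | zero => simpa using z1
    | succ s ih => rw [pow_succ, hz.2 _ (pow_mem hd s) _ hd, ih, Nat.cast_succ, add_one_mul]
  have e1 : ∀ᶠ k in 𝓝 (1 : Gal L), k ∈ Dec 𝔓 → z k = 0 := eventually_nhdsWithin_iff.1
    ((hz.1 1 (one_mem _)).eventually (p := (· = 0)) (by simp [z1]))
  have e2 : ∀ᶠ k in 𝓝 (1 : Gal L), ‖(u k - 1) / (u σ - 1)‖ < 1 :=
    (((uc.sub continuous_const).div_const _).norm.tendsto 1).eventually
      (gt_mem_nhds (by simp))
  obtain ⟨U, o, -, le⟩ := T.top.nhds _ (e1.and e2)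
  obtain ⟨a, a1, a2⟩ := lift (u1 σ)
  refine ⟨(z σ).val / (u σ - 1), fun g hg => ?_⟩
  obtain ⟨s, i, k, hi, hk, kd, rfl⟩ := H1 U o g hg
  let b : ℤ_[2] := ⟨_, (le hk).2.le⟩
  have b0 : b.toZMod = 0 := (md2.2 ((congrArg norm (sub_zero _)).trans_lt (le hk).2)).trans
    (map_zero _)
  refine ⟨(z σ).val * (b * a ^ s + ∑ j ∈ Finset.range s, a ^ j), ?_, ?_⟩
  · rw [hz.2 _ (mul_mem (T.pr.le _ hi) kd) _ (pow_mem hd s), hz.2 _ (T.pr.le _ hi) _ kd, zi i hi,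
      (le hk).1 kd, zs]
    simp [a1, b0, mul_comm]
  · have := congrArg ((↑) : ℤ_[2] → ℚ_[2]) (geom_sum_mul a s)
    rw [map_mul, map_mul, map_pow, ui i hi]
    push_cast at this ⊢
    rw [a2] at this ⊢
    rw [eq_div_of_mul_eq v0 this]
    change _ * ((u k - 1) / (u σ - 1) * _ + _) = _
    field_simp
    ring

theorem cjp [IsCMField L] {cj : Gal L → Gal L} (h : IsCj cj) :
    (∀ g h, cj (g * h) = cj g * cj h) ∧ (∀ g, cj (cj g) = g) ∧ ∀ 𝔓 : Idl L, 𝔓.IsMaximal →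
    ∃ 𝔔 : Idl L, 𝔔.IsMaximal ∧ (2 ∈ 𝔓 → 2 ∈ 𝔔) ∧
      (𝔔.under (𝓞 L)).map (IsCMField.ringOfIntegersComplexConj L) = 𝔓.under (𝓞 L) ∧
      (∀ g ∈ Ine 𝔓, cj g ∈ Ine 𝔔) ∧ ∀ g ∈ Dec 𝔔, cj g ∈ Dec 𝔓 := by
  obtain ⟨j, c, hc, hcj⟩ := h
  have T := SP.facts L (AlgebraicClosure L)
  have cc : ∀ x, c (c x) = x := fun x => j.injective (by rw [hc, hc, Complex.conj_conj])
  have cL : ∀ x : L, c (algebraMap L _ x) = algebraMap L _ (IsCMField.complexConj L x) :=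
    fun x => j.injective ((hc _).trans
      (IsCMField.complexEmbedding_complexConj L (j.comp (algebraMap L _)) x).symm)
  refine ⟨fun g h => AlgEquiv.ext fun x => by simp only [AlgEquiv.mul_apply, hcj, cc],
    fun g => AlgEquiv.ext fun x => by simp only [hcj, cc], fun 𝔓 hm => ?_⟩
  let c' := RingOfIntegers.mapRingEquiv c
  have k : ∀ x, c' (c' x) = x := fun x => RingOfIntegers.ext (cc x)
  have k1 : ∀ (g : Gal L) x, cj g • x = c' (g • c' x) := fun g x => RingOfIntegers.ext (hcj g x)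
  refine ⟨𝔓.comap c', Ideal.comap_isMaximal_of_equiv c', fun e => ?_, ?_, fun g hg x => ?_,
    fun g hg => (T.pr.mem_dec _ _).2 fun x => ?_⟩
  · rwa [Ideal.mem_comap, map_ofNat]
  · rw [← Ideal.map_comap_of_surjective (IsCMField.ringOfIntegersComplexConj L)
      (AlgEquiv.surjective _) (𝔓.under (𝓞 L))]
    congr 1
    exact Ideal.ext fun x => iff_of_eq (congrArg (· ∈ 𝔓) (RingOfIntegers.ext (cL x)))
  · change c' _ ∈ 𝔓
    rw [map_sub, k1, k]
    exact hg _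
  · rw [k1]
    exact ((T.pr.mem_dec _ _).1 hg (c' x)).trans (iff_of_eq (congrArg (· ∈ 𝔓) (k x)))

end AnA

open AnA in
theorem anA : AnASt := by
  intro L _ _ _ ν cj hcj hν p r h2 hp H x xc xm hx
  have T := SP.facts L (AlgebraicClosure L)
  obtain ⟨cm, cc, cp⟩ := cjp hcj
  obtain ⟨P, hP⟩ := T.pr.ex L r
  have eP : P.under (𝓞 L) = r.asIdeal := Ideal.ext fun x => (hP.2 x).symm
  have k2 : ∀ 𝔓 : Idl L, 𝔓.under (𝓞 L) = p.asIdeal → 2 ∈ 𝔓 := fun 𝔓 e => by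
    rwa [← e, Ideal.under_def, Ideal.mem_comap, map_ofNat] at h2
  obtain ⟨u, hu⟩ := hx P hP.1 fun e => ((H P hP.1).2.1 eP).1 (k2 P e)
  refine or_iff_not_imp_left.2 fun h0 => ?_
  have c0 : Continuous fun g => x g - (ν g * u - u) :=
    xc.sub ((hν.ct.mul continuous_const).sub continuous_const)
  obtain ⟨g0, -, hg0⟩ := isCompact_univ.exists_isMaxOn Set.univ_nonempty c0.norm.continuousOn
  have a0 : x g0 - (ν g0 * u - u) ≠ 0 := fun e => h0 ⟨u, fun g => sub_eq_zero.1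
    (norm_le_zero_iff.1 ((hg0 (Set.mem_univ g)).trans_eq (norm_eq_zero.2 e)))⟩
  obtain ⟨X, hX⟩ : ∃ X : Gal L → ℤ_[2], ∀ g, (X g : ℚ_[2]) =
      (x g - (ν g * u - u)) / (x g0 - (ν g0 * u - u)) :=
    ⟨fun g => ⟨_, by
      rw [norm_div]
      exact div_le_one_of_le₀ (hg0 (Set.mem_univ g)) (norm_nonneg _)⟩, fun _ => rfl⟩
  have Xc : Continuous fun g => (X g : ℚ_[2]) := funext hX ▸ c0.div_const _
  have Xm : ∀ g h, (X (g * h) : ℚ_[2]) = X g + ν g * X h := fun g h => by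
    rw [hX, hX, hX, xm, map_mul]
    ring
  have X0 : ∀ g, x g = ν g * u - u → (X g).toZMod = 0 := fun g e =>
    (md2.2 (by simp [hX, e])).trans (map_zero _)
  have ym : ∀ g h, (X (g * h)).toZMod = (X g).toZMod + (X h).toZMod := fun g h => by
    obtain ⟨a, a1, a2⟩ := lift (hν.one g)
    rw [show X (g * h) = X g + a * X h from Subtype.ext (by rw [Xm, ← a2]; rfl), map_add, map_mul,
      a1, one_mul]
  have n0 : ∀ g, ν g ≠ 0 := fun g e => by simpa [e] using hν.one g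
  refine ⟨fun g => (X g).toZMod, ⟨⟨Continuous.continuousOn (IsLocallyConstant.continuous
    ((IsLocallyConstant.iff_eventually_eq _).2 fun g => ?_)), fun g _ h _ => ym g h⟩,
    fun 𝔓 hm => ⟨fun e g hg => ?_, fun e z hz zi => ?_⟩⟩, fun e => ?_⟩
  · exact (Xc.continuousAt.eventually (Metric.ball_mem_nhds _ one_pos)).mono fun h hh =>
      md2.2 (by simpa only [dist_eq_norm] using hh)
  · by_cases e' : 𝔓.under (𝓞 L) = r.asIdeal
    · have := hm.isPrime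
      have := hP.1.isPrime
      obtain ⟨σ, rfl⟩ := SC.PrimeAux.trans' (F := L) P 𝔓 (eP.trans e'.symm)
      have a := ym σ (σ⁻¹ * g * σ)
      rw [X0 _ (hu _ ((T.pr.ine_conj P σ g).1 hg)), ← mul_assoc, mul_inv_cancel_left, ym,
        add_zero] at a
      exact add_eq_right.1 a
    · obtain ⟨u', hu'⟩ := hx 𝔓 hm e
      refine X0 g ?_
      rw [hu' g hg, (H 𝔓 hm).2.2 e e' g hg, one_mul, one_mul, sub_self, sub_self]
  · obtain ⟨𝔔, qm, q2, qu, qi, qd⟩ := cp 𝔓 hm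
    have du : ∀ g, ν g * ν (cj g) = cyc ℚ_[2] g := fun g => (hν.dual g).trans (zpow_one _)
    let w : Gal L →* ℚ_[2] := ⟨⟨fun g => ν (cj g), mul_left_cancel₀ (n0 (cj 1)) (by
      rw [← map_mul, ← cm, mul_one, mul_one])⟩, fun g h => by simp only [cm, map_mul]⟩
    have wc : Continuous w := by
      rw [show (w : Gal L → ℚ_[2]) = fun g => cyc ℚ_[2] g / ν g from
        funext fun g => eq_div_of_mul_eq (n0 g) ((mul_comm _ _).trans (du g))]
      exact ((continuous_subtype_val (p := fun x : ℚ_[2] => ‖x‖ ≤ 1)).comp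
        ((Units.continuous_val (M := ℤ_[2])).comp SC.st_Cyc.1)).div hν.ct n0
    obtain ⟨t, ht⟩ := unr hm w wc (fun g => hν.one _) (fun g hg => (H 𝔔 qm).2.2
      (fun a => hp (by rw [Fxd, ← a, qu, e, a])) (fun a => ((H 𝔔 qm).2.1 a).1 (q2 (k2 _ e)))
      _ (qi g hg)) ((H 𝔔 qm).1.elim fun g hg => ⟨cj g, qd g hg.1, fun a => hg.2 (cc g ▸ a)⟩) hz zi
    refine spl (T.pr.closed 𝔓) (f := fun g => -t * X g * w g)
      ((continuous_const.mul Xc).mul wc) fun g _ h hh => ?_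
    obtain ⟨a, a1, a2⟩ := lift (hν.one (cj g))
    obtain ⟨b, b1, b2⟩ := ht h hh
    refine ⟨X g * a * b, by rw [map_mul, map_mul, a1, mul_one, ← b1]; rfl, ?_⟩
    rw [Xm, map_mul, ← du]
    push_cast
    rw [a2, b2]
    change _ = -t * _ * ν (cj g) + _ - _ * (ν (cj g) * _)
    ring
  · have := congrFun e g0
    rw [show X g0 = 1 from Subtype.ext ((hX g0).trans (div_self a0)), map_one] at this
    exact one_ne_zero this

end Pool.Agent.SY
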