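import Pool.Agent.Lib.MP_b4b3cb_nt.SY.St4
import Pool.Agent.Lib.MP_b4b3cb_nt.SY.Den
import Pool.Agent.Lib.MP_b4b3cb_nt.SY.Cjw

/-! Quadratic characters with small ramification, when the class number is odd. -/

namespace Pool.Agent.SY

open NumberField IsDedekindDomain Pool.Agent.SelTwo Pool.Agent.HF
open scoped Classical Pointwise

namespace AnBA

theorem nsq (u : ℤ) (h : ∀ z : ZMod (2 ^ 3), z ^ 2 ≠ u) (c : ℚ_[2]) : c ^ 2 ≠ u := fun e => by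
  have h1 : ‖c‖ ≤ 1 := by
    rw [← sq_le_one_iff₀ (norm_nonneg _), ← norm_pow, e]
    exact Padic.norm_int_le_one u
  let C : ℤ_[2] := ⟨c, h1⟩
  have h2 : C ^ 2 = u := Subtype.ext (by simpa using e)
  exact h (PadicInt.toZModPow 3 C) (by rw [← map_pow, h2, map_intCast])

theorem nrm1 {t : ℚ_[2]} (h : ‖t‖ ≤ 1) : ‖t ^ 2 + t - 1‖ = 1 := by
  let T : ℤ_[2] := ⟨t, h⟩
  have h1 : ¬‖T ^ 2 + T - 1‖ < 1 := fun k => by
    rw [← PadicInt.mem_nonunits, ← IsLocalRing.mem_maximalIdeal, ← PadicInt.ker_toZMod,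
      RingHom.mem_ker, map_sub, map_add, map_pow, map_one] at k
    generalize PadicInt.toZMod T = z at k
    revert z
    decide
  exact le_antisymm (T ^ 2 + T - 1).norm_le_one (not_lt.1 h1)

theorem nrm (X Z : ℚ_[2]) : ∃ c : ℚ_[2], ‖X ^ 2 - 5 * Z ^ 2‖ = ‖c‖ ^ 2 := by
  have k : ∀ u v : ℚ_[2], ‖u‖ ≤ ‖v‖ → ‖u ^ 2 + u * v - v ^ 2‖ = ‖v‖ ^ 2 := fun u v h => by
    obtain rfl | v0 := eq_or_ne v 0
    · simp_all
    · rw [show u ^ 2 + u * v - v ^ 2 = ((u / v) ^ 2 + u / v - 1) * v ^ 2 by field_simp, norm_mul,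
        nrm1 (by rw [norm_div]; exact div_le_one_of_le₀ h (norm_nonneg _)), one_mul, norm_pow]
  rcases le_total ‖X - Z‖ ‖2 * Z‖ with h | h
  · exact ⟨_, (congrArg _ (by ring)).trans (k _ _ h)⟩
  · refine ⟨_, Eq.trans ?_ (k (-(2 * Z)) (X - Z) (by rwa [norm_neg]))⟩
    rw [← norm_neg]
    exact congrArg _ (by ring)

theorem ev {n : ℤ} {c : ℚ_[2]} (h : (2 : ℝ) ^ (-n) = ‖c‖ ^ 2) : Even n := by
  have c0 : c ≠ 0 := by
    rintro rfl
    exact (zpow_pos two_pos _).ne' (by simpa using h)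
  rw [Padic.norm_eq_zpow_neg_valuation c0, Nat.cast_ofNat, sq, ← zpow_add₀ two_ne_zero] at h
  exact ⟨c.valuation, by have := zpow_right_injective₀ (by norm_num) (by norm_num) h; omega⟩

variable {L : Type} [Field L] [NumberField L]

theorem fixD {𝔓 : Idl L} (hm : 𝔓.IsMaximal) : ∃ σ : Gal L, ∀ t, (∀ g ∈ Ine 𝔓, g t = t) → σ t = t →
    ∀ g ∈ Dec 𝔓, g t = t := by
  obtain ⟨-, ⟨σ, hσ⟩, -, h⟩ := den L 𝔓 hm
  refine ⟨σ, fun t h1 h2 g hg => ?_⟩
  obtain ⟨s, i, u, hi, hu, -, rfl⟩ := (h σ hσ).1 _ (stabilizer_isOpen_of_isIntegral (K := L) t) g hg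
  have h3 : (σ ^ s) t = t := (MulAction.stabilizer (Gal L) t).pow_mem h2 s
  rw [AlgEquiv.mul_apply, AlgEquiv.mul_apply, h3, show u t = t from hu, h1 i hi]

omit [NumberField L] in
theorem pm {a : L} {r : AlgebraicClosure L} (h : r ^ 2 = algebraMap L _ a) (g : Gal L) :
    g r = r ∨ g r = -r :=
  sq_eq_sq_iff_eq_or_eq_neg.1 (by rw [← map_pow, h, g.commutes])

theorem ine5 {𝔓 : Idl L} (hm : 𝔓.IsMaximal) (h2 : 2 ∈ 𝔓) {s : AlgebraicClosure L} (hs : s ^ 2 = 5) :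
    ∀ g ∈ Ine 𝔓, g s = s := fun g hg => by
  refine (pm (a := 5) (by rw [hs, map_ofNat]) g).resolve_right fun e => ?_
  have i : IsIntegral ℤ ((1 + s) / 2) := ⟨Polynomial.X ^ 2 - Polynomial.X - 1, by monicity!, by
    simp only [Polynomial.eval₂_sub, Polynomial.eval₂_pow, Polynomial.eval₂_X, Polynomial.eval₂_one]
    linear_combination hs / 4⟩
  let ω : 𝓞 (AlgebraicClosure L) := ⟨_, i⟩
  have h3 : (g • ω - ω) ^ 2 = 2 * 2 + 1 := RingOfIntegers.ext (by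
    change (g ((1 + s) / 2) - (1 + s) / 2) ^ 2 = 2 * 2 + 1
    rw [map_div₀, map_add, map_one, map_ofNat, e]
    linear_combination hs)
  have h4 := 𝔓.pow_mem_of_mem (hg ω) 2 two_pos
  rw [h3] at h4
  exact hm.isPrime.one_notMem ((𝔓.add_mem_iff_right (𝔓.mul_mem_left 2 h2)).1 h4)

variable [IsCMField L] (hL : Module.finrank ℚ L = 2)

include hL

theorem ns {P 𝔓 : Idl L} (hP : P.IsMaximal) (h2 : 2 ∈ P) (hn : ¬Nonsplit P) (hQ : 𝔓.IsMaximal)
    (h2' : 2 ∈ 𝔓) : ¬Nonsplit 𝔓 := fun h => hn (by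
  obtain ⟨j, rfl⟩ := (all L hL).2 P hP h2
  obtain ⟨j', rfl⟩ := (all L hL).2 𝔓 hQ h2'
  have e : (pj j').under (𝓞 L) = (pj j).under (𝓞 L) := by
    rcases AllA.two hL (j.comp (algebraMap L _)) (j'.comp (algebraMap L _)) with e | e
    · exact Ideal.ext fun x => iff_of_eq (congrArg (‖·‖ < 1) (RingHom.congr_fun e (x : L)))
    · have k : (pj j').under (𝓞 L) =
          ((pj j).under (𝓞 L)).comap (IsCMField.ringOfIntegersComplexConj L) :=
        Ideal.ext fun x => iff_of_eq (congrArg (‖·‖ < 1) (e x))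
      rw [← h, k, Ideal.map_comap_of_surjective _ (IsCMField.ringOfIntegersComplexConj L).surjective]
  rwa [Nonsplit, e] at h)

theorem loc {P : Idl L} (hP : P.IsMaximal) (h2 : 2 ∈ P) (hn : ¬Nonsplit P)
    {w : HeightOneSpectrum (𝓞 L)} (hw : P.under _ = w.asIdeal) : ∃ i : L →+* ℚ_[2],
    (∀ x : L, x ≠ 0 → ‖i x‖ = (2 : ℝ) ^ (-Stark.og w x)) ∧ ∀ (a : L) x z, (∀ g ∈ Dec P, g x = x) →
      (∀ g ∈ Dec P, g z = z) → algebraMap L _ a = x ^ 2 - 5 * z ^ 2 →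
      ∃ X Z, i a = X ^ 2 - 5 * Z ^ 2 ∧ (z = 0 → Z = 0) := by
  obtain ⟨j, rfl⟩ := (all L hL).2 P hP h2
  have q : ∀ x, (∀ g ∈ Dec (pj j), g x = x) → ∃ c : ℚ_[2], j x = algebraMap _ _ c := fun x hx =>
    (tate ax 0 (j x) fun σ hσ => by
      obtain ⟨g, hg, e⟩ := (all L hL).1 j hn σ hσ
      rw [e, hx g hg, zpow_zero, one_mul]).1 rfl
  choose f hf using fun x : L => q (algebraMap L _ x) fun g _ => g.commutes x
  have inj := (algebraMap ℚ_[2] ℂ_[2]).injective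
  let i : L →+* ℚ_[2] :=
    { toFun := f
      map_one' := inj (by rw [← hf]; simp)
      map_mul' := fun x y => inj (by rw [map_mul, ← hf, ← hf, ← hf, map_mul, map_mul])
      map_zero' := inj (by rw [← hf]; simp)
      map_add' := fun x y => inj (by rw [map_add, ← hf, ← hf, ← hf, map_add, map_add]) }
  have n : ∀ x, ‖i x‖ = ‖j (algebraMap L _ x)‖ := fun x => by
    rw [hf, norm_algebraMap']; rfl
  have h1 : ∀ x : 𝓞 L, ‖i x‖ ≤ 1 := fun x => (n x).trans_le (Emb.le1 j (algebraMap (𝓞 L) _ x))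
  have h3 : ∀ x : 𝓞 L, x ∈ (pj j).under (𝓞 L) ↔ ‖i x‖ < 1 := fun x => by rw [n]; rfl
  refine ⟨i, CjwA.norm_og w i h1 (hw ▸ h3), fun a x z hx hz e => ?_⟩
  obtain ⟨X, hX⟩ := q x hx
  obtain ⟨Z, hZ⟩ := q z hz
  refine ⟨X, Z, inj ?_, fun z0 => inj (by rw [← hZ, z0, map_zero, map_zero])⟩
  rw [show algebraMap _ _ (i a) = _ from (hf a).symm, e]
  simp only [map_sub, map_mul, map_pow, map_ofNat, hX, hZ]

end AnBA

open AnBA

theorem anB (hC : ClsSt) : AnBSt := by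
  rintro L _ _ _ hL ho p p2 pf y ⟨hy, hq⟩
  have T := SP.facts L (AlgebraicClosure L)
  obtain ⟨a, a0, rfl⟩ := T.dict.glob y hy
  have hr := SC.rt_sq (Ω := AlgebraicClosure L) a
  generalize SC.rt (AlgebraicClosure L) a = r at hr hy hq ⊢
  obtain ⟨s, hs⟩ := IsAlgClosed.exists_pow_nat_eq (5 : AlgebraicClosure L) two_pos
  have r0 : r ≠ 0 := fun e => a0 (by simpa [e] using hr.symm)
  have s0 : s ≠ 0 := fun e => by simp [e] at hs
  have un : ∀ {𝔓 : Idl L} {w : HeightOneSpectrum (𝓞 L)}, SC.Over 𝔓 w → 𝔓.under _ = w.asIdeal :=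
    fun h => Ideal.ext fun x => (h.2 x).symm
  have tw : ∀ {𝔓 : Idl L} {w : HeightOneSpectrum (𝓞 L)}, SC.Over 𝔓 w → (2 ∈ w.asIdeal ↔ 2 ∈ 𝔓) :=
    fun h => by rw [h.2, map_ofNat]
  have fi : ∀ {𝔓 : Idl L} {w : HeightOneSpectrum (𝓞 L)}, SC.Over 𝔓 w → w.asIdeal ≠ p.asIdeal →
      ∀ g ∈ Ine 𝔓, g r = r := fun h n g hg => by_contra fun e => one_ne_zero
      ((if_neg e).symm.trans ((hq _ h.1).1 (un h ▸ n) g hg))
  obtain ⟨P, hP⟩ := T.pr.ex L p
  have nP : ¬Nonsplit P := fun e => pf (by rwa [Nonsplit, un hP] at e)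
  have k1 : ∀ w : HeightOneSpectrum (𝓞 L), 2 ∈ w.asIdeal → w.asIdeal ≠ p.asIdeal →
      ∃ i : L →+* ℚ_[2], (∀ x : L, x ≠ 0 → ‖i x‖ = (2 : ℝ) ^ (-Stark.og w x)) ∧
        ∃ c, i a = c ^ 2 ∨ 5 * i a = c ^ 2 := fun w w2 n => by
    obtain ⟨𝔓, h⟩ := T.pr.ex L w
    have h2 := (tw h).1 w2
    obtain ⟨i, i1, i2⟩ := loc hL h.1 h2 (ns hL hP.1 ((tw hP).1 p2) nP h.1 h2) (un h)
    have i3 : ∀ b t, (∀ g ∈ Dec 𝔓, g t = t) → t ^ 2 = algebraMap L _ b → ∃ c, i b = c ^ 2 :=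
      fun b t h1 h3 => by
        obtain ⟨X, Z, e, z⟩ := i2 b t 0 h1 (fun g _ => map_zero g) (by rw [h3]; ring)
        exact ⟨X, by rw [e, z rfl]; ring⟩
    obtain ⟨σ, hσ⟩ := fixD h.1
    refine ⟨i, i1, ?_⟩
    rcases pm hr σ with e | e
    · exact (i3 a r (hσ r (fi h n) e) hr).imp fun c => Or.inl
    rcases pm (a := 5) (by rw [hs, map_ofNat]) σ with e' | e'
    · obtain ⟨c, hc⟩ := i3 5 s (hσ s (ine5 h.1 h2 hs) e') (by rw [hs, map_ofNat])
      exact (nsq 5 (by decide) c (by rw [← hc, map_ofNat]; norm_num)).elim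
    · refine (i3 (5 * a) (s * r) (hσ _ (fun g hg => ?_) ?_) ?_).imp fun c hc => Or.inr ?_
      · rw [map_mul, ine5 h.1 h2 hs g hg, fi h n g hg]
      · rw [map_mul, e, e', neg_mul_neg]
      · rw [mul_pow, hs, hr, map_mul, map_ofNat]
      · rwa [map_mul, map_ofNat] at hc
  obtain ⟨i, i1, i2⟩ := loc hL hP.1 ((tw hP).1 p2) nP (un hP)
  have f5 : ∀ H : Subgroup (Gal L), SC.Fix H (s ^ 2) := fun H g _ => by rw [hs, map_ofNat]
  have fa : ∀ H : Subgroup (Gal L), SC.Fix H (r ^ 2) := fun H g _ => by rw [hr, g.commutes]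
  obtain ⟨b, hb | hb⟩ := hC L hL ho i a a0 fun w => by
    by_cases w2 : 2 ∈ w.asIdeal
    · by_cases n : w.asIdeal = p.asIdeal
      · obtain rfl := HeightOneSpectrum.ext n
        obtain ⟨x, z, hx, hz, e⟩ := (SC.st_Norm SC.st_Sz T.top T.kum T.br _ s r (T.pr.closed P) s0 r0
          (f5 _) (fa _)).1 (SC.st_Sz.swap (T.kum.hom r0 (fa _)) (T.kum.hom s0 (f5 _))
          ((hq P hP.1).2 (un hP) _ (T.kum.hom s0 (f5 _)) fun g hg =>
            if_pos (ine5 hP.1 ((tw hP).1 p2) hs g hg)))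
        obtain ⟨X, Z, e', -⟩ := i2 a x z hx hz (by rw [← hr, e, hs])
        obtain ⟨c, hc⟩ := nrm X Z
        exact ev (c := c) (by rw [← i1 a a0, e', hc])
      · obtain ⟨i', j1, c, e | e⟩ := k1 w w2 n
        · exact ev (c := c) (by rw [← j1 a a0, e, norm_pow])
        · refine ev (c := c) ?_
          rw [← j1 a a0, ← norm_pow, ← e, norm_mul, show (5 : ℚ_[2]) = 2 ^ 2 + 2 - 1 by norm_num,
            nrm1 (by simpa using Padic.norm_int_le_one (p := 2) 2), one_mul]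
    · obtain ⟨𝔓, h⟩ := T.pr.ex L w
      exact (T.ine.ine h ((T.pr.two h).1 fun e => w2 ((tw h).2 e)) a0 hr).2 fun g hg =>
        fi h (fun e => w2 (e ▸ p2)) g hg.1
  · refine funext fun g => if_pos ?_
    rw [hb, map_pow] at hr
    rcases sq_eq_sq_iff_eq_or_eq_neg.1 hr with e | e <;> simp [e]
  · let c := IsCMField.ringOfIntegersComplexConj L
    obtain ⟨i', -, c, e⟩ := k1 ⟨p.asIdeal.map c, Ideal.map_isPrime_of_equiv c, fun e =>
      p.ne_bot ((Ideal.map_eq_bot_iff_of_injective c.injective).1 e)⟩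
      (map_ofNat c 2 ▸ Ideal.mem_map_of_mem c p2) pf
    have b0 : i' b ≠ 0 := (map_ne_zero _).2 fun e => a0 (by simp [hb, e])
    rw [hb, map_neg, map_pow] at e
    rcases e with e | e
    · exact (nsq (-1) (by decide) (c / i' b) (by rw [div_pow, ← e]; field_simp; norm_num)).elim
    · exact (nsq (-5) (by decide) (c / i' b) (by rw [div_pow, ← e]; field_simp; norm_num)).elim

end Pool.Agent.SY
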