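import Pool.Agent.Lib.MP_b4b3cb_nt.SY.St4
import Pool.Agent.Lib.MP_ca56d1_nt.Compl

/-! Elements with square ideal when the class number is odd. -/

namespace Pool.Agent.SY

open NumberField Pool.Agent.Stark

namespace Cls

theorem root (n : ℕ) : n ≠ 0 → ∀ z : ℤ_[2], z ^ n = 1 → z ^ 2 = 1 := by
  induction n using Nat.strong_induction_on with
  | _ n ih =>
  intro n0 z h
  rcases Nat.even_or_odd' n with ⟨m, rfl | rfl⟩
  · rcases sq_eq_one_iff.1 (ih m (by omega) (by omega) (z ^ 2)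
      (by rw [← pow_mul, h])) with e | e
    · exact e
    · have := congrArg (PadicInt.toZModPow 2) e
      rw [map_pow, map_neg, map_one] at this
      exact absurd this ((by decide : ∀ x : ZMod (2 ^ 2), x ^ 2 ≠ -1) _)
  · have a := congrArg PadicInt.toZMod h
    rw [map_pow, map_one] at a
    have b : PadicInt.toZMod z = 1 :=
      (by decide : ∀ x : ZMod 2, x ≠ 0 → x = 1) _ fun e => by simp [e] at a
    have c := geom_sum_mul z (2 * m + 1)
    rw [h, sub_self] at c
    rcases mul_eq_zero.1 c with e | e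
    · have := congrArg PadicInt.toZMod e
      simp only [map_sum, map_pow, b, one_pow, Finset.sum_const, Finset.card_range, nsmul_eq_mul,
        mul_one, map_zero] at this
      exact absurd (ZMod.natCast_eq_zero_iff_even.1 this) (by simp)
    · rw [sub_eq_zero.1 e, one_pow]

theorem unit {L : Type} [Field L] [NumberField L] [IsCMField L] (h2 : Module.finrank ℚ L = 2)
    (j : L →+* ℚ_[2]) {x : L} (h : IsU x) : x = 1 ∨ x = -1 := by
  obtain ⟨u, rfl⟩ := isU_iff.1 h
  have h1 : Fintype.card (InfinitePlace L) = 1 := by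
    have := IsTotallyComplex.finrank L
    rw [InfinitePlace.card_eq_nrRealPlaces_add_nrComplexPlaces,
      IsTotallyComplex.nrRealPlaces_eq_zero]
    omega
  have : IsEmpty (Fin (Units.rank L)) := by
    rw [Units.rank, h1]
    exact Fin.isEmpty
  obtain ⟨⟨ζ, e⟩, k, -⟩ := Units.exist_unique_eq_mul_prod L u
  obtain ⟨n, n0, hn⟩ := isOfFinOrder_iff_pow_eq_one.1 ((CommGroup.mem_torsion _).1 ζ.2)
  have a : j ((u : 𝓞 L) : L) ^ n = 1 := by
    rw [show u = ζ by simpa using k, ← map_pow]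
    simpa using congrArg (fun v : (𝓞 L)ˣ => j ((v : 𝓞 L) : L)) hn
  have b : ‖j ((u : 𝓞 L) : L)‖ = 1 := (pow_eq_one_iff_of_nonneg (norm_nonneg _) n0.ne').1
    (by rw [← norm_pow, a, norm_one])
  obtain ⟨z, hz⟩ : ∃ z : ℤ_[2], (z : ℚ_[2]) = j ((u : 𝓞 L) : L) := ⟨⟨_, b.le⟩, rfl⟩
  have c := congrArg ((↑) : ℤ_[2] → ℚ_[2]) (root n n0.ne' z
    (Subtype.ext (by rw [PadicInt.coe_pow, hz, a, PadicInt.coe_one])))
  exact sq_eq_one_iff.1 (j.injective (by simpa [hz] using c))

end Cls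

theorem cls : ClsSt := by
  intro L _ _ _ h2 ⟨k, hk⟩ j a a0 ev
  obtain ⟨x, x0, hx⟩ := mem_prin.1 ((prin L).nsmul_index_mem (hD a))
  rw [index_prin, hk] at hx
  have p0 : a ^ k ≠ 0 := pow_ne_zero _ a0
  have b0 : (x / a ^ k) ^ 2 ≠ 0 := pow_ne_zero _ (div_ne_zero x0 p0)
  have := Cls.unit h2 j (x := a / (x / a ^ k) ^ 2) ⟨div_ne_zero a0 b0, fun q => by
    have e : og q x = (2 * k + 1 : ℕ) * (og q a / 2) := by
      simpa using congrArg (fun D : Dv L => D q) hx
    obtain ⟨r, hr⟩ := ev q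
    rw [hr, show (r + r) / 2 = r by omega] at e
    rw [og] at *
    rw [ord_div a0 b0, ord_pow, ord_div x0 p0, ord_pow, e, hr]
    push_cast
    ring⟩
  exact ⟨x / a ^ k, this.imp (div_eq_one_iff_eq b0).1 fun e =>
    ((div_eq_iff b0).1 e).trans (neg_one_mul _)⟩

end Pool.Agent.SY
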