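import Pool.Agent.Lib.MP_b4b3cb_nt.SY.Ts

/-! The polarisation of the odd symmetric powers. -/

namespace Pool.Agent.SY

open Matrix Pool.Agent.SelTwo Pool.Agent.SymTwo

namespace Pol

variable {E : Type} [NontriviallyNormedField E] [NormedAlgebra ℚ_[2] E]

theorem norm_nat (n : ℕ) : ‖(n : E)‖ = ‖(n : ℚ_[2])‖ := by
  rw [← map_natCast (algebraMap ℚ_[2] E), norm_algebraMap']

theorem norm_two : ‖(2 : E)‖ < 1 := by
  have := norm_nat (E := E) 2
  rw [Nat.cast_ofNat] at this
  rw [this]
  exact Padic.norm_p_lt_one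

theorem ex_d (s : E) (hs : s ^ 2 = 2) (n : ℕ) (hn : n ≠ 0) : ∃ d : E, ‖d‖ ^ 2 = ‖(n : E)‖ := by
  obtain ⟨v, u, hu, rfl⟩ := Nat.exists_eq_two_pow_mul_odd hn
  refine ⟨s ^ v, ?_⟩
  have : ‖(u : E)‖ = 1 := by
    rw [norm_nat, Padic.norm_natCast_eq_one_iff]
    exact Nat.coprime_two_left.2 hu
  push_cast
  rw [norm_mul, this, mul_one, ← hs, ← norm_pow, ← pow_mul, ← pow_mul, mul_comm]

/-- The embedding of the integers. -/
noncomputable def io (E : Type) [NontriviallyNormedField E] [NormedAlgebra ℚ_[2] E] :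
    ℤ_[2] →+* E := (algebraMap ℚ_[2] E).comp PadicInt.Coe.ringHom

theorem norm_io (x : ℤ_[2]) : ‖io E x‖ = ‖x‖ := norm_algebraMap' E (x : ℚ_[2])

variable {m : ℕ} (d : Fin (m + 1) → E)

/-- The symmetric power in the rescaled basis. -/
noncomputable def N (A : M2 ℤ_[2]) : Matrix (Fin (m + 1)) (Fin (m + 1)) E :=
  diagonal (fun i => (d i)⁻¹) * sym m (A.map (io E)) * diagonal d

/-- The form in the rescaled basis. -/
noncomputable def J : Matrix (Fin (m + 1)) (Fin (m + 1)) E := diagonal d * Jm E m * diagonal d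

/-- The entries of the form. -/
noncomputable def w (i : Fin (m + 1)) : E := d i * ((-1) ^ (i : ℕ) / (m.choose i : E)) * d i.rev

omit [NormedAlgebra ℚ_[2] E] in
theorem J_eq : J d = (diagonal (w d)).submatrix id Fin.revPerm := by
  ext i j
  rw [J, mul_diagonal, diagonal_mul, Jm, submatrix_apply, diagonal_apply, Fin.revPerm_apply]
  have : (i : ℕ) + j = m ↔ id i = j.rev := by
    rw [id, Fin.ext_iff, Fin.val_rev]
    omega
  by_cases h : (i : ℕ) + j = m
  · rw [if_pos h, if_pos (this.1 h), w, id, show i.rev = j by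
      rw [show i = j.rev from this.1 h, Fin.rev_rev]]
  · rw [if_neg h, if_neg (mt this.2 h), mul_zero, zero_mul]

omit [NormedAlgebra ℚ_[2] E] in
theorem J_mul (Y : Matrix (Fin (m + 1)) (Fin (m + 1)) E) (j l : Fin (m + 1)) :
    (J d * Y) j l = w d j * Y j.rev l := by
  rw [J_eq, mul_apply, Finset.sum_eq_single j.rev]
  · simp
  · intro b _ hb
    rw [submatrix_apply, diagonal_apply_ne, zero_mul]
    rintro h
    exact hb (by rw [show j = b.rev from h, Fin.rev_rev])
  · simp

omit [NormedAlgebra ℚ_[2] E] in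
theorem mul_J (X : Matrix (Fin (m + 1)) (Fin (m + 1)) E) (i j : Fin (m + 1)) :
    (Xᵀ * J d) j i.rev = X i j * w d i := by
  rw [J_eq, mul_apply, Finset.sum_eq_single i]
  · simp
  · intro b _ hb
    rw [submatrix_apply, diagonal_apply_ne, mul_zero]
    simpa using hb
  · simp

omit [NormedAlgebra ℚ_[2] E] in
theorem J_tr (hm : Odd m) : (J d)ᵀ = -J d := by
  have : (Jm E m)ᵀ = -Jm E m := by
    ext i j
    simp only [transpose_apply, Matrix.neg_apply, Jm, add_comm (j : ℕ)]
    split_ifs with h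
    · rw [Nat.choose_symm_of_eq_add (show m = j + i by omega), ← neg_div]
      congr 1
      have e : (-1 : E) ^ (i : ℕ) * (-1) ^ (j : ℕ) = -1 := by rw [← pow_add, h, hm.neg_one_pow]
      have e2 : (-1 : E) ^ (i : ℕ) * (-1) ^ (i : ℕ) = 1 := by rw [← mul_pow]; simp
      linear_combination (-1 : E) ^ (i : ℕ) * e - (-1 : E) ^ (j : ℕ) * e2
    · exact neg_zero.symm
  rw [J, transpose_mul, transpose_mul, diagonal_transpose, this, ← Matrix.mul_assoc,
    Matrix.mul_neg, Matrix.neg_mul]

variable {d} (hd : ∀ i : Fin (m + 1), ‖d i‖ ^ 2 = ‖(m.choose i : E)‖)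
include hd

theorem d_ne (i : Fin (m + 1)) : d i ≠ 0 := fun h => by
  have := hd i
  rw [h, norm_zero, norm_nat, zero_pow two_ne_zero, eq_comm, norm_eq_zero, Nat.cast_eq_zero] at this
  exact (Nat.choose_pos (Nat.lt_succ_iff.1 i.2)).ne' this

omit [NormedAlgebra ℚ_[2] E] in
theorem d_rev (i : Fin (m + 1)) : ‖d i.rev‖ = ‖d i‖ := by
  refine (pow_left_inj₀ (norm_nonneg _) (norm_nonneg _) two_ne_zero).1 ?_
  rw [hd, hd, Nat.choose_symm_of_eq_add (show m = i.rev + i by rw [Fin.val_rev]; omega)]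

theorem norm_w (i : Fin (m + 1)) : ‖w d i‖ = 1 := by
  have := norm_pos_iff.2 (d_ne hd i)
  rw [w, norm_mul, norm_mul, norm_div, d_rev hd, ← hd, norm_pow, norm_neg, norm_one, one_pow]
  field_simp

theorem dd : diagonal d * diagonal (fun i => (d i)⁻¹) = 1 := by
  rw [diagonal_mul_diagonal, ← diagonal_one]
  exact congrArg _ (funext fun i => mul_inv_cancel₀ (d_ne hd i))

theorem dd' : diagonal (fun i => (d i)⁻¹) * diagonal d = 1 := mul_eq_one_comm.1 (dd hd)

theorem N_mul (hS : SymSt) (A B : M2 ℤ_[2]) : N d (A * B) = N d A * N d B := by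
  simp only [N, Matrix.map_mul, hS.mul, Matrix.mul_assoc]
  rw [← Matrix.mul_assoc (diagonal d), dd hd, Matrix.one_mul]

theorem N_one (hS : SymSt) : N d 1 = 1 := by
  rw [N, Matrix.map_one _ (map_zero _) (map_one _), hS.one, Matrix.mul_one, dd' hd]

theorem N_dual (hD : DualSt) (A : M2 ℤ_[2]) :
    (N d A)ᵀ * J d * N d A = io E A.det ^ m • J d := by
  haveI : CharZero E := charZero_of_injective_algebraMap (algebraMap ℚ_[2] E).injective
  have := hD E m (A.map (io E))
  rw [← RingHom.mapMatrix_apply, ← RingHom.map_det, RingHom.mapMatrix_apply] at this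
  simp only [N, J, transpose_mul, diagonal_transpose, Matrix.mul_assoc] at this ⊢
  rw [← Matrix.mul_assoc (diagonal fun i => (d i)⁻¹), dd' hd, Matrix.one_mul,
    ← Matrix.mul_assoc (diagonal d) (diagonal _), dd hd, Matrix.one_mul,
    ← Matrix.mul_assoc (Jm E m), ← Matrix.mul_assoc _ (Jm E m * _), this, Matrix.smul_mul,
    Matrix.mul_smul]

theorem N_int (hS : SymSt) (hD : DualSt) (A : M2 ℤ_[2]) (hA : IsUnit A.det) : Int (N d A) := by
  intro i j
  have a : ∀ (B : M2 ℤ_[2]) i j, ‖N d B i j‖ * ‖d i‖ ≤ ‖d j‖ := fun B i j => by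
    have := norm_pos_iff.2 (d_ne hd i)
    rw [N, mul_diagonal, diagonal_mul, hS.map, map_apply, norm_mul, norm_mul, norm_inv, norm_io]
    field_simp
    exact mul_le_of_le_one_left (norm_nonneg _) (PadicInt.norm_le_one _)
  have b : (N d A)ᵀ * J d = io E A.det ^ m • (J d * N d A⁻¹) := by
    rw [← Matrix.smul_mul, ← N_dual hd hD, Matrix.mul_assoc _ (N d A), ← N_mul hd hS,
      mul_nonsing_inv _ hA, N_one hd hS, Matrix.mul_one]
  have c := congrArg norm (congrFun (congrFun b j) i.rev)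
  rw [mul_J, Matrix.smul_apply, J_mul, smul_eq_mul, norm_mul, norm_mul, norm_mul, norm_w hd, norm_w hd,
    norm_pow, norm_io, PadicInt.isUnit_iff.1 hA, one_pow, one_mul, one_mul, mul_one] at c
  have a1 := a A i j
  have a2 := a A⁻¹ j.rev i.rev
  rw [← c, d_rev hd, d_rev hd] at a2
  have p1 := norm_pos_iff.2 (d_ne hd i)
  have p2 := norm_pos_iff.2 (d_ne hd j)
  by_contra h
  rw [not_le] at h
  nlinarith

end Pol

open Pol in
theorem pol : SymSt → DualSt → PolSt := by
  intro hS hD G _ _ E _ _ s hs t cj C ht hu hC hdet hcj k ρ hρ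
  choose d hd using fun i : Fin (2 * k + 1 + 1) => ex_d s hs ((2 * k + 1).choose i)
    (Nat.choose_pos (Nat.lt_succ_iff.1 i.2)).ne'
  have hm : Odd (2 * k + 1) := odd_two_mul_add_one k
  let ρ' : G →* Matrix (Fin (2 * k + 1 + 1)) (Fin (2 * k + 1 + 1)) E :=
    { toFun := fun g => diagonal (fun i => (d i)⁻¹) * (ρ g).map (algebraMap ℚ_[2] E) * diagonal d
      map_one' := by
        rw [map_one, Matrix.map_one _ (map_zero _) (map_one _), Matrix.mul_one, dd' hd]
      map_mul' := fun g h => by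
        simp only [map_mul, Matrix.map_mul, Matrix.mul_assoc]
        rw [← Matrix.mul_assoc (diagonal d), dd hd, Matrix.one_mul] }
  have eχ : ∀ g, algebraMap ℚ_[2] E (tq (t g)).det = io E (t g).det := fun g => by
    rw [tq_det]
    rfl
  have e : ∀ g, ρ' g = (io E (t g).det ^ k)⁻¹ • N d (t g) := fun g => by
    have : (ρ g).map (algebraMap ℚ_[2] E) =
        (io E (t g).det ^ k)⁻¹ • sym (2 * k + 1) ((t g).map (io E)) := by
      rw [hρ, ← eχ, show (t g).map (io E) = (tq (t g)).map (algebraMap ℚ_[2] E) from rfl, hS.map]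
      ext i j
      simp
    show diagonal _ * (ρ g).map (algebraMap ℚ_[2] E) * diagonal d = _
    rw [this, Matrix.mul_smul, Matrix.smul_mul, N]
  have n1 : ∀ g, ‖io E (t g).det‖ = 1 := fun g => by rw [norm_io, PadicInt.isUnit_iff.1 (hu g)]
  have n0 : ∀ g, io E (t g).det ≠ 0 := fun g => norm_ne_zero_iff.1 (by rw [n1]; exact one_ne_zero)
  have MM : N d C * N d C = 1 := by rw [← N_mul hd hS, hC, N_one hd hS]
  have MJ : (N d C)ᵀ * J d * N d C = -J d := by
    rw [N_dual hd hD, hdet, map_neg, map_one, hm.neg_one_pow, neg_one_smul]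
  have MI : Int (N d C) := N_int hd hS hD C (by rw [hdet]; exact isUnit_one.neg)
  have ec : ∀ g, ρ' (cj g) = (io E (t g).det ^ k)⁻¹ • (N d C * N d (t g) * N d C) := fun g => by
    rw [e, hcj, N_mul hd hS, N_mul hd hS, det_mul, det_mul, hdet]
    simp
  have BM : J d * N d C * N d C = J d := by rw [Matrix.mul_assoc, MM, Matrix.mul_one]
  have cg : ∀ X Y : Matrix (Fin (2 * k + 1 + 1)) (Fin (2 * k + 1 + 1)) E, X = Y → Cg X Y := by
    rintro X _ rfl i j
    simp
  refine ⟨ρ', J d * N d C, ⟨diagonal d, IsUnit.of_mul_eq_one _ (dd hd), fun g => ?_⟩, ?_,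
    fun g i j => ?_, ?_, fun i j => ?_, ?_, fun g => ?_, N d C, MI, cg _ _ MM,
    fun g => cg _ _ ?_, fun i j => ?_, fun i => ?_⟩
  · show diagonal d * (diagonal _ * (ρ g).map (algebraMap ℚ_[2] E) * diagonal d) = _
    rw [← Matrix.mul_assoc, ← Matrix.mul_assoc, dd hd, Matrix.one_mul]
  · have ci : Continuous (io E) := (continuous_algebraMap ℚ_[2] E).comp continuous_subtype_val
    rw [show (ρ' : G → _) = _ from funext e]
    exact (((ci.comp ht.matrix_det).pow k).inv₀ fun g => pow_ne_zero _ (n0 g)).smul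
      ((continuous_const.matrix_mul ((hS.cont _).comp (ht.matrix_map ci))).matrix_mul
        continuous_const)
  · rw [e, Matrix.smul_apply, smul_eq_mul, norm_mul, norm_inv, norm_pow, n1, one_pow, inv_one, one_mul]
    exact N_int hd hS hD _ (hu g) i j
  · show (J d * N d C)ᵀ = _
    rw [transpose_mul, J_tr d hm, Matrix.mul_neg, ← BM, ← Matrix.mul_assoc, ← Matrix.mul_assoc, MJ,
      Matrix.neg_mul, neg_neg, BM]
  · rw [J_mul, norm_mul, norm_w hd, one_mul]
    exact MI _ _
  · have h1 : ‖(N d C).det‖ = 1 := by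
      have := congrArg (fun X => ‖det X‖) MM
      simp only [det_mul, norm_mul, det_one, norm_one] at this
      nlinarith [norm_nonneg (N d C).det]
    rw [det_mul, norm_mul, h1, mul_one, J_eq, det_permute', det_diagonal, norm_mul, norm_prod]
    rcases Int.units_eq_one_or (Equiv.Perm.sign (Fin.revPerm : Equiv.Perm (Fin (2 * k + 1 + 1))))
      with h | h <;> simp [h, norm_w hd]
  · have := n0 g
    simp only [eχ]
    rw [e, ec, transpose_smul, Matrix.smul_mul, Matrix.smul_mul, Matrix.mul_smul,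
      Matrix.mul_assoc (N d C), ← Matrix.mul_assoc _ (N d C), Matrix.mul_assoc _ (J d * N d C),
      BM, ← Matrix.mul_assoc, N_dual hd hD, Matrix.smul_mul, smul_smul, smul_smul]
    congr 1
    field_simp
    ring
  · rw [e, ec, Matrix.mul_smul, Matrix.smul_mul, Matrix.mul_assoc _ (N d C), MM, Matrix.mul_one]
  · rw [BM, J_tr d hm, sub_neg_eq_add, ← two_smul E, Matrix.smul_apply, smul_eq_mul, norm_mul,
      ← Matrix.mul_one (J d), J_mul, norm_mul, norm_w hd, one_mul]
    refine lt_of_le_of_lt (mul_le_of_le_one_right (norm_nonneg _) ?_) norm_two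
    rw [one_apply]
    split_ifs <;> simp
  · rw [BM, ← Matrix.mul_one (J d), J_mul, one_apply_ne, mul_zero, norm_zero]
    · exact one_pos
    · intro h
      have := congrArg Fin.val h
      rw [Fin.val_rev] at this
      omega

end Pool.Agent.SY
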