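import Pool.Agent.Lib.MP_b4b3cb_nt.SY.St4
import Pool.Agent.Lib.MP_b4b3cb_nt.SY.Pol

/-! The polarisation of the sum of an even symmetric power and a character. -/

namespace Pool.Agent.SY

open Matrix Pool.Agent.SelTwo Pool.Agent.SymTwo

namespace PolE

section

variable {E : Type} [NontriviallyNormedField E] {n : ℕ} (c : Fin n)

/-- The change of the basis. -/
noncomputable def D (a b : E) : Matrix (Fin (n + 1)) (Fin (n + 1)) E :=
  reindex finSumFinEquiv finSumFinEquiv (fromBlocks (diagonal fun i => if i = c then a else 1)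
    (of fun i _ => if i = c then b else 0) 0 (a⁻¹ • 1))

variable (π : E) (X Y : Matrix (Fin n) (Fin n) E) (u v : E)

/-- An endomorphism in the new basis. -/
noncomputable def ev : Matrix (Fin (n + 1)) (Fin (n + 1)) E :=
  D c π⁻¹ (-π⁻¹) * bs X (v • 1) * D c π π⁻¹

/-- A form in the new basis. -/
noncomputable def fm : Matrix (Fin (n + 1)) (Fin (n + 1)) E :=
  (D c π π⁻¹)ᵀ * bs X (v • 1) * D c π π⁻¹

theorem bs_mul : bs X (u • (1 : Matrix (Fin 1) (Fin 1) E)) * bs Y (v • 1) =
    bs (X * Y) ((u * v) • 1) := by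
  simp [bs, fromBlocks_multiply, smul_smul, mul_comm]

theorem bs_tr : (bs X (u • (1 : Matrix (Fin 1) (Fin 1) E)))ᵀ = bs Xᵀ (u • 1) := by
  simp [bs, fromBlocks_transpose]

theorem fm_tr : (fm c π X u)ᵀ = fm c π Xᵀ u := by
  simp only [fm, transpose_mul, transpose_transpose, bs_tr, Matrix.mul_assoc]

theorem fm_smul : fm c π (u • X) (u * v) = u • fm c π X v := by
  have : bs (u • X) ((u * v) • (1 : Matrix (Fin 1) (Fin 1) E)) = u • bs X (v • 1) := by
    ext i j
    simp only [bs, reindex_apply, submatrix_apply, Matrix.smul_apply]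
    rw [← Matrix.smul_apply, fromBlocks_smul, smul_zero, smul_zero, smul_smul]
  rw [fm, this, Matrix.mul_smul, Matrix.smul_mul, fm]

theorem cv_sub : ev c π X u - ev c π Y v = ev c π (X - Y) (u - v) := by
  have : bs (X - Y) ((u - v) • (1 : Matrix (Fin 1) (Fin 1) E)) = bs X (u • 1) - bs Y (v • 1) := by
    ext i j
    simp only [bs, reindex_apply, submatrix_apply, Matrix.sub_apply]
    generalize finSumFinEquiv.symm i = a
    generalize finSumFinEquiv.symm j = b
    cases a <;> cases b <;> simp [sub_mul]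
  rw [ev, ev, ev, this, Matrix.mul_sub, Matrix.sub_mul]

variable {π} (h : π ≠ 0)
include h

theorem DD : D c π π⁻¹ * D c π⁻¹ (-π⁻¹) = 1 := by
  simp only [D, reindex_apply, submatrix_mul_equiv, fromBlocks_multiply]
  rw [← submatrix_one_equiv finSumFinEquiv.symm, ← fromBlocks_one]
  congr 2
  · ext i j
    by_cases a : i = j <;> by_cases b : i = c <;> simp_all [one_apply]
  · ext i j
    by_cases b : i = c <;> simp [b, h]
  · simp
  · simp [smul_smul, h]

theorem cv_mul : ev c π X u * ev c π Y v = ev c π (X * Y) (u * v) := by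
  simp only [ev, Matrix.mul_assoc]
  rw [← Matrix.mul_assoc (D c π π⁻¹), DD c h, Matrix.one_mul, ← Matrix.mul_assoc (bs _ _), bs_mul]

theorem fm_cv : fm c π X u * ev c π Y v = fm c π (X * Y) (u * v) := by
  simp only [fm, ev, Matrix.mul_assoc]
  rw [← Matrix.mul_assoc (D c π π⁻¹), DD c h, Matrix.one_mul, ← Matrix.mul_assoc (bs _ _), bs_mul]

theorem cv_fm : (ev c π X u)ᵀ * fm c π Y v = fm c π (Xᵀ * Y) (u * v) := by
  rw [← transpose_transpose (fm c π Y v), ← transpose_mul, fm_tr, fm_cv c _ _ _ _ h, fm_tr,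
    transpose_mul, transpose_transpose, mul_comm v]

theorem cv_one : ev c π 1 1 = 1 := by
  have : bs (1 : Matrix (Fin n) (Fin n) E) ((1 : E) • (1 : Matrix (Fin 1) (Fin 1) E)) = 1 := by
    simp [bs]
  rw [ev, this, Matrix.mul_one, mul_eq_one_comm.1 (DD c h)]

theorem fm_det : (fm c π X u).det = X.det * u := by
  have : (D c π π⁻¹).det = 1 := by
    rw [D, det_reindex_self, det_fromBlocks_zero₂₁, det_diagonal]
    simp [h]
  rw [fm, det_mul, det_mul, det_transpose, this, bs, det_reindex_self, det_fromBlocks_zero₂₁]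
  simp

theorem cv_eq : ev c π X v = reindex finSumFinEquiv finSumFinEquiv (fromBlocks
    (of fun i j => (if i = c then π⁻¹ else 1) * X i j * if j = c then π else 1)
    (of fun i _ => if i = c then (X c c - v) / π ^ 2 else X i c / π) 0 (v • 1)) := by
  simp only [ev, bs, D, reindex_apply, submatrix_mul_equiv, fromBlocks_multiply]
  congr 2
  · ext i j
    simp
  · ext i j
    by_cases b : i = c <;> simp [b, mul_apply, diagonal_apply]
    all_goals field_simp
    ring
  · simp
  · simp [smul_smul, mul_left_comm π⁻¹, h]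

theorem fm_eq : fm c π X v = reindex finSumFinEquiv finSumFinEquiv (fromBlocks
    (of fun i j => (if i = c then π else 1) * X i j * if j = c then π else 1)
    (of fun i _ => if i = c then X c c else X i c / π)
    (of fun _ i => if i = c then X c c else X c i / π) (((X c c + v) / π ^ 2) • 1)) := by
  simp only [fm, bs, D, reindex_apply, transpose_submatrix, fromBlocks_transpose,
    submatrix_mul_equiv, fromBlocks_multiply]
  congr 2
  · ext i j
    simp
  · ext i j
    by_cases b : i = c <;> simp [b, mul_apply, diagonal_apply]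
    all_goals field_simp
  · ext i j
    by_cases b : j = c <;> simp [b, mul_apply, diagonal_apply]
    all_goals field_simp
  · ext i j
    simp [mul_apply, one_apply, Subsingleton.elim i j]
    field_simp

variable (h1 : ‖π‖ < 1) {X v}
include h1

theorem cv_le {r : ℝ} (a : ∀ i j, ‖X i j‖ ≤ r)
    (b : ∀ i, i ≠ c → ‖X c i‖ ≤ r * ‖π‖ ∧ ‖X i c‖ ≤ r * ‖π‖) (e : ‖X c c - v‖ ≤ r * ‖π‖ ^ 2)
    (f : ‖v‖ ≤ r) (i j) : ‖ev c π X v i j‖ ≤ r := by
  have p := norm_pos_iff.2 h
  rw [cv_eq c _ _ h, reindex_apply, submatrix_apply]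
  generalize finSumFinEquiv.symm i = i
  generalize finSumFinEquiv.symm j = j
  rcases i with i | i <;> rcases j with j | j
  · by_cases x : i = c <;> by_cases y : j = c
    · simpa [x, y, mul_right_comm π⁻¹, h] using a c c
    · simpa [x, y, inv_mul_le_iff₀ p, mul_comm] using (b j y).1
    · simpa [x, y] using (mul_le_of_le_one_right (norm_nonneg _) h1.le).trans (a i c)
    · simpa [x, y] using a i j
  · by_cases x : i = c
    · simpa [x, div_le_iff₀ (pow_pos p 2)] using e
    · simpa [x, div_le_iff₀ p] using (b i x).2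
  · simpa using (norm_nonneg _).trans f
  · simpa [Subsingleton.elim i j] using f

theorem fm_le (a : Int X) (b : ∀ i, i ≠ c → X c i = 0 ∧ X i c = 0 ∧ X i i = 0) :
    Int (fm c π X (-X c c)) ∧ ∀ i, ‖fm c π X (-X c c) i i‖ < 1 := by
  have q : ∀ i, ‖if i = c then π else 1‖ ≤ 1 := fun i => by split_ifs <;> simp [h1.le]
  simp only [SelTwo.Int, fm_eq c _ _ h, reindex_apply, submatrix_apply]
  refine ⟨fun i j => ?_, fun i => ?_⟩
  · generalize finSumFinEquiv.symm i = i
    generalize finSumFinEquiv.symm j = j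
    rcases i with i | i <;> rcases j with j | j
    · rw [fromBlocks_apply₁₁, of_apply, norm_mul, norm_mul]
      exact mul_le_one₀ (mul_le_one₀ (q i) (norm_nonneg _) (a i j)) (norm_nonneg _) (q j)
    · by_cases x : i = c <;> simp [x, a c c, b i]
    · by_cases x : j = c <;> simp [x, a c c, b j]
    · simp
  · generalize finSumFinEquiv.symm i = i
    rcases i with i | i
    · by_cases x : i = c
      · simpa [x] using (mul_le_of_le_one_left (norm_nonneg _)
          (mul_le_one₀ h1.le (norm_nonneg _) (a c c))).trans_lt h1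
      · simp [b i x]
    · simp

end

open Pol

variable {E : Type} [NontriviallyNormedField E] [NormedAlgebra ℚ_[2] E] {k : ℕ}
  {d : Fin (2 * k + 1) → E}

/-- The middle index. -/
def md (k : ℕ) : Fin (2 * k + 1) := ⟨k, by omega⟩

theorem rev_eq {i : Fin (2 * k + 1)} : i = i.rev ↔ i = md k := by
  simp only [Fin.ext_iff, Fin.val_rev, md]
  omega

theorem rev_md {i : Fin (2 * k + 1)} : i.rev = md k ↔ i = md k := by
  simp only [Fin.ext_iff, Fin.val_rev, md]
  omega

omit [NormedAlgebra ℚ_[2] E] in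
theorem w_rev (i : Fin (2 * k + 1)) : w d i.rev = w d i := by
  have e : 2 * k = i.rev + i := by
    rw [Fin.val_rev]
    omega
  rw [w, w, Fin.rev_rev, Nat.choose_symm_of_eq_add e,
    neg_one_pow_congr (Nat.even_add.1 (e ▸ even_two_mul k))]
  ring

omit [NormedAlgebra ℚ_[2] E] in
theorem J_app (i j : Fin (2 * k + 1)) : J d i j = if i = j.rev then w d i else 0 := by
  rw [J_eq, submatrix_apply, diagonal_apply]
  rfl

omit [NormedAlgebra ℚ_[2] E] in
theorem J_sy : (J d)ᵀ = J d := by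
  ext i j
  rw [transpose_apply, J_app, J_app]
  by_cases e : j = i.rev
  · simp [e, w_rev]
  · rw [if_neg e, if_neg fun a => e (by rw [a, Fin.rev_rev])]

variable (hd : ∀ i : Fin (2 * k + 1), ‖d i‖ ^ 2 = ‖((2 * k).choose i : E)‖) (hS : SymSt)
  (hD : DualSt) {s : E} (hs : s ^ 2 = 2) {A : M2 ℤ_[2]} (hA : IsUnit A.det)
include hd hS hD hA

theorem dg (j : Fin (2 * k + 1)) : ∃ y : E, ‖y‖ ≤ 1 ∧
    io E A.det ^ (2 * k) * J d j j = w d (md k) * N d A (md k) j ^ 2 + 2 * y := by
  have := IsUltrametricDist.of_normedAlgebra ℚ_[2] (L := E)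
  have e := congrFun (congrFun (N_dual hd hD A) j) j
  rw [Matrix.mul_assoc, mul_apply, Matrix.smul_apply, smul_eq_mul] at e
  simp only [J_mul, transpose_apply] at e
  set f := fun i => N d A i j * (w d i * N d A i.rev j) with hf
  let g := fun i => if i < md k then f i else 0
  refine ⟨∑ i, g i, IsUltrametricDist.norm_sum_le_of_forall_le_of_nonneg zero_le_one fun i _ => ?_,
    ?_⟩
  · simp only [g, f]
    split_ifs
    · rw [norm_mul, norm_mul, norm_w hd, one_mul]
      exact mul_le_one₀ (N_int hd hS hD A hA _ _) (norm_nonneg _) (N_int hd hS hD A hA _ _)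
    · simp
  have : ∀ i, f i = (if i = md k then f i else 0) + (g i + g (Fin.revPerm i)) := fun i => by
    have r : f i.rev = f i := by
      simp only [f, w_rev, Fin.rev_rev]
      ring
    simp only [g, Fin.revPerm_apply, r, Fin.lt_def, Fin.ext_iff, Fin.val_rev, md]
    split_ifs <;> first | omega | simp
  rw [← e, Finset.sum_congr rfl fun i _ => this i, Finset.sum_add_distrib, Finset.sum_add_distrib,
    Equiv.sum_comp Fin.revPerm g, Finset.sum_ite_eq', if_pos (Finset.mem_univ _)]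
  simp only [f, rev_md.2 rfl]
  ring

include hs

theorem row {j : Fin (2 * k + 1)} (hj : j ≠ md k) : ‖N d A (md k) j‖ ≤ ‖s‖ := by
  obtain ⟨y, y1, y2⟩ := dg hd hS hD hA j
  rw [J_app, if_neg (rev_eq.not.2 hj), mul_zero, eq_comm, add_eq_zero_iff_eq_neg, ← hs] at y2
  have := congrArg norm y2
  rw [norm_neg, norm_mul, norm_mul, norm_w hd, one_mul, norm_pow, norm_pow] at this
  exact (pow_le_pow_iff_left₀ (norm_nonneg _) (norm_nonneg _) two_ne_zero).1
    (this.trans_le (mul_le_of_le_one_right (by positivity) y1))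

theorem col {i : Fin (2 * k + 1)} (hi : i ≠ md k) : ‖N d A i (md k)‖ ≤ ‖s‖ := by
  have b : (N d A)ᵀ * J d = io E A.det ^ (2 * k) • (J d * N d A⁻¹) := by
    rw [← Matrix.smul_mul, ← N_dual hd hD, Matrix.mul_assoc _ (N d A), ← N_mul hd hS,
      mul_nonsing_inv _ hA, N_one hd hS, Matrix.mul_one]
  have c := congrArg norm (congrFun (congrFun b (md k)) i.rev)
  rw [mul_J, Matrix.smul_apply, J_mul, smul_eq_mul, norm_mul, norm_mul, norm_mul, norm_w hd,
    norm_w hd, norm_pow, norm_io, PadicInt.isUnit_iff.1 hA, one_pow, one_mul, one_mul, mul_one,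
    rev_md.2 rfl] at c
  exact c ▸ row hd hS hD hs (isUnit_nonsing_inv_det _ hA) (rev_md.not.2 hi)

theorem mid : ‖N d A (md k) (md k) - io E A.det ^ k‖ ≤ ‖s‖ := by
  have := IsUltrametricDist.of_normedAlgebra ℚ_[2] (L := E)
  obtain ⟨y, y1, y2⟩ := dg hd hS hD hA (md k)
  rw [J_app, if_pos (rev_eq.2 rfl), ← hs] at y2
  have n : ‖io E A.det ^ k‖ = 1 := by rw [norm_pow, norm_io, PadicInt.isUnit_iff.1 hA, one_pow]
  have e : w d (md k) * (N d A (md k) (md k) - io E A.det ^ k) ^ 2 = s ^ 2 * (-y +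
      w d (md k) * io E A.det ^ k * (io E A.det ^ k + -N d A (md k) (md k))) := by
    linear_combination -y2 - w d (md k) * io E A.det ^ k *
      (io E A.det ^ k - N d A (md k) (md k)) * hs
  have := congrArg norm e
  rw [norm_mul, norm_mul, norm_w hd, one_mul, norm_pow, norm_pow] at this
  refine (pow_le_pow_iff_left₀ (norm_nonneg _) (norm_nonneg _) two_ne_zero).1
    (this.trans_le (mul_le_of_le_one_right (by positivity)
      ((IsUltrametricDist.norm_add_le_max _ _).trans (max_le (by rwa [norm_neg]) ?_))))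
  rw [norm_mul, norm_mul, norm_w hd, n, one_mul, one_mul]
  exact (IsUltrametricDist.norm_add_le_max _ _).trans (max_le n.le (by
    rw [norm_neg]; exact N_int hd hS hD A hA _ _))

theorem cv_int {π a b : E} (h1 : ‖π‖ < 1) (h2 : ‖s‖ < ‖π‖ ^ 2) (ha : ‖a - 1‖ ≤ ‖π‖ ^ 2)
    (hb : ‖b - 1‖ ≤ ‖π‖ ^ 2) : Int (ev (md k) π ((a / io E A.det ^ k) • N d A) b) := by
  have := IsUltrametricDist.of_normedAlgebra ℚ_[2] (L := E)
  have p1 : ‖π‖ ^ 2 ≤ ‖π‖ := pow_le_of_le_one (norm_nonneg _) h1.le two_ne_zero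
  have o : ∀ a : E, ‖a - 1‖ ≤ ‖π‖ ^ 2 → ‖a‖ ≤ 1 := fun a ha => by
    rw [← sub_add_cancel a 1]
    exact (IsUltrametricDist.norm_add_le_max _ _).trans (max_le (by linarith) norm_one.le)
  have n : ‖io E A.det ^ k‖ = 1 := by rw [norm_pow, norm_io, PadicInt.isUnit_iff.1 hA, one_pow]
  have q : ∀ x, ‖a / io E A.det ^ k * x‖ ≤ ‖x‖ := fun x => by
    rw [norm_mul, norm_div, n, div_one]
    exact mul_le_of_le_one_left (norm_nonneg _) (o a ha)
  refine cv_le _ (fun z => by simp [z, (norm_nonneg s).not_gt] at h2) h1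
    (fun i j => (q _).trans (N_int hd hS hD A hA i j)) (fun i hi => ⟨(q _).trans ?_, (q _).trans ?_⟩)
    ?_ (o b hb)
  · linarith [row hd hS hD hs hA hi]
  · linarith [col hd hS hD hs hA hi]
  have : io E A.det ^ k ≠ 0 := norm_ne_zero_iff.1 (by rw [n]; exact one_ne_zero)
  rw [Matrix.smul_apply, smul_eq_mul, show a / io E A.det ^ k * N d A (md k) (md k) - b =
    a / io E A.det ^ k * (N d A (md k) (md k) - io E A.det ^ k) + (a - 1 + -(b - 1)) by
      field_simp; ring, one_mul]
  exact (IsUltrametricDist.norm_add_le_max _ _).trans (max_le ((q _).trans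
    ((mid hd hS hD hs hA).trans h2.le)) ((IsUltrametricDist.norm_add_le_max _ _).trans
      (max_le ha (by rwa [norm_neg]))))

end PolE

open Pol PolE in
theorem polE : SymSt → DualSt → BsSt → PolESt := by
  intro hS hD _ G _ _ E _ _ s π hs h1 h2 t cj C ht hu hC hdet hcj k μ ν cμ cν hμ hν dμ dν ρ hρ
  have := IsUltrametricDist.of_normedAlgebra ℚ_[2] (L := E)
  choose d hd using fun i : Fin (2 * k + 1) => ex_d s hs ((2 * k).choose i)
    (Nat.choose_pos (Nat.lt_succ_iff.1 i.2)).ne'
  have h : π ≠ 0 := fun z => by simp [z, (norm_nonneg s).not_gt] at h2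
  have p := norm_pos_iff.2 h
  have p1 : ‖π‖ ^ 2 ≤ ‖π‖ := pow_le_of_le_one p.le h1.le two_ne_zero
  have eχ : ∀ g, (te E (t g)).det = io E (t g).det := fun g => (RingHom.map_det (io E) _).symm
  simp only [eχ] at dμ dν hρ ⊢
  let P := bs (diagonal d) ((1 : E) • 1) * D (md k) π π⁻¹
  let P' := D (md k) π⁻¹ (-π⁻¹) * bs (diagonal fun i => (d i)⁻¹) ((1 : E) • 1)
  have PP : P * P' = 1 := by
    rw [Matrix.mul_assoc, ← Matrix.mul_assoc (D _ _ _), DD _ h, Matrix.one_mul, bs_mul, dd hd]
    simp [bs]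
  let ρ' : G →* Matrix (Fin (2 * k + 1 + 1)) (Fin (2 * k + 1 + 1)) E :=
    { toFun := fun g => P' * ρ g * P
      map_one' := by rw [map_one, Matrix.mul_one, mul_eq_one_comm.1 PP]
      map_mul' := fun g l => by
        simp only [map_mul, Matrix.mul_assoc]
        rw [← Matrix.mul_assoc P, PP, Matrix.one_mul] }
  have e : ∀ g, ρ' g = ev (md k) π ((μ g / io E (t g).det ^ k) • N d (t g)) (ν g) := fun g => by
    show P' * ρ g * P = _
    rw [hρ, ev]
    simp only [P, P', Matrix.mul_assoc]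
    rw [← Matrix.mul_assoc (bs _ _), bs_mul, ← Matrix.mul_assoc (bs _ _), bs_mul, N, mul_one,
      one_mul, Matrix.mul_smul, Matrix.smul_mul]
    rfl
  have n1 : ∀ g, ‖io E (t g).det‖ = 1 := fun g => by rw [norm_io, PadicInt.isUnit_iff.1 (hu g)]
  have n0 : ∀ g, io E (t g).det ≠ 0 := fun g => norm_ne_zero_iff.1 (by rw [n1]; exact one_ne_zero)
  have uC : IsUnit C.det := by
    rw [hdet]
    exact isUnit_one.neg
  have MI := cv_int hd hS hD hs uC (a := 1) (b := 1) h1 h2 (by simp) (by simp)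
  obtain ⟨ε, hε, e1⟩ : ∃ ε : E, 1 / io E C.det ^ k = ε ∧ ε * ε = 1 :=
    ⟨_, rfl, by rw [hdet, map_neg, map_one, div_mul_div_comm, ← mul_pow]; simp⟩
  rw [hε] at MI
  have nε : ‖ε‖ = 1 := by
    have := congrArg norm e1
    rw [norm_mul, norm_one] at this
    nlinarith [norm_nonneg ε]
  have NN : N d C * N d C = 1 := by rw [← N_mul hd hS, hC, N_one hd hS]
  have NJ : (N d C)ᵀ * J d * N d C = J d := by
    rw [N_dual hd hD, hdet, map_neg, map_one, pow_mul, neg_one_sq, one_pow, one_smul]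
  have ec : ∀ g, ρ' (cj g) = ev (md k) π ((μ (cj g) / io E (t g).det ^ k) •
      (N d C * N d (t g) * N d C)) (ν (cj g)) := fun g => by
    rw [e, hcj, N_mul hd hS, N_mul hd hS, det_mul, det_mul, hdet]
    simp
  generalize hM : ev (md k) π (ε • N d C) 1 = M at MI
  have MM : M * M = 1 := by
    rw [← hM, cv_mul _ _ _ _ _ h, Matrix.smul_mul, Matrix.mul_smul, smul_smul, NN, e1, one_smul,
      one_mul, cv_one _ h]
  obtain ⟨F1, F2⟩ := fm_le (md k) h h1 (X := J d) (fun i j => by
    rw [J_app]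
    split_ifs <;> simp [norm_w hd]) fun i hi => by
    simp only [J_app, if_neg (rev_eq.not.2 hi), rev_md.2 rfl, if_neg hi,
      if_neg (Ne.symm (rev_md.not.2 hi)), and_self]
  generalize hF : fm (md k) π (J d) (-J d (md k) (md k)) = F at F1 F2
  have eB : F * M = fm (md k) π (ε • (J d * N d C)) (-J d (md k) (md k)) := by
    rw [← hF, ← hM, fm_cv _ _ _ _ _ h, Matrix.mul_smul, mul_one]
  have BM : F * M * M = F := by rw [Matrix.mul_assoc, MM, Matrix.mul_one]
  have cg : ∀ X Y : Matrix (Fin (2 * k + 1 + 1)) (Fin (2 * k + 1 + 1)) E, X = Y → Cg X Y := by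
    rintro X _ rfl i j
    simp
  refine ⟨ρ', F * M, ⟨P, IsUnit.of_mul_eq_one _ PP, fun g => ?_⟩, ?_, fun g => ?_, ?_,
    fun i j => ?_, ?_, fun g => ?_, M, MI, cg _ _ MM, fun g i j => ?_, cg _ _ ?_, BM.symm ▸ F2⟩
  · show P * (P' * ρ g * P) = ρ g * P
    rw [Matrix.mul_assoc P', ← Matrix.mul_assoc P, PP, Matrix.one_mul]
  · have ci : Continuous (io E) := (continuous_algebraMap ℚ_[2] E).comp continuous_subtype_val
    rw [show (ρ' : G → _) = _ from funext e]
    exact (continuous_const.matrix_mul ((((cμ.div ((ci.comp ht.matrix_det).pow k)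
      fun g => pow_ne_zero _ (n0 g)).smul ((continuous_const.matrix_mul ((hS.cont _).comp
      (ht.matrix_map ci))).matrix_mul continuous_const)).matrix_fromBlocks continuous_const
      continuous_const (cν.smul continuous_const)).matrix_reindex _ _)).matrix_mul continuous_const
  · rw [e]
    exact cv_int hd hS hD hs (hu g) h1 h2 (hμ g).le (hν g).le
  · show (F * M)ᵀ = _
    rw [eB, fm_tr, transpose_smul, transpose_mul, J_sy, ← Matrix.mul_one ((N d C)ᵀ * _), ← NN,
      ← Matrix.mul_assoc, NJ]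
  · rw [mul_apply]
    refine IsUltrametricDist.norm_sum_le_of_forall_le_of_nonneg zero_le_one fun l _ => ?_
    rw [norm_mul]
    exact mul_le_one₀ (F1 _ _) (norm_nonneg _) (MI _ _)
  · have a : ‖M.det‖ = 1 := by
      have := congrArg (fun X => ‖det X‖) MM
      simp only [det_mul, norm_mul, det_one, norm_one] at this
      nlinarith [norm_nonneg M.det]
    rw [det_mul, norm_mul, a, mul_one, ← hF, fm_det _ _ _ h, norm_mul, norm_neg, J_app,
      if_pos (rev_eq.2 rfl), norm_w hd, mul_one, J_eq, det_permute', det_diagonal, norm_mul,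
      norm_prod]
    rcases Int.units_eq_one_or (Equiv.Perm.sign (Fin.revPerm : Equiv.Perm (Fin (2 * k + 1))))
      with h | h <;> simp [h, norm_w hd]
  · have := n0 g
    rw [eB, e, ec, cv_fm _ _ _ _ _ h, fm_cv _ _ _ _ _ h, ← fm_smul, mul_right_comm (ν g), dν]
    congr 1
    simp only [transpose_smul, Matrix.smul_mul, Matrix.mul_smul, smul_smul, Matrix.mul_assoc]
    rw [← Matrix.mul_assoc (N d C), NN, Matrix.one_mul, ← Matrix.mul_assoc, ← Matrix.mul_assoc,
      N_dual hd hD, Matrix.smul_mul, smul_smul]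
    congr 1
    field_simp
    linear_combination ε * io E (t g).det ^ (2 * k) * dμ g
  · have q : ∀ κ : G → E, (∀ g, ‖κ g - 1‖ < ‖π‖ ^ 2) → ‖κ g - κ (cj g)‖ < ‖π‖ ^ 2 := fun κ hκ => by
      rw [show κ g - κ (cj g) = κ g - 1 + -(κ (cj g) - 1) by ring]
      exact (IsUltrametricDist.norm_add_le_max _ _).trans_lt
        (max_lt (hκ _) (by rw [norm_neg]; exact hκ _))
    obtain ⟨r, r1, r2, r3⟩ : ∃ r, r < 1 ∧ ‖μ g - μ (cj g)‖ ≤ r * ‖π‖ ^ 2 ∧
        ‖ν g - ν (cj g)‖ ≤ r * ‖π‖ ^ 2 :=
      ⟨max ‖μ g - μ (cj g)‖ ‖ν g - ν (cj g)‖ / ‖π‖ ^ 2,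
        (div_lt_one (by positivity)).2 (max_lt (q μ hμ) (q ν hν)),
        by rw [div_mul_cancel₀ _ (by positivity)]; exact ⟨le_max_left _ _, le_max_right _ _⟩⟩
    have r0 : 0 ≤ r := nonneg_of_mul_nonneg_left ((norm_nonneg _).trans r2) (by positivity)
    have r4 : r * ‖π‖ ^ 2 ≤ r * ‖π‖ := mul_le_mul_of_nonneg_left p1 r0
    have r5 : r * ‖π‖ ≤ r := mul_le_of_le_one_right r0 h1.le
    rw [e, ec, ← hM, cv_mul _ _ _ _ _ h, cv_mul _ _ _ _ _ h, cv_sub, one_mul, mul_one]
    simp only [Matrix.smul_mul, Matrix.mul_smul, smul_smul]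
    rw [Matrix.mul_assoc _ (N d C), NN, Matrix.mul_one, ← N_mul hd hS, ← sub_smul]
    generalize hX : (_ : E) • N d (C * t g) = X
    have b : ∀ i j, ‖X i j‖ ≤ r * ‖π‖ ^ 2 := fun i j => by
      rw [← hX, Matrix.smul_apply, smul_eq_mul, mul_comm _ ε, ← mul_sub, ← sub_div, norm_mul,
        norm_mul, nε, norm_div, norm_pow, n1, one_pow, div_one, one_mul]
      exact (mul_le_of_le_one_right (norm_nonneg _) (N_int hd hS hD _
        (by rw [det_mul]; exact uC.mul (hu g)) i j)).trans r2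
    refine (cv_le _ h h1 (fun i j => by linarith [b i j])
      (fun i _ => ⟨(b _ _).trans r4, (b _ _).trans r4⟩) ?_ (by linarith) i j).trans_lt r1
    rw [sub_eq_add_neg]
    exact (IsUltrametricDist.norm_add_le_max _ _).trans (max_le (b _ _) (by rwa [norm_neg]))
  · rw [BM, ← hF, fm_tr, J_sy]

end Pool.Agent.SY
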