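import Pool.Agent.Lib.MP_b4b3cb_nt.SY.MainT
import Pool.Agent.Lib.MP_b4b3cb_nt.SY.Bs
import Pool.Agent.Lib.MP_b4b3cb_nt.SY.Sum2
import Pool.Agent.Lib.MP_b4b3cb_nt.SY.PolE
import Pool.Agent.Lib.MP_b4b3cb_nt.SY.AnA
import Pool.Agent.Lib.MP_b4b3cb_nt.SY.AnB
import Pool.Agent.Lib.MP_b4b3cb_nt.SY.Cls

/-! The Selmer group of the character with minimal ramification vanishes. -/

namespace Pool.Agent.HF

open scoped Classical Pointwise TensorProduct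
open Module NumberField Pool.Agent.Stark Matrix IsDedekindDomain Finset
open Pool.Agent.SP hiding VD exVD autoR oddK locRam locIn
open SC hiding Hm Rp V T Two Cob Sel Spl cup dq Cz Sz res Dec Ine cyc gs
open SelTwo hiding Int

theorem crisCob (L : Type) [Field L] [NumberField L] [IsCMField L] (hL : finrank ℚ L = 2) (E : Type)
    [NontriviallyNormedField E] [NormedAlgebra ℚ_[2] E] [FiniteDimensional ℚ_[2] E] (n : ℕ)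
    (ρ : Gal L →* Matrix (Fin n) (Fin n) E) (cj : Gal L → Gal L)
    (hcj : IsCj cj) (B : Matrix (Fin n) (Fin n) E) (hB : PolS ρ (cyc E) cj B)
    (inv : ∀ 𝔓 : Idl L, 𝔓.IsMaximal → fdim (ρ '' Dec 𝔓) = 0)
    (sp : ∀ 𝔓 : Idl L, 𝔓.IsMaximal → 2 ∈ 𝔓 → ¬Nonsplit 𝔓) (nf : ∀ j, NoFix j ρ)
    (j : AlgebraicClosure L →+* ℂ_[2]) (h : Fin n → ℤ) (dr : DeRham j ρ h) (h0 : ∀ i, h i ≤ 0)
    {x : Gal L → Fin n → E} (hx : x ∈ Hf ρ) : Cob ρ (Dec (pj j)) x := by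
  obtain ⟨m1, m2⟩ := pj_max j
  obtain ⟨hK, κ, c, k1, k2, cc, k3, k4, k5⟩ := BC.dim3 L hL E n ρ cj hcj B hB _ m1 m2 (sp _ m1 m2)
  obtain ⟨χ, X, x1, x2, x3⟩ := exX E j
  have hρ := hB.1
  obtain ⟨W, a1, a2, a3, a4, a5⟩ := X.bk (M := B) x1 (hρ.comp continuous_subtype_val)
    ((hρ.comp k1).comp continuous_subtype_val) ((x3 ρ).2.1 (nf j))
    ((x3 (ρ.comp κ)).2.1 ((cris_cj j cc k3 ρ).2 (nf _))) ((x3 ρ).2.2 h dr)
    ((isUnit_iff_isUnit_det _).2 (norm_ne_zero_iff.1 (hB.2.2.2.2.1 ▸ one_ne_zero)).isUnit)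
    (fun g => by rw [x2, ← hB.2.2.2.2.2.1, ← k2]; rfl) fun W W' => k5 χ W W' x2
  have e : ((rpM ρ hρ).res (Dec (pj j))).B1 = W := Submodule.eq_of_le_of_finrank_eq
    (fun y ⟨u, p⟩ => a2 _ ⟨u, fun g _ => (congrFun p g).symm⟩) (by
      rw [((rpM ρ hρ).res (Dec (pj j))).rank_B1 fun a ha => (Submodule.finrank_eq_zero.1
        ((fdim_inv hρ).symm.trans (inv _ m1))).le ha, a4, finrank_fin_fun,
        filter_false_of_mem fun i _ => (h0 i).not_gt, card_empty, add_zero])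
  rw [cob_iff hρ, e, a1, ← (x3 ρ).1]
  exact ⟨⟨hx.1.1.mono (Set.subset_univ _), fun g _ l _ => hx.1.2 g trivial l trivial⟩, hx.2.2 j⟩

end Pool.Agent.HF

namespace Pool.Agent.SY

open NumberField IsDedekindDomain Matrix Pool.Agent.SelTwo Pool.Agent.HF Pool.Agent.SymTwo
open scoped Classical

variable {L : Type} [Field L] [NumberField L] [IsCMField L] {E : Type} [NontriviallyNormedField E]
  [NormedAlgebra ℚ_[2] E] [FiniteDimensional ℚ_[2] E] {W : WeierstrassCurve ℤ}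
  {e : Z2 →+ ℕ → (cv W (AlgebraicClosure L)).Point} {t : Gal L → M2 ℤ_[2]}

theorem sym_zero {R : Type} [CommRing R] (A : M2 R) : sym 0 A = 1 := by
  ext i j
  fin_cases i
  fin_cases j
  simp [sym]

/-- The direct sum of two representations. -/
def bsR {G R : Type} [Group G] [CommRing R] {n₁ n₂ : ℕ} (ρ₁ : G →* Matrix (Fin n₁) (Fin n₁) R)
    (ρ₂ : G →* Matrix (Fin n₂) (Fin n₂) R) : G →* Matrix (Fin (n₁ + n₂)) (Fin (n₁ + n₂)) R where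
  toFun g := bs (ρ₁ g) (ρ₂ g)
  map_one' := by rw [map_one, map_one, bsS.one]
  map_mul' g h := by rw [map_mul, map_mul, bsS.mul]

theorem sumP (hL : Module.finrank ℚ L = 2) (hW : Odd W.Δ) (he : TS e)
    (ht : ∀ g : Gal L, Mt e (gm W (g : _ →+* _)) (t g))
    (sp : ∀ 𝔓 : Idl L, 𝔓.IsMaximal → 2 ∈ 𝔓 → ¬Nonsplit 𝔓) (ι : E →+* ℂ) {s π : E} (s2 : s ^ 2 = 2)
    (p1 : ‖π‖ < 1) (p2 : ‖s‖ < ‖π‖ ^ 2) {μ ν : Gal L →* E} {cj : Gal L → Gal L} (hcj : IsCj cj)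
    (hμ : Ch μ cj 1) (hν : Ch ν cj 1) (μ1 : ∀ g, ‖μ g - 1‖ < ‖π‖ ^ 2)
    (ν1 : ∀ g, ‖ν g - 1‖ < ‖π‖ ^ 2) {k : ℕ}
    (ρ₁ : Gal L →* Matrix (Fin (2 * k + 1)) (Fin (2 * k + 1)) E)
    (r1 : ∀ g, ρ₁ g = tw μ k g • sym (2 * k) (te E (t g)))
    (ρ₂ : Gal L →* Matrix (Fin 1) (Fin 1) E) (r2 : ∀ g, ρ₂ g = ν g • 1) {P : Idl L}
    (m1 : P.IsMaximal) (m2 : 2 ∈ P) {a b : ℤ} (la : LA μ P a) (lb : LA ν P b) :
    ∃ (ρ' : Gal L →* Matrix (Fin (2 * k + 1 + 1)) (Fin (2 * k + 1 + 1)) E) (B : _),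
      Eqe (RingHom.id E) (bsR ρ₁ ρ₂) ρ' ∧ PolS ρ' (cyc E) cj B ∧
      (∀ 𝔓 : Idl L, 𝔓.IsMaximal → fdim (ρ' '' Dec 𝔓) = 0 ∧ ∃ g ∈ Dec 𝔓, ν g ≠ 1) ∧
      (∀ j, NoFix j ρ') ∧
      ∀ j, (pj j).under (𝓞 L) = P.under _ → DeRham j ρ' (Fin.append
        (fun i : Fin (2 * k + 1) => a + k - (i : ℕ)) fun i : Fin 1 => b - (i : ℕ)) := by
  have hΔ : W.Δ ≠ 0 := fun h => by simp [h] at hW
  obtain ⟨ct, hd, -⟩ := det l1' L W hΔ e he t ht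
  obtain ⟨C, c2, c3, c4⟩ := detC l1' hΔ he ht hcj
  obtain ⟨T', hT'⟩ := exHom he.toTW ht
  have d : ∀ g, (te E (t g)).det = cyc E g := fun g => by rw [te_det, hd]; rfl
  obtain ⟨ρ', B, q1, q2⟩ := polE symS (dualS symS) bsS _ E s π s2 p1 p2 t cj C ct
    (fun g => hT' g ▸ (isUnit_iff_isUnit_det _).1 ((Group.isUnit g).map T')) c2 c3 c4 k μ ν hμ.ct
    hν.ct μ1 ν1 (fun g => by rw [d, hμ.dual, zpow_one]) (fun g => by rw [d, hν.dual, zpow_one])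
    (bsR ρ₁ ρ₂) fun g => by rw [d, ← r2, ← zpow_natCast, ← tw_apply, ← r1]; rfl
  simp only [d] at q2
  obtain ⟨a1, a2, a3⟩ := loc' L hL W hW e he t ht sp E ι _ cj (2 * k) _ hcj
    (by convert hμ.tw hcj k using 1; push_cast; ring) _ m1 m2 (la.tw k) ρ₁ r1
  obtain ⟨b1, b2, b3⟩ := loc' L hL W hW e he t ht sp E ι ν cj 0 _ hcj (by simpa using hν) _ m1 m2 lb
    ρ₂ fun g => by rw [sym_zero, r2]
  have u := sum1 L E _ _ ρ₁ ρ₂ (bsR ρ₁ ρ₂) fun _ => rfl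
  have v := basE1 L E _ _ ρ' q1
  refine ⟨ρ', B, q1, q2, fun 𝔓 h => ⟨v.1 _ (u.1 _ (a1 𝔓 h) (b1 𝔓 h)), ?_⟩,
    fun j => (v.2.1 j).1 ((u.2.1 j).1 (a2 j) (b2 j)), fun j h => (v.2.1 j).2 _ ?_⟩
  · by_contra! c
    simpa using congrFun (b1 𝔓 h 1 fun g hg => by rw [r2, c g hg, one_smul, one_mulVec]) 0
  · convert (u.2.1 j).2 _ _ (a3 j h) (b3 j h) using 3
    · push_cast
      ring
    · simp

theorem anch (hL : Module.finrank ℚ L = 2) (hh : Odd (classNumber L)) (hW : Odd W.Δ) (he : TS e)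
    (ht : ∀ g : Gal L, Mt e (gm W (g : _ →+* _)) (t g))
    (sp : ∀ 𝔓 : Idl L, 𝔓.IsMaximal → 2 ∈ 𝔓 → ¬Nonsplit 𝔓) (ι : E →+* ℂ) {s π : E} (s2 : s ^ 2 = 2)
    (p1 : ‖π‖ < 1) (p2 : ‖s‖ < ‖π‖ ^ 2) {ν : Gal L →* ℚ_[2]} {cj : Gal L → Gal L} (hcj : IsCj cj)
    (hν : Ch ν cj 1) (ν1 : ∀ g, ‖ν g - 1‖ < ‖π‖ ^ 2) {p r : HeightOneSpectrum (𝓞 L)}
    (hp : 2 ∈ p.asIdeal) (fp : ¬Fxd p)
    (hr : ∀ 𝔓 : Idl L, 𝔓.IsMaximal → (𝔓.under _ = r.asIdeal → 2 ∉ 𝔓 ∧ Nonsplit 𝔓 ∧ Ram 𝔓) ∧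
      (𝔓.under _ ≠ p.asIdeal → 𝔓.under _ ≠ r.asIdeal → ∀ g ∈ Ine 𝔓, ν g = 1))
    (ρ : Gal L →* Matrix (Fin 1) (Fin 1) E) (hρ : ∀ g, ρ g = algebraMap ℚ_[2] E (ν g) • 1) :
    h1 ρ ⊤ (Hf ρ) = 0 := by
  let ν' := (Algebra.ofId ℚ_[2] E : ℚ_[2] →* E).comp ν
  have hν' : Ch ν' cj 1 := hν.map fun x => norm_algebraMap' E x
  have n1 : ∀ g, ‖ν' g - 1‖ < ‖π‖ ^ 2 := fun g => by
    rw [← map_one (algebraMap ℚ_[2] E)]
    exact (congrArg norm (map_sub _ _ _).symm).trans_lt ((norm_algebraMap' E _).trans_lt (ν1 g))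
  have S := fun P m1 m2 la => sumP (k := 0) (P := P) (a := 0) hL hW he ht sp ι s2 p1 p2 hcj hν' hν'
    n1 n1 ρ (fun g => by simp [hρ, sym_zero, tw_apply, ν']) ρ hρ m1 m2 la la
  have L0 : ∀ P : Idl L, P.IsMaximal → 2 ∈ P → P.under _ ≠ p.asIdeal → LA ν' P 0 :=
    fun P m1 m2 m3 => ⟨1, one_pos, fun g hg => by
      simp [ν', (hr P m1).2 m3 (fun c => ((hr P m1).1 c).1 m2) g hg]⟩
  have v : ∀ g (u : Fin 1 → E), (ρ g *ᵥ u) 0 = ν g • u 0 := fun g u => by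
    rw [hρ, smul_mulVec, one_mulVec, Pi.smul_apply, algebraMap_smul]
  suffices ∀ x ∈ Hf ρ, Cob ρ ⊤ x by
    rw [h1, qdim, (LinearMap.le_ker_iff_map).1, finrank_bot]
    rw [Submodule.ker_mkQ]
    exact Submodule.span_mono this
  intro x hx
  have c : ∀ 𝔓 : Idl L, 𝔓.IsMaximal → 𝔓.under _ ≠ p.asIdeal →
      ∃ u : E, ∀ g ∈ Ine 𝔓, x g 0 = ν g • u - u := fun 𝔓 m1 m3 => by
    by_cases m2 : 2 ∈ 𝔓
    swap
    · obtain ⟨u, hu⟩ := hx.2.1 𝔓 m1 m2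
      exact ⟨u 0, fun g hg => by rw [hu g hg, Pi.sub_apply, v]⟩
    obtain ⟨ρ', B, ⟨D, d1, d2⟩, q2, q3, q4, q5⟩ := S 𝔓 m1 m2 (L0 𝔓 m1 m2 m3)
    obtain ⟨j, rfl⟩ := (all L hL).2 𝔓 m1 m2
    replace d2 : ∀ g, D * ρ' g = bsR ρ ρ g * D := fun g => by simpa using d2 g
    have d := (isUnit_iff_isUnit_det D).1 d1
    have d3 : ∀ g, D⁻¹ * bsR ρ ρ g = ρ' g * D⁻¹ := fun g => by
      rw [← nonsing_inv_mul_cancel_left D (ρ' g * D⁻¹) d, ← Matrix.mul_assoc D, d2,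
        mul_nonsing_inv_cancel_right _ _ d]
    obtain ⟨u, hu⟩ := Bas2.cob_conj d2 (crisCob L hL E _ ρ' cj hcj B q2 (fun 𝔓 h => (q3 𝔓 h).1) sp
      q4 j _ (q5 j rfl) (fun i => by fin_cases i <;> rfl) (Bas2.hf_conj d3
        (((sum2 bsS L E _ _ ρ ρ _ fun _ => rfl).1 x x).1 ⟨hx, hx⟩)))
    refine ⟨u (Fin.natAdd 1 0), fun g hg => ?_⟩
    have := congrFun (hu g (Ideal.inertia_le_stabilizer _ hg)) (Fin.natAdd 1 0)
    beta_reduce at this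
    rw [mulVec_mulVec, mul_nonsing_inv _ d, one_mulVec, Fin.append_right, Pi.sub_apply,
      ← Fin.append_castAdd_natAdd (f := u), show bsR ρ ρ g = bs (ρ g) (ρ g) from rfl, bsS.vec,
      Fin.append_right, Fin.append_right, v] at this
    exact this
  obtain ⟨P, hP⟩ := (SP.facts L (AlgebraicClosure L)).pr.ex L p
  have eP : P.under _ = p.asIdeal := Ideal.ext fun x => (hP.2 x).symm
  obtain ⟨𝔔, n2, n3, n4, -⟩ := (AnA.cjp hcj).2.2 P hP.1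
  replace n3 := n3 ((mem2 eP).1.2 hp)
  obtain ⟨_, _, -, -, q3, -⟩ := S 𝔔 n2 n3 (L0 𝔔 n2 n3 fun c => fp (by rwa [c, eP] at n4))
  have k := fun φ : E →ₗ[ℚ_[2]] ℚ_[2] => (anA L ν cj hcj hν p r hp fp (fun 𝔓 h =>
    ⟨(q3 𝔓 h).2.imp fun g a => ⟨a.1, fun c => a.2 (by simp [ν', c])⟩, hr 𝔓 h⟩) (fun g => φ (x g 0))
    (φ.continuous_of_finiteDimensional.comp ((continuous_apply 0).comp (continuousOn_univ.1 hx.1.1)))
    (fun g h => by rw [hx.1.2 g trivial h trivial, Pi.add_apply, v, map_add, map_smul]; rfl)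
    fun 𝔓 a b => (c 𝔓 a b).elim fun u hu => ⟨φ u, fun g hg => by
      rw [hu g hg, map_sub, map_smul]; rfl⟩).resolve_right
    fun ⟨y, a, b⟩ => b (anB cls L hL hh p hp fp y a)
  let b := Module.finBasis ℚ_[2] E
  choose u hu using fun i => k (b.coord i)
  refine ⟨fun _ => b.equivFun.symm u, fun g _ => funext fun i => ?_⟩
  rw [Subsingleton.elim i 0, Pi.sub_apply, v]
  refine b.ext_elem fun i => (hu i g).trans ?_
  simp [Finsupp.single_apply]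

end Pool.Agent.SY
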