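import Pool.Agent.Lib.MP_b4b3cb_nt.SY.Ts
import Pool.Agent.Lib.MP_b4b3cb_nt.HF.Ten

/-! Extension of scalars: the local conditions. -/

namespace Pool.Agent.SY

open Matrix Module Pool.Agent.SelTwo Pool.Agent.HF Pool.Agent.HF.Ten
open scoped TensorProduct

namespace Bas1

variable {E : Type} [NontriviallyNormedField E] [NormedAlgebra ℚ_[2] E] {n : ℕ} {Y : Type}
  [CommRing Y] [Algebra ℚ_[2] Y]

theorem alg_alg (c : ℚ_[2]) : algebraMap E (E ⊗[ℚ_[2]] Y) (algebraMap ℚ_[2] E c) =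
    1 ⊗ₜ algebraMap ℚ_[2] Y c := by
  rw [Algebra.TensorProduct.algebraMap_apply, Algebra.algebraMap_self, RingHom.id_apply,
    Algebra.algebraMap_eq_smul_one, Algebra.algebraMap_eq_smul_one, TensorProduct.smul_tmul]

theorem act_one_mul (D : Matrix (Fin n) (Fin n) E) (s : Y →ₐ[ℚ_[2]] Y)
    (z : Fin n → E ⊗[ℚ_[2]] Y) :
    (fun i => Algebra.TensorProduct.map (AlgHom.id E E) s ((D.map (algebraMap E _) *ᵥ z) i)) =
      D.map (algebraMap E _) *ᵥ fun i => Algebra.TensorProduct.map (AlgHom.id E E) s (z i) := by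
  funext i
  simp only [mulVec, dotProduct, map_sum, map_mul, map_apply, AlgHom.commutes]

theorem conj {D M M' : Matrix (Fin n) (Fin n) E} (h : D * M' = M * D) (s : Y →ₐ[ℚ_[2]] Y)
    (z : Fin n → E ⊗[ℚ_[2]] Y) :
    act M s (D.map (algebraMap E _) *ᵥ z) = D.map (algebraMap E _) *ᵥ act M' s z := by
  unfold act
  rw [act_one_mul, mulVec_mulVec, mulVec_mulVec, ← Matrix.map_mul, ← Matrix.map_mul, h]

theorem co_act {ι : Type} (b : Basis ι ℚ_[2] E) (k : ι) (M : Matrix (Fin n) (Fin n) ℚ_[2])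
    (s : Y →ₐ[ℚ_[2]] Y) (z : Fin n → E ⊗[ℚ_[2]] Y) :
    (fun i => co b k (act (M.map (algebraMap ℚ_[2] E)) s z i)) = ac M s fun i => co b k (z i) := by
  funext i
  simp only [act, ac, mulVec, dotProduct, map_sum, map_apply, alg_alg, co_mul, co_map]

theorem act_inc (M : Matrix (Fin n) (Fin n) ℚ_[2]) (s : Y →ₐ[ℚ_[2]] Y) (z : Fin n → Y) :
    act (M.map (algebraMap ℚ_[2] E)) s (fun i => (1 : E) ⊗ₜ z i) = fun i => 1 ⊗ₜ ac M s z i := by
  funext i
  simp only [act, ac, mulVec, dotProduct, map_apply, alg_alg, Algebra.TensorProduct.map_tmul,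
    map_one, Algebra.TensorProduct.tmul_mul_tmul, one_mul, TensorProduct.tmul_sum]

theorem unit_map {A B : Type} [CommRing A] [CommRing B] (f : A →+* B)
    {D : Matrix (Fin n) (Fin n) A} (h : IsUnit D) : IsUnit (D.map f) := h.map f.mapMatrix

theorem inj {A : Type} [CommRing A] {D : Matrix (Fin n) (Fin n) A} (h : IsUnit D)
    {x y : Fin n → A} (e : D *ᵥ x = D *ᵥ y) : x = y := by
  obtain ⟨u, rfl⟩ := h
  have := congrArg ((↑u⁻¹ : Matrix (Fin n) (Fin n) A) *ᵥ ·) e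
  simpa only [mulVec_mulVec, Units.inv_mul, one_mulVec] using this

variable {G U : Type} {ρ : G → Matrix (Fin n) (Fin n) ℚ_[2]} {ρ' : G → Matrix (Fin n) (Fin n) E}
  {D : Matrix (Fin n) (Fin n) E}

theorem fx [FiniteDimensional ℚ_[2] E] (hD : IsUnit D)
    (h : ∀ g, D * ρ' g = (ρ g).map (algebraMap ℚ_[2] E) * D) (S : Set G)
    (hS : ∀ v, (∀ g ∈ S, ρ g *ᵥ v = v) → v = 0) : fdim (ρ' '' S) = 0 := by
  let b := Module.finBasis ℚ_[2] E
  have : {x | ∀ M ∈ ρ' '' S, M *ᵥ x = x} ⊆ {0} := fun x hx => by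
    have e : ∀ k, (fun i => b.repr ((D *ᵥ x) i) k) = 0 := fun k => hS _ fun g hg => by
      have a : (ρ g).map (algebraMap ℚ_[2] E) *ᵥ (D *ᵥ x) = D *ᵥ x := by
        rw [mulVec_mulVec, ← h, ← mulVec_mulVec, hx _ ⟨g, hg, rfl⟩]
      funext i
      conv_rhs => rw [← a]
      generalize D *ᵥ x = y
      simp only [mulVec, dotProduct, map_apply, ← Algebra.smul_def, map_sum, map_smul,
        Finsupp.finsetSum_apply, Finsupp.smul_apply, smul_eq_mul]
    refine inj hD (y := 0) ?_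
    rw [mulVec_zero]
    funext i
    exact b.repr.injective (by ext k; simpa using congrFun (e k) i)
  unfold fdim qdim
  rw [Submodule.span_eq_bot.2 fun x hx => this hx, Submodule.map_bot, finrank_bot]

theorem nf [FiniteDimensional ℚ_[2] E] (hD : IsUnit D)
    (h : ∀ g, D * ρ' g = (ρ g).map (algebraMap ℚ_[2] E) * D) {A : G → U → Prop}
    {B : U → (Y →ₐ[ℚ_[2]] Y) → Prop} {C : (Y →ₐ[ℚ_[2]] Y) → Prop}
    (hN : ∀ z : Fin n → Y, (∀ g u s, A g u → B u s → ac (ρ g) s z = z) →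
      (∀ s, C s → ∀ i, s (z i) = z i) → z = 0)
    (z : Fin n → E ⊗[ℚ_[2]] Y) (h1 : ∀ g u s, A g u → B u s → act (ρ' g) s z = z)
    (h2 : ∀ s, C s → act 1 s z = z) : z = 0 := by
  let b := Module.finBasis ℚ_[2] E
  refine inj (unit_map (algebraMap E _) hD) (y := 0) ?_
  rw [mulVec_zero]
  funext i
  refine co_ext b fun k => ?_
  rw [Pi.zero_apply, map_zero]
  refine congrFun (hN (fun i => co b k ((D.map (algebraMap E _) *ᵥ z) i)) (fun g u s a c => ?_)
    fun s c i => ?_) i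
  · rw [← co_act, conj (h g), h1 g u s a c]
  · have e := conj (D := D) (M := 1) (M' := 1) (by simp) s z
    rw [h2 s c] at e
    have e' := congrFun e i
    unfold act at e'
    rw [Matrix.map_one _ (map_zero _) (map_one _), one_mulVec] at e'
    rw [← co_map, e']

theorem dr (hD : IsUnit D) (h : ∀ g, D * ρ' g = (ρ g).map (algebraMap ℚ_[2] E) * D)
    {A : G → U → Prop} {B : U → (Y →ₐ[ℚ_[2]] Y) → Prop} {χ : G → ℚ_[2]} {w : Fin n → ℤ}
    {P : Matrix (Fin n) (Fin n) Y} (hP : IsUnit P)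
    (H : ∀ g u s, A g u → B u s → ∀ i, ac (ρ g) s (P.col i) = χ g ^ w i • P.col i) :
    ∃ P : Matrix (Fin n) (Fin n) (E ⊗[ℚ_[2]] Y), IsUnit P ∧ ∀ g u s, A g u → B u s →
      ∀ i, act (ρ' g) s (P.col i) = algebraMap ℚ_[2] E (χ g) ^ w i • P.col i := by
  obtain ⟨u, hu⟩ := unit_map (algebraMap E (E ⊗[ℚ_[2]] Y)) hD
  let P' : Matrix (Fin n) (Fin n) (E ⊗[ℚ_[2]] Y) :=
    P.map (Algebra.TensorProduct.includeRight (R := ℚ_[2]) (A := E) (B := Y)).toRingHom
  refine ⟨(u⁻¹).val * P', u⁻¹.isUnit.mul (unit_map _ hP), fun g v s a c i => ?_⟩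
  have e : D.map (algebraMap E _) *ᵥ ((u⁻¹).val * P').col i = fun k => (1 : E) ⊗ₜ P.col i k := by
    change (D.map (algebraMap E _) * ((u⁻¹).val * P')).col i = _
    rw [← hu, Units.mul_inv_cancel_left]
    rfl
  refine inj (unit_map (algebraMap E _) hD) ?_
  rw [← conj (h g), mulVec_smul, e, act_inc, H g v s a c i]
  funext k
  rw [← map_zpow₀, Pi.smul_apply, Pi.smul_apply, algebraMap_smul, TensorProduct.tmul_smul]

end Bas1

theorem bas1 : Bas1St := by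
  intro L _ E _ _ _ n ρ ρ' ⟨D, hD, h⟩
  exact ⟨Bas1.fx hD h, fun j => ⟨fun hN => Bas1.nf hD h hN, fun w ⟨P, hP, H⟩ =>
    Bas1.dr hD h hP H⟩⟩

end Pool.Agent.SY
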