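import Pool.Agent.Lib.MP_b4b3cb_nt.SY.Ts

/-! The primes of split multiplicative reduction come in pairs. -/

namespace Pool.Agent.SY

open NumberField IsDedekindDomain WeierstrassCurve
open Pool.Agent.Lib.MP_02f36d_nt (OV SplitO SSO Nu Intg val_lt_one_iff intg_of_isIntegral
  split_iff exists_ext isAlgClosed_residue frm tom frm_tom isAlg_frm isAlg_tom Δ_smul_ne
  exists_OV_smul nu_OV)

namespace CntA

section

variable {K : Type} [Field K] (O : ValuationSubring K) [IsDiscreteValuationRing O]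

theorem nu_smul (M : WeierstrassCurve K) [M.IsMinimal O] (h0 : M.Δ ≠ 0) (D : VariableChange K)
    (h : Intg O (D • M)) : (Nu O M.c₄ → Nu O (D • M).c₄) ∧ (Nu O M.Δ → Nu O (D • M).Δ) := by
  have hI : (D • M).IsIntegral O := isIntegral_of_exists_lift O ⟨⟨_, h.h1⟩, rfl⟩
    ⟨⟨_, h.h2⟩, rfl⟩ ⟨⟨_, h.h3⟩, rfl⟩ ⟨⟨_, h.h4⟩, rfl⟩ ⟨⟨_, h.h6⟩, rfl⟩
  set v := HeightOneSpectrum.valuation K (IsDiscreteValuationRing.maximalIdeal O) with hv
  have h1 : v (D • M).Δ ≤ v M.Δ := by
    have hm := (IsMinimal.val_Δ_maximal (R := O) (W := M)).2 (j := D) hI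
    simp only [one_smul] at hm
    rw [← valuation_Δ_aux_eq_of_isIntegral, ← valuation_Δ_aux_eq_of_isIntegral]
    exact (le_total _ _).elim id hm
  have h2 : v (D.u⁻¹ : Kˣ) ≤ 1 := by
    rw [variableChange_Δ, map_mul, map_pow] at h1
    have p : 0 < v M.Δ := zero_lt_iff.2 ((_root_.map_ne_zero v).2 h0)
    exact (pow_le_one_iff (n := 12) (by decide)).1 ((mul_le_iff_le_one_left p).1 h1)
  rw [← val_lt_one_iff O _ (integralModel_c₄_eq O M), ← val_lt_one_iff O _ (integralModel_Δ_eq O M),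
    ← val_lt_one_iff O _ (integralModel_c₄_eq O (D • M)),
    ← val_lt_one_iff O _ (integralModel_Δ_eq O (D • M)), variableChange_Δ, variableChange_c₄,
    map_mul, map_mul, map_pow, map_pow]
  exact ⟨fun e => (mul_le_of_le_one_left' (pow_le_one' h2 _)).trans_lt e,
    fun e => (mul_le_of_le_one_left' (pow_le_one' h2 _)).trans_lt e⟩

theorem split_min (M : WeierstrassCurve K) [M.IsMinimal O] (h0 : M.Δ ≠ 0) (D : VariableChange K)
    (h : SplitO O (D • M)) : SplitO O M := by
  classical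
  have hs : SSO O M := ⟨intg_of_isIntegral O M, Or.inl fun e => h.2.2.1 ((nu_smul O M h0 D h.1).1 e)⟩
  obtain ⟨A, p₀, p, rfl, E⟩ := exists_ext (L := AlgebraicClosure K) O
  have := isAlgClosed_residue A
  refine E.split (Δ_smul_ne h0 D) h0 h hs
    (φ := frm (algebraMap K (AlgebraicClosure K)) h0 D (1 : K ≃ₐ[K] K))
    (Φ := tom (algebraMap K (AlgebraicClosure K)) h0 D (1 : K ≃ₐ[K] K)) (isAlg_frm h0 D _)
    (isAlg_tom h0 D _) (N := 1) (M := 1) one_ne_zero fun P => ?_
  exact congrArg _ (frm_tom (ι := algebraMap K (AlgebraicClosure K)) h0 D (1 : K ≃ₐ[K] K) P)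

end

variable {L : Type} [Field L] [NumberField L] {W : WeierstrassCurve ℤ}

theorem del (w : HeightOneSpectrum (𝓞 L)) (h0 : W.Δ ≠ 0) :
    ((W.baseChange L).minimal (OV w)).Δ ≠ 0 :=
  Δ_smul_ne (by rw [baseChange, map_Δ]; exact Int.cast_ne_zero.2 h0) _

theorem spm_mem (h0 : W.Δ ≠ 0) {w : HeightOneSpectrum (𝓞 L)} (h : Spm W w) :
    (W.Δ : 𝓞 L) ∈ w.asIdeal := by
  have e : ((W.baseChange L).exists_isMinimal (OV w)).choose⁻¹ •
      (W.baseChange L).minimal (OV w) = W.baseChange L := inv_smul_smul _ _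
  have i : Intg (OV w) (W.baseChange L) := ⟨intCast_mem _ _, intCast_mem _ _,
    intCast_mem _ _, intCast_mem _ _, intCast_mem _ _⟩
  rw [← e] at i
  have := (nu_smul (OV w) _ (del w h0) _ i).2 ((split_iff _ _).1 h).2.1
  rw [e, baseChange, map_Δ] at this
  exact (nu_OV w _).1 this

theorem spm_conj (h0 : W.Δ ≠ 0) (g : L ≃+* L) {w w' : HeightOneSpectrum (𝓞 L)}
    (hg : ∀ x, x ∈ OV w ↔ g x ∈ OV w') (h : Spm W w) : Spm W w' := by
  have s := ((split_iff _ _).1 h).map (g := (g : L →+* L)) hg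
  refine (split_iff _ _).2 (split_min _ _ (del w' h0)
    (((W.baseChange L).exists_isMinimal (OV w)).choose.map (g : L →+* L) *
      ((W.baseChange L).exists_isMinimal (OV w')).choose⁻¹) ?_)
  rw [minimal, ← map_variableChange, show (W.baseChange L).map (g : L →+* L) = W.baseChange L from
    cv_map W _] at s
  rwa [minimal, mul_smul, inv_smul_smul]

end CntA

theorem cnt : CntSt := by
  intro L _ _ _ W h0
  classical
  have fin : {w : HeightOneSpectrum (𝓞 L) | Spm W w}.Finite :=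
    (Ideal.finite_factors (I := Ideal.span {(W.Δ : 𝓞 L)}) (by simpa using h0)).subset
      fun w hw => Ideal.dvd_span_singleton.2 (CntA.spm_mem h0 hw)
  refine ⟨fin, ?_⟩
  choose σ hσ using exists_OV_smul (IsCMField.complexConj L).toRingEquiv
  have cc : ∀ x, (IsCMField.complexConj L).toRingEquiv ((IsCMField.complexConj L).toRingEquiv x) = x :=
    IsCMField.complexConj_apply_apply L
  have inv : ∀ w, σ (σ w) = w := fun w => Lib.MP_02f36d_nt.OV_injective (by
    ext x
    rw [hσ w, hσ (σ w), cc])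
  have fx : ∀ w, Fxd w ↔ σ w = w := fun w => by
    have : w.asIdeal.map (IsCMField.ringOfIntegersComplexConj L) = (σ w).asIdeal := by
      ext x
      obtain ⟨y, rfl⟩ := (IsCMField.ringOfIntegersComplexConj L).surjective x
      refine (Ideal.apply_mem_of_equiv_iff
        (f := (IsCMField.ringOfIntegersComplexConj L).toRingEquiv)).trans ?_
      rw [← nu_OV, ← nu_OV]
      exact (Lib.MP_02f36d_nt.Nu.map_iff
        (g := ((IsCMField.complexConj L).toRingEquiv : L →+* L)) (hσ w)).symm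
    rw [Fxd, this, HeightOneSpectrum.ext_iff]
  have f2 : {w : HeightOneSpectrum (𝓞 L) | Spm W w ∧ ¬Fxd w}.Finite := fin.subset fun w hw => hw.1
  rw [Set.ncard_eq_toFinset_card _ f2, ← ZMod.natCast_eq_zero_iff_even, Finset.card_eq_sum_ones,
    Nat.cast_sum]
  refine Finset.sum_involution (fun w _ => σ w) (fun _ _ => by decide)
    (fun w hw _ e => (f2.mem_toFinset.1 hw).2 ((fx w).2 e)) (fun w hw => ?_) fun w _ => inv w
  have := f2.mem_toFinset.1 hw
  exact f2.mem_toFinset.2 ⟨CntA.spm_conj h0 _ (hσ w) this.1, fun e =>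
    this.2 ((fx w).2 (((fx _).1 e).symm.trans (inv w)))⟩

end Pool.Agent.SY
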