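import Pool.Agent.Lib.MP_b4b3cb_nt.SY.Stmt
import Pool.Agent.Lib.MP_b4b3cb_nt.HF.Defs
import Pool.Agent.Lib.MP_02f36d_nt.Glob

/-! Auxiliary definitions for the symmetric powers of the Tate module. -/

namespace Pool.Agent.SY

open NumberField IsDedekindDomain Matrix WeierstrassCurve Pool.Agent.SelTwo Pool.Agent.HF
open Pool.Agent.Lib.MP_02f36d_nt (Place Sp ptMap OV)

/-- The standard lattice. -/
abbrev Z2 : Type := Fin 2 → ℤ_[2]

/-- Matrices of size two. -/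
abbrev M2 (R : Type) : Type := Matrix (Fin 2) (Fin 2) R

/-- The matrix over the field. -/
noncomputable def tq (A : M2 ℤ_[2]) : M2 ℚ_[2] := A.map (↑)

section

variable {A : Type} [AddCommGroup A] (e : Z2 →+ ℕ → A)

/-- `e` embeds the lattice in the Tate module, with saturated image. -/
structure TW : Prop where
  two : ∀ x n, 2 • e x (n + 1) = e x n
  ker : ∀ x n, e x n = 0 ↔ ∀ i, 2 ^ n ∣ x i

/-- `e` is a basis of the Tate module. -/
structure TS : Prop extends TW e where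
  all : ∀ Q : ℕ → A, Q 0 = 0 → (∀ n, 2 • Q (n + 1) = Q n) → ∃ x, e x = Q

/-- `M` is the matrix of `f`. -/
def Mt (f : A → A) (M : M2 ℤ_[2]) : Prop := ∀ x n, e (M *ᵥ x) n = f (e x n)

end

/-- The curve over a field. -/
abbrev cv (W : WeierstrassCurve ℤ) (F : Type) [Field F] : Affine F := (W.baseChange F).toAffine

theorem cv_map (W : WeierstrassCurve ℤ) {F F' : Type} [Field F] [Field F'] (σ : F →+* F') :
    (cv W F).map σ = cv W F' :=
  (WeierstrassCurve.map_map _ _ _).trans (congrArg W.map (RingHom.ext_int _ _))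

/-- The map on points induced by a homomorphism of fields. -/
noncomputable def gm (W : WeierstrassCurve ℤ) {F F' : Type} [Field F] [Field F'] [DecidableEq F]
    [DecidableEq F'] (σ : F →+* F') : (cv W F).Point →+ (cv W F').Point := ptMap σ (cv_map W σ)

/-- `σ` induces `φ` on the residue field. -/
def Cp {Ω k : Type} [Field Ω] [Field k] (p : Place Ω k) (σ : Ω →+* Ω) (φ : k →+* k) : Prop :=
  ∀ x c, Sp p x c → Sp p (σ x) (φ c)

/-- The invariant form on the symmetric power. -/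
def Jm (R : Type) [Field R] (m : ℕ) : Matrix (Fin (m + 1)) (Fin (m + 1)) R := fun i j =>
  if (i : ℕ) + j = m then (-1) ^ (i : ℕ) / (m.choose i : R) else 0

/-- `ρ'` is conjugate to the extension of scalars of `ρ`. -/
def Eqv {G E : Type} [Group G] [Field E] [Algebra ℚ_[2] E] {n : ℕ}
    (ρ : G →* Matrix (Fin n) (Fin n) ℚ_[2]) (ρ' : G →* Matrix (Fin n) (Fin n) E) : Prop :=
  ∃ D, IsUnit D ∧ ∀ g, D * ρ' g = (ρ g).map (algebraMap ℚ_[2] E) * D

/-- A pure element, or a unipotent element and a Frobenius element that fix a line. -/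
def Pu {G : Type} (t : G → M2 ℤ_[2]) (D : Set G) : Prop :=
  (∃ g ∈ D, ∃ (a : ℤ) (q : ℕ), 1 < q ∧ a ^ 2 ≤ 4 * q ∧ (t g).det = q ∧ (t g).trace = a) ∨
    ∃ x : Z2, x ≠ 0 ∧ (∃ g ∈ D, t g ≠ 1 ∧ (t g).det = 1 ∧ t g *ᵥ x = x) ∧
      ∃ g ∈ D, ∃ (q : ℕ) (δ : ℤ), 1 < q ∧ (δ = 1 ∨ δ = -1) ∧ (t g).det = q ∧
        t g *ᵥ x = (δ * q : ℤ_[2]) • x

section

variable {L : Type} [Field L]

/-- `σ` acts as the `n`-th power modulo `𝔓`. -/
def Fb (𝔓 : Idl L) (n : ℕ) (σ : AlgebraicClosure L →+* AlgebraicClosure L) : Prop :=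
  ∀ x y : 𝓞 (AlgebraicClosure L), (y : AlgebraicClosure L) = σ x → y - x ^ n ∈ 𝔓

variable [NumberField L]

/-- `p` is the place of `𝔓`. -/
structure IsPl (𝔓 : Idl L) {k : Type} [Field k] (p : Place (AlgebraicClosure L) k) : Prop where
  sur : Function.Surjective p.ρ
  int : ∀ x : 𝓞 (AlgebraicClosure L), ∃ c, Sp p x c ∧ (c = 0 ↔ x ∈ 𝔓)
  fr : ∀ σ n, 0 < n → Fb 𝔓 n σ → ∃ φ : k →+* k, (∀ c, φ c = c ^ n) ∧ Cp p σ φ
  ov : ∀ w : HeightOneSpectrum (𝓞 L), 𝔓.under _ = w.asIdeal →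
    ∀ x : L, algebraMap L (AlgebraicClosure L) x ∈ p.A ↔ x ∈ OV w
  fix : ∀ c, c ^ nq 𝔓 = c ↔ ∃ x : 𝓞 L, Sp p (algebraMap L _ x) c

/-- Multiplicative type with sign `δ`. -/
def LM (t : Gal L → M2 ℤ_[2]) (𝔓 : Idl L) (δ : ℤ) : Prop :=
  ∃ x : Z2, x ≠ 0 ∧ (∀ g ∈ Ine 𝔓, t g *ᵥ x = x) ∧ (∃ g ∈ Ine 𝔓, t g ≠ 1) ∧
    ∀ σ : Gal L, (∀ y, σ • y - y ^ nq 𝔓 ∈ 𝔓) → t σ *ᵥ x = (δ * nq 𝔓 : ℤ_[2]) • x

/-- Additive reduction. -/
def Adv (W : WeierstrassCurve ℤ) (w : HeightOneSpectrum (𝓞 L)) : Prop :=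
  ((W.baseChange L).minimal (OV w)).HasAdditiveReduction (OV w)

/-- Split multiplicative reduction. -/
def Spm (W : WeierstrassCurve ℤ) (w : HeightOneSpectrum (𝓞 L)) : Prop :=
  ((W.baseChange L).minimal (OV w)).HasSplitMultiplicativeReduction (OV w)

/-- The prime is fixed by complex conjugation. -/
def Fxd [IsCMField L] (w : HeightOneSpectrum (𝓞 L)) : Prop :=
  w.asIdeal.map (IsCMField.ringOfIntegersComplexConj L) = w.asIdeal

omit [NumberField L]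

variable (j : AlgebraicClosure L →+* ℂ_[2]) {n : ℕ} (ρ : Gal L →* Matrix (Fin n) (Fin n) ℚ_[2])

/-- `NoFix` without the tensor product. -/
def Nf0 : Prop :=
  ∀ z : Fin n → Bc, (∀ g u s, Gw j g u → Ex Ac u s → ac (ρ g) s z = z) →
    (∀ s : Bc →ₐ[ℚ_[2]] Bc, Ex Ac fr s → ∀ i, s (z i) = z i) → z = 0

/-- `DeRham` without the tensor product. -/
def Dr0 (h : Fin n → ℤ) : Prop :=
  ∃ P : Matrix (Fin n) (Fin n) Bd, IsUnit P ∧ ∀ g u s, Gw j g u → Ex Ai u s →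
    ∀ i, ac (ρ g) s (P.col i) = cyc ℚ_[2] g ^ h i • P.col i

end

/-- The automorphism preserves the absolute value. -/
def Iso (σ : RingAut ℂ_[2]) : Prop := ∀ x, ‖σ x‖ = ‖x‖

/-- `d` is the value at `σ` of the unramified character that sends the Frobenius to `u`. -/
def Ap (σ : RingAut ℂ_[2]) (u d : ℤ_[2]) : Prop :=
  ∀ n, ∃ N, 0 < N ∧ ∀ r : ℕ, (∀ c : ℂ_[2], ‖c ^ 2 ^ N - c‖ < 1 → ‖σ c - c ^ 2 ^ r‖ < 1) →
    2 ^ n ∣ d - u ^ r

section

variable {G : Type} [Group G] [TopologicalSpace G] {χ : G →* ℚ_[2]}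

variable (χ) in
/-- The cocycles of a character other than `χ` form a space of dimension at most two. -/
def H1 : Prop :=
  ∀ η : G →* ℚ_[2], Continuous η → η ≠ χ → ∀ x : Fin 3 → G → ℚ_[2],
    (∀ i, Continuous (x i) ∧ ∀ g h, x i (g * h) = x i g + η g * x i h) →
    ¬LinearIndependent ℚ_[2] x

/-- The period data come from the period rings. -/
structure PT (X : PD G ℚ_[2] χ Bp Bd Bc) (a : G →* RingAut ℂ_[2]) : Prop where
  ex : ∀ g u, Lf (a g) u → Ex Ac u (X.gC g) ∧ Ex Ai u (X.gD g)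
  fc : Ex Ac fr X.fC
  gb : ∀ g u (r : Ac →+* Ac), Lf (a g) u → Ov u r → ∀ x,
    X.gB g (algebraMap Ac Bp x) = algebraMap Ac Bp (r x)
  fb : ∀ r : Ac →+* Ac, Ov fr r → ∀ x, X.fB (algebraMap Ac Bp x) = algebraMap Ac Bp (r x)
  inj : Function.Injective X.β
  th : ∃ f : Bd →+* ℂ_[2], (∀ y, f y = 0 ↔ X.β X.t ∣ y) ∧ (∀ y, f y ≠ 0 → IsUnit y) ∧
    (∀ g y, f (X.gD g y) = a g (f y)) ∧ ∀ f' : Ac →+* OC,
      (∀ x, f' (algebraMap Ai Ac x) = th x) → ∀ x, f (X.β (algebraMap Ac Bp x)) = f' x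
  sep : ∀ y, (∀ N : ℕ, X.β X.t ^ N ∣ y) → y = 0

variable {B D C : Type} [CommRing B] [Algebra ℚ_[2] B] [CommRing D] [Algebra ℚ_[2] D] [CommRing C]
  [Algebra ℚ_[2] C] (X : PD G ℚ_[2] χ B D C)

/-- The invariants of the period rings. -/
structure TT : Prop where
  td : ∀ (r : ℕ) (y : D), (∀ g, X.gD g y = χ g ^ r • y) → ∃ c : ℚ_[2], y = c • X.β X.t ^ r
  tc : ∀ y : C, (∀ g, X.gC g y = y) → ∃ c : ℚ_[2], y = algebraMap _ C c

/-- The periods of a crystalline representation of dimension two with weights `1, 0`, whose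
Frobenius has determinant `2` and trace `a`. -/
def Per (t : G → M2 ℚ_[2]) (a : ℤ) : Prop :=
  (∃ (Q : M2 C) (N : M2 ℚ_[2]), IsUnit Q ∧
    (∀ g, (t g).map (algebraMap _ C) * Q.map (X.gC g) = Q) ∧
    Q.map X.fC * N.map (algebraMap _ C) = Q ∧ N.det = 2 ∧ N.trace = a) ∧
  ∃ P : M2 D, IsUnit P ∧ ∀ g, (t g).map (algebraMap _ D) * P.map (X.gD g) =
    P * diagonal ![algebraMap _ D (χ g), 1]

end

end Pool.Agent.SY
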