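import Pool.Agent.Lib.MP_b4b3cb_nt.SY.Ts
import Pool.Agent.Lib.MP_b4b3cb_nt.Par.Glo

/-! The determinant of the Tate module and the complex conjugation. -/

namespace Pool.Agent.SY

open NumberField Matrix WeierstrassCurve Pool.Agent.SelTwo Filter
open Pool.Agent.Lib.MP_02f36d_nt (xc yc)
open scoped Classical Topology

namespace DetA

variable {K Ω : Type} [Field K] [Field Ω] [Algebra K Ω] {W : WeierstrassCurve ℤ}
  {e : Z2 →+ ℕ → (cv W Ω).Point} {T : (Ω ≃ₐ[K] Ω) → M2 ℤ_[2]}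

theorem gm_congr {σ τ : Ω →+* Ω} {P : (cv W Ω).Point} (hx : σ (xc P) = τ (xc P))
    (hy : σ (yc P) = τ (yc P)) : gm W σ P = gm W τ P := by
  cases P with
  | zero => rfl
  | some x y h => exact (Affine.Point.some.injEq ..).mpr ⟨hx, hy⟩

theorem mul (he : TW e) (hT : ∀ g : Ω ≃ₐ[K] Ω, Mt e (gm W (g : Ω →+* Ω)) (T g))
    (g h : Ω ≃ₐ[K] Ω) : T (g * h) = T g * T h :=
  he.uniq (hT _) (((hT g).mul (hT h)).congr fun P => gm_gm _ _ P)

theorem one (he : TW e) (hT : ∀ g : Ω ≃ₐ[K] Ω, Mt e (gm W (g : Ω →+* Ω)) (T g)) : T 1 = 1 :=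
  he.uniq (hT _) (Mt.one.congr fun P => (gm_id P).symm)

theorem cont (hTop : SC.TopSt K Ω) (he : TW e)
    (hT : ∀ g : Ω ≃ₐ[K] Ω, Mt e (gm W (g : Ω →+* Ω)) (T g)) : Continuous T := by
  have lc : ∀ (x : Ω) (g₀ : Ω ≃ₐ[K] Ω), ∀ᶠ g in 𝓝 g₀, g x = g₀ x := fun x g₀ => by
    have := hTop.lc_app (D := Set.univ) (φ := id) (f := fun _ => x) continuousOn_id
      (fun _ _ => Eventually.of_forall fun _ => rfl) g₀ trivial
    rwa [nhdsWithin_univ] at this
  refine continuous_matrix fun i j => continuous_iff_continuousAt.2 fun g₀ =>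
    Metric.tendsto_nhds.2 fun ε hε => ?_
  obtain ⟨n, hn⟩ := PadicInt.exists_pow_neg_lt 2 hε
  filter_upwards [lc (xc (e (Pi.single j 1) n)) g₀, lc (yc (e (Pi.single j 1) n)) g₀] with g a b
  have h := he.cong.1 ((hT g _ n).trans ((gm_congr a b).trans (hT g₀ _ n).symm)) i
  rw [mulVec_single_one, mulVec_single_one] at h
  rw [dist_eq_norm]
  exact ((PadicInt.norm_le_pow_iff_mem_span_pow _ n).2 (Ideal.mem_span_singleton.2 h)).trans_lt hn

end DetA

namespace DetA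

variable {K L : Type} [Field K] [NumberField K] [Field L] [NumberField L]
  [Algebra K (AlgebraicClosure L)] [IsGalois K (AlgebraicClosure L)] {W : WeierstrassCurve ℤ}
  {e : Z2 →+ ℕ → (cv W (AlgebraicClosure L)).Point}
  {T : (AlgebraicClosure L ≃ₐ[K] AlgebraicClosure L) → M2 ℤ_[2]}

theorem det_eq (h1 : L1St) (hW : W.Δ ≠ 0) (he : TW e)
    (hT : ∀ g : AlgebraicClosure L ≃ₐ[K] AlgebraicClosure L, Mt e (gm W (g : _ →+* _)) (T g))
    (g : AlgebraicClosure L ≃ₐ[K] AlgebraicClosure L) :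
    (T g).det = (SC.cyc K (AlgebraicClosure L) g : ℤ_[2]) := by
  have F := SP.facts K (AlgebraicClosure L)
  have c := cont F.top he hT
  let u : (AlgebraicClosure L ≃ₐ[K] AlgebraicClosure L) → ℤ_[2]ˣ := fun g =>
    ⟨(T g).det, (T g⁻¹).det, by rw [← det_mul, ← mul he hT, mul_inv_cancel, one he hT, det_one],
      by rw [← det_mul, ← mul he hT, inv_mul_cancel, one he hT, det_one]⟩
  have cu : Continuous u :=
    Units.continuous_iff.2 ⟨c.matrix_det, (c.comp continuous_inv).matrix_det⟩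
  have mu : ∀ g h, u (g * h) = u g * u h := fun g h =>
    Units.ext (by show (T (g * h)).det = (T g).det * (T h).det; rw [mul he hT, det_mul])
  have n0 : (2 * W.Δ : 𝓞 (AlgebraicClosure L)) ≠ 0 :=
    mul_ne_zero two_ne_zero (Int.cast_ne_zero.2 hW)
  have := SC.st_Cheb F.top F.kum F.fr F.ine F.pr K
    (fun g => u g * (SC.cyc K (AlgebraicClosure L) g)⁻¹)
    (SC.FinAux.fin_mem (K := K) _ n0).toFinset (cu.mul (SC.st_Cyc).1.inv).continuousOn
    (fun g _ h _ => by rw [mu, map_mul, mul_inv, mul_mul_mul_comm])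
    (fun 𝔓 q hq ov g _ fr => ?_) g g.commutes
  · exact congrArg Units.val (mul_inv_eq_one.1 this)
  have a : (2 * W.Δ : 𝓞 (AlgebraicClosure L)) ∉ 𝔓 := fun m =>
    hq ((Set.Finite.mem_toFinset _).2 ⟨𝔓, ov, m⟩)
  have a2 : (2 : 𝓞 (AlgebraicClosure L)) ∉ 𝔓 := fun m => a (Ideal.mul_mem_right _ _ m)
  have lt := NumberField.HeightOneSpectrum.one_lt_absNorm q
  obtain ⟨_, -, d, -⟩ := (h1 L W e he 𝔓 ov.1 a2 (fun m => a (Ideal.mul_mem_left _ _ m)) g _ (T g)
    (one_pos.trans lt) (fun x y p => by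
      rw [show y = g • x from RingOfIntegers.ext (p.trans (F.pr.coe_smul g x).symm)]
      exact fr x) (hT g)).2 lt
  exact mul_inv_eq_one.2 (Units.ext (d.trans (F.fr.cyc_fr ov.1 a2 fr).symm))

end DetA

theorem det (h1 : L1St) : DetSt := by
  intro L _ _ _ W hW e he t ht
  refine ⟨DetA.cont (SP.facts L _).top he.toTW ht,
    fun g => (tq_det _).trans (congrArg _ (DetA.det_eq h1 hW he.toTW ht g)), ?_⟩
  have : Algebra.IsAlgebraic ℚ (AlgebraicClosure L) := Algebra.IsAlgebraic.trans _ L _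
  have : IsAlgClosure ℚ (AlgebraicClosure L) := ⟨inferInstance, this⟩
  have F := SP.facts ℚ (AlgebraicClosure L)
  choose T hT using fun g : AlgebraicClosure L ≃ₐ[ℚ] AlgebraicClosure L =>
    he.mat (gm W (g : _ →+* _))
  obtain ⟨j, c, -, -, hc⟩ := F.cj.ex ℚ (Rat.castHom ℝ)
  have cc : c * c = 1 := (F.cj.sq hc).1
  have c2 : ∀ x, c (c x) = x := fun x => AlgEquiv.congr_fun cc x
  have cl : ∀ x : L, c (algebraMap L _ x) = algebraMap L _ (IsCMField.complexConj L x) :=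
    fun x => j.injective ((hc _).trans
      (IsCMField.complexEmbedding_complexConj L (j.comp (algebraMap L _)) x).symm)
  let cj : Gal L → Gal L := fun g => AlgEquiv.ofRingEquiv
    (f := (c.toRingEquiv.trans g.toRingEquiv).trans c.toRingEquiv) fun x => by
      show c (g (c _)) = _
      rw [cl, g.commutes, ← cl, c2]
  refine ⟨cj, T c, ⟨j, c.toRingEquiv, hc, fun _ _ => rfl⟩, ?_, ?_, fun g => ?_⟩
  · rw [← DetA.mul he.toTW hT, cc, DetA.one he.toTW hT]
  · rw [DetA.det_eq h1 hW he.toTW hT, F.fr.cyc_cj hc]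
    rfl
  · refine he.toTW.uniq (ht _) ((((hT c).mul (ht g)).mul (hT c)).congr fun P => ?_)
    simp only [Function.comp, gm_gm]
    rfl

end Pool.Agent.SY
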