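import Pool.Agent.Lib.MP_b4b3cb_nt.SY.St4
import Pool.Agent.Lib.MP_b4b3cb_nt.SY.Den
import Pool.Agent.Lib.MP_b4b3cb_nt.SY.Ns
import Pool.Agent.Lib.MP_b4b3cb_nt.SY.Eig

/-! The determinant of a symmetric power, and unramified characters at inert primes. -/

namespace Pool.Agent.SY

open scoped Classical Pointwise
open NumberField Matrix Pool.Agent.Stark Pool.Agent.EP Pool.Agent.SymTwo
open Pool.Agent.SP (IG facts glK cycE cycE_apply exIG)
open Pool.Agent.SC (Over IsFr Gs Cj)

namespace DsA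

theorem sum_id (m : ℕ) : ∑ i : Fin (m + 1), (i : ℕ) = m * (m + 1) / 2 := by
  rw [Fin.sum_univ_eq_sum_range (fun i => i), Finset.sum_range_id, Nat.add_sub_cancel, mul_comm]

theorem sum_rev (m : ℕ) : ∑ i : Fin (m + 1), (m - i : ℕ) = m * (m + 1) / 2 := by
  rw [Fin.sum_univ_eq_sum_range (fun i => m - i), ← sum_id, Fin.sum_univ_eq_sum_range (fun i => i),
    ← Finset.sum_range_reflect (fun i => i), Nat.add_sub_cancel]

theorem closed (h : SymSt) {R : Type} [Field R] [IsAlgClosed R] (m : ℕ) (A : M2 R) :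
    (sym m A).det = A.det ^ (m * (m + 1) / 2) := by
  obtain ⟨P, α, b, β, u, e, -, d⟩ := EigA.tri A
  obtain ⟨Q, a, -⟩ := isUnit_iff_exists.1 u
  have p0 : (sym m P).det ≠ 0 := fun z => by
    have := congrArg (fun B => (sym m B).det) a
    simp only [h.mul, h.one, det_mul, z, zero_mul, det_one] at this
    exact zero_ne_one this
  have e2 := congrArg (fun B => (sym m B).det) e
  simp only [h.mul, det_mul] at e2
  obtain ⟨t1, t2⟩ := h.tri m !![α, b; 0, β] rfl
  rw [mul_right_cancel₀ p0 (e2.trans (mul_comm _ _)),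
    det_of_isUpperTriangular (fun i j hij => t1 i j hij), ← d, mul_pow]
  simp only [t2]
  rw [Finset.prod_mul_distrib, Finset.prod_pow_eq_pow_sum, Finset.prod_pow_eq_pow_sum, sum_id,
    sum_rev]
  rfl

end DsA

theorem ds (h : SymSt) : DsSt := fun E _ m A => by
  let f := algebraMap E (AlgebraicClosure E)
  apply f.injective
  have := DsA.closed h m (A.map f)
  rw [h.map, ← RingHom.mapMatrix_apply, ← RingHom.mapMatrix_apply, ← RingHom.map_det,
    ← RingHom.map_det] at this
  rw [this, map_pow]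

open NsA SelTwo in
theorem nsI : NsISt := by
  intro L _ _ _ E _ _ κ cj hcj hκ 𝔓 h h2 hn hr hI
  obtain ⟨d, R, hd⟩ := SC.exists_quad_cm L
  have : Algebra.IsAlgebraic (maximalRealSubfield L) (AlgebraicClosure L) :=
    Algebra.IsAlgebraic.trans _ L _
  have : IsAlgClosure (maximalRealSubfield L) (AlgebraicClosure L) := ⟨inferInstance, this⟩
  have F := facts (maximalRealSubfield L) (AlgebraicClosure L)
  have F' := facts L (AlgebraicClosure L)
  obtain ⟨j, c', hc', hcj⟩ := hcj
  let s' : Gal(AlgebraicClosure L/maximalRealSubfield L) := AlgEquiv.ofRingEquiv (f := c') fun x =>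
    j.injective ((hc' _).trans (x.2 (j.comp (algebraMap L _))))
  have hre : s' ∉ Gs (maximalRealSubfield L) (AlgebraicClosure L) L := fun hg => by
    have a := IsCMField.complexEmbedding_complexConj L (j.comp (algebraMap L _)) R.rt
    have b : j (s' _) = _ := hc' (algebraMap L _ R.rt)
    rw [hg R.rt] at b
    rw [← hd, R.tau_rt, map_neg, RingHom.comp_apply, ← b] at a
    exact SC.GlAux.ne R ((map_eq_zero j).1 (by linear_combination (-1 / 2 : ℂ) * a))
  obtain ⟨J, hι, hJ, hH, hc⟩ := exIG R (F.cj.sq (g := s') hc').1 hre cj hcj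
  have co := fun γ (hγ : γ ∉ Gs (maximalRealSubfield L) (AlgebraicClosure L) L) =>
    core J (χ := cycE E _ _) (κ := κ) (w := 0) (fun g => by rw [hc, hκ.dual, zpow_zero, zpow_zero])
      (by rw [hJ, cycE_apply, F.fr.cyc_cj (g := s') hc']; simp) (hH ▸ hγ)
  obtain ⟨v, hv⟩ := F'.pr.under L 𝔓 h
  have ev : 𝔓.under (𝓞 L) = v.asIdeal := Ideal.ext fun x => (hv.2 x).symm
  have sg : R.sg = (IsCMField.ringOfIntegersComplexConj L).toRingEquiv := by
    ext x
    exact congrArg (fun f => f (x : L)) hd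
  have ac : R.act v = v := IsDedekindDomain.HeightOneSpectrum.ext (by
    rw [(SC.st_Qd SC.st_Cn).act_ideal, sg, ← ev]
    exact hn)
  have e1 : eI (maximalRealSubfield L) v = 1 := by
    by_contra e
    exact hr (by rw [Ram, ev]; exact e)
  have b := F.pr.below (F := maximalRealSubfield L) hv
  have o := (F.pr.two b).1 h2
  have nm : Ideal.absNorm v.asIdeal =
      Ideal.absNorm (below (maximalRealSubfield L) v).asIdeal ^ 2 := by
    rcases R.efg v with f | f | f
    exacts [(f.1 ac).elim, f.2.2, absurd (e1.symm.trans f.2.1) (by decide)]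
  have ed : Even (og (below (maximalRealSubfield L) v) d) :=
    Int.not_odd_iff_even.1 fun od => absurd (e1.symm.trans ((SC.QdAux.ram R v o).2 od)) (by decide)
  obtain ⟨γ, g1, g2⟩ := F.fr.ex b
  have g3 : γ ∉ Gs (maximalRealSubfield L) (AlgebraicClosure L) L := fun a =>
    (R.split_iff v).2 ((F.ine.leg b o R.a_ne (glK.sq R).2 ed γ g1 g2).1
      ((SC.GlAux.iff R _).1 a)) ac
  obtain ⟨-, t, ht, kt⟩ := co γ g3
  have g4 := F.fr.pow h (Nat.ne_zero_of_lt (Den.one_lt _)) g2 2
  rw [← nm, ← nq_eq hv, pow_two, ← ht] at g4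
  exact ((den L 𝔓 h).2.2.2 t (fb_iff.2 fun y => SP.i_smul hι t y ▸ g4 y)).2.2 E κ hκ.ct hI
    (kt.trans (zpow_zero _))

end Pool.Agent.SY
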