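import Pool.Agent.Lib.MP_b4b3cb_nt.SY.St3
import Pool.Agent.Lib.MP_b4b3cb_nt.SY.Bas1

/-! The field of coefficients, and the change of the basis. -/

namespace Pool.Agent.SY

open Matrix Module Pool.Agent.SelTwo Pool.Agent.HF Cardinal
open scoped TensorProduct

namespace EFE

theorem card : #(AlgebraicClosure ℚ_[2]) = #ℂ := by
  have a : #ℚ_[2] ≤ 𝔠 := (mk_quotient_le (s := CauSeq.equiv (abv := padicNorm 2))).trans
    ((mk_subtype_le _).trans (by simp))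
  rw [mk_complex]
  exact le_antisymm ((Algebra.IsAlgebraic.cardinalMk_le_max ℚ_[2] _).trans
    (max_le a aleph0_le_continuum)) ((continuum_le_cardinal_of_nontriviallyNormedField ℚ_[2]).trans
      (mk_le_of_injective (algebraMap ℚ_[2] _).injective))

theorem emb : Nonempty (AlgebraicClosure ℚ_[2] ≃+* ℂ) :=
  IsAlgClosed.ringEquiv_of_equiv_of_charZero (by rw [card, mk_complex]; exact aleph0_lt_continuum)
    (Cardinal.eq.1 card)

variable {E : Type} [NontriviallyNormedField E] [NormedAlgebra ℚ_[2] E] {n : ℕ} {Y : Type}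
  [CommRing Y] [Algebra ℚ_[2] Y] {G U : Type} {ρ ρ' : G → Matrix (Fin n) (Fin n) E}
  {D : Matrix (Fin n) (Fin n) E}

omit [NormedAlgebra ℚ_[2] E] in
theorem fx (hD : IsUnit D) (h : ∀ g, D * ρ' g = ρ g * D) (S : Set G)
    (hS : ∀ v, (∀ g ∈ S, ρ g *ᵥ v = v) → v = 0) : fdim (ρ' '' S) = 0 := by
  have : {x | ∀ M ∈ ρ' '' S, M *ᵥ x = x} ⊆ {0} := fun x hx => by
    refine Bas1.inj hD (y := 0) ?_
    rw [mulVec_zero]
    exact hS _ fun g hg => by rw [mulVec_mulVec, ← h, ← mulVec_mulVec, hx _ ⟨g, hg, rfl⟩]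
  unfold fdim qdim
  rw [Submodule.span_eq_bot.2 fun x hx => this hx, Submodule.map_bot, finrank_bot]

theorem nf (hD : IsUnit D) (h : ∀ g, D * ρ' g = ρ g * D) {A : G → U → Prop}
    {B : U → (Y →ₐ[ℚ_[2]] Y) → Prop} {C : (Y →ₐ[ℚ_[2]] Y) → Prop}
    (hN : ∀ z : Fin n → E ⊗[ℚ_[2]] Y, (∀ g u s, A g u → B u s → act (ρ g) s z = z) →
      (∀ s, C s → act 1 s z = z) → z = 0)
    (z : Fin n → E ⊗[ℚ_[2]] Y) (h1 : ∀ g u s, A g u → B u s → act (ρ' g) s z = z)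
    (h2 : ∀ s, C s → act 1 s z = z) : z = 0 := by
  refine Bas1.inj (Bas1.unit_map (algebraMap E _) hD) (y := 0) ?_
  rw [mulVec_zero]
  refine hN _ (fun g u s a c => ?_) fun s c => ?_
  · rw [Bas1.conj (h g), h1 g u s a c]
  · rw [Bas1.conj (M' := 1) (by simp), h2 s c]

theorem dr (hD : IsUnit D) (h : ∀ g, D * ρ' g = ρ g * D) {A : G → U → Prop}
    {B : U → (Y →ₐ[ℚ_[2]] Y) → Prop} {χ : G → Fin n → E}
    {P : Matrix (Fin n) (Fin n) (E ⊗[ℚ_[2]] Y)} (hP : IsUnit P)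
    (H : ∀ g u s, A g u → B u s → ∀ i, act (ρ g) s (P.col i) = χ g i • P.col i) :
    ∃ P : Matrix (Fin n) (Fin n) (E ⊗[ℚ_[2]] Y), IsUnit P ∧ ∀ g u s, A g u → B u s →
      ∀ i, act (ρ' g) s (P.col i) = χ g i • P.col i := by
  obtain ⟨u, hu⟩ := Bas1.unit_map (algebraMap E (E ⊗[ℚ_[2]] Y)) hD
  refine ⟨(u⁻¹).val * P, u⁻¹.isUnit.mul hP, fun g v s a c i => ?_⟩
  have e : D.map (algebraMap E _) *ᵥ ((u⁻¹).val * P).col i = P.col i := by
    change (D.map (algebraMap E _) * ((u⁻¹).val * P)).col i = _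
    rw [← hu, Units.mul_inv_cancel_left]
  refine Bas1.inj (Bas1.unit_map (algebraMap E _) hD) ?_
  rw [← Bas1.conj (h g), mulVec_smul, e, H g v s a c i]

omit [NormedAlgebra ℚ_[2] E] in
theorem nil (hD : IsUnit D) {A A' : Matrix (Fin n) (Fin n) E} (h : D * A' = A * D)
    (hA : IsNilpotent A) : IsNilpotent A' := by
  obtain ⟨m, hm⟩ := hA
  refine ⟨m, hD.mul_left_cancel ?_⟩
  rw [(SemiconjBy.pow_right (show SemiconjBy D A' A from h) m).eq, hm, zero_mul, mul_zero]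

omit [NormedAlgebra ℚ_[2] E] in
theorem rk (hD : IsUnit D) {A A' : Matrix (Fin n) (Fin n) E} (h : D * A' = A * D) :
    A.rank = A'.rank := by
  have u := (isUnit_iff_isUnit_det D).1 hD
  rw [← rank_mul_eq_left_of_isUnit_det D A u, ← h, rank_mul_eq_right_of_isUnit_det D A' u]

end EFE

theorem efe : EFESt := by
  intro E _ _ _ N hN
  have : NeZero N := ⟨hN.ne'⟩
  obtain ⟨s, hs⟩ := IsAlgClosed.exists_pow_nat_eq (2 : AlgebraicClosure ℚ_[2]) four_pos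
  obtain ⟨ζ, hζ⟩ := HasEnoughRootsOfUnity.exists_primitiveRoot (AlgebraicClosure ℚ_[2]) N
  obtain ⟨ι⟩ := EFE.emb
  let φ : E →ₐ[ℚ_[2]] AlgebraicClosure ℚ_[2] := IsAlgClosed.lift
  have h1 : FiniteDimensional ℚ_[2] (IntermediateField.adjoin ℚ_[2] {s, ζ}) :=
    IntermediateField.finiteDimensional_adjoin fun x _ => Algebra.IsIntegral.isIntegral x
  have h2 : FiniteDimensional ℚ_[2] φ.fieldRange :=
    (AlgEquiv.ofInjectiveField φ).toLinearEquiv.finiteDimensional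
  let E' := φ.fieldRange ⊔ IntermediateField.adjoin ℚ_[2] {s, ζ}
  have h3 : FiniteDimensional ℚ_[2] E' := IntermediateField.finiteDimensional_sup _ _
  have m : ∀ x ∈ ({s, ζ} : Set _), x ∈ E' := fun x hx =>
    (le_sup_right : _ ≤ E') (IntermediateField.subset_adjoin _ _ hx)
  let f : E →ₐ[ℚ_[2]] E' := φ.codRestrict E'.toSubalgebra fun x => (le_sup_left : _ ≤ E') ⟨x, rfl⟩
  refine ⟨E', spectralNorm.nontriviallyNormedField ℚ_[2] E', spectralNorm.normedAlgebra ℚ_[2] E',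
    h3, f, ⟨s, m _ (by simp)⟩, ⟨ζ, m _ (by simp)⟩, ι.toRingHom.comp E'.val.toRingHom, fun x => ?_,
    Subtype.ext hs, IsPrimitiveRoot.of_map_of_injective (f := E'.val) hζ Subtype.val_injective⟩
  rw [NormedAlgebra.norm_eq_spectralNorm ℚ_[2] x]
  change spectralNorm ℚ_[2] E' (f x) = _
  rw [spectralNorm, spectralNorm, minpoly.algHom_eq f f.injective]

theorem basE1 : BasE1St := by
  intro L _ E _ _ n ρ ρ' ⟨D, hD, h0⟩
  have h : ∀ g, D * ρ' g = ρ g * D := fun g => (h0 g).trans (by rw [RingHom.coe_id, Matrix.map_id])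
  have h' : ∀ g, D * (ρ' g - 1) = (ρ g - 1) * D := fun g => by
    rw [mul_sub, sub_mul, h, mul_one, one_mul]
  refine ⟨EFE.fx hD h, fun j => ⟨fun hN => EFE.nf hD h hN, fun w ⟨P, hP, H⟩ =>
    EFE.dr hD h hP H⟩, fun 𝔓 a ⟨N, β, t, η, a1, a2, a3, a4, a5, a6, a7, a8, a9⟩ =>
    ⟨N, β, t, η, a1, a2, a3, a4, a5, a6, a7, fun g b c => EFE.nil hD (h' g) (a8 g b c),
      a9.trans (EFE.rk hD (h' t))⟩⟩

end Pool.Agent.SY
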