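import Pool.Agent.Lib.MP_b4b3cb_nt.SY.L3

/-! Odd primes of semistable reduction: the type of the reduction. -/

namespace Pool.Agent.SY

open NumberField IsDedekindDomain Matrix WeierstrassCurve Pool.Agent.SelTwo
open Pool.Agent.Lib.MP_02f36d_nt (Place Sp SpW ptMap OV Node xc SSO SplitO Nu Intg sp_ofNat
  sp_of_mem sso_of_not_additive split_iff exists_node' xc_ptMap mem_OV nu_OV val_lt_one_iff)
open scoped Classical

/-- Multiplicative reduction. -/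
def Mul {L : Type} [Field L] [NumberField L] (W : WeierstrassCurve ℤ)
    (w : HeightOneSpectrum (𝓞 L)) : Prop :=
  ((W.baseChange L).minimal (OV w)).HasMultiplicativeReduction (OV w)

/-- Odd primes of semistable reduction. -/
def L3TSt : Prop :=
  ∀ (L : Type) [Field L] [NumberField L] (W : WeierstrassCurve ℤ), W.Δ ≠ 0 →
    ∀ e : Z2 →+ ℕ → (cv W (AlgebraicClosure L)).Point, TS e → ∀ t : Gal L → M2 ℤ_[2],
    (∀ g : Gal L, Mt e (gm W (g : _ →+* _)) (t g)) →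
    ∀ 𝔓 : Idl L, 𝔓.IsMaximal → 2 ∉ 𝔓 → ∀ w : HeightOneSpectrum (𝓞 L),
    𝔓.under _ = w.asIdeal → ¬Adv W w → ((∀ g ∈ Ine 𝔓, t g = 1) ∧ ¬Mul W w) ∨
      Mul W w ∧ (LM t 𝔓 1 ∧ Spm W w ∨ LM t 𝔓 (-1) ∧ ¬Spm W w)

open L3 in
/-- Odd primes of semistable reduction. -/
theorem l3T : PlcSt → UnSt → VcSt → GoodSt → MultSt → RamSt → L3TSt := by
  intro plc un vc good mult ram L _ _ W hΔ e he t ht 𝔓 hm h2 w hw hadd
  obtain ⟨k, _, _, p, hp⟩ := plc L 𝔓 hm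
  obtain ⟨p₀, e0, hc⟩ := exP0 hp hw
  have k2 := two_ne hp h2
  have q0 : 0 < nq 𝔓 := Nat.pos_of_ne_zero fun z => by
    rw [nq, hw, Ideal.absNorm_eq_zero_iff] at z
    exact w.ne_bot z
  obtain ⟨C, hC⟩ : ∃ C : VariableChange L, C • W.baseChange L = (W.baseChange L).minimal (OV w) :=
    ⟨_, rfl⟩
  have sso : SSO p₀.A ((W.baseChange L).minimal (OV w)) := by
    rw [e0]
    exact sso_of_not_additive _ _ hadd
  have spl : Spm W w ↔ SplitO p₀.A ((W.baseChange L).minimal (OV w)) := by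
    rw [e0]
    exact split_iff _ _
  have mu : Mul W w ↔ Nu p₀.A ((W.baseChange L).minimal (OV w)).Δ := by
    have a := val_lt_one_iff (OV w) _ (integralModel_Δ_eq (OV w) ((W.baseChange L).minimal (OV w)))
    rw [e0, ← a]
    exact ⟨fun h => h.badReduction, fun h =>
      ((hasGoodReduction_or_hasMultiplicativeReduction_or_hasAdditiveReduction (OV w)
        (W := (W.baseChange L).minimal (OV w))).resolve_left
        fun b => h.ne b.goodReduction).resolve_right hadd⟩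
  obtain ⟨U, hU⟩ := sso.1.spW
  obtain ⟨e', he', H⟩ := vc _ (cv W (AlgebraicClosure L))
    (C.map (algebraMap L (AlgebraicClosure L))) (cv_Δ hΔ) e he
  have hV : SpW p (C.map (algebraMap L (AlgebraicClosure L)) • cv W (AlgebraicClosure L)) U := by
    have a := hU.map (q := p) (j := RingHom.id k) hc
    have b := map_variableChange (cv W L) C (algebraMap L (AlgebraicClosure L))
    rw [← hC] at a
    rw [← cv_map W (algebraMap L (AlgebraicClosure L))]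
    exact b ▸ a
  have hΔ' : (C.map (algebraMap L (AlgebraicClosure L)) • cv W (AlgebraicClosure L)).Δ ≠ 0 :=
    Lib.MP_02f36d_nt.Δ_smul_ne (cv_Δ hΔ) _
  have H' := fun g : Gal L => H (g : AlgebraicClosure L →+* AlgebraicClosure L) (cv_map W _) (by
    rw [VariableChange.map_map]
    exact congrArg C.map (RingHom.ext g.commutes)) (t g) (ht g)
  by_cases hU0 : U.Δ = 0
  swap
  · refine Or.inl ⟨fun g hg => ?_, fun s => hU0 (hU.Δ.nu_iff.1 (mu.1 s))⟩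
    obtain ⟨φ, a, b⟩ := hp.fr _ 1 one_pos (fb_ine hg)
    obtain ⟨h', m⟩ := H' g
    exact (good _ k p hp.sur k2 _ U hV hU0 e' he'.toTW _ φ 1 h' _ b a m).1 rfl
  have hc4 : U.c₄ ≠ 0 := (hU.ss sso).resolve_right (not_not.2 hU0)
  have rm : ∃ g ∈ Ine 𝔓, t g ≠ 1 := by
    obtain ⟨r, b, b0, b1, hr⟩ := ram _ k p hp.sur k2 _ U hV hΔ' hU0 hc4
    choose P m c h1 h3 h4 using hr
    obtain ⟨g, hg, g1, n, g2⟩ := (un L 𝔓 hm h2 {r}).2 k p hp b (fun n => xc (P n) - r) b0 b1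
      fun n => ⟨c n, h3 n, h4 n⟩
    refine ⟨g, hg, fun z => g2 ?_⟩
    obtain ⟨h', mt⟩ := H' g
    obtain ⟨x, hx⟩ := he'.sur (half hΔ') (h1 n)
    have := congrArg xc (mt x (m n))
    rw [z, one_mulVec, hx, xc_ptMap] at this
    rw [map_sub, g1 r (Finset.mem_singleton_self r)]
    exact congrArg (· - r) this.symm
  have key : ∀ x₀ y₀ α β, Node U x₀ y₀ α β →
      (α ^ nq 𝔓 = α → LM t 𝔓 1) ∧ (α ^ nq 𝔓 ≠ α → LM t 𝔓 (-1)) := fun x₀ y₀ α β hn => by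
    obtain ⟨x, x0, hx⟩ := mult _ k p hp.sur k2 _ U hV hΔ' x₀ y₀ α β hn e' he'
    have i1 : ∀ g ∈ Ine 𝔓, t g *ᵥ x = x := fun g hg => by
      obtain ⟨φ, a, b⟩ := hp.fr _ 1 one_pos (fb_ine hg)
      obtain ⟨h', m⟩ := H' g
      simpa using (hx _ φ 1 h' _ b a m).1 (by rw [a, pow_one])
    refine ⟨fun z => ⟨x, x0, i1, rm, fun σ hσ => ?_⟩, fun z => ⟨x, x0, i1, rm, fun σ hσ => ?_⟩⟩ <;>
      obtain ⟨φ, a, b⟩ := hp.fr _ _ q0 (fb_of hσ) <;> obtain ⟨h', m⟩ := H' σ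
    · simpa using (hx _ φ _ h' _ b a m).1 (by rw [a, z])
    · simpa using (hx _ φ _ h' _ b a m).2 (by rw [a]; exact z)
  refine Or.inr ⟨mu.2 (hU.Δ.nu_iff.2 hU0), ?_⟩
  by_cases s : Spm W w
  · obtain ⟨x₀, y₀, α, hn, m⟩ := SplitO.node hU (spl.1 s)
    exact Or.inl ⟨(key _ _ _ _ hn).1 (fix_of hp e0 hc m), s⟩
  · obtain ⟨x₀, y₀, α, hn⟩ := exists_node' hU0 hc4
    refine Or.inr ⟨(key _ _ _ _ hn).2 fun z => s (spl.2 ?_), s⟩
    obtain ⟨a, ha⟩ := (hp.fix α).1 z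
    have m : (a : L) ∈ p₀.A := e0 ▸ w.valuation_le_one a
    have s1 : Sp p₀ (a : L) α := (hc _ _ (sp_of_mem m)).unique ha ▸ sp_of_mem m
    refine ⟨sso.1, hU.Δ.nu_iff.2 hU0, fun z => hc4 (hU.c₄.nu_iff.1 z), a, m, ?_⟩
    refine (((hU.c₄.mul (s1.pow 2)).add ((hU.h1.mul hU.c₄).mul s1)).sub
      (((((sp_ofNat 54).mul hU.b₆).sub (((sp_ofNat 3).mul hU.b₂).mul hU.b₄))).add
        (hU.h2.mul hU.c₄))).nu_iff.2 ?_
    linear_combination 3 * hn.x_eq - U.c₄ * hn.h2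

end Pool.Agent.SY
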