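import Pool.Agent.Lib.MP_b4b3cb_nt.SY.St3
import Pool.Agent.Lib.MP_b4b3cb_nt.SY.Plc
import Pool.Agent.Lib.MP_b4b3cb_nt.SY.Good
import Pool.Agent.Lib.MP_b4b3cb_nt.SY.Mult
import Pool.Agent.Lib.MP_b4b3cb_nt.SY.L2
import Pool.Agent.Lib.MP_b4b3cb_nt.SY.Cnt

/-! Potentially multiplicative reduction at a prime not above two and three. -/

namespace Pool.Agent.SY

open NumberField IsDedekindDomain Matrix WeierstrassCurve Pool.Agent.SelTwo
open Pool.Agent.Lib.MP_02f36d_nt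
open scoped Classical

namespace L4b

theorem nil {A : M2 ℤ_[2]} {x : Z2} (hx : x ≠ 0) (d : A.det = 1) (h : A *ᵥ x = x) :
    IsNilpotent (A - 1) := by
  have z : (A - 1).det = 0 := exists_mulVec_eq_zero_iff.1 ⟨x, hx, by rw [sub_mulVec, h]; simp⟩
  rw [det_fin_two] at d z
  simp only [Matrix.sub_apply, one_apply_eq, one_apply_ne zero_ne_one, one_apply_ne one_ne_zero] at z
  have T : A 0 0 + A 1 1 = 2 := by linear_combination d - z
  refine ⟨2, ?_⟩
  ext i j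
  fin_cases i <;> fin_cases j <;> simp [sq, mul_apply, one_apply]
  · linear_combination (A 0 0 - 1) * T - z
  · linear_combination A 0 1 * T
  · linear_combination A 1 0 * T
  · linear_combination (A 1 1 - 1) * T - z

section

variable {F : Type} [Field F]

/-- The change to the short model, scaled by `u`. -/
noncomputable def sc (V : WeierstrassCurve F) {u : F} (h : u ≠ 0) : VariableChange F :=
  ⟨Units.mk0 u h, -V.b₂ / 12, -V.a₁ / 2, (V.a₁ * V.b₂ / 12 - V.a₃) / 2⟩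

theorem sc_smul [CharZero F] (V : WeierstrassCurve F) {u : F} (h : u ≠ 0) :
    sc V h • V = ⟨0, 0, 0, -(V.c₄ / u ^ 4) / 48, -(V.c₆ / u ^ 6) / 864⟩ := by
  ext
  · simp only [variableChange_a₁, sc]; ring
  · simp only [variableChange_a₂, sc, b₂]; ring
  · simp only [variableChange_a₃, sc]; ring
  · simp only [variableChange_a₄, sc, c₄, b₂, b₄, Units.val_inv_eq_inv_val, Units.val_mk0]
    field_simp
    ring
  · simp only [variableChange_a₆, sc, c₆, b₂, b₄, b₆, Units.val_inv_eq_inv_val, Units.val_mk0]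
    field_simp
    ring

theorem vc2 [IsAlgClosed F] [DecidableEq F] (V : Affine F) (C : VariableChange F) (hΔ : V.Δ ≠ 0)
    (h₁ : (C • V).a₁ = 0) (h₃ : (C • V).a₃ = 0) {e : Z2 →+ ℕ → V.Point} (he : TS e) :
    ∃ e' : Z2 →+ ℕ → (C • V).toAffine.Point, TS e' ∧
      ∀ (σ : F →+* F) (h : V.map σ = V) (h' : (C • V).toAffine.map σ = C • V), σ C.r = C.r →
        σ C.s = C.s → σ C.t = C.t → ∀ A, Mt e (ptMap σ h) A →
        (σ C.u = C.u → Mt e' (ptMap σ h') A) ∧ (σ C.u = -C.u → Mt e' (ptMap σ h') (-A)) := by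
  have i1 := infinite_pt (V := V) (sep_of_c4 (Or.inr hΔ))
  have i2 := infinite_pt (V := (C • V).toAffine) (sep_of_c4 (Or.inr (Δ_smul_ne hΔ C)))
  have h0 : C • V = (C • V).toAffine := rfl
  have h1 : C⁻¹ • (C • V).toAffine = V := inv_smul_smul C V
  have a : ∀ P, vcMap h0 (vcMap h1 P) = P := vcMap_inv h0 h1
  have inj : Function.Injective (vcMap h0) :=
    (injective_iff_map_eq_zero _).2 fun P hP => by_contra fun z => (vcMap_spec h0 z).1 hP
  refine ⟨em (vcMap h1) e, ⟨he.toTW.em _ fun P _ z => by rw [← a P, z, map_zero],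
    fun Q q0 q1 => ?_⟩, fun σ h h' hr hs ht A hA => ⟨fun hu => ?_, fun hu => ?_⟩⟩
  · obtain ⟨x, hx⟩ := he.all (fun n => vcMap h0 (Q n)) (by rw [q0, map_zero])
      fun n => by rw [← map_nsmul, q1]
    exact ⟨x, funext fun n => inj (by rw [em_apply, a, hx])⟩
  · have hC : C.map σ = C := VariableChange.ext (Units.ext hu) hr hs ht
    refine hA.em _ fun P => inj ?_
    have h2 : C.map σ • V = (C • V).toAffine := by rw [hC]
    rw [a, Good.vc_congr hC.symm h0 h2, ← ptMap_vcMap h0 h2 h h', a]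
  · have hB : Mt e (fun P => -ptMap σ h P) (-A) := fun x n => by
      rw [neg_mulVec, map_neg, Pi.neg_apply, hA]
    have k : ∀ Q, vcMap h0 (-ptMap σ h' Q) = ptMap σ h (vcMap h0 Q) := fun Q => by
      by_cases z : Q = 0
      · simp only [z, map_zero, neg_zero]
      obtain ⟨p0, p1, p2⟩ := vcMap_spec h0 z
      obtain ⟨q0, q1, q2⟩ := vcMap_spec h0 (neg_ne_zero.2 (ptMap_ne h' z))
      refine pt_ext q0 (ptMap_ne h p0) ?_ ?_
      · rw [q1, xc_neg, xc_ptMap, xc_ptMap, p1]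
        simp only [map_add, map_mul, map_pow, hu, hr]
        ring
      · rw [q2, xc_neg, yc_neg (ptMap_ne h' z), xc_ptMap, yc_ptMap, yc_ptMap, p2]
        simp only [map_add, map_mul, map_pow, hu, hs, ht]
        rw [show (C • V).toAffine.a₁ = 0 from h₁, show (C • V).toAffine.a₃ = 0 from h₃]
        ring
    refine hB.em _ fun P => inj ?_
    rw [a, ← neg_neg (ptMap σ h' _), map_neg, k, a]

end

variable {Ω k : Type} [Field Ω] [Field k] {p : Place Ω k}

theorem root (k2 : (2 : k) ≠ 0) {σ : Ω →+* Ω} (hσ : ∀ x c, Sp p x c → Sp p (σ x) c) {z ζ : Ω}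
    {c : k} (hz : Sp p z c) (c0 : c ≠ 0) (e : σ z = ζ * z) (h4 : ζ ^ 4 = 1) : ζ = 1 := by
  have s : Sp p ζ 1 := ((hσ _ _ hz).div hz c0).congr
    (by rw [e, mul_div_cancel_right₀ _ (hz.ne_zero c0)]) (div_self c0)
  have n := ((((s.pow 3).add (s.pow 2)).add s).add sp_one).ne_zero
    fun z => pow_ne_zero 2 k2 (by linear_combination z)
  exact mul_left_cancel₀ n (by linear_combination h4)

theorem unit {z : Ω} {c : k} (h : Sp p (z ^ 4) c) (c0 : c ≠ 0) : ∃ d, d ≠ 0 ∧ Sp p z d := by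
  have z0 : z ≠ 0 := fun e => h.ne_zero c0 (by rw [e]; simp)
  have m : z ∈ p.A := by_contra fun hu => by
    have := (h.mul ((sp_inv_of_notMem hu).pow 4)).eq sp_one
      (by rw [← mul_pow, mul_inv_cancel₀ z0, one_pow])
    simp at this
  exact ⟨_, fun e => c0 (by simpa [e] using h.unique ((sp_of_mem m).pow 4)), sp_of_mem m⟩

end L4b

open L4b in
/-- Potentially multiplicative reduction at a prime not above `2` and `3`. -/
theorem l4b : L4bSt := by
  intro L _ _ W hΔ e he t ht hd 𝔓 hm h2 h3 w hw ϖ β hϖ hβ hj g hg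
  obtain ⟨k, _, _, p, hp⟩ := plc L 𝔓 hm
  have k2 := L2.two hp h2
  have k3 : (3 : k) ≠ 0 := by simpa using L2.int hp (n := 3) (by simpa using h3)
  have k48 : (48 : k) ≠ 0 := fun z =>
    mul_ne_zero (pow_ne_zero 4 k2) k3 (by linear_combination z)
  have k864 : (864 : k) ≠ 0 := fun z =>
    mul_ne_zero (pow_ne_zero 5 k2) (pow_ne_zero 3 k3) (by linear_combination z)
  have c0 : (W.c₄ : L) ≠ 0 := fun z => hj (by rw [z]; simp)
  have c1 : (W.c₄ : AlgebraicClosure L) ≠ 0 := by simpa using c0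
  have d1 : (W.Δ : AlgebraicClosure L) ≠ 0 := by simpa using hΔ
  have ec4 : ∀ (F : Type) [Field F], (cv W F).c₄ = W.c₄ := fun F _ => by simp [cv, baseChange]
  have ec6 : ∀ (F : Type) [Field F], (cv W F).c₆ = W.c₆ := fun F _ => by simp [cv, baseChange]
  obtain ⟨u, hu⟩ := IsAlgClosed.exists_pow_nat_eq (W.c₄ : AlgebraicClosure L) (n := 4) (by norm_num)
  have u0 : u ≠ 0 := fun z => c1 (by rw [← hu, z]; simp)
  have sj := sp_inv_of_notMem (mt (hp.ov w hw _).1 hj)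
  have rel : (1728 * W.Δ : AlgebraicClosure L) = W.c₄ ^ 3 - W.c₆ ^ 2 := by
    exact_mod_cast W.c_relation
  have s2 : Sp p (((W.c₆ : AlgebraicClosure L) / u ^ 6) ^ 2) 1 :=
    (sp_one.sub ((sp_ofNat 1728).mul sj)).congr (by
      rw [map_div₀, map_pow, map_intCast, map_intCast, div_pow, ← pow_mul,
        show 6 * 2 = 4 * 3 from rfl, pow_mul, hu]
      field_simp
      linear_combination -rel) (by simp)
  have my : (W.c₆ : AlgebraicClosure L) / u ^ 6 ∈ p.A :=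
    mem_of_quad (zero_mem _) s2.mem (by rw [zero_mul, add_zero])
  have sy := sp_of_mem my
  generalize p.ρ _ = ε at sy
  have ε2 : ε ^ 2 = 1 := (sy.pow 2).unique s2
  have ε0 : ε ≠ 0 := fun z => by simp [z] at ε2
  have h0 : (cv W (AlgebraicClosure L)).Δ ≠ 0 := cv_Δ hΔ
  have hC := sc_smul (cv W (AlgebraicClosure L)) u0
  rw [ec4, ec6, hu, div_self c1] at hC
  have hV : SpW p (sc (cv W (AlgebraicClosure L)) u0 • cv W (AlgebraicClosure L))
      ⟨0, 0, 0, -1 / 48, -ε / 864⟩ := by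
    rw [hC]
    exact ⟨sp_zero, sp_zero, sp_zero, sp_one.neg.div (sp_ofNat 48) k48,
      sy.neg.div (sp_ofNat 864) k864⟩
  obtain ⟨x₀, y₀, α, nd⟩ := exists_node' (U := (⟨0, 0, 0, -1 / 48, -ε / 864⟩ : Affine k)) (by
    simp only [Δ, b₂, b₄, b₆, b₈]
    field_simp
    linear_combination (-47775744 : k) * ε2) (by
    simp only [c₄, b₂, b₄]
    exact fun z => one_ne_zero (by linear_combination z - mul_inv_cancel₀ k48 : (1 : k) = 0))
  obtain ⟨e', he', H⟩ := vc2 _ (sc (cv W (AlgebraicClosure L)) u0) h0 (by rw [hC]) (by rw [hC]) he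
  obtain ⟨x, x0, hx⟩ := mult _ k p hp.sur k2 _ _ hV (Δ_smul_ne h0 _) _ _ _ _ nd e' he'
  obtain ⟨φ, φ1, φ2⟩ := hp.fr _ 1 one_pos (L2.fb hg)
  have hσ : ∀ x c, Sp p x c → Sp p ((g : _ →+* _) x) c := fun x c h =>
    (φ2 x c h).congr rfl (by rw [φ1, pow_one])
  obtain ⟨ζ, hζ⟩ : ∃ ζ, g u = ζ * u := ⟨g u / u, (div_mul_cancel₀ _ u0).symm⟩
  have ζ4 : ζ ^ 4 = 1 := mul_right_cancel₀ c1 (by
    rw [one_mul, ← hu, ← mul_pow, ← hζ, ← map_pow, hu, map_intCast])
  have ζ0 : ζ ≠ 0 := fun z => by simp [z] at ζ4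
  have gy : g ((W.c₆ : AlgebraicClosure L) / u ^ 6) = ζ ^ 2 * (W.c₆ / u ^ 6) := by
    rw [map_div₀, map_pow, map_intCast, hζ]
    field_simp
    linear_combination -(W.c₆ : AlgebraicClosure L) * (ζ ^ 4 + 1) * ζ4
  have ζ2 : ζ ^ 2 = 1 := root k2 hσ sy ε0 gy (by linear_combination (ζ ^ 4 + 1) * ζ4)
  have h' : (sc (cv W (AlgebraicClosure L)) u0 • cv W (AlgebraicClosure L)).toAffine.map
      (g : _ →+* _) = sc (cv W (AlgebraicClosure L)) u0 • cv W (AlgebraicClosure L) := by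
    rw [ζ2, one_mul] at gy
    rw [hC]
    generalize (W.c₆ : AlgebraicClosure L) / u ^ 6 = y at gy
    ext <;> simp [map_ofNat, gy]
  have M := H _ (cv_map W _) h' (by simp [sc, cv, baseChange, map_ofNat])
    (by simp [sc, cv, baseChange, map_ofNat]) (by simp [sc, cv, baseChange, map_ofNat]) _ (ht g)
  have dt : (t g).det = 1 := by
    have := L2.det_eq (q := 1) (A := t g) (by rw [hd, L2.cyc_one h2 hg, Nat.cast_one])
    rwa [Nat.cast_one] at this
  have n1 : ζ = 1 → IsNilpotent (t g - 1) := fun z => nil x0 dt (by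
    simpa using (hx _ φ 1 h' _ φ2 φ1 (M.1 (by rw [z, one_mul] at hζ; exact hζ))).1
      (by rw [φ1, pow_one]))
  have n2 : ζ = -1 → IsNilpotent (t g + 1) := fun z => by
    have := (nil (A := -t g) x0 (by rw [det_neg, dt]; simp) (by
      simpa using (hx _ φ 1 h' _ φ2 φ1 (M.2 (by rw [z, neg_one_mul] at hζ; exact hζ))).1
        (by rw [φ1, pow_one]))).neg
    rwa [neg_sub, sub_neg_eq_add, add_comm] at this
  obtain ⟨n, hn⟩ : ∃ n : ℕ, w.valuation L (W.c₄ : L) = WithZero.exp (-(n : ℤ)) := by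
    have a := (_root_.map_ne_zero (w.valuation L)).2 c0
    have b : w.valuation L (W.c₄ : L) ≤ 1 := intCast_mem (OV w) _
    rw [← WithZero.exp_log a] at b ⊢
    rw [← WithZero.exp_zero, WithZero.exp_le_exp] at b
    exact ⟨(-WithZero.log (w.valuation L (W.c₄ : L))).toNat, congrArg _ (by omega)⟩
  have ϖ0 : ϖ ≠ 0 := fun z => WithZero.exp_ne_zero (by rw [← hϖ, z, map_zero])
  have β0 : β ≠ 0 := fun z => ϖ0 (by simpa [z] using hβ.symm)
  have v1 : w.valuation L ((W.c₄ : L) / ϖ ^ n) = 1 := by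
    rw [map_div₀, map_pow, hn, hϖ, ← WithZero.exp_nsmul]
    simp
  have m1 : (W.c₄ : L) / ϖ ^ n ∈ OV w := v1.le
  have m2 : ((W.c₄ : L) / ϖ ^ n)⁻¹ ∈ OV w := (by rw [map_inv₀, v1, inv_one] :
    w.valuation L _ = 1).le
  have q0 : (W.c₄ : L) / ϖ ^ n ≠ 0 := div_ne_zero c0 (pow_ne_zero _ ϖ0)
  have s3 := sp_of_mem ((hp.ov w hw _).2 m1)
  obtain ⟨d, d0, sd⟩ := unit (z := u / β ^ (3 * n)) (s3.congr (by
    rw [div_pow, hu, ← pow_mul, show 3 * n * 4 = 12 * n by ring, pow_mul, hβ]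
    simp) rfl) (left_ne_zero_of_mul_eq_one ((s3.mul (sp_of_mem ((hp.ov w hw _).2 m2))).eq sp_one
      (by rw [← map_mul, mul_inv_cancel₀ q0, map_one])))
  refine ⟨fun hb => n1 (root k2 hσ sd d0 ?_ ζ4), fun ha η hη hb => n2 ?_⟩
  · rw [RingHom.coe_coe, map_div₀, map_pow, hb, hζ, mul_div_assoc]
  have η0 : η ≠ 0 := hη.ne_zero (by norm_num)
  have z1 : ζ / η ^ (3 * n) = 1 := root k2 hσ sd d0 (by
    rw [RingHom.coe_coe, map_div₀, map_pow, hb, hζ, mul_pow, mul_div_mul_comm]) (by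
    rw [div_pow, ζ4, ← pow_mul, show 3 * n * 4 = 12 * n by ring, pow_mul, hη.pow_eq_one]
    simp)
  refine (mul_self_eq_one_iff.1 (sq ζ ▸ ζ2)).resolve_left fun z => ?_
  rw [z, div_eq_one_iff_eq (pow_ne_zero _ η0)] at z1
  obtain ⟨m, rfl⟩ : 4 ∣ n := by
    have := hη.dvd_of_pow_eq_one _ z1.symm
    omega
  obtain ⟨C, hM⟩ : ∃ C : VariableChange L, C • W.baseChange L = (W.baseChange L).minimal (OV w) :=
    ⟨_, rfl⟩
  have hD : (sc (cv W L) (pow_ne_zero m ϖ0) * C⁻¹) • (W.baseChange L).minimal (OV w) =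
      ⟨0, 0, 0, -(W.c₄ / ϖ ^ (4 * m)) / 48, -(W.c₆ / (ϖ ^ m) ^ 6) / 864⟩ := by
    rw [← hM, mul_smul, inv_smul_smul, sc_smul, ec4, ec6, ← pow_mul, mul_comm m 4]
  have nu := (CntA.nu_smul (OV w) _ (CntA.del w hΔ) _ (by
    rw [hD]
    refine ⟨zero_mem _, zero_mem _, zero_mem _, (hp.ov w hw _).1
      ((s3.neg.div (sp_ofNat 48) k48).congr (by simp [map_ofNat]) rfl).mem, (hp.ov w hw _).1
      (((sy.mul (sd.pow 6)).neg.div (sp_ofNat 864) k864).congr ?_ rfl).mem⟩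
    rw [show 3 * (4 * m) = 12 * m by ring, pow_mul, hβ]
    have := (_root_.map_ne_zero (algebraMap L (AlgebraicClosure L))).2 ϖ0
    simp only [map_div₀, map_neg, map_pow, map_intCast, map_ofNat]
    field_simp)).1 ((val_lt_one_iff _ _ (integralModel_c₄_eq _ _)).1 ha.additiveReduction)
  rw [hD] at nu
  have ec : (⟨0, 0, 0, -(W.c₄ / ϖ ^ (4 * m)) / 48, -(W.c₆ / (ϖ ^ m) ^ 6) / 864⟩ :
      WeierstrassCurve L).c₄ = W.c₄ / ϖ ^ (4 * m) := by
    simp only [c₄, b₂, b₄]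
    ring
  rw [ec] at nu
  exact nu.elim q0 fun z => z m2

end Pool.Agent.SY
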