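import Pool.Agent.Lib.MP_b4b3cb_nt.SY.St3

/-! The parity of the ranks of symmetric powers. -/

namespace Pool.Agent.SY

open Matrix Polynomial Pool.Agent.SymTwo
open scoped Classical

namespace RkA

variable {E : Type} [Field E]

theorem tri (A : M2 E) {s : E} (h : (A - s • 1).det = 0) : ∃ (P : M2 E) (α b β : E), IsUnit P ∧
    A * P = P * !![α, b; 0, β] ∧ α * β = A.det := by
  rw [det_fin_two] at h ⊢
  by_cases c : A 1 0 = 0
  · refine ⟨1, A 0 0, A 0 1, A 1 1, isUnit_one, ?_, by rw [c, mul_zero, sub_zero]⟩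
    rw [mul_one, one_mul, ← c]
    exact eta_fin_two A
  simp at h
  refine ⟨!![s - A 1 1, 1; A 1 0, 0], s, 1, A 0 0 + A 1 1 - s,
    (isUnit_iff_isUnit_det _).2 (by simpa [det_fin_two] using c), ?_, by linear_combination -h⟩
  ext i j
  fin_cases i <;> fin_cases j <;> simp [mul_apply, Fin.sum_univ_two]
  · linear_combination -h
  · ring

theorem cjp {n : ℕ} {X Y S : Matrix (Fin n) (Fin n) E} (u : IsUnit S) (e : X * S = S * Y)
    (k : ℕ) : X ^ k * S = S * Y ^ k ∧ X.rank = Y.rank := by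
  have d := (isUnit_iff_isUnit_det _).1 u
  exact ⟨(SemiconjBy.pow_right e.symm k).symm, by
    rw [← rank_mul_eq_left_of_isUnit_det S X d, e, rank_mul_eq_right_of_isUnit_det S Y d]⟩

theorem cjs (h : SymSt) (m : ℕ) {A P T : M2 E} (u : IsUnit P) (e : A * P = P * T) :
    IsUnit (sym m P) ∧ (sym m A - 1) * sym m P = sym m P * (sym m T - 1) := by
  obtain ⟨Q, a, b⟩ := isUnit_iff_exists.1 u
  exact ⟨isUnit_iff_exists.2 ⟨sym m Q, by rw [← h.mul, a, h.one], by rw [← h.mul, b, h.one]⟩,
    by rw [sub_mul, mul_sub, ← h.mul, e, h.mul, one_mul, mul_one]⟩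

theorem tpow (α b : E) (k : ℕ) :
    !![α, b; 0, α] ^ (k + 1) = !![α ^ (k + 1), (k + 1) * α ^ k * b; 0, α ^ (k + 1)] := by
  induction k with
  | zero => simp
  | succ k ih =>
    rw [pow_succ, ih]
    ext i j
    fin_cases i <;> fin_cases j <;> simp [mul_apply, Fin.sum_univ_two] <;> ring

theorem dg (h : SymSt) (m : ℕ) {α β : E} (p : α * β = 1) :
    Even (sym m (diagonal ![α, β]) - 1).rank := by
  have r : ∀ i : Fin (m + 1), α ^ (m - i) * β ^ (i : ℕ) *
      (α ^ (m - i.rev) * β ^ (i.rev : ℕ)) = 1 := fun i => by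
    have : (i.rev : ℕ) = m - i := by rw [Fin.val_rev]; omega
    rw [this, Nat.sub_sub_self (Nat.lt_succ_iff.1 i.2)]
    calc _ = (α * β) ^ (m - i) * (α * β) ^ (i : ℕ) := by ring
      _ = 1 := by rw [p, one_pow, one_pow, mul_one]
  rw [h.diag, ← diagonal_one, diagonal_sub, rank_diagonal, Fintype.card_subtype,
    ← ZMod.natCast_eq_zero_iff_even, Finset.card_eq_sum_ones, Nat.cast_sum]
  refine Finset.sum_involution (fun i _ => i.rev) (fun _ _ => by decide) (fun i hi _ e => ?_)
    (fun i hi => ?_) fun i _ => i.rev_rev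
  · have : m - i = i := by
      have := congrArg Fin.val e
      rw [Fin.val_rev] at this
      omega
    simp only [Finset.mem_filter] at hi
    exact hi.2 (by rw [this, ← mul_pow, p, one_pow, sub_self])
  · simp only [Finset.mem_filter, Finset.mem_univ, true_and, sub_ne_zero] at hi ⊢
    exact fun e => hi (by rw [← r i, e, mul_one])

variable [CharZero E]

theorem fin (h : SymSt) {ζ : E} (z : IsPrimitiveRoot ζ 12) (m : ℕ) {A : M2 E} (d : A.det = 1)
    (e : A ^ 12 = 1) : Even (sym m A - 1).rank := by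
  have a := congrArg (detMonoidHom.comp (aeval A : E[X] →ₐ[E] M2 E).toMonoidHom)
    (X_pow_sub_one_eq_prod (by norm_num) z)
  rw [map_prod] at a
  have b : (A ^ 12 - 1).det = 0 := by rw [e, sub_self, det_zero]
  obtain ⟨s, -, c⟩ := Finset.prod_eq_zero_iff.1 (a.symm.trans (by simpa using b))
  obtain ⟨P, α, b, β, u, f, p⟩ := tri A (s := s) (by simpa [Algebra.algebraMap_eq_smul_one] using c)
  rw [d] at p
  obtain ⟨Q, v, g⟩ : ∃ Q : M2 E, IsUnit Q ∧ A * Q = Q * diagonal ![α, β] := by
    by_cases l : α = β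
    · subst l
      have t := (cjp u f 12).1
      rw [e, one_mul, eq_comm, u.mul_eq_left, tpow] at t
      have t := congrFun (congrFun t 0) 1
      have : α ≠ 0 := left_ne_zero_of_mul_eq_one p
      have : (11 : E) + 1 ≠ 0 := by norm_num
      simp [*] at t
      refine ⟨P, u, f.trans ?_⟩
      congr 1
      ext i j
      fin_cases i <;> fin_cases j <;> simp [t]
    · refine ⟨P * !![1, b / (β - α); 0, 1], u.mul ((isUnit_iff_isUnit_det _).2 (by simp)), ?_⟩
      rw [← mul_assoc, f, mul_assoc, mul_assoc]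
      congr 1
      have := sub_ne_zero.2 (Ne.symm l)
      ext i j
      fin_cases i <;> fin_cases j <;> simp [mul_apply, Fin.sum_univ_two]
      field_simp
      ring
  obtain ⟨x, y⟩ := cjs h m v g
  rw [(cjp x y 0).2]
  exact dg h m p

theorem up (h : SymSt) (m : ℕ) (b : E) : IsNilpotent (sym m !![1, b; 0, 1] - 1) ∧
    (Even m → Even (sym m !![1, b; 0, 1] - 1).rank) := by
  obtain ⟨t, d⟩ := h.tri m !![1, b; 0, 1] rfl
  have d : ∀ i, (sym m !![1, b; 0, 1] - 1) i i = 0 := fun i => by simp [d]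
  have t : ∀ i j, j < i → (sym m !![1, b; 0, 1] - 1) i j = 0 := fun i j l => by
    simp [t i j l, one_apply_ne l.ne']
  refine ⟨⟨m + 1, ?_⟩, fun e => ?_⟩
  · have := aeval_self_charpoly (sym m !![1, b; 0, 1] - 1)
    rw [charpoly_of_isUpperTriangular _ fun i j l => t i j l] at this
    simpa [d] using this
  by_cases c : b = 0
  · rw [c, ← one_fin_two, h.one, sub_self, rank_zero]
    exact Even.zero
  have k : LinearMap.ker (sym m !![1, b; 0, 1] - 1).mulVecLin = E ∙ Pi.single 0 1 := by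
    refine le_antisymm (fun v hv => Submodule.mem_span_singleton.2 ⟨v 0, _root_.funext fun i => ?_⟩)
      ((Submodule.span_singleton_le_iff_mem _ _).2 (_root_.funext fun i => ?_))
    · rw [LinearMap.mem_ker, mulVecLin_apply, sub_mulVec, one_mulVec, sub_eq_zero] at hv
      by_cases j : i = 0
      · simp [j]
      · simp [j, h.uni m b c v hv i j]
    · rw [mulVecLin_apply, mulVec_single_one, col_apply]
      exact (Fin.zero_le i).eq_or_lt'.elim (fun j => j ▸ d _) (t _ _)
  have r := LinearMap.finrank_range_add_finrank_ker (sym m !![1, b; 0, 1] - 1).mulVecLin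
  rw [k, finrank_span_singleton (by simp), Module.finrank_fin_fun] at r
  rwa [Matrix.rank, Nat.add_right_cancel r]

theorem un (h : SymSt) (m : ℕ) {A : M2 E} (d : A.det = 1) (n : IsNilpotent (A - 1)) :
    IsNilpotent (sym m A - 1) ∧ (Even m → Even (sym m A - 1).rank) ∧
      ∀ c : E, c ≠ 1 → IsUnit (c • sym m A - 1) := by
  have a : (A - (1 : E) • 1).det = 0 := by
    obtain ⟨k, n⟩ := n
    rw [one_smul]
    exact (pow_eq_zero_iff k.succ_ne_zero).1 (by
      rw [← det_pow, pow_succ, n, zero_mul, det_zero])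
  obtain ⟨P, α, b, β, u, f, p⟩ := tri A a
  have q : (α - 1) * (β - 1) = 0 := by
    have := congrArg det (show (A - (1 : E) • 1) * P = P * (!![α, b; 0, β] - 1) by
      rw [one_smul, sub_mul, f, mul_sub, one_mul, mul_one])
    rw [det_mul, det_mul, a, zero_mul, eq_comm,
      ((isUnit_iff_isUnit_det _).1 u).mul_right_eq_zero, det_fin_two] at this
    simpa using this
  rw [d] at p
  obtain rfl : α = 1 := by
    rcases mul_eq_zero.1 q with r | r
    · exact sub_eq_zero.1 r
    · rwa [sub_eq_zero.1 r, mul_one] at p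
  obtain rfl : β = 1 := by rwa [one_mul] at p
  obtain ⟨x, y⟩ := cjs h m u f
  obtain ⟨⟨k, r⟩, s⟩ := up h m b
  have w : IsNilpotent (sym m A - 1) :=
    ⟨k, x.mul_left_eq_zero.1 (by rw [(cjp x y k).1, r, mul_zero])⟩
  refine ⟨w, fun e => by rw [(cjp x y 0).2]; exact s e, fun c hc => ?_⟩
  have := (w.smul c).isUnit_add_right_of_commute
    ((IsUnit.mk0 _ (sub_ne_zero.2 hc)).map (algebraMap E _)) (Algebra.commute_algebraMap_right _ _)
  rwa [Algebra.algebraMap_eq_smul_one, sub_smul, smul_sub, one_smul, sub_add_sub_cancel] at this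

theorem ng (h : SymSt) (m : ℕ) {A : M2 E} (d : A.det = 1) (n : IsNilpotent (A + 1)) :
    Even (sym m A - 1).rank := by
  obtain ⟨-, a, b⟩ := un h m (A := -A) (by rw [det_neg, d]; simp) (by
    rw [← neg_add', isNilpotent_neg_iff]; exact n)
  have e : sym m A = (-1 : E) ^ m • sym m (-A) := by
    have : diagonal ![-1, -1] * -A = A := by
      ext i j
      fin_cases i <;> simp
    rw [← congrArg (sym m) this, h.mul, h.diag, smul_eq_diagonal_mul]
    simp only [← pow_add, Nat.sub_add_cancel (Nat.lt_succ_iff.1 (Fin.isLt _))]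
  rcases m.even_or_odd with p | p
  · rw [e, p.neg_one_pow, one_smul]
    exact a p
  · rw [e, p.neg_one_pow, rank_of_isUnit _ (b _ (by norm_num)), Fintype.card_fin]
    exact p.add_one

end RkA

open RkA

theorem rkE (h : SymSt) (E : Type) [Field E] [CharZero E] (ζ : E) (z : IsPrimitiveRoot ζ 12)
    (m : ℕ) (A : M2 E) (d : A.det = 1) : (A ^ 12 = 1 → Even (sym m A - 1).rank) ∧
    (IsNilpotent (A + 1) → Even (sym m A - 1).rank) ∧
    (IsNilpotent (A - 1) → IsNilpotent (sym m A - 1) ∧ (Even m → Even (sym m A - 1).rank) ∧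
      ∀ c : E, c ≠ 1 → IsUnit (c • sym m A - 1)) :=
  ⟨fin h z m d, ng h m d, un h m d⟩

theorem rk : SymSt → RkSt := fun h E _ _ _ z m _ d => ⟨fin h z m d, ng h m d, fun n => by
  first
  | exact un h m d n
  | exact ⟨(un h m d n).1, (un h m d n).2.1, fun c e => by
      rw [← Nat.cast_smul_eq_nsmul E]
      exact (un h m d n).2.2 c (Nat.cast_ne_one.2 e)⟩⟩

end Pool.Agent.SY
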