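import Pool.Agent.Lib.MP_b4b3cb_nt.SY.LocT
import Pool.Agent.Lib.MP_b4b3cb_nt.SY.L3T
import Pool.Agent.Lib.MP_b4b3cb_nt.SY.L4b
import Pool.Agent.Lib.MP_b4b3cb_nt.SY.Rk
import Pool.Agent.Lib.MP_b4b3cb_nt.SY.EFE
import Pool.Agent.Lib.MP_b4b3cb_nt.SY.Pol
import Pool.Agent.Lib.MP_b4b3cb_nt.Eps.Loc

/-! The rank of a tame generator, the polarisation of a twist, the field of coefficients. -/

namespace Pool.Agent.SY

open NumberField IsDedekindDomain Matrix Pool.Agent.SelTwo Pool.Agent.HF Pool.Agent.SymTwo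
open Pool.Agent.Lib.MP_02f36d_nt (OV)
open scoped Classical

variable {L : Type} [Field L] [NumberField L] {W : WeierstrassCurve ℤ}
  {e : Z2 →+ ℕ → (cv W (AlgebraicClosure L)).Point} {t : Gal L → M2 ℤ_[2]}
  {E : Type} [NontriviallyNormedField E] [NormedAlgebra ℚ_[2] E]

theorem te_eq (A : M2 ℤ_[2]) : te E A = (Pol.io E).mapMatrix A := rfl

theorem te_nil {A : M2 ℤ_[2]} :
    (IsNilpotent (A - 1) → IsNilpotent (te E A - 1)) ∧
      (IsNilpotent (A + 1) → IsNilpotent (te E A + 1)) :=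
  ⟨fun h => by simpa only [te_eq, map_sub, map_one] using h.map (Pol.io E).mapMatrix,
    fun h => by simpa only [te_eq, map_add, map_one] using h.map (Pol.io E).mapMatrix⟩

theorem cyc_ine {𝔓 : Idl L} (h2 : 2 ∉ 𝔓) {g : Gal L} (hg : g ∈ Ine 𝔓) : cyc E g = 1 :=
  (congrArg (algebraMap ℚ_[2] E) (L2.cyc_one h2 hg)).trans (map_one _)

theorem exT {𝔓 : Idl L} (hm : 𝔓.IsMaximal) {w : HeightOneSpectrum (𝓞 L)}
    (hw : 𝔓.under _ = w.asIdeal) {ϖ : L} (v : w.valuation L ϖ = WithZero.exp (-1)) {N : ℕ}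
    (hN : (N : 𝓞 _) ∉ 𝔓) : ∃ (β : AlgebraicClosure L) (t : Gal L) (η : AlgebraicClosure L),
      β ≠ 0 ∧ β ^ N = algebraMap L _ ϖ ∧ t ∈ Ine 𝔓 ∧ IsPrimitiveRoot η N ∧ t β = η * β ∧
      (t ^ N) β = β := by
  have N0 : N ≠ 0 := fun z => hN (by simp [z])
  obtain ⟨β, hβ⟩ := IsAlgClosed.exists_pow_nat_eq (algebraMap L (AlgebraicClosure L) ϖ)
    (Nat.pos_of_ne_zero N0)
  obtain ⟨t, ht, η, hη, e⟩ := EP.sur (K := L) (v := w) ⟨hm, fun y => by rw [← hw]; rfl⟩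
    (ϖ := ϖ) (by simp [Stark.og, Stark.ord, v]) hN hβ
  have hη' := hη.map_of_injective (f := algebraMap _ (AlgebraicClosure L))
    (FaithfulSMul.algebraMap_injective _ _)
  have te : t η = η := by simpa using EP.fr_root hm (EP.ine_fr ht) hN hη'.pow_eq_one
  have tj : ∀ j : ℕ, (t ^ j) β = (η : AlgebraicClosure L) ^ j * β := fun j => by
    induction j with
    | zero => simp
    | succ j ih => rw [pow_succ', AlgEquiv.mul_apply, ih, map_mul, map_pow, te, e]; ring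
  refine ⟨β, t, η, fun z => ?_, hβ, ht, hη', e, by
    rw [tj, show (η : AlgebraicClosure L) ^ N = 1 from hη'.pow_eq_one, one_mul]⟩
  rw [z, zero_pow N0, eq_comm, map_eq_zero] at hβ
  rw [hβ, map_zero] at v
  exact WithZero.exp_ne_zero v.symm

theorem semi (l3 : L3TSt) (hΔ : W.Δ ≠ 0) (he : TS e)
    (ht : ∀ g : Gal L, Mt e (gm W (g : _ →+* _)) (t g)) (hd : ∀ g, (tq (t g)).det = cyc ℚ_[2] g)
    {𝔓 : Idl L} (hm : 𝔓.IsMaximal) (h2 : 2 ∉ 𝔓) {w : HeightOneSpectrum (𝓞 L)}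
    (hw : 𝔓.under _ = w.asIdeal) (a : ¬Adv W w) {g : Gal L} (hg : g ∈ Ine 𝔓) :
    IsNilpotent (t g - 1) := by
  have d : (t g).det = 1 := by
    simpa using L2.det_eq (q := 1) (A := t g) (by rw [hd, L2.cyc_one h2 hg, Nat.cast_one])
  rcases l3 L W hΔ e he t ht 𝔓 hm h2 w hw a with p | ⟨-, ⟨⟨x, x0, p, -⟩, -⟩ | ⟨⟨x, x0, p, -⟩, -⟩⟩
  · simp [p.1 g hg]
  all_goals exact L4b.nil x0 d (p g hg)

theorem inrT [FiniteDimensional ℚ_[2] E] (sy : SymSt) (rc : RamCSt) (tm : TmSt) (l3 : L3TSt)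
    (l4a : L4aSt) (l4b : L4bSt) (hΔ : W.Δ ≠ 0) (he : TS e)
    (ht : ∀ g : Gal L, Mt e (gm W (g : _ →+* _)) (t g)) (hd : ∀ g, (tq (t g)).det = cyc ℚ_[2] g)
    {ζ : E} (hζ : IsPrimitiveRoot ζ 12) {κ : Gal L →* E} (ct : Continuous κ)
    (one : ∀ g, ‖κ g - 1‖ < 1) {m : ℕ} (ρ : Gal L →* Matrix (Fin (m + 1)) (Fin (m + 1)) E)
    (hρ : ∀ g, ρ g = κ g • sym m (te E (t g))) {𝔓 : Idl L} (hm : 𝔓.IsMaximal) (h2 : 2 ∉ 𝔓)
    {w : HeightOneSpectrum (𝓞 L)} (hw : 𝔓.under _ = w.asIdeal) {ϖ : L}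
    (v : w.valuation L ϖ = WithZero.exp (-1))
    (ha : Adv W w → 3 ∉ 𝔓 ∧ ∀ g ∈ Ine 𝔓, κ g = 1) :
    ∃ a, Inr ρ 𝔓 a ∧ ((∃ g ∈ Ine 𝔓, κ g ≠ 1) → a = m + 1) ∧
      ((∀ g ∈ Ine 𝔓, κ g = 1) → Even m ∨ Adv W w → Even a) := by
  have := charZero_of_injective_algebraMap (algebraMap ℚ_[2] E).injective
  have R := fun g (hg : g ∈ Ine 𝔓) => rkE sy E ζ hζ m (te E (t g)) (by
    rw [te_det, hd]; exact cyc_ine h2 hg)
  have p2 : ∀ n : ℕ, ((2 ^ n : ℕ) : 𝓞 (AlgebraicClosure L)) ∉ 𝔓 := fun n a =>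
    h2 (hm.isPrime.mem_of_pow_mem n (by exact_mod_cast a))
  by_cases a : Adv W w
  · obtain ⟨h3, u⟩ := ha a
    have n : ∀ n : ℕ, ((2 ^ n * 3 : ℕ) : 𝓞 (AlgebraicClosure L)) ∉ 𝔓 := fun n b => by
      rw [Nat.cast_mul] at b
      exact (hm.isPrime.mem_or_mem b).elim (p2 n) fun c => h3 (by exact_mod_cast c)
    obtain ⟨β, τ, η, b0, b1, b2, b3, b4, b5⟩ := exT (N := 12) hm hw v (n 2)
    have r : ∀ g ∈ Ine 𝔓, ρ g = sym m (te E (t g)) := fun g hg => by rw [hρ, u g hg, one_smul]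
    have k : (∀ g ∈ Ine 𝔓, g β = β → IsNilpotent (t g - 1)) ∧ Even (sym m (te E (t τ)) - 1).rank := by
      by_cases j : ((W.c₄ : L) ^ 3 / W.Δ) ∈ OV w
      · have := l4a L W hΔ e he t ht 𝔓 hm h2 h3 w hw ϖ β v b1 j
        obtain ⟨T, hT⟩ := exHom he.toTW ht
        refine ⟨fun g hg b => by simp [this g hg b], (R τ b2).1 ?_⟩
        rw [te_eq, ← map_pow, ← hT, ← map_pow, hT, this _ (pow_mem b2 _) b5, map_one]
      · have := l4b L W hΔ e he t ht hd 𝔓 hm h2 h3 w hw ϖ β v b1 j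
        exact ⟨fun g hg b => (this g hg).1 b, (R τ b2).2.1 (te_nil.2 ((this τ b2).2 a η b3 b4))⟩
    exact ⟨_, ⟨12, β, τ, η, n 3, by decide, b0, fun g _ => by
      rw [b1, g.commutes], b2, b3, b4, fun g hg b => by
        rw [r g hg]
        exact ((R g hg).2.2 (te_nil.1 (k.1 g hg b))).1, rfl⟩,
      fun ⟨g, hg, b⟩ => (b (u g hg)).elim, fun _ _ => r τ b2 ▸ k.2⟩
  obtain ⟨⟨r, r0, hr⟩, -⟩ := rc L E κ ct one
  obtain ⟨β, τ, η, b0, b1, b2, b3, b4, -⟩ := exT hm hw v (p2 r)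
  have fx : ∀ g ∈ Ine 𝔓, g (β ^ 2 ^ r) = β ^ 2 ^ r := fun g _ => by rw [b1, g.commutes]
  have T := tm L E κ ct 𝔓 hm h2 r r0 (hr 𝔓 hm h2) β η τ b0 fx b2 b3 b4
  have U := fun g hg => (R g hg).2.2 (te_nil.1 (semi l3 hΔ he ht hd hm h2 hw a hg))
  refine ⟨_, ⟨2 ^ r, β, τ, η, by rw [← pow_succ']; exact p2 _, (Nat.even_pow.2 ⟨even_two, r0.ne'⟩),
    b0, fx, b2, b3, b4, fun g hg b => ?_, rfl⟩, fun ⟨g, hg, b⟩ => ?_, fun u h => ?_⟩
  · obtain ⟨n, n1, n2⟩ := T g hg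
    obtain ⟨c, rfl⟩ := (b3.pow_eq_one_iff_dvd n).1
      (mul_right_cancel₀ b0 (by rw [← n2, b, one_mul]))
    rw [hρ, n1, pow_mul, hr 𝔓 hm h2 τ b2, one_pow, one_smul]
    exact (U g hg).1
  · obtain ⟨n, n1, -⟩ := T g hg
    rw [hρ, rank_of_isUnit _ ((U τ b2).2.2 _ fun z => b (by rw [n1, z, one_pow])), Fintype.card_fin]
  · rw [hρ, u τ b2, one_smul]
    exact (U τ b2).2.1 (h.resolve_right a)

omit [NormedAlgebra ℚ_[2] E] in
theorem polT [IsUltrametricDist E] {G : Type} [Group G] [TopologicalSpace G] {n : ℕ}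
    {ρ ρ' : G →* Matrix (Fin n) (Fin n) E} {χ : G → E} {cj : G → G} {B : Matrix (Fin n) (Fin n) E}
    (h : PolS ρ χ cj B) {ψ : G → E} (ct : Continuous ψ) (one : ∀ g, ‖ψ g - 1‖ < 1)
    (du : ∀ g, ψ g * ψ (cj g) = 1) (e : ∀ g, ρ' g = ψ g • ρ g) : PolS ρ' χ cj B := by
  obtain ⟨a1, a2, a3, a4, a5, a6, M, m1, m2, m3, m4⟩ := h
  have n1 : ∀ g, ‖ψ g‖ ≤ 1 := fun g => by
    simpa using (IsUltrametricDist.norm_add_le_max (ψ g - 1) 1).trans (max_le (one g).le (by simp))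
  have im : ∀ A B : Matrix (Fin n) (Fin n) E, Int A → Int B → Int (A * B) := fun A B a b i j => by
    rw [mul_apply]
    refine IsUltrametricDist.norm_sum_le_of_forall_le_of_nonneg zero_le_one fun k _ => ?_
    rw [norm_mul]
    exact mul_le_one₀ (a _ _) (norm_nonneg _) (b _ _)
  refine ⟨by rw [show ⇑ρ' = _ from funext e]; exact ct.smul a1, fun g i j => ?_, a3, a4, a5,
    fun g => ?_, M, m1, m2, fun g i j => ?_, m4⟩
  · rw [e, Matrix.smul_apply, smul_eq_mul, norm_mul]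
    exact mul_le_one₀ (n1 g) (norm_nonneg _) (a2 g i j)
  · rw [e, e, transpose_smul, Matrix.smul_mul, Matrix.smul_mul, Matrix.mul_smul, smul_smul, du,
      one_smul, a6]
  · have : (M * ρ' g - ρ' (cj g) * M) i j = (ψ g - 1) * (M * ρ g) i j +
        ((M * ρ g - ρ (cj g) * M) i j + -(ψ (cj g) - 1) * (ρ (cj g) * M) i j) := by
      simp only [e, Matrix.mul_smul, Matrix.smul_mul, Matrix.sub_apply, Matrix.smul_apply,
        smul_eq_mul]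
      ring
    rw [this]
    refine (IsUltrametricDist.norm_add_le_max _ _).trans_lt (max_lt ?_
      ((IsUltrametricDist.norm_add_le_max _ _).trans_lt (max_lt (m3 g i j) ?_)))
    · rw [norm_mul]
      exact mul_lt_one_of_nonneg_of_lt_one_left (norm_nonneg _) (one g) (im _ _ m1 (a2 g) i j)
    · rw [norm_mul, norm_neg]
      exact mul_lt_one_of_nonneg_of_lt_one_left (norm_nonneg _) (one _) (im _ _ (a2 _) m1 i j)

theorem efe2 (E : Type) [NontriviallyNormedField E] [NormedAlgebra ℚ_[2] E]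
    [FiniteDimensional ℚ_[2] E] {N M : ℕ} (hN : 0 < N) (hM : 0 < M) :
    ∃ (E' : Type) (_ : NontriviallyNormedField E') (_ : NormedAlgebra ℚ_[2] E')
    (_ : FiniteDimensional ℚ_[2] E') (f : E →ₐ[ℚ_[2]] E') (s ζ : E') (_ : E' →+* ℂ),
    (∀ x, ‖f x‖ = ‖x‖) ∧ s ^ M = 2 ∧ IsPrimitiveRoot ζ N := by
  have : NeZero N := ⟨hN.ne'⟩
  obtain ⟨s, hs⟩ := IsAlgClosed.exists_pow_nat_eq (2 : AlgebraicClosure ℚ_[2]) hM
  obtain ⟨ζ, hζ⟩ := HasEnoughRootsOfUnity.exists_primitiveRoot (AlgebraicClosure ℚ_[2]) N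
  obtain ⟨ι⟩ := EFE.emb
  let φ : E →ₐ[ℚ_[2]] AlgebraicClosure ℚ_[2] := IsAlgClosed.lift
  have h1 : FiniteDimensional ℚ_[2] (IntermediateField.adjoin ℚ_[2] {s, ζ}) :=
    IntermediateField.finiteDimensional_adjoin fun x _ => Algebra.IsIntegral.isIntegral x
  have h2 : FiniteDimensional ℚ_[2] φ.fieldRange :=
    (AlgEquiv.ofInjectiveField φ).toLinearEquiv.finiteDimensional
  let E' := φ.fieldRange ⊔ IntermediateField.adjoin ℚ_[2] {s, ζ}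
  have h3 : FiniteDimensional ℚ_[2] E' := IntermediateField.finiteDimensional_sup _ _
  have m : ∀ x ∈ ({s, ζ} : Set _), x ∈ E' := fun x hx =>
    (le_sup_right : _ ≤ E') (IntermediateField.subset_adjoin _ _ hx)
  let f : E →ₐ[ℚ_[2]] E' := φ.codRestrict E'.toSubalgebra fun x => (le_sup_left : _ ≤ E') ⟨x, rfl⟩
  refine ⟨E', spectralNorm.nontriviallyNormedField ℚ_[2] E', spectralNorm.normedAlgebra ℚ_[2] E',
    h3, f, ⟨s, m _ (by simp)⟩, ⟨ζ, m _ (by simp)⟩, ι.toRingHom.comp E'.val.toRingHom, fun x => ?_,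
    Subtype.ext hs, IsPrimitiveRoot.of_map_of_injective (f := E'.val) hζ Subtype.val_injective⟩
  rw [NormedAlgebra.norm_eq_spectralNorm ℚ_[2] x]
  change spectralNorm ℚ_[2] E' (f x) = _
  rw [spectralNorm, spectralNorm, minpoly.algHom_eq f f.injective]

end Pool.Agent.SY
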