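import Pool.Agent.Lib.MP_b4b3cb_nt.SY.Ts

/-! Odd primes of semistable reduction. -/

namespace Pool.Agent.SY

open NumberField IsDedekindDomain Matrix WeierstrassCurve Pool.Agent.SelTwo
open Pool.Agent.Lib.MP_02f36d_nt (Place Sp SpW ptMap OV Node xc SSO SplitO Nu Intg sp_ofNat
  sp_of_mem sso_of_not_additive split_iff exists_node' xc_ptMap mem_OV nu_OV)
open scoped Classical

namespace L3

variable {L : Type} [Field L] [NumberField L] {𝔓 : Idl L} {k : Type} [Field k]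
  {p : Place (AlgebraicClosure L) k} {w : HeightOneSpectrum (𝓞 L)}

theorem exP0 (h : IsPl 𝔓 p) (hw : 𝔓.under _ = w.asIdeal) : ∃ p₀ : Place L k, p₀.A = OV w ∧
    ∀ x c, Sp p₀ x c → Sp p (algebraMap L (AlgebraicClosure L) x) c := by
  let f : OV w →+* p.A := ((algebraMap L (AlgebraicClosure L)).comp (OV w).subtype).codRestrict
    p.A.toSubring fun x => (h.ov w hw x).2 x.2
  refine ⟨⟨OV w, p.ρ.comp f, fun x hx => ?_⟩, rfl, ?_⟩
  · have a : Sp p (algebraMap L (AlgebraicClosure L) x) (p.ρ (f x)) := ⟨(f x).2, rfl⟩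
    have b := (a.inv hx).mem
    rw [← map_inv₀, h.ov w hw] at b
    have c : (x : L) ≠ 0 := fun e => a.ne_zero hx (by rw [e, map_zero])
    exact IsUnit.of_mul_eq_one ⟨_, b⟩ (Subtype.ext (mul_inv_cancel₀ c))
  · rintro x _ ⟨hx, rfl⟩
    exact ⟨(h.ov w hw x).2 hx, rfl⟩

theorem two_ne (h : IsPl 𝔓 p) (h2 : 2 ∉ 𝔓) : (2 : k) ≠ 0 := fun e => by
  obtain ⟨c, a, b⟩ := h.int 2
  exact h2 (b.1 ((a.unique (sp_ofNat 2)).trans e))

theorem fix_of (h : IsPl 𝔓 p) {p₀ : Place L k} (e : p₀.A = OV w)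
    (hc : ∀ x c, Sp p₀ x c → Sp p (algebraMap L (AlgebraicClosure L) x) c) {c : k}
    (m : c ∈ p₀.ρ.range) : c ^ nq 𝔓 = c := by
  obtain ⟨x, hx⟩ := Lib.MP_02f36d_nt.sp_of_range m
  obtain ⟨n, d, hd, e1⟩ := (mem_OV w x).1 (e ▸ hx.mem)
  have a := sp_of_mem (p := p₀) (x := (n : L)) (e ▸ w.valuation_le_one n)
  have b := sp_of_mem (p := p₀) (x := (d : L)) (e ▸ w.valuation_le_one d)
  have b0 := fun z => hd ((nu_OV w d).1 (e ▸ b.nu_iff.2 z))
  have a1 := (h.fix _).2 ⟨n, hc _ _ a⟩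
  have b1 := (h.fix _).2 ⟨d, hc _ _ b⟩
  rw [eq_div_of_mul_eq b0 ((hx.mul b).eq a e1), div_pow, a1, b1]

omit [NumberField L] in
theorem fb_of {g : Gal L} {n : ℕ} (h : ∀ y, g • y - y ^ n ∈ 𝔓) :
    Fb 𝔓 n (g : AlgebraicClosure L →+* AlgebraicClosure L) := fun x y e => by
  rw [show y = g • x from Subtype.ext e]
  exact h x

omit [NumberField L] in
theorem fb_ine {g : Gal L} (h : g ∈ Ine 𝔓) :
    Fb 𝔓 1 (g : AlgebraicClosure L →+* AlgebraicClosure L) :=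
  fb_of fun y => by rw [pow_one]; exact h y

end L3

open L3 in
/-- Odd primes of semistable reduction. -/
theorem l3 : PlcSt → UnSt → VcSt → GoodSt → MultSt → RamSt → L3St := by
  intro plc un vc good mult ram L _ _ W hΔ e he t ht 𝔓 hm h2 w hw hadd
  obtain ⟨k, _, _, p, hp⟩ := plc L 𝔓 hm
  obtain ⟨p₀, e0, hc⟩ := exP0 hp hw
  have k2 := two_ne hp h2
  have q0 : 0 < nq 𝔓 := Nat.pos_of_ne_zero fun z => by
    rw [nq, hw, Ideal.absNorm_eq_zero_iff] at z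
    exact w.ne_bot z
  obtain ⟨C, hC⟩ : ∃ C : VariableChange L, C • W.baseChange L = (W.baseChange L).minimal (OV w) :=
    ⟨_, rfl⟩
  have sso : SSO p₀.A ((W.baseChange L).minimal (OV w)) := by
    rw [e0]
    exact sso_of_not_additive _ _ hadd
  have spl : Spm W w ↔ SplitO p₀.A ((W.baseChange L).minimal (OV w)) := by
    rw [e0]
    exact split_iff _ _
  obtain ⟨U, hU⟩ := sso.1.spW
  obtain ⟨e', he', H⟩ := vc _ (cv W (AlgebraicClosure L))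
    (C.map (algebraMap L (AlgebraicClosure L))) (cv_Δ hΔ) e he
  have hV : SpW p (C.map (algebraMap L (AlgebraicClosure L)) • cv W (AlgebraicClosure L)) U := by
    have a := hU.map (q := p) (j := RingHom.id k) hc
    have b := map_variableChange (cv W L) C (algebraMap L (AlgebraicClosure L))
    rw [← hC] at a
    rw [← cv_map W (algebraMap L (AlgebraicClosure L))]
    exact b ▸ a
  have hΔ' : (C.map (algebraMap L (AlgebraicClosure L)) • cv W (AlgebraicClosure L)).Δ ≠ 0 :=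
    Lib.MP_02f36d_nt.Δ_smul_ne (cv_Δ hΔ) _
  have H' := fun g : Gal L => H (g : AlgebraicClosure L →+* AlgebraicClosure L) (cv_map W _) (by
    rw [VariableChange.map_map]
    exact congrArg C.map (RingHom.ext g.commutes)) (t g) (ht g)
  by_cases hU0 : U.Δ = 0
  swap
  · refine Or.inl ⟨fun g hg => ?_, fun s => hU0 (hU.Δ.nu_iff.1 (spl.1 s).2.1)⟩
    obtain ⟨φ, a, b⟩ := hp.fr _ 1 one_pos (fb_ine hg)
    obtain ⟨h', m⟩ := H' g
    exact (good _ k p hp.sur k2 _ U hV hU0 e' he'.toTW _ φ 1 h' _ b a m).1 rfl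
  have hc4 : U.c₄ ≠ 0 := (hU.ss sso).resolve_right (not_not.2 hU0)
  have rm : ∃ g ∈ Ine 𝔓, t g ≠ 1 := by
    obtain ⟨r, b, b0, b1, hr⟩ := ram _ k p hp.sur k2 _ U hV hΔ' hU0 hc4
    choose P m c h1 h3 h4 using hr
    obtain ⟨g, hg, g1, n, g2⟩ := (un L 𝔓 hm h2 {r}).2 k p hp b (fun n => xc (P n) - r) b0 b1
      fun n => ⟨c n, h3 n, h4 n⟩
    refine ⟨g, hg, fun z => g2 ?_⟩
    obtain ⟨h', mt⟩ := H' g
    obtain ⟨x, hx⟩ := he'.sur (half hΔ') (h1 n)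
    have := congrArg xc (mt x (m n))
    rw [z, one_mulVec, hx, xc_ptMap] at this
    rw [map_sub, g1 r (Finset.mem_singleton_self r)]
    exact congrArg (· - r) this.symm
  have key : ∀ x₀ y₀ α β, Node U x₀ y₀ α β →
      (α ^ nq 𝔓 = α → LM t 𝔓 1) ∧ (α ^ nq 𝔓 ≠ α → LM t 𝔓 (-1)) := fun x₀ y₀ α β hn => by
    obtain ⟨x, x0, hx⟩ := mult _ k p hp.sur k2 _ U hV hΔ' x₀ y₀ α β hn e' he'
    have i1 : ∀ g ∈ Ine 𝔓, t g *ᵥ x = x := fun g hg => by
      obtain ⟨φ, a, b⟩ := hp.fr _ 1 one_pos (fb_ine hg)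
      obtain ⟨h', m⟩ := H' g
      simpa using (hx _ φ 1 h' _ b a m).1 (by rw [a, pow_one])
    refine ⟨fun z => ⟨x, x0, i1, rm, fun σ hσ => ?_⟩, fun z => ⟨x, x0, i1, rm, fun σ hσ => ?_⟩⟩ <;>
      obtain ⟨φ, a, b⟩ := hp.fr _ _ q0 (fb_of hσ) <;> obtain ⟨h', m⟩ := H' σ
    · simpa using (hx _ φ _ h' _ b a m).1 (by rw [a, z])
    · simpa using (hx _ φ _ h' _ b a m).2 (by rw [a]; exact z)
  by_cases s : Spm W w
  · obtain ⟨x₀, y₀, α, hn, m⟩ := SplitO.node hU (spl.1 s)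
    exact Or.inr (Or.inl ⟨(key _ _ _ _ hn).1 (fix_of hp e0 hc m), s⟩)
  · obtain ⟨x₀, y₀, α, hn⟩ := exists_node' hU0 hc4
    refine Or.inr (Or.inr ⟨(key _ _ _ _ hn).2 fun z => s (spl.2 ?_), s⟩)
    obtain ⟨a, ha⟩ := (hp.fix α).1 z
    have m : (a : L) ∈ p₀.A := e0 ▸ w.valuation_le_one a
    have s1 : Sp p₀ (a : L) α := (hc _ _ (sp_of_mem m)).unique ha ▸ sp_of_mem m
    refine ⟨sso.1, hU.Δ.nu_iff.2 hU0, fun z => hc4 (hU.c₄.nu_iff.1 z), a, m, ?_⟩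
    refine (((hU.c₄.mul (s1.pow 2)).add ((hU.h1.mul hU.c₄).mul s1)).sub
      (((((sp_ofNat 54).mul hU.b₆).sub (((sp_ofNat 3).mul hU.b₂).mul hU.b₄))).add
        (hU.h2.mul hU.c₄))).nu_iff.2 ?_
    linear_combination 3 * hn.x_eq - U.c₄ * hn.h2

end Pool.Agent.SY
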