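import Pool.Agent.Lib.MP_b4b3cb_nt.SY.AtTwo

/-! The parity theorem from the steps. -/

namespace Pool.Agent.SY

open NumberField IsDedekindDomain Matrix Pool.Agent.SelTwo Pool.Agent.HF Pool.Agent.SymTwo
open scoped Classical

variable {L : Type} [Field L] [NumberField L]

omit [NumberField L] in
theorem mem_under {𝔓 : Idl L} {w : HeightOneSpectrum (𝓞 L)} (h : 𝔓.under _ = w.asIdeal) (n : ℤ) :
    (n : 𝓞 _) ∈ 𝔓 ↔ (n : 𝓞 L) ∈ w.asIdeal := by
  rw [← h, Ideal.under, Ideal.mem_comap, map_intCast]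

theorem bc_nt : Nontrivial Bc := by
  obtain ⟨X, -⟩ := exPD (G := Unit) 1 (fun _ _ => rfl) (fun _ => continuous_const) 1 (by simp)
  by_contra! h
  have := X.kr 1 (Subsingleton.elim _ _)
  rw [map_one] at this
  exact X.nu (by rw [← mul_one (X.β _), this, mul_zero, ← this]; exact isUnit_one)

theorem main (sy : SymSt) (det : DetSt) (l1 : L1St) (l2 : L2St) (l3 : L3St) (inv : InvSt)
    (pol : PolSt) (eps : EpsSt) (ok : OkSt) (ef : EFSt) (cnt : CntSt) (bas1 : Bas1St)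
    (bas2 : Bas2St) (all : AllSt) (pt1 : PT1St) (pt2 : PT2St) (lang : LangSt) (ord : OrdSt)
    (h1s : H1St) (oper : OPerSt) (ss : SSSt) (per : PerSt) [IsCMField L]
    (hL : Module.finrank ℚ L = 2) (W : WeierstrassCurve ℤ) (hW : Odd W.Δ)
    (hs : ∀ w : HeightOneSpectrum (𝓞 L), Fxd w → 2 ∉ w.asIdeal ∧ ¬Adv W w)
    (t : Gal L → M2 ℤ_[2]) (ht : Tate W t) (k : ℕ)
    (ρ : Gal L →* Matrix (Fin (2 * k + 1 + 1)) (Fin (2 * k + 1 + 1)) ℚ_[2])
    (hρ : ∀ g, ρ g = (cyc ℚ_[2] g ^ k)⁻¹ • sym (2 * k + 1) (tq (t g))) :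
    (Submodule.span ℚ_[2] (Hf ρ)).FG ∧ (-1 : ℤ) ^ h1 ρ ⊤ (Hf ρ) =
      (-1) ^ (k + 1 + {w : HeightOneSpectrum (𝓞 L) | Spm W w}.ncard) := by
  obtain ⟨e, e1, e2, e3⟩ := ht
  have he : TS e := ts_of e1 e2
  have ht : ∀ g : Gal L, Mt e (gm W (g : _ →+* _)) (t g) := fun g x n => by
    rw [e3]
    cases e x n <;> rfl
  have hΔ : W.Δ ≠ 0 := fun h => by simp [h] at hW
  obtain ⟨ct, hd, cj, C, c1, c2, c3, c4⟩ := det L W hΔ e he t ht
  simp only [← hd] at hρ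
  have F := SP.facts L (AlgebraicClosure L)
  choose Q hQ' using F.pr.ex L
  have hQ : ∀ w, (Q w).IsMaximal ∧ (Q w).under _ = w.asIdeal := fun w =>
    ⟨(hQ' w).1, Ideal.ext fun x => ((hQ' w).2 x).symm⟩
  have fx : ∀ {𝔓 : Idl L} {w}, 𝔓.under _ = w.asIdeal → (Nonsplit 𝔓 ↔ Fxd w) := fun h => by
    rw [Nonsplit, h, Fxd]
  have m2 : ∀ {𝔓 : Idl L} {w : HeightOneSpectrum (𝓞 L)}, 𝔓.under _ = w.asIdeal →
      (2 ∈ 𝔓 ↔ 2 ∈ w.asIdeal) := fun h => by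
    simpa using mem_under h 2
  have sp : ∀ 𝔓 : Idl L, 𝔓.IsMaximal → 2 ∈ 𝔓 → ¬Nonsplit 𝔓 := fun 𝔓 a b c => by
    obtain ⟨w, hw⟩ := F.pr.under L 𝔓 a
    have h : 𝔓.under _ = w.asIdeal := Ideal.ext fun x => (hw.2 x).symm
    exact (hs w ((fx h).1 c)).1 ((m2 h).1 b)
  have fin : {w | ∃ g ∈ Ine (Q w), t g ≠ 1}.Finite := by
    refine (Ideal.finite_factors (I := Ideal.span {((2 * W.Δ : ℤ) : 𝓞 L)}) (by simpa using hΔ)).subset
      fun w ⟨g, g1, g2⟩ => ?_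
    rw [Set.mem_ofPred, Ideal.dvd_span_singleton, ← mem_under (hQ w).2, Int.cast_mul,
      (hQ w).1.isPrime.mul_mem_iff_mem_or_mem]
    by_contra! H
    refine g2 ((l1 L W e he.toTW _ (hQ w).1 (by simpa using H.1) H.2 _ 1 _ one_pos (fun x y h => ?_)
      (ht g)).1 rfl)
    rw [pow_one, show y = g • x from RingOfIntegers.ext h]
    exact g1 x
  let T := fin.toFinset.filter Fxd
  have mT : ∀ w, w ∈ T ↔ (∃ g ∈ Ine (Q w), t g ≠ 1) ∧ Fxd w := fun w => by simp [T]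
  obtain ⟨N, N0, hN⟩ := ok L hL T fun w h => ⟨((mT w).1 h).2, (hs w ((mT w).1 h).2).1⟩
  obtain ⟨E, _, _, _, s, ζ, s2, hζ⟩ := ef N N0
  obtain ⟨ϖ, Ψ, hT⟩ := hN E ζ hζ
  obtain ⟨T', hT'⟩ := exHom he.toTW ht
  obtain ⟨ρ', B, q1, q2⟩ := pol _ E s s2 t cj C ct
    (fun g => hT' g ▸ (isUnit_iff_isUnit_det _).1 ((Group.isUnit g).map T')) c2 c3 c4 k ρ hρ
  rw [show (fun g => algebraMap ℚ_[2] E (tq (t g)).det) = cyc E from funext fun g => by
    rw [hd]; rfl] at q2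
  have one : ∀ g, t g = 1 → ρ' g = 1 := fun g h => by
    obtain ⟨D, d1, d2⟩ := q1
    refine d1.mul_left_cancel ?_
    rw [d2, hρ, h, tq_one, sy.one, det_one, one_pow, inv_one, one_smul,
      Matrix.map_one _ (map_zero _) (map_one _), one_mul, mul_one]
  have b1 := bas1 L E _ ρ ρ' q1
  have at2 := fun j => atTwo all pt1 pt2 lang ord h1s oper ss per hL hW he.toTW ht ct hd j
    (sp _ (pj_max j).1 (pj_max j).2) ρ hρ
  obtain ⟨j⟩ : Nonempty (AlgebraicClosure L →+* ℂ_[2]) := by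
    have : Algebra.IsAlgebraic ℚ (AlgebraicClosure L) := Algebra.IsAlgebraic.trans ℚ L _
    exact ⟨(IsAlgClosed.lift (R := ℚ) (S := AlgebraicClosure L) (M := ℂ_[2])).toRingHom⟩
  have l3' := fun w (h : Fxd w) => l3 L W hΔ e he t ht _ (hQ w).1
    (mt (m2 (hQ w).2).1 (hs w h).1) w (hQ w).2 (hs w h).2
  obtain ⟨r1, r2⟩ := main6 L hL E _ ρ' cj c1 B q2 (fun 𝔓 h => b1.1 _ fun v hv => by
      by_cases p : 2 ∈ 𝔓
      · obtain ⟨j, rfl⟩ := (all L hL).2 𝔓 h p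
        obtain ⟨a, a1, -, -, -, a5⟩ := exA j
        have z := (at2 j).1 (al Bc v) (fun g u s d _ => by rw [ac_al, hv g ((a5 _ _).1 d).1])
          fun s _ i => s.commutes _
        have := bc_nt
        exact funext fun i => (algebraMap ℚ_[2] Bc).injective
          ((congrFun z i).trans (map_zero _).symm)
      · exact inv _ t _ k (l2 L W hΔ e he t ht hd 𝔓 h p) v fun g hg => hρ g ▸ hv g hg)
    sp (fun j => (b1.2 j).1 (at2 j).1) j _ ((b1.2 j).2 _ (at2 j).2) Q hQ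
    (fin.subset fun w ⟨g, g1, g2⟩ => ⟨g, g1, mt (one g) g2⟩) T
    (fun w a b g c => one g (not_not.1 fun d => a ((mT w).2 ⟨⟨g, c, d⟩, (fx (hQ w).2).1 b⟩)))
    ϖ Ψ hT (fun w => if Spm W w then -1 else 1) fun w h => by
      obtain ⟨⟨g, g1, g2⟩, f⟩ := (mT w).1 h
      have ep := eps L E t hd k ρ hρ ρ' q1 _ (hQ w).1 (mt (m2 (hQ w).2).1 (hs w f).1) w (hQ w).2 _ _
        (hT w h).2.1.2 (hT w h).2.2.1 (hT w h).2.2.2.1
      rcases l3' w f with p | p | p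
      · exact (g2 (p.1 g g1)).elim
      · simpa [p.2] using ep 1 (Or.inl rfl) p.1
      · simpa [p.2] using ep (-1) (Or.inr rfl) p.1
  obtain ⟨r3, r4⟩ := bas2 L E _ ρ ρ' q1 r1
  refine ⟨r3, ?_⟩
  obtain ⟨n1, n2⟩ := cnt L W hΔ
  have n3 : {w : HeightOneSpectrum (𝓞 L) | Spm W w}.ncard = (T.filter (Spm W)).card +
      {w : HeightOneSpectrum (𝓞 L) | Spm W w ∧ ¬Fxd w}.ncard := by
    rw [← Set.ncard_inter_add_ncard_sdiff_eq_ncard _ {w | Fxd w} n1, ← Set.ncard_coe_finset]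
    congr 2
    ext w
    simp only [Finset.coe_filter, mT, Set.mem_inter_iff, Set.mem_ofPred]
    refine ⟨fun ⟨a, b⟩ => ⟨⟨?_, b⟩, a⟩, fun h => ⟨h.2, h.1.2⟩⟩
    rcases l3' w b with p | p | p
    · exact (p.2 a).elim
    · exact p.1.choose_spec.2.2.1
    · exact (p.2 a).elim
  have n4 : (Finset.univ.filter fun i : Fin (2 * k + 1 + 1) => (0 : ℤ) < k + 1 - (i : ℕ)).card =
      k + 1 := by
    refine (congrArg Finset.card (Finset.filter_congr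
      (q := fun i : Fin (2 * k + 1 + 1) => (i : ℕ) < k + 1) fun i _ => by omega)).trans ?_
    rw [Fin.card_filter_val_lt]
    omega
  rw [Finset.prod_ite, Finset.prod_const, Finset.prod_const_one, mul_one, n4, ← r4] at r2
  have := charZero_of_injective_algebraMap (algebraMap ℚ_[2] E).injective
  have r5 : (-1 : ℤ) ^ (h1 ρ ⊤ (Hf ρ) + (k + 1)) = (-1) ^ (T.filter (Spm W)).card := by
    exact_mod_cast r2
  rw [n3, pow_add _ (k + 1), pow_add _ (Finset.card _), n2.neg_one_pow, ← r5, pow_add _ _ (k + 1),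
    mul_one, mul_left_comm, ← mul_pow]
  simp

end Pool.Agent.SY
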