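import Pool.Agent.Lib.MP_b4b3cb_nt.SY.St3
import Pool.Agent.Lib.MP_b4b3cb_nt.SY.Main
import Pool.Agent.Lib.MP_b4b3cb_nt.SY.L2
import Pool.Agent.Lib.MP_b4b3cb_nt.SY.Det
import Pool.Agent.Lib.MP_b4b3cb_nt.SY.Ac

/-! The local conditions for the twisted symmetric powers. -/

namespace Pool.Agent.SY

open NumberField Matrix WeierstrassCurve Pool.Agent.SelTwo Pool.Agent.HF Pool.Agent.SymTwo
open Pool.Agent.Lib.MP_02f36d_nt (Place Sp SpW ptMap xc xc_ptMap exists_node')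
open scoped Classical TensorProduct

section

variable {L : Type} [Field L] {E : Type} [NontriviallyNormedField E] [NormedAlgebra ℚ_[2] E]

theorem cyc_mul (g h : Gal L) : cyc E (g * h) = cyc E g * cyc E h :=
  map_mul (SP.cycE E L (AlgebraicClosure L)) g h

theorem cyc_one' : cyc E (1 : Gal L) = 1 := map_one (SP.cycE E L (AlgebraicClosure L))

theorem cyc_norm (g : Gal L) : ‖cyc E g‖ = 1 := by
  rw [cyc, norm_algebraMap']
  exact PadicInt.norm_units _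

theorem cyc_ne (g : Gal L) : cyc E g ≠ 0 := norm_ne_zero_iff.1 (by rw [cyc_norm]; exact one_ne_zero)

theorem cyc_cont [NumberField L] : Continuous (cyc E : Gal L → E) :=
  (continuous_algebraMap ℚ_[2] E).comp ((continuous_subtype_val (p := fun x : ℚ_[2] => ‖x‖ ≤ 1)).comp
    ((Units.continuous_val (M := ℤ_[2])).comp (cyclotomicCharacter.continuous 2 L (AlgebraicClosure L))))

/-- The twist by a power of the cyclotomic character. -/
noncomputable def tw (κ : Gal L →* E) (a : ℤ) : Gal L →* E where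
  toFun g := κ g / cyc E g ^ a
  map_one' := by simp [cyc_one']
  map_mul' g h := by rw [map_mul, cyc_mul, mul_zpow, mul_div_mul_comm]

theorem tw_apply (κ : Gal L →* E) (a : ℤ) (g : Gal L) : tw κ a g = κ g / cyc E g ^ a := rfl

theorem tw_cont [NumberField L] {κ : Gal L →* E} (h : Continuous κ) (a : ℤ) :
    Continuous (tw κ a) :=
  h.div (cyc_cont.zpow₀ a fun g => Or.inl (cyc_ne g)) fun g => zpow_ne_zero _ (cyc_ne g)

theorem LA.tw {κ : Gal L →* E} {𝔓 : Idl L} {a : ℤ} (h : LA κ 𝔓 a) (b : ℤ) :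
    LA (tw κ b) 𝔓 (a - b) := by
  obtain ⟨M, m0, hM⟩ := h
  exact ⟨M, m0, fun g hg => by
    rw [tw_apply, div_pow, hM g hg, zpow_sub₀ (cyc_ne g), div_pow]⟩

theorem te_det {A : M2 ℤ_[2]} : (te E A).det = algebraMap ℚ_[2] E (tq A).det :=
  (RingHom.map_det _ _).symm

end

/-- All odd primes. -/
def L2TSt : Prop :=
  ∀ (L : Type) [Field L] [NumberField L] (W : WeierstrassCurve ℤ), W.Δ ≠ 0 →
    ∀ e : Z2 →+ ℕ → (cv W (AlgebraicClosure L)).Point, TS e → ∀ t : Gal L → M2 ℤ_[2],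
    (∀ g : Gal L, Mt e (gm W (g : _ →+* _)) (t g)) → (∀ g, (tq (t g)).det = cyc ℚ_[2] g) →
    ∀ 𝔓 : Idl L, 𝔓.IsMaximal → 2 ∉ 𝔓 → Pu t (Wl 𝔓)

open L2 in
theorem l2T (hP : PlcSt) (hU : UnSt) (hV : VcSt) (hO : PotSt) (hG : GoodSt) (hM : MultSt)
    (hR : RamSt) : L2TSt := by
  intro L _ _ W hΔ e he t ht hd 𝔓 hm h2
  obtain ⟨k, _, _, p, pl⟩ := hP L 𝔓 hm
  have k2 := two pl h2
  have h0 : (cv W (AlgebraicClosure L)).Δ ≠ 0 := cv_Δ hΔ
  obtain ⟨C, U, sp, ss⟩ := hO _ k p k2 _ h0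
  obtain ⟨e', he', H⟩ := hV _ _ C h0 e he
  have h1 : (C • cv W (AlgebraicClosure L)).Δ ≠ 0 := by
    rw [variableChange_Δ]
    exact mul_ne_zero (pow_ne_zero _ (Units.ne_zero _)) h0
  obtain ⟨g, gD, q, q1, gF, gc, gS⟩ := (hU L 𝔓 hm h2 {C.u.1, C.r, C.s, C.t}).1
  have gW : g ∈ Wl 𝔓 := ⟨gD, q, by omega, gF⟩
  obtain ⟨φ, a, b⟩ := pl.fr _ q (by omega) gF
  obtain ⟨h', m'⟩ := H _ (cv_map W _) (vc_fix gS) _ (ht g)
  by_cases z : U.Δ = 0
  swap
  · obtain ⟨c, hc⟩ := (hG _ k p pl.sur k2 _ U sp z e' he'.toTW _ φ q h' _ b a m').2 q1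
    exact Or.inl ⟨g, gW, c, q, q1, hc⟩
  have c4 := ss.resolve_right (not_not.2 z)
  obtain ⟨x₀, y₀, α, nd⟩ := exists_node' z c4
  obtain ⟨x, hx, M⟩ := hM _ k p pl.sur k2 _ U sp h1 _ _ _ _ nd e' he'
  obtain ⟨r, β, hβ, sβ, R⟩ := hR _ k p pl.sur k2 _ U sp h1 z c4
  choose P m c hP hc sc using R
  obtain ⟨i, iI, iS, n, hn⟩ := (hU L 𝔓 hm h2 (insert r {C.u.1, C.r, C.s, C.t})).2 k p pl β
    (fun n => xc (P n) - r) hβ sβ fun n => ⟨c n, hc n, sc n⟩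
  obtain ⟨ψ, a', b'⟩ := pl.fr _ 1 one_pos (fb iI)
  obtain ⟨h'', m''⟩ := H _ (cv_map W _) (vc_fix fun s hs => iS s (Finset.mem_insert_of_mem hs)) _
    (ht i)
  refine Or.inr ⟨x, hx, ⟨i, ⟨Ideal.inertia_le_stabilizer _ iI, 1, one_pos, fb iI⟩,
    fun o => hn ?_, ?_, ?_⟩, g, gW, q, ?_⟩
  · obtain ⟨y, hy⟩ := he'.sur (half h1) (hP n)
    have e1 := m'' y (m n)
    rw [o, one_mulVec, hy] at e1
    have e2 := congrArg xc e1
    rw [xc_ptMap] at e2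
    rw [map_sub, iS r (Finset.mem_insert_self _ _)]
    exact congrArg (· - r) e2.symm
  · have := det_eq (q := 1) (A := t i) (by rw [hd, cyc_one h2 iI, Nat.cast_one])
    rwa [Nat.cast_one] at this
  · simpa using (M _ ψ 1 h'' _ b' a' m'').1 (by rw [a', pow_one])
  · have d := det_eq ((hd g).trans gc)
    by_cases f : φ α = α
    · exact ⟨1, q1, Or.inl rfl, d, by simpa using (M _ φ q h' _ b a m').1 f⟩
    · exact ⟨-1, q1, Or.inr rfl, d, by simpa using (M _ φ q h' _ b a m').2 f⟩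

variable {L : Type} [Field L] [NumberField L] {W : WeierstrassCurve ℤ}
  {e : Z2 →+ ℕ → (cv W (AlgebraicClosure L)).Point} {t : Gal L → M2 ℤ_[2]}

theorem detC (h1 : L1St) (hW : W.Δ ≠ 0) (he : TS e)
    (ht : ∀ g : Gal L, Mt e (gm W (g : _ →+* _)) (t g)) {cj : Gal L → Gal L} (hcj : IsCj cj) :
    ∃ C : M2 ℤ_[2], C * C = 1 ∧ C.det = -1 ∧ ∀ g, t (cj g) = C * t g * C := by
  have : Algebra.IsAlgebraic ℚ (AlgebraicClosure L) := Algebra.IsAlgebraic.trans _ L _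
  have : IsAlgClosure ℚ (AlgebraicClosure L) := ⟨inferInstance, this⟩
  have F := SP.facts ℚ (AlgebraicClosure L)
  choose T hT using fun g : AlgebraicClosure L ≃ₐ[ℚ] AlgebraicClosure L =>
    he.mat (gm W (g : _ →+* _))
  obtain ⟨j, c', hc, hg⟩ := hcj
  let c : AlgebraicClosure L ≃ₐ[ℚ] AlgebraicClosure L :=
    AlgEquiv.ofRingEquiv (f := c') fun x => by simp
  have hc' : SC.Cj j c := hc
  have cc : c * c = 1 := (F.cj.sq hc').1
  refine ⟨T c, ?_, ?_, fun g => ?_⟩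
  · rw [← DetA.mul he.toTW hT, cc, DetA.one he.toTW hT]
  · rw [DetA.det_eq h1 hW he.toTW hT, F.fr.cyc_cj hc']
    rfl
  · refine he.toTW.uniq (ht _) ((((hT c).mul (ht g)).mul (hT c)).congr fun P => ?_)
    simp only [Function.comp, gm_gm]
    exact congrArg (gm W · P) (RingHom.ext fun x => (hg g x).symm)

variable {E : Type} [NontriviallyNormedField E] [NormedAlgebra ℚ_[2] E] [FiniteDimensional ℚ_[2] E]

theorem atTwoT (all : AllSt) (pt1 : PT1St) (pt2 : PT2St) (lang : LangSt) (ord : OrdSt)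
    (h1s : H1St) (oper : OPerSt) (ss : SSSt) (spl : SplSt) (pur : PurSt) (th : ThSt) (drs : DrSt)
    (per : PerTSt) [IsCMField L]
    (hL : Module.finrank ℚ L = 2) (hW : Odd W.Δ) (he : TW e)
    (ht : ∀ g : Gal L, Mt e (gm W (g : _ →+* _)) (t g)) (ct : Continuous t)
    (hd : ∀ g, (tq (t g)).det = cyc ℚ_[2] g) (j : AlgebraicClosure L →+* ℂ_[2])
    (ns : ¬Nonsplit (pj j)) (ι : E →+* ℂ) {κ : Gal L →* E} {cj : Gal L → Gal L} {m : ℕ} {a' : ℤ}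
    (hcj : IsCj cj) (hκ : Ch κ cj (1 - m)) (la : LA κ (pj j) a')
    (ρ : Gal L →* Matrix (Fin (m + 1)) (Fin (m + 1)) E)
    (hρ : ∀ g, ρ g = κ g • sym m (te E (t g))) :
    NoFix j ρ ∧ DeRham j ρ fun i => a' + m - (i : ℕ) := by
  obtain ⟨a, a1, a2, a3, a4, a5⟩ := exA j
  obtain ⟨T, hT⟩ := exHom he ht
  let χ := (SP.cycE ℚ_[2] L (AlgebraicClosure L)).comp (Dec (pj j)).subtype
  have c1 : ∀ g, χ g = cyc ℚ_[2] g.1 := fun _ => rfl
  have c2 : ∀ g, χ g = (cyclotomicCharacter ℂ_[2] 2 (a g) : ℤ_[2]) := fun g => by rw [a4]; rfl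
  have c3 : Continuous χ := cyc_cont.comp continuous_subtype_val
  obtain ⟨X, hX⟩ := pt1 _ a a1 a2 χ c2
  have tt := pt2 _ a (fun σ h => by
    obtain ⟨g, g1, g2⟩ := (all L hL).1 j ns σ h
    exact ⟨⟨g, g1⟩, RingEquiv.ext (Emb.uniq j (Emb.cont (a1 _)) (Emb.cont h) fun x =>
      (a3 _ x).trans (g2 x).symm)⟩) χ c2 X hX
  have he' := he.em (gm W j) fun P _ h => gm_inj j (h.trans (map_zero _).symm)
  have ht' : ∀ g : Dec (pj j), Mt (em (gm W j) e) (gm W (a g : ℂ_[2] →+* ℂ_[2]))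
      (T.comp (Dec (pj j)).subtype g) := fun g => by
    rw [MonoidHom.comp_apply, hT]
    refine (ht _).em _ fun P => ?_
    rw [gm_gm, gm_gm]
    exact congrArg (gm W · P) (RingHom.ext fun x => (a3 g x).symm)
  have hd' : ∀ g : Dec (pj j), (tq (T.comp (Dec (pj j)).subtype g)).det = χ g := fun g => by
    rw [MonoidHom.comp_apply, hT]
    exact hd _
  obtain ⟨b, b1, b2⟩ : ∃ b : ℤ, b ^ 2 ≤ 8 ∧
      Per X (fun g => tq (T.comp (Dec (pj j)).subtype g)) b := by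
    rcases Int.even_or_odd W.a₁ with h | h
    · exact ss _ a a1 χ X hX tt W hW h _ he' _ ht' hd'
    · exact ordPer lang ord oper a1 hX tt c3 (h1s L hL _ (pj_max j).1 (pj_max j).2 ns χ c1) hW h he'
        _ (by rw [MonoidHom.coe_comp, show ⇑T = t from funext hT]; fun_prop) ht' hd'
  obtain ⟨m1, m2⟩ := pj_max j
  obtain ⟨γ, H, f, g₀, γ1, hn, hf, γ2, f0, fb, tp⟩ := th L j (spl L hL _ m1 m2 ns).1 E (tw κ a')
    (tw_cont hκ.ct _) (by simpa using la.tw a') a a1 a3 χ X hX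
  let θ := (tw κ a').comp (Dec (pj j)).subtype
  obtain ⟨p1, p2⟩ := per _ χ _ _ _ X tt AcS.bd_dom hX.inj _ b b1 b2 E ι θ a' m
    (fun g => ρ g) fun g => by
      rw [hρ, MonoidHom.comp_apply T, hT]
      exact congrArg (· • _) (div_mul_cancel₀ _ (zpow_ne_zero _ (cyc_ne (E := E) g.1))).symm
  obtain ⟨y, hy⟩ := drs _ a a1 χ X hX E θ H γ f _ hf γ1 γ2 tp
  obtain ⟨P, p3, p4⟩ := p2 y hy
  refine ⟨fun z p q => p1 H f _ hn hf f0 tp ?_ z (fun g => ?_) (q _ hX.fc), P, p3,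
    fun g u s p q i => ?_⟩
  · rw [tw_apply, (pur L hL E ι κ cj _ a' hcj hκ _ m1 m2 ns la).2 g₀ f fb,
      ← zpow_add₀ two_ne_zero, show (f : ℤ) * (1 - m - 2 * a') + f * (2 * a' + m) = f by ring,
      zpow_natCast]
    exact (one_lt_pow₀ one_lt_two f0.ne').ne'
  · obtain ⟨u, hu⟩ := exLf _ (a1 g)
    exact p g u _ ((a5 _ _).2 ⟨g.2, hu⟩) (hX.ex g u hu).1
  · obtain ⟨h, hu⟩ := (a5 _ _).1 p
    rw [exD_uniq hu q (hX.ex _ u hu).2]
    exact p4 ⟨g, h⟩ i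

omit [FiniteDimensional ℚ_[2] E] in
theorem nf_inv {j : AlgebraicClosure L →+* ℂ_[2]} {n : ℕ}
    {ρ : Gal L →* Matrix (Fin n) (Fin n) E} (h : NoFix j ρ) (v : Fin n → E)
    (hv : ∀ g ∈ Dec (pj j), ρ g *ᵥ v = v) : v = 0 := by
  obtain ⟨a, a1, -, -, -, a5⟩ := exA j
  have k : ∀ (M : Matrix (Fin n) (Fin n) E) (s : Bc →ₐ[ℚ_[2]] Bc),
      act M s (fun i => algebraMap E _ (v i)) = fun i => algebraMap E _ ((M *ᵥ v) i) :=
    fun M s => funext fun i => by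
      simp only [act, AlgHom.commutes]
      exact (RingHom.map_mulVec _ M v i).symm
  have z := h (fun i => algebraMap E _ (v i)) (fun g u s d _ => by
    rw [k, hv g ((a5 _ _).1 d).1]) fun s _ => by rw [k, one_mulVec]
  have := bc_nt
  exact funext fun i => (algebraMap E (E ⊗[ℚ_[2]] Bc)).injective
    ((congrFun z i).trans (map_zero _).symm)

/-- The local conditions at all primes. -/
def LocTSt : Prop :=
  ∀ (L : Type) [Field L] [NumberField L] [IsCMField L], Module.finrank ℚ L = 2 →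
    ∀ W : WeierstrassCurve ℤ, Odd W.Δ → ∀ e : Z2 →+ ℕ → (cv W (AlgebraicClosure L)).Point, TS e →
    ∀ t : Gal L → M2 ℤ_[2], (∀ g : Gal L, Mt e (gm W (g : _ →+* _)) (t g)) →
    (∀ 𝔓 : Idl L, 𝔓.IsMaximal → 2 ∈ 𝔓 → ¬Nonsplit 𝔓) →
    ∀ (E : Type) [NontriviallyNormedField E] [NormedAlgebra ℚ_[2] E] [FiniteDimensional ℚ_[2] E]
    (_ : E →+* ℂ) (κ : Gal L →* E) (cj : Gal L → Gal L) (m : ℕ) (a : ℤ), IsCj cj →
    Ch κ cj (1 - m) → ∀ P : Idl L, P.IsMaximal → 2 ∈ P → LA κ P a →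
    ∀ ρ : Gal L →* Matrix (Fin (m + 1)) (Fin (m + 1)) E, (∀ g, ρ g = κ g • sym m (te E (t g))) →
    (∀ 𝔓 : Idl L, 𝔓.IsMaximal → ∀ v, (∀ g ∈ Dec 𝔓, ρ g *ᵥ v = v) → v = 0) ∧
      (∀ j, NoFix j ρ) ∧
      ∀ j, (pj j).under (𝓞 L) = P.under _ → DeRham j ρ fun i => a + m - (i : ℕ)

theorem locT (det : DetSt) (l2 : L2TSt) (inv : InvTSt) (all : AllSt) (pt1 : PT1St) (pt2 : PT2St)
    (lang : LangSt) (ord : OrdSt) (h1s : H1St) (oper : OPerSt) (ss : SSSt) (cjw : CjwSt)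
    (spl : SplSt) (pur : PurSt) (th : ThSt) (drs : DrSt) (per : PerTSt) : LocTSt := by
  intro L _ _ _ hL W hW e he t ht sp E _ _ _ ι κ cj m a hcj hκ P m1 m2 la ρ hρ
  have hΔ : W.Δ ≠ 0 := fun h => by simp [h] at hW
  obtain ⟨ct, hd, -⟩ := det L W hΔ e he t ht
  have at2 := fun j a' la' => atTwoT (a' := a') all pt1 pt2 lang ord h1s oper ss spl pur th drs per
    hL hW he.toTW ht ct hd j (sp _ (pj_max j).1 (pj_max j).2) ι hcj hκ la' ρ hρ
  have nf : ∀ j, NoFix j ρ := fun j => by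
    have := cjw L hL E κ cj _ a hcj hκ P _ m1 m2 (pj_max j).1 (pj_max j).2 la
    by_cases h : (pj j).under (𝓞 L) = P.under _
    · exact (at2 j _ (this.1 h)).1
    · exact (at2 j _ (this.2 h).1).1
  refine ⟨fun 𝔓 h v hv => ?_, nf, ?_⟩
  · by_cases p : 2 ∈ 𝔓
    · obtain ⟨j, rfl⟩ := (all L hL).2 𝔓 h p
      exact nf_inv (nf j) v hv
    · refine inv _ t _ m E ι κ (l2 L W hΔ e he t ht hd 𝔓 h p) (fun g hg => ?_) v
        fun g hg => hρ g ▸ hv g hg.1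
      rw [(pur L hL E ι κ cj _ a hcj hκ P m1 m2 (sp P m1 m2) la).1 𝔓 h p g hg, te_det, hd]
      rfl
  · exact fun j h => (at2 j a
      ((cjw L hL E κ cj _ a hcj hκ P _ m1 m2 (pj_max j).1 (pj_max j).2 la).1 h)).2

end Pool.Agent.SY
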