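import Pool.Agent.Lib.MP_b4b3cb_nt.SY.Anch
import Pool.Agent.Lib.MP_b4b3cb_nt.SY.Ds
import Pool.Agent.Lib.MP_b4b3cb_nt.SY.EpsQ

/-! The parity theorem for twists of even symmetric powers. -/

namespace Pool.Agent.SY

open NumberField IsDedekindDomain Matrix Pool.Agent.SelTwo Pool.Agent.HF Pool.Agent.SymTwo
open scoped Classical

variable {L : Type} [Field L] [NumberField L] [IsCMField L] {E : Type} [NontriviallyNormedField E]
  [NormedAlgebra ℚ_[2] E] [FiniteDimensional ℚ_[2] E]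

theorem cntA {m n : ℕ} (a : Fin m → ℤ) (b : Fin n → ℤ) :
    (Finset.univ.filter fun i => 0 < Fin.append a b i).card =
      (Finset.univ.filter fun i => 0 < a i).card + (Finset.univ.filter fun i => 0 < b i).card := by
  simp only [Finset.card_filter, Fin.sum_univ_add, Fin.append_left, Fin.append_right]

omit [IsCMField L] [NormedAlgebra ℚ_[2] E] [FiniteDimensional ℚ_[2] E] in
theorem bnd {κ : Gal L →* E} (ct : Continuous κ) (one : ∀ g, ‖κ g - 1‖ < 1) :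
    ∃ r < 1, ∀ g, ‖κ g - 1‖ ≤ r := by
  obtain ⟨g, -, hg⟩ := isCompact_univ.exists_isMaxOn Set.univ_nonempty
    (ct.sub (continuous_const (y := 1))).norm.continuousOn
  exact ⟨_, one g, fun h => hg (Set.mem_univ h)⟩

omit [IsCMField L] in
theorem res_one {ν : Gal L →* ℚ_[2]} (ct : Continuous ν) (g : Gal L) : ‖ν g - 1‖ < 1 := by
  obtain ⟨h, -, hh⟩ := isCompact_univ.exists_isMaxOn Set.univ_nonempty ct.norm.continuousOn
  have a : ∀ g, ‖ν g‖ ≤ 1 := fun g => (hh (Set.mem_univ g)).trans (not_lt.1 fun c => by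
    have : ‖ν (h * h)‖ ≤ ‖ν h‖ := hh (Set.mem_univ _)
    rw [map_mul, norm_mul] at this
    nlinarith)
  let u : Gal L → ℤ_[2] := fun g => ⟨ν g, a g⟩
  have b : IsUnit (u g) := IsUnit.of_mul_eq_one (u g⁻¹)
    (Subtype.ext (show ν g * ν g⁻¹ = 1 by rw [← map_mul, mul_inv_cancel, map_one]))
  have : PadicInt.toZMod (u g - 1) = 0 := by
    have := b.map (PadicInt.toZMod (p := 2))
    rw [map_sub, map_one]
    generalize PadicInt.toZMod (u g) = c at this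
    revert c
    decide
  exact (PadicInt.mem_nonunits (z := u g - 1)).1 ((PadicInt.ker_toZMod (p := 2)).le this)

theorem exπ {r : ℝ} (hr : r < 1) : ∃ M, 0 < M ∧ ∀ (E : Type) [NontriviallyNormedField E]
    [NormedAlgebra ℚ_[2] E] (π : E), π ^ (M * 2) = 2 →
    ‖π‖ < 1 ∧ ‖π ^ M‖ < ‖π‖ ^ 2 ∧ r < ‖π‖ ^ 2 := by
  obtain ⟨M, hM⟩ := exists_pow_lt_of_lt_one (by norm_num : (0 : ℝ) < 1 / 2) (max_lt hr one_half_lt_one)
  refine ⟨M + 3, by omega, fun E _ _ π h => ?_⟩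
  have n : (‖π‖ ^ 2) ^ (M + 3) = 1 / 2 := by
    rw [← pow_mul', ← norm_pow, h, ← map_ofNat (algebraMap ℚ_[2] E), norm_algebraMap',
      one_div]
    exact_mod_cast Padic.norm_p (p := 2)
  have a : ‖π‖ < 1 := lt_of_not_ge fun c => by
    have := one_le_pow₀ (n := M + 3) (one_le_pow₀ (n := 2) c)
    rw [n] at this
    norm_num at this
  have b : 0 < ‖π‖ := norm_pos_iff.2 fun c => by simp [c] at n
  refine ⟨a, by rw [norm_pow]; exact pow_lt_pow_right_of_lt_one₀ b a (by omega),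
    (le_max_left r (1 / 2)).trans_lt (lt_of_pow_lt_pow_left₀ (M + 3) (by positivity) ?_)⟩
  rw [n]
  exact (pow_le_pow_of_le_one (by positivity) (max_lt hr one_half_lt_one).le (by omega)).trans_lt hM

theorem ram_fxd {r : HeightOneSpectrum (𝓞 L)}
    (hr : r.asIdeal.ramificationIdx (𝓞 (maximalRealSubfield L)) ≠ 1) : Fxd r := by
  obtain ⟨d, R, hR⟩ := SC.exists_quad_cm L
  have sg : R.sg = (IsCMField.ringOfIntegersComplexConj L).toRingEquiv := by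
    ext x
    exact congrArg (fun f => f (x : L)) hR
  have ac : (R.act r).asIdeal = r.asIdeal.map (IsCMField.ringOfIntegersComplexConj L) := by
    rw [(SC.st_Qd SC.st_Cn).act_ideal, sg]; rfl
  rw [Fxd, ← ac]
  rcases R.efg r with a | a | a
  exacts [(hr a.2.1).elim, (hr a.2.1).elim, congrArg _ a.1]

omit [NumberField L] [IsCMField L] [FiniteDimensional ℚ_[2] E] in
theorem Ch.mul {ψ ν : Gal L →* E} {cj : Gal L → Gal L} {a b : ℤ} (h : Ch ψ cj a) (h' : Ch ν cj b) :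
    Ch (ψ * ν) cj (a + b) where
  ct := h.ct.mul h'.ct
  one g := by
    obtain ⟨B, hB⟩ := Th.ball (E := E) one_pos le_rfl
    exact (hB _).1 (mul_mem ((hB (ψ.toHomUnits g)).2 (h.one g)) ((hB (ν.toHomUnits g)).2 (h'.one g)))
  dual g := by
    rw [MonoidHom.mul_apply, MonoidHom.mul_apply, mul_mul_mul_comm, h.dual, h'.dual,
      zpow_add₀ (cyc_ne g)]

theorem mainE (hL : Module.finrank ℚ L = 2) (hh : Odd (classNumber L)) (W : WeierstrassCurve ℤ)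
    (hW : Odd W.Δ) (t : Gal L → M2 ℤ_[2]) (ht : Tate W t) (ψ : Gal L →* E) (ν : Gal L →* ℚ_[2])
    (cj : Gal L → Gal L) (hcj : IsCj cj) (hψ : Ch ψ cj 0) (hν : Ch ν cj 1)
    (Q : HeightOneSpectrum (𝓞 L) → Idl L) (hQ : ∀ w, (Q w).IsMaximal ∧ (Q w).under _ = w.asIdeal)
    (p r : HeightOneSpectrum (𝓞 L)) (hp : 2 ∈ p.asIdeal)
    (hr : r.asIdeal.ramificationIdx (𝓞 (maximalRealSubfield L)) ≠ 1)
    (hu : ∀ 𝔓 : Idl L, 𝔓.IsMaximal → 𝔓.under _ ≠ p.asIdeal → 𝔓.under _ ≠ r.asIdeal →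
      ∀ g ∈ Ine 𝔓, ν g = 1) (a : ℤ) (la : LA ψ (Q p) a)
    (hs : ∀ w, Fxd w → 2 ∉ w.asIdeal ∧
      (Adv W w → ¬Ram (Q w) ∧ 3 ∉ w.asIdeal ∧ ∀ g ∈ Ine (Q w), ψ g = 1)) (k : ℕ)
    (ρ : Gal L →* Matrix (Fin (2 * k + 1)) (Fin (2 * k + 1)) E)
    (hρ : ∀ g, ρ g = (ψ g * algebraMap ℚ_[2] E (ν g) / cyc E g ^ k) • sym (2 * k) (te E (t g))) :
    (Submodule.span E (Hf ρ)).FG ∧ (-1 : ℤ) ^ h1 ρ ⊤ (Hf ρ) =
      (-1) ^ (min (k + 1 + a).toNat (2 * k + 1) + 1 +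
        {w | Fxd w ∧ ∃ g ∈ Dec (Q w), ψ g ≠ 1}.ncard) := by
  have hΔ : W.Δ ≠ 0 := fun h => by simp [h] at hW
  obtain ⟨e, he, ht, fin⟩ := setT hΔ ht
  obtain ⟨ct, hd, -⟩ := det l1' L W hΔ e he t ht
  have sp : ∀ 𝔓 : Idl L, 𝔓.IsMaximal → 2 ∈ 𝔓 → ¬Nonsplit 𝔓 := fun 𝔓 a b c => by
    obtain ⟨w, h⟩ := exw a
    exact (hs w ((fxd h).1 c)).1 ((mem2 h).1.1 b)
  replace fin : {w | ∃ g ∈ Ine (Q w), t g ≠ 1 ∨ ψ g ≠ 1 ∨ ν g ≠ 1}.Finite :=
    ((fin Q hQ).union ((ramC L E ψ hψ.ct hψ.one).2.union (ramC L _ ν hν.ct hν.one).2)).subset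
      fun w ⟨g, g1, g2⟩ => g2.imp (fun h => ⟨g, g1, h⟩) fun h => h.imp
        (fun h => ⟨_, (hQ w).1, (hQ w).2, g, g1, h⟩) fun h => ⟨_, (hQ w).1, (hQ w).2, g, g1, h⟩
  let T := fin.toFinset.filter Fxd
  have mT : ∀ w, w ∈ T ↔ (∃ g ∈ Ine (Q w), t g ≠ 1 ∨ ψ g ≠ 1 ∨ ν g ≠ 1) ∧ Fxd w := fun w => by
    simp [T]
  obtain ⟨N, N0, hN⟩ := ok L hL T fun w h => ⟨((mT w).1 h).2, (hs w ((mT w).1 h).2).1⟩
  have hμ₀ := hψ.mul (hν.map (f := Algebra.ofId ℚ_[2] E) fun x => norm_algebraMap' E x)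
  obtain ⟨b1, b2, b3⟩ := bnd hμ₀.ct hμ₀.one
  obtain ⟨b4, b5, b6⟩ := bnd hν.ct hν.one
  obtain ⟨M, M0, hM⟩ := exπ (max_lt b2 b5)
  obtain ⟨E', _, _, _, f, π, ζ, ι, hf, s2, hζ⟩ := efe2 E (N := 12 * N) (M := M * 2) (by omega)
    (by omega)
  obtain ⟨p1, p2, p3⟩ := hM E' π s2
  rw [pow_mul] at s2
  obtain ⟨ϖ, Ψ, hT⟩ := hN E' _ (hζ.pow (by omega) rfl)
  have z12 := hζ.pow (by omega) (mul_comm 12 N)
  have := charZero_of_injective_algebraMap (algebraMap ℚ_[2] E').injective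
  let ψ' := (f : E →* E').comp ψ
  let ν' := (Algebra.ofId ℚ_[2] E' : ℚ_[2] →* E').comp ν
  have i1 : ∀ g, ψ' g = 1 ↔ ψ g = 1 := fun g => map_eq_one_iff f f.injective
  have i2 : ∀ g, ν' g = 1 ↔ ν g = 1 := fun g =>
    map_eq_one_iff (algebraMap ℚ_[2] E') (algebraMap ℚ_[2] E').injective
  have hψ' : Ch ψ' cj 0 := hψ.map hf
  have hν' : Ch ν' cj 1 := hν.map fun x => norm_algebraMap' E' x
  have hμ : Ch (ψ' * ν') cj 1 := hψ'.mul hν'
  have eμ : ∀ g, (ψ' * ν') g = f (ψ g * algebraMap ℚ_[2] E (ν g)) := fun g => by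
    rw [map_mul, f.commutes]; rfl
  let ρ₁ := (f : E →+* E').mapMatrix.toMonoidHom.comp ρ
  have r1 : ∀ g, ρ₁ g = tw (ψ' * ν') k g • sym (2 * k) (te E' (t g)) := fun g => by
    change (ρ g).map f = _
    rw [hρ, show te E' (t g) = (te E (t g)).map (f : E →+* E') from
      Matrix.ext fun i j => (f.commutes _).symm, symS.map, tw_apply, ← map_cyc f, eμ]
    ext i j
    simp
  let ρ₂ : Gal L →* Matrix (Fin 1) (Fin 1) E' := (algebraMap E' _).toMonoidHom.comp ν'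
  have r2 : ∀ g, ρ₂ g = ν' g • 1 := fun g => Algebra.algebraMap_eq_smul_one (ν' g)
  have m2 := fun w => (mem2 (hQ w).2).1
  have fp : ¬Fxd p := fun c => (hs p c).1 hp
  have hr' : ∀ 𝔓 : Idl L, 𝔓.under _ = r.asIdeal → 2 ∉ 𝔓 ∧ Nonsplit 𝔓 ∧ Ram 𝔓 := fun 𝔓 c =>
    ⟨mt (mem2 c).1.1 (hs r (ram_fxd hr)).1, (fxd c).2 (ram_fxd hr), by rwa [Ram, c]⟩
  have lb : ∀ g ∈ Ine (Q p), ν' g = cyc E' g := fun g hg => by
    obtain ⟨𝔔, n2, n3, n4, n5, -⟩ := (AnA.cjp hcj).2.2 _ (hQ p).1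
    simpa [(i2 _).2 (hu 𝔔 n2 (fun c => fp (by rwa [c, (hQ p).2] at n4))
      (fun c => (hr' 𝔔 c).1 (n3 ((m2 p).2 hp))) _ (n5 g hg))] using hν'.dual g
  obtain ⟨ρ', B, q1, q2, a1, a2, a3⟩ := sumP (a := a + 1) (b := 1) hL hW he ht sp ι s2 p1 p2 hcj hμ
    hν' (fun g => by
      rw [eμ, ← map_one f, ← map_sub, hf]
      exact ((b3 g).trans (le_max_left _ _)).trans_lt p3) (fun g => by
      rw [← map_one (algebraMap ℚ_[2] E')]
      exact (congrArg norm (map_sub _ _ _).symm).trans_lt ((norm_algebraMap' E' _).trans_lt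
        (((b6 g).trans (le_max_right _ _)).trans_lt p3))) ρ₁ r1 ρ₂ r2 (hQ p).1 ((m2 p).2 hp)
    ((la.map f).imp fun M h => ⟨h.1, fun g hg => by
      rw [MonoidHom.mul_apply, mul_pow, h.2 g hg, lb g hg, zpow_add_one₀ (cyc_ne g), mul_pow]⟩)
    ⟨1, one_pos, fun g hg => by simp [lb g hg]⟩
  obtain ⟨j, hj⟩ := (all L hL).2 _ (hQ p).1 ((m2 p).2 hp)
  have c1 := basE1 L E' _ _ ρ' q1
  obtain ⟨D, d1, q0⟩ := id q1
  replace q0 : ∀ g, D * ρ' g = bs (ρ₁ g) (ρ₂ g) * D := fun g =>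
    (q0 g).trans (by rw [RingHom.coe_id, Matrix.map_id]; rfl)
  have one : ∀ (𝔓 : Idl L), 2 ∉ 𝔓 → ∀ g ∈ Ine 𝔓, ¬(t g ≠ 1 ∨ ψ g ≠ 1 ∨ ν g ≠ 1) → ρ' g = 1 :=
    fun 𝔓 h2 g hg h => by
      push Not at h
      refine d1.mul_left_cancel ?_
      rw [q0, r1, r2, tw_apply, MonoidHom.mul_apply, (i1 g).2 h.2.1, (i2 g).2 h.2.2, cyc_ine h2 hg,
        h.1, te_eq, map_one, symS.one]
      simp [bsS.one]
  have hκ := hμ.tw hcj k
  have nI := fun w (fx : Fxd w) c u => nsI L E ψ cj hcj hψ _ (hQ w).1 (mt (m2 w).1 (hs w fx).1)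
    ((fxd (hQ w).2).2 fx) c u
  obtain ⟨r3, r4⟩ := main7 L hL E' _ ρ' cj hcj B q2 (fun 𝔓 h => (a1 𝔓 h).1) sp a2 j _
    (a3 j (by rw [hj])) Q hQ
    ((fin.union (Ideal.finite_factors (I := Ideal.span {(2 : 𝓞 L)}) (by simp))).subset
      fun w ⟨g, g1, g2⟩ => (Classical.em (2 ∈ Q w)).symm.imp
        (fun h => ⟨g, g1, not_not.1 (mt (one _ h g g1) g2)⟩)
        fun h => Ideal.dvd_span_singleton.2 ((m2 w).1 h)) T
    (fun w a b g c => one _ (fun h => sp _ (hQ w).1 h b) g c fun d =>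
      a ((mT w).2 ⟨⟨g, c, d⟩, (fxd (hQ w).2).1 b⟩))
    ϖ Ψ hT (fun w => if ∀ g ∈ Dec (Q w), ψ g = 1 then 1 else -1) fun w h => by
      have fx := ((mT w).1 h).2
      have h2 := mt (m2 w).1 (hs w fx).1
      have hn := (fxd (hQ w).2).2 fx
      by_cases A : Ram (Q w)
      · have u : ∀ g ∈ Ine (Q w), ψ' g = 1 := fun g => unr hcj hψ' (hQ w).1 h2 hn A
        obtain ⟨y1, y2⟩ := (ns' L E' ν' cj 1 hcj hν' _ (hQ w).1 h2 hn).2 A w _ (hQ w).2
          (hT w h).2.1.2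
        refine Or.inl (epsQ L E' _ (k + 1) (by ring) ρ' _ (hQ w).1 h2 w (hQ w).2 _ _ (hT w h).2.1.2
          (hT w h).2.2.1 (hT w h).2.2.2.1 _ (fun α hα g hg => ?_) fun α σ x1 x2 x3 => ?_)
        · have U := ((rkE symS E' _ z12 (2 * k) (te E' (t g)) (by
            rw [te_det, hd]; exact cyc_ine h2 hg)).2.2 (te_nil.1 (semi l3' hΔ he ht hd (hQ w).1 h2
              (hQ w).2 (fun c => ((hs w fx).2 c).1 A) hg))).1
          have V : ρ₁ g = ν' g • sym (2 * k) (te E' (t g)) := by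
            rw [r1, tw_apply, MonoidHom.mul_apply, u g hg, cyc_ine h2 hg]; simp
          refine ⟨fun c => EFE.nil d1 (A := bs (ρ₁ g) (ρ₂ g) - 1) (by
            rw [mul_sub, sub_mul, q0, mul_one, one_mul]) ((bsS.nil _ _).1 ?_ ?_),
            fun c => EFE.nil d1 (A := bs (ρ₁ g) (ρ₂ g) + 1) (by
            rw [mul_add, add_mul, q0, mul_one, one_mul]) ((bsS.nil _ _).2 ?_ ?_)⟩
          · rwa [V, (y1 α hα g hg).1 c, one_smul]
          · simp [r2, (y1 α hα g hg).1 c]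
          · rw [V, (y1 α hα g hg).2 c, zpow_one, neg_one_smul, neg_add_eq_sub, ← neg_sub]
            exact U.neg
          · simp [r2, (y1 α hα g hg).2 c]
        · have y := y2 (hT w h).2.1.1 α σ x1 x2 x3
          have z := frv hcj hψ' (hQ w).1 h2 hn u x2
          have dt := congrArg Matrix.det (q0 σ)
          rw [det_mul, det_mul, mul_comm, mul_left_inj' ((isUnit_iff_isUnit_det D).1 d1).ne_zero,
            bsS.det, r1, r2, det_smul, det_smul, ds symS, te_det, hd, tw_apply,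
            show 2 * k * (2 * k + 1) / 2 = k * (2 * k + 1) by
              rw [mul_assoc, Nat.mul_div_cancel_left _ two_pos]] at dt
          rw [zpow_one] at y
          simp only [i1] at z
          have z2 : ψ' σ ^ 2 = 1 := by rw [z]; split_ifs <;> simp
          rw [dt, ← y, show (if ∀ g ∈ Dec (Q w), ψ g = 1 then 1 else -1 : E') = ψ' σ by
            rw [z]; split_ifs <;> simp]
          have c0 := cyc_ne (E := E') σ
          change _ * cyc E' σ ^ _ * _ * _ = _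
          simp only [Fintype.card_fin, det_one, MonoidHom.mul_apply, zpow_natCast]
          rw [div_pow, ← pow_mul, div_mul_cancel₀ _ (pow_ne_zero _ c0)]
          have z3 := congrArg (· ^ (k + 1)) z2
          simp only [one_pow] at z3
          linear_combination (ν' σ ^ 2) ^ (k + 1) * z3
      have uν : ∀ g ∈ Ine (Q w), ν g = 1 := hu _ (hQ w).1
        (fun c => h2 ((mem2 c).1.2 hp)) fun c => A (hr' _ c).2.2
      have kk : ∀ g ∈ Ine (Q w), tw (ψ' * ν') k g = 1 ↔ ψ g = 1 := fun g hg => by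
        rw [tw_apply, cyc_ine h2 hg, _root_.one_zpow, div_one, MonoidHom.mul_apply,
          (i2 g).2 (uν g hg), mul_one, i1]
      obtain ⟨b, b2, b3, b4⟩ := inrT symS ramC tms l3' l4a l4b hΔ he ht hd z12 hκ.ct hκ.one ρ₁ r1
        (hQ w).1 h2 (hQ w).2 (hT w h).2.1.2 fun c => ⟨mt (mem2 (hQ w).2).2.1 ((hs w fx).2 c).2.1,
          fun g hg => (kk g hg).2 (((hs w fx).2 c).2.2 g hg)⟩
      refine Or.inr ⟨hn, A, b, c1.2.2 _ _ ((sum1 L E' _ _ ρ₁ ρ₂ _ fun _ => rfl).2.2 _ _ b2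
        fun g hg => by rw [r2, (i2 g).2 (uν g hg), one_smul]), ?_⟩
      by_cases u : ∀ g ∈ Ine (Q w), ψ g = 1
      · rw [if_pos (nI w fx A u), (b4 (fun g hg => (kk g hg).2 (u g hg))
          (Or.inl (even_two_mul k))).neg_one_pow]
      · rw [if_neg fun c => u fun g hg => c g (Ideal.inertia_le_stabilizer _ hg)]
        push Not at u
        obtain ⟨g, g1, g2⟩ := u
        rw [b3 ⟨g, g1, mt (kk g g1).1 g2⟩, (odd_two_mul_add_one k).neg_one_pow]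
  obtain ⟨r5, r6⟩ := basE2 L E' E' (AlgHom.id _ _) _ _ ρ' q1 r3
  obtain ⟨r7, -, r8⟩ := (sum2 bsS L E' _ _ ρ₁ ρ₂ _ fun _ => rfl).2 r5
  obtain ⟨r9, r10⟩ := basE2 L E E' f _ ρ ρ₁ ⟨1, isUnit_one, fun g => by
    rw [one_mul, mul_one]; rfl⟩ r7
  refine ⟨r9, ?_⟩
  have n3 : {w | Fxd w ∧ ∃ g ∈ Dec (Q w), ψ g ≠ 1}.ncard =
      (T.filter fun w => ¬∀ g ∈ Dec (Q w), ψ g = 1).card := by
    rw [← Set.ncard_coe_finset]
    congr 1
    ext w
    simp only [Finset.coe_filter, mT, Set.mem_ofPred, not_forall, exists_prop]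
    refine ⟨fun ⟨a, b⟩ => ⟨⟨?_, a⟩, b⟩, fun h => ⟨h.1.2, h.2⟩⟩
    by_contra! c
    have h2 := mt (m2 w).1 (hs w a).1
    by_cases A : Ram (Q w)
    · obtain ⟨ϖ, v⟩ := w.valuation_exists_uniformizer L
      obtain ⟨β, τ, η, x0, x1, x2, x3, x4, -⟩ := exT (N := 2) (hQ w).1 (hQ w).2 v
        (by exact_mod_cast h2)
      have := (((ns' L _ ν cj 1 hcj hν _ (hQ w).1 h2 ((fxd (hQ w).2).2 a)).2 A w _ (hQ w).2
        v).1 β x1 τ x2).2 fun d => x3.ne_one one_lt_two (mul_left_eq_self₀.1 (x4.symm.trans d)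
          |>.resolve_right x0)
      rw [(c τ x2).2.2] at this
      norm_num at this
    · obtain ⟨g, g1, g2⟩ := b
      exact g2 (nI w a A (fun g hg => (c g hg).2.1) g g1)
  rw [Finset.prod_ite, Finset.prod_const, Finset.prod_const, one_pow, one_mul, cntA, cntp, cntp,
    ← r6, r8, ← r10, ← n3, anch hL hh hW he ht sp ι s2 p1 p2 hcj hν
      (fun g => ((b6 g).trans (le_max_right _ _)).trans_lt p3) hp fp
      (fun 𝔓 h => ⟨hr' 𝔓, hu 𝔓 h⟩) ρ₂ r2, show a + 1 + k = k + 1 + a by ring] at r4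
  have r11 : (-1 : ℤ) ^ (h1 ρ ⊤ (Hf ρ) + (min (k + 1 + a).toNat (2 * k + 1) + 1)) =
      (-1) ^ {w | Fxd w ∧ ∃ g ∈ Dec (Q w), ψ g ≠ 1}.ncard := by exact_mod_cast r4
  rw [pow_add _ (_ + 1), ← r11, pow_add _ (h1 _ _ _), mul_left_comm, ← mul_pow]
  simp

end Pool.Agent.SY
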