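import Pool.Agent.Lib.MP_b4b3cb_nt.SY.AllT

/-! The parity theorem for twists of odd symmetric powers. -/

namespace Pool.Agent.SY

open NumberField IsDedekindDomain Matrix Pool.Agent.SelTwo Pool.Agent.HF Pool.Agent.SymTwo
open scoped Classical

variable {L : Type} [Field L] [NumberField L] [IsCMField L] {E : Type} [NontriviallyNormedField E]
  [NormedAlgebra ℚ_[2] E] [FiniteDimensional ℚ_[2] E]

/-- An anticyclotomic character is unramified at the ramified primes. -/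
theorem unr {ψ : Gal L →* E} {cj : Gal L → Gal L} (hcj : IsCj cj) (hψ : Ch ψ cj 0) {𝔓 : Idl L}
    (hm : 𝔓.IsMaximal) (h2 : 2 ∉ 𝔓) (hn : Nonsplit 𝔓) (hr : Ram 𝔓) {g : Gal L} (hg : g ∈ Ine 𝔓) :
    ψ g = 1 := by
  obtain ⟨w, hw⟩ := exw hm
  obtain ⟨ϖ, v⟩ := w.valuation_exists_uniformizer L
  obtain ⟨α, hα⟩ := IsAlgClosed.exists_pow_nat_eq (algebraMap L (AlgebraicClosure L) ϖ) two_pos
  have := (((ns' L E ψ cj 0 hcj hψ 𝔓 hm h2 hn).2 hr w ϖ hw v).1 α hα g hg)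
  by_cases e : g α = α
  exacts [this.1 e, by simpa using this.2 e]

/-- The value at a Frobenius element. -/
theorem frv {ψ : Gal L →* E} {cj : Gal L → Gal L} (hcj : IsCj cj) (hψ : Ch ψ cj 0) {𝔓 : Idl L}
    (hm : 𝔓.IsMaximal) (h2 : 2 ∉ 𝔓) (hn : Nonsplit 𝔓) (u : ∀ g ∈ Ine 𝔓, ψ g = 1) {σ : Gal L}
    (hσ : Fb 𝔓 (nq 𝔓) (σ : _ →+* _)) :
    ψ σ = ((if ∀ g ∈ Dec 𝔓, ψ g = 1 then 1 else -1 : ℤ) : E) := by
  obtain ⟨d1, -, d2, d3⟩ := den L 𝔓 hm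
  have m := d2 σ _ (by omega) hσ
  split_ifs with h
  · simpa using h σ m
  · have := (ns' L E ψ cj 0 hcj hψ 𝔓 hm h2 hn).1 u σ m
    rw [zpow_zero, sq_eq_one_iff] at this
    simpa using this.resolve_left fun e => h ((d3 σ hσ).2.2 E ψ hψ.ct u e)

theorem mainT (hL : Module.finrank ℚ L = 2) (W : WeierstrassCurve ℤ) (hW : Odd W.Δ)
    (t : Gal L → M2 ℤ_[2]) (ht : Tate W t) (ψ : Gal L →* E) (cj : Gal L → Gal L) (hcj : IsCj cj)
    (hψ : Ch ψ cj 0) (Q : HeightOneSpectrum (𝓞 L) → Idl L)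
    (hQ : ∀ w, (Q w).IsMaximal ∧ (Q w).under _ = w.asIdeal) (p : HeightOneSpectrum (𝓞 L))
    (hp : 2 ∈ p.asIdeal) (a : ℤ) (la : LA ψ (Q p) a)
    (hs : ∀ w, Fxd w → 2 ∉ w.asIdeal ∧
      (Adv W w → ¬Ram (Q w) ∧ 3 ∉ w.asIdeal ∧ ∀ g ∈ Ine (Q w), ψ g = 1)) (k : ℕ)
    (ρ : Gal L →* Matrix (Fin (2 * k + 1 + 1)) (Fin (2 * k + 1 + 1)) E)
    (hρ : ∀ g, ρ g = (ψ g / cyc E g ^ k) • sym (2 * k + 1) (te E (t g))) :
    (Submodule.span E (Hf ρ)).FG ∧ (-1 : ℤ) ^ h1 ρ ⊤ (Hf ρ) =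
      (-1) ^ (min (k + 1 + a).toNat (2 * k + 2) + {w | Fxd w ∧ Mul W w ∧
        (∀ g ∈ Ine (Q w), ψ g = 1) ∧ (Spm W w ↔ ∀ g ∈ Dec (Q w), ψ g = 1)}.ncard) := by
  have hΔ : W.Δ ≠ 0 := fun h => by simp [h] at hW
  obtain ⟨e, he, ht, fin⟩ := setT hΔ ht
  obtain ⟨ct, hd, -⟩ := det l1' L W hΔ e he t ht
  obtain ⟨C, c2, c3, c4⟩ := detC l1' hΔ he ht hcj
  have sp : ∀ 𝔓 : Idl L, 𝔓.IsMaximal → 2 ∈ 𝔓 → ¬Nonsplit 𝔓 := fun 𝔓 a b c => by
    obtain ⟨w, h⟩ := exw a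
    exact (hs w ((fxd h).1 c)).1 ((mem2 h).1.1 b)
  replace fin : {w | ∃ g ∈ Ine (Q w), t g ≠ 1 ∨ ψ g ≠ 1}.Finite :=
    ((fin Q hQ).union (ramC L E ψ hψ.ct hψ.one).2).subset fun w ⟨g, g1, g2⟩ =>
      g2.imp (fun h => ⟨g, g1, h⟩) fun h => ⟨_, (hQ w).1, (hQ w).2, g, g1, h⟩
  let T := fin.toFinset.filter Fxd
  have mT : ∀ w, w ∈ T ↔ (∃ g ∈ Ine (Q w), t g ≠ 1 ∨ ψ g ≠ 1) ∧ Fxd w := fun w => by simp [T]
  obtain ⟨N, N0, hN⟩ := ok L hL T fun w h => ⟨((mT w).1 h).2, (hs w ((mT w).1 h).2).1⟩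
  obtain ⟨E', _, _, _, f, s, ζ, ι, hf, s2, hζ⟩ := efe2 E (N := 12 * N) (by omega) two_pos
  obtain ⟨ϖ, Ψ, hT⟩ := hN E' _ (hζ.pow (by omega) rfl)
  have z12 := hζ.pow (by omega) (mul_comm 12 N)
  have := IsUltrametricDist.of_normedAlgebra ℚ_[2] (L := E')
  obtain ⟨T', hT'⟩ := exHom he.toTW ht
  let ρ₀ : Gal L →* Matrix (Fin (2 * k + 1 + 1)) (Fin (2 * k + 1 + 1)) ℚ_[2] :=
    { toFun := fun g => ((tq (t g)).det ^ k)⁻¹ • sym (2 * k + 1) (tq (t g))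
      map_one' := by rw [← hT', map_one, tq_one, symS.one]; simp
      map_mul' := fun g h => by
        rw [← hT', map_mul, hT', hT', tq_mul, symS.mul, det_mul, mul_pow, mul_inv,
          Matrix.smul_mul, Matrix.mul_smul, smul_smul] }
  obtain ⟨ρ₀', B, ⟨D, d1, d2⟩, q2⟩ := pol symS (dualS symS) _ E' s s2 t cj C ct
    (fun g => hT' g ▸ (isUnit_iff_isUnit_det _).1 ((Group.isUnit g).map T')) c2 c3 c4 k ρ₀
    fun _ => rfl
  rw [show (fun g => algebraMap ℚ_[2] E' (tq (t g)).det) = cyc E' from funext fun g => by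
    rw [hd]; rfl] at q2
  let ψ' := (f : E →* E').comp ψ
  have i1 : ∀ g, ψ' g = 1 ↔ ψ g = 1 := fun g => map_eq_one_iff f f.injective
  have hψ' : Ch ψ' cj 0 := hψ.map hf
  let ρ' : Gal L →* Matrix (Fin (2 * k + 1 + 1)) (Fin (2 * k + 1 + 1)) E' :=
    { toFun := fun g => ψ' g • ρ₀' g
      map_one' := by simp
      map_mul' := fun g h => by
        rw [map_mul, map_mul, Matrix.smul_mul, Matrix.mul_smul, smul_smul] }
  let ρ₁ := (f : E →+* E').mapMatrix.toMonoidHom.comp ρ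
  have r1 : ∀ g, ρ₁ g = tw ψ' k g • sym (2 * k + 1) (te E' (t g)) := fun g => by
    change (ρ g).map f = _
    rw [hρ, show te E' (t g) = (te E (t g)).map (f : E →+* E') from
      Matrix.ext fun i j => (f.commutes _).symm, symS.map, tw_apply, ← map_cyc f]
    ext i j
    simp [ψ']
  have q0 : ∀ g, D * ρ' g = ρ₁ g * D := fun g => by
    change D * (ψ' g • ρ₀' g) = _
    rw [Matrix.mul_smul, d2, ← Matrix.smul_mul, r1, te, symS.map, tw_apply]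
    congr 1
    ext i j
    simp [ρ₀, hd, div_eq_mul_inv, mul_assoc]
    exact Or.inl (Or.inl rfl)
  have q1 : Eqe (RingHom.id E') ρ₁ ρ' := ⟨D, d1, fun g => by simpa using q0 g⟩
  have hκ : Ch (tw ψ' k) cj (1 - (2 * k + 1 : ℕ)) := by
    convert hψ'.tw hcj k using 1
    push_cast
    ring
  have m2 := fun w => (mem2 (hQ w).2).1
  obtain ⟨a1, a2, a3⟩ := loc' L hL W hW e he t ht sp E' ι _ cj _ _ hcj hκ _ (hQ p).1 ((m2 p).2 hp)
    ((la.map f).tw k) ρ₁ r1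
  obtain ⟨j, hj⟩ := (all L hL).2 _ (hQ p).1 ((m2 p).2 hp)
  have b1 := basE1 L E' _ ρ₁ ρ' q1
  have one : ∀ (𝔓 : Idl L), 2 ∉ 𝔓 → ∀ g ∈ Ine 𝔓, ¬(t g ≠ 1 ∨ ψ g ≠ 1) → ρ' g = 1 :=
    fun 𝔓 h2 g hg h => by
      push Not at h
      refine d1.mul_left_cancel ?_
      rw [q0, r1, tw_apply, (i1 g).2 h.2, cyc_ine h2 hg, h.1, te_eq, map_one, symS.one]
      simp
  let S := fun w => Mul W w ∧ (∀ g ∈ Ine (Q w), ψ g = 1) ∧ (Spm W w ↔ ∀ g ∈ Dec (Q w), ψ g = 1)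
  have l3 := fun w (h : Fxd w) => l3' L W hΔ e he t ht _ (hQ w).1
    (mt (m2 w).1 (hs w h).1) w (hQ w).2
  have am : ∀ w : HeightOneSpectrum (𝓞 L), Adv W w → ¬Mul W w := fun w h =>
    WeierstrassCurve.HasAdditiveReduction.not_hasMultiplicativeReduction _ h
  obtain ⟨r2, r3⟩ := main7 L hL E' _ ρ' cj hcj B
    (polT q2 hψ'.ct hψ'.one (fun g => by simpa using hψ'.dual g) fun _ => rfl)
    (fun 𝔓 h => b1.1 _ (a1 𝔓 h)) sp (fun j => (b1.2.1 j).1 (a2 j)) j _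
    ((b1.2.1 j).2 _ (a3 j (by rw [hj]))) Q hQ
    ((fin.union (Ideal.finite_factors (I := Ideal.span {(2 : 𝓞 L)}) (by simp))).subset
      fun w ⟨g, g1, g2⟩ => (Classical.em (2 ∈ Q w)).symm.imp
        (fun h => ⟨g, g1, not_not.1 (mt (one _ h g g1) g2)⟩)
        fun h => Ideal.dvd_span_singleton.2 ((m2 w).1 h)) T
    (fun w a b g c => one _ (fun h => sp _ (hQ w).1 h b) g c fun d =>
      a ((mT w).2 ⟨⟨g, c, d⟩, (fxd (hQ w).2).1 b⟩))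
    ϖ Ψ hT (fun w => if S w then -1 else 1) fun w h => by
      obtain ⟨⟨g, g1, g2⟩, fx⟩ := (mT w).1 h
      have h2 := mt (m2 w).1 (hs w fx).1
      have hn := (fxd (hQ w).2).2 fx
      by_cases A : Adv W w ∨ ¬∀ g ∈ Ine (Q w), ψ g = 1
      · have kk : ∀ g ∈ Ine (Q w), tw ψ' k g = 1 ↔ ψ g = 1 := fun g hg => by
          rw [tw_apply, cyc_ine h2 hg, _root_.one_zpow, div_one, i1]
        obtain ⟨b, b2, b3, b4⟩ := inrT symS ramC tms l3' l4a l4b hΔ he ht hd z12 hκ.ct hκ.one ρ₁ r1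
          (hQ w).1 h2 (hQ w).2 (hT w h).2.1.2 fun c => ⟨mt (mem2 (hQ w).2).2.1 ((hs w fx).2 c).2.1,
            fun g hg => (kk g hg).2 (((hs w fx).2 c).2.2 g hg)⟩
        refine Or.inr ⟨hn, fun r => A.elim (fun c => ((hs w fx).2 c).1 r) fun c =>
          c fun g => unr hcj hψ (hQ w).1 h2 hn r, b, b1.2.2 _ _ b2, ?_⟩
        rw [if_neg fun c => A.elim (fun d => am w d c.1) fun d => d c.2.1, Even.neg_one_pow]
        by_cases u : ∀ g ∈ Ine (Q w), ψ g = 1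
        · exact b4 (fun g hg => (kk g hg).2 (u g hg)) (Or.inr (A.resolve_right (not_not.2 u)))
        · push Not at u
          obtain ⟨g, g1, g2⟩ := u
          rw [b3 ⟨g, g1, mt (kk g g1).1 g2⟩]
          exact ⟨k + 1, by ring⟩
      push Not at A
      have ep := fun δ hδ lm => epsT symS L E' t hd k ψ' ρ'
        ⟨D, d1, fun g => by simpa [r1, tw_apply] using q0 g⟩ _ (hQ w).1 h2 w (hQ w).2 _ _
        (hT w h).2.1.2 (hT w h).2.2.1 (hT w h).2.2.2.1 δ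
        (if ∀ g ∈ Dec (Q w), ψ g = 1 then 1 else -1) hδ (by split_ifs <;> simp) lm
        (fun g hg => (i1 g).2 (A.2 g hg)) fun σ hσ => by
          simpa only [i1] using frv hcj hψ' (hQ w).1 h2 hn (fun g hg => (i1 g).2 (A.2 g hg)) hσ
      refine Or.inl ?_
      rcases l3 w fx A.1 with p | ⟨p, q | q⟩
      · exact (g2.elim (· (p.1 g g1)) (· (A.2 g g1))).elim
      · convert ep 1 (Or.inl rfl) q.1 using 1
        by_cases c : ∀ g ∈ Dec (Q w), ψ g = 1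
        · rw [if_pos ⟨p, A.2, iff_of_true q.2 c⟩, if_pos c]; simp
        · rw [if_neg fun d => c (d.2.2.1 q.2), if_neg c]; simp
      · convert ep (-1) (Or.inr rfl) q.1 using 1
        by_cases c : ∀ g ∈ Dec (Q w), ψ g = 1
        · rw [if_neg fun d => q.2 (d.2.2.2 c), if_pos c]; simp
        · rw [if_pos ⟨p, A.2, iff_of_false q.2 c⟩, if_neg c]; simp
  obtain ⟨r4, r5⟩ := basE2 L E E' f _ ρ ρ' ⟨D, d1, q0⟩ r2
  refine ⟨r4, ?_⟩
  have n3 : {w | Fxd w ∧ S w}.ncard = (T.filter S).card := by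
    rw [← Set.ncard_coe_finset]
    congr 1
    ext w
    simp only [Finset.coe_filter, mT, Set.mem_ofPred]
    refine ⟨fun ⟨a, b⟩ => ⟨⟨?_, a⟩, b⟩, fun h => ⟨h.1.2, h.2⟩⟩
    rcases l3 w a (fun c => am w c b.1) with p | ⟨-, ⟨⟨_, -, -, ⟨g, p⟩, -⟩, -⟩ |
      ⟨⟨_, -, -, ⟨g, p⟩, -⟩, -⟩⟩
    exacts [(p.2 b.1).elim, ⟨g, p.1, Or.inl p.2⟩, ⟨g, p.1, Or.inl p.2⟩]
  rw [Finset.prod_ite, Finset.prod_const, Finset.prod_const_one, mul_one, cntp, ← r5, ← n3,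
    show a - k + (2 * k + 1 : ℕ) = k + 1 + a by push_cast; ring] at r3
  have := charZero_of_injective_algebraMap (algebraMap ℚ_[2] E').injective
  have r6 : (-1 : ℤ) ^ (h1 ρ ⊤ (Hf ρ) + min (k + 1 + a).toNat (2 * k + 2)) =
      (-1) ^ {w | Fxd w ∧ S w}.ncard := by exact_mod_cast r3
  rw [pow_add _ (min _ _), ← r6, pow_add, mul_left_comm, ← mul_pow]
  simp

end Pool.Agent.SY
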