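import Pool.Agent.Lib.MP_b4b3cb_nt.SY.Ts

/-! Ramified torsion points at a place of multiplicative reduction. -/

namespace Pool.Agent.SY

open WeierstrassCurve Polynomial
open Pool.Agent.Lib.MP_02f36d_nt

namespace Ram

variable {Ω k : Type} [Field Ω] [IsAlgClosed Ω] [Field k] {p : Place Ω k}

theorem spP_prod (s : Multiset Ω) (h : ∀ y ∈ s, Sp p y 0) :
    SpP p (s.map fun y => X - C y).prod (X ^ s.card) := by
  induction s using Multiset.induction_on with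
  | empty => exact ⟨1, by simp, by simp⟩
  | cons y s ih =>
    obtain ⟨r, a, b⟩ := ih fun z hz => h z (Multiset.mem_cons_of_mem hz)
    obtain ⟨c, d⟩ := h y (Multiset.mem_cons_self _ _)
    refine ⟨(X - C ⟨y, c⟩) * r, by simp [a], ?_⟩
    rw [Polynomial.map_mul, b, Polynomial.map_sub, map_X, map_C, d, Multiset.card_cons, pow_succ']
    simp

theorem unit_root {f : Polynomial Ω} (hm : f.Monic) (h : ∀ n, f.coeff n ∈ p.A) {i : ℕ} {c : k}
    (hi : i ≠ f.natDegree) (hc : Sp p (f.coeff i) c) (c0 : c ≠ 0) :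
    ∃ y d, f.eval y = 0 ∧ Sp p y d ∧ d ≠ 0 := by
  by_contra! H
  obtain ⟨q, q1, -, q2⟩ := lifts_and_natDegree_eq_and_monic
    ((lifts_iff_coeff_lifts (f := algebraMap p.A Ω) f).2 fun n => ⟨⟨_, h n⟩, rfl⟩) hm
  have := spP_prod (p := p) f.roots fun y hy => by
    have e : f.eval y = 0 := isRoot_of_mem_roots hy
    obtain ⟨z, rfl⟩ := (IsIntegrallyClosed.isIntegral_iff (R := p.A) (K := Ω) (x := y)).1
      ⟨q, q2, by rwa [← eval_map, q1]⟩
    exact (sp_of_mem z.2).congr rfl (H _ _ e (sp_of_mem z.2))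
  rw [← (IsAlgClosed.splits f).eq_prod_roots_of_monic hm,
    ← (IsAlgClosed.splits f).natDegree_eq_card_roots] at this
  exact c0 (hc.unique ((this.coeff i).congr rfl (by rw [coeff_X_pow, if_neg hi])))

theorem quart {a b c d : Ω} {e : k} (ha : a ∈ p.A) (hb : Sp p b e) (hc : c ∈ p.A) (hd : d ∈ p.A)
    (he : e ≠ 0) : ∃ y t, y ^ 4 + a * y ^ 3 + b * y ^ 2 + c * y + d = 0 ∧ Sp p y t ∧ t ≠ 0 := by
  have := unit_root (p := p) (f := X ^ 4 + C a * X ^ 3 + C b * X ^ 2 + C c * X + C d)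
    (by monicity!) (fun n => by
      simp only [coeff_add, coeff_C_mul, coeff_X_pow, coeff_X, coeff_C]
      have := hb.mem
      refine add_mem (add_mem (add_mem (add_mem ?_ ?_) ?_) ?_) ?_ <;> split_ifs <;>
        simp only [mul_one, mul_zero, *, one_mem, zero_mem])
    (i := 2) (by rw [show natDegree _ = 4 by compute_degree!]; decide)
    (hb.congr (by simp) rfl) he
  simpa using this

theorem root {w : Ω} (h : w ∈ p.A) : ∃ s ∈ p.A, s ^ 2 = w := by
  obtain ⟨s, hs⟩ := IsAlgClosed.exists_pow_nat_eq w two_pos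
  exact ⟨s, mem_of_quad (zero_mem _) h (by rw [zero_mul, add_zero, hs]), hs⟩

end Ram

theorem ram : RamSt := by
  intro Ω k _ _ _ _ _ p hs h2 V U h hV hU hc
  obtain ⟨x₀, y₀, α, nd⟩ := exists_node' hU hc
  generalize -U.a₁ - α = β at nd
  have n2 : U.b₂ + 12 * x₀ = (α - β) ^ 2 := by rw [b₂, nd.h1, nd.h2]; ring
  have n0 : U.b₂ + 12 * x₀ ≠ 0 := n2 ▸ pow_ne_zero 2 (sub_ne_zero.2 nd.ne)
  obtain ⟨r, r1, r2⟩ := exists_shift hs h.b₂ h.b₄ (x := x₀)
    (by rw [b₂, b₄, nd.h1, nd.h2, nd.h3, nd.h4]; ring) n0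
  obtain ⟨b, hb⟩ : ∃ b, b = 4 * r ^ 3 + V.b₂ * r ^ 2 + 2 * V.b₄ * r + V.b₆ := ⟨_, rfl⟩
  obtain ⟨B, hB⟩ : ∃ B, B = V.b₂ + 12 * r := ⟨_, rfl⟩
  have sB : Sp p B _ := (h.b₂.add ((sp_ofNat 12).mul r1)).congr hB.symm rfl
  have sb : Sp p b 0 := (((((sp_ofNat 4).mul (r1.pow 3)).add (h.b₂.mul (r1.pow 2))).add
    (((sp_ofNat 2).mul h.b₄).mul r1)).add h.b₆).congr hb.symm
    (by rw [b₂, b₄, b₆, nd.h1, nd.h2, nd.h3, nd.h4, nd.h6]; ring)
  have h4 : (4 : k) ≠ 0 := by rw [show (4 : k) = 2 * 2 by norm_num]; exact mul_ne_zero h2 h2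
  have s4 : Sp p 4 4 := sp_ofNat 4
  have m2 : (2 : Ω) ∈ p.A := (sp_ofNat (p := p) 2).mem
  have o4 := s4.ne_zero h4
  have e2 : V.b₂ = B - 12 * r := by rw [hB]; ring
  have e4 : V.b₄ = 6 * r ^ 2 - r * B := by linear_combination r2 + r * hB
  have e6 : V.b₆ = b - 4 * r ^ 3 + B * r ^ 2 := by
    linear_combination -hb - r ^ 2 * e2 - 2 * r * e4
  have e8 := V.b_relation
  rw [e2, e4, e6] at e8
  have b0 : b ≠ 0 := fun e => hV (mul_left_cancel₀ o4 (by
    rw [Δ, e2, e4, e6]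
    subst e
    linear_combination -(B - 12 * r) ^ 2 * e8))
  have key : ∀ n : ℕ, ∃ (P : V.Point) (m : ℕ) (c : k), P ≠ 0 ∧ xc P - r ∈ p.A ∧
      b / (xc P - r) ^ 2 ∈ p.A ∧ 2 ^ m • P = 0 ∧ c ≠ 0 ∧
        Sp p ((xc P - r) ^ 2 ^ (n + 1) / b) c := fun n => by
    induction n with
    | zero =>
      obtain ⟨s, s1, s2⟩ := Ram.root sb.mem
      obtain ⟨z, t, z1, z2, z3⟩ := Ram.quart (zero_mem _) sB (mul_mem s4.mem s1) (zero_mem _) n0
      have z0 := z2.ne_zero z3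
      have s0 : s ≠ 0 := fun e => b0 (by rw [← s2, e]; simp)
      obtain ⟨y, hy⟩ := exists_eqn V (r + s * z⁻¹)
      have ns := (Affine.equation_iff_nonsingular_of_Δ_ne_zero hV).1 hy
      have ev := eval_Psi V hy
      simp only [Ψ₂Sq, eval_add, eval_mul, eval_C, eval_pow, eval_X] at ev
      have hY : (2 * y + V.a₁ * (r + s * z⁻¹) + V.a₃) ^ 2 = 0 := by
        rw [← ev, e2, e4, e6, ← s2]
        field_simp
        apply mul_left_cancel₀ z0
        linear_combination s ^ 2 * z1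
      refine ⟨.some _ y ns, 1, t⁻¹ ^ 2, Affine.Point.some_ne_zero ns, ?_, ?_, ?_,
        pow_ne_zero 2 (inv_ne_zero z3), ?_⟩
      · rw [xc_some, add_sub_cancel_left]
        exact mul_mem s1 (z2.inv z3).mem
      · rw [xc_some, add_sub_cancel_left, ← s2]
        exact ((z2.pow 2).congr (by rw [mul_pow, inv_pow]; field_simp) rfl).mem
      · rw [pow_one, two_nsmul]
        refine Affine.Point.add_self_of_Y_eq ?_
        rw [Affine.negY]
        linear_combination pow_eq_zero_iff two_ne_zero |>.1 hY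
      · rw [xc_some, add_sub_cancel_left, ← s2]
        exact ((z2.inv z3).pow 2).congr (by rw [zero_add, pow_one]; field_simp) rfl
    | succ n ih =>
      obtain ⟨P, m, c, p0, p1, p2, p3, c0, p4⟩ := ih
      obtain ⟨s, s1, s2⟩ := Ram.root p1
      have s0 : s ≠ 0 := fun e => p4.ne_zero c0 (by rw [← s2, e]; simp)
      rw [← s2] at p2 p4
      obtain ⟨D, hD⟩ : ∃ D, D = b / (s ^ 2) ^ 2 := ⟨_, rfl⟩
      rw [← hD] at p2
      have d1 : D * s ^ 4 = b := by rw [hD]; field_simp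
      have d2 : (4 : Ω) * 4⁻¹ = 1 := mul_inv_cancel₀ o4
      obtain ⟨y, t, y1, y2, y3⟩ := Ram.quart (neg_mem (mul_mem s4.mem s1)) sB.neg
        (neg_mem (mul_mem (mul_mem m2 s1) p2))
        (neg_mem (mul_mem (add_mem (mul_mem sB.mem (s4.inv h4).mem) (pow_mem s1 2)) p2))
        (neg_ne_zero.2 n0)
      have y0 := y2.ne_zero y3
      obtain ⟨Q, q0, q1, q2⟩ := half_of hV p0 (x := r + s * y) (mul_left_cancel₀ o4 (by
        rw [← sub_add_cancel (xc P) r, ← s2, e2, e4, e6]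
        linear_combination 4 * s ^ 4 * y1 + (8 * s * y + 4 * s ^ 2 + B) * d1 +
          B * s ^ 4 * D * d2 - e8))
      refine ⟨Q, m + 1, c * t ^ 2 ^ (n + 2), q0, ?_, ?_, by rw [pow_succ, mul_smul, q2, p3],
        mul_ne_zero c0 (pow_ne_zero _ y3), ?_⟩ <;> rw [q1, add_sub_cancel_left]
      · exact mul_mem s1 y2.mem
      · have := mul_mem (mul_mem p2 (pow_mem s1 2)) (pow_mem (y2.inv y3).mem 2)
        convert this using 1
        rw [← d1]
        field_simp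
      · refine (p4.mul (y2.pow _)).congr ?_ rfl
        rw [mul_pow, ← pow_mul, ← pow_succ', div_mul_eq_mul_div]
  exact ⟨r, b, b0, sb, fun n => let ⟨P, m, c, _, _, _, h⟩ := key n; ⟨P, m, c, h⟩⟩

end Pool.Agent.SY
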