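import Pool.Agent.Lib.MP_b4b3cb_nt.SY.St3
import Pool.Agent.Lib.MP_b4b3cb_nt.Par.Glo
import Pool.Agent.Lib.MP_ca56d1_nt.AR.All

/-! The reciprocity law of Artin for characters of the absolute Galois group. -/

namespace Pool.Agent.SY

open NumberField IsDedekindDomain Pool.Agent.SelTwo Pool.Agent.Stark Pool.Agent.Stark.AR
open scoped Classical IsMulCommutative Pointwise

namespace RecT

theorem smul_map {L : Type} [Field L] (K : IntermediateField L (AlgebraicClosure L)) [Normal L K]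
    (a : Gal L) (x : 𝓞 K) : a • algebraMap (𝓞 K) (𝓞 (AlgebraicClosure L)) x =
      algebraMap (𝓞 K) (𝓞 (AlgebraicClosure L)) (AlgEquiv.restrictNormalHom K a • x) :=
  RingOfIntegers.ext (AlgEquiv.restrictNormalHom_apply K a (x : K)).symm

end RecT

theorem recT : RecTSt := by
  intro L _ _ hR Γ _ η ho S hS F hF
  have X := SP.facts L (AlgebraicClosure L)
  obtain ⟨K, hK, e⟩ := X.top.field η.ker ho
  have e1 : K.fixingSubgroup = η.ker := by
    rw [← e]
    ext g
    exact (K.mem_fixingSubgroup_iff g).trans ⟨fun h x => h x x.2, fun h x hx => h ⟨x, hx⟩⟩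
  have hG : IsGalois L K := (InfiniteGalois.normal_iff_isGalois K).1 (e1 ▸ inferInstance)
  have : NumberField K := NumberField.of_module_finite L K
  have hk : (AlgEquiv.restrictNormalHom K : Gal L →* _).ker = η.ker := by
    rw [IntermediateField.restrictNormalHom_ker, e1]
  have hs : Function.Surjective (AlgEquiv.restrictNormalHom K : Gal L →* _) :=
    AlgEquiv.restrictNormalHom_surjective _
  have hA : IsAbelianGalois L K :=
    { hG with
      is_comm := ⟨fun g k => by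
        obtain ⟨a, rfl⟩ := hs g
        obtain ⟨b, rfl⟩ := hs k
        rw [← map_mul, ← map_mul, MonoidHom.eq_iff, hk, ← MonoidHom.eq_iff, map_mul, map_mul,
          mul_comm]⟩ }
  have hU : UnrO K S := fun Q hQ => by
    refine ((hFr L K).inert hG Q).2 fun g hg => ?_
    obtain ⟨a, rfl⟩ := hs g
    obtain ⟨𝔓, h𝔓⟩ := X.pr.ex K Q
    have h1 : SC.Over (a • 𝔓) Q := by
      refine ⟨X.pr.smul_max a h𝔓.1, fun x => ?_⟩
      obtain ⟨y, rfl⟩ : ∃ y, x = AlgEquiv.restrictNormalHom K a • y := ⟨_, (smul_inv_smul _ x).symm⟩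
      rw [← RecT.smul_map, X.pr.mem_smul, ← h𝔓.2]
      exact ⟨fun h => by simpa using sub_mem h (hg y), fun h => by simpa using add_mem (hg y) h⟩
    obtain ⟨b, hb, h2⟩ := X.pr.trans h1 h𝔓
    have h3 : AlgEquiv.restrictNormalHom K (b * a) = AlgEquiv.restrictNormalHom K a := by
      rw [e, ← hk, MonoidHom.mem_ker] at hb
      rw [map_mul, hb, one_mul]
    obtain ⟨c, hc, h4⟩ := X.fr.res (F := K) h𝔓.1 (b * a)
      (MulAction.mem_stabilizer_iff.2 ((mul_smul _ _ _).trans h2)) fun y => by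
        rw [RecT.smul_map, h3, ← map_sub, ← h𝔓.2]
        exact hg y
    have h5 := hS 𝔓 (below L Q) h𝔓.1 (Ideal.ext fun y => ((X.pr.below h𝔓).2 y).symm) hQ _ h4
    have h6 : η c = 1 := by
      have := hc.2
      rwa [e] at this
    rw [map_mul, map_inv, h6, inv_one, mul_one, ← MonoidHom.mem_ker, ← hk] at h5
    exact h3.symm.trans h5
  obtain ⟨N, hN⟩ := hRec L K S hU
  refine ⟨N, fun α hα => ?_⟩
  let θ : (K ≃ₐ[L] K) →* Γ := MonoidHom.liftOfSurjective _ hs ⟨η, hk.le⟩
  have hθ : ∀ a : Gal L, θ (AlgEquiv.restrictNormalHom K a) = η a := fun a =>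
    MonoidHom.liftOfRightInverse_comp_apply _ _ _ _ a
  have h0 := congrArg θ (hN α hα fun φ _ => hR.elim φ)
  rw [map_ev, map_one] at h0
  refine (ev_congr fun w hw => ?_).trans h0
  have hw' : w ∉ S := fun h => hw (hα.og_eq h)
  obtain ⟨𝔓, hm, hu, hf⟩ := hF w
  obtain ⟨Q, hQ⟩ := X.pr.under K 𝔓 hm
  have h1 : SC.Over 𝔓 w := ⟨hm, fun y => by rw [← hu]; rfl⟩
  have h2 : below L Q = w := X.pr.uniq (X.pr.below hQ) h1
  subst h2
  rw [← hθ]
  congr 1
  refine (hFr L K).uniq hA Q _ (hU Q hw') fun x => ?_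
  rw [hQ.2, map_sub, map_pow, ← RecT.smul_map, ← hu]
  exact fb_iff.1 hf _

end Pool.Agent.SY
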