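import Pool.Agent.Lib.MP_b4b3cb_nt.SY.Defs

/-! The statements of the steps. -/

namespace Pool.Agent.SY

open NumberField IsDedekindDomain Matrix WeierstrassCurve Pool.Agent.SelTwo Pool.Agent.HF
open Pool.Agent.SymTwo
open Pool.Agent.Lib.MP_02f36d_nt (Place Sp SpW Red ptMap OV Node xc deg)
open scoped Classical

/-- The degree form of the Frobenius. -/
def Fr1St : Prop :=
  ∀ (k : Type) [Field k] [IsAlgClosed k] [DecidableEq k] (U : Affine k), U.Δ ≠ 0 →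
    ∀ (φ : k →+* k) (q : ℕ), 1 < q → (∀ x, φ x = x ^ q) → ∀ h : U.map φ = U, ∃ a : ℤ,
      a ^ 2 ≤ 4 * q ∧ (∀ P, ptMap φ h (ptMap φ h P) - a • ptMap φ h P + q • P = 0) ∧
      ∀ r s : ℤ, (deg (r • AddMonoidHom.id U.Point + s • ptMap φ h) : ℤ) =
        r ^ 2 + a * r * s + q * s ^ 2

/-- The Frobenius on the Tate module. -/
def FrSt : Prop :=
  ∀ (k : Type) [Field k] [IsAlgClosed k] [DecidableEq k] (U : Affine k), U.Δ ≠ 0 →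
    ∀ (φ : k →+* k) (q : ℕ), 1 < q → (∀ x, φ x = x ^ q) → ∀ (h : U.map φ = U)
      (e : Z2 →+ ℕ → U.Point), TW e → ∀ A, Mt e (ptMap φ h) A →
      ∃ a : ℤ, a ^ 2 ≤ 4 * q ∧ A.det = q ∧ A.trace = a

/-- Symmetric powers. -/
structure SymSt : Prop where
  mul : ∀ {R : Type} [CommRing R] (m : ℕ) (A B : M2 R), sym m (A * B) = sym m A * sym m B
  one : ∀ {R : Type} [CommRing R] (m : ℕ), sym m (1 : M2 R) = 1
  map : ∀ {R S : Type} [CommRing R] [CommRing S] (f : R →+* S) (m : ℕ) (A : M2 R),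
    sym m (A.map f) = (sym m A).map f
  tri : ∀ {R : Type} [CommRing R] (m : ℕ) (A : M2 R), A 1 0 = 0 →
    (∀ i j, j < i → sym m A i j = 0) ∧ ∀ i, sym m A i i = A 0 0 ^ (m - i) * A 1 1 ^ (i : ℕ)
  diag : ∀ {R : Type} [CommRing R] (m : ℕ) (a d : R),
    sym m (diagonal ![a, d]) = diagonal fun i : Fin (m + 1) => a ^ (m - i) * d ^ (i : ℕ)
  uni : ∀ {R : Type} [Field R] [CharZero R] (m : ℕ) (c : R), c ≠ 0 → ∀ v,
    sym m !![1, c; 0, 1] *ᵥ v = v → ∀ i, i ≠ 0 → v i = 0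
  cont : ∀ {R : Type} [CommRing R] [TopologicalSpace R] [IsTopologicalRing R] (m : ℕ),
    Continuous (sym m : M2 R → _)

/-- The invariant form. -/
def DualSt : Prop :=
  ∀ (R : Type) [Field R] [CharZero R] (m : ℕ) (A : M2 R),
    (sym m A)ᵀ * Jm R m * sym m A = A.det ^ m • Jm R m

/-- Purity. -/
def EigSt : Prop :=
  ∀ (A : M2 ℚ_[2]) (a : ℤ) (q k : ℕ), 1 < q → a ^ 2 ≤ 4 * q → A.det = q → A.trace = a →
    ∀ v, sym (2 * k + 1) A *ᵥ v = (q : ℚ_[2]) ^ k • v → v = 0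

/-- No local invariants. -/
def InvSt : Prop :=
  ∀ (G : Type) (t : G → M2 ℤ_[2]) (D : Set G) (k : ℕ), Pu t D → ∀ v,
    (∀ g ∈ D, (((tq (t g)).det ^ k)⁻¹ • sym (2 * k + 1) (tq (t g))) *ᵥ v = v) → v = 0

/-- The polarisation. -/
def PolSt : Prop :=
  ∀ (G : Type) [Group G] [TopologicalSpace G] (E : Type) [NontriviallyNormedField E]
    [NormedAlgebra ℚ_[2] E] (s : E), s ^ 2 = 2 → ∀ (t : G → M2 ℤ_[2]) (cj : G → G) (C : M2 ℤ_[2]),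
    Continuous t → (∀ g, IsUnit (t g).det) → C * C = 1 → C.det = -1 →
    (∀ g, t (cj g) = C * t g * C) →
    ∀ (k : ℕ) (ρ : G →* Matrix (Fin (2 * k + 1 + 1)) (Fin (2 * k + 1 + 1)) ℚ_[2]),
    (∀ g, ρ g = ((tq (t g)).det ^ k)⁻¹ • sym (2 * k + 1) (tq (t g))) →
    ∃ ρ' B, Eqv ρ ρ' ∧ PolS ρ' (fun g => algebraMap ℚ_[2] E (tq (t g)).det) cj B

/-- Change of the model. -/
def VcSt : Prop :=
  ∀ (F : Type) [Field F] [IsAlgClosed F] [DecidableEq F] (V : Affine F) (C : VariableChange F),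
    V.Δ ≠ 0 → ∀ e : Z2 →+ ℕ → V.Point, TS e → ∃ e' : Z2 →+ ℕ → (C • V).toAffine.Point, TS e' ∧
      ∀ (σ : F →+* F) (h : V.map σ = V), C.map σ = C → ∀ A, Mt e (ptMap σ h) A →
        ∃ h' : (C • V).toAffine.map σ = C • V, Mt e' (ptMap σ h') A

/-- Good reduction at an odd place. -/
def GoodSt : Prop :=
  ∀ (Ω k : Type) [Field Ω] [IsAlgClosed Ω] [DecidableEq Ω] [Field k] [IsAlgClosed k]
    (p : Place Ω k), Function.Surjective p.ρ → (2 : k) ≠ 0 → ∀ (V : Affine Ω) (U : Affine k),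
    SpW p V U → U.Δ ≠ 0 → ∀ e : Z2 →+ ℕ → V.Point, TW e →
    ∀ (σ : Ω →+* Ω) (φ : k →+* k) (q : ℕ) (h : V.map σ = V) (A : M2 ℤ_[2]), Cp p σ φ →
    (∀ c, φ c = c ^ q) → Mt e (ptMap σ h) A →
    (q = 1 → A = 1) ∧ (1 < q → ∃ a : ℤ, a ^ 2 ≤ 4 * q ∧ A.det = q ∧ A.trace = a)

/-- Multiplicative reduction at an odd place: the toric line. -/
def MultSt : Prop :=
  ∀ (Ω k : Type) [Field Ω] [IsAlgClosed Ω] [DecidableEq Ω] [Field k] [IsAlgClosed k]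
    (p : Place Ω k), Function.Surjective p.ρ → (2 : k) ≠ 0 → ∀ (V : Affine Ω) (U : Affine k),
    SpW p V U → V.Δ ≠ 0 → ∀ x₀ y₀ α β, Node U x₀ y₀ α β → ∀ e : Z2 →+ ℕ → V.Point, TS e →
    ∃ x : Z2, x ≠ 0 ∧ ∀ (σ : Ω →+* Ω) (φ : k →+* k) (q : ℕ) (h : V.map σ = V) (A : M2 ℤ_[2]),
      Cp p σ φ → (∀ c, φ c = c ^ q) → Mt e (ptMap σ h) A →
      (φ α = α → A *ᵥ x = (q : ℤ_[2]) • x) ∧ (φ α ≠ α → A *ᵥ x = (-q : ℤ_[2]) • x)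

/-- Multiplicative reduction at an odd place: ramified torsion points. -/
def RamSt : Prop :=
  ∀ (Ω k : Type) [Field Ω] [IsAlgClosed Ω] [DecidableEq Ω] [Field k] [IsAlgClosed k]
    (p : Place Ω k), Function.Surjective p.ρ → (2 : k) ≠ 0 → ∀ (V : Affine Ω) (U : Affine k),
    SpW p V U → V.Δ ≠ 0 → U.Δ = 0 → U.c₄ ≠ 0 → ∃ r b : Ω, b ≠ 0 ∧ Sp p b 0 ∧
      ∀ n : ℕ, ∃ (P : V.Point) (m : ℕ) (c : k), 2 ^ m • P = 0 ∧ c ≠ 0 ∧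
        Sp p ((xc P - r) ^ 2 ^ (n + 1) / b) c

/-- A semistable model over an algebraically closed field. -/
def PotSt : Prop :=
  ∀ (Ω k : Type) [Field Ω] [IsAlgClosed Ω] [Field k] (p : Place Ω k), (2 : k) ≠ 0 →
    ∀ V : WeierstrassCurve Ω, V.Δ ≠ 0 →
    ∃ (C : VariableChange Ω) (U : Affine k), SpW p (C • V) U ∧ (U.c₄ ≠ 0 ∨ U.Δ ≠ 0)

/-- The place of a maximal ideal. -/
def PlcSt : Prop :=
  ∀ (L : Type) [Field L] [NumberField L] (𝔓 : Idl L), 𝔓.IsMaximal →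
    ∃ (k : Type) (_ : Field k) (_ : IsAlgClosed k) (p : Place (AlgebraicClosure L) k), IsPl 𝔓 p

/-- Frobenius and inertia elements that fix a finite set. -/
def UnSt : Prop :=
  ∀ (L : Type) [Field L] [NumberField L] (𝔓 : Idl L), 𝔓.IsMaximal → 2 ∉ 𝔓 →
    ∀ S : Finset (AlgebraicClosure L),
    (∃ g ∈ Dec 𝔓, ∃ q, 1 < q ∧ Fb 𝔓 q (g : _ →+* _) ∧ cyc ℚ_[2] g = q ∧ ∀ s ∈ S, g s = s) ∧
    ∀ (k : Type) [Field k] (p : Place (AlgebraicClosure L) k), IsPl 𝔓 p →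
      ∀ (b : AlgebraicClosure L) (y : ℕ → AlgebraicClosure L), b ≠ 0 → Sp p b 0 →
      (∀ n, ∃ c, c ≠ 0 ∧ Sp p (y n ^ 2 ^ (n + 1) / b) c) →
      ∃ g ∈ Ine 𝔓, (∀ s ∈ S, g s = s) ∧ ∃ n, g (y n) ≠ y n

/-- Odd primes that do not divide the discriminant. -/
def L1St : Prop :=
  ∀ (L : Type) [Field L] [NumberField L] (W : WeierstrassCurve ℤ)
    (e : Z2 →+ ℕ → (cv W (AlgebraicClosure L)).Point), TW e → ∀ 𝔓 : Idl L, 𝔓.IsMaximal →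
    2 ∉ 𝔓 → (W.Δ : 𝓞 _) ∉ 𝔓 → ∀ σ q A, 0 < q → Fb 𝔓 q σ → Mt e (gm W σ) A →
    (q = 1 → A = 1) ∧ (1 < q → ∃ a : ℤ, a ^ 2 ≤ 4 * q ∧ A.det = q ∧ A.trace = a)

/-- The determinant and the complex conjugation. -/
def DetSt : Prop :=
  ∀ (L : Type) [Field L] [NumberField L] [IsCMField L] (W : WeierstrassCurve ℤ), W.Δ ≠ 0 →
    ∀ e : Z2 →+ ℕ → (cv W (AlgebraicClosure L)).Point, TS e → ∀ t : Gal L → M2 ℤ_[2],
    (∀ g : Gal L, Mt e (gm W (g : _ →+* _)) (t g)) →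
    Continuous t ∧ (∀ g, (tq (t g)).det = cyc ℚ_[2] g) ∧ ∃ (cj : Gal L → Gal L) (C : M2 ℤ_[2]),
      IsCj cj ∧ C * C = 1 ∧ C.det = -1 ∧ ∀ g, t (cj g) = C * t g * C

/-- All odd primes. -/
def L2St : Prop :=
  ∀ (L : Type) [Field L] [NumberField L] (W : WeierstrassCurve ℤ), W.Δ ≠ 0 →
    ∀ e : Z2 →+ ℕ → (cv W (AlgebraicClosure L)).Point, TS e → ∀ t : Gal L → M2 ℤ_[2],
    (∀ g : Gal L, Mt e (gm W (g : _ →+* _)) (t g)) → (∀ g, (tq (t g)).det = cyc ℚ_[2] g) →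
    ∀ 𝔓 : Idl L, 𝔓.IsMaximal → 2 ∉ 𝔓 → Pu t (Dec 𝔓)

/-- Odd primes of semistable reduction. -/
def L3St : Prop :=
  ∀ (L : Type) [Field L] [NumberField L] (W : WeierstrassCurve ℤ), W.Δ ≠ 0 →
    ∀ e : Z2 →+ ℕ → (cv W (AlgebraicClosure L)).Point, TS e → ∀ t : Gal L → M2 ℤ_[2],
    (∀ g : Gal L, Mt e (gm W (g : _ →+* _)) (t g)) →
    ∀ 𝔓 : Idl L, 𝔓.IsMaximal → 2 ∉ 𝔓 → ∀ w : HeightOneSpectrum (𝓞 L),
    𝔓.under _ = w.asIdeal → ¬Adv W w →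
    ((∀ g ∈ Ine 𝔓, t g = 1) ∧ ¬Spm W w) ∨ (LM t 𝔓 1 ∧ Spm W w) ∨ (LM t 𝔓 (-1) ∧ ¬Spm W w)

/-- The local constant at a prime of multiplicative type. -/
def EpsSt : Prop :=
  ∀ (L : Type) [Field L] [NumberField L] (E : Type) [NontriviallyNormedField E]
    [NormedAlgebra ℚ_[2] E] (t : Gal L → M2 ℤ_[2]), (∀ g, (tq (t g)).det = cyc ℚ_[2] g) →
    ∀ (k : ℕ) (ρ : Gal L →* Matrix (Fin (2 * k + 1 + 1)) (Fin (2 * k + 1 + 1)) ℚ_[2]),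
    (∀ g, ρ g = ((tq (t g)).det ^ k)⁻¹ • sym (2 * k + 1) (tq (t g))) → ∀ ρ', Eqv ρ ρ' →
    ∀ 𝔓 : Idl L, 𝔓.IsMaximal → 2 ∉ 𝔓 → ∀ w : HeightOneSpectrum (𝓞 L), 𝔓.under _ = w.asIdeal →
    ∀ (ϖ : L) (Ψ : AddChar (𝓞 L) E), w.valuation L ϖ = WithZero.exp (-1) → Ψ ≠ 1 →
    (∀ x ∈ w.asIdeal, Ψ x = 1) → ∀ δ : ℤ, δ = 1 ∨ δ = -1 → LM t 𝔓 δ → Eps ρ' 𝔓 ϖ Ψ (-δ)

/-- Uniformisers and additive characters. -/
def OkSt : Prop :=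
  ∀ (L : Type) [Field L] [NumberField L] [IsCMField L], Module.finrank ℚ L = 2 →
    ∀ T : Finset (HeightOneSpectrum (𝓞 L)), (∀ w ∈ T, Fxd w ∧ 2 ∉ w.asIdeal) → ∃ N : ℕ, 0 < N ∧
    ∀ (E : Type) [NontriviallyNormedField E] (ζ : E), IsPrimitiveRoot ζ N →
    ∃ ϖ, ∃ Ψ : _ → AddChar (𝓞 L) E, Ok T ϖ Ψ

/-- The field of coefficients. -/
def EFSt : Prop :=
  ∀ N : ℕ, 0 < N → ∃ (E : Type) (_ : NontriviallyNormedField E) (_ : NormedAlgebra ℚ_[2] E)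
    (_ : FiniteDimensional ℚ_[2] E) (s ζ : E), s ^ 2 = 2 ∧ IsPrimitiveRoot ζ N

/-- The primes of split multiplicative reduction come in pairs. -/
def CntSt : Prop :=
  ∀ (L : Type) [Field L] [NumberField L] [IsCMField L] (W : WeierstrassCurve ℤ), W.Δ ≠ 0 →
    {w : HeightOneSpectrum (𝓞 L) | Spm W w}.Finite ∧
      Even {w : HeightOneSpectrum (𝓞 L) | Spm W w ∧ ¬Fxd w}.ncard

/-- Extension of scalars: the local conditions. -/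
def Bas1St : Prop :=
  ∀ (L : Type) [Field L] (E : Type) [NontriviallyNormedField E] [NormedAlgebra ℚ_[2] E]
    [FiniteDimensional ℚ_[2] E] (n : ℕ) (ρ : Gal L →* Matrix (Fin n) (Fin n) ℚ_[2])
    (ρ' : Gal L →* Matrix (Fin n) (Fin n) E), Eqv ρ ρ' →
    (∀ D : Set (Gal L), (∀ v, (∀ g ∈ D, ρ g *ᵥ v = v) → v = 0) → fdim (ρ' '' D) = 0) ∧
    ∀ j, (Nf0 j ρ → NoFix j ρ') ∧ ∀ h, Dr0 j ρ h → DeRham j ρ' h

/-- Extension of scalars: the Selmer group. -/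
def Bas2St : Prop :=
  ∀ (L : Type) [Field L] [NumberField L] (E : Type) [NontriviallyNormedField E]
    [NormedAlgebra ℚ_[2] E] [FiniteDimensional ℚ_[2] E] (n : ℕ)
    (ρ : Gal L →* Matrix (Fin n) (Fin n) ℚ_[2]) (ρ' : Gal L →* Matrix (Fin n) (Fin n) E),
    Eqv ρ ρ' → (Submodule.span E (Hf ρ')).FG →
    (Submodule.span ℚ_[2] (Hf ρ)).FG ∧ h1 ρ ⊤ (Hf ρ) = h1 ρ' ⊤ (Hf ρ')

/-- The theorem of Ax and Sen. -/
def AxSt : Prop :=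
  ∀ (K : IntermediateField ℚ_[2] (PadicAlgCl 2)) (y : ℂ_[2]),
    (∀ σ, Iso σ → (∀ x ∈ K, σ (x : ℂ_[2]) = x) → σ y = y) →
    y ∈ closure ((↑) '' (K : Set (PadicAlgCl 2)) : Set ℂ_[2])

/-- The theorem of Tate. -/
def TateSt : Prop :=
  ∀ (r : ℤ) (y : ℂ_[2]), (∀ σ, Iso σ →
    σ y = algebraMap ℚ_[2] ℂ_[2] (cyclotomicCharacter ℂ_[2] 2 σ : ℤ_[2]) ^ r * y) →
    (r = 0 → ∃ c : ℚ_[2], y = algebraMap _ _ c) ∧ (r ≠ 0 → y = 0)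

/-- At a split prime every isometry comes from the decomposition group; every prime above `2`
comes from an embedding. -/
def AllSt : Prop :=
  ∀ (L : Type) [Field L] [NumberField L] [IsCMField L], Module.finrank ℚ L = 2 →
    (∀ j : AlgebraicClosure L →+* ℂ_[2], ¬Nonsplit (pj j) → ∀ σ, Iso σ →
      ∃ g ∈ Dec (pj j), ∀ x, σ (j x) = j (g x)) ∧
    ∀ 𝔓 : Idl L, 𝔓.IsMaximal → 2 ∈ 𝔓 → ∃ j, 𝔓 = pj j

/-- The map from `A_cris` to `B_dR⁺` is injective. -/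
def InjSt : Prop :=
  ∃ β : Ac →+* Bd, (∀ a, β (algebraMap Ai Ac a) = algebraMap Ai Bd a) ∧
    (∀ σ u (r : Ac →+* Ac) (s : Bd →+* Bd), Lf σ u → Ov u r → Ov u s → ∀ x, β (r x) = s (β x)) ∧
    (∀ (f : Bd →+* ℂ_[2]) (f' : Ac →+* OC), (∀ a, f (algebraMap Ai Bd a) = th a) →
      (∀ a, f' (algebraMap Ai Ac a) = th a) → ∀ x, f (β x) = f' x) ∧ Function.Injective β

/-- The period data. -/
def PT1St : Prop :=
  ∀ (G : Type) [Group G] [TopologicalSpace G] (a : G →* RingAut ℂ_[2]), (∀ g, Iso (a g)) →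
    (∀ y, Continuous fun g => a g y) → ∀ χ : G →* ℚ_[2],
    (∀ g, χ g = (cyclotomicCharacter ℂ_[2] 2 (a g) : ℤ_[2])) →
    ∃ X : PD G ℚ_[2] χ Bp Bd Bc, PT X a

/-- The invariants of the period rings. -/
def PT2St : Prop :=
  ∀ (G : Type) [Group G] [TopologicalSpace G] (a : G →* RingAut ℂ_[2]),
    (∀ σ, Iso σ → ∃ g, a g = σ) → ∀ χ : G →* ℚ_[2],
    (∀ g, χ g = (cyclotomicCharacter ℂ_[2] 2 (a g) : ℤ_[2])) →
    ∀ X : PD G ℚ_[2] χ Bp Bd Bc, PT X a → TT X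

/-- The period of an unramified character. -/
def LangSt : Prop :=
  ∀ u : ℤ_[2]ˣ, ∃ w : Aiˣ, WittVector.map fr (w : Ai) = zp u * w ∧
    ∀ σ v d, Lf σ v → Ap σ u d → WittVector.map v (w : Ai) = zp d * w

/-- Good ordinary reduction at `2`. -/
def OrdSt : Prop :=
  ∀ W : WeierstrassCurve ℤ, Odd W.Δ → Odd W.a₁ → ∀ e : Z2 →+ ℕ → (cv W ℂ_[2]).Point, TW e →
    ∃ (a : ℤ) (u : ℤ_[2]ˣ) (P : M2 ℤ_[2]), a ^ 2 ≤ 8 ∧ (u : ℤ_[2]) ^ 2 - a * u + 2 = 0 ∧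
      IsUnit P ∧ ∀ σ A, Iso σ → Mt e (gm W (σ : ℂ_[2] →+* ℂ_[2])) A →
      ∃ η b δ, A * P = P * !![η, b; 0, δ] ∧ Ap σ u δ

/-- The cocycles of a local character. -/
def H1St : Prop :=
  ∀ (L : Type) [Field L] [NumberField L] [IsCMField L], Module.finrank ℚ L = 2 →
    ∀ 𝔓 : Idl L, 𝔓.IsMaximal → 2 ∈ 𝔓 → ¬Nonsplit 𝔓 → ∀ χ : Dec 𝔓 →* ℚ_[2],
    (∀ g, χ g = cyc ℚ_[2] g.1) → H1 χ

/-- The periods in the ordinary case. -/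
def OPerSt : Prop :=
  ∀ (G : Type) [Group G] [TopologicalSpace G] [IsTopologicalGroup G] (χ : G →* ℚ_[2])
    (B D C : Type) [CommRing B] [Algebra ℚ_[2] B] [CommRing D] [Algebra ℚ_[2] D] [CommRing C]
    [Algebra ℚ_[2] C] (X : PD G ℚ_[2] χ B D C), TT X → Continuous χ → H1 χ →
    ∀ (t : G →* M2 ℚ_[2]) (a : ℤ) (u : ℤ_[2]ˣ) (P : M2 ℚ_[2]) (w : Bˣ), Continuous t →
    (∀ g, (t g).det = χ g) → a ^ 2 ≤ 8 → (u : ℤ_[2]) ^ 2 - a * u + 2 = 0 → IsUnit P →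
    X.fB w = ((u : ℤ_[2]) : ℚ_[2]) • (w : B) →
    (∀ g, ∃ η b δ, t g * P = P * !![η, b; 0, δ] ∧ X.gB g w = δ • (w : B)) → Per X t a

/-- The periods in the supersingular case. -/
def SSSt : Prop :=
  ∀ (G : Type) [Group G] [TopologicalSpace G] (a : G →* RingAut ℂ_[2]), (∀ g, Iso (a g)) →
    ∀ (χ : G →* ℚ_[2]) (X : PD G ℚ_[2] χ Bp Bd Bc), PT X a → TT X →
    ∀ W : WeierstrassCurve ℤ, Odd W.Δ → Even W.a₁ → ∀ e : Z2 →+ ℕ → (cv W ℂ_[2]).Point, TW e →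
    ∀ t : G →* M2 ℤ_[2], (∀ g, Mt e (gm W (a g : ℂ_[2] →+* ℂ_[2])) (t g)) →
    (∀ g, (tq (t g)).det = χ g) → ∃ b : ℤ, b ^ 2 ≤ 8 ∧ Per X (fun g => tq (t g)) b

/-- The periods of the symmetric powers. -/
def PerSt : Prop :=
  ∀ (G : Type) [Group G] [TopologicalSpace G] (χ : G →* ℚ_[2])
    (B D C : Type) [CommRing B] [Algebra ℚ_[2] B] [CommRing D] [Algebra ℚ_[2] D] [CommRing C]
    [Algebra ℚ_[2] C] (X : PD G ℚ_[2] χ B D C), TT X → ∀ (t : G → M2 ℚ_[2]) (a : ℤ), a ^ 2 ≤ 8 →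
    Per X t a → ∀ (k : ℕ) (ρ : G →* Matrix (Fin (2 * k + 1 + 1)) (Fin (2 * k + 1 + 1)) ℚ_[2]),
    (∀ g, ρ g = (χ g ^ k)⁻¹ • sym (2 * k + 1) (t g)) →
    X.Nf ρ ∧ X.Dr ρ fun i => k + 1 - (i : ℕ)

end Pool.Agent.SY
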