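import Pool.Agent.Lib.MP_b4b3cb_nt.SY.Ts

/-! The formal group and the statements of the steps in the supersingular case. -/

namespace Pool.Agent.SY

open Matrix WeierstrassCurve Pool.Agent.SelTwo Pool.Agent.HF
open Pool.Agent.Lib.MP_02f36d_nt (xc yc)
open scoped Classical

section

variable (W : WeierstrassCurve ℤ) {R : Type} [CommRing R]

/-- The equation in the coordinates `z = -x / y`, `w = -1 / y`. -/
def Eqn (z w : R) : Prop :=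
  w = z ^ 3 + W.a₁ * z * w + W.a₂ * z ^ 2 * w + W.a₃ * w ^ 2 + W.a₄ * z * w ^ 2 + W.a₆ * w ^ 3

/-- The points of the formal group with coordinates in `I`. -/
def FP (I : Ideal R) : Type := {p : R × R // p.1 ∈ I ∧ p.2 ∈ I ∧ Eqn W p.1 p.2}

/-- The slope of the line through two points. -/
noncomputable def sl (p q : R × R) : R :=
  (p.1 ^ 2 + p.1 * q.1 + q.1 ^ 2 + W.a₁ * p.2 + W.a₂ * (p.1 + q.1) * p.2 + W.a₄ * p.2 ^ 2) *
    Ring.inverse (1 - W.a₁ * q.1 - W.a₂ * q.1 ^ 2 - W.a₃ * (p.2 + q.2) -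
      W.a₄ * q.1 * (p.2 + q.2) - W.a₆ * (p.2 ^ 2 + p.2 * q.2 + q.2 ^ 2))

/-- The third root on the line `w = l z + n`, where `s` is the sum of the other two. -/
noncomputable def tz (l n s : R) : R :=
  -s - (W.a₁ * l + W.a₂ * n + W.a₃ * l ^ 2 + 2 * W.a₄ * l * n + 3 * W.a₆ * l ^ 2 * n) *
    Ring.inverse (1 + W.a₂ * l + W.a₄ * l ^ 2 + W.a₆ * l ^ 3)

/-- The third point on the line through two points. -/
noncomputable def tp (p q : R × R) : R × R :=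
  (tz W (sl W p q) (p.2 - sl W p q * p.1) (p.1 + q.1),
    sl W p q * tz W (sl W p q) (p.2 - sl W p q * p.1) (p.1 + q.1) + (p.2 - sl W p q * p.1))

/-- The group law is given by chords and tangents. -/
structure FL (I : Ideal R) [AddCommGroup (FP W I)] : Prop where
  zero : (0 : FP W I).1 = 0
  neg : ∀ P : FP W I, (-P).1 = tp W P.1 0
  add : ∀ P Q : FP W I, (P + Q).1 = tp W (tp W P.1 Q.1) 0

variable {W}

/-- The formal parameter. -/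
def fz {I : Ideal R} (P : FP W I) : R := P.1.1

/-- The ideal lies in the Jacobson radical. -/
def Jac (I : Ideal R) : Prop := ∀ x ∈ I, IsUnit (1 + x)

/-- The elements that are nilpotent modulo `v`. -/
def rd (v : R) : Ideal R := (Ideal.span {v}).radical

/-- `P` is the point with formal coordinates `p`. -/
def Pt {K : Type} [Field K] (ι : R →+* K) (p : R × R) (P : (cv W K).Point) : Prop :=
  (p.1 = 0 ∧ P = 0) ∨ (p.1 ≠ 0 ∧ P ≠ 0 ∧ xc P * ι p.2 = ι p.1 ∧ yc P * ι p.2 = -1)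

/-- The properties of the formal parameter of a supersingular formal group. -/
structure FG {A : Type} [AddCommGroup A] (z : A → R) : Prop where
  inj : Function.Injective z
  zero : z 0 = 0
  add1 : ∀ P Q, z Q ∣ z (P + Q) - z P
  add2 : ∀ y P Q, y ∣ z P → y ∣ z Q → y ^ 2 ∣ z (P + Q) - z P - z Q
  add3 : ∀ P Q, z P - z Q ∣ z (P - Q)
  two : ∀ P, ∃ r s, z (2 • P) = 2 * z P + 2 * z P ^ 2 * r + z P ^ 4 * (1 + z P * s)

end

/-- A compatible sequence. -/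
def Cm {A : Type} [AddCommGroup A] (p : ℕ → A) : Prop := ∀ n, 2 • p (n + 1) = p n

/-- The formal points form a subgroup of the points over a field. -/
def GrpSt : Prop :=
  ∀ (W : WeierstrassCurve ℤ) (R K : Type) [CommRing R] [Field K] [DecidableEq K] (ι : R →+* K),
    Function.Injective ι → (cv W K).Δ ≠ 0 → ∀ I : Ideal R, Jac I →
    (∃ _ : AddCommGroup (FP W I), FL W I) ∧ ∀ _ : AddCommGroup (FP W I), FL W I →
      ∃ π : FP W I →+ (cv W K).Point, Function.Injective π ∧ ∀ P, Pt ι P.1 (π P)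

/-- Properties of the group law. -/
def FGSt : Prop :=
  ∀ (W : WeierstrassCurve ℤ) (R : Type) [CommRing R] (I : Ideal R) [AddCommGroup (FP W I)],
    Jac I → FL W I → (Even W.a₁ → Odd W.a₃ → FG (fz : FP W I → R)) ∧
    ∀ (R' : Type) [CommRing R'] (I' : Ideal R') [AddCommGroup (FP W I')], Jac I' → FL W I' →
      (∀ f : R →+* R', (∀ x ∈ I, f x ∈ I') →
        ∃ φ : FP W I →+ FP W I', ∀ P, (φ P).1 = (f P.1.1, f P.1.2)) ∧
      ∀ (S : Type) [CommRing S] (f : R →+* S) (f' : R' →+* S),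
        (∀ x ∈ I, ∀ s, IsUnit (1 + f x * s)) → ∃ H : AddSubgroup (FP W I × FP W I'),
          ∀ P P', (P, P') ∈ H ↔ f (fz P) = f' (fz P')

/-- Existence of formal points. -/
def HenSt : Prop :=
  ∀ (W : WeierstrassCurve ℤ) (R : Type) [CommRing R] (v : R), Cpl v →
    Jac (rd v) ∧ ∀ z ∈ rd v, ∃ P : FP W (rd v), fz P = z

/-- Facts on the period rings. -/
def AcSt : Prop :=
  IsDomain Ac ∧ Cpl (1 + SelTwo.eta : Ti) ∧
    (∀ θ : Ac →+* OC, (∀ a, θ (algebraMap Ai Ac a) = th a) → (∀ y, 2 ∣ θ y → 2 ∣ y ^ 2) ∧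
      ∀ σ u (r : Ac →+* Ac), Lf σ u → Ov u r → ∀ y, (θ (r y) : ℂ_[2]) = σ (θ y)) ∧
    (∀ ph : Ac →+* Ac, Ov fr ph → ∀ y, 2 ∣ ph y - y ^ 2) ∧
    ∃ κ : Ti →+* Ac ⧸ Ideal.span {(2 : Ac)}, ∀ x, κ x =
      Ideal.Quotient.mk _ (algebraMap Ai Ac (WittVector.teichmuller 2 x))

/-- The canonical lift of a compatible sequence. -/
def ZSt : Prop :=
  ∀ (R O A A' : Type) [CommRing R] [CommRing O] [AddCommGroup A] [AddCommGroup A'] (θ : R →+* O)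
    (z : A → R) (z' : A' → O) (T : A →+ A'), FG z → FG z' → (∀ P, z' (T P) = θ (z P)) →
    Function.Surjective T → Cpl (2 : R) → Cpl (2 : O) → (∀ P x, 2 ∣ x - z P → ∃ Q, z Q = x) →
    (∀ y, 2 ∣ θ y → 2 ∣ y ^ 2) → ∃ Z : (ℕ → A') → A, ∀ p, Cm p →
      (∀ q, Cm q → Z (p + q) = Z p + Z q) ∧ T (Z p) = p 0 ∧ 2 • Z (fun n => p (n + 1)) = Z p ∧
      (∀ (ρ : A →+ A) (σ : A' →+ A'), (∀ n P, 2 ^ n ∣ z P → 2 ^ n ∣ z (ρ P)) →
        (∀ P, T (ρ P) = σ (T P)) → ρ (Z p) = Z fun n => σ (p n)) ∧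
      ∀ ψ : A →+ A, (∀ n P, 2 ^ n ∣ z P → 2 ^ n ∣ z (ψ P)) →
        (∀ n, ∃ P, T P = p n ∧ 2 ∣ z (ψ P)) → ψ (Z p) = 0

/-- The logarithm. -/
def LogSt : Prop :=
  ∀ (R A : Type) [CommRing R] [AddCommGroup A] (z : A → R), FG z → Cpl (2 : R) →
    (∀ x : R, 2 * x = 0 → x = 0) → ∃ l : A → R, ∀ P, 4 ∣ z P →
      (∀ Q, 4 ∣ z Q → l (P + Q) = l P + l Q) ∧ (l P = 0 → P = 0) ∧
      (∀ n, 2 ^ (2 * n) ∣ z (2 ^ n • P) - 2 ^ n * l P) ∧
      ∀ (ρ : A →+ A) (r : R →+* R), (∀ Q, z (ρ Q) = r (z Q)) → l (ρ P) = r (l P)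

/-- The size of the torsion points. -/
def TorSt : Prop :=
  ∀ (A : Type) [AddCommGroup A] (z : A → OC), FG z → (∀ P, z P ∈ rd (2 : OC)) → ∀ P Q : A,
    2 • P = 0 → P ≠ 0 → 2 ∣ z Q - z P ^ 2 → ∀ n : ℕ, 2 ^ n • Q ≠ 0

/-- The torsion points are formal. -/
def FmSt : Prop :=
  ∀ W : WeierstrassCurve ℤ, Odd W.Δ → Even W.a₁ → Odd W.a₃ ∧
    ∀ (P : (cv W ℂ_[2]).Point) (n : ℕ), 2 ^ n • P = 0 →
      ∃ p : FP W (rd (2 : OC)), Pt (PadicComplexInt 2).subtype p.1 P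

/-- The equation of the Frobenius on the formal points over the tilt. -/
def RelSt : Prop :=
  ∀ W : WeierstrassCurve ℤ, Odd W.Δ → Even W.a₁ → Odd W.a₃ → ∃ a : ℤ, Even a ∧ a ^ 2 ≤ 8 ∧
    ∀ [AddCommGroup (FP W (rd (1 + SelTwo.eta : Ti)))], FL W (rd (1 + SelTwo.eta : Ti)) →
    ∀ F : FP W (rd (1 + SelTwo.eta : Ti)) →+ FP W (rd (1 + SelTwo.eta : Ti)),
    (∀ P, fz (F P) = fz P ^ 2) → ∀ P, F (F P) - a • F P + 2 • P = 0

/-- The periods of the formal group. -/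
def OmSt : Prop :=
  ∀ W : WeierstrassCurve ℤ, Odd W.Δ → Even W.a₁ → ∀ e : Z2 →+ ℕ → (cv W ℂ_[2]).Point, TW e →
    ∃ (b : ℤ) (ω : Z2 →+ Ac), Even b ∧ b ^ 2 ≤ 8 ∧ ω ≠ 0 ∧
      (∀ θ : Ac →+* OC, (∀ a, θ (algebraMap Ai Ac a) = th a) → ∀ x, θ (ω x) = 0) ∧
      (∀ ph : Ac →+* Ac, Ov fr ph → ∀ x, ph (ph (ω x)) - b * ph (ω x) + 2 * ω x = 0) ∧
      ∀ σ u (r : Ac →+* Ac) A, Lf σ u → Ov u r → Mt e (gm W (σ : ℂ_[2] →+* ℂ_[2])) A →
        ∀ x, r (ω x) = ω (A *ᵥ x)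

/-- The period matrix in the supersingular case. -/
def SPerSt : Prop :=
  ∀ (G : Type) [Group G] [TopologicalSpace G] (χ : G →* ℚ_[2])
    (B D C : Type) [CommRing B] [Algebra ℚ_[2] B] [CommRing D] [Algebra ℚ_[2] D] [CommRing C]
    [Algebra ℚ_[2] C] (X : PD G ℚ_[2] χ B D C), TT X → Function.Injective X.β →
    (∀ y, ¬X.β X.t ∣ y → IsUnit y) → (∀ y, (∀ N : ℕ, X.β X.t ^ N ∣ y) → y = 0) →
    ∀ (t : G → M2 ℚ_[2]) (a : ℤ) (ω : Fin 2 → B), (∀ g, (t g).det = χ g) → Even a → ω ≠ 0 →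
    (∀ i, X.β X.t ∣ X.β (ω i)) → (∀ i, X.fB (X.fB (ω i)) - a * X.fB (ω i) + 2 * ω i = 0) →
    (∀ g j, X.gB g (ω j) = ∑ i, t g i j • ω i) → Per X t a

end Pool.Agent.SY
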