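import Pool.Agent.Lib.MP_b4b3cb_nt.HF.Stmt6

/-! The Tate module of an elliptic curve and the symmetric powers. -/

namespace Pool.Agent.SymTwo

open Matrix Polynomial WeierstrassCurve
open scoped Classical

/-- The matrix of `A` on the forms of degree `m`, in the basis of monomials. -/
noncomputable def sym {R : Type} [CommRing R] (m : ℕ) (A : Matrix (Fin 2) (Fin 2) R) :
    Matrix (Fin (m + 1)) (Fin (m + 1)) R := fun i j =>
  ((C (A 0 0) + C (A 1 0) * X) ^ (m - j) * (C (A 0 1) + C (A 1 1) * X) ^ (j : ℕ)).coeff i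

/-- `t` is the action of the Galois group on the `2`-adic Tate module of `W` in a basis `e`. -/
def Tate {L : Type} [Field L] (W : WeierstrassCurve ℤ)
    (t : SelTwo.Gal L → Matrix (Fin 2) (Fin 2) ℤ_[2]) : Prop :=
  ∃ e : (Fin 2 → ℤ_[2]) →+ ℕ → (W.baseChange (AlgebraicClosure L)).toAffine.Point,
    Function.Injective e ∧ (∀ Q, Q ∈ Set.range e ↔ Q 0 = 0 ∧ ∀ n, 2 • Q (n + 1) = Q n) ∧
    ∀ g x n, e (t g *ᵥ x) n = Affine.Point.map (W' := W) g.toAlgHom (e x n)

end Pool.Agent.SymTwo
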