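import Pool.Agent.Lib.MP_b4b3cb_nt.SY.St

/-! Elementary facts on Tate modules and on reduction. -/

namespace Pool.Agent.SY

open Matrix WeierstrassCurve Polynomial
open Pool.Agent.Lib.MP_02f36d_nt

section

variable {A A' : Type} [AddCommGroup A] [AddCommGroup A'] {e : Z2 →+ ℕ → A} {f g : A → A}
  {M N : M2 ℤ_[2]}

theorem zp_ext {c : ℤ_[2]} (h : ∀ n : ℕ, 2 ^ n ∣ c) : c = 0 := by
  by_contra hc
  have := (PadicInt.mem_span_pow_iff_le_valuation c hc (c.valuation + 1)).1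
    (Ideal.mem_span_singleton.2 (h _))
  omega

theorem zp_appr (c : ℤ_[2]) (n : ℕ) : ∃ r : ℕ, 2 ^ n ∣ c - r :=
  ⟨c.appr n, Ideal.mem_span_singleton.1 (PadicInt.appr_spec n c)⟩

theorem TW.zero (h : TW e) (x : Z2) : e x 0 = 0 := (h.ker x 0).2 fun i => by simp

theorem TW.pow (h : TW e) (x : Z2) (n m : ℕ) : 2 ^ m • e x (n + m) = e x n := by
  induction m with
  | zero => simp
  | succ m ih => rw [pow_succ, mul_smul, ← add_assoc, h.two, ih]

theorem TW.tor (h : TW e) (x : Z2) (n : ℕ) : 2 ^ n • e x n = 0 := by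
  simpa [h.zero] using h.pow x 0 n

theorem TW.cong (h : TW e) {x y : Z2} {n : ℕ} : e x n = e y n ↔ ∀ i, 2 ^ n ∣ x i - y i := by
  rw [← sub_eq_zero, ← Pi.sub_apply, ← map_sub]
  exact h.ker _ _

theorem TW.inj (h : TW e) {x y : Z2} (H : ∀ n, e x n = e y n) : x = y :=
  funext fun i => sub_eq_zero.1 (zp_ext fun n => h.cong.1 (H n) i)

theorem TW.smul (h : TW e) {c : ℤ_[2]} {r : ℤ} {n : ℕ} (d : 2 ^ n ∣ c - r) (x : Z2) :
    e (c • x) n = r • e x n := by
  rw [← Pi.smul_apply, ← map_zsmul]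
  refine h.cong.2 fun i => ?_
  simpa [← sub_mul] using d.mul_right (x i)

theorem TW.uniq (h : TW e) (a : Mt e f M) (b : Mt e f N) : M = N :=
  Matrix.ext_iff_mulVec.2 fun x => h.inj fun n => (a x n).trans (b x n).symm

theorem Mt.mul (a : Mt e f M) (b : Mt e g N) : Mt e (f ∘ g) (M * N) := fun x n => by
  rw [← mulVec_mulVec, a, b, Function.comp]

theorem Mt.one : Mt e id 1 := fun x n => by simp

theorem Mt.congr (a : Mt e f M) (h : ∀ P, f P = g P) : Mt e g M := fun x n => (a x n).trans (h _)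

/-- The image of a system under a homomorphism. -/
noncomputable def em (φ : A →+ A') (e : Z2 →+ ℕ → A) : Z2 →+ ℕ → A' := (φ.compLeft ℕ).comp e

theorem em_apply (φ : A →+ A') (x : Z2) (n : ℕ) : em φ e x n = φ (e x n) := rfl

theorem TW.em (h : TW e) (φ : A →+ A') (i : ∀ P, 2 • P = 0 → φ P = 0 → P = 0) : TW (em φ e) where
  two x n := by rw [em_apply, em_apply, ← map_nsmul, h.two]
  ker x n := by
    rw [em_apply, ← h.ker]
    refine ⟨fun p => ?_, fun p => by rw [p, map_zero]⟩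
    have : ∀ (m : ℕ) (P : A), 2 ^ m • P = 0 → φ P = 0 → P = 0 := fun m => by
      induction m with
      | zero => simp +contextual
      | succ m ih =>
        intro P a b
        exact i P (ih _ (by rw [← mul_smul, ← pow_succ, a]) (by rw [map_nsmul, b, smul_zero])) b
    exact this n _ (h.tor x n) p

theorem Mt.em (a : Mt e f M) (φ : A →+ A') {f' : A' → A'} (h : ∀ P, φ (f P) = f' (φ P)) :
    Mt (em φ e) f' M := fun x n => by rw [em_apply, em_apply, a, h]

theorem TS.mat (h : TS e) (f : A →+ A) : ∃ M, Mt e f M := by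
  choose c hc using fun i : Fin 2 => h.all (fun n => f (e (Pi.single i 1) n))
    (by rw [h.toTW.zero, map_zero]) fun n => by rw [← map_nsmul, h.two]
  refine ⟨(of c)ᵀ, fun x n => ?_⟩
  obtain ⟨r, hr⟩ := zp_appr (x 0) n
  obtain ⟨s, hs⟩ := zp_appr (x 1) n
  have e1 : (of c)ᵀ *ᵥ x = x 0 • c 0 + x 1 • c 1 := by
    ext i
    simp [mulVec, dotProduct, mul_comm]
  have e2 : x = x 0 • Pi.single 0 1 + x 1 • Pi.single 1 1 := by
    ext i
    fin_cases i <;> simp
  rw [e1]
  conv_rhs => rw [e2]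
  simp only [map_add, Pi.add_apply, h.toTW.smul (r := r) hr, h.toTW.smul (r := s) hs, map_zsmul, hc]

theorem TS.sur (h : TS e) (hd : ∀ P : A, ∃ Q, 2 • Q = P) {n : ℕ} {P : A} (hP : 2 ^ n • P = 0) :
    ∃ x, e x n = P := by
  choose d hd using hd
  obtain ⟨x, hx⟩ := h.all (fun m => 2 ^ n • d^[m] P) hP fun m => by
    rw [smul_comm, Function.iterate_succ_apply', hd]
  refine ⟨x, ?_⟩
  have : ∀ m, 2 ^ m • d^[m] P = P := fun m => by
    induction m with
    | zero => simp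
    | succ m ih => rw [pow_succ, mul_smul, Function.iterate_succ_apply', hd, ih]
  rw [hx]
  exact this n

theorem ts_of (i : Function.Injective e)
    (h : ∀ Q, Q ∈ Set.range e ↔ Q 0 = 0 ∧ ∀ n, 2 • Q (n + 1) = Q n) : TS e := by
  have a := fun x => (h (e x)).1 ⟨x, rfl⟩
  have p : ∀ x n m, 2 ^ m • e x (n + m) = e x n := fun x n m => by
    induction m with
    | zero => simp
    | succ m ih => rw [pow_succ, mul_smul, ← add_assoc, (a x).2, ih]
  refine ⟨⟨fun x => (a x).2, fun x n => ⟨fun q => ?_, fun q => ?_⟩⟩, fun Q b c => (h Q).2 ⟨b, c⟩⟩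
  · obtain ⟨y, hy⟩ := (h fun m => e x (m + n)).2
      ⟨by simpa using q, fun m => by rw [add_right_comm, (a x).2]⟩
    have : x = 2 ^ n • y := i (funext fun m => by rw [map_nsmul, Pi.smul_apply, hy, p])
    exact fun i => ⟨y i, by simp [this]⟩
  · choose y hy using q
    have : x = 2 ^ n • y := funext fun i => by simp [hy]
    rw [this, map_nsmul, Pi.smul_apply]
    simpa [(a y).1] using p y 0 n

end

theorem tq_mul (A B : M2 ℤ_[2]) : tq (A * B) = tq A * tq B :=
  Matrix.map_mul (f := PadicInt.Coe.ringHom)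

theorem tq_one : tq 1 = 1 := Matrix.map_one _ rfl rfl

theorem tq_det (A : M2 ℤ_[2]) : (tq A).det = A.det := by simp [tq, det_fin_two]

theorem tq_trace (A : M2 ℤ_[2]) : (tq A).trace = A.trace := by simp [tq, trace_fin_two]

theorem tq_inj {A B : M2 ℤ_[2]} (h : tq A = tq B) : A = B :=
  Matrix.map_injective Subtype.val_injective h

/-- A basis adapted to a nonzero vector. -/
theorem exP {x : Z2} (hx : x ≠ 0) : ∃ P : M2 ℚ_[2], IsUnit P ∧ ∀ (A : M2 ℤ_[2]) (c : ℤ_[2]),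
    A *ᵥ x = c • x → ∃ b d, tq A * P = P * !![(c : ℚ_[2]), b; 0, d] ∧ c * d = (tq A).det := by
  obtain ⟨y, hy⟩ : ∃ y : Z2, (x 0 * y 1 - y 0 * x 1 : ℚ_[2]) ≠ 0 := by
    by_contra! H
    have a := H ![0, 1]
    have b := H ![1, 0]
    exact hx (funext fun i => by fin_cases i <;> simp_all)
  have u : IsUnit (!![(x 0 : ℚ_[2]), y 0; x 1, y 1]) :=
    (isUnit_iff_isUnit_det _).2 (by rw [det_fin_two_of]; exact hy.isUnit)
  refine ⟨_, u, fun A c h => ?_⟩
  obtain ⟨T, hT⟩ : ∃ T, tq A * !![(x 0 : ℚ_[2]), y 0; x 1, y 1] =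
      !![(x 0 : ℚ_[2]), y 0; x 1, y 1] * T :=
    ⟨_, (mul_nonsing_inv_cancel_left _ _ ((isUnit_iff_isUnit_det _).1 u)).symm⟩
  have h0 := congrArg (↑) (congrFun h 0) (β := ℚ_[2])
  have h1 := congrArg (↑) (congrFun h 1) (β := ℚ_[2])
  have t0 := congrFun (congrFun hT 0) 0
  have t1 := congrFun (congrFun hT 1) 0
  simp [tq, mulVec, dotProduct, mul_apply] at h0 h1 t0 t1
  have a : T 0 0 = c := mul_left_cancel₀ hy (by linear_combination y 1 * (h0 - t0) - y 0 * (h1 - t1))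
  have b : T 1 0 = 0 := mul_left_cancel₀ hy (by linear_combination x 0 * (h1 - t1) - x 1 * (h0 - t0))
  have d := congrArg det hT
  rw [det_mul, det_mul, mul_comm, det_fin_two T, a, b, mul_zero, sub_zero] at d
  refine ⟨T 0 1, T 1 1, hT.trans (congrArg _ ?_),
    (mul_left_cancel₀ ((isUnit_iff_isUnit_det _).1 u).ne_zero d).symm⟩
  rw [← a, ← b]
  exact eta_fin_two T

section

variable {F : Type} [Field F] [DecidableEq F] {V : Affine F}

theorem half_of (hΔ : V.Δ ≠ 0) [IsAlgClosed F] {P : V.Point} (hP : P ≠ 0) {x : F}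
    (h : x ^ 4 - V.b₄ * x ^ 2 - 2 * V.b₆ * x - V.b₈ =
      xc P * (4 * x ^ 3 + V.b₂ * x ^ 2 + 2 * V.b₄ * x + V.b₆)) :
    ∃ Q : V.Point, Q ≠ 0 ∧ xc Q = x ∧ 2 • Q = P := by
  obtain ⟨y, hy⟩ := exists_eqn V x
  have ns := (Affine.equation_iff_nonsingular_of_Δ_ne_zero hΔ).1 hy
  have ev := eval_Psi V hy
  simp only [Ψ₂Sq, eval_add, eval_mul, eval_C, eval_pow, eval_X] at ev
  have hY : 2 * y + V.a₁ * x + V.a₃ ≠ 0 := fun z => by
    rw [z] at ev
    rcases addSub_ne hΔ (s := x ^ 2) (t := 2 * x) (u := 1) (by simp) with a | a | a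
    · exact a (by linear_combination h + xc P * ev)
    · exact a (by linear_combination ev)
    · exact a (by ring)
  obtain ⟨a, b⟩ := xc_two (P := .some x y ns) (Affine.Point.some_ne_zero ns) hY
  rw [xc_some, h] at b
  rcases eq_or_neg_of_xc a hP (mul_right_cancel₀ (ev ▸ pow_ne_zero 2 hY) b) with c | c
  · exact ⟨_, Affine.Point.some_ne_zero ns, rfl, by rw [two_nsmul, c]⟩
  · exact ⟨-.some x y ns, neg_ne_zero.2 (Affine.Point.some_ne_zero ns), xc_neg _,
      by rw [smul_neg, two_nsmul, c, neg_neg]⟩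

theorem half (hΔ : V.Δ ≠ 0) [IsAlgClosed F] (P : V.Point) : ∃ Q, 2 • Q = P := by
  by_cases hP : P = 0
  · exact ⟨0, by simp [hP]⟩
  obtain ⟨x, hx⟩ := IsAlgClosed.exists_root (X ^ 4 - C V.b₄ * X ^ 2 - C (2 * V.b₆) * X - C V.b₈ -
    C (xc P) * (C 4 * X ^ 3 + C V.b₂ * X ^ 2 + C (2 * V.b₄) * X + C V.b₆) : F[X])
    (by rw [show Polynomial.degree _ = 4 by compute_degree!]; decide)
  simp only [IsRoot, eval_sub, eval_add, eval_mul, eval_C, eval_pow, eval_X] at hx
  exact (half_of hΔ hP (sub_eq_zero.1 hx)).imp fun Q h => h.2.2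

end

section

variable {W : WeierstrassCurve ℤ} {F F' F'' : Type} [Field F] [Field F'] [Field F'']

theorem cv_Δ (h : W.Δ ≠ 0) [CharZero F] : (cv W F).Δ ≠ 0 := by
  simpa [cv, baseChange] using h

variable [DecidableEq F] [DecidableEq F'] [DecidableEq F'']

theorem gm_gm (σ : F' →+* F'') (τ : F →+* F') (P : (cv W F).Point) :
    gm W σ (gm W τ P) = gm W (σ.comp τ) P := by cases P <;> rfl

theorem gm_id (P : (cv W F).Point) : gm W (RingHom.id F) P = P := by cases P <;> rfl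

theorem gm_inj (σ : F →+* F') : Function.Injective (gm W σ) := ptMap_injective _

end

section

variable {Ω k : Type} [Field Ω] [Field k] {p : Place Ω k} {V : Affine Ω} {U : Affine k}
  {σ : Ω →+* Ω} {φ : k →+* k}

theorem Cp.notMem (h : Cp p σ φ) {x : Ω} (hx : x ∉ p.A) : σ x ∉ p.A := fun m => by
  have a := (sp_of_mem m).mul (h _ _ (sp_inv_of_notMem hx))
  rw [← map_mul, mul_inv_cancel₀ (fun z : x = 0 => hx (z ▸ zero_mem _)), map_one, map_zero,
    mul_zero] at a
  exact one_ne_zero (sp_one.unique a)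

theorem Cp.map_eq (h : Cp p σ φ) (s : SpW p V U) (e : V.map σ = V) : U.map φ = U := by
  have := s.map (q := p) h
  rw [e] at this
  exact WeierstrassCurve.ext (this.h1.unique s.h1) (this.h2.unique s.h2) (this.h3.unique s.h3)
    (this.h4.unique s.h4) (this.h6.unique s.h6)

theorem spW_cv (p : Place Ω k) (W : WeierstrassCurve ℤ) : SpW p (cv W Ω) (cv W k) := by
  have : ∀ n : ℤ, Sp p n n := fun n => ⟨intCast_mem _ n, map_intCast p.ρ n⟩
  exact ⟨this _, this _, this _, this _, this _⟩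

variable [DecidableEq Ω] [DecidableEq k]

theorem Cp.red (h : Cp p σ φ) (e : V.map σ = V) (e' : U.map φ = U) {P : V.Point} {q : U.Point}
    (r : Red p P q) : Red p (ptMap σ e P) (ptMap φ e' q) := by
  rcases r with ⟨rfl, rfl | r⟩ | ⟨a, b, c, d⟩
  · rw [map_zero, map_zero]; exact red_zero
  · exact Or.inl ⟨map_zero _, Or.inr (by rw [xc_ptMap]; exact h.notMem r)⟩
  · exact Or.inr ⟨ptMap_ne _ a, ptMap_ne _ b, by rw [xc_ptMap, xc_ptMap]; exact h _ _ c,
      by rw [yc_ptMap, yc_ptMap]; exact h _ _ d⟩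

/-- The reduction map at a place of good reduction. -/
theorem exRed [IsAlgClosed Ω] [IsAlgClosed k] (hs : Function.Surjective p.ρ) (s : SpW p V U)
    (hU : U.Δ ≠ 0) : ∃ r : V.Point →+ U.Point, ∀ P, Red p P (r P) := by
  have : ∀ P : V.Point, ∃ q : U.Point, Red p P q := fun P => by
    by_cases a : P = 0 ∨ xc P ∉ p.A
    · exact ⟨0, Or.inl ⟨rfl, a⟩⟩
    push Not at a
    have b := sp_of_mem a.2
    have c := sp_of_mem (s.y_mem a.1 a.2)
    have ns := (Affine.equation_iff_nonsingular_of_Δ_ne_zero hU).1 (s.equation a.1 b c)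
    exact ⟨.some _ _ ns, Or.inr ⟨a.1, Affine.Point.some_ne_zero ns, b, c⟩⟩
  choose r hr using this
  exact ⟨AddMonoidHom.mk' r fun P Q => (hr _).unique (Red.add hs (s.Δ.ne_zero hU)
    (sep_of_c4 (Or.inr hU)) s (hr P) (hr Q)), hr⟩

end

end Pool.Agent.SY
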